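import Pool.Agent.Lib.MP_0d9445_pr.Bd.Defs
import Pool.Agent.Lib.MP_0d9445_pr.Walk.Iface

/-!
# Interface statements of the walk layer for domains with boundary (problem 0d9445)
-/

noncomputable section

open MeasureTheory ProbabilityTheory Set Filter Topology
open scoped NNReal ENNReal Classical

namespace Pool.Agent.Lib.MP_0d9445_pr.Bd

open BM Cell Walk

/-- The driving path `b` from `z` and its clock `A`, in half-plane coordinates. -/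
structure Drv {Ω : Type} [MeasurableSpace Ω] (P : Measure Ω) (Z : Set ℂ) (μ : Measure ℂ)
    (b : Ω → ℝ≥0 → ℂ) (A : Ω → ℝ≥0 → ℝ) (z : ℂ) : Prop where
  all : ∀ K, IsCompact K → K ⊆ UH \ Z → LBMAll K μ
  pack : ∀ U, IsOpen U → Bornology.IsBounded U → closure U ⊆ UH \ Z → z ∈ U →
    PathPack P U z (fun t ω => lbmPath (b ω) (A ω) U t) (fun ω => exitClock (b ω) (A ω) U) ∧
    ∀ u φ, Continuous u → Continuous φ → WeakSol U μ u φ →
      MartPair P (fun t ω => lbmPath (b ω) (A ω) U t) (fun ω => exitClock (b ω) (A ω) U) u φ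
  path : ∀ᵐ ω ∂P, ∃ S, b ω S ∉ UH ∧ ContinuousOn (b ω) (Icc 0 S) ∧ ∀ s ≤ S, b ω s ∉ Z

/-- The cells `C'` in the domain `O` are the images under `χ` of the cells `C`. -/
structure Rel (χ : ℂ → ℂ) (O : Set ℂ) (C C' : ℕ → Cells) : Prop where
  V : ∀ n, (C' n).V = χ '' (C n).V
  H : ∀ n, ∀ x ∈ (C n).V, ∀ w ∈ closure UH, w ∈ (C n).H x ↔ χ w ∈ (C' n).H (χ x)
  stop : ∀ K, IsCompact K → K ⊆ closure UH → ∀ᶠ n in atTop, ∀ x ∈ (C n).V, x ∈ K →
    (C n).H x ⊆ UH → (C' n).H (χ x) ⊆ O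

/-- The inverse chart, with a value outside the closed half-plane where it is not defined. -/
def kap (χi : ℂ → ℂ) (O E : Set ℂ) (y : ℂ) : ℂ := if y ∈ closure O \ E then χi y else -Complex.I

/-- Convergence of the walks seen through `ψ`, for bounded Lipschitz functionals. -/
def ConvO {Ω : Type} [MeasurableSpace Ω] (P : Measure Ω) (ψ : ℂ → ℂ) (Y : ℝ → Ω → ℂ)
    (St : ℕ → ℂ → Set ℂ) (x : ℕ → ℂ) (m : ℕ → ℝ) : Prop :=
  ∀ (T : ℝ), 0 < T → ∀ (F : C(Icc (0 : ℝ) T, ℂ) → ℝ) (L : ℝ≥0) (c : ℝ), LipschitzWith L F →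
    (∀ y, |F y| ≤ c) → AEStronglyMeasurable (fun ω => F (toC T fun t => ψ (Y t ω))) P ∧
    Tendsto (fun n => walkExp (St n) (⌈m n * T⌉₊ + 1) (x n)
      fun w => F (toC T (interp (m n) fun i => ψ (w i))))
      atTop (𝓝 (∫ ω, F (toC T fun t => ψ (Y t ω)) ∂P))

/-- LocalA: the local theorem for an abstract solution of the martingale problem. -/
def LocalA : Prop :=
  ∀ {Ω : Type} [MeasurableSpace Ω] (P : Measure Ω) [IsProbabilityMeasure P] (O U : Set ℂ)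
    μ C Γ a M x z (Y : ℝ → Ω → ℂ) (σ : Ω → ℝ), IsOpen O → Env O μ C Γ a M → BadNegl O C Γ M x →
    (∀ᶠ n in atTop, x n ∈ (C n).V) → Tendsto x atTop (𝓝 z) → IsOpen U →
    Bornology.IsBounded U → closure U ⊆ O → Frames U → z ∈ U →
    (∀ K, IsCompact K → K ⊆ O → LBMAll K μ) → PathPack P U z Y σ →
    (∀ u φ, Continuous u → Continuous φ → WeakSol U μ u φ → MartPair P Y σ u φ) →
      (∃ R : ℕ → Set ℂ, (∀ᶠ n in atTop, x n ∈ R n ∧ R n ⊆ (C n).V ∧ Closed ((C n).step U) (R n)) ∧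
        ∀ ε > 0, ∀ᶠ n in atTop, ∀ y ∈ R n, (∀ w ∈ (C n).H y, dist w y ≤ ε) ∧
          ∀ y' ∈ (C n).step U y, ‖y - y'‖ ≤ ε) ∧
      Tendsto (fun n => M n / (2 * a n)) atTop atTop ∧
      PathConvLip P Y (fun n => (C n).step U) x (fun n => M n / (2 * a n))

/-- MapW: the walk expectation under an injective map of the vertices. -/
def MapW : Prop :=
  ∀ (St St' : ℂ → Set ℂ) (V : Set ℂ) (ψ : ℂ → ℂ) (L : ℕ) (x : ℂ) (G : (ℕ → ℂ) → ℝ),
    InjOn ψ V → x ∈ V → (∀ y ∈ V, St y ⊆ V ∧ St' (ψ y) = ψ '' St y) →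
      walkExp St' L (ψ x) G = walkExp St L x fun w => G fun i => ψ (w i)

/-- P3x: from Lipschitz to continuous functionals, for arbitrary step rules. -/
def P3x : Prop :=
  ∀ {Ω : Type} [MeasurableSpace Ω] (P : Measure Ω) [IsProbabilityMeasure P] St x m
    (Y : ℝ → Ω → ℂ), PathConvLip P Y St x m → PathConv P Y St x m

/-- Push: the walk seen through a Lipschitz map. -/
def Push : Prop :=
  ∀ {Ω : Type} [MeasurableSpace Ω] (P : Measure Ω) [IsProbabilityMeasure P] St (R : ℕ → Set ℂ) x m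
    (Y : ℝ → Ω → ℂ) (ψ : ℂ → ℂ) (Λ : ℝ≥0), LipschitzWith Λ ψ →
    (∀ᶠ n in atTop, x n ∈ R n ∧ Closed (St n) (R n)) →
    (∀ ε > 0, ∀ᶠ n in atTop, ∀ y ∈ R n, ∀ y' ∈ St n y, ‖y - y'‖ ≤ ε) → Tendsto m atTop atTop →
    (∀ᵐ ω ∂P, Continuous fun t => Y t ω) → PathConvLip P Y St x m → ConvO P ψ Y St x m

/-- LbmInc: the stopped paths along an increasing sequence of open sets. -/
def LbmInc : Prop :=
  ∀ (b : ℝ≥0 → ℂ) (A : ℝ≥0 → ℝ) (U : ℕ → Set ℂ) (O : Set ℂ) (S : ℝ≥0), ContinuousOn b (Icc 0 S) →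
    b S ∉ O → (∀ k, IsOpen (U k) ∧ U k ⊆ O) → Monotone U →
    (∀ s ≤ S, b s ∈ O → ∃ k, b s ∈ U k) →
      (∀ k t, lbmPath b A (U k) t ∈ b '' Icc 0 S) ∧ (∀ t, lbmPath b A O t ∈ b '' Icc 0 S) ∧
      TendstoUniformly (fun k t => lbmPath b A (U k) t) (lbmPath b A O) atTop

/-- Conf: weak solutions under a conformal map. -/
def Conf : Prop :=
  ∀ (χ χi : ℂ → ℂ) (O E U : Set ℂ) (μ : Measure ℂ) (u φ u' φ' : ℂ → ℝ), Chart χ χi O E →
    μ UHᶜ = 0 → IsOpen U → U ⊆ UH → Continuous u → Continuous φ → Continuous u' →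
    Continuous φ' → (∀ w ∈ U, u' (χ w) = u w ∧ φ' (χ w) = φ w) → WeakSol U μ u φ →
      WeakSol (χ '' U) (μ.map χ) u' φ'

/-- DrvC: Brownian motion in `O` read through the chart. -/
def DrvC : Prop :=
  ∀ (W : Measure Path) (χ χi : ℂ → ℂ) (O E Z : Set ℂ) (μ : Measure ℂ)
    (A : Path → StieltjesFunction ℝ≥0) (z : ℂ), IsWiener W → Chart χ χi O E → Z.Finite →
    μ UHᶜ = 0 → (∀ K, IsCompact K → K ⊆ UH \ Z → Frost μ K) →
    (∀ y ∈ O, IsClock W (μ.map χ) O y A) → z ∈ UH \ Z →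
      IsProbabilityMeasure (Px W (χ z)) ∧
      Drv (Px W (χ z)) Z μ (fun ω s => kap χi O E (ω s)) (fun ω => A ω) z ∧
      ∀ᵐ (ω : Path) ∂Px W (χ z), ∀ t,
        lbmPath (fun s => kap χi O E (ω s)) (A ω) UH t ∈ closure UH ∧
        χ (lbmPath (fun s => kap χi O E (ω s)) (A ω) UH t) = lbmPath ω (A ω) O t

/-- HalfA: the theorem in half-plane coordinates. -/
def HalfA : Prop :=
  ∀ {Ω : Type} [MeasurableSpace Ω] (P : Measure Ω) [IsProbabilityMeasure P] (Z : Set ℂ)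
    μ C Γ a M x z (b : Ω → ℝ≥0 → ℂ) (A : Ω → ℝ≥0 → ℝ) (St : ℕ → ℂ → Set ℂ) (ψ : ℂ → ℂ) (Λ : ℝ≥0),
    Z.Finite → Env (UH \ Z) μ C Γ a M → BadNegl (UH \ Z) C Γ M x → EnvB Z C →
    (∀ᶠ n in atTop, x n ∈ (C n).V) → Tendsto x atTop (𝓝 z) → z ∈ UH \ Z → Drv P Z μ b A z →
    LipschitzOnWith Λ ψ (closure UH) →
    (∀ K, IsCompact K → K ⊆ closure UH → ∀ᶠ n in atTop, ∀ y ∈ (C n).V, y ∈ K →
      St n y = (C n).step UH y) →
      ConvO P ψ (fun t ω => lbmPath (b ω) (A ω) UH t) St x (fun n => M n / (2 * a n))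

/-- HalfC: the theorem in the domain `O` of a chart. -/
def HalfC : Prop :=
  ∀ (W : Measure Path) (χ χi : ℂ → ℂ) (O E Z : Set ℂ) μ (C C' : ℕ → Cells) a M (x : ℕ → ℂ) (z : ℂ)
    (A : Path → StieltjesFunction ℝ≥0), IsWiener W → Chart χ χi O E → Z.Finite → μ UHᶜ = 0 →
    (∀ y ∈ O, IsClock W (μ.map χ) O y A) → Env (UH \ Z) μ C (fun _ => univ) a M → EnvB Z C →
    Rel χ O C C' → (∀ᶠ n in atTop, x n ∈ (C' n).V) → Tendsto x atTop (𝓝 z) →
    z ∈ χ '' (UH \ Z) →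
      PathConv (Px W z) (fun t ω => lbmPath ω (A ω) O t) (fun n => (C' n).step O) x
        (fun n => M n / (2 * a n))

end Pool.Agent.Lib.MP_0d9445_pr.Bd
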