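import Pool.Agent.Lib.MP_0d9445_pr.Bd.Double
import Pool.Agent.Lib.MP_0d9445_pr.Bd.WIface

/-! Reduction to half-plane coordinates and small cells up to the boundary. -/

open MeasureTheory ProbabilityTheory Set Filter Topology Metric LQ.Met
open scoped NNReal ENNReal

noncomputable section

namespace Pool.Agent.Lib.MP_0d9445_pr.Bd

open Walk Cell

theorem DU_congr {D D' : ℂ → ℂ → ℝ} {U : Set ℂ} (h : ∀ a ∈ U, ∀ b ∈ U, D a b = D' a b) (x y : ℂ) :
    DU D U x y = DU D' U x y :=
  iInf_congr fun _ => iInf_congr fun p => iSup_congr fun q => Finset.sum_congr rfl fun _ _ => by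
    rw [h _ (p.maps (q.2.2.2 _)) _ (p.maps (q.2.2.2 _))]

section Nice

variable {O S : Set ℂ} {C : ℕ → Cells}

/-- small cells in `O` make the centres dense in the closure of `O` -/
theorem dense_of_nice (h : ∀ K, IsCompact K → K ⊆ O → ∀ ε > 0, ∀ᶠ n in atTop,
      {x | x ∈ (C n).V ∧ ((C n).H x ∩ K).Nonempty}.Finite ∧ ((C n).toFC K).Nice K ε)
    {K : Set ℂ} (hK : IsCompact K) (hKO : K ⊆ closure O) {δ : ℝ} (hδ : 0 < δ) :
    ∀ᶠ n in atTop, ∀ w ∈ K, ∃ p ∈ (C n).V, dist p w ≤ δ := by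
  obtain ⟨t, ht, hf, hc⟩ := hK.elim_finite_subcover_image (b := O) (c := fun z => ball z (δ / 2))
    (fun _ _ => isOpen_ball) fun w hw => by
      obtain ⟨z, hz, hd⟩ := Metric.mem_closure_iff.1 (hKO hw) (δ / 2) (half_pos hδ)
      exact mem_iUnion₂.2 ⟨z, hz, hd⟩
  filter_upwards [h t hf.isCompact ht (δ / 2) (half_pos hδ)] with n hn w hw
  obtain ⟨z, hz, hd⟩ := mem_iUnion₂.1 (hc hw)
  obtain ⟨x, hx, hzx⟩ := hn.2.cover z hz
  have k := (dist_le_diam_of_mem (hn.2.cpt x hx).isBounded (hn.2.mem x hx) hzx).trans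
    (hn.2.diam x hx)
  rw [Cells.toFC, dif_pos hn.1] at hx
  exact ⟨x, (hn.1.mem_toFinset.1 hx).1, by linarith [dist_triangle_right x w z, mem_ball.1 hd]⟩

/-- dense and locally finite centres give small cells on the closed set `S` -/
theorem nice_of_dense {D : ℂ → ℂ → ℝ} (hS : IsClosed S) (hD : NearGeo S D)
    (hV : ∀ n, (C n).V ⊆ S) (hH : ∀ n x, (C n).H x = cell S D (C n).V x)
    (hd : ∀ K, IsCompact K → K ⊆ S → ∀ δ > 0, ∀ᶠ n in atTop, ∀ w ∈ K, ∃ p ∈ (C n).V, dist p w ≤ δ)
    (hfin : ∀ K, IsCompact K → ∀ᶠ n in atTop, ((C n).V ∩ K).Finite) :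
    ∀ K, IsCompact K → K ⊆ S → ∀ ε > 0, ∀ᶠ n in atTop,
      {x | x ∈ (C n).V ∧ ((C n).H x ∩ K).Nonempty}.Finite ∧ ((C n).toFC K).Nice K ε := by
  intro K hK hKS ε hε
  have hη := half_pos hε
  have hK3 : IsCompact (cthickening (3 * (ε / 2)) K) := hK.cthickening
  obtain ⟨δ, hδ, H⟩ := hD.small_cells hK hKS hη (hK3.inter_right hS)
  filter_upwards [hd _ ((hK.cthickening (r := 2 * (ε / 2))).inter_right hS) inter_subset_right δ hδ,
    hfin _ hK3] with n hn hn'
  obtain ⟨H1, H2⟩ := H _ (hV n) hn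
  obtain ⟨H3, H4⟩ := H2 (hn'.subset (inter_subset_inter_right _
    (thickening_subset_cthickening_of_le (by linarith) K)))
  have hf : {x | x ∈ (C n).V ∧ ((C n).H x ∩ K).Nonempty}.Finite := by simpa only [hH] using H3
  have hm : ∀ x, x ∈ ((C n).toFC K).V ↔ x ∈ (C n).V ∧ (cell S D (C n).V x ∩ K).Nonempty := by
    intro x
    rw [← hH, Cells.toFC, dif_pos hf]
    exact hf.mem_toFinset
  have he : ∀ x, ((C n).toFC K).H x = cell S D (C n).V x := hH n
  have H5 := fun x (hx : x ∈ ((C n).toFC K).V) => H1 x (hV n ((hm x).1 hx).1) ((hm x).1 hx).2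
  refine ⟨hf, fun x hx => he x ▸ (H5 x hx).2.2.2.1, fun x hx => he x ▸ (H5 x hx).2.2.2.2,
    fun x hx => he x ▸ (H5 x hx).2.1, fun x hx => ?_, fun w hw => ?_⟩
  · rw [he]
    linarith [(diam_mono (H5 x hx).2.2.1 isBounded_ball).trans (diam_ball hη.le)]
  · obtain ⟨x, hx, hwx⟩ := mem_iUnion₂.1 (H4 hw)
    exact ⟨x, (hm x).2 ⟨hx, w, hwx, hw⟩, he x ▸ hwx⟩

theorem closure_UH_sdiff {Z : Set ℂ} (hZ : Z.Finite) : closure UH ⊆ closure (UH \ Z) :=
  closure_minimal ((hZ.countable.dense_compl ℝ).open_subset_closure_inter isOpen_UH)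
    isClosed_closure

/-- the field `nice` of `EnvB` -/
theorem SurfH.nice {d : Met} (h : SurfH d) {Z : Set ℂ} (hZ : Z.Finite) {Y : ℕ → Set ℂ}
    (hY : ∀ n, Y n ⊆ UH) (hfin : ∀ n K, IsCompact K → (Y n ∩ K).Finite)
    (hn : ∀ K, IsCompact K → K ⊆ UH \ Z → ∀ ε > 0, ∀ᶠ n in atTop,
      {x | x ∈ (vorOn (closure UH) d (Y n)).V ∧
        ((vorOn (closure UH) d (Y n)).H x ∩ K).Nonempty}.Finite ∧
      ((vorOn (closure UH) d (Y n)).toFC K).Nice K ε) :
    ∀ K, IsCompact K → K ⊆ closure UH → ∀ ε > 0, ∀ᶠ n in atTop,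
      {x | x ∈ (vorOn (closure UH) d (Y n)).V ∧
        ((vorOn (closure UH) d (Y n)).H x ∩ K).Nonempty}.Finite ∧
      ((vorOn (closure UH) d (Y n)).toFC K).Nice K ε :=
  nice_of_dense (C := fun n => vorOn (closure UH) d (Y n)) isClosed_closure h.nearGeo
    (fun n => (hY n).trans subset_closure) (fun _ _ => rfl)
    (fun _ hK hKS _ hδ => dense_of_nice hn hK (hKS.trans (closure_UH_sdiff hZ)) hδ)
    fun K hK => Eventually.of_forall fun n => hfin n K hK

end Nice

section Points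

variable {Ω : Type} [MeasurableSpace Ω] {P : Measure Ω} {d : Ω → Met} {m : Ω → Measure ℂ}
  {l : ℝ≥0} {Y : Ω → Set ℂ}

theorem ppp_count (hY : IsPPP P d m l Y) {A : Set ℂ} (hA : MeasurableSet A)
    (hb : Bornology.IsBounded A) (n : ℕ) : MeasurableSet {ω | (Y ω ∩ A).encard = n} ∧
      P {ω | (Y ω ∩ A).encard = n} = ∫⁻ ω, poissonMeasure (l * (m ω A).toNNReal) {n} ∂P := by
  have := hY 1 (fun _ => A) (fun _ => n) univ (fun _ => hA) (fun _ => hb)
    (fun i j hij => absurd (Subsingleton.elim i j) hij) MeasurableSet.univ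
  simpa using this

/-- Poisson points are finite in number in bounded sets -/
theorem ppp_finite [IsProbabilityMeasure P] (hY : IsPPP P d m l Y) (hm : Measurable m) :
    ∀ᵐ ω ∂P, ∀ K, IsCompact K → (Y ω ∩ K).Finite := by
  have key : ∀ k : ℕ, ∀ᵐ ω ∂P, (Y ω ∩ ball 0 k).Finite := fun k => by
    have h := ppp_count hY (A := ball 0 k) measurableSet_ball isBounded_ball
    have e : {ω | (Y ω ∩ ball 0 k).Finite} = ⋃ n : ℕ, {ω | (Y ω ∩ ball 0 k).encard = n} := by
      ext ω
      simp only [mem_ofPred_eq, mem_iUnion]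
      exact ⟨fun a => a.exists_encard_eq_coe, fun ⟨_, a⟩ => finite_of_encard_eq_coe a⟩
    refine (mem_ae_iff_prob_eq_one (s := {ω | (Y ω ∩ ball 0 k).Finite})
      (e ▸ MeasurableSet.iUnion fun n => (h n).1)).2 ?_
    rw [e, measure_iUnion (fun i j hij => disjoint_left.2 fun ω a b => hij
      (Nat.cast_injective (R := ℕ∞) (a.symm.trans b))) fun n => (h n).1]
    simp only [(h _).2]
    rw [← lintegral_tsum, lintegral_congr (g := fun _ => 1), lintegral_one, measure_univ]
    · intro ω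
      rw [← measure_iUnion (fun i j hij => disjoint_singleton.2 hij)
        (fun n => measurableSet_singleton n), iUnion_of_singleton, measure_univ]
    · intro n
      have := ((Measure.measurable_coe (measurableSet_ball (x := (0 : ℂ)) (ε := k))).comp
        hm).ennreal_toNNReal.const_mul l
      simp only [poissonMeasure_singleton]
      exact ((by fun_prop : Measurable fun r : ℝ≥0 =>
        ENNReal.ofReal (Real.exp (-r) * r ^ n / n.factorial)).comp this).aemeasurable
  filter_upwards [ae_all_iff.2 key] with ω hω K hK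
  obtain ⟨r, hr⟩ := hK.isBounded.subset_ball 0
  obtain ⟨k, hk⟩ := exists_nat_ge r
  exact (hω k).subset (inter_subset_inter_right _ (hr.trans (ball_subset_ball hk)))

/-- no Poisson points outside a set that carries the intensity -/
theorem ppp_subset [IsProbabilityMeasure P] (hY : IsPPP P d m l Y) {O : Set ℂ}
    (hO : MeasurableSet O) (h0 : ∀ᵐ ω ∂P, m ω Oᶜ = 0) : ∀ᵐ ω ∂P, Y ω ⊆ O := by
  have key : ∀ k : ℕ, ∀ᵐ ω ∂P, (Y ω ∩ (Oᶜ ∩ ball 0 k)).encard = (0 : ℕ) := fun k => by
    have h := ppp_count hY (A := Oᶜ ∩ ball 0 k) (hO.compl.inter measurableSet_ball)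
      (isBounded_ball.subset inter_subset_right) 0
    refine (mem_ae_iff_prob_eq_one h.1).2 ?_
    rw [h.2, lintegral_congr_ae (g := fun _ => 1), lintegral_one, measure_univ]
    filter_upwards [h0] with ω hω
    rw [measure_mono_null inter_subset_left hω]
    simp [poissonMeasure_singleton]
  filter_upwards [ae_all_iff.2 key] with ω hω y hy
  by_contra hc
  obtain ⟨k, hk⟩ := exists_nat_gt ‖y‖
  have := hω k
  rw [Nat.cast_zero, encard_eq_zero] at this
  exact (this ▸ (⟨hy, hc, mem_ball_zero_iff.2 hk⟩ : y ∈ Y ω ∩ (Oᶜ ∩ ball 0 k)) : y ∈ (∅ : Set ℂ))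

end Points

namespace Chart

variable {χ χi : ℂ → ℂ} {O E : Set ℂ} (c : Chart χ χi O E)
include c

theorem mem {z : ℂ} (hz : z ∈ closure UH) : χ z ∈ closure O \ E := c.image' ▸ mem_image_of_mem χ hz

theorem mem_iff {z : ℂ} (hz : z ∈ closure UH) : χ z ∈ O ↔ z ∈ UH := by
  refine ⟨fun h => ?_, fun h => c.image ▸ mem_image_of_mem χ h⟩
  obtain ⟨w, hw, e⟩ := c.image.symm ▸ h
  rwa [← c.inv z hz, ← e, c.inv w (subset_closure hw)]

theorem injOn : InjOn χ (closure UH) := fun a ha b hb e => by rw [← c.inv a ha, e, c.inv b hb]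

theorem kap_apply {z : ℂ} (hz : z ∈ closure UH) : kap χi O E (χ z) = z := by
  rw [kap, if_pos (c.mem hz), c.inv z hz]

theorem measurable_kap : Measurable (kap χi O E) := by
  classical
  exact ContinuousOn.measurable_piecewise (s := closure O \ E) c.cont continuousOn_const
    (isClosed_closure.measurableSet.diff c.fin.measurableSet)

theorem continuous_fold : Continuous fun z => χ (fold z) :=
  c.lip.continuousOn.comp_continuous Bd.continuous_fold fold_mem

/-- the metric read through the chart -/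
def pull (d : Met) : Met :=
  d.comp ⟨fun p => (χ (fold p.1), χ (fold p.2)),
    (c.continuous_fold.comp continuous_fst).prodMk (c.continuous_fold.comp continuous_snd)⟩

theorem pull_apply (d : Met) {x y : ℂ} (hx : x ∈ closure UH) (hy : y ∈ closure UH) :
    c.pull d (x, y) = d (χ x, χ y) := by
  change d (χ (fold x), χ (fold y)) = _
  rw [fold_of_mem hx, fold_of_mem hy]

theorem measurable_pull : Measurable c.pull := (ContinuousMap.continuous_precomp _).measurable

theorem metOn_pull {d : Met} (h : MetOn (closure O) d) : MetOn (closure UH) (c.pull d) where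
  self x hx := by rw [c.pull_apply d hx hx, h.self _ (c.mem hx).1]
  symm x hx y hy := by
    rw [c.pull_apply d hx hy, c.pull_apply d hy hx, h.symm _ (c.mem hx).1 _ (c.mem hy).1]
  tri x hx y hy z hz := by
    rw [c.pull_apply d hx hy, c.pull_apply d hy hz, c.pull_apply d hx hz]
    exact h.tri _ (c.mem hx).1 _ (c.mem hy).1 _ (c.mem hz).1
  topo x hx ε hε := by
    obtain ⟨η, hη, h1⟩ := Metric.continuousWithinAt_iff.1 (c.cont _ (c.mem hx)) ε hε
    obtain ⟨δ, hδ, h2⟩ := h.topo _ (c.mem hx).1 η hη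
    refine ⟨δ, hδ, fun y hy k => ?_⟩
    have := h1 (c.mem hy) (dist_comm (χ x) _ ▸ h2 _ (c.mem hy).1 (c.pull_apply d hx hy ▸ k))
    rwa [c.inv x hx, c.inv y hy, dist_comm] at this

theorem map_map {ν : Measure ℂ} (h : ν UHᶜ = 0) : (ν.map χ).map (kap χi O E) = ν := by
  rw [Measure.map_map c.measurable_kap c.meas, Measure.map_congr (g := id), Measure.map_id]
  filter_upwards [show ∀ᵐ z ∂ν, z ∈ UH from h] with z hz using c.kap_apply (subset_closure hz)

/-- the cells in the domain are the images of the cells in the half-plane -/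
theorem rel {d : Met} (h : MetOn (closure O) d) {Y : ℕ → Set ℂ} (hY : ∀ n, Y n ⊆ O)
    (hd : ∀ w ∈ UH, ∀ δ > 0, ∀ᶠ n in atTop, ∃ p ∈ UH ∩ χ ⁻¹' Y n, dist p w ≤ δ) :
    Rel χ O (fun n => vorOn (closure UH) (c.pull d) (UH ∩ χ ⁻¹' Y n))
      fun n => vorOn (closure O) d (Y n) := by
  have hV : ∀ n, Y n = χ '' (UH ∩ χ ⁻¹' Y n) := fun n => by
    rw [image_inter_preimage, c.image, inter_eq_right.2 (hY n)]
  have hH : ∀ n, ∀ x ∈ UH ∩ χ ⁻¹' Y n, ∀ w ∈ closure UH,
      w ∈ (vorOn (closure UH) (c.pull d) (UH ∩ χ ⁻¹' Y n)).H x ↔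
        χ w ∈ (vorOn (closure O) d (Y n)).H (χ x) := fun n x hx w hw => by
    refine ⟨fun k => ⟨(c.mem hw).1, fun y hy => ?_⟩, fun k => ⟨hw, fun y hy => ?_⟩⟩
    · obtain ⟨u, hu, rfl⟩ := hV n ▸ hy
      simpa only [c.pull_apply d hw (subset_closure hx.1), c.pull_apply d hw (subset_closure hu.1)]
        using k.2 u hu
    · rw [c.pull_apply d hw (subset_closure hx.1), c.pull_apply d hw (subset_closure hy.1)]
      exact k.2 _ hy.2
  refine ⟨hV, hH, fun K hK hKS => ?_⟩
  have key : ∀ e ∈ E, ∀ᶠ n in atTop, ∃ y ∈ Y n, ∀ x ∈ K, d (e, y) < d (e, χ x) := fun e he => by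
    have he' : e ∈ closure O := frontier_subset_closure (c.bdry he)
    obtain ⟨a, ha, h1⟩ := hK.exists_forall_le' (f := fun x => d (e, χ x)) (a := 0)
      (d.continuous.comp_continuousOn (continuousOn_const.prodMk (c.lip.continuousOn.mono hKS)))
      fun x hx => MetOn.pos h he' (c.mem (hKS hx)).1 fun k => (c.mem (hKS hx)).2 (k ▸ he)
    have hU : IsOpen {y | d (e, y) < a} := isOpen_lt (by fun_prop) continuous_const
    obtain ⟨_, h2, h3⟩ := mem_closure_iff.1 he' _ hU (show d (e, e) < a from h.self e he' ▸ ha)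
    obtain ⟨w, hw, rfl⟩ := c.image.symm ▸ h3
    obtain ⟨δ, hδ, h4⟩ := Metric.mem_nhdsWithin_iff.1
      (c.lip.continuousOn w (subset_closure hw) (hU.mem_nhds h2))
    filter_upwards [hd w hw _ (half_pos hδ)] with n ⟨p, hp, k⟩
    exact ⟨_, hp.2, fun x hx => lt_of_lt_of_le
      (h4 ⟨k.trans_lt (half_lt_self hδ), subset_closure hp.1⟩) (h1 x hx)⟩
  filter_upwards [(eventually_all_finite c.fin).2 key] with n hn x hx hxK hs y hy
  have hE : y ∉ E := fun he => by
    obtain ⟨u, hu, k⟩ := hn y he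
    exact (k x hxK).not_ge (hy.2 u hu)
  obtain ⟨w, hw, rfl⟩ := c.image'.ge (⟨hy.1, hE⟩ : y ∈ closure O \ E)
  exact (c.mem_iff hw).2 (hs ((hH n x hx w hw).2 hy))

variable {Ω : Type} [MeasurableSpace Ω] {P : Measure Ω} {γ ξ : ℝ} {D : Field → Met}
  {μ : Field → Measure ℂ} {h : Ω → Field} {f : Ω → ℂ → ℝ} {d : Ω → Met} {m : Ω → Measure ℂ}

/-- the area measure in half-plane coordinates -/
theorem area (s : IsSurfVia γ ξ D μ χ O P h f d m) : ∀ᵐ ω ∂P,
    (m ω).map (kap χi O E) = ((μ (h ω)).restrict UH).withDensity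
      (fun z => ENNReal.ofReal (Real.exp (γ * f ω z))) ∧
    (m ω).map (kap χi O E) UHᶜ = 0 ∧ ((m ω).map (kap χi O E)).map χ = m ω ∧ m ω Oᶜ = 0 := by
  filter_upwards [s.area] with ω hω
  have h0 := withDensity_absolutelyContinuous ((μ (h ω)).restrict UH)
    (fun z => ENNReal.ofReal (Real.exp (γ * f ω z))) (s := UHᶜ) (by
      rw [Measure.restrict_apply isOpen_UH.measurableSet.compl, compl_inter_self, measure_empty])
  rw [hω, c.map_map h0, Measure.map_apply c.meas c.isOpen.measurableSet.compl]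
  exact ⟨rfl, h0, rfl, measure_mono_null (fun z hz k => hz ((c.mem_iff (subset_closure k)).2 k)) h0⟩

/-- the surface in half-plane coordinates -/
theorem surf (s : IsSurfVia γ ξ D μ χ O P h f d m) :
    IsSurfVia γ ξ D μ id UH P h f (fun ω => c.pull (d ω)) fun ω => (m ω).map (kap χi O E) where
  measd := c.measurable_pull.comp s.measd
  measm := (Measure.measurable_map _ c.measurable_kap).comp s.measm
  metric := s.metric.mono fun _ => c.metOn_pull
  length := s.length.mono fun ω hω x hx y hy => by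
    rw [id, id, c.pull_apply _ (subset_closure hx) (subset_closure hy), ← hω x hx y hy]
    exact DU_congr (fun a ha b hb => c.pull_apply _ (subset_closure ha) (subset_closure hb)) x y
  weyl := s.weyl.mono fun ω hω U hU hUH x hx y hy => by
    rw [← hω U hU hUH x hx y hy]
    exact DU_congr (fun a ha b hb =>
      c.pull_apply _ (subset_closure (hUH ha)) (subset_closure (hUH hb))) x y
  area := (c.area s).mono fun ω hω => by rw [Measure.map_id, hω.1]

/-- the Poisson points in half-plane coordinates -/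
theorem ppp {l : ℝ≥0} {Y : Ω → Set ℂ} (hY : IsPPP P d m l Y) (h0 : ∀ᵐ ω ∂P, m ω Oᶜ = 0) :
    IsPPP P (fun ω => c.pull (d ω)) (fun ω => (m ω).map (kap χi O E)) l
      fun ω => UH ∩ χ ⁻¹' Y ω := by
  intro k A n G hA hb hD hG
  have e1 : ∀ i, kap χi O E ⁻¹' A i ∩ O = χ '' (A i ∩ UH) := fun i => by
    refine Subset.antisymm (fun y hy => ?_) ?_
    · obtain ⟨w, hw, rfl⟩ := c.image.symm ▸ hy.2
      exact ⟨w, ⟨c.kap_apply (subset_closure hw) ▸ hy.1, hw⟩, rfl⟩
    · rintro _ ⟨w, hw, rfl⟩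
      exact ⟨by simpa only [mem_preimage, c.kap_apply (subset_closure hw.2)] using hw.1,
        (c.mem_iff (subset_closure hw.2)).2 hw.2⟩
  have e2 : ∀ ω i, (UH ∩ χ ⁻¹' Y ω ∩ A i).encard =
      (Y ω ∩ (kap χi O E ⁻¹' A i ∩ O)).encard := fun ω i => by
    rw [e1, inter_comm (Y ω), ← image_inter_preimage,
      (c.injOn.mono fun _ k => subset_closure k.1.2).encard_image, inter_right_comm, inter_comm UH]
  obtain ⟨h1, h2⟩ := hY k (fun i => kap χi O E ⁻¹' A i ∩ O) n
    ((fun p => (c.pull p.1, p.2.map (kap χi O E))) ⁻¹' G)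
    (fun i => (c.measurable_kap (hA i)).inter c.isOpen.measurableSet)
    (fun i => (((hb i).isCompact_closure.inter_right isClosed_closure).image_of_continuousOn
      (c.lip.continuousOn.mono inter_subset_right)).isBounded.subset
      ((e1 i).le.trans (image_mono (inter_subset_inter subset_closure subset_closure))))
    (fun i j hij => ((hD hij).preimage _).mono inter_subset_left inter_subset_left)
    (((c.measurable_pull.comp measurable_fst).prodMk
      ((Measure.measurable_map _ c.measurable_kap).comp measurable_snd)) hG)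
  simp only [e2]
  refine ⟨h1, h2.trans (lintegral_congr_ae ?_)⟩
  filter_upwards [ae_restrict_of_ae h0] with ω hω
  refine Finset.prod_congr rfl fun i _ => ?_
  rw [Measure.map_apply c.measurable_kap (hA i), measure_inter_conull hω]

end Chart

end Pool.Agent.Lib.MP_0d9445_pr.Bd
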