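import Pool.Agent.Lib.MP_0d9445_pr.Bd.Dbl
import Pool.Agent.Lib.MP_0d9445_pr.Bd.Pull
import Pool.Agent.Lib.MP_0d9445_pr.AS.Inst
import Pool.Agent.Lib.MP_0d9445_pr.AS.RefOK

/-! First properties of a surface on the half-plane. -/

open MeasureTheory ProbabilityTheory Set Filter Topology Real LQ.Met
open scoped NNReal ENNReal ComplexConjugate

noncomputable section

namespace Pool.Agent.Lib.MP_0d9445_pr.Bd

open CR PPP Walk

variable {M : Model} {Ω : Type} [MeasurableSpace Ω] {P P₀ : Measure Ω} {h φ : Ω → Field}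
  {g f₁ : Ω → ℂ → ℝ} {Z : Set ℂ} {d : Ω → Met} {m : Ω → Measure ℂ}

theorem BSurf0.surfH (hS : BSurf0 M P P₀ h φ g f₁ Z d m) : ∀ᵐ ω ∂P, SurfH (d ω) :=
  (hS.surf.metric.and hS.surf.length).mono fun _ a => ⟨a.1, a.2⟩

theorem BSurf0.law (hS : BSurf0 M P P₀ h φ g f₁ Z d m) : ∃ ν, Su.IsGFF0 ν ∧ P.map h ≪ ν :=
  ⟨P₀.map h, ⟨IsGFF.map measurable_id hS.pair.gff.meas hS.pair.gff,
    (ae_map_iff hS.pair.gff.meas.aemeasurable
      (measurableSet_eq_fun (Mu.measurable_eval 0) measurable_const)).2 hS.pair.zero⟩,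
    hS.ac.map hS.pair.gff.meas⟩

theorem BSurf0.contOn (hS : BSurf0 M P P₀ h φ g f₁ Z d m) :
    ∀ᵐ ω ∂P, ContinuousOn (fun z => g ω z + f₁ ω z) UH :=
  hS.cont.mono fun ω a => (hS.pair.cont ω).add (a.mono hS.bdry.subset_compl_left)

/-- the measure of the whole-plane field -/
theorem BSurf0.measOK_h (F : M.All) (hS : BSurf0 M P P₀ h φ g f₁ Z d m) :
    ∀ᵐ ω ∂P, AS.MeasOK (M.μ (h ω)) univ := by
  obtain ⟨ν, hν, ac⟩ := hS.law
  have hh := hS.pair.gff.meas
  have := ac.map M.measurable_conf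
  rw [F.eu ν hν.1 hν.2, Measure.map_map M.measurable_conf hh,
    Measure.map_map M.measurable_conf M.meas_hat] at this
  exact ae_of_ae_map (p := fun c : Cf => AS.MeasOK c.2 univ)
    (M.measurable_conf.comp hh).aemeasurable (this.ae_le (AS.refOK F).ok)

theorem massH_of {ν : Measure ℂ} (hν : AS.MeasOK ν univ) {f : ℂ → ℝ} (hf : ContinuousOn f UH) :
    MassH ((ν.restrict UH).withDensity fun z => ENNReal.ofReal (exp (f z))) := by
  have ac := withDensity_absolutelyContinuous (ν.restrict UH) fun z => ENNReal.ofReal (exp (f z))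
  refine ⟨fun K hK hU => ?_, fun U hU hUH ⟨z, hz⟩ h0 => ?_, fun z => ac ?_, ac ?_⟩
  · obtain ⟨C, hC⟩ := hK.exists_bound_of_continuousOn (hf.mono hU)
    rw [withDensity_apply _ hK.measurableSet]
    refine (setLIntegral_mono' (g := fun _ => ENNReal.ofReal (exp C)) hK.measurableSet
      fun x hx => ENNReal.ofReal_le_ofReal (exp_le_exp.2 ((le_abs_self _).trans (hC x hx)))).trans_lt
      ?_
    rw [setLIntegral_const]
    exact ENNReal.mul_lt_top ENNReal.ofReal_lt_top
      ((Measure.restrict_le_self K).trans_lt (hν.frost K hK (subset_univ _)).1)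
  · obtain ⟨K, hK, hzK, hKU⟩ := exists_compact_subset hU hz
    obtain ⟨C, hC⟩ := hK.exists_bound_of_continuousOn (hf.mono (hKU.trans hUH))
    have h1 := measure_mono_null (interior_subset.trans hKU) h0
    rw [withDensity_apply _ isOpen_interior.measurableSet] at h1
    have h2 := (setLIntegral_mono' (f := fun _ => ENNReal.ofReal (exp (-C)))
      isOpen_interior.measurableSet fun x hx => ENNReal.ofReal_le_ofReal (exp_le_exp.2
        (neg_le_of_abs_le (hC x (interior_subset hx))))).trans h1.le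
    rw [setLIntegral_const, Measure.restrict_apply isOpen_interior.measurableSet,
      inter_eq_left.2 ((interior_subset.trans hKU).trans hUH), nonpos_iff_eq_zero,
      mul_eq_zero] at h2
    exact h2.elim (ENNReal.ofReal_pos.2 (exp_pos _)).ne'
      (hν.pos _ isOpen_interior (subset_univ _) ⟨z, hzK⟩)
  · exact Measure.absolutelyContinuous_of_le Measure.restrict_le_self
      (AS.inst_atom (hν.frost _ isCompact_singleton (subset_univ _)))
  · rw [Measure.restrict_apply isOpen_UH.measurableSet.compl, compl_inter_self, measure_empty]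

theorem BSurf0.massH (F : M.All) (hS : BSurf0 M P P₀ h φ g f₁ Z d m) :
    ∀ᵐ ω ∂P, MassH (m ω) := by
  filter_upwards [hS.measOK_h F, hS.contOn, hS.surf.area] with ω a b c
  rw [c, Measure.map_id]
  exact massH_of a (continuousOn_const.mul b)

/-- an exhaustion of the half-plane by compact sets -/
theorem exists_cover_UH : ∃ K : ℕ → Set ℂ, (∀ n, IsCompact (K n) ∧ K n ⊆ UH) ∧ ⋃ n, K n = UH := by
  refine ⟨fun n => Metric.closedBall 0 n ∩ {z | 1 / ((n : ℝ) + 1) ≤ z.im}, fun n =>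
    ⟨(isCompact_closedBall _ _).inter_right (isClosed_le continuous_const Complex.continuous_im),
      fun z hz => show 0 < z.im from Nat.one_div_pos_of_nat.trans_le hz.2⟩, Subset.antisymm
    (iUnion_subset fun n z hz => show 0 < z.im from Nat.one_div_pos_of_nat.trans_le hz.2)
    fun z hz => ?_⟩
  obtain ⟨n, a, b⟩ := ((tendsto_natCast_atTop_atTop.eventually_ge_atTop ‖z‖).and
    (tendsto_one_div_add_atTop_nhds_zero_nat.eventually (ge_mem_nhds (show 0 < z.im from hz)))).exists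
  exact mem_iUnion.2 ⟨n, mem_closedBall_zero_iff.2 a, b⟩

theorem MassH.sigmaFinite {μ : Measure ℂ} (h : MassH μ) : SigmaFinite μ := by
  obtain ⟨K, h1, h2⟩ := exists_cover_UH
  refine ⟨⟨⟨fun n => K n ∪ UHᶜ, fun _ => trivial, fun n => ?_, ?_⟩⟩⟩
  · exact (measure_union_le _ _).trans_lt (by
      rw [h.supp, add_zero]
      exact h.fin _ (h1 n).1 (h1 n).2)
  · rw [← iUnion_union, h2, union_compl_self]

theorem MassH.sigmaFinite_map {μ : Measure ℂ} (h : MassH μ) {χ χi : ℂ → ℂ} {O E : Set ℂ}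
    (c : Chart χ χi O E) : SigmaFinite (μ.map χ) := by
  obtain ⟨K, h1, h2⟩ := exists_cover_UH
  refine ⟨⟨⟨fun n => χ '' K n ∪ Oᶜ, fun _ => trivial, fun n => ?_, ?_⟩⟩⟩
  · have s := (h1 n).2.trans subset_closure
    rw [Measure.map_apply c.meas ((((h1 n).1.image_of_continuousOn
      (c.lip.continuousOn.mono s)).measurableSet).union c.isOpen.measurableSet.compl),
      ← measure_inter_conull (t := UH) h.supp]
    refine (measure_mono fun z hz => ?_).trans_lt (h.fin _ (h1 n).1 (h1 n).2)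
    rcases hz.1 with ⟨w, hw, e⟩ | e
    · exact c.injOn (s hw) (subset_closure hz.2) e ▸ hw
    · exact absurd ((c.mem_iff (subset_closure hz.2)).2 hz.2) e
  · rw [← iUnion_union, ← image_iUnion, h2, c.image, union_compl_self]

theorem BSurf0.cox (F : M.All) (hS : BSurf0 M P P₀ h φ g f₁ Z d m) {l : ℝ≥0} {Y : Ω → Set ℂ}
    (hY : IsPPP P d m l Y) {A : Set ℂ} (hA : MeasurableSet A) (hb : Bornology.IsBounded A)
    (hU : closure A ⊆ UH) :
    IsCox P (fun ω => (d ω, m ω)) (winInt l A) fun ω => Y ω ∩ A := by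
  have := hS.prob
  exact hY.isCox hS.surf.measd hS.surf.measm hA hb
    ((hS.massH F).mono fun _ a =>
      ((measure_mono subset_closure).trans_lt (a.fin _ hb.isCompact_closure hU)).ne)
    ((hS.massH F).mono fun _ a z _ => a.atom z)

theorem exists_wok (hZ : Z.Finite) {t : ℝ} (ht : (t : ℂ) ∉ Z) (_hd : Disjoint Z UH) :
    ∃ ρ : ℝ, 0 < ρ ∧ Wok Z (⟨t, ρ⟩, ρ) := by
  obtain ⟨ε, hε, h⟩ := Metric.isOpen_iff.1 hZ.isClosed.isOpen_compl _ ht
  refine ⟨ε / 4, by positivity, by positivity, fun z hz => ?_, disjoint_left.2 fun z hz => h ?_⟩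
  · have := (abs_lt.1 hz.2).1
    show 0 < z.im
    linarith
  · have a := Complex.norm_le_abs_re_add_abs_im (z - t)
    have b : |z.re - t| ≤ ε / 4 := hz.1
    have c : |z.im - ε / 4| ≤ ε / 4 := hz.2
    rw [Complex.sub_re, Complex.sub_im, Complex.ofReal_re, Complex.ofReal_im, sub_zero] at a
    rw [mem_ball_iff_norm]
    rw [abs_le] at c
    linarith [abs_le.2 (⟨by linarith, by linarith⟩ : -(ε / 2) ≤ z.im ∧ z.im ≤ ε / 2)]

variable {Y : ℝ≥0 → Ω → Set ℂ}

/-- a set of positive finite mass is unlikely to be empty at large intensity -/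
theorem ppp_void_tendsto [IsProbabilityMeasure P] (hY : ∀ l, IsPPP P d m l (Y l))
    (hm : Measurable m) {A : Set ℂ} (hA : MeasurableSet A) (hb : Bornology.IsBounded A)
    (h0 : ∀ᵐ ω ∂P, m ω A ≠ 0 ∧ m ω A ≠ ∞) :
    Tendsto (fun l => P {ω | ¬ (Y l ω ∩ A).Nonempty}) atTop (𝓝 0) := by
  have e : ∀ l, P {ω | ¬ (Y l ω ∩ A).Nonempty} =
      ∫⁻ ω, ENNReal.ofReal (exp (-(l * ((m ω A).toNNReal : ℝ)))) ∂P := fun l => by
    simpa [poissonMeasure_singleton, not_nonempty_iff_eq_empty] using (ppp_count (hY l) hA hb 0).2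
  have k := ((Measure.measurable_coe hA).comp hm).ennreal_toNNReal.coe_nnreal_real
  simp only [e]
  rw [← lintegral_zero (μ := P)]
  refine tendsto_lintegral_filter_of_dominated_convergence (fun _ => 1)
    (Eventually.of_forall fun l => (k.const_mul _).neg.exp.ennreal_ofReal)
    (Eventually.of_forall fun l => Eventually.of_forall fun ω =>
      ENNReal.ofReal_le_one.2 (exp_le_one_iff.2 (neg_nonpos.2 (by positivity)))) (by simp)
    (h0.mono fun ω hω => ?_)
  rw [← ENNReal.ofReal_zero]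
  exact ENNReal.tendsto_ofReal (tendsto_exp_neg_atTop_nhds_zero.comp
    ((NNReal.tendsto_coe_atTop.2 tendsto_id).atTop_mul_const (ENNReal.toNNReal_pos hω.1 hω.2)))

theorem BSurf0.niceB (F : M.All) (hS : BSurf0 M P P₀ h φ g f₁ Z d m)
    (hY : ∀ l, IsPPP P d m l (Y l)) (hU : ∀ l ω, Y l ω ⊆ UH) :
    AS.Likely P fun ω l => NiceB fun i => AS.vorS (closure UH) (d ω) (Y (l i) ω) := by
  have := hS.prob
  obtain ⟨B, hB, hne, hb⟩ := TopologicalSpace.exists_countable_basis ℂ
  have := hB.to_subtype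
  have h1 : AS.Likely P fun ω l => ∀ U : B, Bornology.IsBounded U.1 ∧ closure U.1 ⊆ UH →
      ∀ᶠ i in atTop, (Y (l i) ω ∩ U).Nonempty := by
    refine AS.Likely.all fun U => AS.Likely.imp fun hU => ?_
    refine (AS.Likely.of_tendsto (ppp_void_tendsto hY hS.surf.measm
      (hb.isOpen U.2).measurableSet hU.1 ((hS.massH F).mono fun ω a => ⟨?_, ?_⟩))).mono
      fun ω l _ a => a.mono fun _ => not_not.1
    · exact a.pos _ (hb.isOpen U.2) (subset_closure.trans hU.2)
        (nonempty_iff_ne_empty.2 fun e => hne (e ▸ U.2))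
    · exact ((measure_mono subset_closure).trans_lt (a.fin _ hU.1.isCompact_closure hU.2)).ne
  refine (h1.and (AS.Likely.of_ae_each fun l => ppp_finite (hY l) hS.surf.measm)).mono_ae
    (hS.surfH.mono fun ω a l _ ⟨b, c⟩ => ?_)
  refine nice_of_dense (C := fun i => AS.vorS (closure UH) (d ω) (Y (l i) ω)) isClosed_closure
    a.nearGeo (fun i => (hU _ ω).trans subset_closure) (fun _ _ => rfl) (fun K hK hKS δ hδ => ?_)
    fun K hK => c.mono fun i hi => hi K hK
  obtain ⟨t, ht, hf, hc⟩ := hK.elim_finite_subcover_image (b := UH)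
    (c := fun z => Metric.ball z (δ / 2)) (fun _ _ => Metric.isOpen_ball) fun w hw => by
      obtain ⟨z, hz, hd⟩ := Metric.mem_closure_iff.1 (hKS hw) (δ / 2) (half_pos hδ)
      exact mem_iUnion₂.2 ⟨z, hz, hd⟩
  have key : ∀ z ∈ t, ∀ᶠ i in atTop, ∃ p ∈ Y (l i) ω, dist p z < δ / 2 := fun z hz => by
    obtain ⟨L, l1, l2, l3⟩ := exists_compact_subset (isOpen_UH.inter Metric.isOpen_ball)
      (⟨ht hz, Metric.mem_ball_self (half_pos hδ)⟩ : z ∈ UH ∩ Metric.ball z (δ / 2))
    obtain ⟨U, u1, -, u3⟩ := hb.exists_subset_of_mem_open l2 isOpen_interior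
    have u4 := u3.trans interior_subset
    exact (b ⟨U, u1⟩ ⟨l1.isBounded.subset u4, (closure_minimal u4 l1.isClosed).trans
      (l3.trans inter_subset_left)⟩).mono fun i ⟨p, hp⟩ => ⟨p, hp.1, (l3 (u4 hp.2)).2⟩
  filter_upwards [(eventually_all_finite hf).2 key] with i hi w hw
  obtain ⟨z, hz, hd⟩ := mem_iUnion₂.1 (hc hw)
  obtain ⟨p, hp, k⟩ := hi z hz
  exact ⟨p, hp, by linarith [dist_triangle_right p w z, Metric.mem_ball.1 hd]⟩

end Pool.Agent.Lib.MP_0d9445_pr.Bd
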