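import Pool.Agent.Lib.MP_0d9445_pr.Cell.Win

/-! A Beurling type estimate for nets of cells near the boundary of the stopping domain. -/

open Set MeasureTheory
open scoped Classical

noncomputable section

namespace Pool.Agent.Lib.MP_0d9445_pr.Cell

variable {V : Type*} {G : Net V} {H : V → Set ℂ} {s : Finset V} {K : Set ℂ}

/-- the open square annulus of scale `r` -/
def ann (c : ℂ) (r : ℝ) : Set ℂ := {w | r / 2 < sn c w ∧ sn c w < r}

theorem ann_subset (c : ℂ) (r : ℝ) : ann c r ⊆ sqC c r := fun _ hw => hw.2.le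

namespace CW

variable (h : CW G H s K)
include h

/-- One of the good annuli carries a cut frame with small oscillation. -/
theorem exists_cut_frame {S : Set ℂ} {c : ℂ} {R : ℝ} (hR : 0 < R) (hK : sqC c R ∩ S ⊆ K)
    (hc : ∀ r, 0 < r → r < R → IsPreconnected (frame c r ∩ S)) {n : ℕ} {J : Finset ℕ}
    (hJ : J.Nonempty) (hJn : ∀ j ∈ J, j < n)
    {d : V → ℝ} (hd0 : ∀ x ∈ s, 0 ≤ d x) (hd : ∀ x ∈ s, ∀ v ∈ H x, ∀ w ∈ H x, dist v w ≤ d x)
    (hε : ∀ x ∈ mt H s (sqC c R), d x ≤ R / 4 ^ n) {Y E : ℝ}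
    (hY : ∀ j ∈ J, ∑ x ∈ mt H s (ann c (R / 4 ^ j)), d x ^ 2 ≤ Y * (R / 4 ^ j) ^ 2) {u : V → ℝ}
    (hE : G.en (mt H s (sqC c R)) u u ≤ E) : ∃ r, R / 4 ^ n < r ∧ r < R ∧
      ∀ x ∈ mt H s (frame c r ∩ S), ∀ y ∈ mt H s (frame c r ∩ S),
        u x - u y ≤ √(8 * E * Y / J.card) := by
  have hb : ∀ j : ℕ, 0 < R / 4 ^ j := fun j => by positivity
  have hanti : ∀ {j k : ℕ}, j ≤ k → R / 4 ^ k ≤ R / 4 ^ j := fun hjk => by gcongr; norm_num
  have hsucc : ∀ j : ℕ, R / 4 ^ (j + 1) = R / 4 ^ j / 4 := fun j => by rw [pow_succ, div_div]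
  have hcard : (0 : ℝ) < J.card := Nat.cast_pos.2 hJ.card_pos
  have hAR : ∀ j : ℕ, mt H s (ann c (R / 4 ^ j)) ⊆ mt H s (sqC c R) := fun j =>
    mt_mono ((ann_subset c _).trans (sqC_mono c (by simpa using hanti (Nat.zero_le j))))
  have hdis : ∀ j < n, ∀ k, j < k →
      Disjoint (mt H s (ann c (R / 4 ^ j))) (mt H s (ann c (R / 4 ^ k))) := by
    intro j hj k hjk
    refine Finset.disjoint_left.2 fun x h1 h2 => ?_
    obtain ⟨hx, v, hv, hv'⟩ := mem_mt.1 h1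
    obtain ⟨-, w, hw, hw'⟩ := mem_mt.1 h2
    have e1 := hanti (Nat.succ_le_of_lt hjk)
    have e2 := hanti (Nat.succ_le_of_lt hj)
    rw [Nat.succ_eq_add_one, hsucc] at e1 e2
    linarith [sn_sub_le c v w, hd x hx v hv w hw, hε x (hAR j h1), hv'.1, hw'.2]
  have hsum : ∑ j ∈ J, G.en (mt H s (ann c (R / 4 ^ j))) u u ≤ ∑ _j ∈ J, E / J.card := by
    rw [← G.en_biUnion _ _ fun j hj k hk hne => ?_, Finset.sum_const,
      nsmul_eq_mul, mul_div_cancel₀ _ hcard.ne']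
    · exact (G.en_mono (Finset.biUnion_subset.2 fun j _ => hAR j) u).trans hE
    · rcases lt_or_gt_of_ne hne with e | e
      · exact hdis j (hJn j hj) k e
      · exact (hdis k (hJn k hk) j e).symm
  obtain ⟨j, hj, hEj⟩ := Finset.exists_le_of_sum_le hJ hsum
  have hj' := hJn j hj
  have hjR : R / 4 ^ j ≤ R := by simpa using hanti (Nat.zero_le j)
  obtain ⟨r, hr, hosc⟩ := h.exists_osc (κ := Unit) (f := fun _ => sn c)
    (fun _ => sn_sub_le c) (L := fun r => frame c r ∩ S) (fun r w hw => ⟨(), hw.1⟩)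
    (a := R / 4 ^ j / 2) (b := R / 4 ^ j) (by linarith [hb j])
    (fun r hr => hc r (by linarith [hr.1, hb j]) (hr.2.trans_le hjR))
    (fun r hr => (inter_subset_inter_left _
      ((frame_subset c r).trans (sqC_mono c (hr.2.le.trans hjR)))).trans hK)
    (t := mt H s (ann c (R / 4 ^ j)))
    (fun r hr => mt_mono fun w hw => ⟨hr.1.trans_eq hw.1.symm, hw.1.trans_lt hr.2⟩)
    (fun x hx => hd0 x (mt_subset _ hx)) (fun x hx => hd x (mt_subset _ hx)) u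
  have e2 := hanti (Nat.succ_le_of_lt hj')
  rw [Nat.succ_eq_add_one, hsucc] at e2
  refine ⟨r, by linarith [hr.1, hb j], hr.2.trans_le hjR, fun x hx y hy =>
    (hosc x hx y hy).trans ?_⟩
  have hS : ∑ x ∈ mt H s (ann c (R / 4 ^ j)), min (d x) (R / 4 ^ j - R / 4 ^ j / 2) ^ 2 ≤
      Y * (R / 4 ^ j) ^ 2 :=
    (Finset.sum_le_sum fun x hx => pow_le_pow_left₀
      (le_min (hd0 x (mt_subset _ hx)) (by linarith [hb j])) (min_le_left _ _) 2).trans (hY j hj)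
  have hY0 : 0 ≤ Y := by
    have := (Finset.sum_nonneg fun x _ => sq_nonneg _).trans hS
    exact nonneg_of_mul_nonneg_left this (pow_pos (hb j) 2)
  have hE0 : 0 ≤ E / J.card := (G.en_nonneg _ u).trans hEj
  rw [Fintype.card_unit, Nat.cast_one, one_mul, div_le_iff₀ (by linarith [hb j]),
    ← Real.sqrt_mul (mul_nonneg zero_le_two (G.en_nonneg _ u))]
  have e3 : √(8 * E * Y / J.card) * (R / 4 ^ j - R / 4 ^ j / 2) =
      √(2 * (E / J.card) * (Y * (R / 4 ^ j) ^ 2)) := by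
    rw [← Real.sqrt_sq (show 0 ≤ R / 4 ^ j - R / 4 ^ j / 2 by linarith [hb j]),
      ← Real.sqrt_mul' _ (sq_nonneg _)]
    congr 1
    ring
  rw [e3]
  gcongr

/-- The walk escapes from the cells inside `O` and inside a square which meets the outside
of `O`, when the cut square is connected. -/
theorem esc_cut {S O : Set ℂ} (hO : O ⊆ S) {c : ℂ} {r : ℝ} (hK : sqC c r ∩ S ⊆ K)
    (hc : IsPreconnected (sqC c r ∩ S)) (hw : ∃ w ∈ sqC c r ∩ S, w ∉ O) :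
    G.Esc (ins H s (O ∩ sqO c r)) := by
  obtain ⟨w, hw, hwO⟩ := hw
  exact h.esc hc hK (fun z hz => ⟨sqO_subset c r hz.2, hO hz.1⟩) fun hh => hwO (hh hw).1

/-- Maximum principle inside a cut frame. -/
theorem le_of_cut_frame {S O : Set ℂ} (hS : ∀ x ∈ s, H x ⊆ S) {c : ℂ} {r : ℝ}
    (hK : sqC c r ∩ S ⊆ K) (hE : G.Esc (ins H s (O ∩ sqO c r))) {u : V → ℝ} {M : ℝ}
    (hu : ∀ x ∈ ins H s (O ∩ sqO c r), G.lap u x ≤ 0)
    (h1 : ∀ x ∈ mt H s (frame c r ∩ S), u x ≤ M)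
    (h2 : ∀ x ∈ ins H s (sqO c r), ¬ H x ⊆ O → u x ≤ M) : ∀ x ∈ mt H s (sqC c r), u x ≤ M := by
  have out : ∀ x ∈ mt H s (sqC c r), x ∉ ins H s (O ∩ sqO c r) → u x ≤ M := by
    intro x hx hn
    rcases h.frame_or_ins hx with k | k
    · obtain ⟨hxs, w, hw, hwf⟩ := mem_mt.1 k
      exact h1 x (mem_mt.2 ⟨hxs, w, hw, hwf, hS x hxs hw⟩)
    · exact h2 x k fun hh => hn (mem_ins.2 ⟨(mem_ins.1 k).1, subset_inter hh (mem_ins.1 k).2⟩)
  intro x hx
  by_cases hxF : x ∈ ins H s (O ∩ sqO c r)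
  · refine G.harm_le hE hu (fun z hz y hy hn => out y ?_ hn) x hxF
    obtain ⟨z1, z2⟩ := mem_ins.1 hz
    obtain ⟨y1, w, hw⟩ := h.nbr z z1
      (fun v hv => hK ⟨sqO_subset c r (z2 hv).2, hS z z1 hv⟩) y hy
    exact mem_mt.2 ⟨y1, w, hw.2, sqO_subset c r (z2 hw.1).2⟩
  · exact out x hx hxF

/-- Beurling estimate: a subharmonic function which is at most `ω` on the cells that leave `O` is
small near a point whose frames leave `O`. -/
theorem beurling {S O : Set ℂ} (hS : ∀ x ∈ s, H x ⊆ S) {c : ℂ} {R : ℝ} (hR : 0 < R)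
    (hK : sqC c R ∩ S ⊆ K) {n : ℕ}
    (hc : ∀ r, 0 < r → r < R → IsPreconnected (frame c r ∩ S))
    (hw : ∀ r, R / 4 ^ n < r → r < R → ∃ w ∈ frame c r ∩ S, w ∉ O)
    (hesc : G.Esc (ins H s (O ∩ sqO c R))) {J : Finset ℕ} (hJ : J.Nonempty) (hJn : ∀ j ∈ J, j < n)
    {d : V → ℝ} (hd0 : ∀ x ∈ s, 0 ≤ d x) (hd : ∀ x ∈ s, ∀ v ∈ H x, ∀ w ∈ H x, dist v w ≤ d x)
    (hε : ∀ x ∈ mt H s (sqC c R), d x ≤ R / 4 ^ n) {Y E : ℝ}
    (hY : ∀ j ∈ J, ∑ x ∈ mt H s (ann c (R / 4 ^ j)), d x ^ 2 ≤ Y * (R / 4 ^ j) ^ 2) {u : V → ℝ}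
    (hE : G.en (mt H s (sqC c R)) u u ≤ E) (hu : ∀ x ∈ ins H s (O ∩ sqO c R), G.lap u x ≤ 0)
    {ω : ℝ} (h0 : ∀ x ∈ mt H s (sqC c R), ¬ H x ⊆ O → u x ≤ ω) :
    ∀ x ∈ mt H s (sqC c (R / 4 ^ n)), u x ≤ ω + √(8 * E * Y / J.card) := by
  obtain ⟨r, h1, h2, ho⟩ := h.exists_cut_frame hR hK hc hJ hJn hd0 hd hε hY hE
  have hKr : sqC c r ∩ S ⊆ K := (inter_subset_inter_left _ (sqC_mono c h2.le)).trans hK
  have hsub : ins H s (O ∩ sqO c r) ⊆ ins H s (O ∩ sqO c R) :=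
    ins_mono (inter_subset_inter_right _ (sqO_mono c h2.le))
  obtain ⟨w, hwf, hwO⟩ := hw r h1 h2
  obtain ⟨y, hy, hwy⟩ := h.exists_mem (hKr ⟨frame_subset c r hwf.1, hwf.2⟩)
  have hyω := h0 y (mem_mt.2 ⟨hy, w, hwy, sqC_mono c h2.le (frame_subset c r hwf.1)⟩)
    fun hh => hwO (hh hwy)
  intro x hx
  refine h.le_of_cut_frame hS hKr (hesc.mono hsub) (fun z hz => hu z (hsub hz))
    (fun z hz => by linarith [ho z hz y (mem_mt.2 ⟨hy, w, hwy, hwf⟩)])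
    (fun z hz hn => (h0 z (mt_mono ((sqO_subset c r).trans (sqC_mono c h2.le))
      (h.ins_subset_mt _ hz)) hn).trans (le_add_of_nonneg_right (Real.sqrt_nonneg _))) x
    (mt_mono (sqC_mono c h1.le) hx)

end CW

/-- the closed upper half-plane cuts every frame in a connected set -/
theorem isPreconnected_frame_half {c : ℂ} {r : ℝ} (hr : 0 ≤ r) (hc : 0 ≤ c.im) :
    IsPreconnected (frame c r ∩ {w | 0 ≤ w.im}) := by
  by_cases hcr : r ≤ c.im
  · have e : frame c r ∩ {w | 0 ≤ w.im} = frame c r := inter_eq_left.2 fun w hw => by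
      have := (abs_le.1 (sn_le_iff.1 (le_of_eq hw)).2).1
      show 0 ≤ w.im
      linarith
    rw [e]
    exact isPreconnected_frame c hr
  · rw [not_le] at hcr
    have e : frame c r ∩ {w | 0 ≤ w.im} =
        ({w : ℂ | w.re = c.re + r ∧ w.im ∈ Icc 0 (c.im + r)} ∪
          {w : ℂ | w.im = c.im + r ∧ w.re ∈ Icc (c.re - r) (c.re + r)}) ∪
          {w : ℂ | w.re = c.re - r ∧ w.im ∈ Icc 0 (c.im + r)} := by
      rw [frame_eq_hash]
      ext w
      simp only [hash, mem_inter_iff, mem_ofPred_eq, mem_union, mem_Icc, abs_eq hr]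
      constructor
      · rintro ⟨⟨k1, k2, (k | k) | k | k⟩, k0⟩
        · exact Or.inl (Or.inl ⟨by linarith, k0, k2.2⟩)
        · exact Or.inr ⟨by linarith, k0, k2.2⟩
        · exact Or.inl (Or.inr ⟨by linarith, k1⟩)
        · exact absurd k0 (by linarith)
      · rintro ((⟨k, k2⟩ | ⟨k, k1⟩) | ⟨k, k2⟩)
        · exact ⟨⟨⟨by linarith, by linarith⟩, ⟨by linarith, k2.2⟩, Or.inl (Or.inl (by linarith))⟩,
            k2.1⟩
        · exact ⟨⟨k1, ⟨by linarith, by linarith⟩, Or.inr (Or.inl (by linarith))⟩, by linarith⟩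
        · exact ⟨⟨⟨by linarith, by linarith⟩, ⟨by linarith, k2.2⟩, Or.inl (Or.inr (by linarith))⟩,
            k2.1⟩
    rw [e]
    refine IsPreconnected.union (⟨c.re - r, c.im + r⟩ : ℂ) (Or.inr ⟨rfl, le_rfl, by
      simp only; linarith⟩) ⟨rfl, by simp only; linarith, le_rfl⟩ ?_
      (convex_vert _ _ _).isPreconnected
    exact IsPreconnected.union (⟨c.re + r, c.im + r⟩ : ℂ) ⟨rfl, by simp only; linarith, le_rfl⟩
      ⟨rfl, by simp only; linarith, le_rfl⟩ (convex_vert _ _ _).isPreconnected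
      (convex_hor _ _ _).isPreconnected

theorem frame_meets_line {c : ℂ} {r : ℝ} (hc : |c.im| ≤ r) :
    ∃ w ∈ frame c r ∩ {w | 0 ≤ w.im}, w ∉ {w : ℂ | 0 < w.im} := by
  have hr : 0 ≤ r := (abs_nonneg _).trans hc
  refine ⟨⟨c.re + r, 0⟩, ⟨?_, le_refl (0 : ℝ)⟩, lt_irrefl (0 : ℝ)⟩
  simp only [frame, sn, mem_ofPred_eq, add_sub_cancel_left, abs_of_nonneg hr, zero_sub, abs_neg]
  exact max_eq_left hc

theorem isPreconnected_sqC_half (c : ℂ) (r : ℝ) : IsPreconnected (sqC c r ∩ {w | 0 ≤ w.im}) :=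
  ((convex_sqC c r).inter ((convex_Ici (0 : ℝ)).linear_preimage Complex.imLm)).isPreconnected

end Pool.Agent.Lib.MP_0d9445_pr.Cell
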