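import Pool.Agent.Lib.MP_0d9445_pr.Walk.Iface
import Pool.Agent.Lib.MP_0d9445_pr.Net.Weight
import Pool.Agent.Lib.MP_0d9445_pr.Bd.Beur

/-! The walk which starts near the boundary of the stopping domain stops before it goes far. -/

noncomputable section

open MeasureTheory ProbabilityTheory Set Filter Topology
open scoped NNReal ENNReal Classical

namespace Pool.Agent.Lib.MP_0d9445_pr.Walk

open BM Cell

/-- A nonnegative function which is at least one off `I` and superharmonic on `I` bounds the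
probability to leave `I`. -/
theorem hit_le (hW : WalkBasics) {St : ℂ → Set ℂ} {R I : Set ℂ} (hc : Closed St R) {u : ℂ → ℝ}
    (h0 : ∀ y ∈ R, 0 ≤ u y) (h1 : ∀ y ∈ R, y ∉ I → 1 ≤ u y)
    (hs : ∀ y ∈ R, y ∈ I → walkExp St 1 y (fun w => u (w 1)) ≤ u y) (L : ℕ) :
    ∀ x ∈ R, walkExp St L x (fun w => if ∃ i ≤ L, w i ∉ I then 1 else 0) ≤ u x := by
  induction L with
  | zero =>
    intro x hx
    show (if ∃ i ≤ 0, x ∉ I then (1 : ℝ) else 0) ≤ u x
    split_ifs with h
    · obtain ⟨-, -, h⟩ := h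
      exact h1 x hx h
    · exact h0 x hx
  | succ L ih =>
    intro x hx
    by_cases hxI : x ∈ I
    · rw [add_comm L 1, hW.markov St R 1 L x _ hc hx]
      refine le_trans (hW.mono St R 1 x _ _ hc hx fun w hw => ?_) (hs x hx hxI)
      have hw1 := hW.traj_mem St R 1 x w hc hx hw 1
      refine le_trans (hW.mono St R L (w 1) _ _ hc hw1 fun w' hw' => ?_) (ih (w 1) hw1)
      split_ifs with k1 k2
      · exact le_rfl
      · exfalso
        obtain ⟨i, hi, hiI⟩ := k1
        refine k2 ⟨i - 1, by omega, ?_⟩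
        unfold glue at hiI
        split_ifs at hiI with k3
        · rcases Nat.le_one_iff_eq_zero_or_eq_one.1 k3 with rfl | rfl
          · rw [hw.1] at hiI
            exact absurd hxI hiI
          · rwa [Nat.sub_self, hw'.1]
        · exact hiI
      · exact zero_le_one
      · exact le_rfl
    · refine le_trans ?_ (h1 x hx hxI)
      refine (hW.mono St R _ x _ (fun _ => 1) hc hx fun w _ => ?_).trans
        (hW.const St R _ x 1 hc hx).le
      split_ifs
      · exact le_rfl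
      · exact zero_le_one

namespace BeurWalk

/-- the cutoff between the radii `5 R / 8` and `7 R / 8` -/
def cut (c : ℂ) (R : ℝ) (w : ℂ) : ℝ := max 0 (min 1 ((sn c w - 5 * R / 8) * (4 / R)))

theorem cut_nonneg (c : ℂ) (R : ℝ) (w : ℂ) : 0 ≤ cut c R w := le_max_left _ _

theorem cut_eq_zero {c w : ℂ} {R : ℝ} (hR : 0 < R) (h : sn c w ≤ 5 * R / 8) : cut c R w = 0 :=
  max_eq_left ((min_le_right _ _).trans
    (mul_nonpos_of_nonpos_of_nonneg (by linarith) (by positivity)))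

theorem one_le_cut {c w : ℂ} {R : ℝ} (hR : 0 < R) (h : 7 * R / 8 ≤ sn c w) : 1 ≤ cut c R w := by
  refine le_max_of_le_right (le_min le_rfl ?_)
  rw [← mul_div_assoc, le_div_iff₀ hR]
  linarith

theorem cut_lip (c : ℂ) {R : ℝ} (hR : 0 < R) (x y : ℂ) :
    |cut c R x - cut c R y| ≤ 4 / R * ‖x - y‖ := by
  refine (abs_max_sub_max_le_max _ _ _ _).trans ?_
  rw [sub_self, abs_zero]
  refine max_le (by positivity) ((abs_min_sub_min_le_max _ _ _ _).trans ?_)
  rw [sub_self, abs_zero]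
  refine max_le (by positivity) ?_
  rw [← sub_mul, abs_mul, abs_of_pos (show 0 < 4 / R by positivity), mul_comm]
  refine mul_le_mul_of_nonneg_left ?_ (by positivity)
  have h1 := sn_sub_le c x y
  have h2 := sn_sub_le c y x
  rw [dist_comm] at h2
  rw [dist_eq_norm] at h1 h2
  rw [abs_le]; constructor <;> linarith

/-- Dirichlet principle for a finite set of free vertices -/
theorem en_le_of_harm {V : Type*} (G : Net V) {T F : Finset V} (hF : F ⊆ G.inner T)
    {u g : V → ℝ} (hu : ∀ x ∈ F, G.lap u x = 0) (hg : ∀ x, x ∉ F → u x = g x) :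
    G.en T u u ≤ G.en T g g := by
  have h1 := G.en_add_self T u (g - u)
  rw [add_sub_cancel, G.en_eq_sum hF u (v := g - u) fun x hx => by
    rw [Pi.sub_apply, hg x hx, sub_self],
    Finset.sum_eq_zero fun x hx => by rw [hu x hx, zero_mul]] at h1
  linarith [G.en_nonneg T (g - u)]

theorem en_cut_le {N : FC} {K : Set ℂ} {ε : ℝ} (hN : N.Nice K ε) {c : ℂ} {R : ℝ} (hR : 0 < R)
    (hε : ε ≤ R / 16) (T : Finset ℂ) :
    N.G.en T (cut c R) (cut c R) ≤ (4 / R) ^ 2 * N.X (sqC c R \ sqO c (R / 2)) := by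
  have hX : N.X (sqC c R \ sqO c (R / 2)) = N.G.len2 (N.pts (sqC c R \ sqO c (R / 2))) := rfl
  rw [hX, Net.len2_eq, mul_left_comm, Net.en]
  refine mul_le_mul_of_nonneg_left ?_ (by norm_num)
  rw [Finset.mul_sum, ← Finset.sum_filter_of_ne (p := fun x =>
    x ∈ N.pts (sqC c R \ sqO c (R / 2))) fun x _ hne => ?_]
  · refine (Finset.sum_le_sum fun x _ => ?_).trans (Finset.sum_le_sum_of_subset_of_nonneg
      (fun x hx => (Finset.mem_filter.1 hx).2) fun x _ _ => by positivity)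
    rw [Finset.mul_sum]
    refine Finset.sum_le_sum fun y _ => ?_
    have h1 := mul_self_le_mul_self (abs_nonneg _) (cut_lip c hR x y)
    rw [abs_mul_abs_self] at h1
    exact h1.trans (le_of_eq (by ring))
  · obtain ⟨y, hy, hne'⟩ := Finset.exists_ne_zero_of_sum_ne_zero hne
    have hxy := hN.nbr_le hy
    have h1 := sn_sub_le c x y
    have h2 := sn_sub_le c y x
    rw [dist_comm] at h2
    rw [dist_eq_norm] at h1 h2
    refine N.mem_pts.2 ⟨(N.mem_N.1 hy).2.1, ?_, fun hh => hne' ?_⟩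
    · by_contra hh
      have h3 : R < sn c x := not_le.1 hh
      have e : ∀ z, 7 * R / 8 ≤ sn c z → cut c R z = 1 := fun z hz =>
        le_antisymm (max_le zero_le_one (min_le_left _ _)) (one_le_cut hR hz)
      exact hne' (by rw [e x (by linarith), e y (by linarith), sub_self, zero_mul])
    · have h3 : sn c x < R / 2 := hh
      rw [cut_eq_zero hR (by linarith), cut_eq_zero hR (by linarith), sub_self, zero_mul]

end BeurWalk

open BeurWalk in
/-- Beurling estimate for the walk stopped on leaving `O`. All cells lie in `S`; the scales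
`R / 2 / 4 ^ j`, `j ∈ J`, are good. -/
theorem beurling_walk (hW : WalkBasics) {N : FC} {K S O Rs : Set ℂ} {ε : ℝ} (hN : N.Nice K ε)
    (hS : ∀ x ∈ N.V, N.H x ⊆ S) (hO : O ⊆ S) {c : ℂ} {R : ℝ} (hR : 0 < R) (hK : sqC c R ∩ S ⊆ K)
    {n : ℕ} (hc : ∀ r, 0 < r → r < R / 2 → IsPreconnected (frame c r ∩ S))
    (hc' : IsPreconnected (sqC c R ∩ S))
    (hw : ∀ r, R / 2 / 4 ^ n < r → r < R / 2 → ∃ w ∈ frame c r ∩ S, w ∉ O)
    {J : Finset ℕ} (hJ : J.Nonempty) (hJn : ∀ j ∈ J, j < n) (hε : ε ≤ R / 16)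
    (hε' : ε ≤ R / 2 / 4 ^ n) {X Y : ℝ} (hX : N.X (sqC c R \ sqO c (R / 2)) ≤ X * R ^ 2)
    (hY : ∀ j ∈ J, ∑ x ∈ mt N.H N.V (ann c (R / 2 / 4 ^ j)), Metric.diam (N.H x) ^ 2 ≤
      Y * (R / 2 / 4 ^ j) ^ 2)
    (hcl : Closed (N.step O) Rs) (hRs : Rs ⊆ N.V) (L : ℕ) {x : ℂ} (hx : x ∈ Rs)
    (hxc : x ∈ sqC c (R / 2 / 4 ^ n)) :
    walkExp (N.step O) L x (fun w => if ∃ i ≤ L, w i ∉ {y | N.H y ⊆ sqO c R} then 1 else 0) ≤
      √(128 * X * Y / J.card) := by
  have h := hN.cw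
  have hn : 0 < n := by
    obtain ⟨j, hj⟩ := hJ
    exact (Nat.zero_le j).trans_lt (hJn j hj)
  have hlt : R / 2 / 4 ^ n < R / 2 := div_lt_self (by positivity) (one_lt_pow₀ (by norm_num) hn.ne')
  have hE : N.G.Esc (N.inside (O ∩ sqO c R)) := by
    obtain ⟨w, hw1, hw2⟩ := hw ((R / 2 / 4 ^ n + R / 2) / 2) (by linarith) (by linarith)
    exact h.esc_cut hO hK hc' ⟨w, ⟨sqC_mono c (by linarith) (frame_subset c _ hw1.1), hw1.2⟩, hw2⟩
  set u := N.G.solve (N.inside (O ∩ sqO c R)) 0 0 (cut c R) with hu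
  have hz : ∀ y ∈ N.inside (O ∩ sqO c R), (0 : ℝ) ≤ (0 : ℂ → ℝ) y := fun _ _ => le_rfl
  have ulap : ∀ y ∈ N.inside (O ∩ sqO c R), N.G.lap u y = 0 := fun y hy => by
    simpa using N.G.solve_in hE hz 0 (cut c R) hy
  have uout : ∀ y, y ∉ N.inside (O ∩ sqO c R) → u y = cut c R y := fun y hy =>
    N.G.solve_out hE hz 0 _ hy
  have u0 : ∀ y, 0 ≤ u y := fun y => by
    by_cases hy : y ∈ N.inside (O ∩ sqO c R)
    · exact N.G.solve_nonneg hE hz hz (fun _ _ z _ _ => cut_nonneg c R z) hy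
    · rw [uout y hy]; exact cut_nonneg c R y
  refine (hit_le hW hcl (u := u) (fun y _ => u0 y) (fun y hy hI => ?_) (fun y hy hI => ?_) L x
    hx).trans ?_
  · obtain ⟨w, hw1, hw2⟩ := not_subset.1 hI
    rw [uout y fun hh => hw2 ((mem_ins.1 hh).2 hw1).2]
    refine one_le_cut hR ?_
    have k1 := sn_sub_le c w y
    have k2 := hN.dist_le (hRs hy) hw1 (hN.mem y (hRs hy))
    have k3 : R ≤ sn c w := not_lt.1 hw2
    linarith
  · by_cases hyO : y ∈ N.inside O
    · have hyF : y ∈ N.inside (O ∩ sqO c R) :=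
        mem_ins.2 ⟨hRs hy, subset_inter (mem_ins.1 hyO).2 hI⟩
      rw [hW.one N O y u hyO (hE.nonempty hyF), ulap y hyF, zero_div, sub_zero]
    · exact (hW.one' N O y u hyO).le
  · have hsub : N.inside (O ∩ sqO c (R / 2)) ⊆ N.inside (O ∩ sqO c R) :=
      ins_mono (inter_subset_inter_right _ (sqO_mono c (by linarith)))
    have hen : N.G.en (mt N.H N.V (sqC c (R / 2))) u u ≤ 16 * X := by
      have k1 : N.inside (O ∩ sqO c R) ⊆ N.G.inner (mt N.H N.V (sqC c R)) :=
        (h.ins_subset_inner fun z hz => hK ⟨sqO_subset c R hz.2, hO hz.1⟩).trans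
          (N.G.inner_mono (mt_mono fun z hz => sqO_subset c R hz.2))
      refine (N.G.en_mono (mt_mono (sqC_mono c (by linarith))) u).trans
        ((en_le_of_harm N.G k1 ulap uout).trans ((en_cut_le hN hR hε _).trans ?_))
      refine (mul_le_mul_of_nonneg_left hX (sq_nonneg _)).trans (le_of_eq ?_)
      field_simp
      ring
    have key := h.beurling hS (half_pos hR)
      ((inter_subset_inter_left _ (sqC_mono c (by linarith))).trans hK) hc hw (hE.mono hsub) hJ hJn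
      (d := fun y => Metric.diam (N.H y)) (fun _ _ => Metric.diam_nonneg)
      (fun y hy v hv w hw => Metric.dist_le_diam_of_mem (hN.cpt y hy).isBounded hv hw)
      (fun y hy => (hN.diam y (mt_subset _ hy)).trans hε') hY hen
      (fun y hy => (ulap y (hsub hy)).le) (ω := 0) (fun y hy hn => by
        rw [uout y fun hh => hn ((mem_ins.1 hh).2.trans inter_subset_left)]
        obtain ⟨hyV, w, hw1, hw2⟩ := mem_mt.1 hy
        have k1 := sn_sub_le c y w
        have k2 := hN.dist_le hyV (hN.mem y hyV) hw1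
        have k3 : sn c w ≤ R / 2 := hw2
        exact (cut_eq_zero hR (by linarith)).le) x
      (mem_mt.2 ⟨hRs hx, x, hN.mem x (hRs hx), hxc⟩)
    rw [zero_add] at key
    refine key.trans (le_of_eq ?_)
    congr 1
    ring

/-- The half-plane case. -/
theorem beurling_half (hW : WalkBasics) {N : FC} {K Rs : Set ℂ} {ε : ℝ} (hN : N.Nice K ε)
    (hS : ∀ x ∈ N.V, N.H x ⊆ {w | 0 ≤ w.im}) {c : ℂ} {R : ℝ} (hR : 0 < R)
    (hK : sqC c R ∩ {w | 0 ≤ w.im} ⊆ K) {n : ℕ} (hc0 : 0 ≤ c.im) (hc : c.im ≤ R / 2 / 4 ^ n)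
    {J : Finset ℕ} (hJ : J.Nonempty) (hJn : ∀ j ∈ J, j < n) (hε : ε ≤ R / 16)
    (hε' : ε ≤ R / 2 / 4 ^ n) {X Y : ℝ} (hX : N.X (sqC c R \ sqO c (R / 2)) ≤ X * R ^ 2)
    (hY : ∀ j ∈ J, ∑ x ∈ mt N.H N.V (ann c (R / 2 / 4 ^ j)), Metric.diam (N.H x) ^ 2 ≤
      Y * (R / 2 / 4 ^ j) ^ 2)
    (hcl : Closed (N.step {w | 0 < w.im}) Rs) (hRs : Rs ⊆ N.V) (L : ℕ) {x : ℂ} (hx : x ∈ Rs)
    (hxc : x ∈ sqC c (R / 2 / 4 ^ n)) :
    walkExp (N.step {w | 0 < w.im}) L x
      (fun w => if ∃ i ≤ L, w i ∉ {y | N.H y ⊆ sqO c R} then 1 else 0) ≤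
      √(128 * X * Y / J.card) := by
  have hO : {w : ℂ | 0 < w.im} ⊆ {w : ℂ | 0 ≤ w.im} := fun w hw => by
    have k : 0 < w.im := hw
    exact k.le
  refine beurling_walk hW (S := {w : ℂ | 0 ≤ w.im}) (O := {w : ℂ | 0 < w.im}) hN hS hO hR hK
    ?_ (isPreconnected_sqC_half c R) ?_ hJ hJn hε hε' hX hY hcl hRs L hx hxc
  · intro r hr _
    exact isPreconnected_frame_half (le_trans (by positivity) hr.le) hc0
  · intro r hr _
    exact frame_meets_line (by rw [abs_of_nonneg hc0]; exact hc.trans hr.le)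

end Pool.Agent.Lib.MP_0d9445_pr.Walk
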