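import Pool.Agent.Lib.MP_0d9445_pr.Bd.Stmt
import Pool.Agent.Lib.MP_0d9445_pr.CR.Defs

/-! Boundary boxes, the dominating variables near the real line, the abstract boundary cascade. -/

open MeasureTheory ProbabilityTheory Set Filter Topology
open scoped ENNReal NNReal

noncomputable section

namespace Pool.Agent.Lib.MP_0d9445_pr.Bd

open CR

/-- the point of the real line below the middle of the boundary box -/
def yb (n : ℕ) (a : ℤ) : ℂ := ((sc n * (a + 1 / 2) : ℝ) : ℂ)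

/-- the boundary box of level `n` and index `a`: width `sc n`, height `64 sc n` -/
def bbox (n : ℕ) (a : ℤ) : Set ℂ :=
  {z | sc n * a ≤ z.re ∧ z.re < sc n * (a + 1) ∧ 0 < z.im ∧ z.im < 64 * sc n}

/-- the boundary box and its mirror image, enlarged by `r sc n` (open) -/
def oR (n : ℕ) (a : ℤ) (r : ℝ) : Set ℂ :=
  {z | |z.re - sc n * (a + 1 / 2)| < (1 / 2 + r) * sc n ∧ |z.im| < (64 + r) * sc n}

/-- the closed version of `oR` -/
def cR (n : ℕ) (a : ℤ) (r : ℝ) : Set ℂ :=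
  {z | |z.re - sc n * (a + 1 / 2)| ≤ (1 / 2 + r) * sc n ∧ |z.im| ≤ (64 + r) * sc n}

/-- the region read by the blocking event of the boundary box -/
def fr (n : ℕ) (a : ℤ) : Set ℂ := (oR n a 3 \ cR n a 1) ∩ UH

/-- the part of the plane above height `sc m` -/
def above (m : ℕ) : Set ℂ := {z | sc m < z.im}

/-- rescaled slope seen from a boundary box -/
def ob (n : ℕ) (a : ℤ) (g : C(ℂ, ℝ)) : ℝ≥0∞ :=
  ENNReal.ofReal (sc n) * lip g (Metric.ball (yb n a) (200 * sc n))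

/-- boundary boxes `d` levels below -/
def bk (d : ℕ) (a : ℤ) : Finset ℤ := Finset.Ico (2 ^ d * a) (2 ^ d * (a + 1))

/-- the squares `d` levels below that fill the boundary box above its boundary children -/
def wh (d : ℕ) (a : ℤ) : Finset (ℤ × ℤ) := bk d a ×ˢ Finset.Ico 64 (64 * 2 ^ d)

/-- the squares of the same level just above the boundary box and its neighbours -/
def top (a : ℤ) : Finset (ℤ × ℤ) := Finset.Icc (a - 3) (a + 3) ×ˢ Finset.Icc 64 66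

open Classical in
/-- killed count of the exposed points of a boundary box, down to depth `k` -/
def UU (d : ℕ) (p : Pat) (B : ℕ → ℤ → Prop) : ℕ → ℕ → ℤ → ℝ≥0∞
  | 0, _, _ => 0
  | k + 1, n, a => ∑ w ∈ wh d a, ZZ d p (n + d) w +
      ∑ a' ∈ bk d a, if B (n + d) a' then 0 else UU d p B k (n + d) a'

/-- dominates the number of exposed points in `oR n a 3` -/
def WW (d : ℕ) (p : Pat) (B : ℕ → ℤ → Prop) (k n : ℕ) (a : ℤ) : ℝ≥0∞ :=
  ∑ i ∈ Finset.Icc (a - 3) (a + 3), UU d p B k n i + ∑ w ∈ top a, ZZ d p n w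

/-- dominates the short edges below a boundary box, in units of `sc n ^ 2` -/
def XI (d : ℕ) (p : Pat) (k n : ℕ) (a : ℤ) : ℝ≥0∞ :=
  ∑ j ∈ Finset.range k, (4 : ℝ≥0∞)⁻¹ ^ ((j + 1) * d) *
    ∑ a' ∈ bk (j * d) a, ∑ w ∈ wh d a', KK d p (n + (j + 1) * d) w

/-- dominates the long edges below a boundary box, in units of `sc n ^ 2` -/
def XII (d : ℕ) (p : Pat) (B : ℕ → ℤ → Prop) (k n : ℕ) (a : ℤ) : ℝ≥0∞ :=
  ∑ j ∈ Finset.range k, (4 : ℝ≥0∞)⁻¹ ^ ((j + 1) * d) *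
    ∑ a' ∈ bk ((j + 1) * d) a, WW d p B k (n + (j + 1) * d) a' ^ 2

/-- `a ≼ b` inside `A` -/
def LeOn (A : Set ℂ) (a b : Pat) : Prop :=
  (∀ n v, reg n v 5 ⊆ A → b.B n v → a.B n v) ∧ a.pts ∩ A ⊆ b.pts

/-- The boundary cascade: an interior cascade `K`, reflected layers `ν n`, the kernels `P m n` with
reflected layers at the levels `n, …, m - 1`, and the blocking events `Bb j m n a`. -/
structure BCasc (Ξ : Type) [MeasurableSpace Ξ] [MeasurableSpace C(ℂ, ℝ)] where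
  K : Casc Ξ
  ν : ℕ → Measure C(ℂ, ℝ)
  P : ℕ → ℕ → Kernel C(ℂ, ℝ) Ξ
  ν_prob : ∀ n, IsProbabilityMeasure (ν n)
  P_markov : ∀ m n, IsMarkovKernel (P m n)
  tower : ∀ m n, n < m → ∀ g (F : Ξ → ℝ≥0∞), Measurable F →
    ∫⁻ x, F x ∂P m n g = ∫⁻ η, ∫⁻ x, F x ∂P m (n + 1) (g + η) ∂ν n
  subg : ∀ n (y : ℂ) (s : ℝ),
    ∫⁻ η, ENNReal.ofReal (Real.exp (s * η y)) ∂ν n ≤ ENNReal.ofReal ((2 : ℝ) ^ (s ^ 2))
  lipexp : ∀ θ : ℝ, ∃ C : ℝ≥0, ∀ n a, ∫⁻ η, ex (ENNReal.ofReal θ * ob n a η) ∂ν n ≤ C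
  indep : ∀ m n, n ≤ m → ∀ g (A B : Set ℂ), A ⊆ UH → B ⊆ UH →
    (∀ x ∈ A, ∀ y ∈ B, sc n / 2 ≤ ‖x - y‖) → Indep (K.G A) (K.G B) (P m n g)
  agree : ∀ m n, n ≤ m → ∀ g (F : Ξ → ℝ≥0∞), Measurable[K.G (above n)] F →
    ∫⁻ x, F x ∂P m n g = ∫⁻ x, F x ∂K.P n g
  Bb : ℕ → ℕ → Ξ → ℕ → ℤ → Prop
  bb_meas : ∀ j m n a, MeasurableSet[K.G (fr n a)] {x | Bb j m x n a}
  soft : ∀ (ε : ℝ≥0∞) (L : ℝ≥0), 0 < ε → ∃ T : ℝ, ∀ N j : ℕ, ∀ᶠ m in atTop, ∀ n ≤ N, ∀ a g,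
    fr n a ⊆ K.W → ob n a g ≤ L → T ≤ cc K.Q n (yb n a) g → P m n g {x | ¬ Bb j m x n a} ≤ ε

namespace BCasc

variable {Ξ : Type} [MeasurableSpace Ξ] [MeasurableSpace C(ℂ, ℝ)] (B : BCasc Ξ)

instance (n : ℕ) : IsProbabilityMeasure (B.ν n) := B.ν_prob n
instance (m n : ℕ) : IsMarkovKernel (B.P m n) := B.P_markov m n

/-- law of the sum of the `k` reflected layers `n, ..., n + k - 1` -/
def lay (n : ℕ) : ℕ → Measure C(ℂ, ℝ)
  | 0 => Measure.dirac 0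
  | k + 1 => ((lay n k).prod (B.ν (n + k))).map fun p => p.1 + p.2

/-- the window contains everything the estimates for a boundary box look at -/
def Win (n : ℕ) (a : ℤ) : Prop := Metric.ball (yb n a) (200 * sc n) ∩ UH ⊆ B.K.W

/-- first output: the short edges are bounded by a deterministic constant -/
def OutI (d : ℕ) : Prop :=
  ∃ C : ℝ≥0, ∀ (δ : ℝ≥0∞) (L : ℝ≥0), 0 < δ → ∃ T : ℝ, ∀ n k : ℕ, ∀ᶠ m in atTop, ∀ a g,
    B.Win n a → ob n a g ≤ L → T ≤ cc B.K.Q n (yb n a) g →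
      B.P m n g {x | (C : ℝ≥0∞) < XI d (B.K.pat x) k n a} ≤ δ

/-- second output: the long edges are negligible -/
def OutII (d : ℕ) : Prop :=
  ∀ (δ : ℝ≥0∞) (L : ℝ≥0), 0 < δ → ∃ T : ℝ, ∀ n k j : ℕ, ∀ᶠ m in atTop, ∀ a g,
    B.Win n a → ob n a g ≤ L → T ≤ cc B.K.Q n (yb n a) g →
      B.P m n g {x | 1 < XII d (B.K.pat x) (B.Bb j m x) k n a} ≤ δ

/-- both outputs seen from level zero along `g + t`, `t → ∞` -/
def OutTop (d : ℕ) : Prop :=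
  ∃ C : ℝ≥0, ∀ (n : ℕ) (a : ℤ), B.Win n a → ∀ (δ : ℝ≥0∞) (L : ℝ≥0), 0 < δ → ∃ T : ℝ,
    ∀ k j : ℕ, ∀ᶠ m in atTop, ∀ (g : C(ℂ, ℝ)) (t : ℝ), T ≤ t → ob n a g ≤ L → |g (yb n a)| ≤ L →
      B.P m 0 (g + ContinuousMap.const ℂ t)
        {x | (C : ℝ≥0∞) < XI d (B.K.pat x) k n a + XII d (B.K.pat x) (B.Bb j m x) k n a} ≤ δ

end BCasc

end Pool.Agent.Lib.MP_0d9445_pr.Bd
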