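import Pool.Agent.Lib.MP_0d9445_pr.Bd.CLay
import Pool.Agent.Lib.MP_0d9445_pr.CR.Meas
import Pool.Agent.Lib.MP_0d9445_pr.Bd.EqFixUU

/-! Geometry of the boundary boxes and locality of the killed count. -/

open MeasureTheory ProbabilityTheory Set Filter Topology
open scoped ENNReal NNReal

namespace Pool.Agent.Lib.MP_0d9445_pr.Bd

open CR

theorem card_bk (d : ℕ) (a : ℤ) : (bk d a).card = 2 ^ d := by
  rw [bk, Int.card_Ico, show (2 : ℤ) ^ d * (a + 1) - 2 ^ d * a = ((2 ^ d : ℕ) : ℤ) by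
    push_cast; ring, Int.toNat_natCast]

theorem card_wh_le (d : ℕ) (a : ℤ) : (wh d a).card ≤ 64 * 4 ^ d := by
  rw [wh, Finset.card_product, card_bk, Int.card_Ico]
  have h : ((64 : ℤ) * 2 ^ d - 64).toNat ≤ 64 * 2 ^ d := by
    rw [Int.toNat_le]
    push_cast
    linarith
  calc 2 ^ d * ((64 : ℤ) * 2 ^ d - 64).toNat ≤ 2 ^ d * (64 * 2 ^ d) := Nat.mul_le_mul_left _ h
    _ = 64 * 4 ^ d := by
      rw [show (4 : ℕ) = 2 * 2 by norm_num, mul_pow]
      ring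

theorem card_row (a : ℤ) : (Finset.Icc (a - 3) (a + 3)).card = 7 := by
  rw [Int.card_Icc, show a + 3 + 1 - (a - 3) = 7 by ring]
  rfl

theorem card_top (a : ℤ) : (top a).card = 21 := by
  rw [top, Finset.card_product, card_row]
  rfl

theorem bk_re {n m : ℕ} {a a' : ℤ} (h : a' ∈ bk m a) :
    |sc (n + m) * (a' + 1 / 2) - sc n * (a + 1 / 2)| ≤ (sc n - sc (n + m)) / 2 := by
  refine (Geo_ctr1 (Finset.mem_Ico.1 h)).trans (le_of_eq ?_)
  rw [sc_add]
  ring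

theorem sc_half {m : ℕ} (hm : 1 ≤ m) (n : ℕ) : 2 * sc (n + m) ≤ sc n := by
  have h := Geo_inv_pow_le hm
  have := sc_pos n
  rw [sc_add]
  nlinarith

theorem sc_seven {m : ℕ} (hm : 7 ≤ m) (n : ℕ) : 128 * sc (n + m) ≤ sc n := by
  have h := Geo_inv_pow_le hm
  have := sc_pos n
  rw [sc_add]
  norm_num at h ⊢
  nlinarith

theorem sc_mul_pow (n m : ℕ) : sc (n + m) * 2 ^ m = sc n := by
  rw [sc_add, mul_assoc, Geo_inv_pow, mul_one]

theorem yb_re (n : ℕ) (a : ℤ) : (yb n a).re = sc n * (a + 1 / 2) := Complex.ofReal_re _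
theorem yb_im (n : ℕ) (a : ℤ) : (yb n a).im = 0 := Complex.ofReal_im _

theorem norm_sub_yb_le (z : ℂ) (n : ℕ) (a : ℤ) :
    ‖z - yb n a‖ ≤ |z.re - sc n * (a + 1 / 2)| + |z.im| := by
  have := Complex.norm_le_abs_re_add_abs_im (z - yb n a)
  rwa [Complex.sub_re, Complex.sub_im, yb_re, yb_im, sub_zero] at this

theorem SubB.trans {n n' n'' : ℕ} {y y' y'' : ℂ} (h : SubB n y n' y') (h' : SubB n' y' n'' y'') :
    SubB n y n'' y'' := by
  unfold SubB at h h' ⊢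
  have := norm_sub_le_norm_sub_add_norm_sub y'' y' y
  linarith

theorem subB_bk {n m : ℕ} {a a' : ℤ} (h : a' ∈ bk m a) :
    SubB n (yb n a) (n + m) (yb (n + m) a') := by
  have h1 := norm_sub_yb_le (yb (n + m) a') n a
  rw [yb_re, yb_im, abs_zero] at h1
  have h2 := bk_re (n := n) h
  have h3 := sc_add_le n m
  unfold SubB
  linarith

theorem row_re {n : ℕ} {a i : ℤ} (h : i ∈ Finset.Icc (a - 3) (a + 3)) :
    |sc n * (i + 1 / 2) - sc n * (a + 1 / 2)| ≤ 3 * sc n := by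
  have h1 := Finset.mem_Icc.1 h
  have := Geo_nbh1 (n := n) (R := 3) (a := a) (x := i) (abs_le.2 ⟨by omega, by omega⟩)
  push_cast at this
  linarith

theorem subB_row {n m : ℕ} (hm : 1 ≤ m) {a a' i : ℤ} (h : a' ∈ bk m a)
    (hi : i ∈ Finset.Icc (a' - 3) (a' + 3)) : SubB n (yb n a) (n + m) (yb (n + m) i) := by
  have h1 := norm_sub_yb_le (yb (n + m) i) n a
  rw [yb_re, yb_im, abs_zero] at h1
  have h2 := bk_re (n := n) h
  have h3 := sc_half hm n
  have h4 := row_re (n := n + m) hi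
  have h5 := abs_sub_le (sc (n + m) * (i + 1 / 2)) (sc (n + m) * (a' + 1 / 2)) (sc n * (a + 1 / 2))
  have h6 := sc_pos (n + m)
  unfold SubB
  linarith

theorem top_ge {a : ℤ} {w : ℤ × ℤ} (h : w ∈ top a) : 64 ≤ w.2 :=
  (Finset.mem_Icc.1 (Finset.mem_product.1 h).2).1

theorem wh_ge {d : ℕ} {a : ℤ} {w : ℤ × ℤ} (h : w ∈ wh d a) : 64 ≤ w.2 :=
  (Finset.mem_Ico.1 (Finset.mem_product.1 h).2).1

theorem subB_top {n m : ℕ} (hm : 1 ≤ m) {a a' : ℤ} {w : ℤ × ℤ} (h : a' ∈ bk m a)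
    (hw : w ∈ top a') : SubB n (yb n a) (n + m) (ctr (n + m) w) := by
  have h1 := norm_sub_yb_le (ctr (n + m) w) n a
  obtain ⟨hi, hj⟩ := Finset.mem_product.1 hw
  have h2 := bk_re (n := n) h
  have h3 := sc_half hm n
  have h4 := row_re (n := n + m) hi
  have h5 := abs_sub_le (sc (n + m) * (w.1 + 1 / 2)) (sc (n + m) * (a' + 1 / 2))
    (sc n * (a + 1 / 2))
  have h6 := sc_pos (n + m)
  have h7 : |sc (n + m) * (w.2 + 1 / 2)| ≤ 67 * sc (n + m) := by
    obtain ⟨k1, k2⟩ := Finset.mem_Icc.1 hj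
    have k3 : (64 : ℝ) ≤ w.2 := by exact_mod_cast k1
    have k4 : (w.2 : ℝ) ≤ 66 := by exact_mod_cast k2
    rw [abs_of_nonneg (by positivity)]
    nlinarith
  simp only [ctr] at h1
  unfold SubB
  simp only [ctr]
  linarith

theorem wh_im {n d : ℕ} {a : ℤ} {w : ℤ × ℤ} (hw : w ∈ wh d a) :
    64 * sc (n + d) ≤ sc (n + d) * (w.2 + 1 / 2) ∧ sc (n + d) * (w.2 + 1 / 2) ≤ 64 * sc n := by
  obtain ⟨k1, k2⟩ := Finset.mem_Ico.1 (Finset.mem_product.1 hw).2
  have k3 : (64 : ℝ) ≤ w.2 := by exact_mod_cast k1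
  have k4 : (w.2 : ℝ) + 1 ≤ 64 * 2 ^ d := by exact_mod_cast k2
  have h6 := sc_pos (n + d)
  have h7 := sc_mul_pow n d
  constructor <;> nlinarith

theorem subB_wh {n d : ℕ} (hd : 1 ≤ d) {a : ℤ} {w : ℤ × ℤ} (hw : w ∈ wh d a) :
    SubB n (yb n a) (n + d) (ctr (n + d) w) := by
  have h1 := norm_sub_yb_le (ctr (n + d) w) n a
  have h2 := bk_re (n := n) (Finset.mem_product.1 hw).1
  have h3 := sc_half hd n
  have h6 := sc_pos (n + d)
  obtain ⟨h4, h5⟩ := wh_im (n := n) hw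
  simp only [ctr] at h1
  rw [abs_of_nonneg (a := sc (n + d) * (w.2 + 1 / 2)) (by linarith)] at h1
  unfold SubB
  simp only [ctr]
  linarith

theorem subB_wh' {n d j : ℕ} (hd : 1 ≤ d) {a a' : ℤ} {w : ℤ × ℤ} (h : a' ∈ bk (j * d) a)
    (hw : w ∈ wh d a') : SubB n (yb n a) (n + (j + 1) * d) (ctr (n + (j + 1) * d) w) := by
  rw [show n + (j + 1) * d = n + j * d + d by ring]
  exact (subB_bk h).trans (subB_wh hd hw)

theorem ctr_im_ge {n : ℕ} {w : ℤ × ℤ} (h : 64 ≤ w.2) : 64 * sc n ≤ (ctr n w).im := by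
  have k3 : (64 : ℝ) ≤ w.2 := by exact_mod_cast h
  have h6 := sc_pos n
  simp only [ctr]
  nlinarith

theorem reg_subset_above {n : ℕ} {w : ℤ × ℤ} (h : 64 ≤ w.2) : reg n w 21 ⊆ above n := by
  rintro z ⟨-, h2⟩
  have h1 := ctr_im_ge (n := n) h
  have h3 := (abs_lt.1 h2).1
  have h6 := sc_pos n
  show sc n < z.im
  linarith

/-- the region read by the killed count of a boundary box -/
def inn (n : ℕ) (a : ℤ) : Set ℂ := oR n a (1 / 2) ∩ UH

theorem reg_subset_inn {n d : ℕ} (hd : 7 ≤ d) {a : ℤ} {w : ℤ × ℤ} (hw : w ∈ wh d a) :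
    reg (n + d) w 21 ⊆ inn n a := by
  rintro z ⟨h1, h2⟩
  have h3 := bk_re (n := n) (Finset.mem_product.1 hw).1
  have h4 := sc_seven hd n
  have h6 := sc_pos (n + d)
  obtain ⟨h7, h8⟩ := wh_im (n := n) hw
  simp only [ctr] at h1 h2
  have h9 := abs_sub_le z.re (sc (n + d) * (w.1 + 1 / 2)) (sc n * (a + 1 / 2))
  obtain ⟨k1, k2⟩ := abs_lt.1 h2
  refine ⟨⟨by linarith, abs_lt.2 ⟨by linarith, by linarith⟩⟩, ?_⟩
  show 0 < z.im
  linarith

theorem oR_subset {n d : ℕ} (hd : 7 ≤ d) {a a' : ℤ} (h : a' ∈ bk d a) {r : ℝ} (hr : r ≤ 3) :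
    oR (n + d) a' r ⊆ oR n a (1 / 2) := by
  rintro z ⟨h1, h2⟩
  have h3 := bk_re (n := n) h
  have h4 := sc_seven hd n
  have h6 := sc_pos (n + d)
  have h9 := abs_sub_le z.re (sc (n + d) * (a' + 1 / 2)) (sc n * (a + 1 / 2))
  exact ⟨by nlinarith, by nlinarith⟩

theorem fr_subset_inn {n d : ℕ} (hd : 7 ≤ d) {a a' : ℤ} (h : a' ∈ bk d a) :
    fr (n + d) a' ⊆ inn n a := fun _ hz => ⟨oR_subset hd h le_rfl hz.1.1, hz.2⟩

theorem inn_subset_inn {n d : ℕ} (hd : 7 ≤ d) {a a' : ℤ} (h : a' ∈ bk d a) :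
    inn (n + d) a' ⊆ inn n a := fun _ hz => ⟨oR_subset hd h (by norm_num) hz.1, hz.2⟩

theorem fr_far {n : ℕ} {a : ℤ} {x y : ℂ} (hx : x ∈ fr n a) (hy : y ∈ inn n a) :
    sc n / 2 ≤ ‖x - y‖ := by
  obtain ⟨⟨h1, h2⟩, -⟩ := hy
  have h3 := hx.1.2
  have h4 := Complex.abs_re_le_norm (x - y)
  have h5 := Complex.abs_im_le_norm (x - y)
  rw [Complex.sub_re] at h4
  rw [Complex.sub_im] at h5
  by_contra hc
  refine h3 ⟨?_, ?_⟩
  · have := abs_sub_le x.re y.re (sc n * (a + 1 / 2))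
    linarith
  · have := abs_sub_le x.im y.im 0
    rw [sub_zero, sub_zero] at this
    linarith

theorem fr_subset_ball (n : ℕ) (a : ℤ) : fr n a ⊆ Metric.ball (yb n a) (200 * sc n) ∩ UH := by
  rintro z ⟨⟨⟨h1, h2⟩, -⟩, h3⟩
  refine ⟨?_, h3⟩
  have h4 := norm_sub_yb_le z n a
  have h6 := sc_pos n
  rw [Metric.mem_ball, dist_eq_norm]
  linarith

namespace BCasc

variable {Ξ : Type} [MeasurableSpace Ξ] [MeasurableSpace C(ℂ, ℝ)] (B : BCasc Ξ) {d : ℕ}

theorem Win.sub {B : BCasc Ξ} {n n' : ℕ} {a a' : ℤ} (h : B.Win n a)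
    (hs : SubB n (yb n a) n' (yb n' a')) : B.Win n' a' :=
  (inter_subset_inter_left _ hs.ball_subset).trans h

theorem Win.inner {B : BCasc Ξ} {n n' : ℕ} {a : ℤ} {w : ℤ × ℤ} (h : B.Win n a)
    (hs : SubB n (yb n a) n' (ctr n' w)) (hw : 64 ≤ w.2) : B.K.Win n' (ctr n' w) := by
  intro z hz
  have h6 := sc_pos n'
  refine h ⟨hs.ball_subset (Metric.ball_subset_ball (by linarith) hz), ?_⟩
  rw [Metric.mem_ball, dist_eq_norm] at hz
  have h1 := ctr_im_ge (n := n') hw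
  have h5 := Complex.abs_im_le_norm (z - ctr n' w)
  rw [Complex.sub_im] at h5
  have := (abs_le.1 h5).1
  show 0 < z.im
  linarith

theorem Win.fr {B : BCasc Ξ} {n : ℕ} {a : ℤ} (h : B.Win n a) : fr n a ⊆ B.K.W :=
  (fr_subset_ball n a).trans h

theorem UU_loc (hd : 7 ≤ d) (j M k n : ℕ) (a : ℤ) :
    Measurable[B.K.G (inn n a)] fun x => UU d (B.K.pat x) (B.Bb j M x) k n a := by
  induction k generalizing n a with
  | zero =>
    simp only [UU]
    exact measurable_const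
  | succ k ih =>
    simp only [UU]
    refine Measurable.add (Finset.measurable_fun_sum _ fun w hw => ?_)
      (Finset.measurable_fun_sum _ fun a' ha' => ?_)
    · exact (B.K.ZZ_loc hd _ w).mono (B.K.G_mono _ _ (reg_subset_inn hd hw)) le_rfl
    · exact Measurable.ite (B.K.G_mono _ _ (fr_subset_inn hd ha') _ (B.bb_meas j M (n + d) a'))
        measurable_const ((ih (n + d) a').mono (B.K.G_mono _ _ (inn_subset_inn hd ha')) le_rfl)

theorem UU_meas (hd : 7 ≤ d) (j M k n : ℕ) (a : ℤ) :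
    Measurable fun x => UU d (B.K.pat x) (B.Bb j M x) k n a :=
  (B.UU_loc hd j M k n a).mono (B.K.G_le _) le_rfl

theorem WW_meas (hd : 7 ≤ d) (j M k n : ℕ) (a : ℤ) :
    Measurable fun x => WW d (B.K.pat x) (B.Bb j M x) k n a :=
  (Finset.measurable_fun_sum _ fun _ _ => B.UU_meas hd j M k n _).add
    (Finset.measurable_fun_sum _ fun _ _ => B.K.ZZ_meas hd _ _)

theorem XI_meas (hd : 7 ≤ d) (k n : ℕ) (a : ℤ) : Measurable fun x => XI d (B.K.pat x) k n a :=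
  Finset.measurable_fun_sum _ fun _ _ => Measurable.const_mul
    (Finset.measurable_fun_sum _ fun _ _ =>
      Finset.measurable_fun_sum _ fun _ _ => B.K.KK_meas hd _ _) _

theorem XII_meas (hd : 7 ≤ d) (j M k n : ℕ) (a : ℤ) :
    Measurable fun x => XII d (B.K.pat x) (B.Bb j M x) k n a :=
  Finset.measurable_fun_sum _ fun _ _ => Measurable.const_mul
    (Finset.measurable_fun_sum _ fun _ _ => (B.WW_meas hd j M k _ _).pow_const 2) _

theorem bb_meas' (j M n : ℕ) (a : ℤ) : MeasurableSet {x | B.Bb j M x n a} :=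
  B.K.G_le _ _ (B.bb_meas j M n a)

open Classical in
/-- the blocking event is independent of the inside of the box -/
theorem kill_prod {M n : ℕ} (hM : n ≤ M) (j M' : ℕ) {a : ℤ} {F : Ξ → ℝ≥0∞}
    (hF : Measurable[B.K.G (inn n a)] F) (g : C(ℂ, ℝ)) :
    ∫⁻ x, (if B.Bb j M' x n a then 0 else F x) ∂B.P M n g =
      B.P M n g {x | ¬ B.Bb j M' x n a} * ∫⁻ x, F x ∂B.P M n g := by
  have h1 : Measurable[B.K.G (fr n a)] fun x => (if B.Bb j M' x n a then (0 : ℝ≥0∞) else 1) :=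
    Measurable.ite (B.bb_meas j M' n a) measurable_const measurable_const
  have h2 := lintegral_mul_eq_lintegral_mul_lintegral_of_independent_measurableSpace
    (B.K.G_le _) (B.K.G_le _) (B.indep M n hM g (fr n a) (inn n a) inter_subset_right
      inter_subset_right fun x hx y hy => fr_far hx hy) h1 hF
  have h3 : ∫⁻ x, (if B.Bb j M' x n a then (0 : ℝ≥0∞) else 1) ∂B.P M n g =
      B.P M n g {x | ¬ B.Bb j M' x n a} := by
    have hB : MeasurableSet {x | ¬ B.Bb j M' x n a} := (B.bb_meas' j M' n a).compl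
    rw [← lintegral_indicator_one hB]
    refine lintegral_congr fun x => ?_
    by_cases h : B.Bb j M' x n a <;> simp [h]
  rw [← h3, ← h2]
  refine lintegral_congr fun x => ?_
  by_cases h : B.Bb j M' x n a <;> simp [h]

/-- functionals of a high square have the law of the interior cascade -/
theorem agree_reg {M n : ℕ} (hM : n ≤ M) {w : ℤ × ℤ} (hw : 64 ≤ w.2) {F : Ξ → ℝ≥0∞}
    (hF : Measurable[B.K.G (reg n w 21)] F) (g : C(ℂ, ℝ)) :
    ∫⁻ x, F x ∂B.P M n g = ∫⁻ x, F x ∂B.K.P n g :=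
  B.agree M n hM g F (hF.mono (B.K.G_mono _ _ (reg_subset_above hw)) le_rfl)

end BCasc

end Pool.Agent.Lib.MP_0d9445_pr.Bd
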