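import Pool.Agent.Lib.MP_0d9445_pr.Bd.CDefs
import Pool.Agent.Lib.MP_0d9445_pr.CR.Soft

/-! Weights with the slope window of the boundary boxes, and several reflected layers at once.
Port of `CR.Wt` and `CR.Lay`. -/

open MeasureTheory ProbabilityTheory Set Filter Topology
open scoped ENNReal NNReal

namespace Pool.Agent.Lib.MP_0d9445_pr.Bd

open CR

/-- rescaled slope in the large window -/
noncomputable def oB (n : ℕ) (y : ℂ) (g : C(ℂ, ℝ)) : ℝ≥0∞ :=
  ENNReal.ofReal (sc n) * lip g (Metric.ball y (200 * sc n))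

/-- weight `exp (s c + θ o)` with the large window -/
noncomputable def wB (Q s θ : ℝ) (n : ℕ) (y : ℂ) (g : C(ℂ, ℝ)) : ℝ≥0∞ :=
  ENNReal.ofReal (Real.exp (s * cc Q n y g)) * ex (ENNReal.ofReal θ * oB n y g)

/-- the large window at `n'`, `y'` lies in the large window at `n`, `y` -/
def SubB (n : ℕ) (y : ℂ) (n' : ℕ) (y' : ℂ) : Prop := ‖y' - y‖ + 200 * sc n' ≤ 200 * sc n

theorem ob_eq (n : ℕ) (a : ℤ) (g : C(ℂ, ℝ)) : ob n a g = oB n (yb n a) g := rfl

theorem oo_le_oB (n : ℕ) (y : ℂ) (g : C(ℂ, ℝ)) : oo n y g ≤ oB n y g := by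
  have := sc_pos n
  exact mul_le_mul_right (lip_mono g (Metric.ball_subset_ball (by linarith))) _

theorem wt_le_wB (Q s t : ℝ) (n : ℕ) (y : ℂ) (g : C(ℂ, ℝ)) : wt Q s t n y g ≤ wB Q s t n y g :=
  mul_le_mul_right (ex_mono (mul_le_mul_right (oo_le_oB n y g) _)) _

theorem SubB.ball_subset {n n' : ℕ} {y y' : ℂ} (h : SubB n y n' y') :
    Metric.ball y' (200 * sc n') ⊆ Metric.ball y (200 * sc n) := by
  unfold SubB at h
  refine Metric.ball_subset_ball' ?_
  rw [dist_eq_norm]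
  linarith

theorem SubB.mem_ball {n n' : ℕ} {y y' : ℂ} (h : SubB n y n' y') :
    y' ∈ Metric.ball y (200 * sc n) := by
  unfold SubB at h
  have := sc_pos n'
  rw [mem_ball_iff_norm]
  linarith

theorem SubB.eq_of_zero {n : ℕ} {y y' : ℂ} (h : SubB n y n y') : y' = y := by
  unfold SubB at h
  exact sub_eq_zero.1 (norm_le_zero_iff.1 (by linarith))

theorem oB_add_le (n : ℕ) (y : ℂ) (g h : C(ℂ, ℝ)) : oB n y (g + h) ≤ oB n y g + oB n y h := by
  unfold oB
  rw [← mul_add]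
  gcongr
  exact lip_add_le _ _ _

theorem oB_zero (n : ℕ) (y : ℂ) : oB n y 0 = 0 := by
  simp [oB, lip_zero]

theorem oB_le_of_sub {n m : ℕ} {y y' : ℂ} (h : SubB n y (n + m) y') (g : C(ℂ, ℝ)) :
    oB (n + m) y' g ≤ ENNReal.ofReal ((2 : ℝ)⁻¹ ^ m) * oB n y g := by
  unfold oB
  rw [← mul_assoc, ← ENNReal.ofReal_mul (by positivity), mul_comm ((2 : ℝ)⁻¹ ^ m), ← sc_add]
  gcongr
  exact lip_mono g h.ball_subset

/-- moving the base point inside the window -/
theorem exp_shift_leB {n : ℕ} {y y' : ℂ} (h : y' ∈ Metric.ball y (200 * sc n)) {a : ℝ}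
    (ha : 0 ≤ a) (g : C(ℂ, ℝ)) :
    ENNReal.ofReal (Real.exp (a * |g y' - g y|)) ≤ ex (ENNReal.ofReal (200 * a) * oB n y g) := by
  have hs := sc_pos n
  rw [← ex_ofReal (mul_nonneg ha (abs_nonneg _))]
  apply ex_mono
  have hy : y ∈ Metric.ball y (200 * sc n) := Metric.mem_ball_self (by positivity)
  have h1 := edist_le_lip g h hy
  have h2 : edist y' y ≤ ENNReal.ofReal (200 * sc n) := by
    rw [edist_dist]
    exact ENNReal.ofReal_le_ofReal (le_of_lt h)
  have h3 : ENNReal.ofReal |g y' - g y| ≤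
      lip g (Metric.ball y (200 * sc n)) * ENNReal.ofReal (200 * sc n) := by
    rw [← Real.dist_eq, ← edist_dist]
    exact h1.trans (by gcongr)
  calc ENNReal.ofReal (a * |g y' - g y|) = ENNReal.ofReal a * ENNReal.ofReal |g y' - g y| :=
        ENNReal.ofReal_mul ha
    _ ≤ ENNReal.ofReal a * (lip g (Metric.ball y (200 * sc n)) * ENNReal.ofReal (200 * sc n)) := by
        gcongr
    _ = _ := by
        unfold oB
        rw [ENNReal.ofReal_mul (by norm_num : (0 : ℝ) ≤ 200),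
          ENNReal.ofReal_mul (by norm_num : (0 : ℝ) ≤ 200)]
        ring

theorem wB_zero (Q t : ℝ) (n : ℕ) (y : ℂ) (g : C(ℂ, ℝ)) :
    wB Q 0 t n y g = ex (ENNReal.ofReal t * oB n y g) := by
  simp [wB]

theorem one_le_wB_zero (Q t : ℝ) (n : ℕ) (y : ℂ) (g : C(ℂ, ℝ)) : 1 ≤ wB Q 0 t n y g := by
  rw [wB_zero]
  exact one_le_ex _

theorem wB_mono (Q s : ℝ) {t t' : ℝ} (h : t ≤ t') (n : ℕ) (y : ℂ) (g : C(ℂ, ℝ)) :
    wB Q s t n y g ≤ wB Q s t' n y g := by
  unfold wB
  exact mul_le_mul' le_rfl (ex_mono (mul_le_mul' (ENNReal.ofReal_le_ofReal h) le_rfl))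

theorem wB_eq (Q s s' t : ℝ) (n : ℕ) (y : ℂ) (g : C(ℂ, ℝ)) :
    wB Q s t n y g = ENNReal.ofReal (Real.exp ((s - s') * cc Q n y g)) * wB Q s' t n y g := by
  unfold wB
  rw [← mul_assoc, ← ENNReal.ofReal_mul (Real.exp_pos _).le, ← Real.exp_add]
  congr 3
  ring

theorem wB_le_of_le {Q s s' : ℝ} (t : ℝ) {n : ℕ} {y : ℂ} {g : C(ℂ, ℝ)}
    (h : s * cc Q n y g ≤ s' * cc Q n y g) : wB Q s t n y g ≤ wB Q s' t n y g := by
  unfold wB
  exact mul_le_mul' (ENNReal.ofReal_le_ofReal (Real.exp_le_exp.2 h)) le_rfl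

theorem wB_le_of_oB_le (Q s : ℝ) {t : ℝ} (ht : 0 ≤ t) {n : ℕ} {y : ℂ} {g : C(ℂ, ℝ)} {L : ℝ≥0}
    (h : oB n y g ≤ L) :
    wB Q s t n y g ≤ ENNReal.ofReal (Real.exp (s * cc Q n y g + t * L)) := by
  unfold wB
  rw [Real.exp_add, ENNReal.ofReal_mul (Real.exp_pos _).le,
    ← ex_ofReal (mul_nonneg ht L.coe_nonneg), ENNReal.ofReal_mul ht]
  refine mul_le_mul' le_rfl (ex_mono (mul_le_mul' le_rfl ?_))
  simpa using h

/-- one step down, pointwise -/
theorem wB_step (Q s : ℝ) {t : ℝ} (ht : 0 ≤ t) {n m : ℕ} {y y' : ℂ} (h : SubB n y (n + m) y')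
    (g η : C(ℂ, ℝ)) :
    wB Q s t (n + m) y' (g + η) ≤
      wB Q s (t * (2 : ℝ)⁻¹ ^ m + 200 * |s|) n y g *
        ENNReal.ofReal (Real.exp (-(s * m * Q * Real.log 2))) *
        (ENNReal.ofReal (Real.exp (s * η y')) * ex (ENNReal.ofReal t * oB (n + m) y' η)) := by
  have hs : 0 ≤ |s| := abs_nonneg s
  have h1 : ex (ENNReal.ofReal t * oB (n + m) y' (g + η)) ≤
      ex (ENNReal.ofReal (t * (2 : ℝ)⁻¹ ^ m) * oB n y g) *
        ex (ENNReal.ofReal t * oB (n + m) y' η) := by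
    rw [← ex_add, ENNReal.ofReal_mul ht, mul_assoc, ← mul_add]
    exact ex_mono (mul_le_mul' le_rfl
      ((oB_add_le _ _ _ _).trans (add_le_add (oB_le_of_sub h g) le_rfl)))
  have h2 := exp_shift_leB h.mem_ball hs g
  have h3 : ENNReal.ofReal (Real.exp (s * cc Q (n + m) y' (g + η))) ≤
      ENNReal.ofReal (Real.exp (s * cc Q n y g)) * ENNReal.ofReal (Real.exp (|s| * |g y' - g y|)) *
        ENNReal.ofReal (Real.exp (-(s * m * Q * Real.log 2))) *
        ENNReal.ofReal (Real.exp (s * η y')) := by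
    rw [← ENNReal.ofReal_mul (Real.exp_pos _).le, ← Real.exp_add,
      ← ENNReal.ofReal_mul (Real.exp_pos _).le, ← Real.exp_add,
      ← ENNReal.ofReal_mul (Real.exp_pos _).le, ← Real.exp_add]
    apply ENNReal.ofReal_le_ofReal
    apply Real.exp_le_exp.2
    rw [cc_add, ← abs_mul]
    have h4 := le_abs_self (s * (g y' - g y))
    simp only [cc]
    nlinarith
  unfold wB
  rw [ENNReal.ofReal_add (by positivity) (by positivity), add_mul, ex_add]
  calc _ ≤ (ENNReal.ofReal (Real.exp (s * cc Q n y g)) *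
        ex (ENNReal.ofReal (200 * |s|) * oB n y g) *
        ENNReal.ofReal (Real.exp (-(s * m * Q * Real.log 2))) *
        ENNReal.ofReal (Real.exp (s * η y'))) *
        (ex (ENNReal.ofReal (t * (2 : ℝ)⁻¹ ^ m) * oB n y g) *
        ex (ENNReal.ofReal t * oB (n + m) y' η)) :=
        mul_le_mul' (h3.trans (by gcongr)) h1
    _ = _ := by ring

namespace BCasc

variable {Ξ : Type} [MeasurableSpace Ξ] [MeasurableSpace C(ℂ, ℝ)] (B : BCasc Ξ)

/-- exponential moments of the slope of a reflected layer seen from any point -/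
def LipAll : Prop :=
  ∀ θ : ℝ, ∃ C : ℝ≥0, ∀ n y, ∫⁻ η, ex (ENNReal.ofReal θ * oB n y η) ∂B.ν n ≤ C

/-- `z(s) = s Q - s^2` -/
def z (s : ℝ) : ℝ := s * B.K.Q - s ^ 2

include B in
theorem measurable_oB (n : ℕ) (y : ℂ) : Measurable (oB n y) :=
  (measurable_lip B.K.meas_eval Metric.isOpen_ball).const_mul _

theorem measurable_wB (s t : ℝ) (n : ℕ) (y : ℂ) : Measurable (wB B.K.Q s t n y) := by
  unfold wB
  exact (((B.K.measurable_cc n y).const_mul s).exp.ennreal_ofReal).mul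
    (measurable_ex.comp ((B.measurable_oB n y).const_mul _))

instance lay_prob (n m : ℕ) : IsProbabilityMeasure (B.lay n m) := by
  induction m with
  | zero => exact inferInstanceAs (IsProbabilityMeasure (Measure.dirac 0))
  | succ m ih => exact Measure.isProbabilityMeasure_map B.K.meas_add.aemeasurable

theorem lintegral_lay_zero (n : ℕ) {F : C(ℂ, ℝ) → ℝ≥0∞} (hF : Measurable F) :
    ∫⁻ η, F η ∂B.lay n 0 = F 0 := lintegral_dirac' 0 hF

theorem lintegral_lay_succ (n m : ℕ) {F : C(ℂ, ℝ) → ℝ≥0∞} (hF : Measurable F) :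
    ∫⁻ η, F η ∂B.lay n (m + 1) = ∫⁻ η, ∫⁻ η', F (η + η') ∂B.ν (n + m) ∂B.lay n m := by
  rw [lay, lintegral_map hF B.K.meas_add, lintegral_prod _ (hF.fun_comp B.K.meas_add).aemeasurable]

theorem tower_lay {M n m : ℕ} (h : n + m ≤ M) (g : C(ℂ, ℝ)) {F : Ξ → ℝ≥0∞} (hF : Measurable F) :
    ∫⁻ x, F x ∂B.P M n g = ∫⁻ η, ∫⁻ x, F x ∂B.P M (n + m) (g + η) ∂B.lay n m := by
  induction m with
  | zero =>
    rw [B.lintegral_lay_zero n (hF.lintegral_kernel.fun_comp (B.K.measurable_add_left g)), add_zero,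
      add_zero]
  | succ m ih =>
    rw [B.lintegral_lay_succ n m (hF.lintegral_kernel.fun_comp (B.K.measurable_add_left g)),
      ih (by omega)]
    refine lintegral_congr fun η => ?_
    rw [B.tower M (n + m) (by omega) (g + η) F hF]
    simp only [add_assoc]

theorem tower_set {M n m : ℕ} (h : n + m ≤ M) (g : C(ℂ, ℝ)) {E : Set Ξ} (hE : MeasurableSet E) :
    B.P M n g E = ∫⁻ η, B.P M (n + m) (g + η) E ∂B.lay n m := by
  have h := B.tower_lay h g (F := E.indicator 1) (measurable_one.indicator hE)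
  simpa only [lintegral_indicator_one hE] using h

/-- one layer with a small slope factor -/
theorem one_layer (hl : B.LipAll) (s t : ℝ) : ∃ κ : ℝ≥0, ∀ (e : ℝ), 0 ≤ e → e ≤ 1 → ∀ n y,
    ∫⁻ η, ENNReal.ofReal (Real.exp (s * η y)) * ex (ENNReal.ofReal (e * t) * oB n y η) ∂B.ν n ≤
      ENNReal.ofReal ((2 : ℝ) ^ (s ^ 2)) * (1 + κ * ENNReal.ofReal e) := by
  obtain ⟨C, hC⟩ := hl (2 * t)
  refine ⟨((2 : ℝ) ^ ((2 * s) ^ 2)).toNNReal + C, fun e h0 h1 n y => ?_⟩
  have m1 : ∀ a : ℝ, Measurable fun η : C(ℂ, ℝ) => ENNReal.ofReal (Real.exp (a * η y)) :=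
    fun a => (Real.measurable_exp.comp ((B.K.meas_eval y).const_mul a)).ennreal_ofReal
  have m2 : Measurable fun η : C(ℂ, ℝ) => ex (ENNReal.ofReal (2 * t) * oB n y η) :=
    measurable_ex.comp ((B.measurable_oB n y).const_mul _)
  have h2 : (1 : ℝ≥0∞) ≤ ENNReal.ofReal ((2 : ℝ) ^ (s ^ 2)) :=
    ENNReal.one_le_ofReal.2 (Real.one_le_rpow one_le_two (by positivity))
  calc _ ≤ ∫⁻ η, ENNReal.ofReal (Real.exp (s * η y)) + ENNReal.ofReal e *
        (ENNReal.ofReal (Real.exp (2 * s * η y)) + ex (ENNReal.ofReal (2 * t) * oB n y η))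
          ∂B.ν n := by
        refine lintegral_mono fun η => ?_
        rw [ENNReal.ofReal_mul h0, mul_assoc]
        refine (mul_le_mul_right (ex_mul_le h0 h1 _) _).trans ?_
        rw [mul_add, mul_one, mul_left_comm]
        refine add_le_add le_rfl (mul_le_mul_right ((Lay_mul_le _ _).trans (le_of_eq ?_)) _)
        rw [← ex_add, ← add_mul, ← ENNReal.ofReal_mul (Real.exp_pos _).le, ← Real.exp_add,
          ENNReal.ofReal_mul zero_le_two, ENNReal.ofReal_ofNat, two_mul (ENNReal.ofReal t)]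
        congr 3
        ring
    _ ≤ ENNReal.ofReal ((2 : ℝ) ^ (s ^ 2)) + ENNReal.ofReal e *
        (ENNReal.ofReal ((2 : ℝ) ^ ((2 * s) ^ 2)) +
          ∫⁻ η, ex (ENNReal.ofReal (2 * t) * oB n y η) ∂B.ν n) := by
        rw [lintegral_add_left (m1 s), lintegral_const_mul _ ((m1 _).fun_add m2),
          lintegral_add_left (m1 _)]
        exact add_le_add (B.subg _ _ _) (mul_le_mul_right (add_le_add (B.subg _ _ _) le_rfl) _)
    _ ≤ _ := by
        rw [mul_add _ 1, mul_one, ENNReal.coe_add]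
        refine add_le_add le_rfl (le_trans ?_ (le_mul_of_one_le_left' h2))
        rw [mul_comm]
        exact mul_le_mul_left (add_le_add le_rfl (hC n y)) _

/-- the constant does not depend on the number of layers -/
theorem mgf (hl : B.LipAll) (s t : ℝ) : ∃ C : ℝ≥0, ∀ n m y,
    ∫⁻ η, ENNReal.ofReal (Real.exp (s * η y)) * ex (ENNReal.ofReal t * oB (n + m) y η)
      ∂B.lay n m ≤ C * ENNReal.ofReal ((2 : ℝ) ^ (m * s ^ 2)) := by
  obtain ⟨κ, hκ⟩ := B.one_layer hl s t
  have mm : ∀ (a : ℝ) (n : ℕ) (y : ℂ), Measurable fun η : C(ℂ, ℝ) =>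
      ENNReal.ofReal (Real.exp (s * η y)) * ex (ENNReal.ofReal a * oB n y η) := fun a n y =>
    (Real.measurable_exp.comp ((B.K.meas_eval y).const_mul s)).ennreal_ofReal.mul
      (measurable_ex.comp ((B.measurable_oB n y).const_mul _))
  have key : ∀ (n : ℕ) (y : ℂ) (m : ℕ) (e : ℝ), 0 ≤ e → e ≤ 1 →
      ∫⁻ η, ENNReal.ofReal (Real.exp (s * η y)) * ex (ENNReal.ofReal (e * t) * oB (n + m) y η)
        ∂B.lay n m ≤ ENNReal.ofReal (Real.exp (κ * e)) *
          ENNReal.ofReal ((2 : ℝ) ^ (m * s ^ 2)) := by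
    intro n y m
    induction m with
    | zero =>
      intro e h0 _
      rw [B.lintegral_lay_zero n (mm _ _ _), oB_zero, mul_zero, ex_zero]
      simp only [ContinuousMap.zero_apply, mul_zero, Real.exp_zero, ENNReal.ofReal_one, mul_one,
        Nat.cast_zero, zero_mul, Real.rpow_zero]
      exact ENNReal.one_le_ofReal.2 (Real.one_le_exp (by positivity))
    | succ m ih =>
      intro e h0 h1
      have hs : SubB (n + m) y (n + m + 1) y := by
        unfold SubB
        rw [sub_self, norm_zero, zero_add]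
        linarith [sc_add_le (n + m) 1]
      have ho : ∀ η, ENNReal.ofReal (e * t) * oB (n + (m + 1)) y η ≤
          ENNReal.ofReal (e / 2 * t) * oB (n + m) y η := fun η => by
        refine (mul_le_mul_right (oB_le_of_sub hs η) _).trans (le_of_eq ?_)
        rw [← mul_assoc, ← ENNReal.ofReal_mul' (by positivity)]
        congr 2
        ring
      rw [B.lintegral_lay_succ n m (mm _ _ _)]
      calc _ ≤ ∫⁻ η, (ENNReal.ofReal (Real.exp (s * η y)) *
              ex (ENNReal.ofReal (e / 2 * t) * oB (n + m) y η)) *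
            (ENNReal.ofReal ((2 : ℝ) ^ (s ^ 2)) * (1 + κ * ENNReal.ofReal (e / 2)))
              ∂B.lay n m := by
            refine lintegral_mono fun η => ?_
            refine le_trans ?_ (mul_le_mul_right (hκ (e / 2) (by linarith) (by linarith) (n + m) y) _)
            rw [← lintegral_const_mul _ (mm _ _ _)]
            refine lintegral_mono fun η' => ?_
            rw [ContinuousMap.add_apply, mul_add s, Real.exp_add,
              ENNReal.ofReal_mul (Real.exp_pos _).le, mul_mul_mul_comm, ← ex_add]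
            refine mul_le_mul_right (ex_mono ?_) _
            refine (mul_le_mul_right (oB_add_le _ _ _ _) _).trans ?_
            rw [mul_add]
            exact add_le_add (ho η) (ho η')
        _ ≤ ENNReal.ofReal (Real.exp (κ * (e / 2))) * ENNReal.ofReal ((2 : ℝ) ^ (m * s ^ 2)) *
            (ENNReal.ofReal ((2 : ℝ) ^ (s ^ 2)) * ENNReal.ofReal (Real.exp (κ * (e / 2)))) := by
            rw [lintegral_mul_const _ (mm _ _ _)]
            refine mul_le_mul' (ih (e / 2) (by linarith) (by linarith)) (mul_le_mul_right ?_ _)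
            rw [← ENNReal.ofReal_coe_nnreal, ← ENNReal.ofReal_mul κ.coe_nonneg, ← ENNReal.ofReal_one,
              ← ENNReal.ofReal_add zero_le_one (by positivity)]
            exact ENNReal.ofReal_le_ofReal (by linarith [Real.add_one_le_exp (κ * (e / 2))])
        _ = _ := by
            rw [mul_comm (ENNReal.ofReal ((2 : ℝ) ^ (s ^ 2))), mul_mul_mul_comm,
              ← ENNReal.ofReal_mul (Real.exp_pos _).le, ← Real.exp_add,
              ← ENNReal.ofReal_mul (by positivity), ← Real.rpow_add two_pos]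
            congr 3
            · ring
            · push_cast
              ring
  refine ⟨(Real.exp κ).toNNReal, fun n m y => ?_⟩
  have h := key n y m 1 zero_le_one le_rfl
  rwa [one_mul, mul_one] at h

theorem down (hl : B.LipAll) (s : ℝ) {t : ℝ} (ht : 0 ≤ t) : ∃ C : ℝ≥0, ∀ n m y y' g, SubB n y (n + m) y' →
    ∫⁻ η, wB B.K.Q s t (n + m) y' (g + η) ∂B.lay n m ≤
      C * ENNReal.ofReal ((2 : ℝ) ^ (-(m * B.z s))) *
        wB B.K.Q s (t * (2 : ℝ)⁻¹ ^ m + 200 * |s|) n y g := by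
  obtain ⟨C, hC⟩ := B.mgf hl s t
  refine ⟨C, fun n m y y' g h => ?_⟩
  have mm : Measurable fun η : C(ℂ, ℝ) =>
      ENNReal.ofReal (Real.exp (s * η y')) * ex (ENNReal.ofReal t * oB (n + m) y' η) :=
    (Real.measurable_exp.comp ((B.K.meas_eval y').const_mul s)).ennreal_ofReal.mul
      (measurable_ex.comp ((B.measurable_oB _ y').const_mul _))
  refine (lintegral_mono fun η => wB_step B.K.Q s ht h g η).trans ?_
  rw [lintegral_const_mul _ mm]
  refine (mul_le_mul_right (hC n m y') _).trans (le_of_eq ?_)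
  have e : ENNReal.ofReal ((2 : ℝ) ^ (-(m * B.z s))) =
      ENNReal.ofReal (Real.exp (-(s * m * B.K.Q * Real.log 2))) *
        ENNReal.ofReal ((2 : ℝ) ^ (m * s ^ 2)) := by
    rw [← ENNReal.ofReal_mul (Real.exp_pos _).le, Real.rpow_def_of_pos two_pos,
      Real.rpow_def_of_pos two_pos, ← Real.exp_add, z]
    congr 2
    ring
  rw [e]
  ring

/-- the same exponent on both sides (for `m = 0` the hypothesis `Sub` forces `y' = y`) -/
theorem down' (hl : B.LipAll) (s : ℝ) {t : ℝ} (ht : 400 * |s| ≤ t) : ∃ C : ℝ≥0, ∀ n m y y' g, SubB n y (n + m) y' →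
    ∫⁻ η, wB B.K.Q s t (n + m) y' (g + η) ∂B.lay n m ≤
      C * ENNReal.ofReal ((2 : ℝ) ^ (-(m * B.z s))) * wB B.K.Q s t n y g := by
  have ht0 : 0 ≤ t := le_trans (by positivity) ht
  obtain ⟨C, hC⟩ := B.down hl s ht0
  refine ⟨C + 1, fun n m y y' g h => ?_⟩
  rcases Nat.eq_zero_or_pos m with rfl | hm
  · obtain rfl : y' = y := SubB.eq_of_zero h
    rw [B.lintegral_lay_zero n ((B.measurable_wB s t _ _).fun_comp (B.K.measurable_add_left g))]
    simp only [add_zero, Nat.cast_zero, zero_mul, neg_zero, Real.rpow_zero, ENNReal.ofReal_one,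
      mul_one]
    exact le_mul_of_one_le_left' (by simp)
  · refine (hC n m y y' g h).trans (mul_le_mul' (mul_le_mul_left (by simp) _) (wB_mono _ _ ?_ _ _ _))
    have h1 : (2 : ℝ)⁻¹ ^ m ≤ 2⁻¹ := pow_le_of_le_one (by norm_num) (by norm_num) hm.ne'
    nlinarith

/-- a bound at level `n + m` gives a bound at level `n` -/
theorem lift (hl : B.LipAll) (s : ℝ) {t : ℝ} (ht : 400 * |s| ≤ t) : ∃ C : ℝ≥0,
    ∀ M n m y y' g (A : ℝ≥0∞) (F : Ξ → ℝ≥0∞), n + m ≤ M → Measurable F → SubB n y (n + m) y' →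
    (∀ g', ∫⁻ x, F x ∂B.P M (n + m) g' ≤ A * wB B.K.Q s t (n + m) y' g') →
    ∫⁻ x, F x ∂B.P M n g ≤
      A * (C * ENNReal.ofReal ((2 : ℝ) ^ (-(m * B.z s))) * wB B.K.Q s t n y g) := by
  obtain ⟨C, hC⟩ := B.down' hl s ht
  refine ⟨C, fun M n m y y' g A F hM hF h hA => ?_⟩
  rw [B.tower_lay hM g hF]
  refine (lintegral_mono fun η => hA (g + η)).trans ?_
  rw [lintegral_const_mul _ ((B.measurable_wB s t _ _).fun_comp (B.K.measurable_add_left g))]
  exact mul_le_mul_right (hC n m y y' g h) _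

omit [MeasurableSpace C(ℂ, ℝ)] in
theorem one_le_wB_neg {Q T : ℝ} (t : ℝ) {n : ℕ} {y : ℂ} {g : C(ℂ, ℝ)} (h : cc Q n y g ≤ T) :
    1 ≤ ENNReal.ofReal (Real.exp T) * wB Q (-1) t n y g := by
  rw [wB, ← mul_assoc, ← soft_exp_split']
  refine one_le_mul ?_ (one_le_ex _)
  rw [ENNReal.one_le_ofReal]
  exact Real.one_le_exp (by linarith)

/-- an event that is unlikely for bounded slope and large height at level `n + m` is unlikely for
bounded slope and large height at level `n` -/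
theorem lift_soft (hl : B.LipAll) (m : ℕ) (ε : ℝ≥0∞) (L : ℝ≥0) (hε : 0 < ε) :
    ∃ L' : ℝ≥0, ∀ T' : ℝ, ∃ T : ℝ, ∀ M n y y' g (E : Set Ξ), n + m ≤ M → MeasurableSet E →
      SubB n y (n + m) y' →
      (∀ g', oB (n + m) y' g' ≤ L' → T' ≤ cc B.K.Q (n + m) y' g' → B.P M (n + m) g' E ≤ ε / 2) →
      oB n y g ≤ L → T ≤ cc B.K.Q n y g → B.P M n g E ≤ ε := by
  have h2 := ENNReal.half_pos hε.ne'
  have h4 := ENNReal.half_pos h2.ne'
  obtain ⟨C₀, H₀⟩ := B.down' hl 0 (t := 1) (by simp)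
  obtain ⟨C₁, H₁⟩ := B.down' hl (-1) (t := 400) (by simp)
  obtain ⟨L', hL'⟩ := soft_small (A := C₀ * ENNReal.ofReal ((2 : ℝ) ^ (-(m * B.z 0))) *
    ENNReal.ofReal (Real.exp L)) (by finiteness) h4
  refine ⟨L', fun T' => ?_⟩
  obtain ⟨T, hT⟩ := soft_small (A := ENNReal.ofReal (Real.exp T') *
    (C₁ * ENNReal.ofReal ((2 : ℝ) ^ (-(m * B.z (-1)))) * ENNReal.ofReal (Real.exp (400 * L))))
    (by finiteness) h4
  refine ⟨T, fun M n y y' g E hM hE hs hT' ho hc => ?_⟩
  have hp : ∀ g' : C(ℂ, ℝ), B.P M (n + m) g' E ≤ ε / 2 +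
      (ENNReal.ofReal (Real.exp (-(L' : ℝ))) * wB B.K.Q 0 1 (n + m) y' g' +
        ENNReal.ofReal (Real.exp T') * wB B.K.Q (-1) 400 (n + m) y' g') := fun g' => by
    rcases le_total (oB (n + m) y' g') L' with a | a
    · rcases le_total T' (cc B.K.Q (n + m) y' g') with b | b
      · exact (hT' _ a b).trans le_self_add
      · exact prob_le_one.trans ((one_le_wB_neg 400 b).trans (le_add_self.trans le_add_self))
    · refine prob_le_one.trans ((one_le_exp_neg_mul_ex a).trans (le_trans ?_ le_add_self))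
      rw [wB_zero, ENNReal.ofReal_one, one_mul]
      exact le_self_add
  have hm₀ : Measurable fun η : C(ℂ, ℝ) => ENNReal.ofReal (Real.exp (-(L' : ℝ))) *
      wB B.K.Q 0 1 (n + m) y' (g + η) :=
    ((B.measurable_wB 0 1 _ _).comp (B.K.measurable_add_left g)).const_mul _
  rw [B.tower_set hM g hE]
  refine (lintegral_mono fun η => hp (g + η)).trans ?_
  rw [lintegral_add_left measurable_const, lintegral_add_left hm₀, lintegral_const, measure_univ,
    mul_one, lintegral_const_mul' _ _ ENNReal.ofReal_ne_top,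
    lintegral_const_mul' _ _ ENNReal.ofReal_ne_top]
  have a₀ := wB_le_of_oB_le B.K.Q 0 (t := 1) zero_le_one ho
  have a₁ := wB_le_of_oB_le B.K.Q (-1) (t := 400) (by norm_num) ho
  rw [zero_mul, zero_add, one_mul] at a₀
  rw [soft_exp_split] at a₁
  have b₀ := (mul_comm _ _).trans_le (hL' L' le_rfl)
  have b₁ := hT _ hc
  rw [mul_assoc, mul_assoc] at b₁
  calc _ ≤ ε / 2 + (ε / 2 / 2 + ε / 2 / 2) := by
        refine add_le_add le_rfl (add_le_add (le_trans ?_ b₀) (le_trans ?_ b₁))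
        · exact mul_le_mul' le_rfl ((H₀ n m y _ g hs).trans (mul_le_mul' le_rfl a₀))
        · exact mul_le_mul' le_rfl ((H₁ n m y _ g hs).trans (mul_le_mul' le_rfl a₁))
    _ = ε := by rw [ENNReal.add_halves, ENNReal.add_halves]

end BCasc

end Pool.Agent.Lib.MP_0d9445_pr.Bd
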