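import Pool.Agent.Lib.MP_0d9445_pr.Bd.CGeo
import Pool.Agent.Lib.MP_0d9445_pr.CR.TZ

/-! A moment of order `p > 1` of the killed count of a boundary box. -/

open MeasureTheory ProbabilityTheory Set Filter Topology
open scoped ENNReal NNReal

namespace Pool.Agent.Lib.MP_0d9445_pr.Bd

open CR

theorem add_rpow_le2 (a b : ℝ≥0∞) {p : ℝ} (h1 : 1 ≤ p) (h2 : p ≤ 2) :
    (a + b) ^ p ≤ 2 * (a ^ p + b ^ p) := by
  refine (ENNReal.rpow_add_le_mul_rpow_add_rpow a b h1).trans (mul_le_mul_left ?_ _)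
  calc (2 : ℝ≥0∞) ^ (p - 1) ≤ 2 ^ (1 : ℝ) :=
        ENNReal.rpow_le_rpow_of_exponent_le one_le_two (by linarith)
    _ = 2 := ENNReal.rpow_one _

theorem sum_rpow_le_card {ι : Type*} (I : Finset ι) (a : ι → ℝ≥0∞) {p : ℝ} (h1 : 1 < p)
    (h2 : p ≤ 2) {N : ℕ} (hN : I.card ≤ N) : (∑ i ∈ I, a i) ^ p ≤ N * ∑ i ∈ I, a i ^ p := by
  refine (sum_rpow_le I a h1.le).trans (mul_le_mul_left ?_ _)
  exact (Conc_nat_rpow _ (by linarith) (by linarith)).trans (Nat.cast_le.2 hN)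

theorem wB_between {Q s₁ s₂ r : ℝ} (h1 : s₁ ≤ r) (h2 : r ≤ s₂) {t : ℝ} {n : ℕ} {y : ℂ}
    {g : C(ℂ, ℝ)} {X C₁ C₂ : ℝ≥0∞} (a1 : X ≤ C₁ * wB Q s₁ t n y g)
    (a2 : X ≤ C₂ * wB Q s₂ t n y g) : X ≤ (C₁ + C₂) * wB Q r t n y g := by
  rcases le_total 0 (cc Q n y g) with hc | hc
  · exact a1.trans (mul_le_mul' le_self_add (wB_le_of_le t (mul_le_mul_of_nonneg_right h1 hc)))
  · exact a2.trans (mul_le_mul' le_add_self (wB_le_of_le t (mul_le_mul_of_nonpos_right h2 hc)))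

theorem ex_mul_wB (Q s : ℝ) {t : ℝ} (ht : 0 ≤ t) (n : ℕ) (y : ℂ) (g : C(ℂ, ℝ)) :
    ex (oB n y g) * wB Q s t n y g = wB Q s (t + 1) n y g := by
  unfold wB
  rw [ENNReal.ofReal_add ht zero_le_one, ENNReal.ofReal_one, add_mul, one_mul, ex_add]
  ring

namespace BCasc

variable {Ξ : Type} [MeasurableSpace Ξ] [MeasurableSpace C(ℂ, ℝ)] (B : BCasc Ξ) {d : ℕ}

theorem two_lt_Q : 2 < B.K.Q := by
  have h1 := B.K.zσ
  have h2 := B.K.Q_pos
  nlinarith [sq_nonneg (B.K.σ - B.K.Q)]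

theorem exists_exp : ∃ s p : ℝ, 0 < s ∧ s ≤ B.K.γ ∧ s ≤ 1 ∧ 1 < p ∧ p ≤ 2 ∧ p < B.z s := by
  have h1 := B.two_lt_Q
  have h2 := B.K.γ_pos
  have h3 := B.K.zγ
  rcases le_total B.K.γ 1 with h | h
  · refine ⟨B.K.γ, 5 / 4, h2, le_rfl, h, by norm_num, by norm_num, ?_⟩
    unfold z
    nlinarith
  · refine ⟨1, min 2 (B.K.Q / 2), one_pos, h, le_rfl, lt_min (by norm_num) (by linarith),
      min_le_left _ _, (min_le_right _ _).trans_lt ?_⟩
    unfold z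
    linarith

theorem θ_abs {s : ℝ} (hs : |s| ≤ 1) : 400 * |s| ≤ B.K.θ := by
  have h1 := B.K.θ_ge
  have h2 := B.K.σ_pos
  linarith

/-- the step `d` is large enough for the boundary recursion -/
def GoodB (s p : ℝ) (d : ℕ) : Prop :=
  B.K.Good d ∧ ∀ n (y y' : ℂ) g, SubB n y (n + d) y' →
    4 * ((2 ^ d : ℕ) : ℝ≥0∞) ^ p * ∫⁻ η, wB B.K.Q s B.K.θ (n + d) y' (g + η) ∂B.lay n d ≤
      wB B.K.Q s B.K.θ n y g

theorem eventually_good : ∀ᶠ d in atTop, B.K.Good d := by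
  set K := B.K
  have hσ := K.σ_pos
  obtain ⟨C, hC⟩ := K.down' K.σ (t := K.θ) (by rw [abs_of_pos hσ]; linarith [K.θ_ge])
  have hρ : (2 : ℝ) ^ (2 - K.z K.σ) < 1 :=
    Real.rpow_lt_one_of_one_lt_of_neg one_lt_two (by linarith [K.z_σ])
  have h1 := (tendsto_pow_atTop_nhds_zero_of_lt_one (by positivity) hρ).const_mul (10 ^ 5 * (C : ℝ))
  rw [mul_zero] at h1
  filter_upwards [h1.eventually_le_const one_pos, eventually_ge_atTop 7] with d h2 h3
  refine ⟨h3, fun n y y' g h => (mul_le_mul_right (hC n d y y' g h) _).trans ?_⟩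
  rw [← mul_assoc]
  refine mul_le_of_le_one_left' ?_
  have e : (10 : ℝ≥0∞) ^ 5 * 4 ^ d * (C * ENNReal.ofReal ((2 : ℝ) ^ (-(d * K.z K.σ)))) =
      ENNReal.ofReal (10 ^ 5 * (C : ℝ) * ((2 : ℝ) ^ (2 - K.z K.σ)) ^ d) := by
    have e1 : ((2 : ℝ) ^ (2 - K.z K.σ)) ^ d = 4 ^ d * (2 : ℝ) ^ (-(d * K.z K.σ)) := by
      rw [← Real.rpow_natCast, ← Real.rpow_mul zero_le_two,
        show (4 : ℝ) = 2 ^ (2 : ℝ) by norm_num, ← Real.rpow_natCast, ← Real.rpow_mul zero_le_two,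
        ← Real.rpow_add two_pos]
      congr 1
      ring
    rw [e1, ENNReal.ofReal_mul (by positivity), ENNReal.ofReal_mul (by positivity),
      ENNReal.ofReal_mul (by positivity), ENNReal.ofReal_pow (by norm_num),
      ENNReal.ofReal_pow (by norm_num), ENNReal.ofReal_ofNat, ENNReal.ofReal_ofNat,
      ENNReal.ofReal_coe_nnreal]
    ring
  rw [e]
  exact ENNReal.ofReal_le_one.2 h2

theorem eventually_goodB (hl : B.LipAll) {s p : ℝ} (hs : |s| ≤ 1) (hp : p < B.z s) :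
    ∀ᶠ d in atTop, B.GoodB s p d := by
  obtain ⟨C, hC⟩ := B.down' hl s (B.θ_abs hs)
  have hρ : (2 : ℝ) ^ (p - B.z s) < 1 :=
    Real.rpow_lt_one_of_one_lt_of_neg one_lt_two (by linarith)
  have h1 := (tendsto_pow_atTop_nhds_zero_of_lt_one (by positivity) hρ).const_mul (4 * (C : ℝ))
  rw [mul_zero] at h1
  filter_upwards [h1.eventually_le_const one_pos, B.eventually_good] with d h2 h3
  refine ⟨h3, fun n y y' g h => (mul_le_mul_right (hC n d y y' g h) _).trans ?_⟩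
  rw [← mul_assoc]
  refine mul_le_of_le_one_left' ?_
  have e : (4 : ℝ≥0∞) * ((2 ^ d : ℕ) : ℝ≥0∞) ^ p *
      (C * ENNReal.ofReal ((2 : ℝ) ^ (-(d * B.z s)))) =
      ENNReal.ofReal (4 * (C : ℝ) * ((2 : ℝ) ^ (p - B.z s)) ^ d) := by
    have e1 : ((2 : ℝ) ^ (p - B.z s)) ^ d = ((2 ^ d : ℕ) : ℝ) ^ p * (2 : ℝ) ^ (-(d * B.z s)) := by
      push_cast
      rw [← Real.rpow_natCast, ← Real.rpow_mul zero_le_two, ← Real.rpow_natCast,
        ← Real.rpow_mul zero_le_two, ← Real.rpow_add two_pos]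
      congr 1
      ring
    rw [e1, ENNReal.ofReal_mul (by positivity), ENNReal.ofReal_mul (by positivity),
      ENNReal.ofReal_mul (by positivity),
      ← ENNReal.ofReal_rpow_of_pos (x := ((2 ^ d : ℕ) : ℝ)) (by positivity),
      ENNReal.ofReal_natCast, ENNReal.ofReal_ofNat, ENNReal.ofReal_coe_nnreal]
    ring
  rw [e]
  exact ENNReal.ofReal_le_one.2 h2

/-- the squared count of a high square -/
theorem ZZ_rpow (hd : B.K.Good d) {p : ℝ} (h1 : 1 ≤ p) (h2 : p ≤ 2) : ∃ C : ℝ≥0,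
    ∀ r, -1 ≤ r → r ≤ B.K.γ → ∀ M n w g, n ≤ M → 64 ≤ w.2 → B.K.Win n (ctr n w) →
      ∫⁻ x, ZZ d (B.K.pat x) n w ^ p ∂B.P M n g ≤ C * wB B.K.Q r B.K.θ n (ctr n w) g := by
  obtain ⟨C1, H1⟩ := B.K.ZZ_mom hd (r := 1) le_rfl
  obtain ⟨C2, H2⟩ := B.K.ZZ_mom hd (r := 2) one_le_two
  refine ⟨(C1 + C2) + (C1 + C2), fun r hr hr' M n w g hM hw hW => ?_⟩
  rw [B.agree_reg hM hw ((B.K.ZZ_loc hd.1 n w).pow_const p)]
  have h3 : ∫⁻ x, ZZ d (B.K.pat x) n w ^ p ∂B.K.P n g ≤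
      ∫⁻ x, ZZ d (B.K.pat x) n w ^ 1 ∂B.K.P n g + ∫⁻ x, ZZ d (B.K.pat x) n w ^ 2 ∂B.K.P n g := by
    rw [← lintegral_add_left ((B.K.ZZ_meas hd.1 n w).pow_const 1)]
    exact lintegral_mono fun x => tz_rpow_le _ h1 h2
  rw [ENNReal.coe_add (C1 + C2)]
  refine wB_between hr hr' (h3.trans ?_) (h3.trans ?_)
  · rw [ENNReal.coe_add, add_mul]
    exact add_le_add ((H1 n w g hW).2.trans (mul_le_mul_right (wt_le_wB _ _ _ _ _ _) _))
      ((H2 n w g hW).2.trans (mul_le_mul_right (wt_le_wB _ _ _ _ _ _) _))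
  · rw [ENNReal.coe_add, add_mul]
    exact add_le_add ((H1 n w g hW).1.trans (mul_le_mul_right (wt_le_wB _ _ _ _ _ _) _))
      ((H2 n w g hW).1.trans (mul_le_mul_right (wt_le_wB _ _ _ _ _ _) _))

/-- the squared count of a high square seen from a boundary box above -/
theorem ZZ_lift (hl : B.LipAll) (hd : B.K.Good d) {p : ℝ} (h1 : 1 ≤ p) (h2 : p ≤ 2) {r : ℝ}
    (hr : |r| ≤ 1) (hr' : r ≤ B.K.γ) : ∃ C : ℝ≥0, ∀ M n m a w g, n + m ≤ M → 64 ≤ w.2 →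
      B.Win n a → SubB n (yb n a) (n + m) (ctr (n + m) w) →
      ∫⁻ x, ZZ d (B.K.pat x) (n + m) w ^ p ∂B.P M n g ≤
        C * ENNReal.ofReal ((2 : ℝ) ^ (-(m * B.z r))) * wB B.K.Q r B.K.θ n (yb n a) g := by
  obtain ⟨C1, H1⟩ := B.ZZ_rpow hd h1 h2
  obtain ⟨C2, H2⟩ := B.lift hl r (B.θ_abs hr)
  refine ⟨C1 * C2, fun M n m a w g hM hw hW hs => ?_⟩
  refine (H2 M n m _ _ g C1 _ hM ((B.K.ZZ_meas hd.1 _ w).pow_const p) hs fun g' =>
    H1 r (abs_le.1 hr).1 hr' M _ w g' hM hw (hW.inner hs hw)).trans (le_of_eq ?_)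
  push_cast
  ring

theorem wh_sum (hl : B.LipAll) (hd : B.K.Good d) {p : ℝ} (h1 : 1 ≤ p) (h2 : p ≤ 2) {r : ℝ}
    (hr : |r| ≤ 1) (hr' : r ≤ B.K.γ) : ∃ C : ℝ≥0, ∀ M n a g, n + d ≤ M → B.Win n a →
      2 * (((64 * 4 ^ d : ℕ) : ℝ≥0∞) *
        ∑ w ∈ wh d a, ∫⁻ x, ZZ d (B.K.pat x) (n + d) w ^ p ∂B.P M n g) ≤
        C * wB B.K.Q r B.K.θ n (yb n a) g := by
  obtain ⟨C, H⟩ := B.ZZ_lift hl hd h1 h2 hr hr'
  refine ⟨2 * ((64 * 4 ^ d : ℕ) * ((64 * 4 ^ d : ℕ) * (C * ((2 : ℝ) ^ (-(d * B.z r))).toNNReal))),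
    fun M n a g hM hW => ?_⟩
  have h3 := Finset.sum_le_card_nsmul (wh d a) _ _ fun w hw =>
    H M n d a w g hM (wh_ge hw) hW (subB_wh (by linarith [hd.1]) hw)
  rw [nsmul_eq_mul] at h3
  refine (mul_le_mul_right (mul_le_mul_right (h3.trans
    (mul_le_mul_left (Nat.cast_le.2 (card_wh_le d a)) _)) _) _).trans (le_of_eq ?_)
  rw [ENNReal.ofReal]
  push_cast
  ring

open Classical in
theorem UU_step (hd : 7 ≤ d) {p : ℝ} (h1 : 1 < p) (h2 : p ≤ 2) (j M k n : ℕ) (a : ℤ)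
    (g : C(ℂ, ℝ)) :
    ∫⁻ x, UU d (B.K.pat x) (B.Bb j M x) (k + 1) n a ^ p ∂B.P M n g ≤
      2 * (((64 * 4 ^ d : ℕ) : ℝ≥0∞) *
        ∑ w ∈ wh d a, ∫⁻ x, ZZ d (B.K.pat x) (n + d) w ^ p ∂B.P M n g) +
      2 * (((2 ^ d : ℕ) : ℝ≥0∞) ^ (p - 1) * ∑ a' ∈ bk d a, ∫⁻ x,
        (if B.Bb j M x (n + d) a' then 0 else UU d (B.K.pat x) (B.Bb j M x) k (n + d) a' ^ p)
          ∂B.P M n g) := by
  have m1 : ∀ w, Measurable fun x => ZZ d (B.K.pat x) (n + d) w ^ p := fun w =>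
    (B.K.ZZ_meas hd _ w).pow_const p
  have m2 : ∀ a', Measurable fun x =>
      (if B.Bb j M x (n + d) a' then 0 else UU d (B.K.pat x) (B.Bb j M x) k (n + d) a' ^ p) :=
    fun a' => Measurable.ite (B.bb_meas' j M _ a') measurable_const
      ((B.UU_meas hd j M k _ a').pow_const p)
  rw [← lintegral_finsetSum _ fun w _ => m1 w, ← lintegral_finsetSum _ fun w _ => m2 w,
    ← lintegral_const_mul _ (Finset.measurable_fun_sum _ fun w _ => m1 w),
    ← lintegral_const_mul _ (Finset.measurable_fun_sum _ fun w _ => m2 w), ← mul_add,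
    ← lintegral_add_left ((Finset.measurable_fun_sum _ fun w _ => m1 w).const_mul _),
    ← lintegral_const_mul' _ _ (by simp)]
  refine lintegral_mono fun x => ?_
  simp only [UU]
  refine (add_rpow_le2 _ _ h1.le h2).trans (mul_le_mul_right (add_le_add
    (sum_rpow_le_card _ _ h1 h2 (card_wh_le d a)) ?_) _)
  refine (sum_rpow_le _ _ h1.le).trans (le_of_eq ?_)
  rw [card_bk]
  congr 1
  refine Finset.sum_congr rfl fun a' _ => ?_
  split_ifs
  · exact ENNReal.zero_rpow_of_pos (by linarith)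
  · rfl

theorem UU_zero {p : ℝ} (h1 : 1 < p) (j M n : ℕ) (a : ℤ) (g : C(ℂ, ℝ)) :
    ∫⁻ x, UU d (B.K.pat x) (B.Bb j M x) 0 n a ^ p ∂B.P M n g = 0 := by
  simp only [UU]
  rw [ENNReal.zero_rpow_of_pos (by linarith), lintegral_zero]

/-- the a priori bound -/
theorem UU_apriori (hl : B.LipAll) {s p : ℝ} (hd : B.GoodB s p d) (hs : |s| ≤ 1)
    (hs' : s ≤ B.K.γ) (h1 : 1 < p) (h2 : p ≤ 2) : ∃ A : ℝ≥0, ∀ j M k n a g, n + k * d ≤ M →
      B.Win n a → ∫⁻ x, UU d (B.K.pat x) (B.Bb j M x) k n a ^ p ∂B.P M n g ≤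
        A * wB B.K.Q s B.K.θ n (yb n a) g := by
  classical
  obtain ⟨C, hC⟩ := B.wh_sum hl hd.1 h1.le h2 hs hs'
  refine ⟨2 * C, fun j M k => ?_⟩
  induction k with
  | zero =>
    intro n a g _ _
    rw [B.UU_zero h1]
    exact zero_le
  | succ k ih =>
    intro n a g hM hW
    have hM1 : n + d ≤ M := by nlinarith
    have hM2 : n + d + k * d ≤ M := by nlinarith
    set W := wB B.K.Q s B.K.θ n (yb n a) g
    set N : ℝ≥0∞ := ((2 ^ d : ℕ) : ℝ≥0∞) with hN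
    have hN0 : N ≠ 0 := by simp [hN]
    have hNt : N ≠ ∞ := ENNReal.natCast_ne_top _
    have key : ∀ a' ∈ bk d a, 2 * N ^ p * ∫⁻ x, (if B.Bb j M x (n + d) a' then 0 else
        UU d (B.K.pat x) (B.Bb j M x) k (n + d) a' ^ p) ∂B.P M n g ≤ C * W := by
      intro a' ha'
      have hs1 := subB_bk (n := n) ha'
      have e1 : ∫⁻ x, (if B.Bb j M x (n + d) a' then 0 else
          UU d (B.K.pat x) (B.Bb j M x) k (n + d) a' ^ p) ∂B.P M n g ≤
          ((2 * C : ℝ≥0) : ℝ≥0∞) *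
            ∫⁻ η, wB B.K.Q s B.K.θ (n + d) (yb (n + d) a') (g + η) ∂B.lay n d := by
        refine (lintegral_mono fun x => ?_ : _ ≤ ∫⁻ x,
          UU d (B.K.pat x) (B.Bb j M x) k (n + d) a' ^ p ∂B.P M n g).trans ?_
        · show (if _ then _ else _) ≤ _
          split_ifs
          · exact zero_le
          · exact le_rfl
        · rw [B.tower_lay hM1 g ((B.UU_meas hd.1.1 j M k _ a').pow_const p),
            ← lintegral_const_mul' _ _ ENNReal.coe_ne_top]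
          exact lintegral_mono fun η => ih (n + d) a' (g + η) hM2 (hW.sub hs1)
      refine (mul_le_mul_right e1 _).trans (le_trans (le_of_eq ?_)
        (mul_le_mul_right (hd.2 n _ _ g hs1) _))
      rw [← hN, ENNReal.coe_mul, ENNReal.coe_ofNat]
      ring
    refine (B.UU_step hd.1.1 h1 h2 j M k n a g).trans ?_
    rw [ENNReal.coe_mul, ENNReal.coe_ofNat, two_mul (C : ℝ≥0∞), add_mul]
    refine add_le_add (hC M n a g hM1 hW) ?_
    have h3 := Finset.sum_le_card_nsmul (bk d a) _ _ key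
    rw [nsmul_eq_mul, card_bk, ← Finset.mul_sum, ← hN] at h3
    refine (ENNReal.mul_le_mul_iff_right hN0 hNt).1 (le_trans (le_of_eq ?_) h3)
    have e : N ^ p = N * N ^ (p - 1) := by
      conv_lhs => rw [show p = 1 + (p - 1) by ring]
      rw [ENNReal.rpow_add _ _ hN0 hNt, ENNReal.rpow_one]
    rw [e]
    ring

/-- killing gives decay for large height -/
theorem UU_kill (hl : B.LipAll) {s p : ℝ} (hd : B.GoodB s p d) (hs : |s| ≤ 1)
    (hs' : s ≤ B.K.γ) (h1 : 1 < p) (h2 : p ≤ 2) : ∃ C : ℝ≥0, ∀ N j : ℕ, ∀ᶠ M in atTop,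
      ∀ k n a g, n + k * d ≤ N → B.Win n a →
        ∫⁻ x, UU d (B.K.pat x) (B.Bb j M x) k n a ^ p ∂B.P M n g ≤
          C * wB B.K.Q (-1) B.K.θ n (yb n a) g := by
  classical
  have hθ := B.K.θ_ge
  have hσ := B.K.σ_pos
  have hγ := B.K.γ_pos
  have hd7 := hd.1.1
  obtain ⟨A, hA⟩ := B.UU_apriori hl hd hs hs' h1 h2
  obtain ⟨C₁, hC₁⟩ := B.wh_sum hl hd.1 h1.le h2 (r := -1) (by simp) (by linarith)
  obtain ⟨D₀, hD₀⟩ := B.down hl (-1) (t := B.K.θ + 1) (by linarith)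
  set D : ℝ≥0 := D₀ * ((2 : ℝ) ^ (-(d * B.z (-1)))).toNNReal with hDdef
  have hD : ∀ n y y' g, SubB n y (n + d) y' →
      ∫⁻ η, wB B.K.Q (-1) (B.K.θ + 1) (n + d) y' (g + η) ∂B.lay n d ≤
        D * wB B.K.Q (-1) B.K.θ n y g := by
    intro n y y' g h
    refine (hD₀ n d y y' g h).trans ?_
    rw [hDdef, ENNReal.coe_mul]
    refine mul_le_mul' le_rfl (wB_mono _ _ ?_ _ _ _)
    have h3 : (B.K.θ + 1) * (2 : ℝ)⁻¹ ^ d ≤ (B.K.θ + 1) * (2 : ℝ)⁻¹ ^ 7 :=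
      mul_le_mul_of_nonneg_left (Geo_inv_pow_le hd7) (by linarith)
    norm_num at h3 ⊢
    linarith
  obtain ⟨δ, L, hδ, hL, hMδ⟩ := Casc.Kill_small (2 * 4 ^ d * D)
  obtain ⟨T, hT⟩ := B.soft δ L (by exact_mod_cast hδ)
  set A' : ℝ≥0 := A * (Real.exp ((s + 1) * T)).toNNReal with hA'
  refine ⟨2 * (C₁ + 2 * 4 ^ d * D * A'), fun N j => ?_⟩
  set C : ℝ≥0 := 2 * (C₁ + 2 * 4 ^ d * D * A') with hC
  filter_upwards [hT N j, eventually_ge_atTop N] with M hT hNM k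
  induction k with
  | zero =>
    intro n a g _ _
    rw [B.UU_zero h1]
    exact zero_le
  | succ k ih =>
    intro n a g hN hW
    have hN1 : n + d ≤ N := by nlinarith
    have hN2 : n + d + k * d ≤ N := by nlinarith
    have key : ∀ a' ∈ bk d a, ∀ g' : C(ℂ, ℝ), ∫⁻ x, (if B.Bb j M x (n + d) a' then 0 else
        UU d (B.K.pat x) (B.Bb j M x) k (n + d) a' ^ p) ∂B.P M (n + d) g' ≤
        (A' + δ * C : ℝ≥0) * wB B.K.Q (-1) (B.K.θ + 1) (n + d) (yb (n + d) a') g' := by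
      intro a' ha' g'
      have hW' := hW.sub (subB_bk (n := n) ha')
      have hmono : wB B.K.Q (-1) B.K.θ (n + d) (yb (n + d) a') g' ≤
          wB B.K.Q (-1) (B.K.θ + 1) (n + d) (yb (n + d) a') g' :=
        wB_mono _ _ (by linarith) _ _ _
      rw [B.kill_prod (hN1.trans hNM) j M ((B.UU_loc hd7 j M k (n + d) a').pow_const p)]
      have hp1 : B.P M (n + d) g' {x | ¬ B.Bb j M x (n + d) a'} ≤ 1 := prob_le_one
      by_cases hc : cc B.K.Q (n + d) (yb (n + d) a') g' < T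
      · have e1 := hA j M k (n + d) a' g' (hN2.trans hNM) hW'
        have e2 : wB B.K.Q s B.K.θ (n + d) (yb (n + d) a') g' ≤
            ENNReal.ofReal (Real.exp ((s + 1) * T)) *
              wB B.K.Q (-1) B.K.θ (n + d) (yb (n + d) a') g' := by
          rw [wB_eq B.K.Q s (-1)]
          refine mul_le_mul' (ENNReal.ofReal_le_ofReal (Real.exp_le_exp.2 ?_)) le_rfl
          rw [sub_neg_eq_add]
          exact mul_le_mul_of_nonneg_left hc.le (by linarith [(abs_le.1 hs).1])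
        calc _ ≤ 1 * (A * (ENNReal.ofReal (Real.exp ((s + 1) * T)) *
              wB B.K.Q (-1) (B.K.θ + 1) (n + d) (yb (n + d) a') g')) :=
              mul_le_mul' hp1 (e1.trans (mul_le_mul' le_rfl
                (e2.trans (mul_le_mul' le_rfl hmono))))
          _ = A' * wB B.K.Q (-1) (B.K.θ + 1) (n + d) (yb (n + d) a') g' := by
              rw [one_mul, hA', ENNReal.coe_mul, mul_assoc]; rfl
          _ ≤ _ := mul_le_mul' (ENNReal.coe_le_coe.2 le_self_add) le_rfl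
      · have e1 := ih (n + d) a' g' hN2 hW'
        have e4 : B.P M (n + d) g' {x | ¬ B.Bb j M x (n + d) a'} *
            ∫⁻ x, UU d (B.K.pat x) (B.Bb j M x) k (n + d) a' ^ p ∂B.P M (n + d) g' ≤
            δ * (C * wB B.K.Q (-1) (B.K.θ + 1) (n + d) (yb (n + d) a') g') := by
          by_cases ho : ob (n + d) a' g' ≤ L
          · exact mul_le_mul' (hT (n + d) hN1 a' g' hW'.fr ho (not_lt.1 hc))
              (e1.trans (mul_le_mul' le_rfl hmono))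
          · have e2 := one_le_exp_neg_mul_ex (not_le.1 ho).le
            refine (mul_le_mul' (hp1.trans (e2.trans (mul_le_mul' hL le_rfl))) e1).trans
              (le_of_eq ?_)
            rw [← ex_mul_wB _ _ B.K.θ_pos.le, ob_eq]
            ring
        refine e4.trans ?_
        rw [← mul_assoc, ← ENNReal.coe_mul]
        exact mul_le_mul' (ENNReal.coe_le_coe.2 le_add_self) le_rfl
    have key2 : ∀ a' ∈ bk d a, ∫⁻ x, (if B.Bb j M x (n + d) a' then 0 else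
        UU d (B.K.pat x) (B.Bb j M x) k (n + d) a' ^ p) ∂B.P M n g ≤
        (A' + δ * C : ℝ≥0) * (D * wB B.K.Q (-1) B.K.θ n (yb n a) g) := by
      intro a' ha'
      rw [B.tower_lay (hN1.trans hNM) g (Measurable.ite (B.bb_meas' j M _ a') measurable_const
        ((B.UU_meas hd7 j M k _ a').pow_const p))]
      refine (lintegral_mono fun η => key a' ha' (g + η)).trans ?_
      rw [lintegral_const_mul' _ _ ENNReal.coe_ne_top]
      exact mul_le_mul' le_rfl (hD n _ _ g (subB_bk ha'))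
    have hc1 : C₁ + 2 * 4 ^ d * D * (A' + δ * C) ≤ C := by
      have : C₁ + 2 * 4 ^ d * D * (A' + δ * C) =
          (C₁ + 2 * 4 ^ d * D * A') + (2 * 4 ^ d * D * δ) * C := by ring
      rw [this]
      calc _ ≤ (C₁ + 2 * 4 ^ d * D * A') + 2⁻¹ * C := add_le_add le_rfl (mul_le_mul' hMδ le_rfl)
        _ = C := by
          rw [hC, ← mul_assoc (2⁻¹ : ℝ≥0), inv_mul_cancel₀ (by norm_num), one_mul,
            two_mul (C₁ + _)]
    refine (B.UU_step hd7 h1 h2 j M k n a g).trans ?_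
    have h3 := Finset.sum_le_card_nsmul (bk d a) _ _ key2
    rw [nsmul_eq_mul, card_bk] at h3
    have h4 := Conc_nat_rpow (2 ^ d) (q := p - 1) (by linarith) (by linarith)
    refine (add_le_add (hC₁ M n a g (hN1.trans hNM) hW)
      (mul_le_mul_right (mul_le_mul' h4 h3) _)).trans ?_
    refine le_trans (le_of_eq ?_) (mul_le_mul' (ENNReal.coe_le_coe.2 hc1) le_rfl)
    have e4 : (4 : ℝ≥0∞) ^ d = 2 ^ d * 2 ^ d := by rw [← mul_pow]; norm_num
    push_cast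
    rw [e4]
    ring

end BCasc

end Pool.Agent.Lib.MP_0d9445_pr.Bd
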