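import Pool.Agent.Lib.MP_0d9445_pr.Bd.CMom
import Pool.Agent.Lib.MP_0d9445_pr.CR.LLN

/-! The outputs of the boundary cascade. -/

open MeasureTheory ProbabilityTheory Set Filter Topology
open scoped ENNReal NNReal

namespace Pool.Agent.Lib.MP_0d9445_pr.Bd

open CR

theorem geom_sum_le {ρ : ℝ≥0∞} (h : ρ < 1) {d : ℕ} (hd : 1 ≤ d) : ∃ S : ℝ≥0, ∀ k : ℕ,
    ∑ j ∈ Finset.range k, ρ ^ ((j + 1) * d) ≤ S := by
  have h1 : (1 - ρ)⁻¹ ≠ ∞ := ENNReal.inv_ne_top.2 (tsub_pos_of_lt h).ne'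
  refine ⟨(1 - ρ)⁻¹.toNNReal, fun k => ?_⟩
  rw [ENNReal.coe_toNNReal h1, ← ENNReal.tsum_geometric]
  refine le_trans (Finset.sum_le_sum fun j _ => ?_) (ENNReal.sum_le_tsum _)
  exact pow_le_pow_of_le_one zero_le h.le (by nlinarith)

theorem small_neg {A ε : ℝ≥0∞} (hA : A ≠ ∞) (hε : 0 < ε) {α : ℝ} (hα : 0 < α) (b : ℝ) :
    ∃ T : ℝ, ∀ c : ℝ, T ≤ c → A * ENNReal.ofReal (Real.exp (-α * c + b)) ≤ ε := by
  obtain ⟨T, hT⟩ := soft_small hA hε
  refine ⟨(T + b) / α, fun c hc => ?_⟩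
  rw [div_le_iff₀ hα] at hc
  have := hT (α * c - b) (by linarith)
  rwa [show -(α * c - b) = -α * c + b by ring] at this

theorem weight_eq (m : ℕ) (p z : ℝ) :
    ((4 : ℝ≥0∞)⁻¹ ^ m) ^ (p / 2) * (((2 ^ m : ℕ) : ℝ≥0∞) * ENNReal.ofReal ((2 : ℝ) ^ (-(m * z)))) =
      ENNReal.ofReal ((2 : ℝ) ^ (-(p - 1 + z))) ^ m := by
  have e1 : (4 : ℝ≥0∞)⁻¹ ^ m = ENNReal.ofReal ((2 : ℝ) ^ (-(2 * m : ℝ))) := by
    rw [show -(2 * m : ℝ) = -2 * m by ring, Real.rpow_mul zero_le_two, Real.rpow_natCast,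
      ENNReal.ofReal_pow (by positivity)]
    congr 1
    rw [Real.rpow_neg zero_le_two, ENNReal.ofReal_inv_of_pos (by positivity)]
    norm_num
  have e2 : ((2 ^ m : ℕ) : ℝ≥0∞) = ENNReal.ofReal ((2 : ℝ) ^ (m : ℝ)) := by
    rw [Real.rpow_natCast, ← ENNReal.ofReal_natCast]
    push_cast
    rfl
  rw [e1, e2, ENNReal.ofReal_rpow_of_pos (by positivity), ← ENNReal.ofReal_mul (by positivity),
    ← ENNReal.ofReal_mul (by positivity), ← ENNReal.ofReal_pow (by positivity),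
    ← Real.rpow_mul zero_le_two, ← Real.rpow_add two_pos, ← Real.rpow_add two_pos,
    ← Real.rpow_natCast, ← Real.rpow_mul zero_le_two]
  congr 2
  ring

theorem meas_lt_le {Ω : Type*} [MeasurableSpace Ω] (μ : Measure Ω) {f : Ω → ℝ≥0∞}
    (hf : Measurable f) {q : ℝ} (hq : 0 < q) : μ {x | 1 < f x} ≤ ∫⁻ x, f x ^ q ∂μ := by
  have h := mul_meas_ge_le_lintegral (μ := μ) (hf.pow_const q) 1
  rw [one_mul] at h
  exact (measure_mono fun x hx => ENNReal.one_le_rpow (le_of_lt hx) hq).trans h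

/-- weight of one term of `XI` times the number of terms -/
theorem xi_count (d j : ℕ) (hd : 1 ≤ d) :
    (4 : ℝ≥0∞)⁻¹ ^ ((j + 1) * d) * (((2 ^ (j * d) : ℕ) : ℝ≥0∞) * ((64 * 4 ^ d : ℕ) : ℝ≥0∞)) ≤
      64 * 2⁻¹ ^ j := by
  have e4 : (4 : ℝ≥0∞)⁻¹ * 4 = 1 := ENNReal.inv_mul_cancel (by norm_num) (by norm_num)
  have e2 : (4 : ℝ≥0∞)⁻¹ * 2 = 2⁻¹ := by
    rw [show (4 : ℝ≥0∞) = 2 * 2 by norm_num, ENNReal.mul_inv (by simp) (by simp), mul_assoc,
      ENNReal.inv_mul_cancel (by norm_num) (by norm_num), mul_one]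
  calc _ = 64 * (((4 : ℝ≥0∞)⁻¹ * 2) ^ (j * d) * ((4 : ℝ≥0∞)⁻¹ * 4) ^ d) := by
        push_cast
        ring
    _ = 64 * 2⁻¹ ^ (j * d) := by rw [e4, e2, one_pow, mul_one]
    _ ≤ _ := mul_le_mul_right (pow_le_pow_of_le_one zero_le (by simp) (by nlinarith)) _

theorem half_sum_le (J k : ℕ) : ∑ j ∈ Finset.Ico J k, (2 : ℝ≥0∞)⁻¹ ^ j ≤ 2 * 2⁻¹ ^ J := by
  rw [Finset.sum_Ico_eq_sum_range]
  simp only [pow_add]
  rw [← Finset.mul_sum, mul_comm]
  refine mul_le_mul_left ((ENNReal.sum_le_tsum _).trans (le_of_eq ?_)) _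
  rw [ENNReal.tsum_geometric, ENNReal.one_sub_inv_two, inv_inv]

namespace BCasc

variable {Ξ : Type} [MeasurableSpace Ξ] [MeasurableSpace C(ℂ, ℝ)] (B : BCasc Ξ) {d : ℕ}

theorem UU_mom (hl : B.LipAll) {s p : ℝ} (hd : B.GoodB s p d) (hs0 : 0 ≤ s) (hs : s ≤ 1)
    (hs' : s ≤ B.K.γ) (h1 : 1 < p) (h2 : p ≤ 2) {r : ℝ} (hr : -1 ≤ r) (hr' : r ≤ 0) :
    ∃ C : ℝ≥0, ∀ N j : ℕ, ∀ᶠ M in atTop, ∀ k n a g, n + k * d ≤ N → B.Win n a →
      ∫⁻ x, UU d (B.K.pat x) (B.Bb j M x) k n a ^ p ∂B.P M n g ≤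
        C * wB B.K.Q r B.K.θ n (yb n a) g := by
  have hs1 : |s| ≤ 1 := by rwa [abs_of_nonneg hs0]
  obtain ⟨A, hA⟩ := B.UU_apriori hl hd hs1 hs' h1 h2
  obtain ⟨C, hC⟩ := B.UU_kill hl hd hs1 hs' h1 h2
  refine ⟨C + A, fun N j => ?_⟩
  filter_upwards [hC N j, eventually_ge_atTop N] with M hC hM k n a g hN hW
  rw [ENNReal.coe_add]
  exact wB_between hr (hr'.trans hs0) (hC k n a g hN hW) (hA j M k n a g (hN.trans hM) hW)

theorem WW_lift (hl : B.LipAll) {s p : ℝ} (hd : B.GoodB s p d) (hs0 : 0 ≤ s) (hs : s ≤ 1)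
    (hs' : s ≤ B.K.γ) (h1 : 1 < p) (h2 : p ≤ 2) {r : ℝ} (hr : -1 ≤ r) (hr' : r ≤ 0) :
    ∃ C : ℝ≥0, ∀ N j : ℕ, ∀ᶠ M in atTop, ∀ k n m a a' g, 1 ≤ m → n + m + k * d ≤ N →
      B.Win n a → a' ∈ bk m a →
      ∫⁻ x, WW d (B.K.pat x) (B.Bb j M x) k (n + m) a' ^ p ∂B.P M n g ≤
        C * ENNReal.ofReal ((2 : ℝ) ^ (-(m * B.z r))) * wB B.K.Q r B.K.θ n (yb n a) g := by
  have hr1 : |r| ≤ 1 := abs_le.2 ⟨hr, by linarith⟩
  have hd7 := hd.1.1
  obtain ⟨C1, H1⟩ := B.UU_mom hl hd hs0 hs hs' h1 h2 hr hr'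
  obtain ⟨C2, H2⟩ := B.lift hl r (B.θ_abs hr1)
  obtain ⟨C3, H3⟩ := B.ZZ_lift hl hd.1 h1.le h2 hr1 (hr'.trans B.K.γ_pos.le)
  refine ⟨2 * (7 * (7 * (C1 * C2)) + 21 * (21 * C3)), fun N j => ?_⟩
  filter_upwards [H1 N j, eventually_ge_atTop N] with M H1 hM k n m a a' g hm hN hW ha'
  have hM' : n + m ≤ M := le_trans (by omega) (hN.trans hM)
  have m1 : ∀ i, Measurable fun x => UU d (B.K.pat x) (B.Bb j M x) k (n + m) i ^ p := fun i =>
    (B.UU_meas hd7 j M k _ i).pow_const p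
  have m2 : ∀ w, Measurable fun x => ZZ d (B.K.pat x) (n + m) w ^ p := fun w =>
    (B.K.ZZ_meas hd7 _ w).pow_const p
  have e1 := Finset.sum_le_card_nsmul (Finset.Icc (a' - 3) (a' + 3)) _ _ fun i hi =>
    H2 M n m _ _ g C1 _ hM' (m1 i) (subB_row hm ha' hi) fun g' =>
      H1 k (n + m) i g' hN (hW.sub (subB_row hm ha' hi))
  have e2 := Finset.sum_le_card_nsmul (top a') _ _ fun w hw =>
    H3 M n m a w g hM' (top_ge hw) hW (subB_top hm ha' hw)
  rw [nsmul_eq_mul, card_row, ← lintegral_finsetSum _ fun i _ => m1 i] at e1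
  rw [nsmul_eq_mul, card_top, ← lintegral_finsetSum _ fun i _ => m2 i] at e2
  have e3 := add_le_add (mul_le_mul_right e1 ((7 : ℕ) : ℝ≥0∞)) (mul_le_mul_right e2 ((21 : ℕ) : ℝ≥0∞))
  rw [← lintegral_const_mul _ (Finset.measurable_fun_sum _ fun i _ => m1 i),
    ← lintegral_const_mul _ (Finset.measurable_fun_sum _ fun i _ => m2 i),
    ← lintegral_add_left ((Finset.measurable_fun_sum _ fun i _ => m1 i).const_mul _)] at e3
  have e4 := mul_le_mul_right e3 2
  rw [← lintegral_const_mul' _ _ (by simp)] at e4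
  refine le_trans (lintegral_mono fun x => ?_) (e4.trans (le_of_eq ?_))
  · exact (add_rpow_le2 _ _ h1.le h2).trans (mul_le_mul_right (add_le_add
      (sum_rpow_le_card _ _ h1 h2 (card_row a').le) (sum_rpow_le_card _ _ h1 h2 (card_top a').le)) _)
  · push_cast
    ring

theorem outII (hl : B.LipAll) {s p : ℝ} (hd : B.GoodB s p d) (hs0 : 0 ≤ s) (hs : s ≤ 1)
    (hs' : s ≤ B.K.γ) (h1 : 1 < p) (h2 : p ≤ 2) : B.OutII d := by
  have hQ := B.two_lt_Q
  have hd7 := hd.1.1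
  set α : ℝ := (p - 1) / (2 * (B.K.Q + 1)) with hα
  have hα0 : 0 < α := div_pos (by linarith) (by linarith)
  have hα1 : α * (2 * (B.K.Q + 1)) = p - 1 := div_mul_cancel₀ _ (by linarith)
  have hα2 : α ≤ 1 := by nlinarith
  have hz : 0 < p - 1 + B.z (-α) := by
    unfold z
    nlinarith
  obtain ⟨C, hC⟩ := B.WW_lift hl hd hs0 hs hs' h1 h2 (r := -α) (by linarith) (by linarith)
  obtain ⟨S, hS⟩ := geom_sum_le (ρ := ENNReal.ofReal ((2 : ℝ) ^ (-(p - 1 + B.z (-α)))))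
    (ENNReal.ofReal_lt_one.2 (Real.rpow_lt_one_of_one_lt_of_neg one_lt_two (by linarith)))
    (d := d) (by omega)
  intro δ L hδ
  obtain ⟨T, hT⟩ := small_neg (A := C * S) (by finiteness) hδ hα0 (B.K.θ * L)
  refine ⟨T, fun n k j => ?_⟩
  filter_upwards [hC (n + k * d + k * d) j] with M hC a g hW ho hc
  have mW : ∀ m a', Measurable fun x => WW d (B.K.pat x) (B.Bb j M x) k m a' ^ p := fun m a' =>
    (B.WW_meas hd7 j M k m a').pow_const p
  refine (meas_lt_le _ (B.XII_meas hd7 j M k n a) (q := p / 2) (by linarith)).trans ?_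
  calc _ ≤ ∫⁻ x, ∑ i ∈ Finset.range k, ((4 : ℝ≥0∞)⁻¹ ^ ((i + 1) * d)) ^ (p / 2) *
        ∑ a' ∈ bk ((i + 1) * d) a, WW d (B.K.pat x) (B.Bb j M x) k (n + (i + 1) * d) a' ^ p
          ∂B.P M n g := by
        refine lintegral_mono fun x => ?_
        refine (Conc_sum_rpow _ _ (by linarith) (by linarith)).trans
          (Finset.sum_le_sum fun i _ => ?_)
        rw [ENNReal.mul_rpow_of_nonneg _ _ (by linarith)]
        refine mul_le_mul_right ((Conc_sum_rpow _ _ (by linarith) (by linarith)).trans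
          (le_of_eq (Finset.sum_congr rfl fun a' _ => ?_))) _
        rw [← ENNReal.rpow_natCast, ← ENNReal.rpow_mul]
        congr 1
        push_cast
        ring
    _ = ∑ i ∈ Finset.range k, ((4 : ℝ≥0∞)⁻¹ ^ ((i + 1) * d)) ^ (p / 2) *
        ∑ a' ∈ bk ((i + 1) * d) a,
          ∫⁻ x, WW d (B.K.pat x) (B.Bb j M x) k (n + (i + 1) * d) a' ^ p ∂B.P M n g := by
        rw [lintegral_finsetSum _ fun i _ =>
          (Finset.measurable_fun_sum _ fun a' _ => mW _ a').const_mul _]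
        refine Finset.sum_congr rfl fun i _ => ?_
        rw [lintegral_const_mul _ (Finset.measurable_fun_sum _ fun a' _ => mW _ a'),
          lintegral_finsetSum _ fun a' _ => mW _ a']
    _ ≤ ∑ i ∈ Finset.range k, ENNReal.ofReal ((2 : ℝ) ^ (-(p - 1 + B.z (-α)))) ^ ((i + 1) * d) *
        (C * wB B.K.Q (-α) B.K.θ n (yb n a) g) := by
        refine Finset.sum_le_sum fun i hi => ?_
        have hi' : i + 1 ≤ k := Finset.mem_range.1 hi
        have e1 := Finset.sum_le_card_nsmul (bk ((i + 1) * d) a) _ _ fun a' ha' =>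
          hC k n ((i + 1) * d) a a' g (by nlinarith)
            (by have := Nat.mul_le_mul_right d hi'; omega) hW ha'
        rw [nsmul_eq_mul, card_bk] at e1
        refine (mul_le_mul_right e1 _).trans (le_of_eq ?_)
        rw [← weight_eq]
        ring
    _ ≤ S * (C * ENNReal.ofReal (Real.exp (-α * cc B.K.Q n (yb n a) g + B.K.θ * L))) := by
        rw [← Finset.sum_mul]
        exact mul_le_mul' (hS k) (mul_le_mul_right (wB_le_of_oB_le _ _ B.K.θ_pos.le ho) _)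
    _ ≤ δ := by
        rw [← mul_assoc, mul_comm (S : ℝ≥0∞)]
        exact hT _ hc

/-- the mean of `KK` for a high square seen from a boundary box above -/
theorem KK_lift (hl : B.LipAll) (hd : B.K.Good d) : ∃ C : ℝ≥0, ∀ M n m a w g, n + m ≤ M →
    64 ≤ w.2 → B.Win n a → SubB n (yb n a) (n + m) (ctr (n + m) w) →
      ∫⁻ x, KK d (B.K.pat x) (n + m) w ∂B.P M n g ≤ C * wB B.K.Q 0 (2 * B.K.θ) n (yb n a) g := by
  obtain ⟨C1, H1⟩ := B.K.KK_mom hd (r := 1) le_rfl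
  obtain ⟨C2, H2⟩ := B.lift hl 0 (t := 2 * B.K.θ) (by simp [B.K.θ_pos.le])
  refine ⟨C1 * C2, fun M n m a w g hM hw hW hs => ?_⟩
  refine (H2 M n m _ _ g C1 _ hM (B.K.KK_meas hd.1 _ w) hs fun g' => ?_).trans (le_of_eq ?_)
  · rw [B.agree_reg hM hw (B.K.KK_loc hd.1 _ w)]
    have := H1 (n + m) w g' (hW.inner hs hw)
    simp only [pow_one] at this
    exact this.trans (mul_le_mul_right (wt_le_wB _ _ _ _ _ _) _)
  · simp [z, mul_assoc]

/-- the law of large numbers for a high square seen from a boundary box above -/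
theorem KK_soft (hl : B.LipAll) (hd : B.K.Good d) : ∃ C : ℝ≥0, ∀ (m : ℕ) (ε : ℝ≥0∞) (L : ℝ≥0),
    0 < ε → ∃ T : ℝ, ∀ M n a w g, n + m ≤ M → 64 ≤ w.2 → B.Win n a →
      SubB n (yb n a) (n + m) (ctr (n + m) w) → ob n a g ≤ L → T ≤ cc B.K.Q n (yb n a) g →
        B.P M n g {x | (C : ℝ≥0∞) < KK d (B.K.pat x) (n + m) w} ≤ ε := by
  obtain ⟨C, hC⟩ := B.K.KK_lln hd
  refine ⟨C, fun m ε L hε => ?_⟩
  obtain ⟨L', hL'⟩ := B.lift_soft hl m ε L hε
  obtain ⟨T', hT'⟩ := hC (ε / 2) L' (ENNReal.half_pos hε.ne')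
  obtain ⟨T, hT⟩ := hL' T'
  refine ⟨T, fun M n a w g hM hw hW hs ho hc => ?_⟩
  have hE : MeasurableSet[B.K.G (reg (n + m) w 21)]
      {x | (C : ℝ≥0∞) < KK d (B.K.pat x) (n + m) w} :=
    (B.K.KK_loc hd.1 _ w) measurableSet_Ioi
  have hE' := B.K.G_le _ _ hE
  refine hT M n _ _ g _ hM hE' hs (fun g' h1 h2 => ?_) ho hc
  rw [← lintegral_indicator_one hE', B.agree_reg hM hw
    (F := {x | (C : ℝ≥0∞) < KK d (B.K.pat x) (n + m) w}.indicator 1) (@Measurable.indicator Ξ ℝ≥0∞ _ _ (B.K.G _) _ _ (@measurable_const _ _ _ (B.K.G _) 1) hE),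
    lintegral_indicator_one hE']
  exact hT' (n + m) w g' (hW.inner hs hw) ((oo_le_oB _ _ _).trans h1) h2

theorem outI (hl : B.LipAll) (hd : B.K.Good d) : B.OutI d := by
  classical
  have hd7 := hd.1
  have hd1 : 1 ≤ d := by omega
  obtain ⟨C0, H0⟩ := B.KK_soft hl hd
  obtain ⟨C1, H1⟩ := B.KK_lift hl hd
  refine ⟨128 * C0 + 1, fun δ L hδ => ?_⟩
  have hδ2 := ENNReal.half_pos hδ.ne'
  set A : ℝ≥0∞ := 128 * (C1 * ENNReal.ofReal (Real.exp (2 * B.K.θ * L))) with hA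
  have hAt : A ≠ ∞ := by rw [hA]; finiteness
  obtain ⟨J, hJ⟩ : ∃ J : ℕ, A * 2⁻¹ ^ J ≤ δ / 2 := by
    have h := ENNReal.Tendsto.const_mul (a := A)
      (ENNReal.tendsto_pow_atTop_nhds_zero_of_lt_one (r := 2⁻¹) (by simp)) (Or.inr hAt)
    rw [mul_zero] at h
    exact (ENNReal.tendsto_nhds_zero.1 h _ hδ2).exists
  set N : ℕ := J * (2 ^ (J * d) * (64 * 4 ^ d)) with hN
  have hε : 0 < δ / 2 / N := ENNReal.div_pos hδ2.ne' (ENNReal.natCast_ne_top N)
  choose T hT using fun i : ℕ => H0 ((i + 1) * d) (δ / 2 / N) L hε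
  refine ⟨∑ i ∈ Finset.range J, |T i|, fun n k => ?_⟩
  filter_upwards [eventually_ge_atTop (n + (k + J) * d)] with M hM a g hW ho hc
  have hlev : ∀ i, i < k ∨ i < J → n + (i + 1) * d ≤ M := fun i hi => by
    have : (i + 1) * d ≤ (k + J) * d := Nat.mul_le_mul_right d (by omega)
    omega
  set tail : Ξ → ℝ≥0∞ := fun x => ∑ i ∈ Finset.Ico J k, (4 : ℝ≥0∞)⁻¹ ^ ((i + 1) * d) *
    ∑ a' ∈ bk (i * d) a, ∑ w ∈ wh d a', KK d (B.K.pat x) (n + (i + 1) * d) w with htail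
  have mK : ∀ m w, Measurable fun x => KK d (B.K.pat x) m w := fun m w => B.K.KK_meas hd7 m w
  have mT : Measurable tail := Finset.measurable_fun_sum _ fun _ _ => Measurable.const_mul
    (Finset.measurable_fun_sum _ fun _ _ => Finset.measurable_fun_sum _ fun _ _ => mK _ _) _
  have hsub : {x | ((128 * C0 + 1 : ℝ≥0) : ℝ≥0∞) < XI d (B.K.pat x) k n a} ⊆
      (⋃ i ∈ Finset.range J, ⋃ a' ∈ bk (i * d) a, ⋃ w ∈ wh d a',
        {x | (C0 : ℝ≥0∞) < KK d (B.K.pat x) (n + (i + 1) * d) w}) ∪ {x | 1 < tail x} := by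
    intro x hx
    by_contra hn
    simp only [mem_union, mem_iUnion, mem_ofPred_eq, not_or, not_exists, not_lt] at hn
    refine not_lt.2 ?_ (show _ < XI d (B.K.pat x) k n a from hx)
    have e1 : XI d (B.K.pat x) k n a ≤ ∑ i ∈ Finset.range J, (4 : ℝ≥0∞)⁻¹ ^ ((i + 1) * d) *
        ∑ a' ∈ bk (i * d) a, ∑ w ∈ wh d a', KK d (B.K.pat x) (n + (i + 1) * d) w + tail x := by
      rw [htail, ← Finset.sum_union (by
        rw [Finset.disjoint_left]
        intro i h1 h2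
        have := Finset.mem_range.1 h1
        have := (Finset.mem_Ico.1 h2).1
        omega)]
      refine Finset.sum_le_sum_of_subset fun i hi => ?_
      have := Finset.mem_range.1 hi
      simp only [Finset.mem_union, Finset.mem_range, Finset.mem_Ico]
      omega
    rw [ENNReal.coe_add, ENNReal.coe_one]
    refine e1.trans (add_le_add ?_ hn.2)
    calc _ ≤ ∑ i ∈ Finset.range J, 64 * 2⁻¹ ^ i * (C0 : ℝ≥0∞) := by
          refine Finset.sum_le_sum fun i hi => ?_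
          have e2 := Finset.sum_le_card_nsmul (bk (i * d) a) _ _ fun a' ha' =>
            (Finset.sum_le_card_nsmul (wh d a') _ _ fun w hw => hn.1 i hi a' ha' w hw).trans
              (nsmul_le_nsmul_left (zero_le) (card_wh_le d a'))
          rw [card_bk, nsmul_eq_mul, nsmul_eq_mul, ← mul_assoc] at e2
          refine (mul_le_mul_right e2 _).trans ?_
          rw [← mul_assoc]
          exact mul_le_mul_left (xi_count d i hd1) _
      _ ≤ _ := by
          rw [← Finset.sum_mul, ← Finset.mul_sum, Finset.range_eq_Ico, ENNReal.coe_mul]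
          refine mul_le_mul_left ((mul_le_mul_right (half_sum_le 0 J) _).trans (le_of_eq ?_)) _
          norm_num
  refine (measure_mono hsub).trans ((measure_union_le _ _).trans ?_)
  rw [← ENNReal.add_halves δ]
  refine add_le_add ?_ ?_
  · refine (measure_biUnion_finset_le _ _).trans ?_
    refine (Finset.sum_le_card_nsmul _ _ ((2 ^ (J * d) * (64 * 4 ^ d)) • (δ / 2 / N))
      fun i hi => ?_).trans ?_
    · have hi' := Finset.mem_range.1 hi
      have hTi : T i ≤ cc B.K.Q n (yb n a) g := (le_abs_self _).trans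
        ((Finset.single_le_sum (f := fun i => |T i|) (fun _ _ => abs_nonneg _) hi).trans hc)
      refine (measure_biUnion_finset_le _ _).trans ?_
      refine (Finset.sum_le_card_nsmul _ _ ((64 * 4 ^ d) • (δ / 2 / N)) fun a' ha' => ?_).trans ?_
      · refine (measure_biUnion_finset_le _ _).trans ?_
        exact (Finset.sum_le_card_nsmul _ _ _ fun w hw => hT i M n a w g (hlev i (Or.inr hi'))
          (wh_ge hw) hW (subB_wh' hd1 ha' hw) ho hTi).trans
          (nsmul_le_nsmul_left (zero_le) (card_wh_le d a'))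
      · rw [card_bk, ← mul_nsmul']
        refine nsmul_le_nsmul_left (zero_le) (Nat.mul_le_mul_right _ ?_)
        exact Nat.pow_le_pow_right two_pos (Nat.mul_le_mul_right d hi'.le)
    · rw [Finset.card_range, ← mul_nsmul', ← hN, nsmul_eq_mul]
      exact ENNReal.mul_div_le
  · have e0 := meas_lt_le (B.P M n g) mT one_pos
    simp only [ENNReal.rpow_one] at e0
    refine e0.trans (le_trans ?_ hJ)
    have eW := wB_le_of_oB_le B.K.Q 0 (t := 2 * B.K.θ) (by linarith [B.K.θ_pos]) ho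
    rw [zero_mul, zero_add] at eW
    rw [htail, lintegral_finsetSum _ fun _ _ => Measurable.const_mul
      (Finset.measurable_fun_sum _ fun _ _ => Finset.measurable_fun_sum _ fun _ _ => mK _ _) _]
    calc _ ≤ ∑ i ∈ Finset.Ico J k, 64 * 2⁻¹ ^ i *
          (C1 * ENNReal.ofReal (Real.exp (2 * B.K.θ * L))) := by
          refine Finset.sum_le_sum fun i hi => ?_
          rw [lintegral_const_mul _ (Finset.measurable_fun_sum _ fun _ _ =>
            Finset.measurable_fun_sum _ fun _ _ => mK _ _),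
            lintegral_finsetSum _ fun _ _ => Finset.measurable_fun_sum _ fun _ _ => mK _ _]
          have e2 := Finset.sum_le_card_nsmul (bk (i * d) a)
            (fun a' => ∫⁻ x, ∑ w ∈ wh d a', KK d (B.K.pat x) (n + (i + 1) * d) w ∂B.P M n g)
            ((64 * 4 ^ d) • (C1 * ENNReal.ofReal (Real.exp (2 * B.K.θ * L)))) fun a' ha' => by
              rw [lintegral_finsetSum _ fun _ _ => mK _ _]
              exact (Finset.sum_le_card_nsmul (wh d a') _ _ fun w hw =>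
                (H1 M n _ a w g (hlev i (Or.inl (Finset.mem_Ico.1 hi).2)) (wh_ge hw) hW
                  (subB_wh' hd1 ha' hw)).trans (mul_le_mul_right eW _)).trans
                (nsmul_le_nsmul_left (zero_le) (card_wh_le d a'))
          rw [card_bk, nsmul_eq_mul, nsmul_eq_mul, ← mul_assoc] at e2
          refine (mul_le_mul_right e2 _).trans ?_
          rw [← mul_assoc]
          exact mul_le_mul_left (xi_count d i hd1) _
      _ ≤ _ := by
          rw [← Finset.sum_mul, ← Finset.mul_sum]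
          refine (mul_le_mul_left (mul_le_mul_right (half_sum_le J k) _) _).trans (le_of_eq ?_)
          rw [hA]
          ring

/-- from level `n` to level zero along `g + t` -/
theorem lift_top (hl : B.LipAll) (n : ℕ) (ε : ℝ≥0∞) (L : ℝ≥0) (hε : 0 < ε) :
    ∃ L' : ℝ≥0, ∀ T' : ℝ, ∃ T : ℝ, ∀ M y g (t : ℝ) (E : Set Ξ), n ≤ M → MeasurableSet E →
      (∀ g', oB n y g' ≤ L' → T' ≤ cc B.K.Q n y g' → B.P M n g' E ≤ ε / 2) →
      oB n y g ≤ L → |g y| ≤ L → T ≤ t → B.P M 0 (g + ContinuousMap.const ℂ t) E ≤ ε := by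
  have h2 := ENNReal.half_pos hε.ne'
  have h4 := ENNReal.half_pos h2.ne'
  obtain ⟨C₀, H₀⟩ := B.mgf hl 0 1
  obtain ⟨C₁, H₁⟩ := B.mgf hl (-1) 0
  obtain ⟨L', hL'⟩ := soft_small (A := ENNReal.ofReal (Real.exp L) *
    (C₀ * ENNReal.ofReal ((2 : ℝ) ^ (n * (0 : ℝ) ^ 2)))) (by finiteness) h4
  refine ⟨L', fun T' => ?_⟩
  obtain ⟨T, hT⟩ := soft_small (A := ENNReal.ofReal (Real.exp (T' + L + n * B.K.Q * Real.log 2)) *
    (C₁ * ENNReal.ofReal ((2 : ℝ) ^ (n * (-1 : ℝ) ^ 2)))) (by finiteness) h4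
  refine ⟨T, fun M y g t E hM hE hT' ho hg ht => ?_⟩
  have mm : ∀ s a : ℝ, Measurable fun η : C(ℂ, ℝ) =>
      ENNReal.ofReal (Real.exp (s * η y)) * ex (ENNReal.ofReal a * oB n y η) := fun s a =>
    (Real.measurable_exp.comp ((B.K.meas_eval y).const_mul s)).ennreal_ofReal.mul
      (measurable_ex.comp ((B.measurable_oB n y).const_mul _))
  have hp : ∀ η : C(ℂ, ℝ), B.P M n (g + ContinuousMap.const ℂ t + η) E ≤ ε / 2 +
      (ENNReal.ofReal (Real.exp (-(L' : ℝ))) * ENNReal.ofReal (Real.exp L) *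
        (ENNReal.ofReal (Real.exp (0 * η y)) * ex (ENNReal.ofReal 1 * oB n y η)) +
      ENNReal.ofReal (Real.exp (-t)) *
        ENNReal.ofReal (Real.exp (T' + L + n * B.K.Q * Real.log 2)) *
        (ENNReal.ofReal (Real.exp (-1 * η y)) * ex (ENNReal.ofReal 0 * oB n y η))) := fun η => by
    rcases le_total (oB n y (g + ContinuousMap.const ℂ t + η)) L' with a | a
    · rcases le_total T' (cc B.K.Q n y (g + ContinuousMap.const ℂ t + η)) with b | b
      · exact (hT' _ a b).trans le_self_add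
      · refine prob_le_one.trans (le_trans ?_ (le_add_self.trans le_add_self))
        rw [← soft_exp_split', ← mul_assoc, ← soft_exp_split']
        refine one_le_mul ?_ (one_le_ex _)
        rw [ENNReal.one_le_ofReal]
        simp only [cc, ContinuousMap.add_apply, ContinuousMap.const_apply] at b
        exact Real.one_le_exp (by linarith [(abs_le.1 hg).1])
    · refine prob_le_one.trans ((one_le_exp_neg_mul_ex a).trans
        (le_trans ?_ (le_self_add.trans le_add_self)))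
      rw [mul_assoc, zero_mul, Real.exp_zero, ENNReal.ofReal_one, one_mul, one_mul,
        ← ex_ofReal L.coe_nonneg, ← ex_add, ENNReal.ofReal_coe_nnreal]
      refine mul_le_mul_right (ex_mono ((oB_add_le _ _ _ _).trans (add_le_add ?_ le_rfl))) _
      rw [oB, lip_add_const]
      exact ho
  have ht0 := B.tower_set (n := 0) (m := n) (M := M) (by omega) (g + ContinuousMap.const ℂ t) hE
  have a₀ := H₀ 0 n y
  have a₁ := H₁ 0 n y
  rw [zero_add] at ht0 a₀ a₁
  rw [ht0]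
  refine (lintegral_mono hp).trans ?_
  rw [lintegral_add_left measurable_const, lintegral_add_left ((mm 0 1).const_mul _),
    lintegral_const, measure_univ, mul_one, lintegral_const_mul _ (mm 0 1),
    lintegral_const_mul _ (mm (-1) 0)]
  calc _ ≤ ε / 2 + (ε / 2 / 2 + ε / 2 / 2) := by
        refine add_le_add le_rfl (add_le_add (le_trans ?_ (hL' L' le_rfl)) (le_trans ?_ (hT t ht)))
        · exact (mul_le_mul_right a₀ _).trans (le_of_eq (by ring))
        · exact (mul_le_mul_right a₁ _).trans (le_of_eq (by ring))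
    _ = ε := by rw [ENNReal.add_halves, ENNReal.add_halves]

theorem outTop (hl : B.LipAll) (hd : 7 ≤ d) (h1 : B.OutI d) (h2 : B.OutII d) : B.OutTop d := by
  obtain ⟨C, hC⟩ := h1
  refine ⟨C + 1, fun n a hW δ L hδ => ?_⟩
  have h4 := ENNReal.half_pos (ENNReal.half_pos hδ.ne').ne'
  obtain ⟨L', hL'⟩ := B.lift_top hl n δ L hδ
  obtain ⟨T1, hT1⟩ := hC (δ / 2 / 2) L' h4
  obtain ⟨T2, hT2⟩ := h2 (δ / 2 / 2) L' h4
  obtain ⟨T, hT⟩ := hL' (max T1 T2)
  refine ⟨T, fun k j => ?_⟩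
  filter_upwards [hT1 n k, hT2 n k j, eventually_ge_atTop n] with M e1 e2 hM g t ht ho hg
  refine hT M _ g t _ hM (measurableSet_lt measurable_const
    ((B.XI_meas hd k n a).add (B.XII_meas hd j M k n a))) (fun g' b1 b2 => ?_) ho hg ht
  rw [← ENNReal.add_halves (δ / 2)]
  refine le_trans (measure_mono fun x hx => ?_) ((measure_union_le _ _).trans (add_le_add
    (e1 a g' hW b1 ((le_max_left _ _).trans b2)) (e2 a g' hW b1 ((le_max_right _ _).trans b2))))
  by_contra hn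
  simp only [mem_union, mem_ofPred_eq, not_or, not_lt] at hn
  refine not_lt.2 ?_ (show _ < XI d (B.K.pat x) k n a + XII d (B.K.pat x) (B.Bb j M x) k n a from hx)
  rw [ENNReal.coe_add, ENNReal.coe_one]
  exact add_le_add hn.1 hn.2

/-- all outputs hold for every large step -/
theorem eventually_out (hl : B.LipAll) :
    ∀ᶠ d in atTop, B.K.Good d ∧ B.OutI d ∧ B.OutII d ∧ B.OutTop d := by
  obtain ⟨s, p, hs0, hs', hs, h1, h2, hp⟩ := B.exists_exp
  filter_upwards [B.eventually_goodB hl (by rwa [abs_of_pos hs0]) hp] with d hd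
  have a1 := B.outI hl hd.1
  have a2 := B.outII hl hd hs0.le hs hs' h1 h2
  exact ⟨hd.1, a1, a2, B.outTop hl hd.1.1 a1 a2⟩

theorem exists_out (hl : B.LipAll) : ∃ d, B.K.Good d ∧ B.OutI d ∧ B.OutII d ∧ B.OutTop d :=
  (B.eventually_out hl).exists

end BCasc

end Pool.Agent.Lib.MP_0d9445_pr.Bd
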