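import Pool.Agent.Lib.MP_0d9445_pr.Bd.Dbl

/-! The chain distance and the boundary blocking event. -/

open MeasureTheory ProbabilityTheory Set Filter Topology Real LQ.Met
open scoped NNReal ENNReal ComplexConjugate

noncomputable section

namespace Pool.Agent.Lib.MP_0d9445_pr.Bd

open CR PPP Walk EN

theorem countable_Qc : Qc.Countable := countable_range _

theorem dense_Qc : Dense Qc := by
  have h : DenseRange fun q : ℚ × ℚ => ((q.1 : ℝ), (q.2 : ℝ)) :=
    Rat.denseRange_cast.prodMap Rat.denseRange_cast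
  exact (Complex.equivRealProdCLM.symm.surjective.denseRange).comp h
    Complex.equivRealProdCLM.symm.continuous

theorem exists_rat_sq {V : Set ℂ} (hV : IsOpen V) {p : ℂ} (hp : p ∈ V) :
    ∃ w : Sq, w.1 ∈ Qc ∧ w.2 ∈ range ((↑) : ℚ → ℝ) ∧ w.o ⊆ V ∧ p ∈ w.o := by
  obtain ⟨ε, hε, hb⟩ := Metric.isOpen_iff.1 hV p hp
  obtain ⟨r, hr0, hr⟩ := exists_rat_btwn (show 0 < ε / 3 by positivity)
  obtain ⟨q, hq, hqp⟩ := dense_Qc.exists_dist_lt p hr0
  rw [dist_eq_norm] at hqp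
  refine ⟨(q, r), hq, ⟨r, rfl⟩, fun z hz => hb ?_, ?_, ?_⟩
  · have h1 := norm_le_of_csq (osq_subset_csq _ _ hz)
    have h2 := dist_triangle_right z p q
    rw [dist_eq_norm z q, dist_eq_norm p q] at h2
    rw [Metric.mem_ball]
    simp only at h1
    linarith
  · exact (Complex.abs_re_le_norm (p - q)).trans_lt hqp
  · exact (Complex.abs_im_le_norm (p - q)).trans_lt hqp

/-- one admissible step of a chain -/
def Step (V : Set ℂ) (d : Met) (w : Sq) (a b : ℂ) : Prop :=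
  w.1 ∈ Qc ∧ w.2 ∈ range ((↑) : ℚ → ℝ) ∧ w.o ⊆ V ∧ a ∈ w.o ∧ b ∈ w.o ∧
    T w d (a, b) < T w d (a, w.1 + w.2)

section core

variable {V : Set ℂ} {d : Met} {x y : ℂ}

theorem cd_le_of_chain {k : ℕ} {z : ℕ → ℂ} {w : ℕ → Sq} (h : Chain V d x y k z w) :
    cd V d x y ≤ ∑ i ∈ Finset.range k, ENNReal.ofReal (T (w i) d (z i, z (i + 1))) :=
  iInf_le_of_le k (iInf_le_of_le z (iInf_le_of_le w (iInf_le _ h)))

theorem cd_self (V : Set ℂ) (d : Met) (x : ℂ) : cd V d x x = 0 :=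
  le_antisymm (by
    simpa using cd_le_of_chain (V := V) (d := d) (k := 0) (z := fun _ => x) (w := fun _ => (0, 0))
      ⟨rfl, rfl, fun _ _ h => absurd h (Nat.not_lt_zero _), fun _ h => absurd h (Nat.not_lt_zero _)⟩)
    zero_le

theorem cd_le_one {w : Sq} (h : Step V d w x y) : cd V d x y ≤ ENNReal.ofReal (T w d (x, y)) := by
  simpa using cd_le_of_chain (V := V) (d := d) (k := 1) (z := fun i => if i = 0 then x else y)
    (w := fun _ => w) ⟨rfl, rfl, fun i h1 h2 => by omega, fun i hi => by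
      obtain rfl : i = 0 := by omega
      exact h⟩

theorem cd_le_add {q : ℂ} (hq : q ∈ Qc) {w₀ : Sq} (h : Step V d w₀ q y) :
    cd V d x y ≤ cd V d x q + ENNReal.ofReal (T w₀ d (q, y)) := by
  conv_rhs => unfold cd
  simp only [ENNReal.iInf_add]
  refine le_iInf fun k => le_iInf fun z => le_iInf fun w => le_iInf fun c => ?_
  have e1 : ∀ i ≤ k, Function.update z (k + 1) y i = z i := fun i hi =>
    Function.update_of_ne (by omega) _ _
  have e2 : ∀ i < k, Function.update w k w₀ i = w i := fun i hi =>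
    Function.update_of_ne (by omega) _ _
  have c' : Chain V d x y (k + 1) (Function.update z (k + 1) y) (Function.update w k w₀) := by
    refine ⟨by rw [e1 0 (Nat.zero_le _), c.src], Function.update_self .., fun i h1 h2 => ?_,
      fun i hi => ?_⟩
    · rw [e1 i (by omega)]
      rcases (Nat.lt_succ_iff.1 h2).eq_or_lt with rfl | h3
      · rwa [c.tgt]
      · exact c.rat i h1 h3
    · rcases (Nat.lt_succ_iff.1 hi).eq_or_lt with rfl | h3
      · rw [e1 i le_rfl, Function.update_self, Function.update_self, c.tgt]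
        exact h
      · rw [e1 i h3.le, e1 (i + 1) h3, e2 i h3]
        exact c.sq i h3
  refine (cd_le_of_chain c').trans (le_of_eq ?_)
  rw [Finset.sum_range_succ, e1 k le_rfl, Function.update_self, Function.update_self, c.tgt]
  congr 1
  refine Finset.sum_congr rfl fun i hi => ?_
  have h3 := Finset.mem_range.1 hi
  rw [e1 i h3.le, e1 (i + 1) h3, e2 i h3]

theorem pos_of_mem_o {w : Sq} {a : ℂ} (h : a ∈ w.o) : 0 < w.2 := (abs_nonneg _).trans_lt h.1

theorem T_edge (h : IsMet (Function.curry d)) (hl : IsLen (Function.curry d)) {w : Sq} {a : ℂ}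
    (ha : a ∈ w.o) : T w d (a, w.1 + w.2) = dOut (Function.curry d) w.o a := by
  have hw := pos_of_mem_o ha
  rw [T_eq_of_mem h hl hw (osq_subset_csq _ _ ha) (edge_mem_csq _ hw.le),
    TU_of_notMem_right h _ (edge_notMem_osq _ _)]

theorem Step.lt (h : IsMet (Function.curry d)) (hl : IsLen (Function.curry d)) {w : Sq} {a b : ℂ}
    (s : Step V d w a b) : T w d (a, b) = d (a, b) ∧ d (a, b) < dOut (Function.curry d) w.o a := by
  obtain ⟨-, -, -, ha, hb, hlt⟩ := s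
  rw [T_edge h hl ha] at hlt
  rw [T_eq_of_mem h hl (pos_of_mem_o ha) (osq_subset_csq _ _ ha) (osq_subset_csq _ _ hb)] at hlt ⊢
  have e := eq_of_TU_lt hlt
  exact ⟨e, e.symm.trans_lt hlt⟩

/-- near a point of a square all pairs are closer than the boundary -/
theorem exists_nhds_lt (h : IsMet (Function.curry d)) {w : Sq} {p : ℂ} (hp : p ∈ w.o) :
    ∃ N ∈ 𝓝 p, ∀ a ∈ N, ∀ b ∈ N, a ∈ w.o ∧ b ∈ w.o ∧ d (a, b) < dOut (Function.curry d) w.o a := by
  have ho := Pool.Agent.Lib.MP_0d9445_pr.isOpen_osq w.1 w.2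
  have h1 : IsOpen {q : ℂ × ℂ | d q < dOut (Function.curry d) w.o q.1} :=
    isOpen_lt d.continuous ((continuous_dOut h _).comp continuous_fst)
  have h2 : (p, p) ∈ {q : ℂ × ℂ | d q < dOut (Function.curry d) w.o q.1} := by
    have e : d (p, p) = 0 := h.self p
    show d (p, p) < _
    rw [e]
    exact dOut_pos h ho (compl_osq_nonempty _ _) hp
  obtain ⟨N₁, m₁, N₂, m₂, hs⟩ := mem_nhds_prod_iff.1 (h1.mem_nhds h2)
  exact ⟨N₁ ∩ N₂ ∩ w.o, inter_mem (inter_mem m₁ m₂) (ho.mem_nhds hp), fun a ha b hb =>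
    ⟨ha.2, hb.2, hs (mk_mem_prod ha.1.1 hb.1.2)⟩⟩

theorem exists_nhds_step (h : IsMet (Function.curry d)) (hl : IsLen (Function.curry d))
    (hV : IsOpen V) {p : ℂ} (hp : p ∈ V) :
    ∃ w : Sq, ∃ N ∈ 𝓝 p, ∀ a ∈ N, ∀ b ∈ N, Step V d w a b := by
  obtain ⟨w, h1, h2, h3, h4⟩ := exists_rat_sq hV hp
  obtain ⟨N, hN, hab⟩ := exists_nhds_lt h h4
  refine ⟨w, N, hN, fun a ha b hb => ?_⟩
  obtain ⟨k1, k2, k3⟩ := hab a ha b hb
  refine ⟨h1, h2, h3, k1, k2, ?_⟩
  rw [T_edge h hl k1, T_eq_of_mem h hl (pos_of_mem_o k1) (osq_subset_csq _ _ k1)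
    (osq_subset_csq _ _ k2)]
  exact (TU_le _ _ _ _).trans_lt k3

theorem DU_le_cd (h : IsMet (Function.curry d)) (hl : IsLen (Function.curry d)) (hx : x ∈ V) :
    DU (Function.curry d) V x y ≤ cd V d x y := by
  refine le_iInf fun k => le_iInf fun z => le_iInf fun w => le_iInf fun c => ?_
  have key : ∀ j ≤ k, DU (Function.curry d) V x (z j) ≤
      ∑ i ∈ Finset.range j, ENNReal.ofReal (T (w i) d (z i, z (i + 1))) := by
    intro j
    induction j with
    | zero => intro _; rw [c.src, DU_self h hx]; exact zero_le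
    | succ j ih =>
      intro hj
      have s : Step V d (w j) (z j) (z (j + 1)) := c.sq j hj
      obtain ⟨e, hlt⟩ := s.lt h hl
      rw [Finset.sum_range_succ, e]
      refine (DU_triangle h V x (z j) _).trans (add_le_add (ih (by omega)) ?_)
      exact (DU_anti _ s.2.2.1 _ _).trans (DU_eq_of_lt_dOut h hl hlt).le
  exact c.tgt ▸ key k le_rfl

/-- induction along a path -/
theorem path_induct {P : ℝ → ℂ} {L : ℝ} (hL : 0 ≤ L) (hP : ContinuousOn P (Icc 0 L))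
    {Φ : ℝ → Prop} (h0 : Φ 0) (h : ∀ τ ∈ Icc 0 L, ∃ N ∈ 𝓝 (P τ), ∀ s t, 0 ≤ s → s ≤ t → t ≤ L →
      P s ∈ N → P t ∈ N → Φ s → Φ t) : Φ L := by
  set A := {t | t ∈ Icc 0 L ∧ Φ t}
  have hA : A.Nonempty := ⟨0, ⟨le_rfl, hL⟩, h0⟩
  have hb : BddAbove A := ⟨L, fun t ht => ht.1.2⟩
  have hτ : sSup A ∈ Icc 0 L := ⟨le_csSup hb ⟨⟨le_rfl, hL⟩, h0⟩, csSup_le hA fun t ht => ht.1.2⟩
  obtain ⟨N, hN, hst⟩ := h _ hτ
  obtain ⟨δ, hδ, hball⟩ := Metric.mem_nhdsWithin_iff.1 (hP _ hτ hN)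
  obtain ⟨s, hs, hs'⟩ := exists_lt_of_lt_csSup hA (show sSup A - δ < sSup A by linarith)
  have hsτ := le_csSup hb hs
  have ht : min L (sSup A + δ / 2) ∈ Icc 0 L :=
    ⟨le_min hL (by linarith [hτ.1]), min_le_left _ _⟩
  have hτt : sSup A ≤ min L (sSup A + δ / 2) := le_min hτ.2 (by linarith)
  have hΦ := hst s _ hs.1.1 (hsτ.trans hτt) ht.2
    (hball ⟨by rw [Metric.mem_ball, Real.dist_eq, abs_lt]; constructor <;> linarith, hs.1⟩)
    (hball ⟨by
      rw [Metric.mem_ball, Real.dist_eq, abs_lt]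
      constructor <;> linarith [min_le_right L (sSup A + δ / 2)], ht⟩) hs.2
  have h1 := le_csSup hb ⟨ht, hΦ⟩
  rcases min_le_iff.1 h1 with h2 | h2
  · rwa [min_eq_left (by linarith)] at hΦ
  · linarith

theorem UP_dist (h : IsMet (Function.curry d)) {L : ℝ} {P : ℝ → ℂ}
    (u : UP (Function.curry d) x y L P) {s t : ℝ} (hs : 0 ≤ s) (hst : s ≤ t) (ht : t ≤ L) :
    d (P s, P t) ≤ t - s := u.lip h hs hst ht

theorem cd_le_DU (h : IsMet (Function.curry d)) (hl : IsLen (Function.curry d)) (hV : IsOpen V) :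
    cd V d x y ≤ DU (Function.curry d) V x y := by
  refine le_of_forall_gt_imp_ge_of_dense fun c hc => ?_
  rcases eq_or_ne c ∞ with rfl | hne
  · exact le_top
  rw [← ENNReal.ofReal_toReal hne] at hc ⊢
  obtain ⟨L, P, u, hm, hL⟩ := exists_UP_of_DU_lt h hc
  have near : ∀ (p : ℂ) (ε : ℝ), 0 < ε → ∀ᶠ b in 𝓝 p, d (p, b) < ε := fun p ε hε =>
    (h.cont_right p).continuousAt.eventually_lt continuousAt_const (by
      show Function.curry d p p < ε
      rwa [h.self])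
  have key : ∀ ε > 0, ∀ᶠ b in 𝓝 (P L), cd V d x b ≤ ENNReal.ofReal (L + ε) := by
    refine path_induct (Φ := fun t => ∀ ε > 0, ∀ᶠ b in 𝓝 (P t), cd V d x b ≤ ENNReal.ofReal (t + ε))
      u.nonneg u.cont (fun ε hε => ?_) fun τ hτ => ?_
    · obtain ⟨w, N, hN, hs⟩ := exists_nhds_step h hl hV (hm ⟨le_rfl, u.nonneg⟩)
      rw [u.src] at hN ⊢
      filter_upwards [hN, near x ε hε] with b b1 b2
      have s := hs x (mem_of_mem_nhds hN) b b1
      refine (cd_le_one s).trans (ENNReal.ofReal_le_ofReal ?_)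
      rw [(s.lt h hl).1]
      linarith
    · obtain ⟨w, N, hN, hs⟩ := exists_nhds_step h hl hV (hm hτ)
      refine ⟨interior N, interior_mem_nhds.2 hN, fun s t s0 st tL sN tN hΦ ε hε => ?_⟩
      have hε3 : 0 < ε / 3 := by positivity
      obtain ⟨q, hq, ⟨q1, q2⟩, q3⟩ := dense_Qc.inter_nhds_nonempty (inter_mem (inter_mem
        (hΦ _ hε3) (near _ _ hε3)) (mem_interior_iff_mem_nhds.1 sN))
      filter_upwards [mem_interior_iff_mem_nhds.1 tN, near (P t) _ hε3] with b b1 b2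
      have st' := hs q q3 b b1
      refine (cd_le_add hq st').trans ?_
      have t1 : d (q, b) ≤ d (q, P s) + d (P s, b) := h.tri q (P s) b
      have t2 : d (P s, b) ≤ d (P s, P t) + d (P t, b) := h.tri (P s) (P t) b
      have t3 : d (q, P s) = d (P s, q) := h.symm q (P s)
      have t4 := UP_dist h u s0 st tL
      have t5 : d (P s, q) < ε / 3 := q2
      have t6 : 0 ≤ d (q, b) := h.nonneg q b
      rw [(st'.lt h hl).1]
      refine (add_le_add q1 le_rfl).trans ?_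
      rw [← ENNReal.ofReal_add (by linarith) t6]
      exact ENNReal.ofReal_le_ofReal (by linarith)
  have := (key (c.toReal - L) (by linarith)).self_of_nhds
  rwa [u.tgt, add_sub_cancel] at this

theorem cd_eq_DU (h : IsMet (Function.curry d)) (hl : IsLen (Function.curry d)) (hV : IsOpen V)
    (hx : x ∈ V) : cd V d x y = DU (Function.curry d) V x y :=
  le_antisymm (cd_le_DU h hl hV) (DU_le_cd h hl hx)

theorem cd_of_notMem (hx : x ∉ V) (hxy : x ≠ y) : cd V d x y = ∞ := by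
  refine top_le_iff.1 (le_iInf fun k => le_iInf fun z => le_iInf fun w => le_iInf fun c => ?_)
  rcases k.eq_zero_or_pos with rfl | hk
  · exact absurd (c.src.symm.trans c.tgt) hxy
  · obtain ⟨-, -, h1, h2, -⟩ := c.sq 0 hk
    exact absurd (c.src ▸ h1 h2) hx

/-- the chain distance only sees the local parts in the squares inside `V` -/
theorem cd_le_mul {d' : Met} {κ : ℝ} (hκ : 0 < κ)
    (h : ∀ w : Sq, 0 < w.2 → w.o ⊆ V → ∀ p, T w d' p = κ * T w d p) :
    cd V d' x y ≤ ENNReal.ofReal κ * cd V d x y := by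
  have h0 : ENNReal.ofReal κ ≠ 0 := (ENNReal.ofReal_pos.2 hκ).ne'
  conv_rhs => unfold cd
  simp only [ENNReal.mul_iInf_of_ne h0 ENNReal.ofReal_ne_top]
  refine le_iInf fun k => le_iInf fun z => le_iInf fun w => le_iInf fun c => ?_
  have e : ∀ i < k, ∀ p, T (w i) d' p = κ * T (w i) d p := fun i hi =>
    h _ (pos_of_mem_o (c.sq i hi).2.2.2.1) (c.sq i hi).2.2.1
  have c' : Chain V d' x y k z w := ⟨c.src, c.tgt, c.rat, fun i hi => by
    obtain ⟨a1, a2, a3, a4, a5, a6⟩ := c.sq i hi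
    refine ⟨a1, a2, a3, a4, a5, ?_⟩
    rw [e i hi, e i hi]
    exact mul_lt_mul_of_pos_left a6 hκ⟩
  refine (cd_le_of_chain c').trans (le_of_eq ?_)
  rw [Finset.mul_sum]
  exact Finset.sum_congr rfl fun i hi => by
    rw [e i (Finset.mem_range.1 hi), ENNReal.ofReal_mul hκ.le]

theorem cd_eq_mul {d' : Met} {κ : ℝ} (hκ : 0 < κ)
    (h : ∀ w : Sq, 0 < w.2 → w.o ⊆ V → ∀ p, T w d' p = κ * T w d p) :
    cd V d' x y = ENNReal.ofReal κ * cd V d x y := by
  refine le_antisymm (cd_le_mul hκ h) ?_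
  have h1 : cd V d x y ≤ ENNReal.ofReal κ⁻¹ * cd V d' x y :=
    cd_le_mul (inv_pos.2 hκ) fun w h1 h2 p => by rw [h w h1 h2, inv_mul_cancel_left₀ hκ.ne']
  refine (mul_le_mul_right h1 _).trans (le_of_eq ?_)
  rw [← mul_assoc, ← ENNReal.ofReal_mul hκ.le, mul_inv_cancel₀ hκ.ne', ENNReal.ofReal_one, one_mul]

theorem cd_congr {d' : Met} (hU : V ⊆ UH)
    (h : ∀ x ∈ closure UH, ∀ y ∈ closure UH, d' (x, y) = d (x, y)) : cd V d' x y = cd V d x y :=
  (cd_eq_mul (d := d) one_pos fun w h1 h2 p => by rw [T_congr h1 (h2.trans hU) h, one_mul]).trans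
    (by rw [ENNReal.ofReal_one, one_mul])

theorem T_smul {κ : ℝ} (hκ : 0 < κ) (w : Sq) (d : Met) (p : ℂ × ℂ) :
    T w (κ • d) p = κ * T w d p := by
  show min (κ * d (proj w p.1, proj w p.2))
      (sInf ((fun u => κ * d (proj w p.1, u)) '' frontier w.o)) =
    κ * min (d (proj w p.1, proj w p.2)) (sInf ((fun u => d (proj w p.1, u)) '' frontier w.o))
  rw [mul_min_of_nonneg _ _ hκ.le, ← smul_eq_mul κ (sInf _), ← Real.sInf_smul_of_nonneg hκ.le,
    ← Set.image_smul, image_image]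
  rfl

theorem cd_smul {κ : ℝ} (hκ : 0 < κ) : cd V (κ • d) x y = ENNReal.ofReal κ * cd V d x y :=
  cd_eq_mul hκ fun w _ _ p => T_smul hκ w d p

/-- the points of a chain with prescribed rational data -/
def cdZ (x y : ℂ) (k : ℕ) (a : Fin k → Qc) (i : ℕ) : ℂ :=
  if i = 0 then x else if h : i < k then a ⟨i, h⟩ else y

/-- the squares of a chain with prescribed rational data -/
def cdW (k : ℕ) (b : Fin k → Qc × ℚ) (i : ℕ) : Sq :=
  if h : i < k then ((b ⟨i, h⟩).1, (b ⟨i, h⟩).2) else (0, 0)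

theorem cd_eq_countable (V : Set ℂ) (d : Met) (x y : ℂ) : cd V d x y =
    ⨅ (k : ℕ) (a : Fin k → Qc) (b : Fin k → Qc × ℚ) (_ : Chain V d x y k (cdZ x y k a) (cdW k b)),
      ∑ i ∈ Finset.range k,
        ENNReal.ofReal (T (cdW k b i) d (cdZ x y k a i, cdZ x y k a (i + 1))) := by
  refine le_antisymm (le_iInf fun k => le_iInf fun a => le_iInf fun b => le_iInf fun c =>
    cd_le_of_chain c) (le_iInf fun k => le_iInf fun z => le_iInf fun w => le_iInf fun c => ?_)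
  have ha : ∀ i : Fin k, ∃ q : Qc, 0 < i.1 → (q : ℂ) = z i := fun i => by
    by_cases h : 0 < i.1
    · exact ⟨⟨z i, c.rat i h i.2⟩, fun _ => rfl⟩
    · exact ⟨⟨_, (0, 0), rfl⟩, fun h' => absurd h' h⟩
  have hb : ∀ i : Fin k, ∃ q : Qc × ℚ, ((q.1 : ℂ), (q.2 : ℝ)) = w i := fun i => by
    obtain ⟨h1, ⟨r, hr⟩, -⟩ := c.sq i i.2
    exact ⟨(⟨_, h1⟩, r), Prod.ext rfl hr⟩
  choose a ha using ha
  choose b hb using hb
  have e1 : ∀ i ≤ k, cdZ x y k a i = z i := fun i hi => by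
    unfold cdZ
    split_ifs with h1 h2
    · rw [h1, c.src]
    · exact ha ⟨i, h2⟩ (Nat.pos_of_ne_zero h1)
    · rw [show i = k by omega, c.tgt]
  have e2 : ∀ i < k, cdW k b i = w i := fun i hi => by
    unfold cdW
    rw [dif_pos hi]
    exact hb ⟨i, hi⟩
  have c' : Chain V d x y k (cdZ x y k a) (cdW k b) :=
    ⟨by rw [e1 0 (Nat.zero_le _), c.src], by rw [e1 k le_rfl, c.tgt],
      fun i h1 h2 => by rw [e1 i h2.le]; exact c.rat i h1 h2,
      fun i hi => by rw [e1 i hi.le, e1 (i + 1) hi, e2 i hi]; exact c.sq i hi⟩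
  refine iInf_le_of_le k (iInf_le_of_le a (iInf_le_of_le b (iInf_le_of_le c' (le_of_eq ?_))))
  exact Finset.sum_congr rfl fun i hi => by
    have h3 := Finset.mem_range.1 hi
    rw [e1 i h3.le, e1 (i + 1) h3, e2 i h3]

theorem aff_mem_Qc {s : ℝ} (hs : s ∈ range ((↑) : ℚ → ℝ)) {b z : ℂ} (hb : b ∈ Qc) (hz : z ∈ Qc) :
    s * z + b ∈ Qc := by
  obtain ⟨r, rfl⟩ := hs
  obtain ⟨p, rfl⟩ := hb
  obtain ⟨q, rfl⟩ := hz
  exact ⟨(r * q.1 + p.1, r * q.2 + p.2), Complex.ext (by simp) (by simp)⟩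

theorem cd_pull_le {s : ℝ} (h0 : 0 < s) (hs : s ∈ range ((↑) : ℚ → ℝ)) {b : ℂ} (hb : b ∈ Qc)
    {V' : Set ℂ} (hV : ∀ z ∈ V', s * z + b ∈ V) (c : Cf) (x y : ℂ) :
    cd V c.1 (s * x + b) (s * y + b) ≤ cd V' (pull s b c).1 x y := by
  have h := sim_real h0
  have hn : ‖(s : ℂ)‖ = s := by rw [Complex.norm_real, norm_eq_abs, abs_of_pos h0]
  refine le_iInf fun k => le_iInf fun z => le_iInf fun w => le_iInf fun ch => ?_
  have e : ∀ i < k, ∀ p, T (w i) (pull s b c).1 p =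
      T (img s b (w i)) c.1 (s * p.1 + b, s * p.2 + b) := fun i hi p =>
    h.T_pull (pos_of_mem_o (ch.sq i hi).2.2.2.1).le c p
  have c' : Chain V c.1 (s * x + b) (s * y + b) k (fun i => s * z i + b)
      fun i => img s b (w i) := by
    refine ⟨by rw [ch.src], by rw [ch.tgt], fun i h1 h2 => aff_mem_Qc hs hb (ch.rat i h1 h2),
      fun i hi => ?_⟩
    obtain ⟨a1, ⟨r, a2⟩, a3, a4, a5, a6⟩ := ch.sq i hi
    obtain ⟨r', hr'⟩ := hs
    refine ⟨aff_mem_Qc ⟨r', hr'⟩ hb a1, ⟨r' * r, ?_⟩, fun p hp => ?_, (h.mem_img _ _).2 a4,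
      (h.mem_img _ _).2 a5, ?_⟩
    · show ((r' * r : ℚ) : ℝ) = ‖(s : ℂ)‖ * (w i).2
      rw [hn, Rat.cast_mul, hr', a2]
    · have := hV _ (a3 ((h.mem_img' (b := b) (w i) p).2 hp))
      rwa [mul_div_add h.ne] at this
    · rw [e i hi, e i hi] at a6
      convert a6 using 3
      show s * (w i).1 + b + ((‖(s : ℂ)‖ * (w i).2 : ℝ) : ℂ) = _
      rw [hn]
      push_cast
      ring
  exact (cd_le_of_chain c').trans (le_of_eq (Finset.sum_congr rfl fun i hi => by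
    rw [e i (Finset.mem_range.1 hi)]))

theorem cd_pull {s : ℝ} (h0 : 0 < s) (hs : s ∈ range ((↑) : ℚ → ℝ)) {b : ℂ} (hb : b ∈ Qc)
    {V' : Set ℂ} (hV : ∀ z, z ∈ V' ↔ s * z + b ∈ V) (c : Cf) (x y : ℂ) :
    cd V' (pull s b c).1 x y = cd V c.1 (s * x + b) (s * y + b) := by
  refine le_antisymm ?_ (cd_pull_le h0 hs hb (fun z => (hV z).1) c x y)
  have hne : (s : ℂ) ≠ 0 := Complex.ofReal_ne_zero.2 h0.ne'
  have hs' : ∀ σ : ℚ, (σ : ℝ) * s⁻¹ ∈ range ((↑) : ℚ → ℝ) := fun σ => by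
    obtain ⟨r, rfl⟩ := hs
    exact ⟨σ * r⁻¹, by simp⟩
  have hb' : (((-1 : ℚ) * s⁻¹ : ℝ) : ℂ) * b + 0 ∈ Qc := aff_mem_Qc (hs' _) ⟨(0, 0), by
    apply Complex.ext <;> simp⟩ hb
  have e1 : ∀ z : ℂ, (s : ℂ) * ((s⁻¹ : ℝ) * z + ((((-1 : ℚ) * s⁻¹ : ℝ) : ℂ) * b + 0)) + b = z :=
    fun z => by
      push_cast
      field_simp
      ring
  have e2 : ∀ z : ℂ, (s⁻¹ : ℝ) * ((s : ℂ) * z + b) + ((((-1 : ℚ) * s⁻¹ : ℝ) : ℂ) * b + 0) = z :=
    fun z => by
      push_cast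
      field_simp
      ring
  have h1 := cd_pull_le (V := V') (V' := V) (inv_pos.2 h0) (by simpa using hs' 1) hb'
    (fun z hz => (hV _).2 (by rwa [e1])) (pull s b c) (s * x + b) (s * y + b)
  rw [e2, e2] at h1
  refine h1.trans (le_of_eq ?_)
  congr 1
  ext p
  show c.1 (s * ((s⁻¹ : ℝ) * p.1 + _) + b, s * ((s⁻¹ : ℝ) * p.2 + _) + b) = c.1 p
  rw [e1, e1]

end core

variable {d d₁ d₂ : Met} {Y Y₁ Y₂ : Set ℂ} {lam : ℝ} {j j' m n : ℕ} {a : ℤ}

theorem isOpen_oR (n : ℕ) (a : ℤ) (r : ℝ) : IsOpen (oR n a r) :=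
  (isOpen_lt (f := fun z : ℂ => |z.re - sc n * (a + 1 / 2)|) (by fun_prop) continuous_const).inter
    (isOpen_lt (f := fun z : ℂ => |z.im|) (by fun_prop) continuous_const)

theorem isClosed_cR (n : ℕ) (a : ℤ) (r : ℝ) : IsClosed (cR n a r) :=
  (isClosed_le (f := fun z : ℂ => |z.re - sc n * (a + 1 / 2)|) (by fun_prop) continuous_const).inter
    (isClosed_le (f := fun z : ℂ => |z.im|) (by fun_prop) continuous_const)

theorem Cd_isOpen_UH : IsOpen UH := isOpen_lt continuous_const Complex.continuous_im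

theorem isOpen_fr (n : ℕ) (a : ℤ) : IsOpen (fr n a) :=
  ((isOpen_oR n a 3).sdiff (isClosed_cR n a 1)).inter Cd_isOpen_UH

theorem isOpen_above (m : ℕ) : IsOpen (above m) := isOpen_lt continuous_const Complex.continuous_im

theorem above_subset (m : ℕ) : above m ⊆ UH := fun _ hz => (CR.sc_pos m).trans hz

theorem cd_eq_of_agree {d' : Met} (h : IsMet (Function.curry d')) (hl : IsLen (Function.curry d'))
    (he : ∀ x ∈ closure UH, ∀ y ∈ closure UH, d' (x, y) = d (x, y)) {V : Set ℂ} (hV : IsOpen V)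
    (hU : V ⊆ UH) {x : ℂ} (hx : x ∈ V) (y : ℂ) : cd V d x y = DU (Function.curry d') V x y := by
  rw [← cd_congr hU he, cd_eq_DU h hl hV hx]

theorem cd_eq' (h : GoodH d) {V : Set ℂ} (hV : IsOpen V) (hU : V ⊆ UH) {x : ℂ} (hx : x ∈ V)
    (y : ℂ) : cd V d x y = DU (Function.curry d) V x y := by
  obtain ⟨d', h1, h2, h3⟩ := h
  rw [cd_eq_of_agree h1 h2 h3 hV hU hx]
  exact iInf_congr fun _ => iInf_congr fun p => iSup_congr fun q =>
    Finset.sum_congr rfl fun _ _ => by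
      rw [Function.curry_apply, Function.curry_apply, h3 _
        (subset_closure (hU (p.maps (q.2.2.2 _)))) _ (subset_closure (hU (p.maps (q.2.2.2 _))))]

theorem cd_eq (h : GoodH d) {V : Set ℂ} (hV : IsOpen V) (hU : V ⊆ UH) {x y : ℂ} (hx : x ∈ V)
    (hy : y ∈ V) : cd V d x y = DU (Function.curry d) V x y :=
  (fun _ : y ∈ V => cd_eq' h hV hU hx y) hy

theorem measurable_cd (V : Set ℂ) : Measurable[(GG V).prod inferInstance]
    fun p : Cf × ℂ × ℂ => cd V p.1.1 p.2.1 p.2.2 := by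
  classical
  have hev : Measurable fun r : Met × ℂ × ℂ => r.1 r.2 := Continuous.measurable (by fun_prop)
  have hloc : ∀ w : Sq, w.o ⊆ V → Measurable[GG V] fun c : Cf => T w c.1 := fun w hw =>
    measurable_fst.comp (measurable_loc_GG hw)
  let _ : MeasurableSpace Cf := GG V
  have : Countable Qc := countable_Qc.to_subtype
  simp only [cd_eq_countable]
  refine Measurable.iInf fun k => Measurable.iInf fun a => Measurable.iInf fun b => ?_
  by_cases hV : ∀ i < k, (cdW k b i).o ⊆ V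
  · have hz : ∀ i, Measurable fun p : Cf × ℂ × ℂ => cdZ p.2.1 p.2.2 k a i := fun i => by
      unfold cdZ
      split_ifs
      · exact measurable_snd.fst
      · exact measurable_const
      · exact measurable_snd.snd
    have hT : ∀ i < k, ∀ f g : Cf × ℂ × ℂ → ℂ, Measurable f → Measurable g →
        Measurable fun p : Cf × ℂ × ℂ => T (cdW k b i) p.1.1 (f p, g p) := fun i hi f g hf hg =>
      hev.comp (((hloc _ (hV i hi)).comp measurable_fst).prodMk (hf.prodMk hg))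
    simp only [iInf_eq_if]
    refine Measurable.ite ?_ (Finset.measurable_sum _ fun i hi =>
      (hT i (Finset.mem_range.1 hi) _ _ (hz i) (hz (i + 1))).ennreal_ofReal) measurable_const
    have e : {p : Cf × ℂ × ℂ | Chain V p.1.1 p.2.1 p.2.2 k (cdZ p.2.1 p.2.2 k a) (cdW k b)} =
        {p | cdZ p.2.1 p.2.2 k a k = p.2.2} ∩ ⋂ i < k,
          ((fun p => cdZ p.2.1 p.2.2 k a i) ⁻¹' (cdW k b i).o ∩
            ((fun p => cdZ p.2.1 p.2.2 k a (i + 1)) ⁻¹' (cdW k b i).o ∩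
            {p | T (cdW k b i) p.1.1 (cdZ p.2.1 p.2.2 k a i, cdZ p.2.1 p.2.2 k a (i + 1)) <
              T (cdW k b i) p.1.1 (cdZ p.2.1 p.2.2 k a i, (cdW k b i).1 + (cdW k b i).2)})) := by
      ext p
      simp only [mem_ofPred_eq, mem_inter_iff, mem_iInter, mem_preimage]
      refine ⟨fun c => ⟨c.tgt, fun i hi => (c.sq i hi).2.2.2⟩, fun c =>
        ⟨if_pos rfl, c.1, fun i h1 h2 => ?_, fun i hi => ⟨?_, ?_, hV i hi, c.2 i hi⟩⟩⟩
      · unfold cdZ
        rw [if_neg h1.ne', dif_pos h2]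
        exact (a _).2
      · unfold cdW
        rw [dif_pos hi]
        exact (b _).1.2
      · unfold cdW
        rw [dif_pos hi]
        exact ⟨_, rfl⟩
    rw [e]
    refine (measurableSet_eq_fun (hz k) measurable_snd.snd).inter
      (MeasurableSet.iInter fun i => MeasurableSet.iInter fun hi =>
        (hz i (measurableSet_o _)).inter ((hz (i + 1) (measurableSet_o _)).inter
          (measurableSet_lt (hT i hi _ _ (hz i) (hz (i + 1)))
            (hT i hi _ _ (hz i) measurable_const))))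
  · have e : ∀ p : Cf × ℂ × ℂ,
        ¬ Chain V p.1.1 p.2.1 p.2.2 k (cdZ p.2.1 p.2.2 k a) (cdW k b) := fun p c =>
      hV fun i hi => (c.sq i hi).2.2.1
    simp only [iInf_neg (e _)]
    exact measurable_const

theorem measurable_cd_comp (V : Set ℂ) {X : Type*} [MeasurableSpace X] {c : X → Cf}
    (hc : Measurable[_, GG V] c) {f g : X → ℂ} (hf : Measurable f) (hg : Measurable g) :
    Measurable fun p => cd V (c p).1 (f p) (g p) := by
  have h1 := measurable_cd V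
  generalize GG V = G at hc h1
  generalize cd V = F at h1
  exact h1.comp (f := fun p => (c p, f p, g p)) (hc.prodMk (hf.prodMk hg))

theorem Eb.anti (h : Eb lam j' m d Y n a) (hj : j ≤ j') : Eb lam j m d Y n a := by
  intro w hw h1
  refine h w hw (le_trans ?_ h1)
  obtain ⟨i, rfl⟩ := Nat.exists_eq_add_of_le hj
  rw [← add_assoc]
  exact sc_add_le _ _

theorem Eb.pts (h : Eb lam j m d Y₂ n a) (hY : Y₂ ∩ (fr n a ∩ above m) ⊆ Y₁) :
    Eb lam j m d Y₁ n a := fun w hw h1 =>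
  let ⟨x, hx, k⟩ := h w hw h1
  ⟨x, ⟨hY hx, hx.2⟩, k⟩

theorem measurableSet_Eb (lam : ℝ) (j m n : ℕ) (a : ℤ) :
    MeasurableSet[GGhat (fr n a ∩ above m)] {x : Xi | Eb lam j m x.1.1 (pts x.2.1) n a} := by
  have hA := (isOpen_fr n a).inter (isOpen_above m)
  refine ⟨?_, fun c x y x' y' h1 _ => ?_⟩
  · let _ : MeasurableSpace Cf := GG (fr n a ∩ above m)
    have : Countable Qc := countable_Qc.to_subtype
    have key : Measurable fun p : Cf × Tup => Eb lam j m p.1.1 (pts p.2) n a := by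
      refine PPP.measurable_prod_conf fun k => ?_
      have e : (fun p : Cf × (Fin k → ℂ) => Eb lam j m p.1.1 (pts (⟨k, p.2⟩ : Tup)) n a) =
          fun p => ∀ w : Qc, (w.1 ∈ cR n a 2 \ oR n a 2 ∧ sc (n + j) ≤ w.1.im) →
            ∃ i, p.2 i ∈ fr n a ∩ above m ∧ ∀ u : Qc, (u.1 ∈ fr n a ∩ above m ∧
              (u.1 ∈ oR n a (3 / 2) ∨ u.1 ∉ cR n a (5 / 2))) →
              ENNReal.ofReal lam * cd (fr n a ∩ above m) p.1.1 w (p.2 i) ≤
                cd (fr n a ∩ above m) p.1.1 w u / 2 := by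
        funext p
        refine propext ⟨fun h w hw => ?_, fun h w hw h1 => ?_⟩
        · obtain ⟨_, ⟨⟨i, rfl⟩, h2⟩, h3⟩ := h w ⟨hw.1, w.2⟩ hw.2
          exact ⟨i, h2, fun u hu => h3 u ⟨hu.1, u.2⟩ hu.2⟩
        · obtain ⟨i, h2, h3⟩ := h ⟨w, hw.2⟩ ⟨hw.1, h1⟩
          exact ⟨_, ⟨⟨i, rfl⟩, h2⟩, fun u hu h4 => h3 ⟨u, hu.2⟩ ⟨hu.1, h4⟩⟩
      rw [e]
      refine Measurable.forall fun w => measurable_const.imp (Measurable.exists fun i => ?_)
      have hi : Measurable fun p : Cf × (Fin k → ℂ) => p.2 i :=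
        (measurable_pi_apply i).comp measurable_snd
      refine Measurable.and (measurableSet_setOfPred.1 (hi hA.measurableSet))
        (Measurable.forall fun u => measurable_const.imp (measurableSet_setOfPred.1
          (measurableSet_le (Measurable.const_mul ?_ _) (Measurable.div_const ?_ _))))
      · exact measurable_cd_comp _ measurable_fst measurable_const hi
      · exact measurable_cd_comp _ measurable_fst measurable_const measurable_const
    exact measurableSet_setOfPred.2 (key.comp (measurable_fst.prodMk measurable_snd.fst))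
  · rw [hA.interior_eq] at h1
    exact ⟨fun k => k.pts fun _ hz => (h1.subset hz).1, fun k => k.pts fun _ hz => (h1.superset hz).1⟩

theorem Eb.mono {ξ K : ℝ} (h₁ : GoodH d₁) (h₂ : GoodH d₂) (hl : 0 ≤ lam)
    (hc : MClose ξ K (fr n a ∩ above m) d₁ d₂) (hY : Y₂ ∩ (fr n a ∩ above m) ⊆ Y₁)
    (h : Eb (lam * exp (2 * ξ * K)) j m d₂ Y₂ n a) : Eb lam j m d₁ Y₁ n a := by
  have hV := (isOpen_fr n a).inter (isOpen_above m)
  have hU : fr n a ∩ above m ⊆ UH := fun _ hz => hz.1.2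
  obtain ⟨κ, hκ, hT⟩ := hc
  intro w hw h1
  obtain ⟨x, hx, k⟩ := h w hw h1
  refine ⟨x, ⟨hY hx, hx.2⟩, fun u hu h2 => ?_⟩
  by_cases hwV : w ∈ fr n a ∩ above m
  · have k1 := k u hu h2
    have p1 : 0 < κ * exp (ξ * K) := by positivity
    have p2 : 0 < κ * exp (-(ξ * K)) := by positivity
    have a1 := DU_le_of_T h₁ h₂ hV hU p1 (fun s s1 s2 p => (hT s s1 s2 p).2) w x
    have a2 := DU_le_of_T h₂ h₁ hV hU (inv_pos.2 p2) (fun s s1 s2 p => by
      rw [le_inv_mul_iff₀ p2]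
      exact (hT s s1 s2 p).1) w u
    rw [cd_eq' h₂ hV hU hwV, cd_eq' h₂ hV hU hwV] at k1
    rw [cd_eq' h₁ hV hU hwV, cd_eq' h₁ hV hU hwV]
    have e : lam * (κ * exp (ξ * K)) = κ * exp (-(ξ * K)) * (lam * exp (2 * ξ * K)) := by
      rw [show ξ * K = -(ξ * K) + 2 * ξ * K by ring, exp_add]
      ring_nf
    calc ENNReal.ofReal lam * DU (Function.curry d₁) (fr n a ∩ above m) w x
        ≤ ENNReal.ofReal lam * (ENNReal.ofReal (κ * exp (ξ * K)) *
          DU (Function.curry d₂) (fr n a ∩ above m) w x) := by gcongr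
      _ = ENNReal.ofReal (κ * exp (-(ξ * K))) * (ENNReal.ofReal (lam * exp (2 * ξ * K)) *
          DU (Function.curry d₂) (fr n a ∩ above m) w x) := by
          rw [← mul_assoc, ← mul_assoc, ← ENNReal.ofReal_mul hl, ← ENNReal.ofReal_mul p2.le, e]
      _ ≤ ENNReal.ofReal (κ * exp (-(ξ * K))) * ((ENNReal.ofReal (κ * exp (-(ξ * K)))⁻¹ *
          DU (Function.curry d₁) (fr n a ∩ above m) w u) / 2) := by
          gcongr
          exact k1.trans (by gcongr)
      _ = _ := by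
          rw [← mul_div_assoc, ← mul_assoc, ← ENNReal.ofReal_mul p2.le, mul_inv_cancel₀ p2.ne',
            ENNReal.ofReal_one, one_mul]
  · rw [cd_of_notMem (y := u) hwV fun e => hwV (e ▸ hu.1), ENNReal.top_div_of_ne_top (by simp)]
    exact le_top

theorem Eb_smul {κ : ℝ} (hκ : 0 < κ) : Eb lam j m (κ • d) Y n a ↔ Eb lam j m d Y n a := by
  unfold Eb
  simp only [cd_smul hκ, mul_left_comm (ENNReal.ofReal lam), mul_div_assoc,
    ENNReal.mul_le_mul_iff_right (ENNReal.ofReal_pos.2 hκ).ne' ENNReal.ofReal_ne_top]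

theorem Eb_pull (a₀ : ℤ) (c : Cf) :
    Eb lam j m (pull (sc n : ℝ) (sc n * (a - a₀) : ℝ) c).1
      ((fun z => (z - (sc n * (a - a₀) : ℝ)) / (sc n : ℝ)) '' Y) 0 a₀ ↔
    Eb lam j (m + n) c.1 Y n a := by
  have h0 := CR.sc_pos n
  have hne : ((sc n : ℝ) : ℂ) ≠ 0 := Complex.ofReal_ne_zero.2 h0.ne'
  set b : ℂ := ((sc n * (a - a₀) : ℝ) : ℂ) with hb
  have hs : sc n ∈ range ((↑) : ℚ → ℝ) := ⟨2⁻¹ ^ n, by simp [sc]⟩
  have hbQ : b ∈ Qc := ⟨(2⁻¹ ^ n * (a - a₀), 0), by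
    apply Complex.ext
    · rw [hb, Complex.ofReal_re]
      simp [sc]
    · rw [hb, Complex.ofReal_im]
      simp⟩
  have s0 : sc 0 = 1 := pow_zero _
  have hre : ∀ z : ℂ, |(sc n * z + b).re - sc n * (a + 1 / 2)| =
      sc n * |z.re - sc 0 * (a₀ + 1 / 2)| := fun z => by
    rw [Complex.add_re, Complex.re_ofReal_mul, hb, Complex.ofReal_re, s0, ← abs_of_pos h0,
      ← abs_mul, abs_of_pos h0]
    congr 1
    ring
  have him : ∀ z : ℂ, (sc n * z + b).im = sc n * z.im := fun z => by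
    rw [Complex.add_im, Complex.im_ofReal_mul, hb, Complex.ofReal_im, add_zero]
  have ho : ∀ (r : ℝ) (z : ℂ), sc n * z + b ∈ oR n a r ↔ z ∈ oR 0 a₀ r := fun r z => by
    simp only [oR, mem_ofPred_eq, hre, him, abs_mul, abs_of_pos h0, s0, mul_one,
      mul_comm _ (sc n), mul_lt_mul_iff_right₀ h0]
  have hc : ∀ (r : ℝ) (z : ℂ), sc n * z + b ∈ cR n a r ↔ z ∈ cR 0 a₀ r := fun r z => by
    simp only [cR, mem_ofPred_eq, hre, him, abs_mul, abs_of_pos h0, s0, mul_one,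
      mul_comm _ (sc n), mul_le_mul_iff_right₀ h0]
  have hsc : ∀ i, sc (n + i) = sc n * sc i := fun i => sc_add n i
  have hV : ∀ z : ℂ, z ∈ fr 0 a₀ ∩ above m ↔ sc n * z + b ∈ fr n a ∩ above (m + n) := fun z => by
    simp only [fr, mem_inter_iff, Set.mem_sdiff, ho, hc, UH, above, mem_ofPred_eq, him, add_comm m n,
      hsc, mul_lt_mul_iff_right₀ h0, mul_pos_iff_of_pos_left h0]
  have hQ : ∀ z ∈ Qc, (z - b) / (sc n : ℝ) ∈ Qc := fun z hz => by
    obtain ⟨r, hr⟩ := hs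
    obtain ⟨p, hp⟩ := hbQ
    obtain ⟨q, rfl⟩ := hz
    refine ⟨((q.1 - p.1) / r, (q.2 - p.2) / r), ?_⟩
    rw [← hp, ← hr]
    apply Complex.ext
    · rw [Complex.div_ofReal_re]
      simp
    · rw [Complex.div_ofReal_im]
      simp
  have hh : ∀ z : ℂ, sc (n + j) ≤ (sc n * z + b).im ↔ sc (0 + j) ≤ z.im := fun z => by
    rw [him, hsc, zero_add, mul_le_mul_iff_right₀ h0]
  unfold Eb
  simp only [cd_pull h0 hs hbQ hV]
  constructor
  · intro k w hw h1
    obtain ⟨w, rfl⟩ : ∃ w', w = sc n * w' + b := ⟨_, (mul_div_add hne b w).symm⟩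
    have hw' := hQ _ hw.2
    rw [add_sub_div hne] at hw'
    obtain ⟨_, ⟨⟨x, hx, rfl⟩, h2⟩, h3⟩ := k w ⟨⟨(hc _ _).1 hw.1.1, fun t => hw.1.2 ((ho _ _).2 t)⟩,
      hw'⟩ ((hh _).1 h1)
    rw [hV, mul_div_add hne] at h2
    refine ⟨x, ⟨hx, h2⟩, fun u hu h4 => ?_⟩
    obtain ⟨u, rfl⟩ : ∃ u', u = sc n * u' + b := ⟨_, (mul_div_add hne b u).symm⟩
    have hu' := hQ _ hu.2
    rw [add_sub_div hne] at hu'
    rw [ho, hc] at h4
    have := h3 u ⟨(hV _).2 hu.1, hu'⟩ h4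
    rwa [mul_div_add hne] at this
  · intro k w hw h1
    obtain ⟨x, hx, h3⟩ := k (sc n * w + b) ⟨⟨(hc _ _).2 hw.1.1, fun t => hw.1.2 ((ho _ _).1 t)⟩,
      aff_mem_Qc hs hbQ hw.2⟩ ((hh _).2 h1)
    refine ⟨(x - b) / (sc n : ℝ), ⟨⟨x, hx.1, rfl⟩, (hV _).2 (by rw [mul_div_add hne]; exact hx.2)⟩,
      fun u hu h4 => ?_⟩
    rw [mul_div_add hne]
    exact h3 _ ⟨(hV _).1 hu.1, aff_mem_Qc hs hbQ hu.2⟩ (by rwa [ho, hc])

end Pool.Agent.Lib.MP_0d9445_pr.Bd
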