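import Pool.Agent.Lib.MP_0d9445_pr.Bd.Double
import Pool.Agent.Lib.MP_0d9445_pr.BM.Dynkin

/-! The two charts: the identity of the half-plane and the Cayley map onto the disc. -/

open MeasureTheory Set Filter Topology Metric
open scoped NNReal ENNReal Laplacian

noncomputable section

namespace Pool.Agent.Lib.MP_0d9445_pr.Bd

open BM

variable {W : Measure BM.Path}

/-- optional stopping for the real part of an entire function -/
theorem integral_re_exit (h : IsWiener W) {f : ℂ → ℂ} (hf : Differentiable ℂ f) {x : ℂ} {R : ℝ}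
    (hx : x ∈ ball (0 : ℂ) R) {U : Set ℂ} (hU : IsOpen U) (hUR : U ⊆ ball 0 R) :
    ∫ ω, (f (ω (exitT U ω).toNNReal)).re ∂(Px W x) = (f x).re := by
  have := h.prob_Px x
  have hr : 0 < R := pos_of_mem_ball hx
  let χ : ContDiffBump (0 : ℂ) := ⟨R + 1, R + 2, by linarith, by linarith⟩
  have hu : ContDiff ℝ 2 fun w => χ w * (f w).re :=
    χ.contDiff.mul (Complex.reCLM.contDiff.comp ((hf.contDiff (n := 2)).restrict_scalars ℝ))
  have hs : HasCompactSupport fun w => χ w * (f w).re := χ.hasCompactSupport.mul_right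
  have hone : ∀ w ∈ closedBall (0 : ℂ) R, ∀ᶠ y in 𝓝 w, χ y * (f y).re = (f y).re := fun w hw => by
    have : ball (0 : ℂ) (R + 1) ∈ 𝓝 w :=
      isOpen_ball.mem_nhds (closedBall_subset_ball (by linarith) hw)
    filter_upwards [this] with y hy
    rw [χ.one_of_mem_closedBall (ball_subset_closedBall hy), one_mul]
  have hopt : Opt filt (exitT U) := opt_exitT (h.isFBM_Px x).adapted hU
  have hfin : ∫⁻ ω, exitT U ω ∂(Px W x) ≠ ∞ := ne_top_of_le_ne_top ENNReal.ofReal_ne_top
    ((lintegral_mono fun ω => exitT_mono hUR ω).trans (h.lintegral_exitT_le 0 x R))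
  have h1 := (h.isFBM_Px x).dynkin hopt hfin hu hs le_rfl
  have hin : ∀ᵐ ω ∂(Px W x), ∀ s : ℝ≥0, s ≤ (exitT U ω).toNNReal →
      ω s ∈ closedBall (0 : ℂ) R := by
    filter_upwards [h.ae_Px_zero x] with ω hω s hs
    refine closure_ball_subset_closedBall (mem_closure_of_le_exitT (hω ▸ subset_closure hx) ?_)
    exact ((ENNReal.coe_le_coe.2 hs).trans ENNReal.coe_toNNReal_le_self).trans (exitT_mono hUR ω)
  have e0 : ∫ ω, χ (id ω 0) * (f (id ω 0)).re ∂(Px W x) = ∫ _, (f x).re ∂(Px W x) :=
    integral_congr_ae ((h.ae_Px_zero x).mono fun ω hω => by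
      simp only [id, hω]
      exact (hone x (ball_subset_closedBall hx)).self_of_nhds)
  have e1 : ∫ ω, Real.exp (-0 * (exitT U ω).toReal) * (χ (id ω (exitT U ω).toNNReal) *
      (f (id ω (exitT U ω).toNNReal)).re) ∂(Px W x) =
      ∫ ω, (f (ω (exitT U ω).toNNReal)).re ∂(Px W x) :=
    integral_congr_ae (hin.mono fun ω hω => by
      simp only [id, neg_zero, zero_mul, Real.exp_zero, one_mul]
      exact (hone _ (hω _ le_rfl)).self_of_nhds)
  rw [e0, e1] at h1
  rw [h1]
  simp only [integral_const, probReal_univ, one_smul, add_eq_left]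
  refine integral_eq_zero_of_ae (hin.mono fun ω hω => ?_)
  refine (intervalIntegral.integral_congr (g := fun _ => 0) fun s hs => ?_).trans
    intervalIntegral.integral_zero
  rw [uIcc_of_le ENNReal.toReal_nonneg] at hs
  simp only [id, neg_zero, zero_mul, Real.exp_zero, one_mul, sub_zero]
  rw [(InnerProductSpace.laplacian_congr_nhds
    (hone _ (hω _ (Real.toNNReal_le_iff_le_coe.2 hs.2)))).eq_of_nhds,
    (hf.analyticAt _).harmonicAt_re.2.eq_of_nhds, Pi.zero_apply, mul_zero]

/-- Brownian motion leaves the half-plane. -/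
theorem exit_UH (h : IsWiener W) (x : ℂ) : ∀ᵐ ω ∂Px W x, ∃ t, ω t ∉ UH := by
  have := h.prob_Px x
  by_cases hx : x ∈ UH
  swap
  · exact (h.ae_Px_zero x).mono fun ω hω => ⟨0, hω ▸ hx⟩
  have key : ∀ M : ℝ, ‖x‖ < M → 1 ≤ M → (Px W x).real {ω | ∀ t, ω t ∈ UH} ≤ ‖x‖ / M + 2 / M ^ 2 := by
    intro M hM h1
    have hM0 : 0 < M := by linarith
    set U : Set ℂ := {z | |z.re| < M ^ 2 ∧ 0 < z.im ∧ z.im < M} with hUd
    have hU : IsOpen U := (isOpen_lt Complex.continuous_re.abs continuous_const).inter
      ((isOpen_lt continuous_const Complex.continuous_im).inter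
        (isOpen_lt Complex.continuous_im continuous_const))
    have hUR : U ⊆ ball 0 (M ^ 2 + M) := fun z hz => by
      rw [mem_ball_zero_iff]
      linarith [Complex.norm_le_abs_re_add_abs_im z, hz.1, hz.2.2, abs_of_pos hz.2.1]
    have hxU : x ∈ U := ⟨by nlinarith [Complex.abs_re_le_norm x], hx,
      by linarith [Complex.im_le_norm x]⟩
    set f : ℂ → ℂ := fun w => ((M⁻¹ : ℝ) : ℂ) * (-Complex.I * w) +
      (((M ^ 4)⁻¹ : ℝ) : ℂ) * (w * w + ((M ^ 2 : ℝ) : ℂ)) with hf
    have hre : ∀ w, (f w).re = w.im / M + (w.re ^ 2 - w.im ^ 2 + M ^ 2) / M ^ 4 := fun w => by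
      simp only [hf, Complex.add_re, Complex.mul_re, Complex.neg_re, Complex.ofReal_im,
        Complex.neg_im, Complex.I_re, Complex.I_im, Complex.ofReal_re]
      ring
    have hd : Differentiable ℂ f := by fun_prop
    have h2 := integral_re_exit h hd (hUR hxU) hU hUR
    have hcl : closure U ⊆ {z | |z.re| ≤ M ^ 2 ∧ 0 ≤ z.im ∧ z.im ≤ M} :=
      closure_minimal (fun z hz => ⟨hz.1.le, hz.2.1.le, hz.2.2.le⟩)
        ((isClosed_le Complex.continuous_re.abs continuous_const).inter
          ((isClosed_le continuous_const Complex.continuous_im).inter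
            (isClosed_le Complex.continuous_im continuous_const)))
    have hin : ∀ᵐ ω ∂(Px W x), ω (exitT U ω).toNNReal ∈ closure U := by
      filter_upwards [h.ae_Px_zero x] with ω hω
      exact mem_closure_of_le_exitT (hω ▸ subset_closure hxU) ENNReal.coe_toNNReal_le_self
    have hA : MeasurableSet {ω : BM.Path | ∀ t, ω t ∈ UH} := by
      have : {ω : BM.Path | ∀ t, ω t ∈ UH} = exitT UH ⁻¹' {∞} := by
        ext η
        simp [exitT]
      rw [this]
      exact measurable_exitT isOpen_UH (measurableSet_singleton _)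
    have i1 : Integrable (fun ω : BM.Path => (f (ω (exitT U ω).toNNReal)).re) (Px W x) := by
      obtain ⟨C, hC⟩ := ((isBounded_ball.subset hUR).isCompact_closure.exists_bound_of_continuousOn
        (Complex.continuous_re.comp hd.continuous).continuousOn)
      exact Integrable.of_bound (Complex.measurable_re.comp (hd.continuous.measurable.comp
        (measurable_id.path_ev (measurable_exitT hU).ennreal_toNNReal))).aestronglyMeasurable C
        (hin.mono fun ω hω => hC _ hω)
    have h3 := integral_mono_ae ((integrable_const (1 : ℝ)).indicator hA) i1 (by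
      filter_upwards [hin, h.ae_exitT_lt_top (isBounded_ball.subset hUR) x] with ω hω hlt
      obtain ⟨a, b, c⟩ := hcl hω
      have hn := notMem_exitT hU hlt
      set w := ω (exitT U ω).toNNReal with hw
      have p1 : 0 ≤ w.im / M := by positivity
      have p2 : w.im ^ 2 ≤ M ^ 2 := by gcongr
      rw [hre]
      by_cases hS : ω ∈ {ω : BM.Path | ∀ t, ω t ∈ UH}
      · rw [indicator_of_mem hS]
        by_cases e : w.im < M
        · have e2 : M ^ 2 ≤ |w.re| := not_lt.1 fun k => hn ⟨k, hS _, e⟩
          have e3 : M ^ 4 ≤ w.re ^ 2 := by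
            rw [← sq_abs w.re, show M ^ 4 = (M ^ 2) ^ 2 by ring]
            gcongr
          have : 1 ≤ (w.re ^ 2 - w.im ^ 2 + M ^ 2) / M ^ 4 := by
            rw [le_div_iff₀ (by positivity)]
            linarith
          linarith
        · have e1 : 1 ≤ w.im / M := by
            rw [le_div_iff₀ hM0]
            linarith
          have : 0 ≤ (w.re ^ 2 - w.im ^ 2 + M ^ 2) / M ^ 4 :=
            div_nonneg (by nlinarith) (by positivity)
          linarith
      · rw [indicator_of_notMem hS]
        exact add_nonneg p1 (div_nonneg (by nlinarith) (by positivity)))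
    rw [integral_indicator_const _ hA, h2, hre, smul_eq_mul, mul_one] at h3
    refine h3.trans (add_le_add (by gcongr; exact Complex.im_le_norm x) ?_)
    have a1 : x.re ^ 2 ≤ M ^ 2 := by
      rw [← sq_abs x.re]
      gcongr
      linarith [Complex.abs_re_le_norm x]
    rw [div_le_div_iff₀ (by positivity) (by positivity)]
    nlinarith [sq_nonneg x.im, pow_pos hM0 2, pow_pos hM0 4]
  have lim : Tendsto (fun M : ℝ => ‖x‖ / M + 2 / M ^ 2) atTop (𝓝 (0 + 0)) :=
    (tendsto_const_nhds.div_atTop tendsto_id).add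
      (tendsto_const_nhds.div_atTop (tendsto_pow_atTop two_ne_zero))
  have h0 : (Px W x).real {ω | ∀ t, ω t ∈ UH} ≤ 0 + 0 := ge_of_tendsto lim (by
    filter_upwards [eventually_gt_atTop ‖x‖, eventually_ge_atTop 1] with M a b using key M a b)
  rw [add_zero] at h0
  have h1 := (measureReal_eq_zero_iff (measure_ne_top _ _)).1 (le_antisymm h0 measureReal_nonneg)
  filter_upwards [measure_eq_zero_iff_ae_notMem.1 h1] with ω hω
  simpa using hω

/-- the identity chart -/
theorem chart_id : Chart id id UH ∅ where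
  meas := measurable_id
  holo := differentiableOn_id
  lip := (LipschitzWith.id.weaken one_le_two).lipschitzOnWith
  isOpen := isOpen_UH
  image := image_id _
  image' := by simp
  fin := finite_empty
  bdry := empty_subset _
  inv := fun _ _ => rfl
  cont := continuousOn_id
  lipi := fun _ => ⟨1, LipschitzWith.id.lipschitzOnWith⟩
  exit := fun _ z h => exit_UH h z

/-- the inverse of the Cayley map -/
def cayleyInv (w : ℂ) : ℂ := Complex.I * (1 + w) / (1 - w)

theorem one_le_norm_add_I {z : ℂ} (hz : z ∈ closure UH) : 1 ≤ ‖z + Complex.I‖ := by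
  have := Complex.im_le_norm (z + Complex.I)
  rw [Complex.add_im, Complex.I_im] at this
  linarith [mem_closure_UH.1 hz]

theorem add_I_ne {z : ℂ} (hz : z ∈ closure UH) : z + Complex.I ≠ 0 :=
  norm_pos_iff.1 (one_pos.trans_le (one_le_norm_add_I hz))

theorem norm_cayley_sub {z w : ℂ} (hz : z ∈ closure UH) (hw : w ∈ closure UH) :
    ‖cayley z - cayley w‖ * (‖z + Complex.I‖ * ‖w + Complex.I‖) = 2 * ‖z - w‖ := by
  have : (cayley z - cayley w) * ((z + Complex.I) * (w + Complex.I)) = 2 * Complex.I * (z - w) := by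
    have := add_I_ne hz
    have := add_I_ne hw
    unfold cayley
    field_simp
    ring
  have := congrArg norm this
  simpa using this

theorem cayleyInv_cayley {z : ℂ} (hz : z ∈ closure UH) : cayleyInv (cayley z) = z := by
  have := add_I_ne hz
  have e : 1 - (z - Complex.I) / (z + Complex.I) = 2 * Complex.I / (z + Complex.I) := by
    field_simp
    ring
  unfold cayleyInv cayley
  rw [e]
  field_simp
  ring

theorem cayley_cayleyInv {w : ℂ} (hw : w ≠ 1) : cayley (cayleyInv w) = w := by
  have : 1 - w ≠ 0 := sub_ne_zero.2 hw.symm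
  have e : Complex.I * (1 + w) / (1 - w) + Complex.I = 2 * Complex.I / (1 - w) := by
    field_simp
    ring
  unfold cayleyInv cayley
  rw [e]
  field_simp
  ring

theorem sq_norm_sub_I (z : ℂ) : ‖z + Complex.I‖ ^ 2 = ‖z - Complex.I‖ ^ 2 + 4 * z.im := by
  simp only [Complex.sq_norm, Complex.normSq_apply, Complex.add_re, Complex.add_im, Complex.sub_re,
    Complex.sub_im, Complex.I_re, Complex.I_im]
  ring

theorem im_cayleyInv {w : ℂ} (hw : w ≠ 1) : (cayleyInv w).im * ‖1 - w‖ ^ 2 = 1 - ‖w‖ ^ 2 := by
  have : Complex.normSq (1 - w) ≠ 0 := by simpa using sub_ne_zero.2 hw.symm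
  simp only [cayleyInv, Complex.sq_norm, Complex.div_im]
  field_simp
  simp only [Complex.normSq_apply, Complex.mul_re, Complex.mul_im, Complex.add_re, Complex.add_im,
    Complex.sub_re, Complex.sub_im, Complex.I_re, Complex.I_im, Complex.one_re, Complex.one_im]
  ring

/-- the Cayley chart -/
theorem chart_cayley : Chart cayley cayleyInv (ball 0 1) {1} where
  meas := by
    unfold cayley
    fun_prop
  holo := (differentiableOn_id.sub_const _).div (differentiableOn_id.add_const _)
    fun z hz => add_I_ne (subset_closure hz)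
  lip := LipschitzOnWith.of_dist_le_mul fun z hz w hw => by
    have := norm_cayley_sub hz hw
    have a := one_le_mul_of_one_le_of_one_le (one_le_norm_add_I hz) (one_le_norm_add_I hw)
    rw [dist_eq_norm, dist_eq_norm, NNReal.coe_ofNat]
    nlinarith [norm_nonneg (cayley z - cayley w)]
  isOpen := isOpen_ball
  image := by
    refine Subset.antisymm ?_ fun w hw => ?_
    · rintro _ ⟨z, hz, rfl⟩
      have p := one_pos.trans_le (one_le_norm_add_I (subset_closure hz))
      rw [mem_ball_zero_iff, cayley, norm_div, div_lt_one p]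
      refine lt_of_pow_lt_pow_left₀ 2 p.le ?_
      linarith [sq_norm_sub_I z, show 0 < z.im from hz]
    · rw [mem_ball_zero_iff] at hw
      have h1 : w ≠ 1 := fun e => by simp [e] at hw
      refine ⟨_, ?_, cayley_cayleyInv h1⟩
      have := im_cayleyInv h1
      show 0 < (cayleyInv w).im
      by_contra k
      nlinarith [norm_nonneg w, mul_nonneg (neg_nonneg.2 (not_lt.1 k)) (sq_nonneg ‖1 - w‖)]
  image' := by
    rw [closure_ball 0 one_ne_zero]
    refine Subset.antisymm ?_ fun w hw => ?_
    · rintro _ ⟨z, hz, rfl⟩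
      have p := one_pos.trans_le (one_le_norm_add_I hz)
      refine ⟨?_, fun e => ?_⟩
      · rw [mem_closedBall_zero_iff, cayley, norm_div, div_le_one p]
        refine le_of_sq_le_sq ?_ p.le
        linarith [sq_norm_sub_I z, mem_closure_UH.1 hz]
      · rw [mem_singleton_iff, cayley, div_eq_one_iff_eq (add_I_ne hz)] at e
        have := congrArg Complex.im e
        simp only [Complex.sub_im, Complex.add_im, Complex.I_im] at this
        linarith
    · refine ⟨_, mem_closure_UH.2 ?_, cayley_cayleyInv hw.2⟩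
      have := im_cayleyInv hw.2
      have a : 0 < ‖1 - w‖ ^ 2 := pow_pos (norm_pos_iff.2 (sub_ne_zero.2 (Ne.symm hw.2))) 2
      by_contra k
      nlinarith [norm_nonneg w, mem_closedBall_zero_iff.1 hw.1, mul_pos (neg_pos.2 (not_le.1 k)) a]
  fin := finite_singleton _
  bdry := by simp [frontier_ball (0 : ℂ) one_ne_zero]
  inv := fun z hz => cayleyInv_cayley hz
  cont := (continuousOn_const.mul (continuousOn_const.add continuousOn_id)).div
    (continuousOn_const.sub continuousOn_id) fun w hw => sub_ne_zero.2 (Ne.symm hw.2)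
  lipi := fun R => ⟨((R + 1) ^ 2 / 2).toNNReal, LipschitzOnWith.of_dist_le_mul <| by
    rintro _ ⟨z, hz, rfl⟩ _ ⟨w, hw, rfl⟩
    have b : ∀ {z : ℂ}, z ∈ closedBall (0 : ℂ) R → ‖z + Complex.I‖ ≤ R + 1 := fun {z} hz => by
      linarith [norm_add_le z Complex.I, Complex.norm_I, mem_closedBall_zero_iff.1 hz]
    have a := mul_le_mul (b hz.2) (b hw.2) (norm_nonneg _) ((norm_nonneg _).trans (b hz.2))
    rw [cayleyInv_cayley hz.1, cayleyInv_cayley hw.1, dist_eq_norm, dist_eq_norm,
      Real.coe_toNNReal _ (by positivity)]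
    nlinarith [norm_nonneg (cayley z - cayley w), norm_cayley_sub hz.1 hw.1]⟩
  exit := fun _ z h => (h.ae_exitT_lt_top isBounded_ball z).mono fun _ hω =>
    ⟨_, notMem_exitT isOpen_ball hω⟩

end Pool.Agent.Lib.MP_0d9445_pr.Bd
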