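import Pool.Agent.Lib.MP_0d9445_pr.Bd.PullA
import Pool.Agent.Lib.MP_0d9445_pr.AS.Defs

/-! The clock in the domain of a chart. -/

noncomputable section

open MeasureTheory ProbabilityTheory Set Filter Topology
open scoped NNReal ENNReal

namespace Pool.Agent.Lib.MP_0d9445_pr.Bd

open BM Walk

theorem clock_chart_ok {χ χi : ℂ → ℂ} {O E : Set ℂ} {μ : Measure ℂ} {W : Measure Path}
    {A : Path → StieltjesFunction ℝ≥0} (hW : IsWiener W) (hc : Chart χ χi O E) (h0 : μ UHᶜ = 0)
    (hA : IsPCAF W (μ.map χ) A) (hμ : AS.MeasOK μ UH) (y : ℂ) : IsClock W (μ.map χ) O y A := by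
  have h1 : μ.restrict UH = μ := Measure.restrict_eq_self_of_ae_mem h0
  have h2 := clock_chart (μ := μ) hW hc finite_empty (h1.symm ▸ hA) hμ.low
    (fun K hK hKH => hμ.frost K hK (hKH.trans sdiff_subset)) y
  rwa [h1] at h2

end Pool.Agent.Lib.MP_0d9445_pr.Bd
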