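import Pool.Agent.Lib.MP_0d9445_pr.Walk.Hyp

/-! Conformal invariance of the weak equation. -/

noncomputable section

open MeasureTheory Set Filter Topology
open scoped Classical

namespace Pool.Agent.Lib.MP_0d9445_pr.Walk

namespace Conf

theorem det_smul_one (a : ℂ) : (a • (1 : ℂ →L[ℝ] ℂ)).det = ‖a‖ ^ 2 := by
  rw [← Complex.restrictScalars_toSpanSingleton]
  simp [ContinuousLinearMap.det, LinearMap.det_restrictScalars, Algebra.norm_complex_eq,
    Complex.normSq_eq_norm_sq]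

theorem dir_congr {v v' : ℂ → ℝ} {w : ℂ} (h : v =ᶠ[𝓝 w] v') (p : ℂ) :
    dir p v =ᶠ[𝓝 w] dir p v' := (h.fderiv (𝕜 := ℝ)).mono fun z hz => by simp only [dir, hz]

theorem lapl_congr {v v' : ℂ → ℝ} {w : ℂ} (h : v =ᶠ[𝓝 w] v') : lapl v w = lapl v' w := by
  unfold lapl
  rw [(dir_congr (dir_congr h 1) 1).eq_of_nhds,
    (dir_congr (dir_congr h Complex.I) Complex.I).eq_of_nhds]

theorem lapl_zero {v : ℂ → ℝ} {w : ℂ} (h : w ∉ tsupport v) : lapl v w = 0 := by
  rw [lapl_congr (notMem_tsupport_iff_eventuallyEq.1 h)]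
  have e : ∀ p, dir p (0 : ℂ → ℝ) = 0 := fun p => funext fun z => by simp [dir]
  simp [lapl, e]

theorem dir_dir {v : ℂ → ℝ} (hv : ContDiff ℝ (⊤ : ℕ∞) v) (p q z : ℂ) :
    dir q (dir p v) z = fderiv ℝ (fderiv ℝ v) z q p := by
  have hd : Differentiable ℝ (fderiv ℝ v) :=
    (hv.fderiv_right (m := ((⊤ : ℕ∞) : WithTop ℕ∞)) le_rfl).differentiable (by simp)
  have := ((hd z).hasFDerivAt.clm_apply (hasFDerivAt_const p z)).fderiv
  show fderiv ℝ (fun y => fderiv ℝ v y p) z q = _
  rw [this]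
  simp

theorem bil_sum (B : ℂ →L[ℝ] ℂ →L[ℝ] ℝ) (a : ℂ) :
    B (a * 1) (a * 1) + B (a * Complex.I) (a * Complex.I) =
      ‖a‖ ^ 2 * (B 1 1 + B Complex.I Complex.I) := by
  have e1 : a * 1 = a.re • (1 : ℂ) + a.im • Complex.I := by simp [Complex.re_add_im]
  have e2 : a * Complex.I = (-a.im) • (1 : ℂ) + a.re • Complex.I := by
    apply Complex.ext <;> simp
  rw [e1, e2, ← Complex.normSq_eq_norm_sq, Complex.normSq_apply]
  simp only [map_add, map_smul, add_apply, smul_apply, smul_eq_mul]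
  ring

/-- The Laplacian of a composition with a holomorphic map. -/
theorem lapl_comp {v : ℂ → ℝ} (hv : ContDiff ℝ (⊤ : ℕ∞) v) {χ : ℂ → ℂ} {w : ℂ}
    (hχ : AnalyticAt ℂ χ w) :
    lapl (fun z => v (χ z)) w = ‖deriv χ w‖ ^ 2 * lapl v (χ w) := by
  have hd0 : Differentiable ℝ v := hv.differentiable (by simp)
  have hd : Differentiable ℝ (fderiv ℝ v) :=
    (hv.fderiv_right (m := ((⊤ : ℕ∞) : WithTop ℕ∞)) le_rfl).differentiable (by simp)
  have h1 : ∀ p, dir p (fun z => v (χ z)) =ᶠ[𝓝 w] fun z => fderiv ℝ v (χ z) (deriv χ z * p) :=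
    fun p => hχ.eventually_analyticAt.mono fun z hz => by
      have := ((hd0 (χ z)).hasFDerivAt.comp z
        hz.differentiableAt.hasDerivAt.complexToReal_fderiv).fderiv
      show fderiv ℝ (v ∘ χ) z p = _
      rw [this]
      simp
  have h2 : ∀ p, dir p (dir p fun z => v (χ z)) w =
      fderiv ℝ v (χ w) (deriv (deriv χ) w * p * p) +
        fderiv ℝ (fderiv ℝ v) (χ w) (deriv χ w * p) (deriv χ w * p) := fun p => by
    rw [(dir_congr (h1 p) p).eq_of_nhds]
    have a1 := (hd (χ w)).hasFDerivAt.comp w hχ.differentiableAt.hasDerivAt.complexToReal_fderiv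
    have a2 := (hχ.deriv.differentiableAt.hasDerivAt.mul_const p).complexToReal_fderiv
    have := (a1.clm_apply a2).fderiv
    show fderiv ℝ (fun z => (fderiv ℝ v ∘ χ) z (deriv χ z * p)) w p = _
    rw [this]
    simp
  have h3 : fderiv ℝ v (χ w) (deriv (deriv χ) w * 1 * 1) +
      fderiv ℝ v (χ w) (deriv (deriv χ) w * Complex.I * Complex.I) = 0 := by
    rw [← map_add, mul_assoc _ Complex.I, Complex.I_mul_I]
    simp
  unfold lapl
  rw [h2, h2, dir_dir hv, dir_dir hv, ← bil_sum]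
  linarith

/-- The pull-back of a test function. -/
theorem test_comp {D U : Set ℂ} {χ χi : ℂ → ℂ} (hD : IsOpen D) (hχ : DifferentiableOn ℂ χ D)
    (hi : ∀ w ∈ D, χi (χ w) = w) (hc : ContinuousOn χi (χ '' D)) (hU : IsOpen U) (hUD : U ⊆ D)
    {v : ℂ → ℝ} (hv : Test (χ '' U) v) : Test U (U.indicator fun z => v (χ z)) := by
  have hT : IsCompact (χi '' tsupport v) :=
    hv.cpt.isCompact.image_of_continuousOn (hc.mono (hv.supp.trans (image_mono hUD)))
  have hTU : χi '' tsupport v ⊆ U := by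
    rintro _ ⟨y, hy, rfl⟩
    obtain ⟨w, hw, rfl⟩ := hv.supp hy
    rwa [hi w (hUD hw)]
  have hs : tsupport (U.indicator fun z => v (χ z)) ⊆ χi '' tsupport v := by
    refine closure_minimal (fun w hw => ?_) hT.isClosed
    rw [support_indicator] at hw
    exact ⟨χ w, subset_tsupport v hw.2, hi w (hUD hw.1)⟩
  refine ⟨contDiff_iff_contDiffAt.2 fun w => ?_, hT.of_isClosed_subset (isClosed_tsupport _) hs,
    hs.trans hTU⟩
  by_cases hw : w ∈ U
  · have a : ContDiffAt ℝ (⊤ : ℕ∞) χ w :=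
      (hχ.analyticAt (hD.mem_nhds (hUD hw))).contDiffAt.restrict_scalars ℝ
    exact (hv.smooth.contDiffAt.comp w a).congr_of_eventuallyEq
      (mem_of_superset (hU.mem_nhds hw) fun z hz => indicator_of_mem hz _)
  · exact contDiffAt_const.congr_of_eventuallyEq
      (notMem_tsupport_iff_eventuallyEq.1 fun hh => hw (hTU (hs hh)))

end Conf

open Conf in
/-- The weak equation is carried along by a conformal map. -/
theorem WeakSol.conf {D U : Set ℂ} {χ χi : ℂ → ℂ} {μ : Measure ℂ} {u φ u₂ φ₂ : ℂ → ℝ}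
    (hD : IsOpen D) (hχ : DifferentiableOn ℂ χ D) (hm : Measurable χ)
    (hi : ∀ w ∈ D, χi (χ w) = w) (hc : ContinuousOn χi (χ '' D)) (hU : IsOpen U) (hUD : U ⊆ D)
    (hμ : μ Dᶜ = 0) (hu : ∀ w ∈ U, u₂ (χ w) = u w) (hφ : ∀ w ∈ U, φ₂ (χ w) = φ w)
    (hφ₂ : Continuous φ₂) (h : WeakSol U μ u φ) : WeakSol (χ '' U) (μ.map χ) u₂ φ₂ := by
  intro v hv
  have hT := test_comp hD hχ hi hc hU hUD hv
  have key := h _ hT
  have han : ∀ w ∈ U, AnalyticAt ℂ χ w := fun w hw => hχ.analyticAt (hD.mem_nhds (hUD hw))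
  have hinj : InjOn χ D := fun a ha b hb hab => by rw [← hi a ha, hab, hi b hb]
  have e1 : ∫ w, u₂ w * lapl v w = ∫ w, u w * lapl (U.indicator fun z => v (χ z)) w := by
    rw [← setIntegral_eq_integral_of_forall_compl_eq_zero (s := χ '' U)
        (fun w hw => by rw [lapl_zero fun hh => hw (hv.supp hh), mul_zero]),
      ← setIntegral_eq_integral_of_forall_compl_eq_zero (s := U)
        (f := fun w => u w * lapl (U.indicator fun z => v (χ z)) w)
        (fun w hw => by rw [lapl_zero fun hh => hw (hT.supp hh), mul_zero]),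
      integral_image_eq_integral_abs_det_fderiv_smul volume hU.measurableSet
        (fun w hw => (han w hw).differentiableAt.hasDerivAt.complexToReal_fderiv.hasFDerivWithinAt)
        (hinj.mono hUD)]
    refine setIntegral_congr_fun hU.measurableSet fun w hw => ?_
    have e : (U.indicator fun z => v (χ z)) =ᶠ[𝓝 w] fun z => v (χ z) :=
      mem_of_superset (hU.mem_nhds hw) fun z hz => indicator_of_mem hz _
    rw [lapl_congr e, lapl_comp hv.smooth (han w hw), det_smul_one, abs_of_nonneg (sq_nonneg _),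
      hu w hw, smul_eq_mul]
    ring
  have e2 : ∫ w, v w * φ₂ w ∂μ.map χ = ∫ w, (U.indicator fun z => v (χ z)) w * φ w ∂μ := by
    rw [integral_map (f := fun w => v w * φ₂ w) hm.aemeasurable
      (hv.smooth.continuous.mul hφ₂).aestronglyMeasurable]
    refine integral_congr_ae ?_
    filter_upwards [(compl_mem_ae_iff.2 hμ : Dᶜᶜ ∈ ae μ)] with w hw
    rw [compl_compl] at hw
    by_cases hwU : w ∈ U
    · rw [indicator_of_mem hwU, hφ w hwU]
    · rw [indicator_of_notMem hwU, zero_mul, image_eq_zero_of_notMem_tsupport (f := v), zero_mul]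
      intro hh
      obtain ⟨w', hw', e⟩ := hv.supp hh
      exact hwU (hinj (hUD hw') hw e ▸ hw')
  rw [e1, e2, key]

end Pool.Agent.Lib.MP_0d9445_pr.Walk
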