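import Pool.Agent.Lib.MP_0d9445_pr.Bd.Mono
import Pool.Agent.Lib.MP_0d9445_pr.CR.D2

/-! The energy and the squared diameters below a boundary box. -/

open MeasureTheory ProbabilityTheory Set Filter Topology Real LQ.Met
open scoped NNReal ENNReal ComplexConjugate

noncomputable section

namespace Pool.Agent.Lib.MP_0d9445_pr.Bd

open CR PPP Walk

namespace D2b

open Cell CR.D2

variable {d : ℕ} {C : Cells} {p : Pat} {W K : Set ℂ} {B : ℕ → ℤ → Prop}

/-- the column of a point -/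
def col (m : ℕ) (z : ℂ) : ℤ := (idx m z).1

theorem col_mem_bk {m k : ℕ} {a : ℤ} {z : ℂ} : col (m + k) z ∈ bk k a ↔ col m z = a := by
  rw [bk, Finset.mem_Ico]
  exact Geo_floor_kids m k z.re a

theorem col_eq {m : ℕ} {a : ℤ} {z : ℂ} :
    col m z = a ↔ sc m * a ≤ z.re ∧ z.re < sc m * (a + 1) :=
  (Geo_floor_iff (sc_pos m) a).symm

theorem row_ge {m : ℕ} {z : ℂ} {r : ℤ} : r ≤ (idx m z).2 ↔ r * sc m ≤ z.im := by
  rw [CR.idx, Int.le_floor, le_div_iff₀ (sc_pos m)]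

theorem row_lt {m : ℕ} {z : ℂ} {r : ℤ} : (idx m z).2 < r ↔ z.im < r * sc m := by
  rw [← not_le, row_ge, not_le]

theorem idx_mem_wh {m : ℕ} {z : ℂ} (h1 : 64 * sc (m + d) ≤ z.im) (h2 : z.im < 64 * sc m) :
    idx (m + d) z ∈ wh d (col m z) := by
  refine Finset.mem_product.2 ⟨col_mem_bk.2 rfl, Finset.mem_Ico.2 ⟨row_ge.2 ?_, row_lt.2 ?_⟩⟩
  · exact_mod_cast h1
  · have e : ((64 * 2 ^ d : ℤ) : ℝ) * sc (m + d) = 64 * sc m := by
      rw [sc_add]
      push_cast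
      linear_combination 64 * sc m * Geo_inv_pow d
    rwa [e]

theorem lt_of_sc {l m : ℕ} {t : ℝ} (h1 : 64 * sc l ≤ t) (h2 : t < 64 * sc m) : m < l := by
  by_contra h
  linarith [sc_anti (not_lt.1 h)]

theorem sc_half {l m : ℕ} (h : l < m) : 2 * sc m ≤ sc l := by
  have h1 : sc m ≤ sc (l + 1) := sc_anti h
  rw [sc_add] at h1
  linarith

theorem sc_small (hd : 7 ≤ d) (n : ℕ) : 128 * sc (n + d) ≤ sc n := by
  have h1 : sc (n + d) ≤ sc (n + 7) := sc_anti (by omega)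
  rw [sc_add n 7] at h1
  linarith

/-- the layer of a height -/
theorem exists_layer {t : ℝ} {n : ℕ} (h1 : t < 64 * sc n) :
    ∀ k, 64 * sc (n + k * d) ≤ t →
      ∃ j < k, 64 * sc (n + j * d + d) ≤ t ∧ t < 64 * sc (n + j * d) := by
  intro k
  induction k with
  | zero => exact fun h => absurd h1 (by simpa using h)
  | succ k ih =>
    intro h
    by_cases hk : 64 * sc (n + k * d) ≤ t
    · obtain ⟨j, hj, h2⟩ := ih hk
      exact ⟨j, by omega, h2⟩
    · exact ⟨k, by omega, by rwa [add_mul, one_mul, ← add_assoc] at h, not_le.1 hk⟩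

open Classical in
theorem sum_le_fin {ι κ : Type*} (E : Finset ι) (f : ι → ℝ≥0∞) (I : Finset κ) (P : κ → ι → Prop)
    (hP : ∀ e ∈ E, ∃ l ∈ I, P l e) {b : κ → ℝ≥0∞}
    (hb : ∀ l ∈ I, ∀ F ⊆ E, (∀ e ∈ F, P l e) → ∑ e ∈ F, f e ≤ b l) :
    ∑ e ∈ E, f e ≤ ∑ l ∈ I, b l := by
  calc ∑ e ∈ E, f e ≤ ∑ e ∈ E, ∑ l ∈ I, (if P l e then f e else 0) := by
        refine Finset.sum_le_sum fun e he => ?_
        obtain ⟨l, hl, h⟩ := hP e he
        refine le_trans ?_ (Finset.single_le_sum (f := fun l => if P l e then f e else 0)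
          (fun _ _ => zero_le) hl)
        rw [if_pos h]
    _ = ∑ l ∈ I, ∑ e ∈ E.filter (P l), f e := by
        rw [Finset.sum_comm]
        exact Finset.sum_congr rfl fun l _ => (Finset.sum_filter _ _).symm
    _ ≤ _ := Finset.sum_le_sum fun l hl =>
        hb l hl _ (Finset.filter_subset _ _) fun e he => (Finset.mem_filter.1 he).2

open Classical in
theorem sum_le_two {ι : Type*} (E : Finset ι) (f : ι → ℝ≥0∞) (P : ι → Prop) {b b' : ℝ≥0∞}
    (hb : ∀ F ⊆ E, (∀ e ∈ F, P e) → ∑ e ∈ F, f e ≤ b)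
    (hb' : ∀ F ⊆ E, (∀ e ∈ F, ¬ P e) → ∑ e ∈ F, f e ≤ b') : ∑ e ∈ E, f e ≤ b + b' := by
  rw [← Finset.sum_filter_add_sum_filter_not E P]
  exact add_le_add (hb _ (Finset.filter_subset _ _) fun e he => (Finset.mem_filter.1 he).2)
    (hb' _ (Finset.filter_subset _ _) fun e he => (Finset.mem_filter.1 he).2)

theorem card_eq {ι : Type*} (F : Finset ι) : (F.card : ℝ≥0∞) = ∑ _e ∈ F, 1 := by simp

/-- the point is exposed at every level whose boxes are small compared with its height -/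
def Ex64 (d : ℕ) (p : Pat) (z : ℂ) : Prop := ∀ l, 64 * sc l ≤ z.im → Exposed d p l z

/-- no boundary box of the point below level `m` is blocked -/
def Un (d : ℕ) (B : ℕ → ℤ → Prop) (m : ℕ) (z : ℂ) : Prop :=
  ∀ i, z.im < 64 * sc (m + i * d + d) → ¬ B (m + i * d + d) (col (m + i * d + d) z)

/-- the point is counted below level `m` -/
structure Cnt (d : ℕ) (p : Pat) (B : ℕ → ℤ → Prop) (k m : ℕ) (z : ℂ) : Prop where
  pts : z ∈ p.pts
  ex : Ex64 d p z
  un : Un d B m z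
  low : 64 * sc (m + k * d) ≤ z.im

theorem card_le_UU (hd : 1 ≤ d) (k : ℕ) : ∀ (m : ℕ) (b : ℤ) (F : Finset ℂ),
    (∀ z ∈ F, Cnt d p B k m z ∧ col m z = b ∧ z.im < 64 * sc m) →
      (F.card : ℝ≥0∞) ≤ UU d p B k m b := by
  induction k with
  | zero =>
    intro m b F hF
    rw [Finset.eq_empty_of_forall_notMem (s := F) fun z hz =>
      absurd (hF z hz).2.2 (by simpa using (hF z hz).1.low)]
    simp
  | succ k ih =>
    intro m b F hF
    rw [card_eq, UU]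
    refine sum_le_two F _ (fun z => 64 * sc (m + d) ≤ z.im) (fun G hG h => ?_) fun G hG h => ?_
    · refine sum_le_fin G _ _ (fun w z => idx (m + d) z = w) (fun z hz => ⟨_, ?_, rfl⟩)
        fun w _ G' hG' h' => ?_
      · rw [← (hF z (hG hz)).2.1]
        exact idx_mem_wh (h z hz) (hF z (hG hz)).2.2
      · rw [← card_eq]
        exact card_le_ZZ hd G' fun z hz => ⟨(hF z (hG (hG' hz))).1.pts,
          (hF z (hG (hG' hz))).1.ex _ (h z (hG' hz)), h' z hz ▸ self_mem_nbh 20 _⟩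
    · refine sum_le_fin G _ _ (fun c z => col (m + d) z = c)
        (fun z hz => ⟨_, col_mem_bk.2 (hF z (hG hz)).2.1, rfl⟩) fun c _ G' hG' h' => ?_
      rcases G'.eq_empty_or_nonempty with rfl | ⟨z₀, hz₀⟩
      · simp
      have h0 := (hF z₀ (hG (hG' hz₀))).1.un 0
      rw [zero_mul, add_zero, h' z₀ hz₀] at h0
      rw [if_neg (h0 (not_le.1 (h z₀ (hG' hz₀)))), ← card_eq]
      refine ih _ _ G' fun z hz => ⟨?_, h' z hz, not_le.1 (h z (hG' hz))⟩
      obtain ⟨h1, h2, h3, h4⟩ := (hF z (hG (hG' hz))).1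
      refine ⟨h1, h2, fun i => ?_, ?_⟩
      · have := h3 (i + 1)
        rwa [show m + (i + 1) * d + d = m + d + i * d + d by ring] at this
      · rwa [show m + (k + 1) * d = m + d + k * d by ring] at h4

theorem card_le_WW (hd : 1 ≤ d) {k m : ℕ} {b : ℤ} (F : Finset ℂ)
    (hF : ∀ z ∈ F, Cnt d p B k m z ∧ |col m z - b| ≤ 3 ∧ z.im < 67 * sc m) :
    (F.card : ℝ≥0∞) ≤ WW d p B k m b := by
  have hc : ∀ z ∈ F, col m z ∈ Finset.Icc (b - 3) (b + 3) := fun z hz => by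
    have := abs_le.1 (hF z hz).2.1
    exact Finset.mem_Icc.2 ⟨by omega, by omega⟩
  rw [card_eq, WW]
  refine sum_le_two F _ (fun z => z.im < 64 * sc m) (fun G hG h => ?_) fun G hG h => ?_
  · refine sum_le_fin G _ _ (fun c z => col m z = c) (fun z hz => ⟨_, hc z (hG hz), rfl⟩)
      fun c _ G' hG' h' => ?_
    rw [← card_eq]
    exact card_le_UU hd k m c G' fun z hz => ⟨(hF z (hG (hG' hz))).1, h' z hz, h z (hG' hz)⟩
  · refine sum_le_fin G _ _ (fun w z => idx m z = w) (fun z hz => ⟨_, ?_, rfl⟩)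
      fun w _ G' hG' h' => ?_
    · refine Finset.mem_product.2 ⟨hc z (hG hz), Finset.mem_Icc.2 ⟨row_ge.2 ?_,
        Int.lt_add_one_iff.1 (row_lt.2 ?_)⟩⟩
      · exact_mod_cast not_lt.1 (h z hz)
      · exact_mod_cast (hF z (hG hz)).2.2
    · rw [← card_eq]
      exact card_le_ZZ hd G' fun z hz => ⟨(hF z (hG (hG' hz))).1.pts,
        (hF z (hG (hG' hz))).1.ex _ (not_lt.1 (h z (hG' hz))), h' z hz ▸ self_mem_nbh 20 _⟩

theorem pairs_le_WW (hd : 1 ≤ d) {k m : ℕ} {b : ℤ} (F : Finset (ℂ × ℂ))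
    (hF : ∀ e ∈ F, (Cnt d p B k m e.1 ∧ |col m e.1 - b| ≤ 3 ∧ e.1.im < 67 * sc m) ∧
      Cnt d p B k m e.2 ∧ |col m e.2 - b| ≤ 3 ∧ e.2.im < 67 * sc m) :
    (F.card : ℝ≥0∞) ≤ WW d p B k m b ^ 2 := by
  classical
  have h1 : F ⊆ F.image Prod.fst ×ˢ F.image Prod.snd := Finset.subset_product
  have h2 : (F.card : ℝ≥0∞) ≤ (F.image Prod.fst).card * (F.image Prod.snd).card := by
    exact_mod_cast (Finset.card_le_card h1).trans_eq (Finset.card_product _ _)
  rw [sq]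
  refine h2.trans (mul_le_mul' (card_le_WW hd _ fun z hz => ?_) (card_le_WW hd _ fun z hz => ?_))
  · obtain ⟨e, he, rfl⟩ := Finset.mem_image.1 hz
    exact (hF e he).1
  · obtain ⟨e, he, rfl⟩ := Finset.mem_image.1 hz
    exact (hF e he).2

theorem cell_of_sep {m : ℕ} {x : ℂ} (h : SepB C m (col m x)) (hx : x ∈ C.V) (h0 : 0 < x.im)
    (h1 : x.im < 64 * sc m) : C.H x ⊆ oR m (col m x) 2 := by
  have hs := sc_pos m
  obtain ⟨h2, h3⟩ := col_eq.1 (rfl : col m x = _)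
  exact (h x hx).1 ⟨abs_le.2 ⟨by linarith, by linarith⟩, abs_le.2 ⟨by linarith, by linarith⟩⟩

theorem adj_of_sep {m : ℕ} {x y : ℂ} (h : SepB C m (col m x)) (hxy : C.Adj x y) (h0 : 0 < x.im)
    (h1 : x.im < 64 * sc m) : y ∈ oR m (col m x) 3 := by
  obtain ⟨hx, hy, -, w, hwx, hwy⟩ := hxy
  by_contra hn
  have := cell_of_sep h hx h0 h1 hwx
  exact Set.disjoint_left.1 ((h y hy).2 hn) hwy ⟨this.1.le, this.2.le⟩

/-- both ends of an edge lie in one enlarged boundary box -/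
structure Near (m : ℕ) (x y : ℂ) : Prop where
  col : |col m y - col m x| ≤ 3
  re : |x.re - y.re| ≤ 4 * sc m
  left : x.im < 67 * sc m
  right : y.im < 67 * sc m

theorem Near.symm {m : ℕ} {x y : ℂ} (h : Near m x y) : Near m y x :=
  ⟨abs_sub_comm (D2b.col m y) _ ▸ h.1, abs_sub_comm x.re _ ▸ h.2, h.4, h.3⟩

theorem near_of_sep {m : ℕ} {x y : ℂ} (h : SepB C m (col m x)) (hxy : C.Adj x y) (h0 : 0 < x.im)
    (h1 : x.im < 64 * sc m) : Near m x y := by
  have hs := sc_pos m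
  obtain ⟨a1, a2⟩ := adj_of_sep h hxy h0 h1
  obtain ⟨b1, b2⟩ := col_eq.1 (rfl : col m x = _)
  obtain ⟨c1, c2⟩ := col_eq.1 (rfl : col m y = _)
  rw [abs_lt] at a1 a2
  refine ⟨?_, abs_le.2 ⟨by linarith [a1.2], by linarith [a1.1]⟩, by linarith,
    by linarith [a2.2]⟩
  have e1 : (col m y : ℝ) < col m x + 4 := lt_of_mul_lt_mul_left (by linarith [a1.2]) hs.le
  have e2 : (col m x : ℝ) < col m y + 4 := lt_of_mul_lt_mul_left (by linarith [a1.1]) hs.le
  have e3 : col m y < col m x + 4 := by exact_mod_cast e1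
  have e4 : col m x < col m y + 4 := by exact_mod_cast e2
  exact abs_le.2 ⟨by omega, by omega⟩

/-- the last index with a property that fails from `k` on -/
theorem exists_last {Q : ℕ → Prop} {k : ℕ} (h0 : Q 0) (hk : ∀ i, Q i → i < k) :
    ∃ i < k, Q i ∧ ∀ j, ¬ Q (i + j + 1) := by
  classical
  refine ⟨Nat.findGreatest Q k, hk _ (Nat.findGreatest_spec (Nat.zero_le k) h0),
    Nat.findGreatest_spec (Nat.zero_le k) h0, fun j hj => ?_⟩
  have := Nat.le_findGreatest (hk _ hj).le hj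
  omega

/-- short edges from one box -/
theorem short_le (h : Dom C p W) (hd : 1 ≤ d) {m : ℕ} {w : ℤ × ℤ} (E : Finset (ℂ × ℂ))
    (hE : ∀ e ∈ E, C.Adj e.1 e.2 ∧ e.1 ∈ p.pts ∧ e.2 ∈ p.pts ∧ idx m e.1 = w ∧
      sn e.1 e.2 ≤ 5 * sc m) :
    ∑ e ∈ E, ENNReal.ofReal (((e.1.re - e.2.re) ^ 2 + (e.1.im - e.2.im) ^ 2) / 2) ≤
      ENNReal.ofReal (25 * sc m ^ 2) * KK d p m w := by
  rw [KK, ← ENNReal.tsum_mul_left]
  refine sum_le_levels _ _ (fun l e => Edge d p (m + l * d) e) (fun e he _ => ?_)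
    fun l F hF hP => ?_
  · obtain ⟨h1, h2, h3, -, h5⟩ := hE e he
    obtain ⟨l, hl, hl'⟩ := exists_level hd m (sn_pos h1.2.2.1) h5
    exact ⟨l, h1.2.2.1, h2, h3, exposed_of_adj h h1 hl,
      exposed_of_adj h (adj_symm h1) (by rwa [sn_comm]), hl'⟩
  rw [← mul_assoc, ← ofReal_sc]
  refine sum_le_boxes F _ (fun e he => ENNReal.ofReal_le_ofReal ?_)
    (fun e => idx (m + l * d) e.1) _ (fun e he => idx_mem_kids.2 (hE e (hF he)).2.2.2.1) _
    fun q G hG hq => (card_le_TT hd G fun e he => ⟨hP e (hG he), hq e he⟩).trans (TT_le_ZZ _ _)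
  obtain ⟨e1, e2⟩ := sn_le_iff.1 (hP e he).2.2.2.2.2
  rw [abs_le] at e1 e2
  have f1 : (e.1.re - e.2.re) ^ 2 ≤ (5 * sc (m + l * d)) ^ 2 :=
    sq_le_sq' (by linarith [e1.2]) (by linarith [e1.1])
  have f2 : (e.1.im - e.2.im) ^ 2 ≤ (5 * sc (m + l * d)) ^ 2 :=
    sq_le_sq' (by linarith [e2.2]) (by linarith [e2.1])
  nlinarith

/-- small cells from one box -/
theorem small_le (h : Dom C p W) (hd : 1 ≤ d) {m : ℕ} {w : ℤ × ℤ} (E : Finset ℂ)
    (hE : ∀ x ∈ E, x ∈ C.V ∧ x ∈ p.pts ∧ idx m x = w ∧ Metric.diam (C.H x) ≤ 12 * sc m) :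
    ∑ x ∈ E, ENNReal.ofReal (Metric.diam (C.H x) ^ 2) ≤
      ENNReal.ofReal (144 * sc m ^ 2) * KK d p m w := by
  rw [KK, ← ENNReal.tsum_mul_left]
  refine sum_le_levels _ _
    (fun l x => Exposed d p (m + l * d) x ∧ Metric.diam (C.H x) ≤ 12 * sc (m + l * d))
    (fun x hx h0 => ?_) fun l F hF hP => ?_
  · obtain ⟨l, hl, hl'⟩ := exists_level hd m
      (lt_of_le_of_ne Metric.diam_nonneg fun e => h0 (by simp [← e])) (hE x hx).2.2.2
    exact ⟨l, exposed_of_diam h (hE x hx).1 hl, hl'⟩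
  rw [← mul_assoc, ← ofReal_sc]
  refine sum_le_boxes F _ (fun x hx => ENNReal.ofReal_le_ofReal ?_) (idx (m + l * d)) _
    (fun x hx => idx_mem_kids.2 (hE x (hF hx)).2.2.1) _
    fun q G hG hq => card_le_ZZ hd G fun x hx => ⟨(hE x (hF (hG hx))).2.1,
      (hP x (hG hx)).1, hq x hx ▸ self_mem_nbh 20 _⟩
  have := pow_le_pow_left₀ Metric.diam_nonneg (hP x hx).2 2
  nlinarith

/-- sums over objects that are attached to the Whitney boxes below a boundary box -/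
theorem sum_le_XI {ι : Type*} {n k : ℕ} {a : ℤ} {c : ℝ} (E : Finset ι) (f : ι → ℝ≥0∞)
    (x : ι → ℂ) (R : ℕ → ι → Prop)
    (hE : ∀ e ∈ E, col n (x e) = a ∧ ∃ j < k, 64 * sc (n + j * d + d) ≤ (x e).im ∧
      (x e).im < 64 * sc (n + j * d) ∧ R (n + j * d + d) e)
    (hb : ∀ m w, ∀ F ⊆ E, (∀ e ∈ F, idx m (x e) = w ∧ R m e) →
      ∑ e ∈ F, f e ≤ ENNReal.ofReal (c * sc m ^ 2) * KK d p m w) :
    ∑ e ∈ E, f e ≤ ENNReal.ofReal (c * sc n ^ 2) * XI d p k n a := by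
  rw [XI, Finset.mul_sum]
  refine sum_le_fin E f _ (fun j e => 64 * sc (n + j * d + d) ≤ (x e).im ∧
    (x e).im < 64 * sc (n + j * d) ∧ R (n + j * d + d) e)
    (fun e he => (hE e he).2.imp fun j hj => ⟨Finset.mem_range.2 hj.1, hj.2⟩) fun j _ F hF h => ?_
  rw [← mul_assoc, ← ofReal_sc, Finset.mul_sum, add_mul, one_mul, ← add_assoc]
  refine sum_le_fin F f _ (fun b e => col (n + j * d) (x e) = b)
    (fun e he => ⟨_, col_mem_bk.2 (hE e (hF he)).1, rfl⟩) fun b _ F' hF' h' => ?_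
  rw [Finset.mul_sum]
  refine sum_le_fin F' f _ (fun w e => idx (n + j * d + d) (x e) = w)
    (fun e he => ⟨_, ?_, rfl⟩) fun w _ G hG hw => hb _ w G (hG.trans (hF'.trans hF))
      fun e he => ⟨hw e he, (h e (hF' (hG he))).2.2⟩
  rw [← h' e he]
  exact idx_mem_wh (h e (hF' he)).1 (h e (hF' he)).2.1

/-- sums over objects that are attached to the boundary boxes below a boundary box -/
theorem sum_le_XII {ι : Type*} {n k : ℕ} {a : ℤ} {c : ℝ} (E : Finset ι) (f : ι → ℝ≥0∞)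
    (x : ι → ℂ) (R : ℕ → ι → Prop)
    (hE : ∀ e ∈ E, col n (x e) = a ∧ ∃ i < k, R (n + i * d + d) e)
    (hf : ∀ m, ∀ e ∈ E, R m e → f e ≤ ENNReal.ofReal (c * sc m ^ 2))
    (hb : ∀ m b, ∀ F ⊆ E, (∀ e ∈ F, col m (x e) = b ∧ R m e) →
      (F.card : ℝ≥0∞) ≤ WW d p B k m b ^ 2) :
    ∑ e ∈ E, f e ≤ ENNReal.ofReal (c * sc n ^ 2) * XII d p B k n a := by
  rw [XII, Finset.mul_sum]
  refine sum_le_fin E f _ (fun i e => R (n + i * d + d) e)
    (fun e he => (hE e he).2.imp fun j hj => ⟨Finset.mem_range.2 hj.1, hj.2⟩) fun i _ F hF h => ?_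
  have e : n + (i + 1) * d = n + i * d + d := by ring
  rw [← mul_assoc, ← ofReal_sc, Finset.mul_sum]
  refine sum_le_fin F f _ (fun b e => col (n + (i + 1) * d) (x e) = b)
    (fun e he => ⟨_, col_mem_bk.2 (hE e (hF he)).1, rfl⟩) fun b _ F' hF' h' => ?_
  rw [e] at h' ⊢
  exact sum_le_card F' f (fun e he => hf _ e (hF (hF' he)) (h e (hF' he)))
    (hb _ b F' (hF'.trans hF) fun e he => ⟨h' e he, h e (hF' he)⟩)

theorem diam_oR {m : ℕ} {b : ℤ} {A : Set ℂ} (h : A ⊆ oR m b 2) : Metric.diam A ≤ 137 * sc m := by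
  have hs := sc_pos m
  refine Metric.diam_le_of_forall_dist_le (by positivity) fun u hu v hv => ?_
  obtain ⟨a1, a2⟩ := h hu
  obtain ⟨b1, b2⟩ := h hv
  have h1 := Complex.norm_le_abs_re_add_abs_im (u - v)
  rw [Complex.sub_re, Complex.sub_im] at h1
  rw [abs_lt] at a1 a2 b1 b2
  have h2 : |u.re - v.re| ≤ 5 * sc m := abs_le.2 ⟨by linarith [a1.1, b1.2], by linarith [a1.2, b1.1]⟩
  have h3 : |u.im - v.im| ≤ 132 * sc m :=
    abs_le.2 ⟨by linarith [a2.1, b2.2], by linarith [a2.2, b2.1]⟩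
  rw [dist_eq_norm]
  linarith

/-- both ends of a long edge are exposed -/
theorem long_lt {J l : ℕ} {s t u : ℝ} (h1 : s < 64 * sc J) (h2 : 5 * sc (J + d) < t)
    (h3 : u - s ≤ t) (h4 : 64 * sc l ≤ u) : 5 * sc (l + d) < t := by
  rcases le_or_gt J l with h | h
  · linarith [sc_anti (Nat.add_le_add_right h d)]
  · linarith [sc_half h, sc_add_le l d, sc_pos l]

theorem exists_depth (hd : 1 ≤ d) (n : ℕ) {V : Finset ℂ} (hV : (V : Set ℂ) ⊆ UH) :
    ∃ k, 0 < k ∧ ∀ x ∈ V, 64 * sc (n + k * d) ≤ x.im := by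
  have h : ∀ᶠ k in atTop, ∀ x ∈ V, 64 * sc (n + k * d) ≤ x.im := by
    refine (eventually_all_finset V).2 fun x hx => ?_
    have h0 : 0 < x.im := hV hx
    obtain ⟨k, hk⟩ := exists_pow_lt_of_lt_one (by positivity : 0 < x.im / 64)
      (by norm_num : (2 : ℝ)⁻¹ < 1)
    filter_upwards [eventually_ge_atTop k] with l hl
    have h1 : sc (n + l * d) ≤ sc k := sc_anti (by nlinarith)
    have h2 : sc k < x.im / 64 := hk
    linarith
  exact ((eventually_gt_atTop 0).and h).exists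

theorem level_lt (hd : 1 ≤ d) {n i k : ℕ} {t : ℝ} (h1 : 64 * sc (n + k * d) ≤ t)
    (h2 : t < 64 * sc (n + i * d + d)) : i < k := by
  have := lt_of_sc h1 h2
  by_contra h
  nlinarith [Nat.mul_le_mul_right d (not_lt.1 h)]

variable {n : ℕ} {a : ℤ}

theorem near_bbox {x y : ℂ} {r : ℝ} (hx : x ∈ bbox n a) (h : sn x y ≤ r * sc n) (hr : r < 5) :
    y ∈ oR n a 5 ∧ y ∈ bball n a := by
  have hs := sc_pos n
  obtain ⟨h1, h2, h3, h4⟩ := hx
  obtain ⟨e1, e2⟩ := sn_le_iff.1 h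
  rw [abs_le] at e1 e2
  have h5 : r * sc n < 5 * sc n := by gcongr
  have f1 : |y.re - sc n * (a + 1 / 2)| < (1 / 2 + 5) * sc n :=
    abs_lt.2 ⟨by linarith [e1.1], by linarith [e1.2]⟩
  have f2 : |y.im| < (64 + 5) * sc n := abs_lt.2 ⟨by linarith [e2.1], by linarith [e2.2]⟩
  refine ⟨⟨f1, f2⟩, mem_ball_iff_norm.2 ?_⟩
  have g := Complex.norm_le_abs_re_add_abs_im (y - yb n a)
  rw [Complex.sub_re, Complex.sub_im, yb, Complex.ofReal_re, Complex.ofReal_im, sub_zero] at g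
  rw [yb]
  linarith

theorem X_le (hd : 7 ≤ d) (h : Dom C p W) (hS : ∀ n' a', B n' a' → SepB C n' a') (hV : C.V ⊆ UH)
    (hD : ∀ x ∈ C.V, (C.H x ∩ oR n a 5).Nonempty →
      Bornology.IsBounded (C.H x) ∧ Metric.diam (C.H x) ≤ sc (n + d))
    (hW : bball n a ∩ UH ⊆ W) {k : ℕ} (hk0 : 0 < k)
    (hk : ∀ x ∈ (C.toFC K).V, 64 * sc (n + k * d) ≤ x.im) :
    ENNReal.ofReal ((C.toFC K).X (bbox n a)) ≤
      ENNReal.ofReal (20000 * sc n ^ 2) * XX d p B k n a := by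
  have hd1 : 1 ≤ d := by omega
  have hs := sc_pos n
  have hs' := sc_small hd n
  have key : ∀ e ∈ edges (C.toFC K) (bbox n a), e.1 ∈ bbox n a ∧ C.Adj e.1 e.2 ∧
      e.1 ∈ p.pts ∧ e.2 ∈ p.pts ∧ sn e.1 e.2 ≤ 2 * sc (n + d) ∧
      64 * sc (n + k * d) ≤ e.1.im ∧ 64 * sc (n + k * d) ≤ e.2.im := by
    intro e he
    obtain ⟨h1, h2⟩ := mem_edges he
    have h3 := adj_of_mem h2
    obtain ⟨g1, g2, -, -⟩ := (C.toFC K).mem_N.1 h2
    obtain ⟨hx, hy, -, w, hwx, hwy⟩ := id h3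
    have a0 := near_bbox (r := 0) h1 (by rw [sn_self, zero_mul]) (by norm_num)
    have a1 := hD _ hx ⟨_, h.mem _ hx, a0.1⟩
    have a2 := (sn_le_dist e.1 w).trans
      ((Metric.dist_le_diam_of_mem a1.1 hwx (h.mem _ hx)).trans a1.2)
    have a3 := hD _ hy ⟨w, hwy, (near_bbox (r := 1) h1 (by linarith) (by norm_num)).1⟩
    have a4 := (sn_le_dist w e.2).trans
      ((Metric.dist_le_diam_of_mem a3.1 (h.mem _ hy) hwy).trans a3.2)
    have a5 : sn e.1 e.2 ≤ 2 * sc (n + d) := by linarith [sn_triangle e.1 w e.2]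
    exact ⟨h1, h3, h.pts ⟨hx, hW ⟨a0.2, hV hx⟩⟩, h.pts ⟨hy, hW
      ⟨(near_bbox (r := 1) h1 (by linarith) (by norm_num)).2, hV hy⟩⟩, a5, hk _ g2, hk _ g1⟩
  have hcol : ∀ {x}, x ∈ bbox n a → col n x = a := fun hx => col_eq.2 ⟨hx.1, hx.2.1⟩
  rw [X_eq, sum_edges _ _ fun x y => ((x.re - y.re) ^ 2 + (x.im - y.im) ^ 2) / 2,
    ENNReal.ofReal_sum_of_nonneg fun _ _ => by positivity, XX, mul_add]
  refine sum_le_two _ _ (fun e => ∃ j < k, 64 * sc (n + j * d + d) ≤ e.1.im ∧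
    e.1.im < 64 * sc (n + j * d) ∧ sn e.1 e.2 ≤ 5 * sc (n + j * d + d))
    (fun E hE H => ?_) fun E hE H => ?_
  · refine sum_le_XI E _ Prod.fst (fun m e => sn e.1 e.2 ≤ 5 * sc m)
      (fun e he => ⟨hcol (key e (hE he)).1, H e he⟩) fun m w F hF H' => ?_
    refine (short_le h hd1 F fun e he => ?_).trans
      (mul_le_mul_left (ENNReal.ofReal_le_ofReal (by nlinarith [sq_nonneg (sc m)])) _)
    obtain ⟨-, k1, k2, k3, -⟩ := key e (hE (hF he))
    exact ⟨k1, k2, k3, H' e he⟩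
  · refine sum_le_XII E _ Prod.fst
      (fun m e => Near m e.1 e.2 ∧ Cnt d p B k m e.1 ∧ Cnt d p B k m e.2)
      (fun e he => ⟨hcol (key e (hE he)).1, ?_⟩) (fun m e he H' => ENNReal.ofReal_le_ofReal ?_)
      fun m b F hF H' => pairs_le_WW hd1 F fun e he => ?_
    · obtain ⟨k0, k1, k2, k3, k4, k5, k6⟩ := key e (hE he)
      obtain ⟨j, hj, j1, j2⟩ := exists_layer k0.2.2.2 k k5
      have hl : 5 * sc (n + j * d + d) < sn e.1 e.2 :=
        not_le.1 fun hn => H e he ⟨j, hj, j1, j2, hn⟩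
      have hx0 : 0 < e.1.im := hV k1.1
      have hy0 : 0 < e.2.im := hV k1.2.1
      have x1 : Ex64 d p e.1 := fun l hl' => exposed_of_adj h k1
        (long_lt j2 hl (by rw [sub_self]; exact sn_nonneg _ _) hl')
      have x2 : Ex64 d p e.2 := fun l hl' => exposed_of_adj h (adj_symm k1) (by
        rw [sn_comm]
        exact long_lt j2 hl ((le_abs_self _).trans (le_max_right _ _)) hl')
      obtain ⟨i, hi, hQ, hN⟩ := exists_last (k := k) (Q := fun i => i = 0 ∨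
        (e.1.im < 64 * sc (n + i * d + d) ∧ B (n + i * d + d) (col (n + i * d + d) e.1)) ∨
        (e.2.im < 64 * sc (n + i * d + d) ∧ B (n + i * d + d) (col (n + i * d + d) e.2)))
        (Or.inl rfl) (by
          rintro i (rfl | q | q)
          exacts [hk0, level_lt hd1 k5 q.1, level_lt hd1 k6 q.1])
      have el : ∀ l, n + (i + l + 1) * d + d = n + i * d + d + l * d + d := fun l => by ring
      have lo : sc (n + i * d + d + k * d) ≤ sc (n + k * d) := sc_anti (by omega)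
      refine ⟨i, hi, ?_, ⟨k2, x1, fun l q1 q2 => hN l ?_, by linarith⟩,
        ⟨k3, x2, fun l q1 q2 => hN l ?_, by linarith⟩⟩
      · rcases hQ with rfl | q | q
        · have p0 := sc_pos (n + d)
          have j0 : 1 ≤ j := by
            rcases j with _ | j
            · rw [zero_mul, add_zero] at hl
              linarith
            · omega
          have j3 : sc (n + j * d) ≤ sc (n + d) := sc_anti (by nlinarith)
          obtain ⟨e1, e2⟩ := sn_le_iff.1 k4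
          rw [zero_mul, add_zero]
          refine ⟨Geo_floor_nbh (R := 3) p0 (by push_cast; linarith), ?_, by linarith,
            by linarith [(abs_le.1 e2).2]⟩
          rw [abs_sub_comm]
          linarith
        · exact near_of_sep (hS _ _ q.2) k1 hx0 q.1
        · exact (near_of_sep (hS _ _ q.2) (adj_symm k1) hy0 q.1).symm
      · rw [el]
        exact Or.inr (Or.inl ⟨q1, q2⟩)
      · rw [el]
        exact Or.inr (Or.inr ⟨q1, q2⟩)
    · obtain ⟨-, k1, -⟩ := key e (hE he)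
      obtain ⟨-, a2, a3, a4⟩ := H'.1
      have hx0 : 0 < e.1.im := hV k1.1
      have hy0 : 0 < e.2.im := hV k1.2.1
      have f1 : (e.1.re - e.2.re) ^ 2 ≤ (4 * sc m) ^ 2 := sq_le_sq' (abs_le.1 a2).1 (abs_le.1 a2).2
      have f2 : (e.1.im - e.2.im) ^ 2 ≤ (67 * sc m) ^ 2 := sq_le_sq' (by linarith) (by linarith)
      nlinarith [sq_nonneg (sc m)]
    · obtain ⟨a0, a1, a2, a3⟩ := H' e he
      exact ⟨⟨a2, by rw [a0]; simp, a1.left⟩, a3, a0 ▸ a1.col, a1.right⟩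

theorem Y_le (hd : 7 ≤ d) (h : Dom C p W) (hS : ∀ n' a', B n' a' → SepB C n' a') (hV : C.V ⊆ UH)
    (hD : ∀ x ∈ C.V, (C.H x ∩ oR n a 5).Nonempty →
      Bornology.IsBounded (C.H x) ∧ Metric.diam (C.H x) ≤ sc (n + d))
    (hW : bball n a ∩ UH ⊆ W) {k : ℕ} (hk0 : 0 < k)
    (hk : ∀ x ∈ (C.toFC K).V, 64 * sc (n + k * d) ≤ x.im) :
    ENNReal.ofReal ((C.toFC K).Y (bbox n a)) ≤
      ENNReal.ofReal (20000 * sc n ^ 2) * XX d p B k n a := by
  have hd1 : 1 ≤ d := by omega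
  have key : ∀ x ∈ (C.toFC K).pts (bbox n a), x ∈ bbox n a ∧ x ∈ C.V ∧ x ∈ p.pts ∧
      Metric.diam (C.H x) ≤ sc (n + d) ∧ 64 * sc (n + k * d) ≤ x.im := by
    intro x hx
    obtain ⟨h1, h2⟩ := (C.toFC K).mem_pts.1 hx
    have h3 := toFC_V_subset C K h1
    have a0 := near_bbox (r := 0) h2 (by rw [sn_self, zero_mul]) (by norm_num)
    exact ⟨h2, h3, h.pts ⟨h3, hW ⟨a0.2, hV h3⟩⟩, (hD _ h3 ⟨_, h.mem _ h3, a0.1⟩).2, hk _ h1⟩
  have hcol : ∀ {x}, x ∈ bbox n a → col n x = a := fun hx => col_eq.2 ⟨hx.1, hx.2.1⟩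
  rw [FC.Y, ENNReal.ofReal_sum_of_nonneg fun _ _ => by positivity, XX, mul_add]
  refine sum_le_two _ _ (fun x => ∃ j < k, 64 * sc (n + j * d + d) ≤ x.im ∧
    x.im < 64 * sc (n + j * d) ∧ Metric.diam (C.H x) ≤ 12 * sc (n + j * d + d))
    (fun E hE H => ?_) fun E hE H => ?_
  · refine sum_le_XI E _ id (fun m x => Metric.diam (C.H x) ≤ 12 * sc m)
      (fun x hx => ⟨hcol (key x (hE hx)).1, H x hx⟩) fun m w F hF H' => ?_
    refine (small_le h hd1 F fun x hx => ?_).trans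
      (mul_le_mul_left (ENNReal.ofReal_le_ofReal (by nlinarith [sq_nonneg (sc m)])) _)
    obtain ⟨-, k1, k2, -⟩ := key x (hE (hF hx))
    exact ⟨k1, k2, H' x hx⟩
  · refine sum_le_XII E _ id
      (fun m x => Metric.diam (C.H x) ≤ 137 * sc m ∧ x.im < 64 * sc m ∧ Cnt d p B k m x)
      (fun x hx => ⟨hcol (key x (hE hx)).1, ?_⟩) (fun m x hx H' => ENNReal.ofReal_le_ofReal ?_)
      fun m b F hF H' => ?_
    · obtain ⟨k0, k1, k2, k4, k5⟩ := key x (hE hx)
      obtain ⟨j, hj, j1, j2⟩ := exists_layer k0.2.2.2 k k5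
      have hl : 12 * sc (n + j * d + d) < Metric.diam (C.H x) :=
        not_le.1 fun hn => H x hx ⟨j, hj, j1, j2, hn⟩
      have x1 : Ex64 d p x := fun l hl' => exposed_of_diam h k1 (by
        linarith [sc_anti (Nat.add_le_add_right (lt_of_sc hl' j2).le d)])
      obtain ⟨i, hi, hQ, hN⟩ := exists_last (k := k) (Q := fun i => i = 0 ∨
        (x.im < 64 * sc (n + i * d + d) ∧ B (n + i * d + d) (col (n + i * d + d) x)))
        (Or.inl rfl) (by
          rintro i (rfl | q)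
          exacts [hk0, level_lt hd1 k5 q.1])
      have el : ∀ l, n + (i + l + 1) * d + d = n + i * d + d + l * d + d := fun l => by ring
      have lo : sc (n + i * d + d + k * d) ≤ sc (n + k * d) := sc_anti (by omega)
      refine ⟨i, hi, and_assoc.1 ⟨?_, k2, x1, fun l q1 q2 => hN l ?_, by linarith⟩⟩
      · rcases hQ with rfl | q
        · have p0 := sc_pos (n + d)
          have j0 : 1 ≤ j := by
            rcases j with _ | j
            · rw [zero_mul, add_zero] at hl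
              linarith
            · omega
          have j3 : sc (n + j * d) ≤ sc (n + d) := sc_anti (by nlinarith)
          rw [zero_mul, add_zero]
          exact ⟨by linarith, by linarith⟩
        · exact ⟨diam_oR (cell_of_sep (hS _ _ q.2) k1 (hV k1) q.1), q.1⟩
      · rw [el]
        exact Or.inr ⟨q1, q2⟩
    · change Metric.diam (C.H x) ^ 2 ≤ _
      have := pow_le_pow_left₀ Metric.diam_nonneg H'.1 2
      nlinarith [sq_nonneg (sc m)]
    · have h1 : (F.card : ℝ≥0∞) ≤ WW d p B k m b := card_le_WW hd1 F fun x hx => by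
        obtain ⟨a0, -, a2, a3⟩ := H' x hx
        exact ⟨a3, by rw [show col m x = b from a0]; simp, by linarith [sc_pos m]⟩
      refine le_trans ?_ (pow_le_pow_left' h1 2)
      exact_mod_cast Nat.le_self_pow two_ne_zero _

end D2b

theorem xy_bbox {d : ℕ} (hd : 7 ≤ d) : ∃ C₁ : ℝ≥0, ∀ (C : Cells) (p : Pat) (W K : Set ℂ)
    (B : ℕ → ℤ → Prop) (n : ℕ) (a : ℤ), Dom C p W → (∀ n' a', B n' a' → SepB C n' a') →
    C.V ⊆ UH → (∀ x ∈ C.V, (C.H x ∩ oR n a 5).Nonempty →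
      Bornology.IsBounded (C.H x) ∧ Metric.diam (C.H x) ≤ sc (n + d)) →
    bball n a ∩ UH ⊆ W →
      ENNReal.ofReal ((C.toFC K).X (bbox n a)) ≤ C₁ * ENNReal.ofReal (sc n ^ 2) *
        ∑ i ∈ Finset.Icc (a - 1) (a + 1), ⨆ k, XX d p B k n i ∧
      ENNReal.ofReal ((C.toFC K).Y (bbox n a)) ≤ C₁ * ENNReal.ofReal (sc n ^ 2) *
        ∑ i ∈ Finset.Icc (a - 1) (a + 1), ⨆ k, XX d p B k n i := by
  refine ⟨20000, fun C p W K B n a h hS hV hD hW => ?_⟩
  obtain ⟨k, hk0, hk⟩ := D2b.exists_depth (d := d) (by omega) n ((toFC_V_subset C K).trans hV)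
  have e : ENNReal.ofReal (20000 * sc n ^ 2) =
      ((20000 : ℝ≥0) : ℝ≥0∞) * ENNReal.ofReal (sc n ^ 2) := by
    rw [ENNReal.ofReal_mul (by norm_num)]
    simp
  have h1 : XX d p B k n a ≤ ∑ i ∈ Finset.Icc (a - 1) (a + 1), ⨆ k, XX d p B k n i :=
    (le_iSup (fun k => XX d p B k n a) k).trans (Finset.single_le_sum
      (f := fun i => ⨆ k, XX d p B k n i) (fun _ _ => zero_le)
      (Finset.mem_Icc.2 ⟨by omega, by omega⟩))
  rw [← e]
  exact ⟨(D2b.X_le hd h hS hV hD hW hk0 hk).trans (mul_le_mul_right h1 _),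
    (D2b.Y_le hd h hS hV hD hW hk0 hk).trans (mul_le_mul_right h1 _)⟩

end Pool.Agent.Lib.MP_0d9445_pr.Bd
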