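import Pool.Agent.Lib.MP_0d9445_pr.Bd.Defs
import Pool.Agent.Lib.MP_0d9445_pr.Met.Loc

/-! The double of a length metric on the half-plane. -/

open Set Filter Topology LQ.Met
open scoped NNReal ENNReal ComplexConjugate

noncomputable section

namespace Pool.Agent.Lib.MP_0d9445_pr.Bd

section General

variable {E : Type*} [MetricSpace E] {D : E → E → ℝ}

/-- A curve that is `1`-Lipschitz for `D` bounds the internal metric. -/
theorem DU_le_of_lip (h : IsMet D) {Γ : ℝ → E} (hΓ : ∀ s t, s ≤ t → D (Γ s) (Γ t) ≤ t - s) {B : ℝ}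
    (hB : 0 ≤ B) : DU D univ (Γ 0) (Γ B) ≤ ENNReal.ofReal B := by
  have hc : Continuous Γ := by
    refine Metric.continuous_iff.2 fun s ε hε => ?_
    obtain ⟨δ, hδ, hh⟩ := h.topo (Γ s) ε hε
    refine ⟨δ, hδ, fun t ht => ?_⟩
    rw [Real.dist_eq, abs_lt] at ht
    rw [dist_comm]
    refine hh _ ?_
    rcases le_total s t with k | k
    · linarith [hΓ s t k]
    · linarith [hΓ t s k, h.symm (Γ s) (Γ t)]
  refine iInf₂_le_of_le (fun t => Γ (B * t))
    ⟨(hc.comp (continuous_const.mul continuous_id)).continuousOn, by simp, by simp,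
      fun _ _ => mem_univ _⟩ (iSup_le fun ⟨n, u, hu, us⟩ => ?_)
  have h1 : ∀ i, D (Γ (B * u (i + 1))) (Γ (B * u i)) ≤ B * u (i + 1) - B * u i := fun i => by
    rw [h.symm]
    exact hΓ _ _ (mul_le_mul_of_nonneg_left (hu (Nat.le_succ i)) hB)
  refine (Finset.sum_le_sum fun i _ => ENNReal.ofReal_le_ofReal (h1 i)).trans ?_
  rw [← ENNReal.ofReal_sum_of_nonneg fun i _ => (h.nonneg _ _).trans (h1 i),
    Finset.sum_range_sub fun i => B * u i]
  refine ENNReal.ofReal_le_ofReal ?_
  nlinarith [(us n).2, (us 0).1]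

/-- Infinitely many short paths join to one path. -/
theorem DU_le_of_seq (h : IsMet D) {x : ℕ → E} {y : E} {a : ℕ → ℝ} {B : ℝ}
    (hx : Tendsto x atTop (𝓝 y)) (ha : ∀ n, DU D univ (x n) (x (n + 1)) < ENNReal.ofReal (a n))
    (hB : ∀ n, ∑ i ∈ Finset.range n, a i ≤ B) : DU D univ (x 0) y ≤ ENNReal.ofReal B := by
  choose L P hP _ hL using fun n => exists_UP_of_DU_lt h (ha n)
  set A : ℕ → ℝ := fun n => ∑ i ∈ Finset.range n, a i with hA
  have hAs : ∀ n, A (n + 1) = A n + a n := fun n => Finset.sum_range_succ a n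
  have ha0 : ∀ n, 0 < a n := fun n => (hP n).nonneg.trans_lt (hL n)
  have hmono : Monotone A := monotone_nat_of_le_succ fun n => by linarith [hAs n, ha0 n]
  let Γ : ℕ → ℝ → E := fun n => Nat.rec (fun _ => x 0)
    (fun n G s => if s ≤ A n then G s else P n (min (s - A n) (L n))) n
  have hs : ∀ n s, Γ (n + 1) s = if s ≤ A n then Γ n s else P n (min (s - A n) (L n)) :=
    fun _ _ => rfl
  have hend : ∀ n s, A n ≤ s → Γ n s = x n := by
    intro n s hn
    cases n with
    | zero => rfl
    | succ n =>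
      rw [hs, if_neg (by linarith [hAs n, ha0 n]), min_eq_right (by linarith [hAs n, hL n]),
        (hP n).tgt]
  have hlip : ∀ n s t, s ≤ t → D (Γ n s) (Γ n t) ≤ t - s := by
    intro n
    induction n with
    | zero => exact fun s t hst => (h.self _).trans_le (by linarith)
    | succ n ih =>
      intro s t hst
      rw [hs, hs]
      by_cases ht : t ≤ A n
      · rw [if_pos ht, if_pos (hst.trans ht)]
        exact ih s t hst
      rw [if_neg ht]
      have hm : min (t - A n) (L n) ∈ Icc 0 (L n) :=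
        ⟨le_min (by linarith) (hP n).nonneg, min_le_right _ _⟩
      by_cases hsn : s ≤ A n
      · rw [if_pos hsn]
        have k1 := ih s _ hsn
        have k2 := (hP n).le_left h hm
        rw [hend n _ le_rfl] at k1
        linarith [h.tri (Γ n s) (x n) (P n (min (t - A n) (L n))), min_le_left (t - A n) (L n)]
      · rw [if_neg hsn]
        refine ((hP n).lip h (le_min (by linarith) (hP n).nonneg)
          (min_le_min_right _ (by linarith)) hm.2).trans ?_
        rcases le_total (s - A n) (L n) with k | k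
        · rw [min_eq_left k]
          linarith [min_le_left (t - A n) (L n)]
        · rw [min_eq_right k]
          linarith [hm.2]
  have hstab : ∀ n s, s ≤ A n → ∀ m, n ≤ m → Γ m s = Γ n s := fun n s hn m hm => by
    induction m, hm using Nat.le_induction with
    | base => rfl
    | succ m hm ih => rw [hs, if_pos (hn.trans (hmono hm)), ih]
  have hlim : ∀ s, ∃ l, Tendsto (fun n => Γ n s) atTop (𝓝 l) := fun s => by
    by_cases hh : ∃ n, s ≤ A n
    · obtain ⟨n, hn⟩ := hh
      exact ⟨Γ n s, tendsto_const_nhds.congr'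
        ((eventually_ge_atTop n).mono fun m hm => (hstab n s hn m hm).symm)⟩
    · exact ⟨y, hx.congr fun n => (hend n s (not_le.1 fun k => hh ⟨n, k⟩).le).symm⟩
  choose G hG using hlim
  have h0 : G 0 = x 0 := tendsto_nhds_unique (hG 0)
    (tendsto_const_nhds.congr fun n => (hstab 0 0 (by simp [hA]) n (Nat.zero_le n)).symm)
  have h1 : G B = y := tendsto_nhds_unique (hG B) (hx.congr fun n => (hend n B (hB n)).symm)
  rw [← h0, ← h1]
  exact DU_le_of_lip h (fun s t hst => le_of_tendsto'
    ((h.cont.tendsto (G s, G t)).comp ((hG s).prodMk_nhds (hG t))) fun n => hlip n s t hst)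
    (by simpa using hB 0)

/-- If the internal metric is exact on `U`, it is exact on the closure of `U`. -/
theorem DU_le_of_closure (h : IsMet D) {U : Set E}
    (hU : ∀ x ∈ U, ∀ y ∈ U, DU D univ x y ≤ ENNReal.ofReal (D x y)) {x y : E}
    (hx : x ∈ closure U) (hy : y ∈ closure U) : DU D univ x y ≤ ENNReal.ofReal (D x y) := by
  have near : ∀ t ∈ closure U, ∀ η > 0, ∃ z ∈ U, D t z < η ∧
      DU D univ z t ≤ ENNReal.ofReal (2 * η) := by
    intro t ht η hη
    have : ∀ n : ℕ, ∃ z ∈ U, D t z < η / 2 ^ n / 2 ∧ dist z t < 1 / ((n : ℝ) + 1) := fun n => by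
      obtain ⟨δ, hδ, hh⟩ := h.exists_ball t (ε := η / 2 ^ n / 2) (by positivity)
      obtain ⟨z, hz, hd⟩ := Metric.mem_closure_iff.1 ht (min δ (1 / ((n : ℝ) + 1))) (by positivity)
      rw [dist_comm] at hd
      exact ⟨z, hz, hh z (hd.trans_le (min_le_left _ _)), hd.trans_le (min_le_right _ _)⟩
    choose z hzU hzD hzd using this
    refine ⟨z 0, hzU 0, (hzD 0).trans (by simpa using hη), DU_le_of_seq h (a := fun n => η / 2 ^ n)
      (tendsto_iff_dist_tendsto_zero.2 (squeeze_zero (fun _ => dist_nonneg) (fun n => (hzd n).le)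
        tendsto_one_div_add_atTop_nhds_zero_nat)) (fun n => ?_) fun n => ?_⟩
    · refine (hU _ (hzU n) _ (hzU (n + 1))).trans_lt
        ((ENNReal.ofReal_lt_ofReal_iff (by positivity)).2 ?_)
      have k1 := hzD n
      have k2 := hzD (n + 1)
      have k3 : 0 < η / 2 ^ n := by positivity
      rw [pow_succ, ← div_div] at k2
      linarith [h.tri (z n) t (z (n + 1)), h.symm (z n) t]
    · have k := sum_geometric_two_le n
      simp only [div_eq_mul_inv η, ← Finset.mul_sum, ← inv_pow]
      rw [one_div] at k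
      nlinarith
  refine ENNReal.le_of_forall_pos_le_add fun η hη _ => ?_
  have hη' : (0 : ℝ) < η / 6 := by positivity
  obtain ⟨x', hx', k1, k2⟩ := near x hx _ hη'
  obtain ⟨y', hy', k3, k4⟩ := near y hy _ hη'
  rw [DU_symm h] at k2
  calc DU D univ x y ≤ DU D univ x x' + (DU D univ x' y' + DU D univ y' y) :=
        (DU_triangle h _ x x' y).trans (by gcongr; exact DU_triangle h _ x' y' y)
    _ ≤ ENNReal.ofReal (2 * (η / 6)) + (ENNReal.ofReal (D x' y') + ENNReal.ofReal (2 * (η / 6))) := by
        gcongr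
        exact hU _ hx' _ hy'
    _ ≤ ENNReal.ofReal (D x y + η) := by
        rw [← ENNReal.ofReal_add (h.nonneg _ _) (by positivity),
          ← ENNReal.ofReal_add (by positivity) (add_nonneg (h.nonneg _ _) (by positivity))]
        refine ENNReal.ofReal_le_ofReal ?_
        linarith [h.tri x' x y', h.tri x y y', h.symm x x']
    _ = _ := by rw [ENNReal.ofReal_add (h.nonneg _ _) η.coe_nonneg, ENNReal.ofReal_coe_nnreal]

end General

theorem isOpen_UH : IsOpen UH := isOpen_lt continuous_const Complex.continuous_im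

theorem closure_UH : closure UH = {z : ℂ | 0 ≤ z.im} := Complex.closure_setOfPred_lt_im 0

theorem mem_closure_UH {z : ℂ} : z ∈ closure UH ↔ 0 ≤ z.im := by rw [closure_UH, mem_ofPred_eq]

/-- Folding of the plane onto the closed upper half-plane. -/
def fold (z : ℂ) : ℂ := ⟨z.re, |z.im|⟩

theorem continuous_fold : Continuous fold := by
  have : fold = fun z => (z.re : ℂ) + (|z.im| : ℝ) * Complex.I := by
    funext z
    apply Complex.ext <;> simp [fold]
  rw [this]
  fun_prop

theorem fold_mem (z : ℂ) : fold z ∈ closure UH := mem_closure_UH.2 (abs_nonneg _)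

theorem fold_of_mem {z : ℂ} (hz : z ∈ closure UH) : fold z = z :=
  Complex.ext rfl (abs_of_nonneg (mem_closure_UH.1 hz))

theorem fold_conj (z : ℂ) : fold (conj z) = fold z := Complex.ext rfl (by simp [fold])

theorem fold_real (t : ℝ) : fold t = t := fold_of_mem (mem_closure_UH.2 (by simp))

theorem dist_fold {x y : ℂ} (h : 0 ≤ x.im * y.im) : dist (fold x) (fold y) = dist x y := by
  rw [Complex.dist_eq_re_im, Complex.dist_eq_re_im]
  congr 2
  simp only [fold]
  have : |x.im| * |y.im| = x.im * y.im := by rw [← abs_mul, abs_of_nonneg h]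
  nlinarith [sq_abs x.im, sq_abs y.im]

namespace MetOn

variable {S : Set ℂ} {d : Met}

theorem nonneg (h : MetOn S d) {x y : ℂ} (hx : x ∈ S) (hy : y ∈ S) : 0 ≤ d (x, y) := by
  linarith [h.tri x hx y hy x hx, h.self x hx, h.symm x hx y hy]

theorem pos (h : MetOn S d) {x y : ℂ} (hx : x ∈ S) (hy : y ∈ S) (hne : x ≠ y) : 0 < d (x, y) := by
  obtain ⟨δ, hδ, hh⟩ := h.topo x hx _ (dist_pos.2 hne)
  exact hδ.trans_le (not_lt.1 fun k => (hh y hy k).false)

end MetOn

/-- The cost of passing through the real line. -/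
def thru (d : Met) (x y : ℂ) : ℝ := ⨅ t : ℝ, (d (fold x, t) + d (t, fold y))

section Double

variable {d : Met} (h : MetOn (closure UH) d)
include h

theorem real_mem (t : ℝ) : (t : ℂ) ∈ closure UH := mem_closure_UH.2 (by simp)

theorem le_thru (x y : ℂ) : d (fold x, fold y) ≤ thru d x y :=
  le_ciInf fun t => h.tri _ (fold_mem x) _ (real_mem h t) _ (fold_mem y)

theorem thru_le (x y : ℂ) (t : ℝ) : thru d x y ≤ d (fold x, t) + d (t, fold y) :=
  ciInf_le ⟨_, by rintro _ ⟨t, rfl⟩; exact h.tri _ (fold_mem x) _ (real_mem h t) _ (fold_mem y)⟩ t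

theorem thru_symm (x y : ℂ) : thru d x y = thru d y x :=
  iInf_congr fun t => by
    rw [h.symm _ (fold_mem x) _ (real_mem h t), h.symm _ (real_mem h t) _ (fold_mem y), add_comm]

theorem thru_tri (x y z : ℂ) : thru d x z ≤ thru d x y + d (fold y, fold z) :=
  sub_le_iff_le_add.1 (le_ciInf fun t => by
    linarith [thru_le h x z t, h.tri _ (real_mem h t) _ (fold_mem y) _ (fold_mem z)])

theorem thru_eq {x y : ℂ} (h0 : x.im * y.im = 0) : thru d x y = d (fold x, fold y) := by
  have key : ∀ x y : ℂ, x.im = 0 → thru d x y ≤ d (fold x, fold y) := fun x y hx => by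
    have e : fold x = (x.re : ℂ) := Complex.ext rfl (by simp [fold, hx])
    have := thru_le h x y x.re
    rwa [← e, h.self _ (fold_mem x), zero_add] at this
  refine le_antisymm ?_ (le_thru h x y)
  rcases mul_eq_zero.1 h0 with k | k
  · exact key x y k
  · rw [thru_symm h, h.symm _ (fold_mem x) _ (fold_mem y)]
    exact key y x k

theorem continuous_thru : Continuous fun p : ℂ × ℂ => thru d p.1 p.2 := by
  refine continuous_iff_continuousAt.2 fun q => tendsto_iff_dist_tendsto_zero.2 ?_
  have hc : Continuous fun p : ℂ × ℂ => d (fold q.1, fold p.1) + d (fold q.2, fold p.2) := by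
    have := continuous_fold
    fun_prop
  refine squeeze_zero (fun _ => dist_nonneg) (fun p => ?_) (hc.tendsto' q 0 (by
    simp only [h.self _ (fold_mem _), add_zero]))
  rw [Real.dist_eq, abs_le]
  constructor
  · linarith [thru_tri h q.2 p.1 q.1, thru_tri h p.1 p.2 q.2, thru_symm h q.1 q.2,
      thru_symm h p.1 q.2, h.symm _ (fold_mem p.1) _ (fold_mem q.1),
      h.symm _ (fold_mem p.2) _ (fold_mem q.2)]
  · linarith [thru_tri h p.2 q.1 p.1, thru_tri h q.1 q.2 p.2, thru_symm h p.1 p.2,
      thru_symm h q.1 p.2]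

/-- The double of the metric. -/
def dbl : Met :=
  ⟨fun p => if 0 ≤ p.1.im * p.2.im then d (fold p.1, fold p.2) else thru d p.1 p.2,
    Continuous.if_le (by have := continuous_fold; fun_prop) (continuous_thru h) continuous_const
      (by fun_prop) fun _ hp => (thru_eq h hp.symm).symm⟩

theorem dbl_same {x y : ℂ} (k : 0 ≤ x.im * y.im) : dbl h (x, y) = d (fold x, fold y) := if_pos k

theorem dbl_opp {x y : ℂ} (k : x.im * y.im ≤ 0) : dbl h (x, y) = thru d x y := by
  rcases k.eq_or_lt with k | k
  · rw [dbl_same h k.ge, thru_eq h k]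
  · exact if_neg k.not_ge

theorem le_dbl (x y : ℂ) : d (fold x, fold y) ≤ dbl h (x, y) := by
  rcases le_total 0 (x.im * y.im) with k | k
  · rw [dbl_same h k]
  · rw [dbl_opp h k]
    exact le_thru h x y

theorem dbl_eq {x y : ℂ} (hx : x ∈ closure UH) (hy : y ∈ closure UH) : dbl h (x, y) = d (x, y) := by
  rw [dbl_same h (mul_nonneg (mem_closure_UH.1 hx) (mem_closure_UH.1 hy)), fold_of_mem hx,
    fold_of_mem hy]

theorem dbl_conj (x y : ℂ) : dbl h (conj x, conj y) = dbl h (x, y) := by
  have e : (conj x).im * (conj y).im = x.im * y.im := by simp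
  rcases le_total 0 (x.im * y.im) with k | k
  · rw [dbl_same h k, dbl_same h (e ▸ k), fold_conj, fold_conj]
  · rw [dbl_opp h k, dbl_opp h (e ▸ k), thru, thru, fold_conj, fold_conj]

theorem dbl_symm (x y : ℂ) : dbl h (x, y) = dbl h (y, x) := by
  rcases le_total 0 (x.im * y.im) with k | k
  · rw [dbl_same h k, dbl_same h (mul_comm x.im _ ▸ k), h.symm _ (fold_mem x) _ (fold_mem y)]
  · rw [dbl_opp h k, dbl_opp h (mul_comm x.im _ ▸ k), thru_symm h]

theorem isMet_dbl : IsMet (Function.curry (dbl h)) where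
  cont := (dbl h).continuous
  self x := (dbl_same h (mul_self_nonneg _)).trans (h.self _ (fold_mem x))
  symm := dbl_symm h
  tri x y z := by
    simp only [Function.curry_apply]
    rcases le_or_gt 0 (x.im * z.im) with k | k
    · linarith [dbl_same h k, le_dbl h x y, le_dbl h y z,
        h.tri _ (fold_mem x) _ (fold_mem y) _ (fold_mem z)]
    · rcases le_or_gt (x.im * y.im) 0 with k1 | k1
      · linarith [dbl_opp h k.le, dbl_opp h k1, thru_tri h x y z, le_dbl h y z]
      · have k2 : z.im * y.im ≤ 0 := by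
          by_contra k2
          nlinarith [mul_pos k1 (not_le.1 k2), mul_self_nonneg y.im]
        linarith [dbl_opp h k.le, dbl_opp h k2, thru_tri h z y x, le_dbl h y x, thru_symm h x z,
          dbl_symm h x y, dbl_symm h y z]
  topo x ε hε := by
    simp only [Function.curry_apply]
    rcases eq_or_ne x.im 0 with hx | hx
    · obtain ⟨δ, hδ, hh⟩ := h.topo _ (fold_mem x) ε hε
      refine ⟨δ, hδ, fun y hy => ?_⟩
      rw [← dist_fold (by rw [hx, zero_mul])]
      exact hh _ (fold_mem y) ((le_dbl h x y).trans_lt hy)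
    · obtain ⟨δ, hδ, hh⟩ := h.topo _ (fold_mem x) _ (lt_min hε (abs_pos.2 hx))
      refine ⟨δ, hδ, fun y hy => ?_⟩
      rcases le_total 0 (x.im * y.im) with k | k
      · rw [← dist_fold k]
        exact (hh _ (fold_mem y) ((le_dbl h x y).trans_lt hy)).trans_le (min_le_left _ _)
      · rw [dbl_opp h k] at hy
        obtain ⟨t, ht⟩ := exists_lt_of_ciInf_lt hy
        have k1 := (hh _ (real_mem h t) (by
          linarith [MetOn.nonneg h (real_mem h t) (fold_mem y)])).trans_le (min_le_right _ _)
        have k2 := Complex.abs_im_le_norm (fold x - t)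
        rw [dist_eq_norm] at k1
        simp only [Complex.sub_im, Complex.ofReal_im, sub_zero, fold, abs_abs] at k1 k2
        exact absurd k1 k2.not_gt

end Double

namespace SurfH

variable {d : Met} (h : SurfH d)
include h

theorem isLen_dbl : IsLen (Function.curry (dbl h.met)) := by
  have hm := isMet_dbl h.met
  have up : ∀ x ∈ closure UH, ∀ y ∈ closure UH, DU (Function.curry (dbl h.met)) univ x y ≤
      ENNReal.ofReal (dbl h.met (x, y)) := fun x hx y hy => by
    refine DU_le_of_closure hm (fun x hx y hy => ?_) hx hy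
    rw [Function.curry_apply, dbl_eq h.met (subset_closure hx) (subset_closure hy),
      ← h.len x hx y hy]
    refine le_iInf₂ fun γ p => iInf₂_le_of_le γ ⟨p.cont, p.src, p.tgt, fun _ _ => mem_univ _⟩
      (le_of_eq (iSup_congr fun q => Finset.sum_congr rfl fun i _ => ?_))
    rw [Function.curry_apply, Function.curry_apply, dbl_eq h.met
      (subset_closure (p.maps (q.2.2.2 _))) (subset_closure (p.maps (q.2.2.2 _)))]
  have refl : ∀ x y, DU (Function.curry (dbl h.met)) univ (conj x) (conj y) ≤
      DU (Function.curry (dbl h.met)) univ x y := fun x y =>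
    le_iInf₂ fun γ p => iInf₂_le_of_le (fun t => conj (γ t))
      ⟨Complex.continuous_conj.comp_continuousOn p.cont, by rw [p.src], by rw [p.tgt],
        fun _ _ => mem_univ _⟩
      (le_of_eq (iSup_congr fun q => Finset.sum_congr rfl fun i _ => by
        rw [Function.curry_apply, Function.curry_apply, dbl_conj]))
  have same : ∀ x y : ℂ, 0 ≤ x.im * y.im → DU (Function.curry (dbl h.met)) univ x y ≤
      ENNReal.ofReal (dbl h.met (x, y)) := fun x y k => by
    rcases mul_nonneg_iff.1 k with k | k
    · exact up x (mem_closure_UH.2 k.1) y (mem_closure_UH.2 k.2)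
    · have k1 := refl (conj x) (conj y)
      rw [Complex.conj_conj, Complex.conj_conj] at k1
      rw [← dbl_conj]
      exact k1.trans (up _ (mem_closure_UH.2 (by simpa using k.1)) _
        (mem_closure_UH.2 (by simpa using k.2)))
  intro x y
  refine le_antisymm ?_ (le_DU hm _ x y)
  rcases le_total 0 (x.im * y.im) with k | k
  · exact same x y k
  refine ENNReal.le_of_forall_pos_le_add fun η hη _ => ?_
  obtain ⟨t, ht⟩ := exists_lt_of_ciInf_lt
    (show thru d x y < thru d x y + η from lt_add_of_pos_right _ hη)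
  have k1 := same x t (by simp)
  have k2 := same t y (by simp)
  rw [dbl_same h.met (by simp), fold_real] at k1 k2
  refine (DU_triangle hm _ x t y).trans ((add_le_add k1 k2).trans ?_)
  rw [← ENNReal.ofReal_add (MetOn.nonneg h.met (fold_mem x) (real_mem h.met t))
    (MetOn.nonneg h.met (real_mem h.met t) (fold_mem y)), ← ENNReal.ofReal_coe_nnreal,
    ← ENNReal.ofReal_add (hm.nonneg x y) η.coe_nonneg, Function.curry_apply, dbl_opp h.met k]
  exact ENNReal.ofReal_le_ofReal ht.le

theorem goodH : GoodH d :=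
  ⟨dbl h.met, isMet_dbl h.met, h.isLen_dbl, fun _ hx _ hy => dbl_eq h.met hx hy⟩

theorem nearGeo : Cell.NearGeo (closure UH) (Function.curry d) where
  self := h.met.self
  symm := h.met.symm
  tri := h.met.tri
  pos _ hx _ hy hne := MetOn.pos h.met hx hy hne
  cont := d.continuous.continuousOn
  geo x hx y hy ε hε := by
    obtain ⟨L, -, hL, hxL, hyL, hh⟩ :=
      (LQ.Met.nearGeo (isMet_dbl h.met) h.isLen_dbl).geo x (mem_univ _) y (mem_univ _) ε hε
    refine ⟨fold '' L, by rintro _ ⟨z, -, rfl⟩; exact fold_mem z,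
      hL.image _ continuous_fold.continuousOn, ⟨x, hxL, fold_of_mem hx⟩,
      ⟨y, hyL, fold_of_mem hy⟩, ?_⟩
    rintro _ ⟨z, hz, rfl⟩
    have k := hh z hz
    have k1 := le_dbl h.met x z
    have k2 := le_dbl h.met z y
    simp only [Function.curry_apply, dbl_eq h.met hx hy, fold_of_mem hx, fold_of_mem hy] at k k1 k2 ⊢
    linarith

end SurfH

end Pool.Agent.Lib.MP_0d9445_pr.Bd
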