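import Pool.Agent.Lib.MP_0d9445_pr.Bd.Iface
import Pool.Agent.Lib.MP_0d9445_pr.Bd.Double
import Pool.Agent.Lib.MP_0d9445_pr.Tip.Remove

/-! Metrics on the half-plane: doubling, comparison of internal metrics. -/

open MeasureTheory ProbabilityTheory Set Filter Topology Real LQ.Met
open scoped NNReal ENNReal ComplexConjugate

noncomputable section

namespace Pool.Agent.Lib.MP_0d9445_pr.Bd

open CR PPP Walk

namespace DblAux

variable {D₁ D₂ : ℂ → ℂ → ℝ} {V : Set ℂ} {c : ℝ}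

theorem DU_congr (h : ∀ a ∈ V, ∀ b ∈ V, D₁ a b = D₂ a b) (x y : ℂ) :
    DU D₁ V x y = DU D₂ V x y :=
  iInf_congr fun _ => iInf_congr fun p => iSup_congr fun q => Finset.sum_congr rfl fun _ _ => by
    rw [h _ (p.maps (q.2.2.2 _)) _ (p.maps (q.2.2.2 _))]

/-- a comparison near every point of `V` gives the comparison of the internal metrics -/
theorem DU_le_of_near (h₁ : IsMet D₁) (h₂ : IsMet D₂) (hc : 0 < c)
    (h : ∀ z ∈ V, ∀ᶠ v in 𝓝 z, D₁ z v ≤ c * D₂ z v) (x y : ℂ) :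
    DU D₁ V x y ≤ ENNReal.ofReal c * DU D₂ V x y := by
  have c0 := (ENNReal.ofReal_pos.2 hc).ne'
  rw [DU.eq_1 D₂]
  simp only [ENNReal.mul_iInf_of_ne c0 ENNReal.ofReal_ne_top]
  refine le_iInf₂ fun g p => ?_
  by_cases hfin : len D₂ g (Icc 0 1) = ∞
  · rw [hfin, ENNReal.mul_top c0]
    exact le_top
  obtain ⟨P, u, hm⟩ := p.exists_UP h₂ hfin
  rw [← ENNReal.ofReal_toReal hfin, ← ENNReal.ofReal_mul hc.le]
  generalize (len D₂ g (Icc 0 1)).toReal = L at u hm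
  refine iInf₂_le_of_le _ (u.isPath hm) (iSup_le fun ⟨n, v, hv, vs⟩ => ?_)
  have h1 : ∀ i, D₁ (P (L * v (i + 1))) (P (L * v i)) ≤ c * (L * v (i + 1)) - c * (L * v i) := by
    intro i
    have k0 := mul_nonneg u.nonneg (vs i).1
    have k1 := mul_le_of_le_one_right u.nonneg (vs (i + 1)).2
    rw [h₁.symm, ← mul_sub]
    exact Tip.RemoveAux.path_le h₁ h₂ hc.le u k0
      (mul_le_mul_of_nonneg_left (hv (Nat.le_succ i)) u.nonneg) k1 fun s hs =>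
        h _ (hm ⟨k0.trans hs.1.le, hs.2.le.trans k1⟩)
  refine (Finset.sum_le_sum fun i _ => ENNReal.ofReal_le_ofReal (h1 i)).trans ?_
  rw [← ENNReal.ofReal_sum_of_nonneg fun i _ => (h₁.nonneg _ _).trans (h1 i),
    Finset.sum_range_sub fun i => c * (L * v i), ← mul_sub]
  refine ENNReal.ofReal_le_ofReal (mul_le_mul_of_nonneg_left ?_ hc.le)
  linarith [mul_nonneg u.nonneg (vs 0).1, mul_le_of_le_one_right u.nonneg (vs n).2]

/-- a comparison of the internal metrics of `V` gives the comparison of the local parts -/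
theorem TU_le_of_DU_le (h₁ : IsMet D₁) (l₁ : IsLen D₁) (h₂ : IsMet D₂) (l₂ : IsLen D₂)
    (hV : IsOpen V) (hb : Bornology.IsBounded V) (hne : Vᶜ.Nonempty) (hc : 0 < c)
    (he : ∀ x ∈ V, ∀ y ∈ V, DU D₁ V x y ≤ ENNReal.ofReal c * DU D₂ V x y) (x y : ℂ) :
    TU D₁ V x y ≤ c * TU D₂ V x y := by
  by_cases hx : x ∈ V
  swap
  · rw [TU_of_notMem_left h₁ hx, TU_of_notMem_left h₂ hx, mul_zero]
  have e : ENNReal.ofReal (dOut D₁ V x) ≤ ENNReal.ofReal c * ENNReal.ofReal (dOut D₂ V x) := by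
    rw [ofReal_dOut_eq h₁ l₁ hV hb hne dense_univ hx, ofReal_dOut_eq h₂ l₂ hV hb hne dense_univ hx,
      ENNReal.mul_iSup]
    refine iSup_mono fun n => ?_
    simp only [ENNReal.mul_iInf_of_ne (ENNReal.ofReal_pos.2 hc).ne' ENNReal.ofReal_ne_top]
    exact iInf_mono fun q => iInf_mono fun hq => he x hx q hq.2.1
  rw [← ENNReal.ofReal_le_ofReal_iff (mul_nonneg hc.le (TU_nonneg h₂ V x y)),
    ENNReal.ofReal_mul hc.le]
  by_cases hy : y ∈ V
  · rw [ofReal_TU h₁ l₁, ofReal_TU h₂ l₂, mul_min]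
    exact min_le_min (he x hx y hy) e
  · rwa [TU_of_notMem_right h₁ x hy, TU_of_notMem_right h₂ x hy]

theorem exists_sq (hV : IsOpen V) {z : ℂ} (hz : z ∈ V) : ∃ r, 0 < r ∧ csq z r ⊆ V := by
  obtain ⟨ε, hε, h⟩ := Metric.isOpen_iff.1 hV z hz
  refine ⟨ε / 3, by positivity, fun y hy => h ?_⟩
  rw [mem_ball_iff_norm]
  have := Complex.norm_le_abs_re_add_abs_im (y - z)
  rw [Complex.sub_re, Complex.sub_im] at this
  linarith [hy.1, hy.2]

end DblAux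

open DblAux

variable {d d₁ d₂ : Met}

theorem IsGood.goodH {c : Cf} (h : IsGood c) : GoodH c.1 := ⟨c.1, h.1, h.2, fun _ _ _ _ => rfl⟩

theorem GoodH.smul (h : GoodH d) {κ : ℝ} (hκ : 0 < κ) : GoodH (κ • d) := by
  obtain ⟨d', h1, h2, h3⟩ := h
  exact ⟨κ • d', h1.const_mul hκ, h2.const_mul hκ, fun x hx y hy => congrArg (κ * ·) (h3 x hx y hy)⟩

theorem T_congr {w : Sq} (hw : 0 < w.2) (hU : w.o ⊆ UH)
    (h : ∀ x ∈ closure UH, ∀ y ∈ closure UH, d₁ (x, y) = d₂ (x, y)) : T w d₁ = T w d₂ := by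
  have hp : ∀ z, proj w z ∈ closure UH := fun z =>
    closure_mono hU (EN.csq_subset_closure _ hw (EN.proj_mem hw.le z))
  ext p
  exact congrArg₂ min (h _ (hp _) _ (hp _)) (congrArg sInf (image_congr fun u hu =>
    h _ (hp _) _ (closure_mono hU (frontier_subset_closure hu))))

/-- comparison of the local parts gives comparison of the internal metrics -/
theorem DU_le_of_T (h₁ : GoodH d₁) (h₂ : GoodH d₂) {V : Set ℂ} (hV : IsOpen V) (hU : V ⊆ UH)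
    {a : ℝ} (ha : 0 < a) (h : ∀ w : Sq, 0 < w.2 → w.o ⊆ V → ∀ p, T w d₁ p ≤ a * T w d₂ p)
    (x y : ℂ) : DU (Function.curry d₁) V x y ≤
      ENNReal.ofReal a * DU (Function.curry d₂) V x y := by
  obtain ⟨e₁, m₁, l₁, k₁⟩ := h₁
  obtain ⟨e₂, m₂, l₂, k₂⟩ := h₂
  have hU' := hU.trans subset_closure
  rw [← DU_congr (D₁ := Function.curry e₁) (D₂ := Function.curry d₁) fun a ha b hb =>
      k₁ a (hU' ha) b (hU' hb),
    ← DU_congr (D₁ := Function.curry e₂) (D₂ := Function.curry d₂) fun a ha b hb =>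
      k₂ a (hU' ha) b (hU' hb)]
  refine DU_le_of_near m₁ m₂ ha (fun z hz => ?_) x y
  obtain ⟨r, hr, hs⟩ := exists_sq hV hz
  have ho := (osq_subset_csq z r).trans hs
  refine Tip.RemoveAux.loc_le m₁ ha.le (isOpen_osq z r) ⟨by simpa using hr, by simpa using hr⟩
    (EN.compl_osq_nonempty _ _) fun u hu v hv => ?_
  have := h (z, r) hr ho (u, v)
  rwa [← T_congr (w := (z, r)) hr (ho.trans hU) k₁, ← T_congr (w := (z, r)) hr (ho.trans hU) k₂,
    EN.T_eq_of_mem m₁ l₁ hr (osq_subset_csq _ _ hu) (osq_subset_csq _ _ hv),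
    EN.T_eq_of_mem m₂ l₂ hr (osq_subset_csq _ _ hu) (osq_subset_csq _ _ hv)] at this

theorem MClose.mono {ξ K : ℝ} {A A' : Set ℂ} (h : MClose ξ K A d₁ d₂) (hA : A' ⊆ A) :
    MClose ξ K A' d₁ d₂ :=
  h.imp fun _ k => ⟨k.1, fun w hw hs => k.2 w hw (hs.trans hA)⟩

/-- comparison of the internal metrics of a square gives comparison of the local parts -/
theorem T_le_of_DU (h₁ : GoodH d₁) (h₂ : GoodH d₂) {w : Sq} (hw : 0 < w.2) (hU : w.o ⊆ UH)
    {a : ℝ} (ha : 0 < a) (h : ∀ x ∈ w.o, ∀ y ∈ w.o, DU (Function.curry d₁) w.o x y ≤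
      ENNReal.ofReal a * DU (Function.curry d₂) w.o x y) (p : ℂ × ℂ) :
    T w d₁ p ≤ a * T w d₂ p := by
  obtain ⟨e₁, m₁, l₁, k₁⟩ := h₁
  obtain ⟨e₂, m₂, l₂, k₂⟩ := h₂
  have hU' := hU.trans subset_closure
  rw [← T_congr hw hU k₁, ← T_congr hw hU k₂, EN.T_eq m₁ l₁ hw, EN.T_eq m₂ l₂ hw]
  refine TU_le_of_DU_le m₁ l₁ m₂ l₂ (isOpen_osq _ _)
    ((isBounded_csq _ _).subset (osq_subset_csq _ _)) (EN.compl_osq_nonempty _ _) ha
    (fun x hx y hy => ?_) _ _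
  rw [DU_congr (D₁ := Function.curry e₁) (D₂ := Function.curry d₁) fun a ha b hb =>
      k₁ a (hU' ha) b (hU' hb),
    DU_congr (D₁ := Function.curry e₂) (D₂ := Function.curry d₂) fun a ha b hb =>
      k₂ a (hU' ha) b (hU' hb)]
  exact h x hx y hy

theorem T_le_of_weylOn {D : ℂ → ℂ → ℝ} {f₁ f₂ : ℂ → ℝ} (h₁ : GoodH d₁) (h₂ : GoodH d₂) {w : Sq}
    (hw : 0 < w.2) (hU : w.o ⊆ UH) (w₁ : IsWeylOn f₁ D (Function.curry d₁) w.o)
    (w₂ : IsWeylOn f₂ D (Function.curry d₂) w.o) {t : ℝ} (hf : ∀ z ∈ w.o, f₁ z ≤ f₂ z + t)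
    (p : ℂ × ℂ) : T w d₁ p ≤ exp t * T w d₂ p :=
  T_le_of_DU h₁ h₂ hw hU (exp_pos t) (fun x hx y hy => by
    rw [w₁ x hx y hy, w₂ x hx y hy]
    exact wmetOn_le hf x y) p

/-- Weyl scalings of one metric by two functions whose difference oscillates by at most `K` -/
theorem mclose_of_weylOn {ξ K t : ℝ} (hξ : 0 ≤ ξ) {D : ℂ → ℂ → ℝ} {A : Set ℂ} {f₁ f₂ : ℂ → ℝ}
    (h₁ : GoodH d₁) (h₂ : GoodH d₂) (hU : A ⊆ UH)
    (w₁ : ∀ U, IsOpen U → U ⊆ A → IsWeylOn (fun z => ξ * f₁ z) D (Function.curry d₁) U)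
    (w₂ : ∀ U, IsOpen U → U ⊆ A → IsWeylOn (fun z => ξ * f₂ z) D (Function.curry d₂) U)
    (hf : ∀ z ∈ A, |f₁ z - f₂ z - t| ≤ K) : MClose ξ K A d₁ d₂ := by
  refine ⟨exp (ξ * t), exp_pos _, fun w hw hA p => ⟨?_, ?_⟩⟩
  · have := T_le_of_weylOn h₂ h₁ hw (hA.trans hU) (w₂ _ (isOpen_osq _ _) hA)
      (w₁ _ (isOpen_osq _ _) hA) (t := -(ξ * t + -(ξ * K))) (fun z hz => by
        nlinarith [mul_le_mul_of_nonneg_left (abs_le.1 (hf z (hA hz))).1 hξ]) p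
    have e := mul_le_mul_of_nonneg_left this (exp_pos (ξ * t + -(ξ * K))).le
    rwa [← mul_assoc, ← exp_add, add_neg_cancel, exp_zero, one_mul, exp_add] at e
  · rw [← exp_add]
    exact T_le_of_weylOn h₁ h₂ hw (hA.trans hU) (w₁ _ (isOpen_osq _ _) hA)
      (w₂ _ (isOpen_osq _ _) hA) (fun z hz => by
        nlinarith [mul_le_mul_of_nonneg_left (abs_le.1 (hf z (hA hz))).2 hξ]) p

end Pool.Agent.Lib.MP_0d9445_pr.Bd
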