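import Pool.Agent.Lib.MP_0d9445_pr.Bd.CDefs
import Pool.Agent.Lib.MP_0d9445_pr.EN.Facts
import Pool.Agent.Lib.MP_0d9445_pr.Walk.ClockOf

/-! Stage 2: reflected layers, chain distance, boundary blocking, boundary surfaces, charts. -/

open MeasureTheory ProbabilityTheory Set Filter Topology Real LQ.Met
open scoped NNReal ENNReal ComplexConjugate

noncomputable section

namespace Pool.Agent.Lib.MP_0d9445_pr.Bd

open CR PPP Walk

/-! ## Reflection -/

/-- the even part of a function, normalised by the factor `1 / √2` -/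
def evF (g : Fn) : Fn := ⟨fun z => (g z + g (conj z)) / √2, by fun_prop⟩

/-- the even part of a field -/
def evH (H : Field) : Field := ⟨fun p => (H p + H (p.1, conj p.2)) / √2, by fun_prop⟩

theorem measurable_evF : Measurable evF := by
  refine Continuous.measurable (ContinuousMap.continuous_of_continuous_uncurry _ ?_)
  show Continuous fun q : Fn × ℂ => (q.1 q.2 + q.1 (conj q.2)) / √2
  fun_prop

theorem measurable_evH : Measurable evH := by
  refine Continuous.measurable (ContinuousMap.continuous_of_continuous_uncurry _ ?_)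
  show Continuous fun q : Field × (ℝ × ℂ) => (q.1 q.2 + q.1 (q.2.1, conj q.2.2)) / √2
  fun_prop

/-! ## Metrics on the half-plane -/

/-- `d` is a metric on the closed half-plane and a length metric in the open half-plane -/
structure SurfH (d : Met) : Prop where
  met : MetOn (closure UH) d
  len : ∀ x ∈ UH, ∀ y ∈ UH, DU (Function.curry d) UH x y = ENNReal.ofReal (d (x, y))

/-- `d` agrees on the closed half-plane with a length metric of the plane -/
def GoodH (d : Met) : Prop :=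
  ∃ d' : Met, IsMet (Function.curry d') ∧ IsLen (Function.curry d') ∧
    ∀ x ∈ closure UH, ∀ y ∈ closure UH, d' (x, y) = d (x, y)

/-- points with rational coordinates -/
def Qc : Set ℂ := range fun q : ℚ × ℚ => (⟨q.1, q.2⟩ : ℂ)

/-- a chain from `x` to `y` through rational points, each step inside a rational square in `V` and
shorter than the distance to its boundary -/
structure Chain (V : Set ℂ) (d : Met) (x y : ℂ) (k : ℕ) (z : ℕ → ℂ) (w : ℕ → Sq) : Prop where
  src : z 0 = x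
  tgt : z k = y
  rat : ∀ i, 0 < i → i < k → z i ∈ Qc
  sq : ∀ i < k, (w i).1 ∈ Qc ∧ (w i).2 ∈ range ((↑) : ℚ → ℝ) ∧ (w i).o ⊆ V ∧ z i ∈ (w i).o ∧
    z (i + 1) ∈ (w i).o ∧ T (w i) d (z i, z (i + 1)) < T (w i) d (z i, (w i).1 + (w i).2)

/-- the chain distance in `V`: the internal metric of `V` written with local data only -/
def cd (V : Set ℂ) (d : Met) (x y : ℂ) : ℝ≥0∞ :=
  ⨅ (k : ℕ) (z : ℕ → ℂ) (w : ℕ → Sq) (_ : Chain V d x y k z w),
    ∑ i ∈ Finset.range k, ENNReal.ofReal (T (w i) d (z i, z (i + 1)))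

/-- the boundary blocking event, read above height `sc m`, for the frame above height
`sc (n + j)` -/
def Eb (lam : ℝ) (j m : ℕ) (d : Met) (Y : Set ℂ) (n : ℕ) (a : ℤ) : Prop :=
  ∀ w ∈ (cR n a 2 \ oR n a 2) ∩ Qc, sc (n + j) ≤ w.im → ∃ x ∈ Y ∩ (fr n a ∩ above m),
    ∀ u ∈ (fr n a ∩ above m) ∩ Qc, (u ∈ oR n a (3 / 2) ∨ u ∉ cR n a (5 / 2)) →
      ENNReal.ofReal lam * cd (fr n a ∩ above m) d w x ≤ cd (fr n a ∩ above m) d w u / 2

/-- the frame of the boundary box separates the cells -/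
def SepB (C : Cells) (n : ℕ) (a : ℤ) : Prop :=
  ∀ x ∈ C.V, (x ∈ cR n a 1 → C.H x ⊆ oR n a 2) ∧ (x ∉ oR n a 3 → Disjoint (C.H x) (cR n a 2))

/-- the local parts of the metrics in `A` are comparable up to one constant factor -/
def MClose (ξ K : ℝ) (A : Set ℂ) (d₁ d₂ : Met) : Prop :=
  ∃ κ : ℝ, 0 < κ ∧ ∀ w : Sq, 0 < w.2 → w.o ⊆ A → ∀ p,
    κ * exp (-(ξ * K)) * T w d₂ p ≤ T w d₁ p ∧ T w d₁ p ≤ κ * exp (ξ * K) * T w d₂ p

/-- `c₁` is `K`-close to `c₂` in the set `A` -/
def CloseOn (ξ γ K : ℝ) (A : Set ℂ) (c₁ c₂ : Cf) : Prop :=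
  MClose ξ K A c₁.1 c₂.1 ∧
  ENNReal.ofReal (exp (-(γ * K))) • c₂.2.restrict A ≤ c₁.2.restrict A ∧
  c₁.2.restrict A ≤ ENNReal.ofReal (exp (γ * K)) • c₂.2.restrict A

/-- a family of local functionals that is monotone under distortion -/
structure Fam (ξ γ : ℝ) (A : Set ℂ) (Θ : ℝ → Cf → ℝ≥0∞) : Prop where
  meas : ∀ L, Measurable[GG A] (Θ L)
  le_one : ∀ L c, Θ L c ≤ 1
  mono : ∀ L K c₁ c₂, 0 ≤ L → 0 ≤ K → GoodH c₁.1 → GoodH c₂.1 → c₂.2 A < ∞ →
    CloseOn ξ γ K A c₁ c₂ → Θ L c₁ ≤ Θ (L + K) c₂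

/-! ## The model with reflected layers -/

variable (M : Model)

/-- the sum of the reflected layers `n, …, m - 1` -/
def Sb (n m : ℕ) (ω : M.Ω) : Fn := ∑ j ∈ Finset.Ico n m, evF (M.eta j ω)

theorem measurable_Sb (n m : ℕ) : Measurable (Sb M n m) :=
  Finset.measurable_sum _ fun j _ => measurable_evF.comp (M.meas_eta j)

/-- the configuration of `H m + g +` reflected layers -/
def cfb (m n : ℕ) (g : Fn) (ω : M.Ω) : Cf := M.conf (addFn (M.H m ω) (g + Sb M n m ω))

theorem measurable_cfb (m n : ℕ) : Measurable fun p : Fn × M.Ω => cfb M m n p.1 p.2 :=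
  M.measurable_conf.comp (measurable_addFn.comp (((M.meas_H m).comp measurable_snd).prodMk
    (measurable_fst.add ((measurable_Sb M n m).comp measurable_snd))))

/-- the law of `cfb` -/
def Pkb (m n : ℕ) : Kernel Fn Cf where
  toFun g := M.P.map (cfb M m n g)
  measurable' := by
    refine Measure.measurable_of_measurable_coe _ fun S hS => ?_
    have h := measurable_cfb M m n
    have : (fun g : Fn => M.P.map (cfb M m n g) S) = fun g =>
        M.P (Prod.mk g ⁻¹' ((fun p : Fn × M.Ω => cfb M m n p.1 p.2) ⁻¹' S)) := by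
      funext g
      exact Measure.map_apply (h.comp measurable_prodMk_left) hS
    rw [this]
    exact measurable_measure_prodMk_left (h hS)

theorem Pkb_apply (m n : ℕ) (g : Fn) : Pkb M m n g = M.P.map (cfb M m n g) := rfl

instance (m n : ℕ) : IsMarkovKernel (Pkb M m n) :=
  ⟨fun _ => Measure.isProbabilityMeasure_map
    ((measurable_cfb M m n).comp measurable_prodMk_left).aemeasurable⟩

/-- the law of the reflected layer `n` -/
def νb (n : ℕ) : Measure Fn := (M.ν n).map evF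

/-- the law of the reflected infrared part -/
def Gb : Measure Fn := M.Ginf.map evF

/-- configuration and points -/
def Phatb (L : ℝ) (W : Sq) (m n : ℕ) : Kernel Fn Xi :=
  Pkb M m n ⊗ₖ Kernel.prodMkLeft Fn (pt2K M.γ L W)

instance (L : ℝ) (W : Sq) (m n : ℕ) : IsMarkovKernel (Phatb M L W m n) := by
  unfold Phatb
  infer_instance

/-- the free field of the model (with the additive constant of the model) -/
def freeM (ω : M.Ω) : Field := evH (addFn (M.H 0 ω) (M.ginf ω))

/-- the field that agrees in law with `freeM` above height `sc m` -/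
def truncM (m : ℕ) (ω : M.Ω) : Field := addFn (M.H m ω) (evF (M.ginf ω) + Sb M 0 m ω)

/-! ## Boundary surfaces in half-plane coordinates -/

variable {Ω : Type} [MeasurableSpace Ω]

/-- A surface of the field `φ + f₁` on the half-plane, `φ = h + g` free under `P₀ ≫ P`. -/
structure BSurf0 (P P₀ : Measure Ω) (h φ : Ω → Field) (g f₁ : Ω → ℂ → ℝ) (Z : Set ℂ)
    (d : Ω → Met) (m : Ω → Measure ℂ) : Prop where
  prob : IsProbabilityMeasure P
  ac : P ≪ P₀
  pair : IsFreePair P₀ h φ g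
  fin : Z.Finite
  bdry : Disjoint Z UH
  cont : ∀ᵐ ω ∂P, ContinuousOn (f₁ ω) Zᶜ
  surf : IsSurfVia M.γ M.ξ M.D M.μ id UH P h (fun ω z => g ω z + f₁ ω z) d m
  diag : ∀ᵐ ω ∂P, ∀ c, d ω (c, c) = 0

/-- the same with `P₀ ∼ P` -/
structure BSurf (P P₀ : Measure Ω) (h φ : Ω → Field) (g f₁ : Ω → ℂ → ℝ) (Z : Set ℂ)
    (d : Ω → Met) (m : Ω → Measure ℂ) : Prop extends BSurf0 M P P₀ h φ g f₁ Z d m where
  ac' : P₀ ≪ P

/-- a square of the upper half-plane whose closure misses `Z` -/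
structure Wok (Z : Set ℂ) (W : Sq) : Prop where
  pos : 0 < W.2
  sub : W.o ⊆ UH
  off : Disjoint W.c Z

/-! ## The walk near the boundary -/

/-- The hypotheses on the environment up to the real line. -/
structure EnvB (Z : Set ℂ) (C : ℕ → Cells) : Prop where
  sub : ∀ n, (C n).V ⊆ UH ∧ ∀ x, (C n).H x ⊆ closure UH
  nice : ∀ K, IsCompact K → K ⊆ closure UH → ∀ ε > 0, ∀ᶠ n in atTop,
    {x | x ∈ (C n).V ∧ ((C n).H x ∩ K).Nonempty}.Finite ∧ ((C n).toFC K).Nice K ε
  xy : ∀ t : ℝ, (t : ℂ) ∉ Z → ∃ Cst r₀ : ℝ, 0 < r₀ ∧ ∀ (c r : ℝ), 0 < r → r ≤ r₀ →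
    |c - t| ≤ r₀ → ∀ᶠ n in atTop, ∀ K, ((C n).toFC K).X (Cell.sqC c r) ≤ Cst * r ^ 2 ∧
      ((C n).toFC K).Y (Cell.sqC c r) ≤ Cst * r ^ 2

/-- A conformal chart `χ` from the half-plane onto `O` with inverse `χi`; `E` is the finite set of
boundary points of `O` that correspond to infinity. -/
structure Chart (χ χi : ℂ → ℂ) (O E : Set ℂ) : Prop where
  meas : Measurable χ
  holo : DifferentiableOn ℂ χ UH
  lip : LipschitzOnWith 2 χ (closure UH)
  isOpen : IsOpen O
  image : χ '' UH = O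
  image' : χ '' closure UH = closure O \ E
  fin : E.Finite
  bdry : E ⊆ frontier O
  inv : ∀ z ∈ closure UH, χi (χ z) = z
  cont : ContinuousOn χi (closure O \ E)
  lipi : ∀ R : ℝ, ∃ L : ℝ≥0, LipschitzOnWith L χi (χ '' (closure UH ∩ Metric.closedBall 0 R))
  exit : ∀ (W : Measure BM.Path) (z : ℂ), BM.IsWiener W → ∀ᵐ ω ∂BM.Px W z, ∃ t, ω t ∉ O

end Pool.Agent.Lib.MP_0d9445_pr.Bd
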