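import Pool.Agent.Lib.MP_0d9445_pr.Bd.Iface
import Pool.Agent.Lib.MP_0d9445_pr.Su.Bdry

/-! The quantum disk. -/

open MeasureTheory ProbabilityTheory Set Filter Topology Real LQ.Met
open scoped NNReal ENNReal ComplexConjugate

noncomputable section

namespace Pool.Agent.Lib.MP_0d9445_pr.Bd

open CR PPP Walk

variable {M : Model} {Ω : Type} [MeasurableSpace Ω] {P : Measure Ω} {h : Ω → Field}
  {f : Ω → ℂ → ℝ} {d : Ω → Met} {m : Ω → Measure ℂ}

theorem disk_bsurf (F : M.All) [IsProbabilityMeasure P] {ℓ : ℝ} (hℓ : 0 < ℓ)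
    (hD : IsDisk M.γ M.Q ℓ P h f) (hS : IsSurfVia M.γ M.ξ M.D M.μ id UH P h f d m)
    (hd : ∀ᵐ ω ∂P, ∀ c, d ω (c, c) = 0) :
    ∃ P₀ φ g f₁, BSurf M P P₀ h φ g f₁ {0, 1} d m ∧
      LocH P h (fun ω z => g ω z + f₁ ω z) (Metric.sphere 0 1) := by
  have hL : LocH P h f (Metric.sphere 0 1) := fun z hz _ =>
    Su.disk_locAC M.toLayers M.γ_pos.ne' hℓ.ne' hD hz
  obtain ⟨P₀, φ, g, ν, c, hp, hν, hae, hP, hf⟩ := hD
  obtain rfl := funext₂ hf
  have hc : (c : ℝ≥0∞) ≠ 0 := fun hc => IsProbabilityMeasure.ne_zero P (by simp [hP, hc])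
  have hw : Measurable fun x : ℝ => ENNReal.ofReal (exp (M.γ / 2 * sphereFn M.γ M.Q x)) := by
    unfold sphereFn; fun_prop
  refine ⟨P₀, φ, g, _, ⟨⟨inferInstance, hP ▸ withDensity_absolutelyContinuous _ _,
    hp, toFinite _, by simp [UH], .of_forall fun ω => ContinuousOn.sub ?_ continuousOn_const, hS,
    hd⟩, hP ▸ withDensity_absolutelyContinuous' (((((Measure.measurable_lintegral hw).comp hν).comp
      hp.free.meas).pow_const _).const_mul _).aemeasurable (hae.mono fun ω hω => mul_ne_zero hc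
        (ENNReal.rpow_pos hω.2.1 hω.2.2.ne).ne')⟩, hL⟩
  · have h0 : ContinuousOn (fun z : ℂ => log ‖z‖) {0, 1}ᶜ :=
      continuous_norm.continuousOn.log fun z hz => norm_ne_zero_iff.2 fun h => hz (Or.inl h)
    have h1 : ContinuousOn (fun z : ℂ => log ‖z - 1‖) {0, 1}ᶜ :=
      ContinuousOn.log (by fun_prop) fun z hz => norm_ne_zero_iff.2 fun h =>
        hz (Or.inr (sub_eq_zero.1 h))
    exact ((continuousOn_const.mul h0).sub (continuousOn_const.mul h1)).add
      (continuousOn_const.mul Su.continuous_L.continuousOn)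

end Pool.Agent.Lib.MP_0d9445_pr.Bd
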