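import Pool.Agent.Lib.MP_0d9445_pr.Bd.ExDefs
import Pool.Agent.Lib.MP_0d9445_pr.Bd.Pull
import Pool.Agent.Lib.MP_0d9445_pr.Bd.Chart
import Pool.Agent.Lib.MP_0d9445_pr.BM.ExistP

/-! The clock of a measure on the half-plane seen through a chart. -/

open MeasureTheory ProbabilityTheory Set Filter Topology Real
open scoped NNReal ENNReal

noncomputable section

namespace Pool.Agent.Lib.MP_0d9445_pr.Bd.Ex

open BM Walk

variable {χ χi : ℂ → ℂ} {O E : Set ℂ} {m : Measure ℂ} {W : Measure Path}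

namespace ExChartAux

theorem lt_top_of_le (h0 : m UHᶜ = 0) {A B : Set ℂ} (hA : MeasurableSet A) {f g : ℂ → ℝ} {a : ℝ}
    (ha : 0 ≤ a) (hs : ∀ y ∈ A, y ∈ UH → y ∈ B ∧ f y ≤ a * g y)
    (hg : ∫⁻ y in B, ENNReal.ofReal (g y) ∂m < ∞) : ∫⁻ y in A, ENNReal.ofReal (f y) ∂m < ∞ := by
  have e : A =ᵐ[m] (A ∩ UH : Set ℂ) :=
    (inter_ae_eq_left_of_ae_eq_univ (ae_eq_univ.2 h0)).symm
  calc ∫⁻ y in A, ENNReal.ofReal (f y) ∂m = ∫⁻ y in A ∩ UH, ENNReal.ofReal (f y) ∂m :=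
        setLIntegral_congr e
    _ ≤ ∫⁻ y in A ∩ UH, ENNReal.ofReal a * ENNReal.ofReal (g y) ∂m :=
        setLIntegral_mono' (hA.inter isOpen_UH.measurableSet) fun y hy => by
          rw [← ENNReal.ofReal_mul ha]
          exact ENNReal.ofReal_le_ofReal (hs y hy.1 hy.2).2
    _ ≤ ∫⁻ y in B, ENNReal.ofReal a * ENNReal.ofReal (g y) ∂m :=
        lintegral_mono_set fun y hy => (hs y hy.1 hy.2).1
    _ < ∞ := by
        rw [lintegral_const_mul' _ _ ENNReal.ofReal_ne_top]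
        exact ENNReal.mul_lt_top ENNReal.ofReal_lt_top hg

theorem map_le (c : Chart χ χi O E) (h0 : m UHᶜ = 0) {S T : Set ℂ} (hS : MeasurableSet S)
    (h : ∀ z ∈ UH, χ z ∈ S → z ∈ T) : m.map χ S ≤ m T := by
  rw [Measure.map_apply c.meas hS, ← measure_inter_conull h0]
  exact measure_mono fun z hz => h z hz.2 hz.1

end ExChartAux

open ExChartAux

theorem frost_dens {μ₀ : Measure ℂ} (hF : ∀ K, IsCompact K → Frost μ₀ K) {w : ℂ → ℝ}
    (hw : ContinuousOn w UH) (K : Set ℂ) (hK : IsCompact K) (hU : K ⊆ UH) :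
    Frost ((μ₀.restrict UH).withDensity fun z => ENNReal.ofReal (exp (w z))) K := by
  obtain ⟨M, hM⟩ := hK.exists_bound_of_continuousOn (hw.mono hU)
  obtain ⟨h1, C, α, r₀, hα, hr, h2⟩ := hF K hK
  have key : ∀ S, MeasurableSet S → S ⊆ K →
      (μ₀.restrict UH).withDensity (fun z => ENNReal.ofReal (exp (w z))) S ≤
        ENNReal.ofReal (exp M) * μ₀ S := fun S hS hSK => by
    rw [withDensity_apply _ hS]
    refine (setLIntegral_mono' (g := fun _ => ENNReal.ofReal (exp M)) hS fun y hy =>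
      ENNReal.ofReal_le_ofReal (exp_le_exp.2 ((le_abs_self _).trans (hM y (hSK hy))))).trans ?_
    rw [setLIntegral_const]
    gcongr
    exact Measure.restrict_le_self
  refine ⟨(key K hK.measurableSet le_rfl).trans_lt (ENNReal.mul_lt_top ENNReal.ofReal_lt_top h1),
    exp M * C, α, r₀, hα, hr, fun x hx r a b => ?_⟩
  refine (key _ (Metric.isOpen_ball.measurableSet.inter hK.measurableSet) inter_subset_right).trans ?_
  rw [mul_assoc, ENNReal.ofReal_mul (exp_pos M).le]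
  gcongr
  exact h2 x hx r a b

theorem frost_map (c : Chart χ χi O E) (h0 : m UHᶜ = 0)
    (hF : ∀ K, IsCompact K → K ⊆ UH → Frost m K) (K : Set ℂ) (hK : IsCompact K) (hO : K ⊆ O) :
    Frost (m.map χ) K := by
  have hz : ∀ y ∈ K, ∃ z ∈ UH, χ z = y := fun y hy => c.image.ge (hO hy)
  have hK' : IsCompact (χi '' K) := hK.image_of_continuousOn (c.cont.mono fun y hy => by
    obtain ⟨z, a, rfl⟩ := hz y hy
    exact c.mem (subset_closure a))
  have hU : χi '' K ⊆ UH := by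
    rintro _ ⟨y, hy, rfl⟩
    obtain ⟨z, a, rfl⟩ := hz y hy
    rwa [c.inv z (subset_closure a)]
  have hin : ∀ z ∈ UH, χ z ∈ K → z ∈ χi '' K := fun z a b => ⟨_, b, c.inv z (subset_closure a)⟩
  obtain ⟨h1, C, α, r₀, hα, hr, h2⟩ := hF _ hK' hU
  obtain ⟨R, hR⟩ := hK'.isBounded.subset_closedBall 0
  obtain ⟨L, hL⟩ := c.lipi R
  have hL1 : (0 : ℝ) < L + 1 := by positivity
  refine ⟨(map_le c h0 hK.measurableSet hin).trans_lt h1, C * (L + 1) ^ α, α, r₀ / (L + 1), hα,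
    div_pos hr hL1, fun x hx r a b => ?_⟩
  obtain ⟨z₀, hz₀, rfl⟩ := hz x hx
  rw [mul_assoc, ← Real.mul_rpow hL1.le a.le]
  refine (map_le c h0 (Metric.isOpen_ball.measurableSet.inter hK.measurableSet)
    fun z k hk => ?_).trans
    (h2 z₀ (hin z₀ hz₀ hx) _ (mul_pos hL1 a) (by rwa [le_div_iff₀' hL1] at b))
  refine ⟨?_, hin z k hk.2⟩
  have := hL.dist_le_mul _ ⟨z, ⟨subset_closure k, hR (hin z k hk.2)⟩, rfl⟩ _
    ⟨z₀, ⟨subset_closure hz₀, hR (hin z₀ hz₀ hx)⟩, rfl⟩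
  rw [c.inv z (subset_closure k), c.inv z₀ (subset_closure hz₀)] at this
  have e : dist (χ z) (χ z₀) < r := hk.1
  rw [Metric.mem_ball]
  nlinarith [L.coe_nonneg]

/-- the hypotheses under which the clock exists -/
structure Loc (μ : Measure ℂ) (O : Set ℂ) : Prop where
  isOpen : IsOpen O
  supp : μ Oᶜ = 0
  frost : ∀ K, IsCompact K → K ⊆ O → Frost μ K
  bd : ∀ x ∉ O, ∃ α ρ : ℝ, 0 < α ∧ α ≤ 2 ∧ 0 < ρ ∧
    ∫⁻ y in Metric.ball x ρ, ENNReal.ofReal (‖x - y‖ ^ (-α)) ∂μ < ∞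

theorem Loc.exists (h : Loc m O) (hW : IsWiener W) : ∃ A, PCAF W m A :=
  exists_PCAF_of_loc hW h.isOpen h.supp h.frost h.bd

theorem Loc.mono (h : Loc m O) {ν : Measure ℂ} {C : ℝ≥0∞} (hC : C ≠ ∞) (hν : ν ≤ C • m) :
    Loc ν O := by
  refine ⟨h.isOpen, le_zero_iff.1 ((hν _).trans_eq ?_), fun K hK hO => ?_, fun x hx => ?_⟩
  · rw [Measure.smul_apply, h.supp, smul_zero]
  · obtain ⟨h1, c, α, r₀, hα, hr, h2⟩ := h.frost K hK hO
    refine ⟨(hν _).trans_lt (ENNReal.mul_lt_top hC.lt_top h1), C.toReal * c, α, r₀, hα, hr,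
      fun x hx r a b => (hν _).trans ?_⟩
    rw [mul_assoc, ENNReal.ofReal_mul ENNReal.toReal_nonneg, ENNReal.ofReal_toReal hC]
    exact mul_le_mul' le_rfl (h2 x hx r a b)
  · obtain ⟨α, ρ, h1, h2, h3, h4⟩ := h.bd x hx
    refine ⟨α, ρ, h1, h2, h3, (lintegral_mono' (Measure.restrict_mono subset_rfl hν)
      le_rfl).trans_lt ?_⟩
    rw [Measure.restrict_smul, lintegral_smul_measure]
    exact ENNReal.mul_lt_top hC.lt_top h4

theorem Loc.locFin (h : Loc m O) : IsLocallyFiniteMeasure m := ⟨fun x => by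
  by_cases hx : x ∈ O
  · obtain ⟨ρ, hρ, h1⟩ := Metric.nhds_basis_closedBall.mem_iff.1 (h.isOpen.mem_nhds hx)
    exact ⟨_, Metric.closedBall_mem_nhds x hρ, (h.frost _ (isCompact_closedBall x ρ) h1).1⟩
  · obtain ⟨α, ρ, h1, -, h3, h4⟩ := h.bd x hx
    have hae : ∀ᵐ y ∂m, y ∈ O := h.supp
    refine ⟨_, Metric.ball_mem_nhds x (lt_min h3 one_pos), lt_of_le_of_lt ?_
      ((lintegral_mono_set (Metric.ball_subset_ball (min_le_left ρ 1))).trans_lt h4)⟩
    rw [← setLIntegral_one]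
    refine lintegral_mono_ae ?_
    filter_upwards [ae_restrict_of_ae hae, ae_restrict_mem Metric.isOpen_ball.measurableSet]
      with y h7 h8
    rw [Metric.mem_ball', dist_eq_norm] at h8
    exact ENNReal.one_le_ofReal.2 (Real.one_le_rpow_of_pos_of_le_one_of_nonpos
      (norm_pos_iff.2 (sub_ne_zero.2 fun e => hx (e ▸ h7))) (h8.le.trans (min_le_right _ _))
      (by linarith))⟩

theorem Loc.finite (h : Loc m O) (hO : Bornology.IsBounded O) : m univ ≠ ∞ := by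
  have := h.locFin
  rw [← measure_inter_conull (t := O) h.supp, univ_inter]
  exact hO.measure_lt_top.ne

theorem loc_chart (c : Chart χ χi O E) (h0 : m UHᶜ = 0)
    (hF : ∀ K, IsCompact K → K ⊆ UH → Frost m K) (hb : ∀ t, Fin m t)
    (hE : ∀ e ∈ E, ∃ α ρ : ℝ, 0 < α ∧ α ≤ 2 ∧ 0 < ρ ∧
      ∫⁻ y in χ ⁻¹' Metric.ball e ρ, ENNReal.ofReal (‖e - χ y‖ ^ (-α)) ∂m < ∞) :
    Loc (m.map χ) O := by
  have hO : m.map χ Oᶜ = 0 := le_zero_iff.1 <| (map_le c h0 c.isOpen.measurableSet.compl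
    fun z a b => (b ((c.mem_iff (subset_closure a)).2 a)).elim).trans (measure_empty (μ := m)).le
  refine ⟨c.isOpen, hO, frost_map c h0 hF, fun x hx => ?_⟩
  have hm : ∀ α ρ : ℝ, ∫⁻ y in Metric.ball x ρ, ENNReal.ofReal (‖x - y‖ ^ (-α)) ∂m.map χ =
      ∫⁻ y in χ ⁻¹' Metric.ball x ρ, ENNReal.ofReal (‖x - χ y‖ ^ (-α)) ∂m := fun α ρ =>
    setLIntegral_map Metric.isOpen_ball.measurableSet (by fun_prop) c.meas
  by_cases h1 : x ∈ closure O
  swap
  · obtain ⟨ρ, hρ, h2⟩ := Metric.isOpen_iff.1 isClosed_closure.isOpen_compl x h1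
    refine ⟨1, ρ, one_pos, one_le_two, hρ, ?_⟩
    rw [setLIntegral_measure_zero _ _ (measure_mono_null
      (h2.trans (compl_subset_compl.2 subset_closure)) hO)]
    exact ENNReal.zero_lt_top
  simp only [hm]
  by_cases h2 : x ∈ E
  · exact hE x h2
  obtain ⟨z, hz, rfl⟩ := c.image'.ge (⟨h1, h2⟩ : x ∈ closure O \ E)
  have him : z.im = 0 := le_antisymm (not_lt.1 fun k => hx ((c.mem_iff hz).2 k))
    (mem_closure_UH.1 hz)
  obtain ⟨α, ρ, hα, hα2, hρ, h3⟩ := hb z.re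
  rw [show ((z.re : ℝ) : ℂ) = z from Complex.ext rfl him.symm] at h3
  obtain ⟨η, hη, h4⟩ := Metric.continuousWithinAt_iff.1 (c.cont _ (c.mem hz)) ρ hρ
  obtain ⟨L, hL⟩ := c.lipi (‖z‖ + ρ)
  have hL1 : (0 : ℝ) < L + 1 := by positivity
  refine ⟨α, η, hα, hα2, hη, lt_top_of_le h0 (c.meas Metric.isOpen_ball.measurableSet)
    (a := (L + 1) ^ α) (by positivity) (fun y hy k => ?_) h3⟩
  have h5 := h4 (c.mem (subset_closure k)) hy
  rw [c.inv y (subset_closure k), c.inv z hz] at h5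
  refine ⟨h5, ?_⟩
  have h6 := hL.dist_le_mul _ ⟨y, ⟨subset_closure k, mem_closedBall_zero_iff.2 (by
    linarith [norm_le_norm_add_norm_sub' y z, dist_eq_norm y z])⟩, rfl⟩ _
    ⟨z, ⟨hz, mem_closedBall_zero_iff.2 (by linarith)⟩, rfl⟩
  rw [c.inv y (subset_closure k), c.inv z hz, dist_eq_norm, dist_comm, dist_eq_norm] at h6
  have h7 : 0 < ‖y - z‖ := norm_pos_iff.2 (sub_ne_zero.2 fun e => (show 0 < y.im from k).ne'
    (e ▸ him))
  have h8 : ‖y - z‖ / (L + 1) ≤ ‖χ z - χ y‖ := by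
    rw [div_le_iff₀' hL1]
    nlinarith [norm_nonneg (χ z - χ y)]
  refine (Real.rpow_le_rpow_of_nonpos (div_pos h7 hL1) h8 (neg_nonpos.2 hα.le)).trans_eq ?_
  rw [Real.div_rpow h7.le hL1.le, Real.rpow_neg hL1.le, div_inv_eq_mul, mul_comm]

theorem loc_cayley (h0 : m UHᶜ = 0)
    (hF : ∀ K, IsCompact K → K ⊆ UH → Frost m K) (hb : ∀ t, Fin m t) {α R : ℝ} (hα : 0 < α)
    (hα2 : α ≤ 2) (hR : 1 ≤ R) (hi : ∫⁻ y in {y | R < ‖y‖}, ENNReal.ofReal (‖y‖ ^ α) ∂m < ∞) :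
    Loc (m.map cayley) (Metric.ball 0 1) := by
  refine loc_chart chart_cayley h0 hF hb fun e he => ?_
  obtain rfl : e = 1 := he
  refine ⟨α, 2 / (R + 1), hα, hα2, by positivity, lt_top_of_le h0
    (chart_cayley.meas Metric.isOpen_ball.measurableSet) zero_le_one (fun y hy k => ?_) hi⟩
  have p := one_pos.trans_le (one_le_norm_add_I (subset_closure k))
  have e : ‖1 - cayley y‖ = 2 / ‖y + Complex.I‖ := by
    have := add_I_ne (subset_closure k)
    have e : 1 - cayley y = 2 * Complex.I / (y + Complex.I) := by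
      unfold cayley
      field_simp
      ring
    simp [e]
  have h1 : dist (cayley y) 1 < 2 / (R + 1) := hy
  rw [dist_comm, dist_eq_norm, e, div_lt_div_iff_of_pos_left two_pos p (by positivity)] at h1
  have h2 : ‖y + Complex.I‖ ≤ ‖y‖ + 1 := by simpa using norm_add_le y Complex.I
  refine ⟨show R < ‖y‖ by linarith, ?_⟩
  rw [e, one_mul, Real.rpow_neg (by positivity), ← Real.inv_rpow (by positivity), inv_div]
  exact Real.rpow_le_rpow (by positivity) (by linarith) hα.le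

end Pool.Agent.Lib.MP_0d9445_pr.Bd.Ex
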