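import Pool.Agent.Lib.MP_0d9445_pr.Bd.GauM

/-! A free pair and the truncated field of the model have the same local law, up to a constant. -/

open MeasureTheory ProbabilityTheory Set Filter Topology Real LQ.Gauss
open scoped NNReal ENNReal ComplexConjugate

noncomputable section

namespace Pool.Agent.Lib.MP_0d9445_pr.Bd

open CR EN
open Mu (addFn_apply addFn_addFn addFn_zero)

variable (M : Model) {Ω : Type} [MeasurableSpace Ω] {P₀ : Measure Ω} {h φ : Ω → Field}
  {g : Ω → ℂ → ℝ}

theorem IsFreeGFF_prob (H : IsFreeGFF φ P₀) : IsProbabilityMeasure P₀ :=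
  H.gauss.isProbabilityMeasure

/-- the additive constant of the model, drawn from extra randomness -/
theorem exists_const (H : IsFreeGFF φ P₀) : ∃ κ : Kernel Ω ℝ, IsMarkovKernel κ ∧
    (P₀ ⊗ₘ κ).map (fun x => addFn (φ x.1) (cst x.2)) = M.P.map (freeM M) := by
  have := IsFreeGFF_prob H
  have hc : Measurable fun ω => freeM M ω 0 := (Mu.measurable_eval 0).comp (measurable_freeM M)
  have hn := (isFreeGFF_freeM M).meas
  have ha : Measurable fun x : Field × ℝ => addFn x.1 (cst x.2) :=
    measurable_addFn' measurable_fst (measurable_cst.comp measurable_snd)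
  have hφ : Measurable fun x : Ω × ℝ => (φ x.1, x.2) := H.meas.prodMap measurable_id
  refine ⟨(condDistrib (fun ω => freeM M ω 0) (fun ω => nrm (freeM M ω)) M.P).comap φ H.meas,
    inferInstance, Measure.ext fun S hS => ?_⟩
  have e := congrArg (fun μ : Measure (Field × ℝ) => μ ((fun x => addFn x.1 (cst x.2)) ⁻¹' S))
    (compProd_map_condDistrib (X := fun ω => nrm (freeM M ω)) (μ := M.P) hc.aemeasurable)
  beta_reduce at e
  rw [Measure.compProd_apply (ha hS), ← free_law H (isFreeGFF_freeM M),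
    lintegral_map (Kernel.measurable_kernel_prodMk_left (ha hS)) H.meas,
    Measure.map_apply (hn.prodMk hc) (ha hS)] at e
  rw [Measure.map_apply (ha.fun_comp hφ) hS, Measure.compProd_apply (ha.fun_comp hφ hS),
    Measure.map_apply (measurable_freeM M) hS]
  refine e.trans (congrArg _ (Set.ext fun ω => ?_))
  have : addFn (nrm (freeM M ω)) (cst (freeM M ω 0)) = freeM M ω := by
    ext p
    rw [addFn_cst_apply, nrm_apply, sub_add_cancel]
  simp only [mem_preimage, this]

/-- the retraction of the plane above height `δ` -/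
def up (δ : ℝ) (z : ℂ) : ℂ := z.re + max z.im δ * Complex.I

theorem continuous_up (δ : ℝ) : Continuous (up δ) := by
  unfold up
  fun_prop

theorem up_mem {δ : ℝ} (hδ : 0 < δ) (z : ℂ) : up δ z ∈ UH := by
  have : (up δ z).im = max z.im δ := by simp [up]
  exact (hδ.trans_le (le_max_right _ _)).trans_eq this.symm

theorem up_eq {δ : ℝ} {z : ℂ} (hz : δ ≤ z.im) : up δ z = z := by
  rw [up, max_eq_left hz, Complex.re_add_im]

/-- `g` above height `δ`, extended to a continuous function on the plane -/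
def extF {δ : ℝ} (hδ : 0 < δ) {g : ℂ → ℝ} (hg : ContinuousOn g UH) : Fn :=
  ⟨fun z => g (up δ z), hg.comp_continuous (continuous_up δ) (up_mem hδ)⟩

theorem extF_eq {δ : ℝ} (hδ : 0 < δ) {g : ℂ → ℝ} (hg : ContinuousOn g UH) {z : ℂ}
    (hz : δ ≤ z.im) : extF hδ hg z = g z := congrArg g (up_eq hz)

/-- A free pair on an enlarged space: above height `δ` the GFF plus continuous field
`h + g' + c` is the free field of the model. -/
theorem exists_couple (H : IsFreePair P₀ h φ g) :
    ∃ κ : Kernel Ω ℝ, IsMarkovKernel κ ∧ ∀ δ : ℝ, 0 < δ → ∃ g' : Ω → Fn, Measurable g' ∧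
      (∀ ω z, δ ≤ z.im → g' ω z = g ω z) ∧
      IsGFFplus (fun x : Ω × ℝ => addFn (h x.1) (g' x.1 + cst x.2)) (P₀ ⊗ₘ κ) ∧
      ∀ V : Set ℂ, (∀ z ∈ V, δ ≤ z.im) → ∀ F : Field → ℝ≥0∞, Measurable[sigmaOn id V] F →
        ∫⁻ x, F (addFn (h x.1) (g' x.1 + cst x.2)) ∂P₀ ⊗ₘ κ = ∫⁻ ω, F (freeM M ω) ∂M.P := by
  obtain ⟨κ, hκ, e⟩ := exists_const M H.free
  have := IsFreeGFF_prob H.free
  have hf : (P₀ ⊗ₘ κ).map Prod.fst = P₀ := Measure.fst_compProd _ _
  refine ⟨κ, hκ, fun δ hδ => ?_⟩
  have hg : Measurable fun ω => extF hδ (H.cont ω) :=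
    LQ.Met.measurable_iff_eval.2 fun z => H.meas _
  have hp : IsGFFplus h ((P₀ ⊗ₘ κ).map Prod.fst) := hf.symm ▸ H.gff.plus
  refine ⟨_, hg, fun ω z hz => extF_eq hδ _ hz, (hp.of_map measurable_fst).add
    ((hg.comp measurable_fst).add (measurable_cst.comp measurable_snd)), fun V hV F hF => ?_⟩
  have hF' := hF.mono (Mu.sigmaOn_le (h := id) measurable_id V) le_rfl
  rw [← lintegral_map hF' (measurable_freeM M), ← e, lintegral_map hF' (measurable_addFn'
    (H.free.meas.fun_comp measurable_fst) (measurable_cst.fun_comp measurable_snd))]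
  refine lintegral_congr_ae ((ae_of_ae_map measurable_fst.aemeasurable (hf.symm ▸ H.eq)).mono
    fun x hx => ?_)
  refine (mem_iff_of_agree (fun p hp => ?_) (hF (measurableSet_singleton _))).2 rfl
  have hr := exp_pos (-p.1)
  have hb : exp (-p.1) < p.2.im := by
    have := hV (p.2 - exp (-p.1) * Complex.I) (hp (by
      simp [Complex.norm_real, -Complex.ofReal_exp]))
    simp only [Complex.sub_im, Complex.mul_im, Complex.ofReal_re, Complex.I_im, Complex.ofReal_im,
      Complex.I_re] at this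
    linarith
  rw [← addFn_addFn, addFn_cst_apply, addFn_cst_apply, addFn_apply, hx p hb]
  congr 2
  refine circleAverage_congr_sphere fun z hz => extF_eq hδ _ (hV z (hp ?_))
  rw [abs_of_pos hr] at hz
  exact Metric.sphere_subset_closedBall hz

/-- The local law of the configuration of a free pair above height `sc m / 4`: the mixture of
the kernels with reflected layers over the reflected infrared part. -/
theorem exists_couple_conf (H : IsFreePair P₀ h φ g) :
    ∃ κ : Kernel Ω ℝ, IsMarkovKernel κ ∧ ∀ m : ℕ, ∃ g' : Ω → Fn, Measurable g' ∧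
      (∀ ω z, sc m / 4 ≤ z.im → g' ω z = g ω z) ∧
      IsGFFplus (fun x : Ω × ℝ => addFn (h x.1) (g' x.1 + cst x.2)) (P₀ ⊗ₘ κ) ∧
      ∀ V : Set ℂ, (∀ z ∈ V, sc m / 4 ≤ z.im) → ∀ (u : Fn) (f : Cf → ℝ≥0∞), Measurable[GG V] f →
        ∫⁻ x, f (M.conf (addFn (addFn (h x.1) (g' x.1 + cst x.2)) u)) ∂P₀ ⊗ₘ κ =
          ∫⁻ η, ∫⁻ c, f c ∂Pkb M m 0 (u + η) ∂Gb M := by
  obtain ⟨κ, h1, h0⟩ := exists_couple M H
  refine ⟨κ, h1, fun m => ?_⟩
  obtain ⟨g', h2, h3, h4, h5⟩ := h0 (sc m / 4) (by linarith [EN.sc_pos m])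
  refine ⟨g', h2, h3, h4, fun V hV u f hf => ?_⟩
  refine Eq.trans ?_ (tower_trunc M m u (Φ := fun q => f q.2)
    ((hf.mono (GG_le V) le_rfl).comp measurable_snd))
  refine M.lintegral_congr_law (h4.add measurable_const) ((plus_truncM M m).add measurable_const)
    (fun F hF => ?_) hf
  have hF' := hF.comp (measurable_addFn_on V u)
  exact (h5 V hV _ hF').trans (free_trunc M m hV hF')

end Pool.Agent.Lib.MP_0d9445_pr.Bd
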