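import Pool.Agent.Lib.MP_0d9445_pr.Bd.ExDefs
import Pool.Agent.Lib.MP_0d9445_pr.Bd.GauS

/-! From the sums over rectangles to integrals. -/

open MeasureTheory ProbabilityTheory Set Filter Topology Real
open scoped NNReal ENNReal

noncomputable section

namespace Pool.Agent.Lib.MP_0d9445_pr.Bd.Ex

variable {γ α κ δ t r : ℝ} {H Φ : Field} {μ₀ ν : Measure ℂ} {g : ℂ → ℝ}

namespace ExDetAux

theorem isOpen_wsq (s ε : ℝ) : IsOpen (wsq s ε) := by
  have h1 : IsOpen {z : ℂ | |z.re - s| < ε} := isOpen_lt (by fun_prop) continuous_const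
  have h2 : IsOpen {z : ℂ | ε / 2 < z.im} := isOpen_lt continuous_const (by fun_prop)
  have h3 : IsOpen {z : ℂ | z.im < 2 * ε} := isOpen_lt (by fun_prop) continuous_const
  exact h1.inter (h2.inter h3)

theorem meas_box (t r : ℝ) : MeasurableSet (box t r) := by
  have h1 : MeasurableSet {z : ℂ | |z.re - t| ≤ r} :=
    measurableSet_le (by fun_prop) measurable_const
  have h2 : MeasurableSet {z : ℂ | 0 < z.im} := measurableSet_lt measurable_const (by fun_prop)
  have h3 : MeasurableSet {z : ℂ | z.im ≤ r} := measurableSet_le (by fun_prop) measurable_const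
  exact h1.inter (h2.inter h3)

theorem meas_UH : MeasurableSet UH := measurableSet_lt measurable_const Complex.measurable_im

theorem cover (hr : 0 < r) : box t r ⊆
    ⋃ j : ℕ, ⋃ i ∈ Finset.Icc (-(2 ^ j : ℤ)) (2 ^ j), wsq (t + i * (r / 2 ^ j)) (r / 2 ^ j) := by
  rintro y ⟨h1, h2, h3⟩
  obtain ⟨j, hj1, hj2⟩ := exists_nat_pow_near (x := r / y.im) (y := 2)
    ((one_le_div h2).2 h3) one_lt_two
  have hp : (0 : ℝ) < 2 ^ j := by positivity
  have he : 0 < r / 2 ^ j := by positivity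
  rw [le_div_iff₀ h2] at hj1
  rw [div_lt_iff₀ h2, pow_succ] at hj2
  have a1 : y.im ≤ r / 2 ^ j := by rw [le_div_iff₀ hp]; linarith
  have a2 : r / 2 ^ j / 2 < y.im := by
    rw [div_div, div_lt_iff₀ (by positivity)]; linarith
  have a3 : r = 2 ^ j * (r / 2 ^ j) := by field_simp
  set e := r / 2 ^ j
  have f1 := Int.floor_le ((y.re - t) / e)
  have f2 := Int.lt_floor_add_one ((y.re - t) / e)
  obtain ⟨b1, b2⟩ := abs_le.1 h1
  refine mem_iUnion.2 ⟨j, mem_iUnion₂.2 ⟨⌊(y.re - t) / e⌋, Finset.mem_Icc.2 ⟨?_, ?_⟩, ?_, a2, by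
    linarith⟩⟩
  · rw [Int.le_floor, le_div_iff₀ he]
    push_cast
    linarith
  · have : (y.re - t) / e ≤ 2 ^ j := by rw [div_le_iff₀ he]; linarith
    have h4 : ((⌊(y.re - t) / e⌋ : ℤ) : ℝ) ≤ ((2 ^ j : ℤ) : ℝ) := by push_cast; linarith
    exact_mod_cast h4
  · rw [le_div_iff₀ he] at f1
    rw [div_lt_iff₀ he] at f2
    rw [abs_lt]
    constructor <;> linarith

/-- the part of the half-plane at distance about `exp (-m)` from `t` -/
def ann (t : ℝ) (m : ℤ) : Set ℂ :=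
  UH ∩ {y | (m : ℝ) ≤ -log ‖y - t‖ ∧ -log ‖y - t‖ < m + 1}

theorem meas_ann (t : ℝ) (m : ℤ) : MeasurableSet (ann t m) := by
  have h1 : MeasurableSet {y : ℂ | (m : ℝ) ≤ -log ‖y - t‖} :=
    measurableSet_le measurable_const (by fun_prop)
  have h2 : MeasurableSet {y : ℂ | -log ‖y - t‖ < m + 1} :=
    measurableSet_lt (by fun_prop) measurable_const
  exact meas_UH.inter (h1.inter h2)

theorem ann_subset (t : ℝ) (m : ℤ) : ann t m ⊆ box t (exp (-m)) := by
  rintro y ⟨h1, h2, -⟩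
  have h1' : 0 < y.im := h1
  have a1 : |(y - t).im| ≤ ‖y - t‖ := Complex.abs_im_le_norm _
  have a2 : |(y - t).re| ≤ ‖y - t‖ := Complex.abs_re_le_norm _
  simp only [Complex.sub_im, Complex.ofReal_im, sub_zero, Complex.sub_re, Complex.ofReal_re,
    abs_of_pos h1'] at a1 a2
  have a3 : ‖y - t‖ ≤ exp (-m) := by
    rw [← log_le_iff_le_exp (h1'.trans_le a1)]
    linarith
  exact ⟨a2.trans a3, h1', a1.trans a3⟩

theorem box_le_int (hα : 0 ≤ α) :
    ν (box t r) ≤ ∫⁻ y in box t r, ENNReal.ofReal ((r / y.im) ^ α) ∂ν := by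
  rw [← setLIntegral_one]
  refine setLIntegral_mono' (meas_box t r) fun y hy => ?_
  rw [← ENNReal.ofReal_one]
  exact ENNReal.ofReal_le_ofReal (one_le_rpow ((one_le_div hy.2.1).2 hy.2.2) hα)

end ExDetAux

open ExDetAux

theorem le_mass (hv : IsVague γ H μ₀) (hg : ContinuousOn g UH)
    (he : ∀ p : ℝ × ℂ, exp (-p.1) < p.2.im → Φ p = H p + avg g p) (s : ℝ) {ε : ℝ} (hε : 0 < ε) :
    ((μ₀.restrict UH).withDensity fun z => ENNReal.ofReal (exp (γ * g z))) (wsq s ε) ≤
      mass γ (wsq s ε) Φ := by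
  have hδ : 0 < ε / 4 := by positivity
  have hm := (isOpen_wsq s ε).measurableSet
  have hs : wsq s ε ⊆ UH := fun z hz => (half_pos hε).trans hz.2.1
  have h1 := (Mu.isVague_iff.1 (Mu.vague_addFn hv (extF hδ hg))).le_liminf (Mu.den_cont _ _)
    (Mu.den_nonneg _ _) (isOpen_wsq s ε)
  rw [withDensity_apply _ hm] at h1
  rw [withDensity_apply _ hm, Measure.restrict_restrict hm, inter_eq_left.2 hs]
  refine (setLIntegral_congr_fun hm fun z hz => ?_).trans_le (h1.trans_eq (liminf_congr ?_))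
  · have : ε / 4 ≤ z.im := by linarith [hz.2.1]
    simp only [extF_eq hδ hg this]
  · have hlim : Tendsto (fun k : ℕ => (2 : ℝ)⁻¹ ^ k) atTop (𝓝 0) :=
      tendsto_pow_atTop_nhds_zero_of_lt_one (by norm_num) (by norm_num)
    filter_upwards [hlim.eventually (gt_mem_nhds hδ)] with k hk
    refine setLIntegral_congr_fun hm fun z hz => ?_
    rw [← Mu.exp_neg_log_two] at hk
    have hz' := hz.2.1
    have e1 := he ((k : ℝ) * log 2, z) (by dsimp only; linarith)
    have e2 : avg (extF hδ hg) ((k : ℝ) * log 2, z) = avg g ((k : ℝ) * log 2, z) := by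
      refine circleAverage_congr_sphere fun w hw => extF_eq hδ hg ?_
      rw [abs_of_pos (exp_pos _), mem_sphere_iff_norm] at hw
      have := (abs_le.1 (Complex.abs_im_le_norm (w - z))).1
      rw [Complex.sub_im] at this
      dsimp only at hw
      linarith
    simp only [Mu.den, Mu.addFn_apply, e1, e2]

theorem box_le (hν : ∀ s ε, 0 < ε → ν (wsq s ε) ≤ mass γ (wsq s ε) Φ) (hα : 0 ≤ α) (hr : 0 < r) :
    ∫⁻ y in box t r, ENNReal.ofReal ((r / y.im) ^ α) ∂ν ≤ TT γ α t r Φ := by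
  refine (lintegral_mono_set (cover hr)).trans ((lintegral_iUnion_le _ _).trans
    (ENNReal.tsum_le_tsum fun j => ?_))
  have he : 0 < r / 2 ^ j := by positivity
  have hm : MeasurableSet (⋃ i ∈ Finset.Icc (-(2 ^ j : ℤ)) (2 ^ j),
      wsq (t + i * (r / 2 ^ j)) (r / 2 ^ j)) :=
    Finset.measurableSet_biUnion _ fun i _ => (isOpen_wsq _ _).measurableSet
  refine (setLIntegral_mono' hm (g := fun _ => ENNReal.ofReal (exp (α * ((j + 1) * log 2))))
    fun y hy => ?_).trans ?_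
  · obtain ⟨i, -, -, h2, -⟩ := mem_iUnion₂.1 hy
    have h3 : 0 < y.im := (half_pos he).trans h2
    refine ENNReal.ofReal_le_ofReal ?_
    have h4 : r / y.im ≤ 2 ^ (j + 1) := by
      rw [div_div, div_lt_iff₀ (by positivity)] at h2
      rw [div_le_iff₀ h3, pow_succ]
      linarith
    refine (rpow_le_rpow (by positivity) h4 hα).trans_eq ?_
    rw [rpow_def_of_pos (by positivity), log_pow, mul_comm]
    push_cast
    rfl
  · rw [setLIntegral_const, ← Finset.mul_sum]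
    refine mul_le_mul_right ((measure_biUnion_finset_le _ _).trans ?_) _
    exact Finset.sum_le_sum fun i _ => hν _ _ he

theorem ann_le (h0 : ν UHᶜ = 0) (hκ : 0 ≤ κ) (hδ : 0 ≤ δ) :
    ∫⁻ y, ENNReal.ofReal (exp (κ * -log ‖y - t‖ - δ * |log ‖y - t‖|)) ∂ν ≤
      ENNReal.ofReal (exp (κ + δ)) *
        ∑' m : ℤ, ENNReal.ofReal (exp (κ * m - δ * |(m : ℝ)|)) * ν (box t (exp (-m))) := by
  have hc : UH ⊆ ⋃ m : ℤ, ann t m := fun y hy =>
    mem_iUnion.2 ⟨⌊-log ‖y - t‖⌋, hy, Int.floor_le _, Int.lt_floor_add_one _⟩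
  have hr : ν.restrict UH = ν := Measure.restrict_eq_self_of_ae_mem h0
  rw [← ENNReal.tsum_mul_left]
  conv_lhs => rw [← hr]
  refine (lintegral_mono_set hc).trans ((lintegral_iUnion_le _ _).trans
    (ENNReal.tsum_le_tsum fun m => ?_))
  refine (setLIntegral_mono' (meas_ann t m) (g := fun _ => ENNReal.ofReal (exp (κ + δ)) *
    ENNReal.ofReal (exp (κ * m - δ * |(m : ℝ)|))) fun y hy => ?_).trans ?_
  · obtain ⟨-, h2, h3⟩ := hy
    rw [← ENNReal.ofReal_mul (exp_pos _).le, ← exp_add]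
    refine ENNReal.ofReal_le_ofReal (exp_le_exp.2 ?_)
    have a1 : |(m : ℝ)| ≤ |log ‖y - t‖| + 1 := by
      have b1 := le_abs_self (log ‖y - t‖)
      have b2 := neg_abs_le (log ‖y - t‖)
      rw [abs_le]
      constructor <;> linarith
    have a2 := mul_le_mul_of_nonneg_left a1 hδ
    have a3 := mul_le_mul_of_nonneg_left h3.le hκ
    linarith
  · rw [setLIntegral_const, mul_assoc]
    exact mul_le_mul_right (mul_le_mul_right (measure_mono (ann_subset t m)) _) _

theorem tame_of (h0 : ν UHᶜ = 0) (hν : ∀ s ε, 0 < ε → ν (wsq s ε) ≤ mass γ (wsq s ε) Φ)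
    (hα : 0 < α) (hα1 : α ≤ 1) (hκ : 0 ≤ κ) (h : ∀ t : ℝ, t = 0 ∨ t = 1 → ∀ n : ℕ,
      ∑' m : ℤ, ENNReal.ofReal (exp (κ * m - 1 / (n + 1) * |(m : ℝ)|)) *
        TT γ α t (exp (-m)) Φ < ∞) : Tame κ ν := by
  refine ⟨h0, ⟨α, hα, hα1, fun R => ?_⟩, fun t ht δ hδ => ?_⟩
  · obtain ⟨N, hN⟩ := exists_nat_ge R
    have h1 := (ENNReal.le_tsum (-(N : ℤ))).trans_lt (h 0 (Or.inl rfl) 0)
    have h2 := ENNReal.lt_top_of_mul_ne_top_right h1.ne
      (ENNReal.ofReal_pos.2 (exp_pos _)).ne'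
    have h3 : -(((-(N : ℤ) : ℤ)) : ℝ) = N := by push_cast; ring
    rw [h3] at h2
    have h4 : (N : ℝ) + 1 ≤ exp N := add_one_le_exp _
    have h5 : (0 : ℝ) ≤ N := N.cast_nonneg
    refine lt_of_le_of_lt ?_ ((box_le hν hα.le (exp_pos _)).trans_lt h2)
    have h6 : Metric.ball (0 : ℂ) R ≤ᵐ[ν] box 0 (exp N) := by
      have : ∀ᵐ y ∂ν, y ∈ UH := h0
      filter_upwards [this] with y hy hb
      have hb' : ‖y‖ < R := mem_ball_zero_iff.1 hb
      have a1 := Complex.abs_re_le_norm y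
      have a2 := (abs_le.1 (Complex.abs_im_le_norm y)).2
      exact ⟨by rw [sub_zero]; linarith, hy, by linarith⟩
    refine (lintegral_mono_set' h6).trans (setLIntegral_mono' (meas_box _ _) fun y hy => ?_)
    refine ENNReal.ofReal_le_ofReal ?_
    have hy' := hy.2.1
    rw [rpow_neg hy'.le, ← inv_rpow hy'.le]
    refine rpow_le_rpow (by positivity) ?_ hα.le
    rw [inv_eq_one_div]
    exact div_le_div_of_nonneg_right (by linarith) hy'.le
  · obtain ⟨n, hn⟩ := exists_nat_one_div_lt hδ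
    have hn0 : (0 : ℝ) ≤ 1 / (n + 1) := by positivity
    refine lt_of_le_of_lt (lintegral_mono fun y => ?_) ((ann_le (t := t) h0 hκ hn0).trans_lt ?_)
    · refine ENNReal.ofReal_le_ofReal (exp_le_exp.2 ?_)
      have := mul_le_mul_of_nonneg_right hn.le (abs_nonneg (log ‖y - t‖))
      linarith
    · refine ENNReal.mul_lt_top ENNReal.ofReal_lt_top (lt_of_le_of_lt ?_ (h t ht n))
      exact ENNReal.tsum_le_tsum fun m => mul_le_mul_right
        ((box_le_int hα.le).trans (box_le hν hα.le (exp_pos _))) _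

end Pool.Agent.Lib.MP_0d9445_pr.Bd.Ex
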