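import Pool.Agent.Lib.MP_0d9445_pr.Bd.ExDefs

/-! A tame measure with a density. -/

open MeasureTheory ProbabilityTheory Set Filter Topology Real
open scoped NNReal ENNReal

noncomputable section

namespace Pool.Agent.Lib.MP_0d9445_pr.Bd.Ex

variable {κ β t ρ C : ℝ} {ν : Measure ℂ} {w : ℂ → ℝ}

namespace ExTameAux

theorem key (hs : ν UHᶜ = 0) (hw : ContinuousOn w UH) {S T : Set ℂ} (hS : MeasurableSet S)
    (hST : S ⊆ T) {g F : ℂ → ℝ} (hF : ∫⁻ y in T, ENNReal.ofReal (F y) ∂ν < ∞)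
    (hb : ∀ y ∈ UH, y ∈ S → exp (w y) * g y ≤ exp C * F y) :
    ∫⁻ y in S, ENNReal.ofReal (g y) ∂(ν.withDensity fun y => ENNReal.ofReal (exp (w y))) < ∞ := by
  have hU : MeasurableSet UH := (isOpen_lt continuous_const Complex.continuous_im).measurableSet
  have hae : ∀ᵐ y ∂ν, y ∈ UH := hs
  have h1 : AEMeasurable w ν := by
    have := hw.aemeasurable (μ := ν) hU
    rwa [Measure.restrict_eq_self_of_ae_mem hae] at this
  rw [setLIntegral_withDensity_eq_setLIntegral_mul_non_measurable₀ ν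
    (h1.exp.ennreal_ofReal).restrict _ hS (Eventually.of_forall fun _ => ENNReal.ofReal_lt_top)]
  have h2 : ∫⁻ y in S, ENNReal.ofReal (exp C) * ENNReal.ofReal (F y) ∂ν < ∞ := by
    rw [lintegral_const_mul' _ _ ENNReal.ofReal_ne_top]
    exact ENNReal.mul_lt_top ENNReal.ofReal_lt_top ((lintegral_mono_set hST).trans_lt hF)
  refine lt_of_le_of_lt (lintegral_mono_ae ?_) h2
  filter_upwards [ae_restrict_of_ae hae, ae_restrict_mem hS] with y hy hy'
  rw [Pi.mul_apply, ← ENNReal.ofReal_mul (exp_pos _).le, ← ENNReal.ofReal_mul (exp_pos _).le]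
  exact ENNReal.ofReal_le_ofReal (hb y hy hy')

theorem im_le (y : ℂ) (t : ℝ) : y.im ≤ ‖y - t‖ := by
  simpa using (le_abs_self _).trans (Complex.abs_im_le_norm (y - t))

end ExTameAux

open ExTameAux

theorem Tame.fin_off (h : Tame κ ν) (hw : ContinuousOn w UH) (hρ : 0 < ρ)
    (hC : ∀ y ∈ UH, ‖y - t‖ < ρ → w y ≤ C) :
    Fin (ν.withDensity fun y => ENNReal.ofReal (exp (w y))) t := by
  obtain ⟨α, h0, h1, hb⟩ := h.bd
  refine ⟨α, ρ, h0, by linarith, hρ, key (C := C) h.supp hw Metric.isOpen_ball.measurableSet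
    (Metric.ball_subset_ball' (by rw [add_comm])) (hb (dist (t : ℂ) 0 + ρ)) fun y hy hy' => ?_⟩
  have k : 0 < y.im := hy
  exact mul_le_mul (exp_le_exp.2 (hC y hy (mem_ball_iff_norm.1 hy')))
    (rpow_le_rpow_of_nonpos k (im_le y t) (by linarith)) (by positivity) (exp_pos _).le

theorem Tame.fin_tip (h : Tame κ ν) (hw : ContinuousOn w UH) (ht : t = 0 ∨ t = 1) (hβ : β < κ)
    (hρ : 0 < ρ) (hC : ∀ y ∈ UH, ‖y - t‖ < ρ → w y ≤ β * -log ‖y - t‖ + C) :
    Fin (ν.withDensity fun y => ENNReal.ofReal (exp (w y))) t := by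
  have h0 : 0 < min ((κ - β) / 2) 1 := lt_min (by linarith) one_pos
  have h1 := min_le_left ((κ - β) / 2) 1
  have h2 := min_le_right ((κ - β) / 2) 1
  refine ⟨_, min ρ 1, h0, by linarith, lt_min hρ one_pos, key (C := C) h.supp hw
    Metric.isOpen_ball.measurableSet (subset_univ _)
    (by simpa only [Measure.restrict_univ] using h.tip t ht _ h0) fun y hy hy' => ?_⟩
  have k : 0 < ‖y - t‖ := lt_of_lt_of_le hy (im_le y t)
  have k1 := lt_min_iff.1 (mem_ball_iff_norm.1 hy')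
  have k2 : log ‖y - t‖ ≤ 0 := log_nonpos k.le k1.2.le
  rw [rpow_def_of_pos k, ← exp_add, ← exp_add, abs_of_nonpos k2]
  refine exp_le_exp.2 ?_
  nlinarith [hC y hy k1.1]

theorem Tame.fin_inf (h : Tame κ ν) (hw : ContinuousOn w UH) (hβ : κ < β)
    (hC : ∀ y ∈ UH, ρ < ‖y‖ → w y ≤ β * -log ‖y‖ + C) :
    ∃ α R : ℝ, 0 < α ∧ α ≤ 2 ∧ 1 ≤ R ∧ ∫⁻ y in {y | R < ‖y‖}, ENNReal.ofReal (‖y‖ ^ α)
      ∂(ν.withDensity fun y => ENNReal.ofReal (exp (w y))) < ∞ := by
  have h0 : 0 < min ((β - κ) / 2) 1 := lt_min (by linarith) one_pos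
  have h1 := min_le_left ((β - κ) / 2) 1
  have h2 := min_le_right ((β - κ) / 2) 1
  refine ⟨_, max ρ 1, h0, by linarith, le_max_right _ _, key (C := C) h.supp hw
    (isOpen_lt continuous_const continuous_norm).measurableSet (subset_univ _)
    (by simpa only [Measure.restrict_univ] using h.tip 0 (Or.inl rfl) _ h0) fun y hy hy' => ?_⟩
  have k1 := max_lt_iff.1 (show max ρ 1 < ‖y‖ from hy')
  have k : 0 < ‖y‖ := by linarith [k1.2]
  have k2 : 0 ≤ log ‖y‖ := log_nonneg k1.2.le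
  simp only [Complex.ofReal_zero, sub_zero]
  rw [rpow_def_of_pos k, ← exp_add, ← exp_add, abs_of_nonneg k2]
  refine exp_le_exp.2 ?_
  nlinarith [hC y hy k1.1]

end Pool.Agent.Lib.MP_0d9445_pr.Bd.Ex
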