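import Pool.Agent.Lib.MP_0d9445_pr.Bd.Iface
import Pool.Agent.Lib.MP_0d9445_pr.Su.Bdry

/-! The quantum wedge. -/

open MeasureTheory ProbabilityTheory Set Filter Topology Real LQ.Met
open scoped NNReal ENNReal ComplexConjugate

noncomputable section

namespace Pool.Agent.Lib.MP_0d9445_pr.Bd

open CR PPP Walk

variable {M : Model} {Ω : Type} [MeasurableSpace Ω] {P : Measure Ω} {h : Ω → Field}
  {f : Ω → ℂ → ℝ} {d : Ω → Met} {m : Ω → Measure ℂ}

theorem wedge_radial (γ Q : ℝ) {b c : ℝ≥0 → ℝ} (hb : Continuous b) (hc : Continuous c)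
    (b0 : b 0 = 0) (c0 : c 0 = 0) : Continuous (radial γ Q b c) := by
  have h0 : c (sSup {u | c u + (Q - γ) * u = 0}) +
      (Q - γ) * (sSup {u | c u + (Q - γ) * u = 0} : ℝ≥0) = 0 := by
    by_cases hb : BddAbove {u : ℝ≥0 | c u + (Q - γ) * u = 0}
    · exact IsClosed.csSup_mem (s := {u : ℝ≥0 | c u + (Q - γ) * u = 0})
        (isClosed_eq (by fun_prop) continuous_const) ⟨0, by simp [c0]⟩ hb
    · rw [NNReal.sSup_of_not_bddAbove hb]
      simp [c0]
  unfold radial
  refine Continuous.if_le (by fun_prop) (by fun_prop) continuous_const continuous_id ?_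
  rintro _ rfl
  simpa [b0] using h0.symm

theorem wedge_bsurf (F : M.All) [IsProbabilityMeasure P] (hW : IsWedge M.γ M.Q P h f)
    (hS : IsSurfVia M.γ M.ξ M.D M.μ id UH P h f d m) (hd : ∀ᵐ ω ∂P, ∀ c, d ω (c, c) = 0) :
    ∃ φ g f₁, BSurf M P P h φ g f₁ {0} d m ∧
      LocH P h (fun ω z => g ω z + f₁ ω z) (Metric.sphere 0 1) := by
  have hL : LocH P h f (Metric.sphere 0 1) := fun z hz h1 =>
    Su.wedge_locAC M.toLayers hW hz (by simpa using h1)
  obtain ⟨φ, g, hp, b, c, -, -, hb, hc, -, -, hf⟩ := hW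
  obtain rfl := funext₂ hf
  refine ⟨φ, g, _, ⟨⟨inferInstance, .rfl, hp, finite_singleton 0,
    disjoint_singleton_left.2 (by simp [UH]), ?_, hS, hd⟩, .rfl⟩, hL⟩
  filter_upwards [hb.cont, hc.cont, hb.toIsPreBrownianReal.eval_zero_ae_eq_zero,
    hc.toIsPreBrownianReal.eval_zero_ae_eq_zero] with ω h1 h2 h3 h4
  have hl : ContinuousOn (fun z : ℂ => -log ‖z‖) {0}ᶜ :=
    (continuous_norm.continuousOn.log fun z hz => norm_ne_zero_iff.2 hz).neg
  exact (continuousOn_const.mul ((wedge_radial _ _ h1 h2 h3 h4).comp_continuousOn hl)).sub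
    ((φ ω).continuous.comp_continuousOn (hl.prodMk continuousOn_const))

end Pool.Agent.Lib.MP_0d9445_pr.Bd
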