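import Pool.Agent.Lib.MP_0d9445_pr.Bd.ExMom
import Pool.Agent.Lib.MP_0d9445_pr.Bd.ExDet
import Pool.Agent.Lib.MP_0d9445_pr.Bd.ExTame
import Pool.Agent.Lib.MP_0d9445_pr.Bd.ExChart
import Pool.Agent.Lib.MP_0d9445_pr.Bd.Wedge
import Pool.Agent.Lib.MP_0d9445_pr.BM.Growth
import Pool.Agent.Lib.MP_0d9445_pr.AS.RefOK

/-! The Liouville clock exists on the quantum wedge and on the quantum disk. -/

open MeasureTheory ProbabilityTheory Set Filter Topology Real
open scoped NNReal ENNReal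

noncomputable section

namespace Pool.Agent.Lib.MP_0d9445_pr.Bd

open BM Walk AS

variable {Ω : Type} [MeasurableSpace Ω] {M : Model} {P : Measure Ω} {h φ : Ω → Field}
  {f g : Ω → ℂ → ℝ} {d : Ω → Met} {m : Ω → Measure ℂ} {O : Set ℂ}

namespace Ex

theorem free_tame (M : Model) (hp : IsFreePair P h φ g) : ∀ᵐ ω ∂P, Tame (2 + M.γ ^ 2 / 2)
    (((M.μ (h ω)).restrict UH).withDensity fun z => ENNReal.ofReal (exp (M.γ * g ω z))) := by
  have h1 := M.γ_pos
  have h2 := M.γ_lt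
  filter_upwards [M.hμ.vague _ _ _ hp.gff.plus, hp.eq,
    ae_all_iff.2 fun n : ℕ => ae_sum h1 h2 hp.free 0 Nat.one_div_pos_of_nat,
    ae_all_iff.2 fun n : ℕ => ae_sum h1 h2 hp.free 1 Nat.one_div_pos_of_nat] with ω a b c e
  refine tame_of (withDensity_absolutelyContinuous _ _ ?_) (fun s ε hε => le_mass a (hp.cont ω) b s hε)
    (α := (1 - M.γ / 2) ^ 2 / 4) (div_pos (pow_pos (by linarith) 2) four_pos) (by nlinarith)
    (by positivity) fun t ht => ht.elim (fun ht => ht ▸ c) fun ht => ht ▸ e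
  rw [Measure.restrict_apply isOpen_UH.measurableSet.compl, compl_inter_self, measure_empty]

theorem gff_frost (F : M.All) (R : RefOK M) (hp : IsFreePair P h φ g) :
    ∀ᵐ ω ∂P, ∀ K, IsCompact K → Frost (M.μ (h ω)) K := by
  have hh := hp.gff.meas
  have hν := Su.ConeAux.isGFF0_map hp.gff hp.zero
  have e : P.map (M.conf ∘ h) = M.ref0 := by
    rw [← Measure.map_map M.measurable_conf hh, F.eu _ hν.1 hν.2,
      Measure.map_map M.measurable_conf (RefOK_plus_hat M).1]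
    rfl
  exact (ae_of_ae_map (p := fun c : Cf => MeasOK c.2 univ) (M.measurable_conf.comp hh).aemeasurable
    (e ▸ R.ok)).mono fun ω hω K hK => hω.frost K hK (subset_univ _)

theorem dens_add {μ₀ : Measure ℂ} {u w : ℂ → ℝ} (γ : ℝ) (hu : ContinuousOn u UH)
    (hw : ContinuousOn w UH) :
    ((μ₀.restrict UH).withDensity fun z => ENNReal.ofReal (exp (γ * (u z + w z)))) =
      ((μ₀.restrict UH).withDensity fun z => ENNReal.ofReal (exp (γ * u z))).withDensity
        fun z => ENNReal.ofReal (exp (γ * w z)) := by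
  have hm : ∀ {v : ℂ → ℝ}, ContinuousOn v UH →
      AEMeasurable (fun z => ENNReal.ofReal (exp (γ * v z))) (μ₀.restrict UH) := fun hv =>
    ((continuousOn_const.mul hv).rexp.aemeasurable isOpen_UH.measurableSet).ennreal_ofReal
  rw [← withDensity_mul₀ (hm hu) (hm hw)]
  simp only [mul_add, exp_add, ENNReal.ofReal_mul (exp_pos _).le]
  rfl

theorem bound_near {w : ℂ → ℝ} {z : ℂ} (hw : ContinuousAt w z) :
    ∃ ρ, 0 < ρ ∧ ∀ y, ‖y - z‖ < ρ → w y ≤ w z + 1 := by
  obtain ⟨ρ, hρ, h⟩ := Metric.continuousAt_iff.1 hw 1 one_pos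
  exact ⟨ρ, hρ, fun y hy => by linarith [(abs_lt.1 (h (dist_eq_norm y z ▸ hy))).2]⟩

theorem free_bm (hφ : IsFreeGFF φ P) :
    IsBrownianReal (fun (s : ℝ≥0) ω => φ ω ((s : ℝ) / 2, 0)) P := by
  have := hφ.gauss.isProbabilityMeasure
  refine ⟨(hφ.gauss.comp_right fun s : ℝ≥0 => ((s : ℝ) / 2, (0 : ℂ))).isPreBrownianReal_of_covariance
    (fun s => hφ.mean _) fun s t hst => ?_, .of_forall fun ω => by fun_prop⟩
  have h1 := Su.ConeAux.kap_sign (σ := 1) (Or.inl rfl) (s := s / 2) (t := t / 2) (by positivity)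
    (by positivity)
  have h2 : (s : ℝ) / 2 ≤ t / 2 := by gcongr
  rw [one_mul, one_mul, min_eq_left h2] at h1
  simp only [Function.comp_apply]
  rw [covariance_eq_sub (hφ.gauss.hasGaussianLaw_eval _).memLp_two
    (hφ.gauss.hasGaussianLaw_eval _).memLp_two]
  have h3 := hφ.cov ((s : ℝ) / 2, 0) ((t : ℝ) / 2, 0)
  simp only [freeCov, map_zero, Su.ConeAux.gffCov_rad, h1] at h3
  simp only [Pi.mul_apply, hφ.mean, h3]
  ring

theorem wedge (F : M.All) (R : RefOK M) (hW : IsWedge M.γ M.Q P h f)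
    (hS : IsSurfVia M.γ M.ξ M.D M.μ id O P h f d m) : ∀ᵐ ω ∂P, Loc (m ω) UH := by
  obtain ⟨φ, g, hp, b, c, -, -, hb, hc, -, -, hf⟩ := hW
  obtain rfl := funext₂ hf
  have hγ := M.γ_pos
  have hγ2 := M.γ_lt
  filter_upwards [hb.cont, hc.cont, hb.toIsPreBrownianReal.eval_zero_ae_eq_zero,
    hc.toIsPreBrownianReal.eval_zero_ae_eq_zero, hS.area, free_tame M hp, gff_frost F R hp,
    growth hb, growth (free_bm hp.free)] with ω h1 h2 h3 h4 h5 h6 h7 h8 h9
  have hl : ContinuousOn (fun z : ℂ => -log ‖z‖) {0}ᶜ :=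
    (continuous_norm.continuousOn.log fun z hz => norm_ne_zero_iff.2 hz).neg
  have hw : ContinuousOn (fun z : ℂ => √2 * radial (M.γ / √2) (M.Q / √2) (b · ω) (c · ω)
      (-log ‖z‖) - φ ω (-log ‖z‖, 0)) {0}ᶜ :=
    (continuousOn_const.mul ((wedge_radial _ _ h1 h2 h3 h4).comp_continuousOn hl)).sub
      ((φ ω).continuous.comp_continuousOn (hl.prodMk continuousOn_const))
  have hU : UH ⊆ {0}ᶜ := fun z hz e => by simp [show z = 0 from e, UH] at hz
  have hw' := hw.mono hU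
  have e := dens_add (μ₀ := M.μ (h ω)) M.γ (hp.cont ω) hw'
  rw [h5]
  refine loc_chart chart_id (e ▸ withDensity_absolutelyContinuous _ _ h6.supp)
    (frost_dens h7 (continuousOn_const.mul ((hp.cont ω).add hw'))) (fun t => e ▸ ?_)
    fun _ he => he.elim
  rcases eq_or_ne t 0 with rfl | ht
  · obtain ⟨δ, hδ, hδe⟩ : ∃ δ : ℝ, 0 < δ ∧ 8 * M.γ * δ = 2 - M.γ ^ 2 / 2 :=
      ⟨(2 - M.γ ^ 2 / 2) / (8 * M.γ), div_pos (by nlinarith) (by positivity), by field_simp⟩
    obtain ⟨C₁, a1⟩ := h8 δ hδ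
    obtain ⟨C₂, a2⟩ := h9 δ hδ
    refine h6.fin_tip (continuousOn_const.mul hw') (Or.inl rfl) (β := M.γ ^ 2 + 4 * M.γ * δ)
      (C := M.γ * (2 * |C₁| + C₂)) (by nlinarith) one_pos fun y hy hy1 => ?_
    rw [Complex.ofReal_zero, sub_zero] at hy1 ⊢
    have hs : 0 ≤ -log ‖y‖ := neg_nonneg.2 (log_nonpos (norm_nonneg _) hy1.le)
    generalize hse : -log ‖y‖ = s at hs
    have b1 := a1 s.toNNReal
    have b2 := a2 (2 * s).toNNReal
    rw [Real.coe_toNNReal _ hs] at b1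
    rw [Real.coe_toNNReal _ (by positivity), mul_div_cancel_left₀ _ two_ne_zero] at b2
    have r0 : 0 < √2 := by positivity
    have r2 : √2 ≤ 2 := sqrt_le_iff.2 (by norm_num)
    have b3 : √2 * (b s.toNNReal ω + M.γ / √2 * s) ≤ 2 * (δ * s + |C₁|) + M.γ * s := by
      rw [mul_add, ← mul_assoc, mul_div_cancel₀ _ r0.ne']
      exact add_le_add_left ((mul_le_mul_of_nonneg_left (le_abs_self _) r0.le).trans
        (mul_le_mul r2 (b1.trans (by linarith [le_abs_self C₁])) (abs_nonneg _) zero_le_two)) _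
    simp only [radial, if_pos hs]
    nlinarith [mul_le_mul_of_nonneg_left b3 hγ.le,
      mul_le_mul_of_nonneg_left (neg_le_of_abs_le b2) hγ.le]
  · obtain ⟨ρ, hρ, a⟩ := bound_near (((continuousOn_const (c := M.γ)).mul hw).continuousAt
      (isOpen_compl_singleton.mem_nhds (Complex.ofReal_ne_zero.2 ht)))
    exact h6.fin_off (continuousOn_const.mul hw') hρ fun y _ => a y

theorem disk (F : M.All) (R : RefOK M) {ℓ : ℝ} (hD : IsDisk M.γ M.Q ℓ P h f)
    (hS : IsSurfVia M.γ M.ξ M.D M.μ cayley O P h f d m) :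
    ∀ᵐ ω ∂P, Loc (m ω) (Metric.ball 0 1) := by
  obtain ⟨P₀, φ, g, ν, c, hp, -, -, hP, hf⟩ := hD
  obtain rfl := funext₂ hf
  have hγ := M.γ_pos
  have hγ2 := M.γ_lt
  have ac : P ≪ P₀ := hP ▸ withDensity_absolutelyContinuous _ _
  filter_upwards [hS.area, ac.ae_le (free_tame M hp), ac.ae_le (gff_frost F R hp)]
    with ω h5 h6 h7
  generalize 2 / M.γ * log (_ / ℓ) = k at h5
  have c0 : ∀ z : ℂ, z ≠ 0 → ContinuousAt (fun z : ℂ => log ‖z‖) z := fun z hz =>
    continuous_norm.continuousAt.log (norm_ne_zero_iff.2 hz)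
  have c1 : ∀ z : ℂ, z ≠ 1 → ContinuousAt (fun z : ℂ => log ‖z - 1‖) z := fun z hz =>
    ContinuousAt.log (by fun_prop) (norm_ne_zero_iff.2 (sub_ne_zero.2 hz))
  have cL := fun z => Su.continuous_L.continuousAt (x := z)
  have cw : ∀ z : ℂ, z ≠ 0 → z ≠ 1 → ContinuousAt (fun z => sphereFn M.γ M.Q z - k) z :=
    fun z a0 a1 => (((continuousAt_const.mul (c0 z a0)).sub (continuousAt_const.mul
      (c1 z a1))).add (continuousAt_const.mul (cL z))).sub continuousAt_const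
  have hw' : ContinuousOn (fun z => sphereFn M.γ M.Q z - k) UH := fun z hz =>
    (cw z (fun e => by simp [e, UH] at hz) fun e => by simp [e, UH] at hz).continuousWithinAt
  have e := dens_add (μ₀ := M.μ (h ω)) M.γ (hp.cont ω) hw'
  have hQ : M.γ * M.Q = 2 + M.γ ^ 2 / 2 := by
    rw [Model.Q]
    field_simp
  obtain ⟨α, r, a1, a2, a3, a4⟩ := h6.fin_inf ((continuousOn_const (c := M.γ)).mul hw') (β := 4)
    (ρ := 2) (C := M.γ ^ 2 * log 2 - M.γ * k) (by nlinarith) fun y _ hy => by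
      have b1 : log ‖y‖ - log 2 ≤ log ‖y - 1‖ := by
        have := norm_sub_norm_le y 1
        rw [norm_one] at this
        rw [← log_div (by linarith) two_ne_zero]
        exact log_le_log (by linarith) (by linarith)
      simp only [Pi.mul_apply, sphereFn, max_eq_left (show 1 ≤ ‖y‖ by linarith)]
      have b2 := mul_le_mul_of_nonneg_left b1 (sq_nonneg M.γ)
      have b3 := congrArg (· * log ‖y‖) hQ
      linarith
  rw [h5]
  refine loc_cayley (e ▸ withDensity_absolutelyContinuous _ _ h6.supp)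
    (frost_dens h7 (continuousOn_const.mul ((hp.cont ω).add hw'))) (fun t => e ▸ ?_) a1 a2 a3
    (e ▸ a4)
  have hβ : M.γ ^ 2 < 2 + M.γ ^ 2 / 2 := by nlinarith
  rcases eq_or_ne t 0 with rfl | h0
  · obtain ⟨ρ, hρ, a⟩ := bound_near (z := 0) (w := fun z => M.γ * (-(M.γ * log ‖z - 1‖) +
      (3 * M.γ - 2 * M.Q) * log (max ‖z‖ 1) - k)) (continuousAt_const.mul (((continuousAt_const.mul
        (c1 0 zero_ne_one)).neg.add (continuousAt_const.mul (cL 0))).sub continuousAt_const))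
    refine h6.fin_tip (continuousOn_const.mul hw') (Or.inl rfl) hβ hρ fun y _ hy =>
      le_trans (le_of_eq ?_) (add_le_add_right (a y hy) _)
    simp only [sphereFn, Complex.ofReal_zero, sub_zero]
    ring
  rcases eq_or_ne t 1 with rfl | h1
  · obtain ⟨ρ, hρ, a⟩ := bound_near (z := 1) (w := fun z => M.γ * (-(M.γ * log ‖z‖) +
      (3 * M.γ - 2 * M.Q) * log (max ‖z‖ 1) - k)) (continuousAt_const.mul (((continuousAt_const.mul
        (c0 1 one_ne_zero)).neg.add (continuousAt_const.mul (cL 1))).sub continuousAt_const))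
    refine h6.fin_tip (continuousOn_const.mul hw') (Or.inr rfl) hβ hρ fun y _ hy =>
      le_trans (le_of_eq ?_) (add_le_add_right (a y hy) _)
    simp only [sphereFn, Complex.ofReal_one]
    ring
  obtain ⟨ρ, hρ, a⟩ := bound_near ((continuousAt_const (y := M.γ)).mul (cw t
    (Complex.ofReal_ne_zero.2 h0) (Complex.ofReal_ne_one.2 h1)))
  exact h6.fin_off (continuousOn_const.mul hw') hρ fun y _ => a y

end Ex

/-- the area measure satisfies the hypotheses under which the clock exists -/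
theorem ae_loc (F : M.All) (R : RefOK M)
    (hc : IsWedge M.γ M.Q P h f ∧ O = UH ∧ IsSurfVia M.γ M.ξ M.D M.μ id O P h f d m ∨
      (∃ ℓ > 0, IsDisk M.γ M.Q ℓ P h f) ∧ O = Metric.ball 0 1 ∧
        IsSurfVia M.γ M.ξ M.D M.μ cayley O P h f d m) : ∀ᵐ ω ∂P, Ex.Loc (m ω) O := by
  rcases hc with ⟨h1, rfl, h2⟩ | ⟨⟨ℓ, -, h1⟩, rfl, h2⟩
  · exact Ex.wedge F R h1 h2
  · exact Ex.disk F R h1 h2

/-- the Liouville clock exists -/
theorem ae_exists_PCAF (F : M.All) (R : RefOK M)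
    (hc : IsWedge M.γ M.Q P h f ∧ O = UH ∧ IsSurfVia M.γ M.ξ M.D M.μ id O P h f d m ∨
      (∃ ℓ > 0, IsDisk M.γ M.Q ℓ P h f) ∧ O = Metric.ball 0 1 ∧
        IsSurfVia M.γ M.ξ M.D M.μ cayley O P h f d m) :
    ∀ᵐ ω ∂P, ∀ W, IsWiener W → ∃ B, PCAF W (m ω) B :=
  (ae_loc F R hc).mono fun _ hω _ hW => hω.exists hW

/-- the clock exists for every measure below a multiple of the area measure -/
theorem ae_exists_PCAF_le (F : M.All) (R : RefOK M)
    (hc : IsWedge M.γ M.Q P h f ∧ O = UH ∧ IsSurfVia M.γ M.ξ M.D M.μ id O P h f d m ∨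
      (∃ ℓ > 0, IsDisk M.γ M.Q ℓ P h f) ∧ O = Metric.ball 0 1 ∧
        IsSurfVia M.γ M.ξ M.D M.μ cayley O P h f d m) :
    ∀ᵐ ω ∂P, ∀ W, IsWiener W → ∀ (ν : Measure ℂ) (C : ℝ≥0∞), C ≠ ∞ → ν ≤ C • m ω →
      ∃ B, PCAF W ν B :=
  (ae_loc F R hc).mono fun _ hω _ hW _ _ hC hν => (hω.mono hC hν).exists hW

/-- the area of the disk is finite -/
theorem ae_finite (F : M.All) (R : RefOK M) {ℓ : ℝ} (hD : IsDisk M.γ M.Q ℓ P h f)
    (hS : IsSurfVia M.γ M.ξ M.D M.μ cayley O P h f d m) : ∀ᵐ ω ∂P, m ω univ ≠ ∞ :=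
  (Ex.disk F R hD hS).mono fun _ hω => hω.finite Metric.isBounded_ball

end Pool.Agent.Lib.MP_0d9445_pr.Bd
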