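import Pool.Agent.Lib.MP_0d9445_pr.Bd.ExDefs
import Pool.Agent.Lib.MP_0d9445_pr.CM.Pot
import Pool.Agent.Lib.MP_0d9445_pr.Su.Free
import Pool.Agent.Lib.MP_0d9445_pr.Mu.Weight

/-! Exponential moments of circle averages of the free field. -/

open MeasureTheory ProbabilityTheory Set Filter Topology Real
open scoped NNReal ENNReal

noncomputable section

namespace Pool.Agent.Lib.MP_0d9445_pr.Bd.Ex

variable {Ω : Type} [MeasurableSpace Ω] {P : Measure Ω} {φ : Ω → Field}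

namespace ExCovAux

open scoped RealInnerProductSpace ComplexConjugate

/-- the average of `log (max |x| 1)` -/
def L (p : ℝ × ℂ) : ℝ := avg (fun x => log (max ‖x‖ 1)) p

/-- the translation invariant part of the covariance -/
def S (p q : ℝ × ℂ) : ℝ := avg (fun x => log (max ‖x - q.2‖ (exp (-q.1)))) p

theorem cL : Continuous fun x : ℂ => log (max ‖x‖ 1) :=
  Continuous.log (by fun_prop) fun _ => (lt_max_of_lt_right one_pos).ne'

theorem cS (q : ℝ × ℂ) : Continuous fun x : ℂ => log (max ‖x - q.2‖ (exp (-q.1))) :=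
  Continuous.log (by fun_prop) fun _ => (lt_max_of_lt_right (exp_pos _)).ne'

theorem split (p q : ℝ × ℂ) : gffCov p q = L p + L q - S p q := by
  have h1 := Mu.avg_add (f := fun x : ℂ => log (max ‖x‖ 1) + L q)
    (g := fun x : ℂ => -log (max ‖x - q.2‖ (exp (-q.1))))
    (cL.add continuous_const) (cS q).neg p
  have h2 := Mu.avg_add cL (continuous_const (y := L q)) p
  have h3 := Mu.avg_neg (fun x : ℂ => log (max ‖x - q.2‖ (exp (-q.1)))) p
  have h4 : avg (fun _ : ℂ => L q) p = L q := circleAverage_const _ _ _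
  have h5 : avg (Su.pot q) p = avg (fun z : ℂ => (log (max ‖z‖ 1) + L q) +
      -log (max ‖z - q.2‖ (exp (-q.1)))) p := by
    congr 1
  rw [CM.gffCov_eq, h5, h1, h2, h3, h4]
  rfl

theorem L_conj (q : ℝ × ℂ) : L (q.1, conj q.2) = L q := by
  unfold L
  rw [← Su.avg_conj]
  simp only [Complex.norm_conj]

theorem free_split (p q : ℝ × ℂ) :
    freeCov p q = 2 * L p + 2 * L q - S p q - S p (q.1, conj q.2) := by
  rw [freeCov, split, split, L_conj]
  ring

theorem le_S (p q : ℝ × ℂ) : -q.1 ≤ S p q := by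
  refine Mu.le_avg (cS q) fun z _ => ?_
  rw [le_log_iff_exp_le (lt_max_of_lt_right (exp_pos _))]
  exact le_max_right _ _

theorem S_in {p q : ℝ × ℂ} (h : ‖p.2 - q.2‖ + exp (-p.1) ≤ exp (-q.1)) : S p q = -q.1 := by
  refine le_antisymm (Mu.avg_le (cS q) fun z hz => ?_) (le_S p q)
  rw [mem_closedBall_iff_norm] at hz
  have h1 : ‖z - q.2‖ ≤ exp (-q.1) := by
    have := norm_sub_le_norm_sub_add_norm_sub z p.2 q.2
    linarith
  rw [max_eq_right h1, log_exp]

theorem free_in {p : ℝ × ℂ} {u s : ℝ} (h : ‖p.2 - s‖ + exp (-p.1) ≤ exp (-u)) :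
    freeCov p (u, s) = 2 * L p + 2 * L (u, s) + 2 * u := by
  have h1 : S p (u, s) = -u := S_in (q := (u, s)) h
  rw [free_split]
  simp only [Complex.conj_ofReal]
  rw [h1]
  ring

theorem S_conj {q : ℝ × ℂ} (hq : exp (-q.1) ≤ q.2.im) : log q.2.im ≤ S q (q.1, conj q.2) := by
  refine Mu.le_avg (cS (q.1, conj q.2)) fun z hz => ?_
  rw [mem_closedBall_iff_norm] at hz
  refine log_le_log ((exp_pos _).trans_le hq) (le_max_of_le_left ?_)
  have h1 := Complex.abs_im_le_norm (z - q.2)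
  have h2 := Complex.im_le_norm (z - conj q.2)
  rw [Complex.sub_im] at h1 h2
  rw [Complex.conj_im] at h2
  have h3 := neg_abs_le (z.im - q.2.im)
  change q.2.im ≤ ‖z - conj q.2‖
  linarith

theorem mgf_eq (hφ : IsFreeGFF φ P) (q p r : ℝ × ℂ) (a b c : ℝ) :
    ∫⁻ ω, ENNReal.ofReal (exp (a * φ ω q + b * φ ω p + c * φ ω r)) ∂P =
      ENNReal.ofReal (exp ((a ^ 2 * freeCov q q + b ^ 2 * freeCov p p + c ^ 2 * freeCov r r +
        2 * a * b * freeCov q p + 2 * a * c * freeCov q r + 2 * b * c * freeCov p r) / 2)) := by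
  obtain ⟨K, _, _, _, W, f, hW, e, hc⟩ := CM.exists_iso' hφ.gauss hφ.mean
  have hc' : ∀ i j, ⟪f i, f j⟫ = freeCov i j := fun i j => (hc i j).trans (hφ.cov i j)
  have h1 := Mu.lintegral_exp_gauss (hW.meas (a • f q + b • f p + c • f r)) (hW.law _) 1
  have h2 : ((‖a • f q + b • f p + c • f r‖₊ ^ 2 : ℝ≥0) : ℝ) =
      a ^ 2 * freeCov q q + b ^ 2 * freeCov p p + c ^ 2 * freeCov r r +
        2 * a * b * freeCov q p + 2 * a * c * freeCov q r + 2 * b * c * freeCov p r := by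
    rw [NNReal.coe_pow, coe_nnnorm, ← real_inner_self_eq_norm_sq]
    simp only [inner_add_left, inner_add_right, real_inner_smul_left, real_inner_smul_right]
    rw [real_inner_comm (f q) (f p), real_inner_comm (f q) (f r), real_inner_comm (f p) (f r)]
    simp only [hc']
    ring
  rw [h2, one_pow, mul_one] at h1
  rw [← h1]
  refine lintegral_congr_ae ?_
  filter_upwards [e q, e p, e r, hW.add (a • f q + b • f p) (c • f r), hW.add (a • f q) (b • f p),
    hW.smul a (f q), hW.smul b (f p), hW.smul c (f r)] with ω e1 e2 e3 e4 e5 e6 e7 e8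
  rw [e4, e5, e6, e7, e8, ← e1, ← e2, ← e3, one_mul]

theorem L_le (t u : ℝ) : L (u, t) ≤ |t| + |u| := by
  refine Mu.avg_le cL fun z hz => ?_
  rw [mem_closedBall_iff_norm] at hz
  change ‖z - t‖ ≤ exp (-u) at hz
  rw [log_le_iff_le_exp (lt_max_of_lt_right one_pos)]
  refine max_le ?_ (one_le_exp (by positivity))
  have h1 : ‖z‖ ≤ ‖z - t‖ + |t| := by
    have := norm_add_le (z - t) (t : ℂ)
    rwa [sub_add_cancel, Complex.norm_real, Real.norm_eq_abs] at this
  have h2 : exp (-u) ≤ exp |u| := exp_le_exp.2 (neg_le_abs u)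
  have h3 : 1 ≤ exp |u| := one_le_exp (abs_nonneg u)
  have h4 := add_one_le_exp |t|
  have h5 := abs_nonneg t
  rw [exp_add]
  nlinarith

end ExCovAux

open ExCovAux

theorem mgf3 (hφ : IsFreeGFF φ P) {q : ℝ × ℂ} {s t u u₀ : ℝ} (a b : ℝ)
    (hq : exp (-q.1) ≤ q.2.im) (h1 : ‖q.2 - s‖ + exp (-q.1) ≤ exp (-u))
    (h2 : |s - t| + exp (-u) ≤ exp (-u₀)) :
    ∫⁻ ω, ENNReal.ofReal (exp (a * φ ω q + b * φ ω (u, s) - (a + b) * φ ω (u₀, t))) ∂P ≤
      ENNReal.ofReal (exp ((a ^ 2 * (q.1 - log q.2.im) + 2 * u * (b ^ 2 + 2 * a * b) -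
        2 * u₀ * (a + b) ^ 2) / 2)) := by
  have e := mgf_eq hφ q (u, s) (u₀, t) a b (-(a + b))
  simp only [neg_mul, ← sub_eq_add_neg] at e
  have hst : ‖(s : ℂ) - t‖ = |s - t| := by
    rw [← Complex.ofReal_sub, Complex.norm_real, Real.norm_eq_abs]
  have c1 : freeCov q (u, s) = _ := free_in h1
  have c2 : freeCov q (u₀, t) = _ := free_in (by
    have := norm_sub_le_norm_sub_add_norm_sub q.2 (s : ℂ) t
    linarith)
  have c3 : freeCov (u, s) (u₀, t) = _ := free_in (p := (u, s)) (by rw [hst]; exact h2)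
  have c4 : freeCov (u, s) (u, s) = _ := free_in (p := (u, s)) (by simp)
  have c5 : freeCov (u₀, t) (u₀, t) = _ := free_in (p := (u₀, t)) (by simp)
  have c6 := free_split q q
  have c7 := le_S q q
  have c8 := S_conj hq
  rw [e, c1, c2, c3, c4, c5, c6]
  refine ENNReal.ofReal_le_ofReal (exp_le_exp.2 ?_)
  nlinarith [mul_nonneg (sq_nonneg a) (sub_nonneg.2 c7), mul_nonneg (sq_nonneg a) (sub_nonneg.2 c8)]

theorem mgf2 (hφ : IsFreeGFF φ P) {s t u u₀ : ℝ} (h2 : |s - t| + exp (-u) ≤ exp (-u₀)) :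
    ∫⁻ ω, ENNReal.ofReal (exp (φ ω (u, s) - φ ω (u₀, t))) ∂P ≤ ENNReal.ofReal (exp (u - u₀)) := by
  have e := mgf_eq hφ (u, s) (u, s) (u₀, t) 0 1 (-1)
  simp only [neg_mul, ← sub_eq_add_neg, zero_mul, one_mul, zero_add] at e
  have hst : ‖(s : ℂ) - t‖ = |s - t| := by
    rw [← Complex.ofReal_sub, Complex.norm_real, Real.norm_eq_abs]
  have c3 : freeCov (u, s) (u₀, t) = _ := free_in (p := (u, s)) (by rw [hst]; exact h2)
  have c4 : freeCov (u, s) (u, s) = _ := free_in (p := (u, s)) (by simp)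
  have c5 : freeCov (u₀, t) (u₀, t) = _ := free_in (p := (u₀, t)) (by simp)
  rw [e, c3, c4, c5]
  refine ENNReal.ofReal_le_ofReal (exp_le_exp.2 (le_of_eq ?_))
  ring

theorem mgf1 (hφ : IsFreeGFF φ P) (t u a : ℝ) :
    ∫⁻ ω, ENNReal.ofReal (exp (a * φ ω (u, t))) ∂P ≤
      ENNReal.ofReal (exp (a ^ 2 * (3 * |u| + 2 * |t|))) := by
  have e := mgf_eq hφ (u, t) (u, t) (u, t) a 0 0
  simp only [zero_mul, add_zero] at e
  have c4 : freeCov (u, t) (u, t) = _ := free_in (p := (u, t)) (by simp)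
  rw [e, c4]
  refine ENNReal.ofReal_le_ofReal (exp_le_exp.2 ?_)
  nlinarith [mul_nonneg (sq_nonneg a) (sub_nonneg.2 (L_le t u)),
    mul_nonneg (sq_nonneg a) (sub_nonneg.2 (le_abs_self u))]

end Pool.Agent.Lib.MP_0d9445_pr.Bd.Ex
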