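import Pool.Agent.Lib.MP_0d9445_pr.Bd.Stmt
import Pool.Agent.Lib.MP_0d9445_pr.Mu.Path

/-! The mass of the free field near the real line: definitions. -/

open MeasureTheory ProbabilityTheory Set Filter Topology Real
open scoped NNReal ENNReal

noncomputable section

namespace Pool.Agent.Lib.MP_0d9445_pr.Bd.Ex

/-- a rectangle at height comparable to its size -/
def wsq (s ε : ℝ) : Set ℂ := {z | |z.re - s| < ε ∧ ε / 2 < z.im ∧ z.im < 2 * ε}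

/-- a rectangle on the real line -/
def box (t r : ℝ) : Set ℂ := {z | |z.re - t| ≤ r ∧ 0 < z.im ∧ z.im ≤ r}

/-- the lower limit of the approximate masses of `V` -/
def mass (γ : ℝ) (V : Set ℂ) (H : Field) : ℝ≥0∞ :=
  liminf (fun k : ℕ => ∫⁻ z in V, ENNReal.ofReal (Mu.den γ H k z)) atTop

/-- the weighted sum of the masses of the rectangles that cover `box t r` -/
def TT (γ α t r : ℝ) (H : Field) : ℝ≥0∞ :=
  ∑' j : ℕ, ∑ i ∈ Finset.Icc (-(2 ^ j : ℤ)) (2 ^ j),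
    ENNReal.ofReal (exp (α * ((j + 1) * log 2))) * mass γ (wsq (t + i * (r / 2 ^ j)) (r / 2 ^ j)) H

/-- a measure on the half-plane that is small near the real line, near `0`, `1` and infinity -/
structure Tame (κ : ℝ) (ν : Measure ℂ) : Prop where
  supp : ν UHᶜ = 0
  bd : ∃ α : ℝ, 0 < α ∧ α ≤ 1 ∧ ∀ R : ℝ,
    ∫⁻ y in Metric.ball 0 R, ENNReal.ofReal (y.im ^ (-α)) ∂ν < ∞
  tip : ∀ t : ℝ, t = 0 ∨ t = 1 → ∀ δ : ℝ, 0 < δ →
    ∫⁻ y, ENNReal.ofReal (exp (κ * -log ‖y - t‖ - δ * |log ‖y - t‖|)) ∂ν < ∞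

/-- the potential of `m` at the real point `t` is finite -/
def Fin (m : Measure ℂ) (t : ℝ) : Prop :=
  ∃ α ρ : ℝ, 0 < α ∧ α ≤ 2 ∧ 0 < ρ ∧
    ∫⁻ y in Metric.ball (t : ℂ) ρ, ENNReal.ofReal (‖y - t‖ ^ (-α)) ∂m < ∞

end Pool.Agent.Lib.MP_0d9445_pr.Bd.Ex
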