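import Pool.Agent.Lib.MP_0d9445_pr.Bd.ExCov

/-! Moment bounds for the mass of the free field near the real line. -/

open MeasureTheory ProbabilityTheory Set Filter Topology Real
open scoped NNReal ENNReal

noncomputable section

namespace Pool.Agent.Lib.MP_0d9445_pr.Bd.Ex

variable {Ω : Type} [MeasurableSpace Ω] {P : Measure Ω} {φ : Ω → Field} {γ : ℝ}

namespace MomAux

/-- the exponential as an extended real number -/
def E (x : ℝ) : ℝ≥0∞ := ENNReal.ofReal (exp x)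

theorem E_add (x y : ℝ) : E (x + y) = E x * E y := by
  rw [E, exp_add, ENNReal.ofReal_mul (exp_pos _).le]
  rfl

theorem E_mono {x y : ℝ} (h : x ≤ y) : E x ≤ E y := ENNReal.ofReal_le_ofReal (exp_le_exp.2 h)

theorem E_ne_top (x : ℝ) : E x ≠ ∞ := ENNReal.ofReal_ne_top

theorem measurable_E : Measurable E := measurable_exp.ennreal_ofReal

theorem E_mul_le {θ : ℝ} (h0 : 0 ≤ θ) (h1 : θ ≤ 1) (x : ℝ) : E (θ * x) ≤ 1 + E x := by
  rcases le_total x 0 with h | h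
  · exact le_add_right (ENNReal.ofReal_le_one.2 (exp_le_one_iff.2 (mul_nonpos_of_nonneg_of_nonpos h0 h)))
  · exact le_add_left (E_mono (by nlinarith))

theorem measurable_den (γ : ℝ) (k : ℕ) :
    Measurable fun p : Field × ℂ => ENNReal.ofReal (Mu.den γ p.1 k p.2) := by
  refine (Continuous.measurable ?_).ennreal_ofReal
  unfold Mu.den
  fun_prop

theorem measurable_mass (γ : ℝ) (V : Set ℂ) : Measurable (mass γ V) :=
  Measurable.liminf fun k => (measurable_den γ k).lintegral_prod_right'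

theorem isOpen_wsq (s ε : ℝ) : IsOpen (wsq s ε) :=
  (isOpen_lt (f := fun z : ℂ => |z.re - s|) (by fun_prop) continuous_const).inter
    ((isOpen_lt continuous_const Complex.continuous_im).inter
      (isOpen_lt Complex.continuous_im continuous_const))

theorem vol_wsq (s : ℝ) {ε : ℝ} (hε : 0 < ε) : volume (wsq s ε) ≤ E (2 * log (4 * ε)) := by
  have h1 : wsq s ε ⊆ Metric.ball (⟨s, ε⟩ : ℂ) (2 * ε) := fun z hz => by
    have h := Complex.norm_le_abs_re_add_abs_im (z - ⟨s, ε⟩)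
    rw [Complex.sub_re, Complex.sub_im] at h
    have h2 : |z.im - ε| < ε := abs_lt.2 ⟨by linarith [hz.2.1], by linarith [hz.2.2]⟩
    rw [mem_ball_iff_norm]
    linarith [hz.1]
  refine (measure_mono h1).trans ?_
  have e : exp (2 * log (4 * ε)) = (4 * ε) ^ 2 := by
    rw [show (2 : ℝ) = (2 : ℕ) by norm_num, exp_nat_mul, exp_log (by positivity)]
  rw [Complex.volume_ball, E, e, ← ENNReal.ofReal_pow (by positivity), ← ENNReal.ofReal_coe_nnreal,
    ← ENNReal.ofReal_mul (by positivity), NNReal.coe_real_pi]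
  exact ENNReal.ofReal_le_ofReal (by nlinarith [pi_le_four, sq_nonneg ε])

theorem mean_mass (hφ : IsFreeGFF φ P) {s t ε u₀ : ℝ} (hε : 0 < ε)
    (h2 : |s - t| + 4 * ε ≤ exp (-u₀)) :
    ∫⁻ ω, E (-(γ / 2) * φ ω (-log (4 * ε), s) - γ / 2 * φ ω (u₀, t)) * mass γ (wsq s ε) (φ ω) ∂P ≤
      E (γ ^ 2 / 2 * log 8 - (2 + γ ^ 2 / 2) * u₀ - (2 + γ ^ 2 / 4) * (-log (4 * ε) - u₀)) := by
  have := hφ.gauss.isProbabilityMeasure
  set u := -log (4 * ε) with hu
  have eu : exp (-u) = 4 * ε := by rw [hu, neg_neg, exp_log (by positivity)]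
  have hm : ∀ p, Measurable fun ω => φ ω p := fun p => (Mu.measurable_eval p).comp hφ.meas
  have hw : Measurable fun ω => E (-(γ / 2) * φ ω (u, s) - γ / 2 * φ ω (u₀, t)) :=
    measurable_E.comp (((hm _).const_mul _).sub ((hm _).const_mul _))
  have hd : ∀ k : ℕ, Measurable fun p : Ω × ℂ => ENNReal.ofReal (Mu.den γ (φ p.1) k p.2) :=
    fun k => (measurable_den γ k).comp (hφ.meas.prodMap measurable_id)
  simp only [mass, ← ENNReal.liminf_const_mul_of_ne_top (E_ne_top _)]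
  refine (lintegral_liminf_le fun k => hw.mul (hd k).lintegral_prod_right').trans
    (liminf_le_of_frequently_le' (Eventually.frequently ?_))
  filter_upwards [(tendsto_pow_atTop_nhds_zero_of_lt_one (r := (2⁻¹ : ℝ)) (by norm_num)
    (by norm_num)).eventually (ge_mem_nhds (half_pos hε))] with k hk
  rw [← Mu.exp_neg_log_two] at hk
  simp only [Pi.mul_apply, ← lintegral_const_mul' _ _ (E_ne_top _)]
  rw [lintegral_lintegral_swap ((hw.comp measurable_fst).mul (hd k)).aemeasurable]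
  refine (setLIntegral_mono' (isOpen_wsq s ε).measurableSet (g := fun _ =>
    E (γ ^ 2 / 2 * (u + log 8) - 3 * γ ^ 2 / 4 * u - γ ^ 2 / 4 * u₀)) fun z hz => ?_).trans ?_
  · have h1 := Complex.norm_le_abs_re_add_abs_im (z - s)
    rw [Complex.sub_re, Complex.sub_im, Complex.ofReal_re, Complex.ofReal_im, sub_zero,
      abs_of_pos ((half_pos hε).trans hz.2.1)] at h1
    have h3 := mgf3 hφ (q := ((k : ℝ) * log 2, z)) (s := s) (t := t) (u := u) (u₀ := u₀) γ (-(γ / 2))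
      (hk.trans hz.2.1.le) (by rw [eu]; linarith [hz.1, hz.2.2]) (by rwa [eu])
    have h4 : -log z.im ≤ u + log 8 := by
      have := log_le_log (half_pos hε) hz.2.1.le
      rw [show ε / 2 = 4 * ε / 8 by ring, log_div (by positivity) (by norm_num)] at this
      linarith
    have e : ∀ ω, E (-(γ / 2) * φ ω (u, s) - γ / 2 * φ ω (u₀, t)) *
        ENNReal.ofReal (Mu.den γ (φ ω) k z) = E (-(γ ^ 2 / 2 * (k * log 2))) *
        E (γ * φ ω (k * log 2, z) + -(γ / 2) * φ ω (u, s) - (γ + -(γ / 2)) * φ ω (u₀, t)) :=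
      fun ω => by
        change _ * E _ = _
        rw [← E_add, ← E_add]
        congr 1
        ring
    simp only [e]
    rw [lintegral_const_mul' _ _ (E_ne_top _)]
    refine (mul_le_mul' le_rfl h3).trans ?_
    change E _ * E _ ≤ _
    rw [← E_add]
    exact E_mono (by nlinarith [mul_le_mul_of_nonneg_left h4 (sq_nonneg γ)])
  · rw [setLIntegral_const]
    refine (mul_le_mul' le_rfl (vol_wsq s hε)).trans ?_
    rw [← E_add]
    refine E_mono (le_of_eq ?_)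
    rw [show log (4 * ε) = -u by rw [hu, neg_neg]]
    ring

theorem geom {l : ℝ} (hl : 0 < l) : ∑' j : ℕ, E (-l * j) ≠ ∞ := by
  have : Summable fun j : ℕ => exp (-l * j) := by
    simpa only [mul_comm] using summable_exp_nat_mul_iff.2 (neg_neg_of_pos hl)
  exact (ENNReal.ofReal_tsum_of_nonneg (fun _ => (exp_pos _).le) this).symm.trans_ne
    ENNReal.ofReal_ne_top

theorem geomZ {l : ℝ} (hl : 0 < l) : ∑' m : ℤ, E (-l * |(m : ℝ)|) ≠ ∞ := by
  have h : Summable fun j : ℕ => exp (-l * j) := by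
    simpa only [mul_comm] using summable_exp_nat_mul_iff.2 (neg_neg_of_pos hl)
  have : Summable fun m : ℤ => exp (-l * |(m : ℝ)|) :=
    Summable.of_nat_of_neg (by simpa using h) (by simpa using h)
  exact (ENNReal.ofReal_tsum_of_nonneg (fun _ => (exp_pos _).le) this).symm.trans_ne
    ENNReal.ofReal_ne_top

/-- the sum over all rectangles -/
def Sm (F : ℕ → ℤ → ℝ≥0∞) : ℝ≥0∞ := ∑' j : ℕ, ∑ i ∈ Finset.Icc (-(2 ^ j : ℤ)) (2 ^ j), F j i

theorem measurable_Sm {F : ℕ → ℤ → Ω → ℝ≥0∞} (h : ∀ j i, Measurable (F j i)) :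
    Measurable fun ω => Sm fun j i => F j i ω :=
  Measurable.tsum fun j => Finset.measurable_sum _ fun i _ => h j i

theorem lintegral_Sm {F : ℕ → ℤ → Ω → ℝ≥0∞} (h : ∀ j i, Measurable (F j i)) {c l : ℝ} (hl : 0 ≤ l)
    (hb : ∀ (j : ℕ) (i : ℤ), |(i : ℝ)| ≤ 2 ^ j →
      ∫⁻ ω, F j i ω ∂P ≤ E (c - (1 + l) * ((j + 1) * log 2))) :
    ∫⁻ ω, Sm (fun j i => F j i ω) ∂P ≤ E c * (2 * ∑' j : ℕ, E (-(l * log 2) * j)) := by
  unfold Sm
  rw [lintegral_tsum fun j => (Finset.measurable_sum _ fun i _ => h j i).aemeasurable,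
    ← ENNReal.tsum_mul_left, ← ENNReal.tsum_mul_left]
  refine ENNReal.tsum_le_tsum fun j => ?_
  rw [lintegral_finsetSum _ fun i _ => h j i]
  refine (Finset.sum_le_card_nsmul _ _ _ fun i hi => hb j i (by
    exact_mod_cast abs_le.2 (Finset.mem_Icc.1 hi))).trans ?_
  have h1 : (((Finset.Icc (-(2 ^ j : ℤ)) (2 ^ j)).card : ℕ) : ℝ≥0∞) ≤ 2 * E ((j + 1) * log 2) := by
    have e : exp ((j + 1 : ℝ) * log 2) = 2 ^ (j + 1) := by
      rw [← Nat.cast_succ, exp_nat_mul, exp_log two_pos]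
    have e2 : (Finset.Icc (-(2 ^ j : ℤ)) (2 ^ j)).card ≤ 2 * 2 ^ (j + 1) := by
      rw [Int.card_Icc, Int.toNat_le]
      have : (1 : ℤ) ≤ 2 ^ j := one_le_pow₀ one_le_two
      push_cast
      rw [pow_succ]
      linarith
    rw [E, e, ENNReal.ofReal_pow zero_le_two, ENNReal.ofReal_ofNat]
    exact_mod_cast e2
  rw [nsmul_eq_mul]
  refine (mul_le_mul' h1 le_rfl).trans ?_
  rw [mul_assoc, ← E_add, mul_left_comm (E c), ← E_add]
  exact mul_le_mul' le_rfl (E_mono (by nlinarith [mul_nonneg hl (log_pos one_lt_two).le]))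

theorem le_Sm (F : ℕ → ℤ → ℝ≥0∞) {j : ℕ} {i : ℤ} (hi : i ∈ Finset.Icc (-(2 ^ j : ℤ)) (2 ^ j)) :
    F j i ≤ Sm F :=
  (Finset.single_le_sum (f := F j) (fun _ _ => zero_le) hi).trans (ENNReal.le_tsum (f := fun j =>
    ∑ i ∈ Finset.Icc (-(2 ^ j : ℤ)) (2 ^ j), F j i) j)

theorem ae_tsum {F : ℤ → Ω → ℝ≥0∞} (h : ∀ m, Measurable (F m)) {C : ℝ≥0∞} (hC : C ≠ ∞) {l : ℝ}
    (hl : 0 < l) (hb : ∀ m, ∫⁻ ω, F m ω ∂P ≤ E (-l * |(m : ℝ)|) * C) :
    ∀ᵐ ω ∂P, ∑' m, F m ω < ∞ := by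
  refine ae_lt_top (Measurable.tsum h) ?_
  rw [lintegral_tsum fun m => (h m).aemeasurable]
  refine ne_top_of_le_ne_top ?_ (ENNReal.tsum_le_tsum hb)
  rw [ENNReal.tsum_mul_right]
  exact ENNReal.mul_ne_top (geomZ hl) hC

/-- the weighted masses -/
def S₁ (γ t r : ℝ) (H : Field) : ℝ≥0∞ := Sm fun j i =>
  E (((1 - γ / 2) ^ 2 / 4 + γ / 2 * (2 + (1 - γ / 2) ^ 2 / 4)) * ((j + 1) * log 2)) *
    (E (-(γ / 2) * H (-log (4 * (r / 2 ^ j)), (t + i * (r / 2 ^ j) : ℝ)) - γ / 2 * H (-log (8 * r), t)) *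
      mass γ (wsq (t + i * (r / 2 ^ j)) (r / 2 ^ j)) H)

/-- the thick rectangles -/
def S₂ (γ t r : ℝ) (H : Field) : ℝ≥0∞ := Sm fun j i =>
  E (-(2 + (1 - γ / 2) ^ 2 / 4) * ((j + 1) * log 2)) *
    E (H (-log (4 * (r / 2 ^ j)), (t + i * (r / 2 ^ j) : ℝ)) - H (-log (8 * r), t))

theorem TT_le (hγ : 0 < γ) (hγ2 : γ < 2) (t r : ℝ) (H : Field) :
    TT γ ((1 - γ / 2) ^ 2 / 4) t r H ≤
      E (γ * H (-log (8 * r), t)) * (1 + S₂ γ t r H) * S₁ γ t r H := by
  unfold TT S₁ Sm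
  rw [← ENNReal.tsum_mul_left]
  refine ENNReal.tsum_le_tsum fun j => ?_
  rw [Finset.mul_sum]
  refine Finset.sum_le_sum fun i hi => ?_
  have h1 := le_Sm (fun j i => E (-(2 + (1 - γ / 2) ^ 2 / 4) * ((j + 1) * log 2)) *
    E (H (-log (4 * (r / 2 ^ j)), (t + i * (r / 2 ^ j) : ℝ)) - H (-log (8 * r), t))) hi
  simp only [← E_add] at h1
  have h2 := (E_mul_le (θ := γ / 2) (by linarith) (by linarith) _).trans (add_le_add le_rfl h1)
  simp only [E_add] at h2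
  simp only [← mul_assoc]
  refine mul_le_mul' (le_trans (le_of_eq ?_) (mul_le_mul' (mul_le_mul' (mul_le_mul' le_rfl h2)
    le_rfl) le_rfl)) le_rfl
  simp only [← E_add]
  change E _ = _
  congr 1
  ring

theorem geo {t r : ℝ} (hr : 0 < r) {j : ℕ} {i : ℤ} (hi : |(i : ℝ)| ≤ 2 ^ j) :
    |t + i * (r / 2 ^ j) - t| + 4 * (r / 2 ^ j) ≤ exp (- -log (8 * r)) ∧
      -log (4 * (r / 2 ^ j)) - -log (8 * r) = (j + 1) * log 2 := by
  have h1 : (1 : ℝ) ≤ 2 ^ j := one_le_pow₀ one_le_two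
  have h2 : r / 2 ^ j ≤ r := div_le_self hr.le h1
  have h3 : 0 < r / 2 ^ j := by positivity
  constructor
  · rw [neg_neg, exp_log (by positivity), add_sub_cancel_left, abs_mul, abs_of_pos h3]
    have := mul_le_mul_of_nonneg_right hi h3.le
    rw [mul_div_cancel₀ _ (by positivity)] at this
    linarith
  · have e : 8 * r = 4 * (r / 2 ^ j) * 2 ^ (j + 1) := by field_simp; ring
    rw [e, log_mul (x := 4 * _) (by positivity) (by positivity), log_pow]
    push_cast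
    ring

theorem meas_ev (hφ : IsFreeGFF φ P) (p : ℝ × ℂ) : Measurable fun ω => φ ω p :=
  (Mu.measurable_eval p).comp hφ.meas

theorem S₁_mom (hγ2 : γ < 2) (hφ : IsFreeGFF φ P) (t : ℝ) {r : ℝ} (hr : 0 < r) :
    Measurable (fun ω => S₁ γ t r (φ ω)) ∧ ∫⁻ ω, S₁ γ t r (φ ω) ∂P ≤
      E (γ ^ 2 / 2 * log 8 + (2 + γ ^ 2 / 2) * log (8 * r)) *
        (2 * ∑' j : ℕ, E (-((1 - γ / 2) ^ 2 / 2 * log 2) * j)) := by
  have hm := meas_ev hφ
  refine (fun h => ⟨measurable_Sm h, lintegral_Sm h (by positivity) fun j i hi => ?_⟩)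
    fun j i => ((measurable_E.comp (((hm _).const_mul _).sub ((hm _).const_mul _))).mul
      ((measurable_mass γ _).comp hφ.meas)).const_mul _
  obtain ⟨h1, h2⟩ := geo (t := t) hr hi
  rw [lintegral_const_mul' _ _ (E_ne_top _)]
  refine (mul_le_mul' le_rfl (mean_mass hφ (by positivity) h1)).trans ?_
  rw [← E_add, h2]
  have h3 : 0 ≤ (j + 1 : ℝ) * log 2 := mul_nonneg (by positivity) (log_pos one_lt_two).le
  refine E_mono ?_
  generalize (j + 1 : ℝ) * log 2 = v at h3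
  nlinarith [mul_nonneg h3 (mul_nonneg (sq_nonneg (1 - γ / 2)) (by linarith : 0 ≤ 1 - γ / 2))]

theorem S₂_mom (hφ : IsFreeGFF φ P) (t : ℝ) {r : ℝ} (hr : 0 < r) :
    Measurable (fun ω => S₂ γ t r (φ ω)) ∧ ∫⁻ ω, S₂ γ t r (φ ω) ∂P ≤
      E 0 * (2 * ∑' j : ℕ, E (-((1 - γ / 2) ^ 2 / 4 * log 2) * j)) := by
  have hm := meas_ev hφ
  refine (fun h => ⟨measurable_Sm h, lintegral_Sm h (by positivity) fun j i hi => ?_⟩)
    fun j i => (measurable_E.comp ((hm _).sub (hm _))).const_mul _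
  obtain ⟨h1, h2⟩ := geo (t := t) hr hi
  rw [lintegral_const_mul' _ _ (E_ne_top _)]
  refine (mul_le_mul' le_rfl (mgf2 hφ (by
    rwa [neg_neg (log (4 * _)), exp_log (by positivity)]))).trans ?_
  change E _ * E _ ≤ _
  rw [← E_add, h2]
  exact E_mono (le_of_eq (by ring))

end MomAux

open MomAux in
theorem ae_sum (hγ : 0 < γ) (hγ2 : γ < 2) (hφ : IsFreeGFF φ P) (t : ℝ) {δ : ℝ} (hδ : 0 < δ) :
    ∀ᵐ ω ∂P, ∑' m : ℤ, ENNReal.ofReal (exp ((2 + γ ^ 2 / 2) * m - δ * |(m : ℝ)|)) *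
      TT γ ((1 - γ / 2) ^ 2 / 4) t (exp (-m)) (φ ω) < ∞ := by
  have := hφ.gauss.isProbabilityMeasure
  have h0 : 0 < (1 - γ / 2) ^ 2 := pow_pos (by linarith) 2
  have l2 := log_pos one_lt_two
  have l8 : 0 ≤ log 8 := log_nonneg (by norm_num)
  have e8 : ∀ m : ℤ, log (8 * exp (-(m : ℝ))) = log 8 - m := fun m => by
    rw [log_mul (by norm_num) (exp_pos _).ne', log_exp, sub_eq_add_neg]
  obtain ⟨σ, hσ, hσe⟩ : ∃ σ : ℝ, 0 < σ ∧ δ = 18 * γ * σ :=
    ⟨δ / (18 * γ), by positivity, by field_simp⟩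
  have a1 := ae_tsum (P := P) (F := fun m ω => E ((2 + γ ^ 2 / 2) * m - δ / 3 * |(m : ℝ)|) *
      S₁ γ t (exp (-m)) (φ ω)) (fun m => (S₁_mom hγ2 hφ t (exp_pos _)).1.const_mul _)
    (ENNReal.mul_ne_top (E_ne_top ((2 + γ ^ 2) * log 8)) (ENNReal.mul_ne_top ENNReal.ofNat_ne_top
      (geom (l := (1 - γ / 2) ^ 2 / 2 * log 2) (by positivity)))) (l := δ / 3) (by positivity)
    fun m => by
      rw [lintegral_const_mul' _ _ (E_ne_top _)]
      refine (mul_le_mul' le_rfl (S₁_mom hγ2 hφ t (exp_pos _)).2).trans (le_of_eq ?_)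
      rw [← mul_assoc, ← mul_assoc (E _) (E _), ← E_add, ← E_add, e8]
      congr 2
      ring
  have a2 := ae_tsum (P := P) (F := fun m ω => E (-(δ / 3) * |(m : ℝ)|) *
      (1 + S₂ γ t (exp (-m)) (φ ω)))
    (fun m => ((S₂_mom hφ t (exp_pos _)).1.const_add _).const_mul _)
    (ENNReal.add_ne_top.2 ⟨ENNReal.one_ne_top, ENNReal.mul_ne_top (E_ne_top 0)
      (ENNReal.mul_ne_top ENNReal.ofNat_ne_top
      (geom (l := (1 - γ / 2) ^ 2 / 4 * log 2) (by positivity)))⟩) (l := δ / 3) (by positivity)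
    fun m => by
      rw [lintegral_const_mul' _ _ (E_ne_top _), lintegral_add_left measurable_const,
        lintegral_one, measure_univ]
      exact mul_le_mul' le_rfl (add_le_add le_rfl (S₂_mom hφ t (exp_pos _)).2)
  have a3 := ae_tsum (P := P) (F := fun m ω => E (-(6 * σ ^ 2) * |(m : ℝ)|) *
      E (σ * φ ω (-log (8 * exp (-m)), t)))
    (fun m => (measurable_E.comp ((meas_ev hφ _).const_mul _)).const_mul _)
    (E_ne_top (σ ^ 2 * (3 * log 8 + 2 * |t|))) (l := 3 * σ ^ 2) (by positivity)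
    fun m => by
      rw [lintegral_const_mul' _ _ (E_ne_top _)]
      refine (mul_le_mul' le_rfl (mgf1 hφ t _ σ)).trans ?_
      change E _ * E _ ≤ _
      rw [← E_add, ← E_add, e8, abs_neg]
      have h1 := abs_sub (log 8) (m : ℝ)
      rw [abs_of_nonneg l8] at h1
      exact E_mono (by nlinarith [mul_le_mul_of_nonneg_left h1 (sq_nonneg σ)])
  filter_upwards [a1, a2, a3] with ω b1 b2 b3
  refine lt_of_le_of_lt (ENNReal.tsum_le_tsum fun m => ?_) (ENNReal.tsum_mul_left.trans_lt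
    (ENNReal.mul_lt_top (ENNReal.mul_lt_top (E_ne_top (γ / σ * log (∑' m : ℤ,
      E (-(6 * σ ^ 2) * |(m : ℝ)|) * E (σ * φ ω (-log (8 * exp (-m)), t))).toReal)).lt_top b2) b1))
  have c1 := ENNReal.le_tsum (f := fun m : ℤ => E (-(6 * σ ^ 2) * |(m : ℝ)|) *
    E (σ * φ ω (-log (8 * exp (-m)), t))) m
  rw [← E_add, E, ENNReal.ofReal_le_iff_le_toReal b3.ne] at c1
  have c2 := mul_le_mul_of_nonneg_left ((le_log_iff_exp_le ((exp_pos _).trans_le c1)).2 c1)
    (div_pos hγ hσ).le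
  have c3 : γ / σ * (-(6 * σ ^ 2) * |(m : ℝ)| + σ * φ ω (-log (8 * exp (-m)), t)) =
      -(δ / 3) * |(m : ℝ)| + γ * φ ω (-log (8 * exp (-m)), t) := by
    rw [hσe]
    field_simp
    ring
  rw [c3] at c2
  refine (mul_le_mul' le_rfl (TT_le hγ hγ2 _ _ _)).trans (le_trans (le_of_eq ?_) (mul_le_mul'
    (mul_le_mul' (E_mono c2) (ENNReal.le_tsum m)) le_rfl))
  have c4 : ENNReal.ofReal (exp ((2 + γ ^ 2 / 2) * m - δ * |(m : ℝ)|)) = E (-(δ / 3) * |(m : ℝ)|) *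
      E (-(δ / 3) * |(m : ℝ)|) * E ((2 + γ ^ 2 / 2) * m - δ / 3 * |(m : ℝ)|) := by
    rw [← E_add, ← E_add]
    change E _ = _
    congr 1
    ring
  rw [c4, E_add]
  ring

end Pool.Agent.Lib.MP_0d9445_pr.Bd.Ex
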