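import Pool.Agent.Lib.MP_0d9445_pr.Bd.Gau
import Pool.Agent.Lib.MP_0d9445_pr.Lay.Final
import Pool.Agent.Lib.MP_0d9445_pr.Su.Basic
import Pool.Agent.Lib.MP_0d9445_pr.BM.ExW

/-! A whole-plane GFF and a free-boundary GFF that differ by a continuous function in the upper
half-plane exist. -/

open MeasureTheory ProbabilityTheory Set Filter Topology Real
open Pool.Agent.Lib.MP_0d9445_pr LQ.Gauss LQ.Lay
open scoped ENNReal RealInnerProductSpace ComplexConjugate

noncomputable section

namespace Pool.Agent.Lib.MP_0d9445_pr.Bd.ExPair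

/-- reflection of the white noise space -/
def rf (z : ℝ × ℂ) : ℝ × ℂ := (z.1, conj z.2)

theorem rf_mp : MeasurePreserving rf volume volume :=
  (MeasurePreserving.id volume).prod Complex.conjLIE.measurePreserving

/-- the sign of the imaginary part -/
def sg (z : ℝ × ℂ) : ℝ := SignType.sign z.2.im

theorem measurable_sg : Measurable sg := by
  have : sg = fun z => if 0 < z.2.im then 1 else if z.2.im < 0 then -1 else 0 := by
    funext z
    simp only [sg, sign_apply]
    split_ifs <;> simp
  rw [this]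
  exact Measurable.ite (measurableSet_lt measurable_const (by fun_prop)) measurable_const
    (Measurable.ite (measurableSet_lt (by fun_prop) measurable_const) measurable_const
      measurable_const)

theorem sg_rf (z : ℝ × ℂ) : sg (rf z) = -sg z := by simp [sg, rf, Left.sign_neg]

theorem abs_sg (z : ℝ × ℂ) : |sg z| ≤ 1 := by
  simp only [sg, sign_apply]
  split_ifs <;> simp

theorem ae_sg : ∀ᵐ z : ℝ × ℂ, sg z * sg z = 1 := by
  have h0 : (volume : Measure ℂ) {w | w.im = 0} = 0 := by
    have := Measure.addHaar_submodule (volume : Measure ℂ) (LinearMap.ker Complex.imLm) (by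
      intro h
      have : Complex.I ∈ LinearMap.ker Complex.imLm := h ▸ Submodule.mem_top
      simp at this)
    exact this
  have h1 : ∀ᵐ z : ℝ × ℂ, z.2.im ≠ 0 :=
    Measure.quasiMeasurePreserving_snd.ae (p := fun w : ℂ => w.im ≠ 0) (by simpa [ae_iff] using h0)
  filter_upwards [h1] with z hz
  rcases hz.lt_or_gt with a | a <;> simp [sg, a]

theorem memLp_U (f : HH) : MemLp (fun z => (√2)⁻¹ * (f (rf z) + sg z * f z)) 2 volume := by
  refine (((Lp.memLp f).comp_measurePreserving rf_mp).add ?_).const_mul _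
  refine (Lp.memLp f).mono (measurable_sg.aestronglyMeasurable.mul (Lp.aestronglyMeasurable f))
    (ae_of_all _ fun z => ?_)
  rw [norm_mul]
  exact mul_le_of_le_one_left (norm_nonneg _) (abs_sg z)

/-- the folding isometry -/
def U : HH →ₗᵢ[ℝ] HH where
  toFun f := (memLp_U f).toLp _
  map_add' f g := by
    refine Lp.ext ?_
    filter_upwards [(memLp_U (f + g)).coeFn_toLp, Lp.coeFn_add ((memLp_U f).toLp _)
      ((memLp_U g).toLp _), (memLp_U f).coeFn_toLp, (memLp_U g).coeFn_toLp, Lp.coeFn_add f g,
      rf_mp.quasiMeasurePreserving.ae (Lp.coeFn_add f g)] with z a b c d e k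
    rw [a, b, Pi.add_apply, c, d, e, k, Pi.add_apply, Pi.add_apply]
    ring
  map_smul' t f := by
    refine Lp.ext ?_
    filter_upwards [(memLp_U (t • f)).coeFn_toLp, Lp.coeFn_smul t ((memLp_U f).toLp _),
      (memLp_U f).coeFn_toLp, Lp.coeFn_smul t f,
      rf_mp.quasiMeasurePreserving.ae (Lp.coeFn_smul t f)] with z a b c e k
    rw [a, RingHom.id_apply, b, Pi.smul_apply, c, e, k, Pi.smul_apply, Pi.smul_apply]
    simp only [smul_eq_mul]
    ring
  norm_map' f := by
    show ‖(memLp_U f).toLp _‖ = _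
    rw [← sq_eq_sq₀ (norm_nonneg _) (norm_nonneg _), ← real_inner_self_eq_norm_sq,
      ← real_inner_self_eq_norm_sq, L2.inner_def, L2.inner_def]
    have i1 : Integrable fun z => f z * f z := (Lp.memLp f).integrable_mul (Lp.memLp f)
    have i2 : Integrable fun z => f (rf z) * f (rf z) := rf_mp.integrable_comp_of_integrable i1
    have i3 : Integrable fun z => sg z * (f (rf z) * f z) :=
      (((Lp.memLp f).comp_measurePreserving rf_mp).integrable_mul (Lp.memLp f)).bdd_mul
        measurable_sg.aestronglyMeasurable (ae_of_all _ abs_sg)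
    have me : MeasurableEmbedding rf :=
      MeasurableEmbedding.id.prodMap Complex.conjLIE.toHomeomorph.measurableEmbedding
    have e2 := rf_mp.integral_comp me fun z => f z * f z
    have e3 := rf_mp.integral_comp me fun z => sg z * (f (rf z) * f z)
    have e4 : ∫ z, sg (rf z) * (f (rf (rf z)) * f (rf z)) = -∫ z, sg z * (f (rf z) * f z) := by
      rw [← integral_neg]
      congr 1
      funext z
      rw [sg_rf, show rf (rf z) = z by simp [rf]]
      ring
    have e5 : ∫ z, ⟪(memLp_U f).toLp _ z, (memLp_U f).toLp _ z⟫ =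
        ∫ z, 2⁻¹ * (f (rf z) * f (rf z) + f z * f z) + sg z * (f (rf z) * f z) := by
      refine integral_congr_ae ?_
      filter_upwards [(memLp_U f).coeFn_toLp, ae_sg] with z a b
      rw [a]
      simp only [RCLike.inner_apply, conj_trivial]
      linear_combination (f (rf z) + sg z * f z) ^ 2 * inv_sqrt_two + 2⁻¹ * f z ^ 2 * b
    have i4 : Integrable fun z => 2⁻¹ * (f (rf z) * f (rf z) + f z * f z) :=
      (i2.add i1).const_mul _
    rw [e5, integral_add i4 i3, integral_const_mul, integral_add i2 i1, e2]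
    simp only [RCLike.inner_apply, conj_trivial]
    linarith

theorem U_kap (j : ℤ) {x : ℂ} (hx : 1 < (2 : ℝ) ^ j * x.im) :
    U (kap j x + kap j (conj x)) = √2 • kap j x := by
  have hz : ∀ s w, 1 < ‖w‖ → cut FF (s, w) = 0 := fun s w hw => by
    by_cases hs : s ∈ Ioc 0 (log 2)
    · rw [cut, indicator_of_mem hs]
      exact FF_eq_zero _ _ (by linarith [hs.1]) (by simpa using hw)
    · exact indicator_of_notMem hs _
  have hc : ∀ s w, cut FF (s, conj w) = cut FF (s, w) := fun s w => by
    simp only [cut, FF]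
    congr 1
    funext s
    rw [phi_congr]
    simp
  have him : ((2 : ℂ) ^ j * x).im = 2 ^ j * x.im := by
    rw [show (2 : ℂ) ^ j = ((2 : ℝ) ^ j : ℝ) by simp, Complex.im_ofReal_mul]
  have hcj : (2 : ℂ) ^ j * conj x = conj ((2 : ℂ) ^ j * x) := by
    rw [map_mul, map_zpow₀, map_ofNat]
  set a := (2 : ℂ) ^ j * x
  have k1 := coe_tr_toLp memLp_FF (j * log 2, a)
  have k2 := coe_tr_toLp memLp_FF (j * log 2, conj a)
  have k3 := Lp.coeFn_add (kap j x) (kap j (conj x))
  refine Lp.ext ?_
  filter_upwards [(memLp_U (kap j x + kap j (conj x))).coeFn_toLp, Lp.coeFn_smul (√2) (kap j x),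
    k1, k2, k3, rf_mp.quasiMeasurePreserving.ae k1, rf_mp.quasiMeasurePreserving.ae k2,
    rf_mp.quasiMeasurePreserving.ae k3] with z b1 b2 b3 b4 b5 b6 b7 b8
  refine b1.trans ?_
  rw [b2, b5, b8]
  simp only [Pi.add_apply, Pi.smul_apply, kap, hcj, smul_eq_mul]
  rw [b3, b4, b6, b7]
  obtain ⟨s, w⟩ := z
  simp only [rf, Prod.mk_sub_mk]
  have e1 : cut FF (s - j * log 2, conj w - a) = cut FF (s - j * log 2, w - conj a) := by
    rw [← hc]; simp
  have e2 : cut FF (s - j * log 2, conj w - conj a) = cut FF (s - j * log 2, w - a) := by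
    rw [← hc]; simp
  rw [e1, e2]
  have s2 : (√2)⁻¹ * 2 = √2 := by
    rw [inv_mul_eq_iff_eq_mul₀ (by positivity), mul_self_sqrt zero_le_two]
  rcases lt_trichotomy w.im 0 with h | h | h
  · have : cut FF (s - j * log 2, w - a) = 0 := hz _ _ (by
      refine lt_of_lt_of_le ?_ (Complex.abs_im_le_norm _)
      rw [Complex.sub_im, him, lt_abs]; right; linarith)
    simp [this, sg, h]
  · have h1 : cut FF (s - j * log 2, w - a) = 0 := hz _ _ (by
      refine lt_of_lt_of_le ?_ (Complex.abs_im_le_norm _)
      rw [Complex.sub_im, him, lt_abs]; right; linarith)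
    have h2 : cut FF (s - j * log 2, w - conj a) = 0 := hz _ _ (by
      refine lt_of_lt_of_le ?_ (Complex.abs_im_le_norm _)
      rw [Complex.sub_im, Complex.conj_im, him, lt_abs]; left; linarith)
    simp [h1, h2]
  · have : cut FF (s - j * log 2, w - conj a) = 0 := hz _ _ (by
      refine lt_of_lt_of_le ?_ (Complex.abs_im_le_norm _)
      rw [Complex.sub_im, Complex.conj_im, him, lt_abs]; left; linarith)
    simp only [this, sg, sign_pos h]
    simp only [SignType.coe_one]
    linear_combination cut FF (s - j * log 2, w - a) * s2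

/-- the cutoff for the layer `j` -/
def ct (j : ℕ) (z : ℂ) : ℝ := max 0 (min 1 (2 - 2 ^ j * z.im))

theorem ct_zero {j : ℕ} {z : ℂ} {δ : ℝ} (hδ : 0 < δ) (hz : δ ≤ z.im) (hj : ⌈2 / δ⌉₊ ≤ j) :
    2 ≤ 2 ^ j * z.im := by
  have h1 : 2 / δ ≤ j := Nat.ceil_le.1 hj
  have h2 : (j : ℝ) ≤ 2 ^ j := by exact_mod_cast Nat.lt_two_pow_self.le
  rw [div_le_iff₀ hδ] at h1
  nlinarith [pow_pos (two_pos (α := ℝ)) j]

/-- the locally finite sum of the cut functions -/
def sm (u : ℕ → Fn) (z : ℂ) : ℝ := ∑ j ∈ Finset.range ⌈2 / z.im⌉₊, ct j z * u j z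

theorem sm_eq (u : ℕ → Fn) {z : ℂ} {δ : ℝ} (hδ : 0 < δ) (hz : δ ≤ z.im) :
    sm u z = ∑ j ∈ Finset.range ⌈2 / δ⌉₊, ct j z * u j z := by
  refine Finset.sum_subset (Finset.range_subset_range.2 (Nat.ceil_mono ?_)) fun j _ hj => ?_
  · exact div_le_div_of_nonneg_left zero_le_two hδ hz
  · have := ct_zero (hδ.trans_le hz) le_rfl (by simpa using hj)
    rw [ct, max_eq_left ((min_le_right _ _).trans (by linarith)), zero_mul]

theorem sm_cont (u : ℕ → Fn) : ContinuousOn (sm u) UH := fun z hz => by
  have hz' : 0 < z.im := hz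
  have hc : Continuous fun w => ∑ j ∈ Finset.range ⌈2 / (z.im / 2)⌉₊, ct j w * u j w := by
    unfold ct
    fun_prop
  refine (hc.continuousAt.congr ?_).continuousWithinAt
  filter_upwards [Complex.continuous_im.continuousAt.eventually
    (lt_mem_nhds (half_lt_self hz'))] with w hw
  exact (sm_eq u (half_pos hz') hw.le).symm

theorem avg_sm {u : ℕ → Fn} (hu : ∀ (j : ℕ) (z : ℂ), 1 < 2 ^ j * z.im → u j z = 0) (v : Fn)
    {p : ℝ × ℂ} (hp : exp (-p.1) < p.2.im) :
    HasSum (fun j => avg (u j) p) (avg (fun z => sm u z + v z) p - avg v p) := by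
  have hδ : 0 < p.2.im - exp (-p.1) := sub_pos.2 hp
  have hV : Metric.closedBall p.2 (exp (-p.1)) ⊆ {z | p.2.im - exp (-p.1) ≤ z.im} := fun z hz => by
    have h1 := (Complex.abs_im_le_norm (z - p.2)).trans (mem_closedBall_iff_norm.1 hz)
    rw [Complex.sub_im, abs_le] at h1
    show p.2.im - exp (-p.1) ≤ z.im
    linarith [h1.1]
  have e : avg (fun z => sm u z + v z) p =
      circ (∑ j ∈ Finset.range ⌈2 / (p.2.im - exp (-p.1))⌉₊, u j + v) p := by
    refine Su.avg_congr (fun z hz => ?_) hV
    rw [sm_eq u hδ hz, ContinuousMap.add_apply, ContinuousMap.sum_apply]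
    congr 1
    refine Finset.sum_congr rfl fun j _ => ?_
    by_cases h : 1 < 2 ^ j * z.im
    · rw [hu j z h, mul_zero]
    · rw [ct, min_eq_left (by linarith), max_eq_right zero_le_one, one_mul]
  have e2 : ∀ n, circ (∑ j ∈ Finset.range n, u j + v) p =
      ∑ j ∈ Finset.range n, avg (u j) p + avg v p := fun n => by
    induction n with
    | zero => simp [circ]
    | succ n ih =>
      rw [Finset.sum_range_succ, Finset.sum_range_succ, add_right_comm, add_right_comm _ _ (avg v p),
        ← ih]
      exact Mu.avg_add (by fun_prop) (u n).continuous p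
  rw [e, e2, add_sub_cancel_right]
  refine hasSum_sum_of_ne_finset_zero fun j hj => ?_
  refine (Su.avg_congr (g := fun _ => 0) (fun z hz => hu j z ?_) hV).trans (avg_const 0 p)
  linarith [ct_zero hδ hz (by simpa using hj)]

/-- the coupling exists -/
theorem exists_freePair : ∃ (Ω : Type) (_ : MeasurableSpace Ω) (P : Measure Ω) (h φ : Ω → Field)
    (g : Ω → ℂ → ℝ), IsFreePair P h φ g := by
  obtain ⟨η, Z, H⟩ := exists_pre
  let X : Om HH → Field := fun ω => addFn (fine (fun j => η j ω) 0) (infra fun j => η j ω)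
  have hX : IsGFF X (wnP HH) := H.isGFF
  have hY : IsGFF (fun ω => X (act U ω)) (wnP HH) := Su.isGFF_comp hX (act_mp U)
  have ma := (act_mp U).measurable
  let u : Om HH → ℕ → Fn := fun ω j => evF (η j (act U ω)) - η j ω
  let v : Om HH → Fn := fun ω => evF (infra fun j => η j (act U ω)) - (infra fun j => η j ω) -
    cst (evH (X (act U ω)) 0 - X ω 0)
  have mI : Measurable fun ω => infra fun j => η j ω := measurable_infra' fun j _ => H.meas_eta j
  have mu : ∀ j, Measurable fun ω => u ω j := fun j =>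
    (measurable_evF.comp ((H.meas_eta j).comp ma)).sub (H.meas_eta j)
  have mv : Measurable v := ((measurable_evF.comp (mI.comp ma)).sub mI).sub
    (EN.continuous_cst.measurable.comp (((Mu.measurable_eval 0).comp (measurable_evH.comp
      hY.meas)).sub ((Mu.measurable_eval 0).comp hX.meas)))
  have h0 : ∀ (j : ℕ) (z : ℂ), 1 < 2 ^ j * z.im → ∀ᵐ ω ∂wnP HH, u ω j z = 0 := fun j z hz => by
    have q := (act_mp U).quasiMeasurePreserving
    filter_upwards [q.ae (H.ver j z), q.ae (H.ver j (conj z)), H.ver j z,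
      q.ae (H.iso.add (kap j z) (kap j (conj z))), wn_act U (kap j z + kap j (conj z)),
      H.iso.smul (√2) (kap j z)] with ω a b c d e k
    rw [U_kap j (by simpa using hz), k, d, ← a, ← b, ← c] at e
    show (η j (act U ω) z + η j (act U ω) (conj z)) / √2 - η j ω z = 0
    rw [e, mul_div_cancel_left₀ _ (by positivity), sub_self]
  have h1 : ∀ᵐ ω ∂wnP HH, ∀ (j : ℕ) (z : ℂ), 1 < 2 ^ j * z.im → u ω j z = 0 := by
    obtain ⟨S, hS, dS⟩ := TopologicalSpace.exists_countable_dense ℂ
    have : ∀ᵐ ω ∂wnP HH, ∀ j : ℕ, ∀ z ∈ S, 1 < 2 ^ j * z.im → u ω j z = 0 :=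
      ae_all_iff.2 fun j => (ae_ball_iff hS).2 fun z _ => by
        by_cases hz : 1 < 2 ^ j * z.im
        · exact (h0 j z hz).mono fun _ a _ => a
        · exact ae_of_all _ fun _ a => (hz a).elim
    filter_upwards [this] with ω hω j z hz
    have ho : IsOpen {z : ℂ | 1 < 2 ^ j * z.im} := isOpen_lt continuous_const (by fun_prop)
    exact closure_minimal (fun w hw => hω j w hw.2 hw.1)
      (isClosed_eq (u ω j).continuous continuous_const) (dS.open_subset_closure_inter ho hz)
  refine ⟨Om HH, inferInstance, wnP HH, fun ω => EN.nrm (X ω),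
    fun ω => EN.nrm (evH (X (act U ω))), fun ω z => sm (u ω) z + v ω z, ?_,
    ae_of_all _ fun ω => by rw [EN.nrm_apply, sub_self], isFreeGFF_evH hY, fun z => ?_,
    fun ω => (sm_cont _).add (v ω).continuous.continuousOn, ?_⟩
  · refine EN.gff_of_law (EN.measurable_nrm.comp hX.meas) hX ?_
    congr 1
    funext ω
    exact EN.nrm_of_zero (by rw [EN.nrm_apply, sub_self])
  · exact (Finset.measurable_sum _ fun j _ =>
      ((Mu.measurable_eval z).comp (mu j)).const_mul _).add ((Mu.measurable_eval z).comp mv)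
  · filter_upwards [h1, H.ae_summable_circ 0,
      (act_mp U).quasiMeasurePreserving.ae (H.ae_summable_circ 0)] with ω a b c p hp
    have ev : ∀ {e : ℤ → Fn}, (Summable fun j : ℕ => circ (e (0 + j))) → ∀ q,
        HasSum (fun j : ℕ => avg (e j) q) (fine e 0 q) := fun {e} he q => by
      have := he.hasSum.map (ContinuousMap.evalCLM ℝ q) (ContinuousLinearMap.continuous _)
      simp only [zero_add] at this
      simp only [fine, zero_add]
      exact this
    have s1 := avg_sm a (v ω) hp
    have s2 := (((ev (e := fun j => η j (act U ω)) c p).add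
      (ev (e := fun j => η j (act U ω)) c (cj p))).div_const (√2)).sub
      (ev (e := fun j => η j ω) b p)
    have e1 : ∀ j : ℕ, avg (u ω j) p = (avg (η j (act U ω)) p + avg (η j (act U ω)) (cj p)) / √2 -
        avg (η j ω) p := fun j => by
      rw [← avg_evF]
      exact circleAverage_fun_sub (evF _).continuous.continuousOn.circleIntegrable'
        (η j ω).continuous.continuousOn.circleIntegrable'
    simp only [e1] at s1
    have e2 := s1.unique s2
    have e3 : avg (v ω) p = avg (evF (infra fun j => η j (act U ω))) p -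
        avg (infra fun j => η j ω) p - (evH (X (act U ω)) 0 - X ω 0) := by
      rw [← EN.avg_cst (evH (X (act U ω)) 0 - X ω 0) p]
      refine (circleAverage_fun_sub (ContinuousMap.continuous _).continuousOn.circleIntegrable'
        (ContinuousMap.continuous _).continuousOn.circleIntegrable').trans ?_
      exact congrArg (· - _) (circleAverage_fun_sub
        (ContinuousMap.continuous _).continuousOn.circleIntegrable'
        (ContinuousMap.continuous _).continuousOn.circleIntegrable')
    rw [EN.nrm_apply, EN.nrm_apply, evH_apply (X (act U ω)) p]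
    rw [avg_evF] at e3
    simp only [X, Mu.addFn_apply] at e3 ⊢
    linear_combination -e2 - e3

section Radial

open BM
open scoped NNReal

variable {Ω : Type} [MeasurableSpace Ω] (P : Measure Ω) [IsProbabilityMeasure P]

/-- two independent Brownian motions, independent of the second factor -/
theorem exists_radial : ∃ W : Measure Path, IsProbabilityMeasure W ∧
    ∃ b c : ℝ≥0 → Path × Ω → ℝ, (∀ t, Measurable (b t)) ∧ (∀ t, Measurable (c t)) ∧
    IsBrownianReal b (W.prod P) ∧ IsBrownianReal c (W.prod P) ∧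
    IndepFun (fun ω t => b t ω) (fun ω t => c t ω) (W.prod P) ∧ ∀ φ : Ω → Field, Measurable φ →
    IndepFun (fun ω => (fun t => b t ω, fun t => c t ω)) (fun ω => φ ω.2) (W.prod P) := by
  obtain ⟨W, hW⟩ := exists_wiener
  have hp : IsProbabilityMeasure W :=
    hW.re.toIsPreBrownianReal.isGaussianProcess.isProbabilityMeasure
  have mf : HasLaw (Prod.fst : Path × Ω → Path) W (W.prod P) := measurePreserving_fst.hasLaw
  have m1 : Measurable fun (ω : Path) (t : ℝ≥0) => (ω t).re :=
    measurable_pi_lambda _ fun t => Complex.measurable_re.comp (measurable_evalAt t)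
  have m2 : Measurable fun (ω : Path) (t : ℝ≥0) => (ω t).im :=
    measurable_pi_lambda _ fun t => Complex.measurable_im.comp (measurable_evalAt t)
  refine ⟨W, hp, fun t ω => (ω.1 t).re, fun t ω => (ω.1 t).im,
    fun t => Complex.measurable_re.comp ((measurable_evalAt t).comp measurable_fst),
    fun t => Complex.measurable_im.comp ((measurable_evalAt t).comp measurable_fst),
    ⟨⟨fun I => (hW.re.hasLaw I).fun_comp mf⟩,
      ae_of_all _ fun ω => Complex.continuous_re.comp ω.1.continuous⟩,
    ⟨⟨fun I => (hW.im.hasLaw I).fun_comp mf⟩,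
      ae_of_all _ fun ω => Complex.continuous_im.comp ω.1.continuous⟩, ?_, fun φ hφ =>
    indepFun_prod (X := fun ω : Path => (fun t => (ω t).re, fun t => (ω t).im)) (m1.prodMk m2) hφ⟩
  have := hW.indep
  rw [indepFun_iff_measure_inter_preimage_eq_mul] at this ⊢
  intro s t hs ht
  have e := fun (S : Set Path) (hS : MeasurableSet S) =>
    (measurePreserving_fst (μ := W) (ν := P)).measure_preimage hS.nullMeasurableSet
  exact (e _ ((m1 hs).inter (m2 ht))).trans ((this s t hs ht).trans
    (congrArg₂ (· * ·) (e _ (m1 hs)).symm (e _ (m2 ht)).symm))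

end Radial

/-- the fields of the quantum cone and of the quantum wedge exist -/
theorem exists_cone_wedge (γ Q : ℝ) : ∃ (Ω : Type) (_ : MeasurableSpace Ω) (P : Measure Ω)
    (h : Ω → Field) (f f' : Ω → ℂ → ℝ), IsProbabilityMeasure P ∧ IsCone γ Q P h f ∧
      IsWedge γ Q P h f' := by
  obtain ⟨Ω, _, P, h, φ, g, H⟩ := exists_freePair
  have := H.gff.gauss.isProbabilityMeasure
  obtain ⟨W, hW, b, c, mb, mc, hb, hc, i1, i2⟩ := exists_radial P
  have hπ : MeasurePreserving Prod.snd (W.prod P) P := measurePreserving_snd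
  have hm : ∀ p, Measurable fun ω => φ ω p := fun p => (Mu.measurable_eval p).comp H.free.meas
  have H' : IsFreePair (W.prod P) (fun x => h x.2) (fun x => φ x.2) fun x => g x.2 := by
    refine ⟨Su.isGFF_comp H.gff hπ, hπ.quasiMeasurePreserving.ae H.zero,
      ⟨H.free.meas.comp hπ.measurable, ⟨fun I => ⟨?_⟩⟩, fun p => ?_, fun p q => ?_⟩,
      fun z => (H.meas z).comp hπ.measurable, fun x => H.cont _,
      hπ.quasiMeasurePreserving.ae H.eq⟩
    · have h1 := (H.free.gauss.hasGaussianLaw I).isGaussian_map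
      have h2 : Measurable fun ω => I.restrict fun p => φ ω p :=
        measurable_pi_lambda _ fun i => hm i
      rw [← hπ.map_eq, Measure.map_map h2 hπ.measurable] at h1
      exact h1
    · exact ((integral_map hπ.aemeasurable (hm p).aestronglyMeasurable).symm.trans
        (by rw [hπ.map_eq])).trans (H.free.mean p)
    · exact ((integral_map hπ.aemeasurable ((hm p).mul (hm q)).aestronglyMeasurable).symm.trans
        (by rw [hπ.map_eq]; rfl)).trans (H.free.cov p q)
  exact ⟨_, _, W.prod P, fun x => h x.2, _, _, inferInstance,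
    ⟨H'.gff, H'.zero, b, c, mb, mc, hb, hc, i1, i2 h H.gff.meas, fun _ _ => rfl⟩,
    _, _, H', b, c, mb, mc, hb, hc, i1, i2 φ H.free.meas, fun _ _ => rfl⟩

end Pool.Agent.Lib.MP_0d9445_pr.Bd.ExPair
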