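import Pool.Agent.Lib.MP_0d9445_pr.Bd.Iface
import Pool.Agent.Lib.MP_0d9445_pr.Bd.GauS

/-! The field with reflected layers. -/

open MeasureTheory ProbabilityTheory Set Filter Topology Real LQ.Met
open scoped NNReal ENNReal ComplexConjugate

noncomputable section

namespace Pool.Agent.Lib.MP_0d9445_pr.Bd

open CR PPP Walk EN
open Mu (addFn_apply addFn_addFn addFn_zero)

variable {M : Model}

theorem cfb_good (F : M.All) (m n : ℕ) (g : Fn) : ∀ᵐ ω ∂M.P, IsGood (cfb M m n g ω) ∧
    IsLocallyFiniteMeasure (cfb M m n g ω).2 ∧ (cfb M m n g ω).2.IsOpenPosMeasure := by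
  filter_upwards [F.e0 m 0, M.ae_good (plus_cfb M m n g), M.ae_vague (plus_cfb M m n g),
    M.ae_weyl (M.plus_H m) ((measurable_Sb M n m).const_add g)] with ω h1 h3 h4 h5
  refine ⟨h3, h4.1, ?_⟩
  rw [show (cfb M m n g ω).2 = _ from h5.2]
  have : (M.μ (M.H m ω)).IsOpenPosMeasure := by
    simpa only [Model.cf, addFn_zero, Model.conf] using h1.2.2.1
  exact Measure.AbsolutelyContinuous.isOpenPosMeasure (μ := M.μ (M.H m ω))
    (withDensity_absolutelyContinuous' (Measurable.aemeasurable (by fun_prop))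
      (ae_of_all _ fun z => (ENNReal.ofReal_pos.2 (exp_pos _)).ne'))

theorem cfb_weyl (_F : M.All) (m n : ℕ) (g g' : Fn) : ∀ᵐ ω ∂M.P,
    IsWeyl (fun z => M.ξ * (g' z - g z)) (Function.curry (cfb M m n g ω).1)
      (Function.curry (cfb M m n g' ω).1) ∧
    (cfb M m n g' ω).2 =
      (cfb M m n g ω).2.withDensity fun z => ENNReal.ofReal (exp (M.γ * (g' z - g z))) := by
  filter_upwards [M.ae_weyl (plus_cfb M m n g) (f := fun _ => g' - g) measurable_const] with ω h
  rw [addFn_addFn, add_right_comm, add_sub_cancel] at h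
  exact h

/-- covariance of the configuration under a dyadic similarity of the field -/
theorem map_pull_of_law {h h' : M.Ω → Field} (H : IsGFFplus h M.P) (H' : IsGFFplus h' M.P)
    (k : ℤ) (j : ℕ) (b : ℂ) (law : M.P.map (fun ω => affine M.Q (dy k j) b (h ω)) = M.P.map h') :
    (M.P.map fun ω => M.conf (h ω)).map (pull (dy k j) b) = M.P.map fun ω => M.conf (h' ω) := by
  have m1 := (measurable_affine M.Q (dy k j) b).fun_comp H.1
  have hv : ∀ᵐ ω ∂M.P, IsVague M.γ (affine M.Q (dy k j) b (h ω))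
      (M.μ (affine M.Q (dy k j) b (h ω))) := by
    refine ae_of_ae_map (p := fun H => IsVague M.γ H (M.μ H)) m1.aemeasurable ?_
    rw [law, ae_map_iff H'.1.aemeasurable (Mu.measurableSet_vague M.γ M.hμ.meas)]
    exact M.ae_vague H'
  rw [Measure.map_map (measurable_pull _ _) (M.measurable_conf.fun_comp H.1)]
  refine Eq.trans (Measure.map_congr ?_) ((Measure.map_map M.measurable_conf m1).symm.trans
    ((congrArg _ law).trans (Measure.map_map M.measurable_conf H'.1)))
  filter_upwards [hv, M.ae_vague H, M.hD.coord _ _ _ H (dy k j) b (Mu.dy_ne_zero k j)]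
    with ω h3 h4 h5
  refine Prod.ext (ContinuousMap.ext fun p => h5 p.1 p.2) ?_
  exact Mu.vague_unique (Mu.vague_affine h4 M.gamma_Q (Mu.norm_dy k j) b) h3

theorem resc_evF (s b : ℝ) (g : Fn) : resc s b (evF g) = evF (resc s b g) := by
  ext z
  simp [resc, evF_apply]

theorem Pkb_cov (_F : M.All) (m n : ℕ) (b : ℝ) (g : Fn) :
    (Pkb M (m + n) n g).map (pull (sc n : ℝ) b) = Pkb M m 0 (res M.Q (sc n : ℝ) b g) := by
  rw [← dy_zero]
  refine map_pull_of_law (plus_cfb M _ _ _) (plus_cfb M _ _ _) n 0 b ?_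
  have hG : Measurable fun x : (ℤ → Fn) × (ℤ → Field) => addFn (x.2 m)
      (res M.Q (dy n 0) b g + ∑ i ∈ Finset.range m, evF (x.1 i)) :=
    measurable_addFn' ((measurable_pi_apply _).comp measurable_snd) (Measurable.const_add
      (Finset.measurable_sum _ fun (i : ℕ) _ => measurable_evF.fun_comp
        ((measurable_pi_apply (i : ℤ)).fun_comp measurable_fst)) _)
  have h := congrArg (Measure.map fun x : (ℤ → Fn) × (ℤ → Field) => addFn (x.2 m)
    (res M.Q (dy n 0) b g + ∑ i ∈ Finset.range m, evF (x.1 i))) (M.cov n 0 b)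
  rw [Measure.map_map hG ((measurable_pi_lambda _ fun _ =>
      (measurable_resc _ _).fun_comp (M.meas_eta _)).prodMk (measurable_pi_lambda _ fun _ =>
      (measurable_affine _ _ _).fun_comp (M.meas_H _))),
    Measure.map_map hG ((measurable_pi_lambda _ fun _ => M.meas_eta _).prodMk
      (measurable_pi_lambda _ fun _ => M.meas_H _))] at h
  convert h using 2 with ω ω
  · funext ω
    rw [affine_addFn _ (Mu.dy_ne_zero n 0), Function.comp_apply, Nat.cast_add, dy_zero]
    congr 1
    simp only [← resc_evF]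
    ext z
    simp [res, resc, Sb, Finset.sum_Ico_eq_sum_range, add_comm (n : ℤ), add_right_comm]
  · funext ω
    simp [Sb]

theorem Pkb_scale (_F : M.All) (m n : ℕ) (g : Fn) (t : ℝ) :
    (Pkb M m n g).map (scale M.ξ M.γ t) = Pkb M m n (g + cst t) := by
  rw [Pkb_apply, Pkb_apply, Measure.map_map (measurable_scale _ _ _) (measurable_cfb' M m n g)]
  refine Measure.map_congr ?_
  filter_upwards [M.ae_scale (plus_cfb M m n g) (t := fun _ => t) measurable_const] with ω h
  rw [addFn_addFn, add_right_comm] at h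
  exact h.symm

theorem measurable_ob (n : ℕ) (a : ℤ) : Measurable (ob n a) := (measurable_lipb _ _).const_mul _

theorem Gb_lip (M : Model) (y : ℂ) (r : ℝ) : ∀ᵐ g ∂Gb M, lip g (Metric.ball y r) < ∞ := by
  filter_upwards [ae_lt_top (measurable_ex.fun_comp ((measurable_lipb _ _).const_mul _))
    (lipexp_Gb M 1 (r + dist y 0)).ne] with g hg
  refine (lip_mono g (Metric.ball_subset_ball' (y := 0) le_rfl)).trans_lt
    (lt_top_iff_ne_top.2 fun e => ?_)
  rw [e] at hg
  simp [Wt_ex_top] at hg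

theorem Gb_ob (M : Model) (n : ℕ) (a : ℤ) : ∀ᵐ g ∂Gb M, ob n a g < ∞ :=
  (Gb_lip M _ _).mono fun _ => ENNReal.mul_lt_top ENNReal.ofReal_lt_top

end Pool.Agent.Lib.MP_0d9445_pr.Bd
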