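import Pool.Agent.Lib.MP_0d9445_pr.Bd.Defs
import Pool.Agent.Lib.MP_0d9445_pr.EN.Field

/-! Gaussian laws of the reflected layers, at the level of fields. -/

open MeasureTheory ProbabilityTheory Set Filter Topology Real LQ.Gauss
open scoped NNReal ENNReal ComplexConjugate RealInnerProductSpace

noncomputable section

namespace Pool.Agent.Lib.MP_0d9445_pr.Bd

open CR EN
open Mu (addFn_apply addFn_addFn addFn_zero)

/-! ## Reflection of circles -/

/-- the mirror image of a circle -/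
def cj (p : ℝ × ℂ) : ℝ × ℂ := (p.1, conj p.2)

theorem cj_cj (p : ℝ × ℂ) : cj (cj p) = p := by simp [cj]

theorem cj_zero : cj 0 = 0 := by simp [cj]

theorem avg_conj (g : ℂ → ℝ) (p : ℝ × ℂ) : avg (fun z => g (conj z)) p = avg g (cj p) := by
  unfold avg circleAverage
  congr 1
  have h := intervalIntegral.integral_comp_sub_left (a := 0) (b := 2 * π)
    (fun θ => g (circleMap (conj p.2) (exp (-p.1)) θ)) (2 * π)
  rw [sub_self, sub_zero] at h
  refine Eq.trans (intervalIntegral.integral_congr fun θ _ => ?_) h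
  show g _ = g _
  rw [sub_eq_neg_add, periodic_circleMap]
  congr 1
  simp [circleMap, ← Complex.exp_conj]

theorem evF_apply (g : Fn) (z : ℂ) : evF g z = (g z + g (conj z)) / √2 := rfl

theorem evH_apply (H : Field) (p : ℝ × ℂ) : evH H p = (H p + H (cj p)) / √2 := rfl

theorem evF_conj (g : Fn) (z : ℂ) : evF g (conj z) = evF g z := by
  rw [evF_apply, evF_apply, Complex.conj_conj, add_comm]

theorem evH_cj (H : Field) (p : ℝ × ℂ) : evH H (cj p) = evH H p := by
  rw [evH_apply, evH_apply, cj_cj, add_comm]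

theorem avg_evF (g : Fn) (p : ℝ × ℂ) : avg (evF g) p = (avg g p + avg g (cj p)) / √2 := by
  rw [← avg_conj, ← Mu.avg_add g.continuous (by fun_prop), div_eq_inv_mul, ← smul_eq_mul, avg, avg,
    ← circleAverage_fun_smul]
  congr 1
  funext z
  rw [evF_apply, div_eq_inv_mul, smul_eq_mul]

theorem evH_addFn (H : Field) (g : Fn) : evH (addFn H g) = addFn (evH H) (evF g) := by
  ext p
  simp only [evH_apply, addFn_apply, avg_evF]
  ring

theorem evF_add (g g' : Fn) : evF (g + g') = evF g + evF g' := by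
  ext z
  simp only [evF_apply, ContinuousMap.add_apply]
  ring

theorem evF_zero : evF 0 = 0 := by
  ext z
  simp [evF_apply]

theorem evF_sum {ι : Type*} (s : Finset ι) (g : ι → Fn) :
    evF (∑ i ∈ s, g i) = ∑ i ∈ s, evF (g i) :=
  map_sum (⟨⟨evF, evF_zero⟩, evF_add⟩ : Fn →+ Fn) g s

theorem evF_cst (c : ℝ) : evF (cst c) = cst (√2 * c) := by
  ext z
  have : √2 * √2 = 2 := mul_self_sqrt zero_le_two
  rw [evF_apply, div_eq_iff (by positivity)]
  simp only [ContinuousMap.const_apply]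
  linear_combination (-c) * this

theorem gffCov_cj (p q : ℝ × ℂ) : gffCov (cj p) (cj q) = gffCov p q := by
  unfold gffCov
  rw [← avg_conj]
  congr 1
  funext x
  rw [← avg_conj]
  simp only [← map_sub, Complex.norm_conj]

/-- the circles whose closed disc lies in `V` -/
abbrev Dsc (V : Set ℂ) : Type := {p : ℝ × ℂ // Metric.closedBall p.2 (exp (-p.1)) ⊆ V}

/-- two discs at distance at least `r` -/
def Far (r : ℝ) (p q : ℝ × ℂ) : Prop :=
  ∀ x ∈ Metric.closedBall p.2 (exp (-p.1)), ∀ y ∈ Metric.closedBall q.2 (exp (-q.1)), r ≤ ‖x - y‖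

theorem Far.mono {r r' : ℝ} {p q : ℝ × ℂ} (h : Far r p q) (hr : r' ≤ r) : Far r' p q :=
  fun x hx y hy => hr.trans (h x hx y hy)

theorem conj_mem {p : ℝ × ℂ} {x : ℂ} (h : x ∈ Metric.closedBall (cj p).2 (exp (-(cj p).1))) :
    conj x ∈ Metric.closedBall p.2 (exp (-p.1)) := by
  rw [mem_closedBall_iff_norm] at h ⊢
  rwa [← Complex.norm_conj, map_sub, Complex.conj_conj]

theorem Far.conj {r : ℝ} {p q : ℝ × ℂ} (h : Far r p q) : Far r (cj p) (cj q) := fun x hx y hy => by
  have := h _ (conj_mem hx) _ (conj_mem hy)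
  rwa [← map_sub, Complex.norm_conj] at this

theorem far_cj_of_im {r : ℝ} {V : Set ℂ} (hV : ∀ z ∈ V, r / 2 ≤ z.im) (p q : Dsc V) :
    Far r p.1 (cj q.1) := fun x hx y hy => by
  have h1 := hV x (p.2 hx)
  have h2 := hV _ (q.2 (conj_mem hy))
  have h3 := Complex.im_le_norm (x - y)
  rw [Complex.conj_im] at h2
  rw [Complex.sub_im] at h3
  linarith

theorem norm_sub_le_norm_sub_conj {x y : ℂ} (hx : 0 ≤ x.im) (hy : 0 ≤ y.im) :
    ‖x - y‖ ≤ ‖x - conj y‖ := by
  refine (sq_le_sq₀ (norm_nonneg _) (norm_nonneg _)).1 ?_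
  simp only [Complex.sq_norm, Complex.normSq_apply, Complex.sub_re, Complex.sub_im,
    Complex.conj_re, Complex.conj_im]
  nlinarith [mul_nonneg hx hy]

theorem far_cj_of_far {r : ℝ} {A B : Set ℂ} (hA : A ⊆ UH) (hB : B ⊆ UH) (p : Dsc A) (q : Dsc B)
    (h : Far r p.1 q.1) : Far r p.1 (cj q.1) := fun x hx y hy => by
  have h1 := norm_sub_le_norm_sub_conj (hA (p.2 hx)).le (hB (q.2 (conj_mem hy))).le
  rw [Complex.conj_conj] at h1
  exact (h x hx _ (conj_mem hy)).trans h1

theorem Far.cj_left {r : ℝ} {p q : ℝ × ℂ} (h : Far r p (cj q)) : Far r (cj p) q := by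
  have := h.conj
  rwa [cj_cj] at this

/-! ## Local laws -/

section

variable {Ω Ω' : Type} [MeasurableSpace Ω] [MeasurableSpace Ω'] {P : Measure Ω} {P' : Measure Ω'}

omit [MeasurableSpace Ω] in
theorem sigmaOn_eq_pi (X : Ω → Field) (V : Set ℂ) :
    sigmaOn X V = MeasurableSpace.comap (fun ω (p : Dsc V) => X ω p.1) MeasurableSpace.pi := by
  rw [MeasurableSpace.comap_process_pi, sigmaOn, iSup_subtype']

/-- equal laws of the averages over the discs inside `V` -/
theorem lintegral_eq_of_law {X : Ω → Field} {X' : Ω' → Field} (hX : Measurable X)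
    (hX' : Measurable X') {V : Set ℂ}
    (e : P.map (fun ω (p : Dsc V) => X ω p.1) = P'.map fun ω (p : Dsc V) => X' ω p.1)
    {F : Field → ℝ≥0∞} (hF : Measurable[sigmaOn id V] F) :
    ∫⁻ ω, F (X ω) ∂P = ∫⁻ ω, F (X' ω) ∂P' := by
  have hle := Mu.sigmaOn_le (h := id) measurable_id V
  have hr : Measurable fun (H : Field) (p : Dsc V) => H p.1 :=
    measurable_pi_lambda _ fun _ => Mu.measurable_eval _
  rw [← lintegral_map (hF.mono hle le_rfl) hX, ← lintegral_map (hF.mono hle le_rfl) hX',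
    ← lintegral_trim hle hF, ← lintegral_trim hle hF]
  congr 1
  refine @Measure.ext _ (sigmaOn id V) _ _ fun S hS => ?_
  rw [trim_measurableSet_eq hle hS, trim_measurableSet_eq hle hS]
  rw [sigmaOn_eq_pi] at hS
  obtain ⟨T, hT, rfl⟩ := hS
  exact (Measure.map_apply hr hT).symm.trans ((congrArg (fun μ : Measure (Dsc V → ℝ) => μ T)
    ((Measure.map_map hr hX).trans (e.trans (Measure.map_map hr hX').symm))).trans
    (Measure.map_apply hr hT))

theorem indep_assoc [IsProbabilityMeasure P] {α β γ : Type*} [MeasurableSpace α]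
    [MeasurableSpace β] [MeasurableSpace γ] {U : Ω → α} {V : Ω → β} {H : Ω → γ}
    (hU : Measurable U) (hV : Measurable V) (hH : Measurable H) (h1 : IndepFun U V P)
    (h2 : IndepFun (fun ω => (U ω, V ω)) H P) : IndepFun U (fun ω => (V ω, H ω)) P := by
  have h3 : IndepFun V H P := h2.comp measurable_snd measurable_id
  rw [indepFun_iff_map_prod_eq_prod_map_map hU.aemeasurable (hV.prodMk hH).aemeasurable,
    h3.map_prod_eq_prod_map_map hV.aemeasurable hH.aemeasurable, ← Measure.prodAssoc_prod,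
    ← h1.map_prod_eq_prod_map_map hU.aemeasurable hV.aemeasurable,
    ← h2.map_prod_eq_prod_map_map (hU.prodMk hV).aemeasurable hH.aemeasurable,
    Measure.map_map MeasurableEquiv.prodAssoc.measurable ((hU.prodMk hV).prodMk hH)]
  rfl

variable {K : Type*} [NormedAddCommGroup K] [InnerProductSpace ℝ K] {W : K → Ω → ℝ}

theorem inner_eq_zero_of_indep (hW : IsIso W P) {u v : K} {X Y : Ω → ℝ} (hX : X =ᵐ[P] W u)
    (hY : Y =ᵐ[P] W v) (h : IndepFun X Y P) : ⟪u, v⟫ = 0 := by
  rw [← hW.version_cov hX hY]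
  exact h.covariance_eq_zero ((hW.memLp u (by norm_num)).ae_eq hX.symm)
    ((hW.memLp v (by norm_num)).ae_eq hY.symm)

theorem ae_half (hW : IsIso W P) {u v : K} {X Y : Ω → ℝ} (hX : X =ᵐ[P] W u) (hY : Y =ᵐ[P] W v) :
    (fun ω => (X ω + Y ω) / √2) =ᵐ[P] W ((√2)⁻¹ • (u + v)) := by
  filter_upwards [hX, hY, hW.smul (√2)⁻¹ (u + v), hW.add u v] with ω h1 h2 h3 h4
  rw [h3, h4, h1, h2, div_eq_inv_mul]

theorem inv_sqrt_two : (√2 : ℝ)⁻¹ * (√2)⁻¹ = 1 / 2 := by
  rw [← mul_inv, mul_self_sqrt zero_le_two, one_div]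

theorem inner_half (a b c d : K) :
    ⟪(√2)⁻¹ • (a + b), (√2)⁻¹ • (c + d)⟫ = (⟪a, c⟫ + ⟪a, d⟫ + ⟪b, c⟫ + ⟪b, d⟫) / 2 := by
  simp only [real_inner_smul_left, real_inner_smul_right, inner_add_left, inner_add_right]
  linear_combination (⟪a, c⟫ + ⟪a, d⟫ + ⟪b, c⟫ + ⟪b, d⟫) * inv_sqrt_two

/-- The even part of a GFF is a free-boundary GFF. -/
theorem isFreeGFF_evH {h : Ω → Field} (H : IsGFF h P) :
    IsFreeGFF (fun ω => nrm (evH (h ω))) P := by
  obtain ⟨K, k, -, hW, hk⟩ := exists_isIso_of_isGaussianProcess H.gauss H.mean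
  have e : ∀ p, (fun ω => nrm (evH (h ω)) p) =ᵐ[P]
      fun ω => (((√2)⁻¹ • (k p + k (cj p)) : K) : Lp ℝ 2 P) ω := fun p => by
    refine EventuallyEq.trans (ae_of_all _ fun ω => ?_) (ae_half hW (hk p) (hk (cj p)))
    simp only [nrm_apply, evH_apply, cj_zero]
    ring
  have c : ∀ p q, ⟪k p, k q⟫ = gffCov p q := fun p q => by
    rw [← hW.integral_mul, ← H.cov]
    refine integral_congr_ae ?_
    filter_upwards [hk p, hk q] with ω h1 h2
    rw [h1, h2]
  refine ⟨measurable_nrm.comp (measurable_evH.comp H.meas), hW.version_isGaussianProcess e,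
    fun p => (integral_congr_ae (e p)).trans (hW.integral_eq_zero _), fun p q => ?_⟩
  have h2 : gffCov (cj p) q = gffCov p (cj q) := by rw [← gffCov_cj p, cj_cj]
  refine Eq.trans (Eq.trans (integral_congr_ae ?_) (hW.integral_mul
    ((√2)⁻¹ • (k p + k (cj p))) ((√2)⁻¹ • (k q + k (cj q))))) ?_
  · filter_upwards [e p, e q] with ω h1 h2
    rw [h1, h2]
  rw [inner_half, c, c, c, c, gffCov_cj, h2]
  show _ = gffCov p q + gffCov p (cj q)
  ring

/-- Uniqueness in law of the free-boundary GFF. -/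
theorem free_law {φ : Ω → Field} {φ' : Ω' → Field} (H : IsFreeGFF φ P) (H' : IsFreeGFF φ' P') :
    P.map φ = P'.map φ' := by
  have hm : Measurable fun (F : Field) (p : ℝ × ℂ) => F p :=
    measurable_pi_lambda _ Mu.measurable_eval
  refine field_ext ?_
  rw [Measure.map_map hm H.meas, Measure.map_map hm H'.meas]
  obtain ⟨K, k, -, hW, hk⟩ := exists_isIso_of_isGaussianProcess H.gauss H.mean
  obtain ⟨K', k', -, hW', hk'⟩ := exists_isIso_of_isGaussianProcess H'.gauss H'.mean
  refine hW.version_map_eq hW' (fun p => (Mu.measurable_eval p).comp H.meas) hk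
    (fun p => (Mu.measurable_eval p).comp H'.meas) hk' fun p q => ?_
  rw [← hW.version_cov (hk p) (hk q), ← hW'.version_cov (hk' p) (hk' q), covariance, covariance,
    H.mean p, H.mean q, H'.mean p, H'.mean q]
  simp only [sub_zero]
  rw [H.cov, H'.cov]

end

/-! ## The Gaussian space of the fine fields -/

theorem measurable_avg (p : ℝ × ℂ) : Measurable fun g : Fn => avg g p := by
  have h := (Mu.measurable_eval p).comp
    (measurable_addFn' (h := fun _ : Fn => (0 : Field)) measurable_const measurable_id)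
  simpa only [Function.comp_def, addFn_apply, ContinuousMap.zero_apply, zero_add, id] using h

theorem cov_H_cj (L : Layers) (n : ℤ) (p q : ℝ × ℂ) :
    cov[fun ω => L.H n ω (cj p), fun ω => L.H n ω (cj q); L.P] =
      cov[fun ω => L.H n ω p, fun ω => L.H n ω q; L.P] := by
  have h0 : ∀ p q, cov[fun ω => L.H 0 ω (cj p), fun ω => L.H 0 ω (cj q); L.P] =
      cov[fun ω => L.H 0 ω p, fun ω => L.H 0 ω q; L.P] := fun p q => by
    refine (L.cov_H (cj p) (cj q)).unique ?_
    convert L.cov_H p q using 2 with j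
    rw [← avg_conj]
    congr 1
    funext x
    rw [← avg_conj]
    simp only [layCov, ← map_sub, Complex.norm_conj]
  have law := L.law_affine n (-n) 0 0
  rw [add_neg_cancel] at law
  have key : ∀ p q, cov[fun ω => L.H n ω p, fun ω => L.H n ω q; L.P] =
      cov[fun ω => L.H 0 ω (p.1 - log ‖dy (-n) 0‖, dy (-n) 0 * p.2),
        fun ω => L.H 0 ω (q.1 - log ‖dy (-n) 0‖, dy (-n) 0 * q.2); L.P] := fun p q => by
    rw [← covariance_map_fun (X := fun H : Field => H p) (Y := fun H : Field => H q)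
      (Mu.measurable_eval p).aestronglyMeasurable (Mu.measurable_eval q).aestronglyMeasurable
      (L.meas_H n).aemeasurable, ← law, covariance_map_fun
      (Mu.measurable_eval p).aestronglyMeasurable (Mu.measurable_eval q).aestronglyMeasurable
      ((measurable_affine _ _ _).fun_comp (L.meas_H 0)).aemeasurable]
    simp [affine]
  have hd : conj (dy (-n) 0) = dy (-n) 0 := by simp [dy, map_ofNat]
  rw [key, key p q, ← h0 (p.1 - _, _)]
  simp only [cj, map_mul, hd]

/-- the fine fields as an isonormal process -/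
structure IsRep (L : Layers) {K : Type} [NormedAddCommGroup K] [InnerProductSpace ℝ K]
    (W : K → L.Ω → ℝ) (h : ℤ → ℝ × ℂ → K) : Prop where
  iso : IsIso W L.P
  H : ∀ n p, (fun ω => L.H n ω p) =ᵐ[L.P] W (h n p)

theorem exists_rep (L : Layers) : ∃ (K : Submodule ℝ (Lp ℝ 2 L.P)) (W : K → L.Ω → ℝ)
    (h : ℤ → ℝ × ℂ → K), IsRep L W h := by
  obtain ⟨K, k, -, hW, hk⟩ := exists_isIso_of_isGaussianProcess L.gproc fun i => by
    cases i with
    | inl p => exact L.mean_eta p.1 p.2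
    | inr p => exact L.mean_H p.1 p.2
  exact ⟨K, _, fun n p => k (Sum.inr (n, p)), hW, fun n p => hk (Sum.inr (n, p))⟩

namespace IsRep

variable {L : Layers} {K : Type} [NormedAddCommGroup K] [InnerProductSpace ℝ K]
  {W : K → L.Ω → ℝ} {h : ℤ → ℝ × ℂ → K} (R : IsRep L W h)
include R

theorem inner_cj (n : ℤ) (p q : ℝ × ℂ) : ⟪h n (cj p), h n (cj q)⟫ = ⟪h n p, h n q⟫ := by
  rw [← R.iso.version_cov (R.H n _) (R.H n _), ← R.iso.version_cov (R.H n _) (R.H n _), cov_H_cj]

theorem avg_S (n : ℤ) (k : ℕ) (p : ℝ × ℂ) :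
    (fun ω => avg (L.S n k ω) p) =ᵐ[L.P] W (h n p - h (n + k) p) := by
  filter_upwards [L.steps n k, R.H n p, R.H (n + k) p, R.iso.sub (h n p) (h (n + k) p)]
    with ω h1 h2 h3 h4
  rw [h4, ← h2, ← h3, h1, addFn_apply, add_sub_cancel_left]

theorem inner_le (n : ℤ) (k : ℕ) (p q : ℝ × ℂ) :
    ⟪h n p, h (n + k) q⟫ = ⟪h (n + k) p, h (n + k) q⟫ := by
  rw [← sub_eq_zero, ← inner_sub_left]
  exact inner_eq_zero_of_indep R.iso (R.avg_S n k p) (R.H (n + k) q)
    ((L.indep_S n k).comp (measurable_avg p) (Mu.measurable_eval q))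

theorem inner_le' (n : ℤ) (k : ℕ) (p q : ℝ × ℂ) :
    ⟪h (n + k) p, h n q⟫ = ⟪h (n + k) p, h (n + k) q⟫ := by
  rw [real_inner_comm, R.inner_le, real_inner_comm]

theorem inner_far {n : ℤ} {p q : ℝ × ℂ} (hf : Far ((2 : ℝ) ^ (-n) / 2) p q) :
    ⟪h n p, h n q⟫ = 0 := by
  have h1 := (L.range n Bool (fun i => cond i (Metric.closedBall p.2 (exp (-p.1)))
    (Metric.closedBall q.2 (exp (-q.1)))) fun i j hij x hx y hy => by
      cases i <;> cases j
      · exact absurd rfl hij
      · rw [norm_sub_rev]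
        exact hf y hy x hx
      · exact hf x hx y hy
      · exact absurd rfl hij).indep (i := true) (j := false) (by simp)
  refine inner_eq_zero_of_indep R.iso (R.H n p) (R.H n q) ?_
  rw [IndepFun_iff_Indep]
  exact indep_of_indep_of_le h1 (le_iSup₂_of_le p Subset.rfl le_rfl)
    (le_iSup₂_of_le q Subset.rfl le_rfl)

theorem ev (n : ℤ) (p : ℝ × ℂ) :
    (fun ω => evH (L.H n ω) p) =ᵐ[L.P] W ((√2)⁻¹ • (h n p + h n (cj p))) :=
  ae_half R.iso (R.H n p) (R.H n (cj p))

theorem refl (n : ℤ) (k : ℕ) (p : ℝ × ℂ) :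
    (fun ω => addFn (L.H (n + k) ω) (evF (L.S n k ω)) p) =ᵐ[L.P]
      W (h (n + k) p + (√2)⁻¹ • ((h n p - h (n + k) p) + (h n (cj p) - h (n + k) (cj p)))) := by
  filter_upwards [R.H (n + k) p, ae_half R.iso (R.avg_S n k p) (R.avg_S n k (cj p)),
    R.iso.add (h (n + k) p) _] with ω h1 h2 h3
  rw [h3, ← h1, ← h2, addFn_apply, avg_evF]

end IsRep

variable (L : Layers)

theorem measurable_refl (n : ℤ) (k : ℕ) :
    Measurable fun ω => addFn (L.H (n + k) ω) (evF (L.S n k ω)) :=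
  measurable_addFn' (L.meas_H _) (measurable_evF.comp (L.meas_S n k))

theorem two_zpow_le (n : ℤ) (k : ℕ) : (2 : ℝ) ^ (-(n + k)) / 2 ≤ (2 : ℝ) ^ (-n) / 2 := by
  have : (2 : ℝ) ^ (-(n + k)) ≤ (2 : ℝ) ^ (-n) := zpow_le_zpow_right₀ one_le_two (by omega)
  linarith

/-- Above height `2 ^ (-(n + k)) / 4` only the layers `n, …, n + k - 1` see the reflection. -/
theorem law_refl (n : ℤ) (k : ℕ) {V : Set ℂ} (hV : ∀ z ∈ V, (2 : ℝ) ^ (-(n + k)) / 4 ≤ z.im) :
    L.P.map (fun ω (p : Dsc V) => evH (L.H n ω) p.1) =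
      L.P.map fun ω (p : Dsc V) => addFn (L.H (n + k) ω) (evF (L.S n k ω)) p.1 := by
  obtain ⟨K, W, h, R⟩ := exists_rep L
  refine R.iso.version_map_eq R.iso
    (fun p => (Mu.measurable_eval _).comp (measurable_evH.comp (L.meas_H n))) (fun p => R.ev n p.1)
    (fun p => (Mu.measurable_eval _).comp (measurable_refl L n k)) (fun p => R.refl n k p.1)
    fun p q => ?_
  have hf : Far ((2 : ℝ) ^ (-(n + k)) / 2) p.1 (cj q.1) :=
    far_cj_of_im (fun z hz => by linarith [hV z hz]) p q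
  simp only [real_inner_smul_left, real_inner_smul_right, inner_add_left, inner_add_right,
    inner_sub_left, inner_sub_right, R.inner_le, R.inner_le', R.inner_cj, R.inner_far hf,
    R.inner_far hf.cj_left]
  linear_combination (2 * ⟪h (n + k) p.1, h (n + k) q.1⟫) * inv_sqrt_two

theorem law_ev (n : ℤ) {V : Set ℂ} (hV : ∀ z ∈ V, (2 : ℝ) ^ (-n) / 4 ≤ z.im) :
    L.P.map (fun ω (p : Dsc V) => evH (L.H n ω) p.1) =
      L.P.map fun ω (p : Dsc V) => L.H n ω p.1 := by
  have h := law_refl L n 0 (V := V) (by simpa using hV)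
  simpa [Layers.S, evF_zero, addFn_zero] using h

/-- Above height `2 ^ (-n) / 4` the reflection of the layers is not seen. -/
theorem law_agree (n : ℤ) (k : ℕ) {V : Set ℂ} (hV : ∀ z ∈ V, (2 : ℝ) ^ (-n) / 4 ≤ z.im) :
    L.P.map (fun ω (p : Dsc V) => addFn (L.H (n + k) ω) (evF (L.S n k ω)) p.1) =
      L.P.map fun ω (p : Dsc V) => L.H n ω p.1 :=
  (law_refl L n k fun z hz => by linarith [hV z hz, two_zpow_le n k]).symm.trans (law_ev L n hV)

/-- Finite range of dependence in the upper half-plane. -/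
theorem range_refl (n : ℤ) (k : ℕ) {ι : Type} (A : ι → Set ℂ) (hU : ∀ i, A i ⊆ UH)
    (hA : ∀ i j, i ≠ j → ∀ x ∈ A i, ∀ y ∈ A j, (2 : ℝ) ^ (-n) / 2 ≤ ‖x - y‖) :
    iIndep (fun i => sigmaOn (fun ω => addFn (L.H (n + k) ω) (evF (L.S n k ω))) (A i)) L.P := by
  obtain ⟨K, W, h, R⟩ := exists_rep L
  have h1 := R.iso.version_iIndepFun (S := fun i => Dsc (A i))
    (X := fun i p ω => addFn (L.H (n + k) ω) (evF (L.S n k ω)) p.1) (fun i p => R.refl n k p.1)
    fun i j hij p q => by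
      have f1 : Far ((2 : ℝ) ^ (-n) / 2) p.1 q.1 := fun x hx y hy =>
        hA i j hij x (p.2 hx) y (q.2 hy)
      have f2 := far_cj_of_far (hU i) (hU j) p q f1
      have hl := two_zpow_le n k
      simp only [real_inner_smul_left, real_inner_smul_right, inner_add_left, inner_add_right,
        inner_sub_left, inner_sub_right, R.inner_le, R.inner_le', R.inner_cj, R.inner_far f1,
        R.inner_far f2, R.inner_far f2.cj_left, R.inner_far (f1.mono hl), R.inner_far (f2.mono hl),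
        R.inner_far (f2.cj_left.mono hl), sub_self, add_zero, mul_zero]
  rw [iIndepFun_iff_iIndep] at h1
  simpa only [sigmaOn_eq_pi] using h1

end Pool.Agent.Lib.MP_0d9445_pr.Bd
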