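import Pool.Agent.Lib.MP_0d9445_pr.Bd.Gau
import Pool.Agent.Lib.MP_0d9445_pr.EN.Casc

/-! The laws of the model with reflected layers: tower, moments, range, agreement. -/

open MeasureTheory ProbabilityTheory Set Filter Topology Real LQ.Gauss
open scoped NNReal ENNReal ComplexConjugate

noncomputable section

namespace Pool.Agent.Lib.MP_0d9445_pr.Bd

open CR EN
open Mu (addFn_apply addFn_addFn addFn_zero)

/-! ## Independence -/

section

variable (L : Layers)

theorem meas_S_on (p : ℤ → Prop) {n : ℤ} {k : ℕ} (h : ∀ i : ℕ, i < k → p (n + i)) :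
    ∃ φ : ({j // p j} → Fn) → Fn, Measurable φ ∧ L.S n k = fun ω => φ fun j => L.eta j ω :=
  ⟨fun x => ∑ i : Fin k, x ⟨n + (i : ℕ), h i i.2⟩,
    Finset.measurable_sum _ fun _ _ => measurable_pi_apply _,
    funext fun ω => Finset.sum_range fun i => L.eta (n + i) ω⟩

theorem indep_SS (n : ℤ) (k l : ℕ) :
    IndepFun (L.S n k) (fun ω => (L.S (n + k) l ω, L.H (n + k + l) ω)) L.P := by
  refine indep_assoc (L.meas_S _ _) (L.meas_S _ _) (L.meas_H _) ?_ ?_
  · obtain ⟨φ, h1, e1⟩ := meas_S_on L (· ∈ Finset.Ico n (n + k)) (n := n) (k := k) fun i hi => by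
      simp only [Finset.mem_Ico]
      omega
    obtain ⟨ψ, h2, e2⟩ := meas_S_on L (· ∈ Finset.Ico (n + k) (n + k + l)) (n := n + k) (k := l)
      fun i hi => by
        simp only [Finset.mem_Ico]
        omega
    rw [e1, e2]
    exact (L.iid.indepFun_finset _ _ (Finset.Ico_disjoint_Ico_consecutive _ _ _)
      L.meas_eta).comp h1 h2
  · obtain ⟨φ, h1, e1⟩ := meas_S_on L (· ∈ Iio (n + k + l)) (n := n) (k := k) fun i hi => by
      simp only [mem_Iio]
      omega
    obtain ⟨ψ, h2, e2⟩ := meas_S_on L (· ∈ Iio (n + k + l)) (n := n + k) (k := l) fun i hi => by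
      simp only [mem_Iio]
      omega
    rw [e1, e2]
    exact (L.indep (n + k + l)).comp (h1.prodMk h2) measurable_id

theorem indep_ginf_SH (m : ℕ) : IndepFun L.ginf (fun ω => (L.S 0 m ω, L.H m ω)) L.P := by
  refine indep_assoc L.meas_ginf (L.meas_S _ _) (L.meas_H _) (L.indep_ginf_S m) ?_
  obtain ⟨φ, h1, e1⟩ := meas_S_on L (· ∈ Iio (m : ℤ)) (n := 0) (k := m) fun i hi => by
    simp only [mem_Iio]
    omega
  rw [e1]
  exact (L.indep_ginf m).comp (measurable_fst.prodMk (h1.comp measurable_snd)) measurable_id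

end

variable (M : Model)

theorem Sb_eq (n k : ℕ) (ω : M.Ω) : Sb M n (n + k) ω = evF (M.S n k ω) := by
  rw [Sb, Finset.sum_Ico_eq_sum_range, Layers.S, evF_sum, add_tsub_cancel_left]
  simp only [Nat.cast_add]

theorem Sb_add {n k m : ℕ} (h : n ≤ k) (h' : k ≤ m) (ω : M.Ω) :
    Sb M n k ω + Sb M k m ω = Sb M n m ω := Finset.sum_Ico_consecutive _ h h'

theorem Sb_succ (n : ℕ) (ω : M.Ω) : Sb M n (n + 1) ω = evF (M.eta n ω) := by simp [Sb]

theorem Sb_self (n : ℕ) (ω : M.Ω) : Sb M n n ω = 0 := by simp [Sb]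

theorem indep_Sb {n k m : ℕ} (h : n ≤ k) (h' : k ≤ m) :
    IndepFun (Sb M n k) (fun ω => (Sb M k m ω, M.H m ω)) M.P := by
  obtain ⟨k, rfl⟩ := Nat.exists_eq_add_of_le h
  obtain ⟨l, rfl⟩ := Nat.exists_eq_add_of_le h'
  simp only [funext (Sb_eq M n k), Sb_eq]
  exact (indep_SS M.toLayers n k l).comp measurable_evF (measurable_evF.prodMap measurable_id)

theorem indep_ginf_Sb (m : ℕ) : IndepFun M.ginf (fun ω => (Sb M 0 m ω, M.H m ω)) M.P := by
  have e : ∀ ω, Sb M 0 m ω = evF (M.S 0 m ω) := fun ω => by simpa using Sb_eq M 0 m ω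
  simp only [e]
  exact (indep_ginf_SH M.toLayers m).comp measurable_id (measurable_evF.prodMap measurable_id)

/-! ## Tower -/

theorem measurable_cfb' (m n : ℕ) (g : Fn) : Measurable (cfb M m n g) :=
  (measurable_cfb M m n).comp measurable_prodMk_left

theorem lintegral_Pkb (m n : ℕ) (g : Fn) {F : Cf → ℝ≥0∞} (hF : Measurable F) :
    ∫⁻ c, F c ∂Pkb M m n g = ∫⁻ ω, F (cfb M m n g ω) ∂M.P :=
  lintegral_map hF (measurable_cfb' M m n g)

/-- freezing an independent continuous function -/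
theorem freezeb {X : M.Ω → Fn} (hX : Measurable X) {m n : ℕ}
    (hi : IndepFun X (fun ω => (Sb M n m ω, M.H m ω)) M.P) (g : Fn) {Φ : Fn × Cf → ℝ≥0∞}
    (hΦ : Measurable Φ) : ∫⁻ ω, Φ (X ω, cfb M m n (g + X ω) ω) ∂M.P =
      ∫⁻ η, ∫⁻ c, Φ (η, c) ∂Pkb M m n (g + η) ∂M.P.map X := by
  have hF : Measurable fun q : Fn × Fn × Field =>
      Φ (q.1, M.conf (addFn q.2.2 (g + q.1 + q.2.1))) :=
    hΦ.comp (measurable_fst.prodMk (M.measurable_conf.comp (measurable_addFn' measurable_snd.snd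
      ((measurable_fst.const_add g).add measurable_snd.fst))))
  have hY := (measurable_Sb M n m).prodMk (M.meas_H m)
  have h2 : ∀ η, ∫⁻ c, Φ (η, c) ∂Pkb M m n (g + η) =
      ∫⁻ ω, Φ (η, cfb M m n (g + η) ω) ∂M.P := fun η =>
    lintegral_Pkb M m n (g + η) (hΦ.comp measurable_prodMk_left)
  simp only [h2]
  rw [lintegral_map _ hX]
  · exact lintegral_freeze hX.aemeasurable hY.aemeasurable hi hF
  exact (hF.comp (measurable_fst.prodMk (hY.comp measurable_snd))).lintegral_prod_right'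

/-- the tower property, with a weight that depends on the coarse layers -/
theorem towerb {n k m : ℕ} (h : n ≤ k) (h' : k ≤ m) (g : Fn) {Φ : Fn × Cf → ℝ≥0∞}
    (hΦ : Measurable Φ) : ∫⁻ ω, Φ (Sb M n k ω, cfb M m n g ω) ∂M.P =
      ∫⁻ η, ∫⁻ c, Φ (η, c) ∂Pkb M m k (g + η) ∂M.P.map (Sb M n k) := by
  rw [← freezeb M (measurable_Sb M n k) (indep_Sb M h h') g hΦ]
  simp only [cfb, add_assoc, Sb_add M h h']

theorem νb_eq (n : ℕ) : νb M n = M.P.map (Sb M n (n + 1)) := by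
  rw [νb, Model.ν, Measure.map_map measurable_evF (M.meas_eta n), funext (Sb_succ M n)]
  rfl

instance (n : ℕ) : IsProbabilityMeasure (νb M n) := by
  rw [νb_eq]
  exact Measure.isProbabilityMeasure_map (measurable_Sb M _ _).aemeasurable

instance : IsProbabilityMeasure (Gb M) :=
  have : IsProbabilityMeasure M.Ginf := Measure.isProbabilityMeasure_map M.meas_ginf.aemeasurable
  Measure.isProbabilityMeasure_map measurable_evF.aemeasurable

theorem tower_Pkb {n k m : ℕ} (h : n ≤ k) (h' : k ≤ m) (g : Fn) {F : Cf → ℝ≥0∞}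
    (hF : Measurable F) :
    ∫⁻ c, F c ∂Pkb M m n g = ∫⁻ η, ∫⁻ c, F c ∂Pkb M m k (g + η) ∂M.P.map (Sb M n k) :=
  (lintegral_Pkb M m n g hF).trans (towerb M h h' g (Φ := fun q => F q.2) (hF.comp measurable_snd))

theorem Phatb_apply (L : ℝ) (W : Sq) (m n : ℕ) (g : Fn) :
    Phatb M L W m n g = Pkb M m n g ⊗ₘ pt2K M.γ L W := by
  rw [Phatb, Kernel.compProd_apply_eq_compProd_sectR]
  rfl

theorem lintegral_Phatb (L : ℝ) (W : Sq) (m n : ℕ) (g : Fn) {F : Xi → ℝ≥0∞} (hF : Measurable F) :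
    ∫⁻ x, F x ∂Phatb M L W m n g = ∫⁻ c, ∫⁻ z, F (c, z) ∂pt2K M.γ L W c ∂Pkb M m n g := by
  rw [Phatb_apply, Measure.lintegral_compProd hF]

theorem tower_Phatb' (L : ℝ) (W : Sq) {n k m : ℕ} (h : n ≤ k) (h' : k ≤ m) (g : Fn)
    {F : Xi → ℝ≥0∞} (hF : Measurable F) : ∫⁻ x, F x ∂Phatb M L W m n g =
      ∫⁻ η, ∫⁻ x, F x ∂Phatb M L W m k (g + η) ∂M.P.map (Sb M n k) := by
  simp only [lintegral_Phatb _ _ _ _ _ _ hF]
  exact tower_Pkb M h h' g hF.lintegral_kernel_prod_right'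

/-- the field `tower` of `BCasc` -/
theorem tower_Phatb (L : ℝ) (W : Sq) (m n : ℕ) (h : n < m) (g : Fn) (F : Xi → ℝ≥0∞)
    (hF : Measurable F) : ∫⁻ x, F x ∂Phatb M L W m n g =
      ∫⁻ η, ∫⁻ x, F x ∂Phatb M L W m (n + 1) (g + η) ∂νb M n := by
  rw [νb_eq]
  exact tower_Phatb' M L W n.le_succ h g hF

/-- the configuration of the truncated field, given the infrared part -/
theorem tower_trunc (m : ℕ) (g : Fn) {Φ : Fn × Cf → ℝ≥0∞} (hΦ : Measurable Φ) :
    ∫⁻ ω, Φ (evF (M.ginf ω), M.conf (addFn (truncM M m ω) g)) ∂M.P =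
      ∫⁻ η, ∫⁻ c, Φ (η, c) ∂Pkb M m 0 (g + η) ∂Gb M := by
  rw [Gb, Model.Ginf, Measure.map_map measurable_evF M.meas_ginf,
    ← freezeb M (measurable_evF.comp M.meas_ginf)
      ((indep_ginf_Sb M m).comp measurable_evF measurable_id) g hΦ]
  simp only [cfb, truncM, addFn_addFn, Function.comp_apply, add_assoc, add_comm _ g]

/-! ## Moments of one layer -/

theorem lintegral_νb (n : ℕ) {F : Fn → ℝ≥0∞} (hF : Measurable F) :
    ∫⁻ η, F η ∂νb M n = ∫⁻ ω, F (evF (M.eta n ω)) ∂M.P := by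
  rw [νb, Model.ν, lintegral_map hF measurable_evF,
    lintegral_map (hF.fun_comp measurable_evF) (M.meas_eta n)]

theorem lintegral_exp_eta (n : ℤ) (y : ℂ) (s : ℝ) :
    ∫⁻ ω, ENNReal.ofReal (exp (s * M.eta n ω y)) ∂M.P = ENNReal.ofReal (2 ^ (s ^ 2 / 2)) := by
  have hm : Measurable fun x : ℝ => ENNReal.ofReal (exp (s * x)) := by fun_prop
  rw [← lintegral_map hm ((measurable_fn y).fun_comp (M.meas_eta n)), M.gauss,
    ← ofReal_integral_eq_lintegral_ofReal (integrable_exp_mul_gaussianReal s)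
      (ae_of_all _ fun _ => (exp_pos _).le)]
  have := congrFun (mgf_fun_id_gaussianReal (μ := 0) (v := (log 2).toNNReal)) s
  rw [mgf] at this
  rw [this, coe_toNNReal _ (log_nonneg one_le_two), rpow_def_of_pos two_pos]
  congr 2
  ring

/-- the field `subg` of `BCasc` -/
theorem subg_νb (n : ℕ) (y : ℂ) (s : ℝ) :
    ∫⁻ η, ENNReal.ofReal (exp (s * η y)) ∂νb M n ≤ ENNReal.ofReal ((2 : ℝ) ^ (s ^ 2)) := by
  have hm : ∀ (s : ℝ) (y : ℂ), Measurable fun η : Fn => ENNReal.ofReal (exp (s * η y)) :=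
    fun s y => ((measurable_fn y).const_mul s).exp.ennreal_ofReal
  have h2 : √2 ^ 2 = 2 := sq_sqrt zero_le_two
  rw [lintegral_νb M n (hm s y), ← ENNReal.mul_le_mul_iff_right two_ne_zero ENNReal.ofNat_ne_top,
    ← lintegral_const_mul' _ _ ENNReal.ofNat_ne_top]
  refine (lintegral_mono (g := fun ω => ENNReal.ofReal (exp (√2 * s * M.eta n ω y)) +
    ENNReal.ofReal (exp (√2 * s * M.eta n ω (conj y)))) fun ω => ?_).trans_eq ?_
  · beta_reduce
    rw [← ENNReal.ofReal_add (exp_pos _).le (exp_pos _).le, ← ENNReal.ofReal_ofNat,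
      ← ENNReal.ofReal_mul zero_le_two, evF_apply]
    refine ENNReal.ofReal_le_ofReal ?_
    have e : ∀ a : ℝ, exp (√2 * s * a) = exp (s * a / √2) ^ 2 := fun a => by
      rw [sq, ← exp_add]
      congr 1
      field_simp
      linear_combination (s * a) * h2
    rw [e, e, ← mul_div_assoc, mul_add, add_div, exp_add, ← mul_assoc]
    exact two_mul_le_add_sq _ _
  · rw [lintegral_add_left ((hm _ y).fun_comp (M.meas_eta n)), lintegral_exp_eta, lintegral_exp_eta,
      mul_pow, h2, mul_div_cancel_left₀ _ two_ne_zero, two_mul]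

theorem lip_evF (g : Fn) (y : ℂ) (r : ℝ) :
    lip (evF g) (Metric.ball y r) ≤ lip g (Metric.ball y r) + lip g (Metric.ball (conj y) r) := by
  have hc : ∀ x ∈ Metric.ball y r, conj x ∈ Metric.ball (conj y) r := fun x hx => by
    rwa [Metric.mem_ball, Complex.dist_conj_conj]
  refine iSup₂_le fun x hx => iSup₂_le fun x' hx' => le_trans ?_
    (add_le_add (Wt_le_lip g hx hx') (Wt_le_lip g (hc x hx) (hc x' hx')))
  rw [Complex.isometry_conj.edist_eq, ← ENNReal.add_div]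
  refine ENNReal.div_le_div_right ?_ _
  simp only [edist_dist, Real.dist_eq, evF_apply]
  rw [← ENNReal.ofReal_add (abs_nonneg _) (abs_nonneg _), ← sub_div, add_sub_add_comm, abs_div,
    abs_of_nonneg (sqrt_nonneg _)]
  exact ENNReal.ofReal_le_ofReal
    ((div_le_self (abs_nonneg _) one_lt_sqrt_two.le).trans (abs_add_le _ _))

theorem sc_lip_le (ρ : ℝ) (n : ℕ) (y : ℂ) (g : Fn) :
    ENNReal.ofReal (sc n) * lip g (Metric.ball y (ρ * sc n)) ≤
      lip (resc (sc n : ℝ) y g) (Metric.ball 0 ρ) := by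
  have hs := EN.sc_pos n
  have h0 : ((sc n : ℝ) : ℂ) ≠ 0 := Complex.ofReal_ne_zero.2 hs.ne'
  have hb : ∀ x ∈ Metric.ball y (ρ * sc n), (x - y) / (sc n : ℝ) ∈ Metric.ball (0 : ℂ) ρ :=
    fun x hx => by
      rw [mem_ball_zero_iff, norm_div, norm_sc, div_lt_iff₀ hs]
      exact mem_ball_iff_norm.1 hx
  simp only [lip, ENNReal.mul_iSup]
  refine iSup₂_le fun x hx => iSup₂_le fun x' hx' => le_iSup₂_of_le _ (hb x hx)
    (le_iSup₂_of_le _ (hb x' hx') (le_of_eq ?_))
  have e : edist x x' =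
      ENNReal.ofReal (sc n) * edist ((x - y) / (sc n : ℝ)) ((x' - y) / (sc n : ℝ)) := by
    rw [edist_dist, edist_dist, ← ENNReal.ofReal_mul hs.le, dist_eq_norm, dist_eq_norm,
      ← sub_div, norm_div, norm_sc, sub_sub_sub_cancel_right, mul_div_cancel₀ _ hs.ne']
  show _ = edist (g (_ * ((x - y) / _) + y)) (g (_ * ((x' - y) / _) + y)) / _
  rw [mul_div_add h0, mul_div_add h0, e, ← mul_div_assoc,
    ENNReal.mul_div_mul_left _ _ (ENNReal.ofReal_pos.2 hs).ne' ENNReal.ofReal_ne_top]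

theorem measurable_lipb (y : ℂ) (r : ℝ) : Measurable fun g : Fn => lip g (Metric.ball y r) :=
  CR.measurable_lip measurable_fn Metric.isOpen_ball

theorem ex_mul_add_le (θ : ℝ) (a b : ℝ≥0∞) : ex (ENNReal.ofReal θ * (a + b)) ≤
    ex (ENNReal.ofReal (2 * θ) * a) + ex (ENNReal.ofReal (2 * θ) * b) := by
  rw [ENNReal.ofReal_mul zero_le_two, ENNReal.ofReal_ofNat, mul_comm 2, mul_assoc, mul_assoc,
    two_mul, two_mul]
  rcases le_total a b with h | h
  · exact le_add_left (ex_mono (by gcongr))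
  · exact le_add_right (ex_mono (by gcongr))

/-- the field `lipexp` of `BCasc`, for every centre and every radius -/
theorem lipexp_νb (ρ θ : ℝ) : ∃ C : ℝ≥0, ∀ (n : ℕ) (y : ℂ), ∫⁻ η, ex (ENNReal.ofReal θ *
    (ENNReal.ofReal (sc n) * lip η (Metric.ball y (ρ * sc n)))) ∂νb M n ≤ C := by
  have hf := (M.lipexp (2 * θ) ρ).ne
  refine ⟨_, fun n y => le_of_le_of_eq ?_
    (ENNReal.coe_toNNReal (ENNReal.add_ne_top.2 ⟨hf, hf⟩)).symm⟩
  have hF : Measurable fun g : Fn => ex (ENNReal.ofReal (2 * θ) * lip g (Metric.ball 0 ρ)) :=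
    measurable_ex.comp ((measurable_lipb _ _).const_mul _)
  have h1 := fun y => lintegral_resc_eta M n 0 y 0 hF
  simp only [zero_add, dy_zero] at h1
  rw [lintegral_νb M n (measurable_ex.fun_comp (((measurable_lipb _ _).const_mul _).const_mul _))]
  refine le_of_le_of_eq (lintegral_mono fun ω => ?_) ((lintegral_add_left
    ((hF.comp (measurable_resc _ _)).comp (M.meas_eta n)) _).trans
      (congrArg₂ (· + ·) (h1 y) (h1 (conj y))))
  refine (ex_mono (mul_le_mul_right ?_ _)).trans (ex_mul_add_le θ _ _)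
  refine (mul_le_mul_right (lip_evF _ _ _) _).trans ?_
  rw [mul_add]
  exact add_le_add (sc_lip_le ρ n y _) (sc_lip_le ρ n _ _)

theorem lipexp_ob (θ : ℝ) :
    ∃ C : ℝ≥0, ∀ n a, ∫⁻ η, ex (ENNReal.ofReal θ * ob n a η) ∂νb M n ≤ C :=
  (lipexp_νb M 200 θ).imp fun _ h n a => h n (yb n a)

theorem lipexp_Gb (θ ρ : ℝ) :
    ∫⁻ g, ex (ENNReal.ofReal θ * lip g (Metric.ball 0 ρ)) ∂Gb M < ∞ := by
  have hF : ∀ θ, Measurable fun g : Fn => ex (ENNReal.ofReal θ * lip g (Metric.ball 0 ρ)) :=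
    fun θ => measurable_ex.comp ((measurable_lipb _ _).const_mul _)
  rw [Gb, Model.Ginf, lintegral_map (hF θ) measurable_evF,
    lintegral_map ((hF θ).fun_comp measurable_evF) M.meas_ginf]
  refine lt_of_le_of_lt (lintegral_mono fun ω => (ex_mono (mul_le_mul_right (lip_evF _ _ _) _)).trans
    (ex_mul_add_le θ _ _)) ?_
  rw [map_zero, lintegral_add_left ((hF _).fun_comp M.meas_ginf)]
  exact ENNReal.add_lt_top.2 ⟨M.lipexp_ginf _ _, M.lipexp_ginf _ _⟩

/-! ## Range of dependence and agreement -/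

theorem plus_cfb (m n : ℕ) (g : Fn) :
    IsGFFplus (fun ω => addFn (M.H m ω) (g + Sb M n m ω)) M.P :=
  (M.plus_H m).add ((measurable_Sb M n m).const_add g)

theorem plus_truncM (m : ℕ) : IsGFFplus (truncM M m) M.P :=
  (M.plus_H m).add ((measurable_evF.comp M.meas_ginf).add (measurable_Sb M 0 m))

theorem addFn_Sb (n k : ℕ) (g : Fn) (ω : M.Ω) :
    addFn (M.H (n + k : ℕ) ω) (g + Sb M n (n + k) ω) =
      addFn (addFn (M.H (n + k) ω) (evF (M.S n k ω))) g := by
  rw [addFn_addFn, Sb_eq, add_comm g, Nat.cast_add]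

theorem ae_fin_map {Ω : Type} [MeasurableSpace Ω] {P : Measure Ω} {h : Ω → Field}
    (H : IsGFFplus h P) (W : Sq) : ∀ᵐ c ∂P.map fun ω => M.conf (h ω), c.2 W.o < ∞ :=
  (ae_map_iff (M.measurable_conf.fun_comp H.1).aemeasurable (measurableSet_lt
    ((Measure.measurable_coe (measurableSet_o W)).comp measurable_snd) measurable_const)).2
    ((M.ae_vague H).mono fun _ hω => lt_top_of_locFin hω.1 W)

theorem ae_fin_Pkb (m n : ℕ) (g : Fn) (W : Sq) : ∀ᵐ c ∂Pkb M m n g, c.2 W.o < ∞ :=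
  ae_fin_map M (plus_cfb M m n g) W

theorem iIndep_conf {Ω : Type} [MeasurableSpace Ω] {P : Measure Ω} {h : Ω → Field}
    (H : IsGFFplus h P) {ι : Type} {A : ι → Set ℂ} (hi : iIndep (fun i => sigmaOn h (A i)) P) :
    iIndep (fun i => GG (A i)) (P.map fun ω => M.conf (h ω)) := by
  rw [iIndep_iff]
  intro s f hf
  have hc := M.measurable_conf.fun_comp H.1
  have key : ∀ i, ∃ B : Set Ω, MeasurableSet[sigmaOn h (A i)] B ∧
      (i ∈ s → ∀ᵐ ω ∂P, (M.conf (h ω) ∈ f i ↔ ω ∈ B)) := fun i => by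
    by_cases hi : i ∈ s
    · obtain ⟨S', h1, h2⟩ := M.exists_fieldSet H (hf i hi)
      exact ⟨_, Mu.measurable_sigmaOn h (A i) h1, fun _ => h2⟩
    · exact ⟨∅, @MeasurableSet.empty _ (sigmaOn h (A i)), fun h => (hi h).elim⟩
  choose B hB he using key
  have hm : ∀ i ∈ s, MeasurableSet (f i) := fun i hi => GG_le _ _ (hf i hi)
  rw [Measure.map_apply hc (s.measurableSet_biInter hm),
    measure_congr (t := ⋂ i ∈ s, B i) (eventuallyEq_set.2 ?_), hi.meas_biInter fun i _ => hB i]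
  · refine Finset.prod_congr rfl fun i hi => ?_
    rw [Measure.map_apply hc (hm i hi)]
    exact (measure_congr (eventuallyEq_set.2 (he i hi))).symm
  filter_upwards [(s.eventually_all).2 he] with ω hω
  simp only [mem_preimage, mem_iInter]
  exact forall₂_congr hω

theorem sigmaOn_addFn_le {Ω : Type} [MeasurableSpace Ω] (h : Ω → Field) (g : Fn) (A : Set ℂ) :
    sigmaOn (fun ω => addFn (h ω) g) A ≤ sigmaOn h A := by
  rw [Mu.sigmaOn_eq_comap]
  exact ((measurable_addFn_on A g).comp (Mu.measurable_sigmaOn h A)).comap_le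

/-- finite range of dependence of the configuration in the upper half-plane -/
theorem iIndep_Pkb {m n : ℕ} (h : n ≤ m) (g : Fn) {ι : Type} (A : ι → Set ℂ) (hU : ∀ i, A i ⊆ UH)
    (hA : ∀ i j, i ≠ j → ∀ x ∈ A i, ∀ y ∈ A j, sc n / 2 ≤ ‖x - y‖) :
    iIndep (fun i => GG (A i)) (Pkb M m n g) := by
  obtain ⟨k, rfl⟩ := Nat.exists_eq_add_of_le h
  refine iIndep_conf M (plus_cfb M _ n g) ?_
  simp only [addFn_Sb]
  exact iIndep_of_iIndep_of_le (range_refl M.toLayers n k A hU (by rwa [← sc_eq]))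
    fun i => sigmaOn_addFn_le _ g _

/-- the field `indep` of `BCasc` -/
theorem indep_Phatb (L : ℝ) (W : Sq) (m n : ℕ) (h : n ≤ m) (g : Fn) (A B : Set ℂ) (hA : A ⊆ UH)
    (hB : B ⊆ UH) (hAB : ∀ x ∈ A, ∀ y ∈ B, sc n / 2 ≤ ‖x - y‖) :
    Indep (GGhat A) (GGhat B) (Phatb M L W m n g) := by
  rw [Phatb_apply]
  refine indep_GGhat _ ((iIndep_Pkb M h g (fun i => cond i A B) (by rintro (_ | _) <;> assumption)
    fun i j hij x hx y hy => ?_).indep (i := true) (j := false) (by simp))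
    (disjoint_left.2 fun x hx hy => ?_) _ _ _ (ae_fin_Pkb M m n g W)
  · cases i <;> cases j
    · exact absurd rfl hij
    · rw [norm_sub_rev]
      exact hAB y hy x hx
    · exact hAB x hx y hy
    · exact absurd rfl hij
  · have := hAB x hx x hy
    rw [sub_self, norm_zero] at this
    exact this.not_gt (half_pos (EN.sc_pos n))

theorem agree_Pkb {m n : ℕ} (h : n ≤ m) (g : Fn) {V : Set ℂ} (hV : ∀ z ∈ V, sc n / 4 ≤ z.im)
    {f : Cf → ℝ≥0∞} (hf : Measurable[GG V] f) :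
    ∫⁻ c, f c ∂Pkb M m n g = ∫⁻ c, f c ∂M.Pk n g := by
  obtain ⟨k, rfl⟩ := Nat.exists_eq_add_of_le h
  have hf' := hf.mono (GG_le V) le_rfl
  rw [lintegral_Pkb M _ _ _ hf', M.lintegral_Pk _ _ hf']
  refine M.lintegral_congr_law (plus_cfb M _ n g) (M.ep n g) (fun F hF => ?_) hf
  simp only [addFn_Sb]
  exact lintegral_eq_of_law (measurable_refl M.toLayers n k) (M.meas_H n)
    (law_agree M.toLayers n k (by rwa [← sc_eq])) (hF.comp (measurable_addFn_on V g))

/-- equal local laws of the configurations give equal local laws with points -/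
theorem lintegral_hat_congr {Pr Pr' : Measure Cf} [SFinite Pr] [SFinite Pr'] {A : Set ℂ}
    (e : ∀ f, Measurable[GG A] f → ∫⁻ c, f c ∂Pr = ∫⁻ c, f c ∂Pr') (γ L : ℝ) (W : Sq)
    (h : ∀ᵐ c ∂Pr, c.2 W.o < ∞) (h' : ∀ᵐ c ∂Pr', c.2 W.o < ∞) {F : Xi → ℝ≥0∞}
    (hF : Measurable[GGhat A] F) :
    ∫⁻ x, F x ∂Pr ⊗ₘ pt2K γ L W = ∫⁻ x, F x ∂Pr' ⊗ₘ pt2K γ L W := by
  have hF' := hF.mono (GGhat_le A) le_rfl
  rw [GGhat_eq] at hF
  obtain ⟨φ, hφ, eφ⟩ := exists_local measurableSet_interior (measurableSet_o W) _ _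
    (measurable_restrict_GG A) hF
  rw [Measure.lintegral_compProd hF', Measure.lintegral_compProd hF', pt2K_eq]
  simp only [Kernel.comap_apply]
  rw [lintegral_congr_ae (h.mono eφ), lintegral_congr_ae (h'.mono eφ), e φ hφ]

theorem agree_Phatb' (L : ℝ) (W : Sq) {m n : ℕ} (h : n ≤ m) (g : Fn) {V : Set ℂ}
    (hV : ∀ z ∈ V, sc n / 4 ≤ z.im) {F : Xi → ℝ≥0∞} (hF : Measurable[GGhat V] F) :
    ∫⁻ x, F x ∂Phatb M L W m n g = ∫⁻ x, F x ∂M.Phat L W n g := by
  rw [Phatb_apply, Phat_apply]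
  exact lintegral_hat_congr (fun _ => agree_Pkb M h g hV) _ _ _ (ae_fin_Pkb M m n g W)
    (ae_fin_map M (M.ep n g) W) hF

/-- the field `agree` of `BCasc` -/
theorem agree_Phatb (L : ℝ) (W : Sq) (m n : ℕ) (h : n ≤ m) (g : Fn) (F : Xi → ℝ≥0∞)
    (hF : Measurable[GGhat (above n)] F) :
    ∫⁻ x, F x ∂Phatb M L W m n g = ∫⁻ x, F x ∂M.Phat L W n g :=
  agree_Phatb' M L W h g (fun z (hz : sc n < z.im) => by linarith [EN.sc_pos n]) hF

/-! ## The free field and its truncation -/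

theorem measurable_freeM : Measurable (freeM M) := measurable_evH.comp M.gff.meas

theorem isFreeGFF_freeM : IsFreeGFF (fun ω => nrm (freeM M ω)) M.P := isFreeGFF_evH M.gff

/-- Above height `sc m / 4` the truncated field has the law of the free field, jointly with the
infrared part. -/
theorem free_trunc (m : ℕ) {V : Set ℂ} (hV : ∀ z ∈ V, sc m / 4 ≤ z.im) {F : Field → ℝ≥0∞}
    (hF : Measurable[sigmaOn id V] F) :
    ∫⁻ ω, F (freeM M ω) ∂M.P = ∫⁻ ω, F (truncM M m ω) ∂M.P := by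
  have hF' := hF.mono (Mu.sigmaOn_le (h := id) measurable_id V) le_rfl
  have h1 := lintegral_freeze M.meas_ginf.aemeasurable (M.meas_H 0).aemeasurable M.indep_ginf_H
    (F := fun q => F (addFn (evH q.2) (evF q.1))) (hF'.comp (measurable_addFn'
      (measurable_evH.comp measurable_snd) (measurable_evF.comp measurable_fst)))
  have h2 := lintegral_freeze M.meas_ginf.aemeasurable
    ((M.meas_S 0 m).prodMk (M.meas_H m)).aemeasurable (indep_ginf_SH M.toLayers m)
    (F := fun q => F (addFn (addFn q.2.2 (evF q.2.1)) (evF q.1))) (hF'.comp (measurable_addFn'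
      (measurable_addFn' measurable_snd.snd (measurable_evF.comp measurable_snd.fst))
      (measurable_evF.comp measurable_fst)))
  have e : ∀ ω, truncM M m ω = addFn (addFn (M.H m ω) (evF (M.S 0 m ω))) (evF (M.ginf ω)) :=
    fun ω => by simpa [truncM] using addFn_Sb M 0 m (evF (M.ginf ω)) ω
  simp only [freeM, evH_addFn, e]
  refine h1.trans ((lintegral_congr fun ω => ?_).trans h2.symm)
  have h3 := lintegral_eq_of_law (measurable_evH.fun_comp (M.meas_H 0))
    (measurable_refl M.toLayers 0 m) (law_refl M.toLayers 0 m (V := V) (by rwa [zero_add, ← sc_eq]))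
    (hF.comp (measurable_addFn_on V (evF (M.ginf ω))))
  rwa [zero_add] at h3

end Pool.Agent.Lib.MP_0d9445_pr.Bd
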