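import Pool.Agent.Lib.MP_0d9445_pr.Bd.Unif

/-! Uniform convergence on the whole time axis in the domain of a chart. -/

noncomputable section

open MeasureTheory ProbabilityTheory Set Filter Topology
open scoped NNReal ENNReal Classical

namespace Pool.Agent.Lib.MP_0d9445_pr.Bd

open BM Cell Walk PgHalfC PullA PfB10

theorem PathConvU.congr {Ω : Type} [MeasurableSpace Ω] {P : Measure Ω} {Y : ℝ → Ω → ℂ}
    {St : ℕ → ℂ → Set ℂ} {x : ℕ → ℂ} {m m' : ℕ → ℝ} (h : PathConvU P Y St x m)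
    (e : ∀ᶠ n in atTop, m n = m' n) : PathConvU P Y St x m' := fun N hN F =>
  (h N (hN.congr' (e.mono fun n hn => by simp only [hn])) F).congr'
    (e.mono fun n hn => by simp only [hn])

variable {W : Measure Path} {χ χi : ℂ → ℂ} {O E Z : Set ℂ} {A : Path → StieltjesFunction ℝ≥0}

/-- the stopped time change is continuous and ends at a good boundary point -/
theorem lbm_stop {ν : Measure ℂ} {z : ℂ} (hW : IsWiener W) (hc : Chart χ χi O E) (hZ : Z.Finite)
    (hz : z ∈ UH \ Z) (hA : IsClock W ν O (χ z) A) : ∀ᵐ (ω : Path) ∂Px W (χ z),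
      Continuous (fun t => lbmPath ω (A ω) O t) ∧
      ∃ σ, lbmPath ω (A ω) O σ ∈ χ '' {w | w.im = 0 ∧ w ∉ Z} ∧
        ∀ t, σ ≤ t → lbmPath ω (A ω) O t = lbmPath ω (A ω) O σ := by
  have hzO : χ z ∈ O := hc.image.le (mem_image_of_mem _ hz.1)
  have h1 := (ae_ball_iff hc.fin.countable).mpr fun e he =>
    polar_ok W (χ z) e hW fun h => notMem_E hc hzO (h ▸ he)
  have h2 := (ae_ball_iff (hZ.subset (inter_subset_left (t := closure UH))).countable).mpr
    fun p hp => polar_ok W (χ z) (χ p) hW fun h =>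
      hz.2 (PullA.inj hc (subset_closure hz.1) hp.2 h ▸ hp.1)
  filter_upwards [h1, h2, hc.exit W (χ z) hW, hW.ae_Px_zero (χ z), hA.strict]
    with ω g1 g2 ⟨t, g3⟩ g4 g5
  have g6 : exitT O ω < ∞ := (exitT_le_of_notMem g3).trans_lt ENNReal.coe_lt_top
  have g7 := notMem_exitT hc.isOpen g6
  obtain ⟨S, hS⟩ : ∃ S : ℝ≥0, (S : ℝ≥0∞) = exitT O ω := ⟨_, ENNReal.coe_toNNReal g6.ne⟩
  rw [← hS, ENNReal.toNNReal_coe] at g7
  simp only [PfB10.lbm_eq, ← hS]
  refine ⟨ω.continuous.comp (continuous_tc fun r r' a b => ?_), A ω S, ?_, fun t ht => ?_⟩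
  · obtain ⟨q, c, e⟩ := exists_between a
    exact (g5 r q c fun u hu => mem_of_lt_exitT
      (hS ▸ ENNReal.coe_lt_coe.2 (hu.trans_lt (e.trans_le b)))).trans_le ((A ω).mono e.le)
  · rw [tc_of_le le_rfl]
    obtain ⟨w, a, b⟩ := hc.image'.ge (show ω S ∈ closure O \ E from
      ⟨mem_closure_of_le_exitT (g4 ▸ subset_closure hzO) hS.le, fun h => g1 _ h S rfl⟩)
    refine ⟨w, ⟨le_antisymm (not_lt.1 fun h => g7 (b ▸ hc.image.le (mem_image_of_mem χ h)))
      (closure_UH ▸ a : w ∈ {w : ℂ | 0 ≤ w.im}), fun h => g2 w ⟨h, a⟩ S b.symm⟩, b⟩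
  · rw [tc_of_le ht, tc_of_le le_rfl]

theorem halfU {μ : Measure ℂ} {C C' : ℕ → Cells} {a M : ℕ → ℝ} {x' : ℕ → ℂ} {z' : ℂ}
    (hW : IsWiener W) (hχ : Chart χ χi O E) (hZ : Z.Finite) (hμ : μ UHᶜ = 0)
    (hA : ∀ y ∈ O, IsClock W (μ.map χ) O y A) (hE : Env (UH \ Z) μ C (fun _ => univ) a M)
    (hB : EnvB Z C) (hRel : Rel χ O C C') (hxV' : ∀ᶠ n in atTop, x' n ∈ (C' n).V)
    (hx' : Tendsto x' atTop (𝓝 z')) (hz' : z' ∈ χ '' (UH \ Z)) :
    PathConvU (Px W z') (fun t ω => lbmPath ω (A ω) O t) (fun n => (C' n).step O) x'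
      (fun n => M n / (2 * a n)) := by
  obtain ⟨z, hz, rfl⟩ := hz'
  obtain ⟨hP, hD, hae⟩ :=
    DrvC_of b10_ok polar_ok Conf_of W χ χi O E Z μ A z hW hχ hZ hμ hE.frost hA hz
  have hxV : ∀ᶠ n in atTop, χi (x' n) ∈ (C n).V ∧ χ (χi (x' n)) = x' n := hxV'.mono fun n hn => by
    obtain ⟨v, hv, e⟩ := hRel.V n ▸ hn
    rw [← e, hχ.inv v (subset_closure ((hB.sub n).1 hv))]
    exact ⟨hv, rfl⟩
  have hx : Tendsto (fun n => χi (x' n)) atTop (𝓝 z) := by
    have h1 : closure O \ E ∈ 𝓝 (χ z) :=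
      mem_of_superset (hχ.isOpen.mem_nhds (hχ.image ▸ mem_image_of_mem χ hz.1)) (by
        rw [← hχ.image', ← hχ.image]
        exact image_mono subset_closure)
    have h2 := (hχ.cont.continuousAt h1).tendsto.comp hx'
    rwa [hχ.inv z (subset_closure hz.1)] at h2
  obtain ⟨ψ, hψ⟩ := (inj_injective hχ).hasLeftInverse
  have hEq : ∀ w ∈ closure UH, ψ w = χ w := fun w hw => by
    conv_lhs => rw [← inj_chart hχ hw, hψ]
  have hlip : LipschitzOnWith 2 ψ (closure UH) := fun v hv w hw => by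
    rw [hEq v hv, hEq w hw]
    exact hχ.lip hv hw
  have hSt : ∀ K, IsCompact K → K ⊆ closure UH → ∀ᶠ n in atTop, ∀ y ∈ (C n).V, y ∈ K →
      PgHalfC.inj χi O E '' (C' n).step O (ψ y) = (C n).step UH y := fun K hK hKU => by
    filter_upwards [hRel.stop K hK hKU] with n hn y hy hyK
    rw [hEq y (hKU hyK), step_via hχ (hRel.V n) (hB.sub n).1 (hB.sub n).2 (hRel.H n) hy
      (hn y hy hyK), image_image]
    refine (image_congr fun v hv => inj_chart hχ (subset_closure ((hB.sub n).1 ?_))).trans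
      (image_id' _)
    rcases hv with hv | hv
    · exact hv.2.2.1
    · exact hv.2 ▸ hy
  have tr : ∀ n L, ∀ v ∈ (C n).V, ∀ G : (ℕ → ℂ) → ℝ,
      walkExp (fun w => PgHalfC.inj χi O E '' (C' n).step O (ψ w)) L v
        (fun w => G fun i => ψ (w i)) = walkExp ((C' n).step O) L (χ v) G := fun n L v hv G => by
    have := MapW_of ((C' n).step O) (fun w => PgHalfC.inj χi O E '' (C' n).step O (ψ w)) univ
      (PgHalfC.inj χi O E) L (χ v) (fun w => G fun i => ψ (w i))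
      (inj_injective hχ).injOn (mem_univ _) fun y _ => ⟨subset_univ _, by rw [hψ]⟩
    rw [inj_chart hχ (subset_closure ((hB.sub n).1 hv))] at this
    rw [this]
    simp only [hψ _]
  have key := halfA_ok (Px W (χ z)) Z μ C _ a M _ z _ _
    (fun n w => PgHalfC.inj χi O E '' (C' n).step O (ψ w)) ψ 2 hZ hE (bad_univ hE _) hB
    (hxV.mono fun n h => h.1) hx hz hD hlip hSt
  refine pathConvU_of (V := fun n => (C' n).V) (fun T hT F L c hF hFc => ?_) ?_ hxV'
    (fun n y hy v hv => hv.elim (·.2.2.1) (·.2 ▸ hy))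
    (lbm_stop hW hχ hZ hz (hA _ (hχ.image.le (mem_image_of_mem _ hz.1)))) ?_
  · obtain ⟨k1, k2⟩ := key T hT F L c hF hFc
    have e1 : (fun ω : Path => F (toC T fun t =>
        ψ (lbmPath (fun s => kap χi O E (ω s)) (A ω) UH t))) =ᵐ[Px W (χ z)]
        fun ω => F (toC T fun t => lbmPath ω (A ω) O t) := by
      filter_upwards [hae] with ω h
      rw [funext fun t => (hEq _ (h t).1).trans (h t).2]
    refine ⟨k1.congr e1, ?_⟩
    rw [← integral_congr_ae e1]
    refine k2.congr' ?_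
    filter_upwards [hxV] with n hn
    rw [tr n _ _ hn.1 fun w => F (toC T (interp (M n / (2 * a n)) w)), hn.2]
  · obtain ⟨r, hr, h⟩ := Metric.nhds_basis_closedBall.mem_iff.1
      ((isOpen_UH.sdiff hZ.isClosed).mem_nhds hz)
    obtain ⟨lo, hi, -, hb⟩ := PfLocal.a_bdd geo_ok cs_ok nulow_ok hE (isCompact_closedBall z r) h
      ⟨z, mem_interior_iff_mem_nhds.2 (Metric.closedBall_mem_nhds z hr)⟩
    exact PfLocal.m_top hE.a_pos (hb.mono fun _ h => h.2) hE.M_top
  · rintro R hR _ ⟨t, ⟨t1, t2⟩, rfl⟩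
    have t3 : ((t.re : ℝ) : ℂ) = t := Complex.ext rfl t1.symm
    have t4 : t ∈ closure UH := closure_UH ▸ t1.ge
    obtain ⟨δ, hδ, h⟩ := hB.sticky_at walkbasics_ok hE.mem hSt (t3.symm ▸ t2) (half_pos hR) hR
    obtain ⟨δ', hδ', h'⟩ := Metric.continuousWithinAt_iff.1
      (hχ.cont _ (hχ.image'.le (mem_image_of_mem χ t4))) δ hδ
    refine ⟨δ', hδ', h.mono fun n hn y hy hd L G c Lc hG hL hlp => ?_⟩
    obtain ⟨v, hv, rfl⟩ := hRel.V n ▸ hy
    have v1 : v ∈ closure UH := subset_closure ((hB.sub n).1 hv)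
    have v2 := h' (hχ.image'.le (mem_image_of_mem χ v1)) hd
    rw [hχ.inv v v1, hχ.inv t t4] at v2
    have := hn v hv (t3.symm ▸ (sn_le_dist t v).trans v2.le) L (fun w => G fun i => ψ (w i)) c
      (Lc * 2) (fun _ => hG _) (by positivity) fun w w' r hw hw' hr => by
        rw [mul_assoc]
        refine hlp _ _ _ (fun _ => mem_univ _) (fun _ => mem_univ _) fun i => ?_
        have := hlip.dist_le_mul _ (hw i) _ (hw' i)
        rw [dist_eq_norm, dist_eq_norm] at this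
        exact this.trans (mul_le_mul_of_nonneg_left (hr i) zero_le_two)
    simp only [tr n L v hv, hEq v v1] at this
    exact this.trans_eq (by ring)

end Pool.Agent.Lib.MP_0d9445_pr.Bd
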