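import Pool.Agent.Lib.MP_0d9445_pr.Bd.Defs
import Pool.Agent.Lib.MP_0d9445_pr.AS.Defs
import Pool.Agent.Lib.MP_0d9445_pr.EN.All
import Pool.Agent.Lib.MP_0d9445_pr.Su.Iface

/-! Stage 2: the statements that pass between the modules. -/

open MeasureTheory ProbabilityTheory Set Filter Topology Real LQ.Met
open scoped NNReal ENNReal ComplexConjugate

noncomputable section

namespace Pool.Agent.Lib.MP_0d9445_pr.Bd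

open CR PPP Walk

/-- the disc that contains everything the estimates for a boundary box look at -/
def bball (n : ℕ) (a : ℤ) : Set ℂ := Metric.ball (yb n a) (200 * sc n)

/-- the variable that dominates the energy and the squared diameters below a boundary box -/
def XX (d : ℕ) (p : Pat) (B : ℕ → ℤ → Prop) (k n : ℕ) (a : ℤ) : ℝ≥0∞ :=
  XI d p k n a + XII d p B k n a

/-- the blocking events of the model at distortion `L` -/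
def EbX (ξ L : ℝ) (j m : ℕ) (x : Xi) : ℕ → ℤ → Prop :=
  Eb (exp (2 * ξ * L)) j m x.1.1 (pts x.2.1)

/-- the field `soft` of the boundary cascade of the model -/
def SoftB (M : Model) : Prop :=
  ∀ (L : ℝ), 0 ≤ L → ∀ (W : Sq) (ε : ℝ≥0∞) (L' : ℝ≥0), 0 < ε → ∃ T : ℝ, ∀ N j : ℕ,
    ∀ᶠ m in atTop, ∀ n ≤ N, ∀ a g, fr n a ⊆ W.o → ob n a g ≤ L' → T ≤ cc M.Q n (yb n a) g →
      Phatb M L W m n g {x | ¬ EbX M.ξ L j m x n a} ≤ ε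

/-- the output of the boundary cascade in the model -/
def OutB (M : Model) : Prop :=
  ∀ (L : ℝ), 0 ≤ L → ∀ W : Sq, W.o ⊆ UH → ∃ d : ℕ, 7 ≤ d ∧ ∃ C : ℝ≥0, ∀ (n : ℕ) (a : ℤ),
    bball n a ∩ UH ⊆ W.o → ∀ δ : ℝ≥0∞, 0 < δ → ∃ T : ℝ, ∀ k j : ℕ, ∀ᶠ m in atTop, ∀ t, T ≤ t →
      ∫⁻ g, Phatb M L W m 0 (g + cst t)
        {x | (C : ℝ≥0∞) < XX d (pat M.ξ L W x) (EbX M.ξ L j m x) k n a} ∂Gb M ≤ δ

variable {Ω : Type} [MeasurableSpace Ω]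

/-- what is unlikely in the model is unlikely on the surface -/
def TransA (M : Model) (P : Measure Ω) (s : Ω → Cf) (W : Sq) : Prop :=
  ∃ G : ℕ → Set Cf, (∀ K, MeasurableSet (G K)) ∧ (∀ᵐ ω ∂P, ∃ K, s ω ∈ G K) ∧
    ∀ K, ∃ (L : ℝ) (C : ℝ≥0), 0 ≤ L ∧ ∀ᶠ m in atTop, ∀ Θ : ℝ → Cf → ℝ≥0∞,
      Fam M.ξ M.γ (W.o ∩ above m) Θ → ∀ t : ℝ,
        ∫⁻ ω in s ⁻¹' G K, Θ 0 (scale M.ξ M.γ t (s ω)) ∂P ≤
          C * ∫⁻ g, ∫⁻ c, Θ L c ∂Pkb M m 0 (g + cst t) ∂Gb M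

/-- what is unlikely on the surface is unlikely in the model -/
def TransB (M : Model) (P : Measure Ω) (s : Ω → Cf) (W : Sq) : Prop :=
  ∀ ε : ℝ≥0∞, 0 < ε → ∃ (L : ℝ) (δ : ℝ≥0∞), 0 ≤ L ∧ 0 < δ ∧ ∀ᶠ m in atTop,
    ∀ Θ : ℝ → Cf → ℝ≥0∞, Fam M.ξ M.γ (W.o ∩ above m) Θ → ∀ t : ℝ,
      ∫⁻ ω, Θ L (scale M.ξ M.γ t (s ω)) ∂P ≤ δ →
        ∫⁻ g, ∫⁻ c, Θ 0 c ∂Pkb M m 0 (g + cst t) ∂Gb M ≤ ε

/-- the area measure of a surface on the half-plane -/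
structure MassH (m : Measure ℂ) : Prop where
  fin : ∀ K, IsCompact K → K ⊆ UH → m K < ∞
  pos : ∀ U, IsOpen U → U ⊆ UH → U.Nonempty → m U ≠ 0
  atom : ∀ z, m {z} = 0
  supp : m UHᶜ = 0

/-- the field `nice` of `EnvB` -/
def NiceB (C : ℕ → Cells) : Prop :=
  ∀ K, IsCompact K → K ⊆ closure UH → ∀ ε > 0, ∀ᶠ n in atTop,
    {x | x ∈ (C n).V ∧ ((C n).H x ∩ K).Nonempty}.Finite ∧ ((C n).toFC K).Nice K ε

/-- the field `xy` of `EnvB` -/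
def XYB (Z : Set ℂ) (C : ℕ → Cells) : Prop :=
  ∀ t : ℝ, (t : ℂ) ∉ Z → ∃ Cst r₀ : ℝ, 0 < r₀ ∧ ∀ (c r : ℝ), 0 < r → r ≤ r₀ →
    |c - t| ≤ r₀ → ∀ᶠ n in atTop, ∀ K, ((C n).toFC K).X (Cell.sqC c r) ≤ Cst * r ^ 2 ∧
      ((C n).toFC K).Y (Cell.sqC c r) ≤ Cst * r ^ 2

/-- local absolute continuity off the set `N` -/
def LocH (P : Measure Ω) (h : Ω → Field) (f : Ω → ℂ → ℝ) (N : Set ℂ) : Prop :=
  ∀ z ∈ UH, z ∉ N → ∃ r, 0 < r ∧ csq z r ⊆ UH ∧ Su.LocAC P h f (osq z r)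

/-- the dominating variables of the true pattern are bounded in the window `W` -/
def XXB (W : Sq) (d : Met) (Y : ℕ → Set ℂ) : Prop :=
  ∃ (e : ℕ) (C : ℝ≥0), 7 ≤ e ∧ ∀ n a, bball n a ∩ UH ⊆ W.o → ∀ᶠ i in atTop,
    ⨆ k, XX e (AS.tpat W d (Y i)) (SepB (AS.vorS (closure UH) d (Y i))) k n a ≤ C

end Pool.Agent.Lib.MP_0d9445_pr.Bd
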