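import Pool.Agent.Lib.MP_0d9445_pr.Bd.Iface
import Pool.Agent.Lib.MP_0d9445_pr.CR.Meas
import Pool.Agent.Lib.MP_0d9445_pr.CR.D2
import Pool.Agent.Lib.MP_0d9445_pr.Bd.EqFixUU

/-! Monotonicity and locality of the dominating variables. -/

open MeasureTheory ProbabilityTheory Set Filter Topology Real LQ.Met
open scoped NNReal ENNReal ComplexConjugate

noncomputable section

namespace Pool.Agent.Lib.MP_0d9445_pr.Bd

open CR PPP Walk

variable {d k n : ℕ} {a : ℤ}

namespace Mono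

theorem UU_succ (d : ℕ) (p : Pat) (B : ℕ → ℤ → Prop) (k : ℕ) :
    ∀ n a, UU d p B k n a ≤ UU d p B (k + 1) n a := by
  induction k with
  | zero => exact fun _ _ => zero_le
  | succ k ih =>
    intro n a
    rw [UU, UU]
    refine add_le_add le_rfl (Finset.sum_le_sum fun b _ => ?_)
    split_ifs
    exacts [le_rfl, ih _ _]

theorem oR_mono {l : ℕ} {b : ℤ} {r r' : ℝ} (h : r ≤ r') : oR l b r ⊆ oR l b r' := fun _ hz =>
  have hs := sc_pos l
  ⟨hz.1.trans_le (by gcongr), hz.2.trans_le (by gcongr)⟩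

theorem oR_kid {l m : ℕ} {b b' : ℤ} (hb : b' ∈ bk m b) {r r' : ℝ}
    (h : r * (2 : ℝ)⁻¹ ^ m ≤ r') : oR (l + m) b' r ⊆ oR l b r' := by
  intro z hz
  have hs := sc_pos l
  have h1 := Geo_ctr1 (n := l) (Finset.mem_Ico.1 hb)
  have h2 := mul_le_mul_of_nonneg_left h hs.le
  have h3 := sc_add l m
  have h4 := sc_add_le l m
  exact ⟨(Geo_abs_lt hz.1 h1).trans_le (by rw [h3]; linarith),
    hz.2.trans_le (by rw [h3] at h4 ⊢; linarith)⟩

theorem oR_kid' (hd : 7 ≤ d) {l : ℕ} {b b' : ℤ} (hb : b' ∈ bk d b) :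
    oR (l + d) b' 30 ⊆ oR l b 1 := by
  refine oR_kid hb ?_
  have := Geo_inv_pow_le hd
  norm_num at this ⊢
  linarith

theorem oR_nb {l : ℕ} {b i : ℤ} (h : i ∈ Finset.Icc (b - 3) (b + 3)) : oR l i 1 ⊆ oR l b 30 := by
  intro z hz
  have hs := sc_pos l
  obtain ⟨h1, h2⟩ := Finset.mem_Icc.1 h
  have h3 := Geo_nbh1 (n := l) (R := 3) (a := b) (x := i) (abs_le.2 ⟨by omega, by omega⟩)
  exact ⟨(Geo_abs_lt hz.1 h3).trans_le (by push_cast; linarith), hz.2.trans_le (by linarith)⟩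

theorem reg_above {l : ℕ} {w : ℤ × ℤ} (h : 64 ≤ w.2) : reg l w 21 ⊆ above l := by
  intro z hz
  have hs := sc_pos l
  have h1 : (64 : ℝ) ≤ w.2 := by exact_mod_cast h
  have h2 : |z.im - sc l * (w.2 + 1 / 2)| < 21 * sc l := hz.2
  have h3 := mul_le_mul_of_nonneg_left h1 hs.le
  show sc l < z.im
  linarith [(abs_lt.1 h2).1]

theorem reg_wh (hd : 7 ≤ d) {l : ℕ} {b : ℤ} {w : ℤ × ℤ} (h : w ∈ wh d b) :
    reg (l + d) w 21 ⊆ oR l b 1 ∩ above (l + d) := by
  obtain ⟨h1, h2⟩ := Finset.mem_product.1 h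
  obtain ⟨h2, h3⟩ := Finset.mem_Ico.1 h2
  refine fun z hz => ⟨⟨?_, ?_⟩, reg_above h2 hz⟩
  · exact (oR_kid' hd h1 (a := ⟨z.re, 0⟩) ⟨hz.1.trans_le (by linarith [sc_pos (l + d)]), by
      rw [abs_zero]
      exact mul_pos (by norm_num) (sc_pos _)⟩).1
  · have hs := sc_pos (l + d)
    have h4 : sc (l + d) < z.im := reg_above h2 hz
    have h5 : |z.im - sc (l + d) * (w.2 + 1 / 2)| < 21 * sc (l + d) := hz.2
    have h6 : (w.2 : ℝ) ≤ 64 * 2 ^ d := by exact_mod_cast h3.le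
    have h7 := mul_le_mul_of_nonneg_left h6 hs.le
    have h8 : sc (l + d) * (64 * 2 ^ d) = 64 * sc l := by
      rw [sc_add]
      linear_combination 64 * sc l * Geo_inv_pow d
    have h9 : sc (l + d) ≤ sc (l + 7) := D2.sc_anti (by omega)
    rw [sc_add l 7] at h9
    rw [abs_of_pos (by linarith)]
    linarith [(abs_lt.1 h5).2]

theorem reg_top {l : ℕ} {b : ℤ} {w : ℤ × ℤ} (h : w ∈ top b) :
    reg l w 21 ⊆ oR l b 30 ∩ above l := by
  obtain ⟨h1, h2⟩ := Finset.mem_product.1 h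
  obtain ⟨h2, h3⟩ := Finset.mem_Icc.1 h2
  obtain ⟨h0, h1⟩ := Finset.mem_Icc.1 h1
  have hs := sc_pos l
  refine fun z hz => ⟨⟨?_, ?_⟩, reg_above h2 hz⟩
  · have h3 := Geo_nbh1 (n := l) (R := 3) (a := b) (x := w.1) (abs_le.2 ⟨by omega, by omega⟩)
    exact (Geo_abs_lt hz.1 h3).trans_le (by push_cast; linarith)
  · have h4 : sc l < z.im := reg_above h2 hz
    have h5 : |z.im - sc l * (w.2 + 1 / 2)| < 21 * sc l := hz.2
    have h6 : (w.2 : ℝ) ≤ 66 := by exact_mod_cast h3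
    have h7 := mul_le_mul_of_nonneg_left h6 hs.le
    rw [abs_of_pos (by linarith)]
    linarith [(abs_lt.1 h5).2]

theorem oR_ball (n : ℕ) (a : ℤ) : oR n a 1 ⊆ bball n a := by
  intro z hz
  have g := Complex.norm_le_abs_re_add_abs_im (z - yb n a)
  rw [Complex.sub_re, Complex.sub_im, yb, Complex.ofReal_re, Complex.ofReal_im, sub_zero] at g
  refine mem_ball_iff_norm.2 ?_
  rw [yb]
  linarith [hz.1, hz.2, sc_pos n]

theorem above_mono {l m : ℕ} (h : l ≤ m) : above l ⊆ above m :=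
  fun _ hz => (D2.sc_anti h).trans_lt hz

open Classical in
/-- a class of functions closed under the operations that build `XX` -/
structure Cl {Ξ : Type} (P : (Ξ → ℝ≥0∞) → Prop) (Q : (Ξ → Prop) → Prop) : Prop where
  zero : P fun _ => 0
  add : ∀ {F G}, P F → P G → P fun x => F x + G x
  mul : ∀ (c) {F}, P F → P fun x => c * F x
  sq : ∀ {F}, P F → P fun x => F x ^ 2
  ite : ∀ {b F}, Q b → P F → P fun x => if b x then 0 else F x

variable {Ξ : Type} {P : (Ξ → ℝ≥0∞) → Prop} {Q : (Ξ → Prop) → Prop}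

theorem Cl.sum (h : Cl P Q) {ι : Type*} (I : Finset ι) {F : ι → Ξ → ℝ≥0∞}
    (hF : ∀ i ∈ I, P (F i)) : P fun x => ∑ i ∈ I, F i x := by
  classical
  induction I using Finset.induction_on with
  | empty => simpa using h.zero
  | insert i I hi ih =>
    simp only [Finset.sum_insert hi]
    exact h.add (hF i (Finset.mem_insert_self _ _))
      (ih fun j hj => hF j (Finset.mem_insert_of_mem hj))

theorem Cl.UU (h : Cl P Q) (hd : 7 ≤ d) {pat : Ξ → Pat} {B : Ξ → ℕ → ℤ → Prop} {N : ℕ}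
    {D : Set ℂ} (hZ : ∀ l w, reg l w 21 ⊆ D ∩ above N → P fun x => ZZ d (pat x) l w)
    (hB : ∀ l b, l ≤ N → fr l b ⊆ D → Q fun x => B x l b) (k : ℕ) :
    ∀ l b, l + k * d ≤ N → oR l b 1 ⊆ D → P fun x => UU d (pat x) (B x) k l b := by
  induction k with
  | zero => exact fun _ _ _ _ => h.zero
  | succ k ih =>
    intro l b h1 h2
    rw [add_mul, one_mul] at h1
    simp only [Bd.UU]
    refine h.add (h.sum _ fun w hw => hZ _ _ ((reg_wh hd hw).trans
      (inter_subset_inter h2 (above_mono (by omega))))) (h.sum _ fun c hc => ?_)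
    have h3 := (oR_kid' (l := l) hd hc).trans h2
    exact h.ite (hB _ _ (by omega) fun z hz => h3 (oR_mono (by norm_num) hz.1.1))
      (ih _ _ (by omega) ((oR_mono (by norm_num)).trans h3))

theorem Cl.XX (h : Cl P Q) (hd : 7 ≤ d) {pat : Ξ → Pat} {B : Ξ → ℕ → ℤ → Prop}
    (hZ : ∀ l w, reg l w 21 ⊆ bball n a ∩ above (n + 2 * k * d) → P fun x => ZZ d (pat x) l w)
    (hK : ∀ l w, reg l w 21 ⊆ bball n a ∩ above (n + 2 * k * d) → P fun x => KK d (pat x) l w)
    (hB : ∀ l b, l ≤ n + 2 * k * d → fr l b ⊆ bball n a → Q fun x => B x l b) :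
    P fun x => XX d (pat x) (B x) k n a := by
  have hp : ∀ m : ℕ, (1 : ℝ) * (2 : ℝ)⁻¹ ^ m ≤ 1 := fun m => by
    rw [one_mul]
    exact pow_le_one₀ (by norm_num) (by norm_num)
  simp only [Bd.XX, XI, XII, WW]
  refine h.add (h.sum _ fun j hj => h.mul _ (h.sum _ fun b hb => h.sum _ fun w hw => hK _ _ ?_))
    (h.sum _ fun j hj => h.mul _ (h.sum _ fun b hb => h.sq ?_))
  · have h1 := Nat.mul_le_mul_right d (Nat.succ_le_of_lt (Finset.mem_range.1 hj))
    rw [add_mul, one_mul, ← add_assoc]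
    exact (reg_wh hd hw).trans (inter_subset_inter ((oR_kid hb (hp _)).trans (oR_ball n a))
      (above_mono (by nlinarith)))
  · have h1 := Nat.mul_le_mul_right d (Nat.succ_le_of_lt (Finset.mem_range.1 hj))
    have h2 : oR (n + (j + 1) * d) b 30 ⊆ bball n a :=
      (oR_kid' (d := (j + 1) * d) (by nlinarith) hb).trans (oR_ball n a)
    exact h.add (h.sum _ fun i hi => h.UU hd hZ hB k _ _ (by nlinarith) ((oR_nb hi).trans h2))
      (h.sum _ fun w hw => hZ _ _ ((reg_top hw).trans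
        (inter_subset_inter h2 (above_mono (by nlinarith)))))

variable {p q : Pat} {A : Set ℂ}

theorem u_on (hd : 7 ≤ d) (h : LeOn A p q) (k : ℕ) :
    ∀ l v, reg l v 1 ⊆ A → u d p k l v ≤ u d q k l v := by
  induction k with
  | zero =>
    intro l v hv
    simp only [u]
    split_ifs with h1 h2
    · exact le_rfl
    · obtain ⟨z, hz⟩ := h1
      exact absurd ⟨z, h.2 ⟨hz.1, hv (count_box_subset_reg l v hz.2)⟩, hz.2⟩ h2
    · exact Nat.zero_le _
    · exact le_rfl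
  | succ k ih =>
    intro l v hv
    simp only [u]
    refine Finset.sum_le_sum fun w hw => ?_
    have h5 : reg (l + d) w 5 ⊆ A := by
      refine (reg_kids_subset hw ?_).trans hv
      have := Geo_inv_pow_le hd
      norm_num at this ⊢
      linarith
    split_ifs with h1 h2 h2
    · exact le_rfl
    · exact Nat.zero_le _
    · exact absurd (h.1 _ _ h5 h2) h1
    · exact ih _ _ ((reg_mono _ _ (by norm_num)).trans h5)

theorem ZZ_on (hd : 7 ≤ d) (h : LeOn A p q) (l : ℕ) (v : ℤ × ℤ) (hv : reg l v 21 ⊆ A) :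
    ZZ d p l v ≤ ZZ d q l v :=
  liminf_le_liminf (Eventually.of_forall fun k => Nat.cast_le.2 (Nat.pow_le_pow_left
    (Finset.sum_le_sum fun w hw => u_on hd h k l w
      (((reg_nbh_subset hw 1).trans (reg_mono _ _ (by norm_num))).trans hv)) 2))

theorem KK_on (hd : 7 ≤ d) (h : LeOn A p q) (l : ℕ) (v : ℤ × ℤ) (hv : reg l v 21 ⊆ A) :
    KK d p l v ≤ KK d q l v :=
  ENNReal.tsum_le_tsum fun _ => mul_le_mul_right (Finset.sum_le_sum fun _ hw =>
    ZZ_on hd h _ _ ((Casc.meas_kids_same hw (by norm_num)).trans hv)) _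

end Mono

open Mono

theorem XX_mono_k (d : ℕ) (p : Pat) (B : ℕ → ℤ → Prop) (n : ℕ) (a : ℤ) :
    Monotone fun k => XX d p B k n a := by
  refine monotone_nat_of_le_succ fun k => add_le_add
    (Finset.sum_le_sum_of_subset (Finset.range_subset_range.2 k.le_succ))
    (le_trans (Finset.sum_le_sum fun j _ => mul_le_mul_right (Finset.sum_le_sum fun b _ =>
      pow_le_pow_left' (add_le_add (Finset.sum_le_sum fun i _ => UU_succ d p B k _ _) le_rfl) 2) _)
      (Finset.sum_le_sum_of_subset (Finset.range_subset_range.2 k.le_succ)))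

theorem finite_fr (N n : ℕ) (a : ℤ) :
    {q : ℕ × ℤ | q.1 ≤ N ∧ fr q.1 q.2 ⊆ bball n a}.Finite := by
  obtain ⟨R, hR⟩ := exists_nat_ge ((‖yb n a‖ + 200 * sc n) / sc N)
  rw [div_le_iff₀ (sc_pos N)] at hR
  refine ((finite_Iic N).prod (finite_Icc (-(R : ℤ) - 1) R)).subset ?_
  rintro ⟨l, b⟩ ⟨h1, h2⟩
  have hs := sc_pos l
  have h3 : (⟨sc l * (b + 1 / 2), 66 * sc l⟩ : ℂ) ∈ fr l b := by
    refine ⟨⟨⟨?_, ?_⟩, fun h => ?_⟩, ?_⟩
    · rw [sub_self, abs_zero]
      positivity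
    · rw [abs_of_pos (by positivity)]
      linarith
    · have := h.2
      rw [abs_of_pos (by positivity)] at this
      linarith
    · show 0 < 66 * sc l
      positivity
  have h4 := (Complex.abs_re_le_norm _).trans (norm_lt_of_mem_ball (h2 h3)).le
  have h5 : sc N ≤ sc l := D2.sc_anti h1
  have h6 : |(b : ℝ) + 1 / 2| ≤ R := by
    rw [abs_mul, abs_of_pos hs] at h4
    refine le_of_mul_le_mul_left ?_ hs
    nlinarith [(Nat.cast_nonneg R : (0 : ℝ) ≤ R)]
  obtain ⟨h7, h8⟩ := abs_le.1 h6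
  have h9 : ((-(R : ℤ) - 1 : ℤ) : ℝ) ≤ b := by push_cast; linarith
  have h10 : (b : ℝ) ≤ ((R : ℤ) : ℝ) := by push_cast; linarith
  exact ⟨h1, by exact_mod_cast h9, by exact_mod_cast h10⟩

theorem XX_mono (hd : 7 ≤ d) {p q : Pat} {A : Set ℂ} (h : LeOn A p q)
    (hA : bball n a ∩ above (n + 2 * k * d) ⊆ A) {B B' : ℕ → ℤ → Prop}
    (hB : ∀ n' a', n' ≤ n + 2 * k * d → fr n' a' ⊆ bball n a → B' n' a' → B n' a') :
    XX d p B k n a ≤ XX d q B' k n a := by
  have c : Cl (fun F : Bool → ℝ≥0∞ => F false ≤ F true) fun b => b true → b false := by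
    refine ⟨le_rfl, add_le_add, fun c _ h => mul_le_mul_right h c, fun h => pow_le_pow_left' h 2,
      fun {b F} h1 h2 => ?_⟩
    beta_reduce
    split_ifs with h3 h4 h4
    exacts [le_rfl, zero_le, absurd (h1 h4) h3, h2]
  exact c.XX hd (pat := fun x => cond x q p) (B := fun x => cond x B' B)
    (fun l w hw => ZZ_on hd h l w (hw.trans hA)) (fun l w hw => KK_on hd h l w (hw.trans hA)) hB

theorem measurable_XX {Ξ : Type} [MeasurableSpace Ξ] (K : Casc Ξ) (hd : 7 ≤ d) {A : Set ℂ}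
    (hA : bball n a ∩ above (n + 2 * k * d) ⊆ A) {B : Ξ → ℕ → ℤ → Prop}
    (hB : ∀ n' a', fr n' a' ⊆ bball n a → MeasurableSet[K.G A] {x | B x n' a'}) :
    Measurable[K.G A] fun x => XX d (K.pat x) (B x) k n a := by
  have c : Cl (fun F : Ξ → ℝ≥0∞ => Measurable[K.G A] F) fun b => MeasurableSet[K.G A] {x | b x} :=
    ⟨measurable_const, fun h1 h2 => h1.fun_add h2, fun c _ h => h.const_mul c,
      fun h => h.pow_const 2, fun h1 h2 => Measurable.ite h1 measurable_const h2⟩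
  exact c.XX hd
    (fun l w hw => (K.ZZ_loc hd l w).mono (K.G_mono _ _ (hw.trans hA)) le_rfl)
    (fun l w hw => (K.KK_loc hd l w).mono (K.G_mono _ _ (hw.trans hA)) le_rfl) fun l b _ => hB l b

end Pool.Agent.Lib.MP_0d9445_pr.Bd
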