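import Pool.Agent.Lib.MP_0d9445_pr.Bd.Field
import Pool.Agent.Lib.MP_0d9445_pr.Bd.Cd
import Pool.Agent.Lib.MP_0d9445_pr.Bd.Mono
import Pool.Agent.Lib.MP_0d9445_pr.Bd.COut

/-! The model is a boundary cascade. -/

open MeasureTheory ProbabilityTheory Set Filter Topology Real LQ.Met
open scoped NNReal ENNReal ComplexConjugate

noncomputable section

namespace Pool.Agent.Lib.MP_0d9445_pr.Bd

open CR PPP Walk

variable {M : Model}

/-- the boundary cascade of the model -/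
def instCasc (hs : SoftB M) {p : ℝ} (h : M.Base p) (L : ℝ) (hL : 0 ≤ L) (W : Sq) : BCasc Xi where
  K := M.casc h L hL W
  ν := νb M
  P := Phatb M L W
  ν_prob _ := inferInstance
  P_markov _ _ := inferInstance
  tower := tower_Phatb M L W
  subg := subg_νb M
  lipexp := lipexp_ob M
  indep := indep_Phatb M L W
  agree := agree_Phatb M L W
  Bb := EbX M.ξ L
  bb_meas j m n a := EN.GGhat_mono inter_subset_left _ (measurableSet_Eb _ j m n a)
  soft := hs L hL W

theorem exists_bcasc (F : M.All) (hs : SoftB M) {p : ℝ} (h : M.Base p) (L : ℝ) (hL : 0 ≤ L)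
    {W : Sq} (hW : W.o ⊆ UH) : ∃ B : BCasc Xi, B.K = M.casc h L hL W ∧ B.P = Phatb M L W ∧
      B.Bb = EbX M.ξ L ∧ B.LipAll :=
  ⟨instCasc hs h L hL W, rfl, rfl, rfl, lipexp_νb M 200⟩

/-- the reflected infrared part is bounded with large probability -/
theorem inst_tight (M : Model) (n : ℕ) (a : ℤ) {δ : ℝ≥0∞} (hδ : 0 < δ) :
    ∃ L : ℝ≥0, Gb M {g | ob n a g ≤ L ∧ |g (yb n a)| ≤ L}ᶜ ≤ δ := by
  have hm : ∀ L : ℝ≥0, MeasurableSet {g : Fn | ob n a g ≤ L ∧ |g (yb n a)| ≤ L} := fun L =>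
    (measurableSet_le (measurable_ob n a) measurable_const).inter
      (measurableSet_le (EN.measurable_fn _).abs measurable_const)
  have ht := tendsto_measure_iInter_atTop (μ := Gb M)
    (s := fun L : ℝ≥0 => {g : Fn | ob n a g ≤ L ∧ |g (yb n a)| ≤ L}ᶜ)
    (fun L => (hm L).compl.nullMeasurableSet)
    (fun L L' hL => compl_subset_compl.2 fun g hg =>
      ⟨hg.1.trans (ENNReal.coe_le_coe.2 hL), hg.2.trans (NNReal.coe_le_coe.2 hL)⟩)
    ⟨0, measure_ne_top _ _⟩
  have h0 : Gb M (⋂ L : ℝ≥0, {g : Fn | ob n a g ≤ L ∧ |g (yb n a)| ≤ L}ᶜ) = 0 := by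
    refine measure_mono_null ?_ (ae_iff.1 (Gb_ob M n a))
    intro g hg (hlt : ob n a g < ∞)
    refine mem_iInter.1 hg (max (ob n a g).toNNReal |g (yb n a)|.toNNReal) ⟨?_, ?_⟩
    · exact (ENNReal.coe_toNNReal hlt.ne).ge.trans (ENNReal.coe_le_coe.2 (le_max_left _ _))
    · exact (le_coe_toNNReal _).trans (NNReal.coe_le_coe.2 (le_max_right _ _))
  rw [h0] at ht
  exact (ENNReal.tendsto_nhds_zero.1 ht δ hδ).exists

theorem outB (F : M.All) (hs : SoftB M) : OutB M := by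
  intro L hL W _
  obtain ⟨p, h⟩ := F.base
  obtain ⟨d, hd, -, -, C, hC⟩ := (instCasc hs h L hL W).exists_out (lipexp_νb M 200)
  refine ⟨d, hd.1, C, fun n a hn δ hδ => ?_⟩
  have h2 := ENNReal.half_pos hδ.ne'
  obtain ⟨L', hL'⟩ := inst_tight M n a h2
  obtain ⟨T, hT⟩ := hC n a hn (δ / 2) L' h2
  refine ⟨T, fun k j => (hT k j).mono fun m hm t ht => ?_⟩
  calc _ ≤ ∫⁻ g, δ / 2 + {g : Fn | ob n a g ≤ L' ∧ |g (yb n a)| ≤ L'}ᶜ.indicator 1 g ∂Gb M := by
        refine lintegral_mono fun g => ?_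
        by_cases hg : ob n a g ≤ L' ∧ |g (yb n a)| ≤ L'
        · exact (hm g t ht hg.1 hg.2).trans le_self_add
        · rw [indicator_of_mem (show g ∈ {g : Fn | ob n a g ≤ L' ∧ |g (yb n a)| ≤ L'}ᶜ from hg)]
          exact prob_le_one.trans le_add_self
    _ ≤ δ / 2 + δ / 2 := by
        rw [lintegral_add_left measurable_const, lintegral_const, measure_univ, mul_one]
        exact add_le_add le_rfl ((lintegral_indicator_one_le _).trans hL')
    _ = δ := ENNReal.add_halves δ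

end Pool.Agent.Lib.MP_0d9445_pr.Bd
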