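import Pool.Agent.Lib.MP_0d9445_pr.Bd.Cd

/-! Blocking separates the cells; dense points block. -/

open MeasureTheory ProbabilityTheory Set Filter Topology Real LQ.Met
open scoped NNReal ENNReal ComplexConjugate

noncomputable section

namespace Pool.Agent.Lib.MP_0d9445_pr.Bd

open CR PPP Walk

namespace SepAux

/-- the gauge of the frame -/
def N (n : ℕ) (a : ℤ) (z : ℂ) : ℝ :=
  max (|z.re - sc n * (a + 1 / 2)| - sc n / 2) (|z.im| - 64 * sc n)

variable {n : ℕ} {a : ℤ} {r : ℝ} {z : ℂ}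

theorem mem_oR : z ∈ oR n a r ↔ N n a z < r * sc n := by
  simp only [oR, N, mem_ofPred_eq, max_lt_iff]
  constructor <;> rintro ⟨h1, h2⟩ <;> constructor <;> linarith

theorem mem_cR : z ∈ cR n a r ↔ N n a z ≤ r * sc n := by
  simp only [cR, N, mem_ofPred_eq, max_le_iff]
  constructor <;> rintro ⟨h1, h2⟩ <;> constructor <;> linarith

theorem continuous_N (n : ℕ) (a : ℤ) : Continuous (N n a) := by
  unfold N
  fun_prop

theorem N_le (n : ℕ) (a : ℤ) (y z : ℂ) : N n a y ≤ N n a z + dist y z := by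
  have h1 : |y.re - z.re| ≤ dist y z := by
    rw [Complex.dist_eq, ← Complex.sub_re]
    exact Complex.abs_re_le_norm _
  have h2 : |y.im - z.im| ≤ dist y z := by
    rw [Complex.dist_eq, ← Complex.sub_im]
    exact Complex.abs_im_le_norm _
  have h3 := abs_sub_le y.re z.re (sc n * (a + 1 / 2))
  have h4 := abs_sub_abs_le_abs_sub y.im z.im
  have h5 := le_max_left (|z.re - sc n * (a + 1 / 2)| - sc n / 2) (|z.im| - 64 * sc n)
  have h6 := le_max_right (|z.re - sc n * (a + 1 / 2)| - sc n / 2) (|z.im| - 64 * sc n)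
  unfold N
  exact max_le (by linarith) (by linarith)

theorem isOpen_oR (n : ℕ) (a : ℤ) (r : ℝ) : IsOpen (oR n a r) := by
  rw [show oR n a r = {z | N n a z < r * sc n} from Set.ext fun _ => mem_oR]
  exact isOpen_lt (continuous_N n a) continuous_const

theorem isClosed_cR (n : ℕ) (a : ℤ) (r : ℝ) : IsClosed (cR n a r) := by
  rw [show cR n a r = {z | N n a z ≤ r * sc n} from Set.ext fun _ => mem_cR]
  exact isClosed_le (continuous_N n a) continuous_const

theorem isCompact_cR (n : ℕ) (a : ℤ) (r : ℝ) : IsCompact (cR n a r) := by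
  refine Metric.isCompact_of_isClosed_isBounded (isClosed_cR n a r)
    (isBounded_iff_forall_norm_le.2 ⟨|sc n * (a + 1 / 2)| + (1 / 2 + r) * sc n + (64 + r) * sc n,
      fun z hz => (Complex.norm_le_abs_re_add_abs_im z).trans ?_⟩)
  linarith [hz.1, hz.2, abs_sub_abs_le_abs_sub z.re (sc n * (a + 1 / 2))]

theorem closure_oR (n : ℕ) (a : ℤ) (r : ℝ) : closure (oR n a r) ⊆ cR n a r :=
  closure_minimal (fun _ hz => mem_cR.2 (mem_oR.1 hz).le) (isClosed_cR n a r)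

theorem mem_curve : z ∈ cR n a 2 \ oR n a 2 ↔ N n a z = 2 * sc n := by
  rw [Set.mem_sdiff, mem_cR, mem_oR, not_lt]
  exact ⟨fun h => le_antisymm h.1 h.2, fun h => ⟨h.le, h.ge⟩⟩

theorem mem_fr : z ∈ fr n a ↔ (N n a z < 3 * sc n ∧ sc n < N n a z) ∧ z ∈ UH := by
  rw [fr, mem_inter_iff, Set.mem_sdiff, mem_cR, mem_oR, not_le, one_mul]

theorem mem_bad : (z ∈ oR n a (3 / 2) ∨ z ∉ cR n a (5 / 2)) ↔
    N n a z < 3 / 2 * sc n ∨ 5 / 2 * sc n < N n a z := by
  rw [mem_cR, mem_oR, not_le]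

theorem exists_rat {lo hi t δ : ℝ} (h : lo < hi) (h1 : lo ≤ t) (h2 : t ≤ hi) (hδ : 0 < δ) :
    ∃ q : ℚ, lo < q ∧ (q : ℝ) < hi ∧ |q - t| < δ := by
  obtain ⟨q, k1, k2⟩ := exists_rat_btwn (show max lo (t - δ) < min hi (t + δ) from
    max_lt (lt_min h (by linarith)) (lt_min (by linarith) (by linarith)))
  rw [max_lt_iff] at k1
  rw [lt_min_iff] at k2
  exact ⟨q, k1.1, k2.1, abs_lt.2 ⟨by linarith [k1.2], by linarith [k2.2]⟩⟩

theorem dist_le (y z : ℂ) : dist y z ≤ |y.re - z.re| + |y.im - z.im| := by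
  rw [Complex.dist_eq]
  exact Complex.norm_le_abs_re_add_abs_im _

theorem dense_Qc : Dense Qc := by
  refine Metric.dense_iff.2 fun z δ hδ => ?_
  obtain ⟨p, -, -, hp⟩ := exists_rat (lt_add_one z.re) le_rfl (lt_add_one _).le (half_pos hδ)
  obtain ⟨q, -, -, hq⟩ := exists_rat (lt_add_one z.im) le_rfl (lt_add_one _).le (half_pos hδ)
  exact ⟨⟨p, q⟩, (dist_le _ z).trans_lt (by simp only []; linarith), (p, q), rfl⟩

/-- rational points are dense on the upper half of the curve -/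
theorem exists_rat_curve (hz : z ∈ cR n a 2 \ oR n a 2) (h0 : 0 ≤ z.im) {δ : ℝ} (hδ : 0 < δ) :
    ∃ w ∈ (cR n a 2 \ oR n a 2) ∩ Qc, w ∈ UH ∧ dist w z < δ := by
  have hs := sc_pos n
  obtain ⟨s, hs'⟩ : ∃ s : ℚ, (s : ℝ) = sc n := ⟨2⁻¹ ^ n, by simp [sc]⟩
  obtain ⟨⟨h1, h2⟩, h3⟩ := hz
  rw [abs_of_nonneg h0] at h2
  by_cases h4 : z.im < (64 + 2) * sc n
  · have h5 : |z.re - sc n * (a + 1 / 2)| = (1 / 2 + 2) * sc n :=
      le_antisymm h1 (not_lt.1 fun k => h3 ⟨k, by rwa [abs_of_nonneg h0]⟩)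
    obtain ⟨p, hp⟩ : ∃ p : ℚ, (p : ℝ) = z.re := by
      rcases (abs_eq (by positivity)).1 h5 with k | k
      · exact ⟨s * (a + 1 / 2) + (1 / 2 + 2) * s, by push_cast; rw [hs']; linarith⟩
      · exact ⟨s * (a + 1 / 2) - (1 / 2 + 2) * s, by push_cast; rw [hs']; linarith⟩
    obtain ⟨q, k1, k2, k3⟩ := exists_rat (show (0 : ℝ) < (64 + 2) * sc n by positivity) h0 h2 hδ
    refine ⟨⟨p, q⟩, ⟨⟨⟨by simpa only [hp] using h1, by simpa only [abs_of_pos k1] using k2.le⟩,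
      fun k => ?_⟩, (p, q), rfl⟩, k1, (dist_le _ z).trans_lt (by simpa only [hp, sub_self,
        abs_zero, zero_add] using k3)⟩
    have := k.1
    simp only [hp] at this
    exact this.ne h5
  · have h5 : z.im = (64 + 2) * sc n := le_antisymm h2 (not_lt.1 h4)
    obtain ⟨q, hq⟩ : ∃ q : ℚ, (q : ℝ) = z.im := ⟨(64 + 2) * s, by push_cast; rw [hs']; linarith⟩
    rw [abs_le] at h1
    obtain ⟨p, k1, k2, k3⟩ := exists_rat
      (show sc n * (a + 1 / 2) - (1 / 2 + 2) * sc n < sc n * (a + 1 / 2) + (1 / 2 + 2) * sc n by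
        linarith) (t := z.re) (by linarith [h1.1]) (by linarith [h1.2]) hδ
    refine ⟨⟨p, q⟩, ⟨⟨⟨abs_le.2 ⟨by simp only []; linarith, by simp only []; linarith⟩,
      by simpa only [hq, abs_of_nonneg h0] using h2⟩, fun k => ?_⟩, (p, q), rfl⟩, ?_,
      (dist_le _ z).trans_lt (by simpa only [hq, sub_self, abs_zero, add_zero] using k3)⟩
    · have := k.2
      simp only [hq, abs_of_nonneg h0] at this
      exact h4 this
    · show 0 < (q : ℝ)
      rw [hq, h5]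
      positivity

theorem above_mono {m m' : ℕ} (h : m ≤ m') : above m ⊆ above m' := fun _ hz =>
  lt_of_le_of_lt (show sc m' ≤ sc m from pow_le_pow_of_le_one (by norm_num) (by norm_num) h) hz

theorem exists_sc_lt {t : ℝ} (ht : 0 < t) : ∃ m, sc m < t :=
  exists_pow_lt_of_lt_one ht (by norm_num)

/-- a path in the half-plane stays above some height -/
theorem exists_above {P : ℝ → ℂ} {L : ℝ} (hP : ContinuousOn P (Icc 0 L))
    (hU : MapsTo P (Icc 0 L) UH) : ∃ m, MapsTo P (Icc 0 L) (above m) := by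
  obtain ⟨t, ht, hle⟩ := isCompact_Icc.exists_forall_le' (f := fun s => (P s).im)
    (Complex.continuous_im.comp_continuousOn hP) (a := 0) fun s hs => hU hs
  obtain ⟨m, hm⟩ := exists_sc_lt ht
  exact ⟨m, fun s hs => hm.trans_le (hle s hs)⟩

theorem DU_congr {d d' : Met} (h : ∀ x ∈ closure UH, ∀ y ∈ closure UH, d' (x, y) = d (x, y))
    {V : Set ℂ} (hV : V ⊆ UH) (x y : ℂ) :
    DU (Function.curry d) V x y = DU (Function.curry d') V x y :=
  iInf_congr fun _ => iInf_congr fun p => iSup_congr fun q => Finset.sum_congr rfl fun _ _ => by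
    rw [Function.curry_apply, Function.curry_apply, h _
      (subset_closure (hV (p.maps (q.2.2.2 _)))) _ (subset_closure (hV (p.maps (q.2.2.2 _))))]

section Gen

variable {D : ℂ → ℂ → ℝ} {V : Set ℂ} {x y : ℂ}

theorem mem_of_DU_lt (h : IsMet D) {κ : ℝ} (k : DU D V x y < ENNReal.ofReal κ) : x ∈ V ∧ y ∈ V := by
  obtain ⟨L, P, u, hm, -⟩ := exists_UP_of_DU_lt h k
  exact ⟨u.src ▸ hm ⟨le_rfl, u.nonneg⟩, u.tgt ▸ hm ⟨u.nonneg, le_rfl⟩⟩

theorem eventually_DU_le (h : IsMet D) (hl : IsLen D) (hV : IsOpen V) (hne : Vᶜ.Nonempty)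
    (hx : x ∈ V) {ε : ℝ} (hε : 0 < ε) : ∀ᶠ y in 𝓝 x, DU D V x y ≤ ENNReal.ofReal ε := by
  have : ∀ᶠ y in 𝓝 x, D x y < min ε (dOut D V x) :=
    (h.cont_right x).continuousAt.eventually_lt continuousAt_const
      (by rw [h.self]; exact lt_min hε (dOut_pos h hV hne hx))
  filter_upwards [this] with y hy
  rw [DU_eq_of_lt_dOut h hl (hy.trans_le (min_le_right _ _))]
  exact ENNReal.ofReal_le_ofReal (hy.le.trans (min_le_left _ _))

theorem isOpen_DU_lt (h : IsMet D) (hl : IsLen D) (hV : IsOpen V) (hne : Vᶜ.Nonempty) (κ : ℝ) :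
    IsOpen {p : ℂ × ℂ | DU D V p.1 p.2 < ENNReal.ofReal κ} := by
  refine isOpen_iff_mem_nhds.2 fun p hp => ?_
  obtain ⟨k1, k2⟩ := mem_of_DU_lt h hp
  obtain ⟨L, P, u, hm, hL⟩ := exists_UP_of_DU_lt h hp
  have hε : 0 < (κ - L) / 3 := by linarith
  have e1 := continuous_fst.continuousAt.eventually (eventually_DU_le h hl hV hne k1 hε)
  have e2 := continuous_snd.continuousAt.eventually (eventually_DU_le h hl hV hne k2 hε)
  filter_upwards [e1, e2] with q q1 q2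
  rw [DU_symm h] at q1
  calc DU D V q.1 q.2 ≤ DU D V q.1 p.1 + (DU D V p.1 p.2 + DU D V p.2 q.2) :=
        (DU_triangle h _ _ p.1 _).trans (by gcongr; exact DU_triangle h _ _ p.2 _)
    _ ≤ ENNReal.ofReal ((κ - L) / 3) + (ENNReal.ofReal L + ENNReal.ofReal ((κ - L) / 3)) := by
        gcongr
        exact u.DU_le h hm
    _ < ENNReal.ofReal κ := by
        rw [← ENNReal.ofReal_add u.nonneg hε.le,
          ← ENNReal.ofReal_add hε.le (add_nonneg u.nonneg hε.le)]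
        exact (ENNReal.ofReal_lt_ofReal_iff (by linarith [u.nonneg])).2 (by linarith)

end Gen

theorem V_open (n : ℕ) (a : ℤ) (m : ℕ) : IsOpen (fr n a ∩ above m) :=
  (isOpen_fr n a).inter (isOpen_above m)

theorem V_sub (n : ℕ) (a : ℤ) (m : ℕ) : fr n a ∩ above m ⊆ UH := fun _ hz => hz.1.2

theorem V_ne (n : ℕ) (a : ℤ) (m : ℕ) : (fr n a ∩ above m)ᶜ.Nonempty :=
  ⟨0, fun h => lt_irrefl (0 : ℝ) (V_sub n a m h)⟩

variable {d : Met} {Y : Set ℂ}

theorem cd_dbl (h : SurfH d) {m : ℕ} {x y : ℂ} (hx : x ∈ fr n a ∩ above m)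
    (hy : y ∈ fr n a ∩ above m) : cd (fr n a ∩ above m) d x y =
      DU (Function.curry (dbl h.met)) (fr n a ∩ above m) x y := by
  rw [cd_eq h.goodH (V_open n a m) (V_sub n a m) hx hy,
    DU_congr (fun _ k _ k' => dbl_eq h.met k k') (V_sub n a m)]

theorem exists_geo (h : SurfH d) {x y : ℂ} (hx : x ∈ UH) (hy : y ∈ UH) {κ : ℝ}
    (hκ : d (x, y) < κ) : ∃ L P, UP (Function.curry (dbl h.met)) x y L P ∧
      MapsTo P (Icc 0 L) UH ∧ L < κ := by
  refine exists_UP_of_DU_lt (isMet_dbl h.met) ?_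
  rw [← DU_congr (fun _ k _ k' => dbl_eq h.met k k') Subset.rfl, h.len x hx y hy]
  exact (ENNReal.ofReal_lt_ofReal_iff
    ((MetOn.nonneg h.met (subset_closure hx) (subset_closure hy)).trans_lt hκ)).2 hκ

/-- no cell with centre off the frame meets the curve -/
theorem key (h : SurfH d) (hY : Y ⊆ UH) (hE : ∀ j, ∃ᶠ m in atTop, Eb 1 j m d Y n a) {x : ℂ}
    (hx : x ∈ Y) (hxf : N n a x ≤ sc n ∨ 3 * sc n ≤ N n a x) (hz : z ∈ cR n a 2 \ oR n a 2)
    (hc : z ∈ Cell.cell (closure UH) (Function.curry d) Y x) : False := by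
  have hs := sc_pos n
  have hm := isMet_dbl h.met
  have hxS := subset_closure (hY hx)
  have hzN := mem_curve.1 hz
  have hρ : 0 < d (z, x) := MetOn.pos h.met hc.1 hxS fun e => by
    rw [e] at hzN
    rcases hxf with k | k <;> linarith
  set ε := d (z, x) / 10 with hεd
  have hε : 0 < ε := by positivity
  obtain ⟨δ, hδ, hb⟩ := hm.exists_ball z hε
  obtain ⟨w, hw, hwU, hwz⟩ := exists_rat_curve hz (mem_closure_UH.1 hc.1) hδ
  have hwS := subset_closure hwU
  have hzw : d (z, w) < ε := by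
    have := hb w hwz
    rwa [Function.curry_apply, dbl_eq h.met hc.1 hwS] at this
  have hwN := mem_curve.1 hw.1
  obtain ⟨L, P, u, hU, hL⟩ := exists_geo h hwU (hY hx) (lt_add_of_pos_right _ hε)
  have hO : IsOpen (N n a ⁻¹' Ioo (5 / 4 * sc n) (11 / 4 * sc n)) :=
    isOpen_Ioo.preimage (continuous_N n a)
  obtain ⟨τ, hτ, -, hf, -, hcl⟩ := u.exists_exit hO (show N n a w ∈ Ioo _ _ from
    ⟨by linarith, by linarith⟩) fun k => by
      have k1 : N n a (P L) ∈ Ioo _ _ := k ⟨u.nonneg, le_rfl⟩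
      rw [u.tgt] at k1
      rcases hxf with k2 | k2 <;> linarith [k1.1, k1.2]
  have hcl' : ∀ t ∈ Icc 0 τ, N n a (P t) ∈ Icc (5 / 4 * sc n) (11 / 4 * sc n) := fun t ht =>
    closure_minimal (preimage_mono Ioo_subset_Icc_self)
      (isClosed_Icc.preimage (continuous_N n a)) (hcl ht)
  obtain ⟨m₀, hm₀⟩ := exists_above u.cont hU
  have hV : MapsTo P (Icc 0 τ) (fr n a ∩ above m₀) := fun t ht => by
    have k := hcl' t ht
    have ht' : t ∈ Icc 0 L := ⟨ht.1, ht.2.trans hτ.2⟩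
    exact ⟨mem_fr.2 ⟨⟨by linarith [k.2], by linarith [k.1]⟩, hU ht'⟩, hm₀ ht'⟩
  have hτV := hV ⟨hτ.1, le_rfl⟩
  have hbad : {y | N n a y < 3 / 2 * sc n ∨ 5 / 2 * sc n < N n a y} ∈ 𝓝 (P τ) := by
    refine ((isOpen_lt (continuous_N n a) continuous_const).union
      (isOpen_lt continuous_const (continuous_N n a))).mem_nhds ?_
    rw [hO.frontier_eq] at hf
    by_contra k
    simp only [mem_union, mem_ofPred_eq, not_or, not_lt] at k
    exact hf.2 ⟨by linarith [k.1], by linarith [k.2]⟩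
  obtain ⟨v, hvQ, hv1, hv2, hv3⟩ := dense_Qc.inter_nhds_nonempty (inter_mem
    (eventually_DU_le hm h.isLen_dbl (V_open n a m₀) (V_ne n a m₀) hτV hε)
    (inter_mem ((V_open n a m₀).mem_nhds hτV) hbad))
  obtain ⟨j, hj⟩ := exists_sc_lt (show 0 < w.im from hwU)
  obtain ⟨m, hEb, hmm⟩ := ((hE j).and_eventually (eventually_ge_atTop m₀)).exists
  have hVV : fr n a ∩ above m₀ ⊆ fr n a ∩ above m := inter_subset_inter_right _ (above_mono hmm)
  obtain ⟨x', hx', hle⟩ := hEb w hw (by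
    rw [add_comm]
    exact (sc_add_le j n).trans hj.le)
  have hwV : w ∈ fr n a ∩ above m := hVV (u.src ▸ hV ⟨le_rfl, hτ.1⟩)
  have k1 := hle v ⟨hVV hv2, hvQ⟩ (mem_bad.2 hv3)
  rw [ENNReal.ofReal_one, one_mul, cd_dbl h hwV hx'.2, cd_dbl h hwV (hVV hv2)] at k1
  have k2 : DU (Function.curry (dbl h.met)) (fr n a ∩ above m) w v ≤ ENNReal.ofReal (L + ε) := by
    refine (DU_anti _ hVV w v).trans ((DU_triangle hm _ w (P τ) v).trans ?_)
    rw [ENNReal.ofReal_add u.nonneg hε.le]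
    exact add_le_add (((u.restrict hτ).DU_le hm hV).trans (ENNReal.ofReal_le_ofReal hτ.2)) hv1
  have hx'S := subset_closure (hY hx'.1)
  have k3 : ENNReal.ofReal (d (w, x')) ≤ ENNReal.ofReal ((L + ε) / 2) := by
    rw [ENNReal.ofReal_div_of_pos two_pos, ENNReal.ofReal_ofNat, ← dbl_eq h.met hwS hx'S]
    exact (le_DU hm _ w x').trans (k1.trans (ENNReal.div_le_div_right k2 2))
  have k4 := (ENNReal.ofReal_le_ofReal_iff (by linarith [u.nonneg])).1 k3
  have k5 : d (z, x) ≤ d (z, x') := hc.2 x' hx'.1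
  linarith [h.met.tri z hc.1 w hwS x' hx'S, h.met.tri w hwS z hc.1 x hxS, h.met.symm w hwS z hc.1]

theorem exists_sq {O : Set ℂ} (hO : IsOpen O) (hne : O.Nonempty) :
    ∃ w : Sq, 0 < w.2 ∧ w.c ⊆ O := by
  obtain ⟨y, hy⟩ := hne
  obtain ⟨δ, hδ, hb⟩ := Metric.isOpen_iff.1 hO y hy
  exact ⟨(y, δ / 3), by positivity, fun v hv => hb ((dist_le v y).trans_lt
    (by linarith [hv.1, hv.2]))⟩

theorem isCompact_c (w : Sq) : IsCompact w.c := by
  refine Metric.isCompact_of_isClosed_isBounded (isClosed_csq _ _)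
    ((Metric.isBounded_closedBall (x := w.1) (r := w.2 + w.2)).subset fun v hv => ?_)
  exact (dist_le v w.1).trans (add_le_add hv.1 hv.2)

end SepAux

open SepAux

variable {d : Met} {Y : Set ℂ} {n : ℕ} {a : ℤ}

theorem sepB_of_Eb (h : SurfH d) (hY : Y ⊆ UH) (hE : ∀ j, ∃ᶠ m in atTop, Eb 1 j m d Y n a) :
    SepB (AS.vorS (closure UH) d Y) n a := by
  have hs := sc_pos n
  have hYS : Y ⊆ closure UH := hY.trans subset_closure
  have hc : IsCompact (closure (oR n a 2) ∩ closure UH) :=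
    ((isCompact_cR n a 2).of_isClosed_subset isClosed_closure (closure_oR n a 2)).inter_right
      isClosed_closure
  refine fun x hx => ⟨fun h1 v hv => ?_, fun h1 => disjoint_left.2 fun v hv hv2 => ?_⟩
  · by_contra k
    rw [mem_cR, one_mul] at h1
    obtain ⟨z, z1, z2, z3, -⟩ := h.nearGeo.exit_cell hYS (isOpen_oR n a 2) hc (hYS hx) hv
      (mem_oR.2 (by linarith)) k
    exact key h hY hE hx (Or.inl h1) ⟨closure_oR n a 2 z2, z3⟩ z1
  · rw [mem_oR, not_lt] at h1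
    by_cases k : v ∈ oR n a 2
    · obtain ⟨z, z1, z2, z3, z4⟩ := h.nearGeo.exit (isOpen_oR n a 2) hc hv.1 (hYS hx) k
        fun k' => by linarith [mem_oR.1 k']
      refine key h hY hE hx (Or.inr h1) ⟨closure_oR n a 2 z2, z3⟩
        (h.nearGeo.mem_cell_of_between hYS (hYS hx) z1 hv ?_)
      linarith [h.nearGeo.symm x (hYS hx) z z1, h.nearGeo.symm z z1 v hv.1,
        h.nearGeo.symm x (hYS hx) v hv.1]
    · exact key h hY hE hx (Or.inr h1) ⟨hv2, k⟩ hv

theorem exists_cover_Eb (h : SurfH d) (lam : ℝ) (n : ℕ) (a : ℤ) :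
    ∃ I : Finset Sq, (∀ w ∈ I, 0 < w.2 ∧ w.c ⊆ fr n a) ∧ ∀ j, ∀ᶠ m in atTop, ∀ Y : Set ℂ,
      (∀ w ∈ I, (Y ∩ w.o).Nonempty) → Eb lam j m d Y n a := by
  classical
  have hs := sc_pos n
  have hm := isMet_dbl h.met
  have hl := h.isLen_dbl
  have hΓ : IsCompact (cR n a 2 \ oR n a 2) := (isCompact_cR n a 2).diff (isOpen_oR n a 2)
  obtain ⟨ρ, hρ, hsep⟩ := (LQ.Met.nearGeo hm hl).exists_sep hΓ (subset_univ _) (half_pos hs)
    (by rw [inter_univ]; exact hΓ.cthickening)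
  have far : ∀ w ∈ cR n a 2 \ oR n a 2, ∀ y, N n a y < 3 / 2 * sc n ∨ 5 / 2 * sc n < N n a y →
      ρ ≤ dbl h.met (w, y) := fun w hw y hy => hsep w hw y (mem_univ _) (by
    have k := mem_curve.1 hw
    have k1 := N_le n a y w
    have k2 := N_le n a w y
    rw [dist_comm] at k2
    rcases hy with k3 | k3 <;> linarith)
  set κ := ρ / (2 * (|lam| + 1)) with hκd
  have hκ : 0 < κ := by positivity
  have hκ1 : (|lam| + 1) * κ = ρ / 2 := by
    rw [hκd]
    field_simp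
  have hκ2 : lam * κ ≤ ρ / 2 := by nlinarith [le_abs_self lam]
  have hκ3 : κ ≤ ρ := by nlinarith [abs_nonneg lam]
  have loc : ∀ z ∈ (cR n a 2 \ oR n a 2) ∩ closure UH, ∃ w : Sq, 0 < w.2 ∧
      w.c ⊆ fr n a ∩ {y | dbl h.met (z, y) < κ / 4} := fun z hz => by
    have o1 : IsOpen {y | dbl h.met (z, y) < κ / 4} :=
      isOpen_lt (hm.cont_right z) continuous_const
    refine exists_sq ((isOpen_fr n a).inter o1) ?_
    have k := mem_curve.1 hz.1
    obtain ⟨y, y1, y2⟩ := mem_closure_iff.1 hz.2 _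
      (((isOpen_oR n a 3).sdiff (isClosed_cR n a 1)).inter o1)
      ⟨⟨mem_oR.2 (by linarith), fun k' => by linarith [mem_cR.1 k']⟩,
        (hm.self z).trans_lt (by positivity)⟩
    exact ⟨y, ⟨y1.1, y2⟩, y1.2⟩
  choose! sq hsq0 hsq using loc
  obtain ⟨t, ht, hcov⟩ := (hΓ.inter_right isClosed_closure).elim_nhds_subcover
    (fun z => {y | dbl h.met (z, y) < κ / 4}) fun z _ =>
      (isOpen_lt (hm.cont_right z) continuous_const).mem_nhds
        ((hm.self z).trans_lt (by positivity))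
  have hI : ∀ w ∈ t.image sq, 0 < w.2 ∧ w.c ⊆ fr n a := fun w hw => by
    obtain ⟨z, hz, rfl⟩ := Finset.mem_image.1 hw
    exact ⟨hsq0 z (ht z hz), (hsq z (ht z hz)).trans inter_subset_left⟩
  refine ⟨t.image sq, hI, fun j => ?_⟩
  have hK : IsCompact ((((cR n a 2 \ oR n a 2) ∩ {w | sc (n + j) ≤ w.im}) ×ˢ
      ⋃ w ∈ t.image sq, w.c) ∩ {p : ℂ × ℂ | dbl h.met p ≤ κ / 2}) :=
    ((hΓ.inter_right (isClosed_le continuous_const Complex.continuous_im)).prod
      ((t.image sq).isCompact_biUnion fun w _ => isCompact_c w)).inter_right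
      (isClosed_le (dbl h.met).continuous continuous_const)
  have hmono : Monotone fun m => {p : ℂ × ℂ |
      DU (Function.curry (dbl h.met)) (fr n a ∩ above m) p.1 p.2 < ENNReal.ofReal κ} :=
    fun m m' k p hp => (DU_anti _ (inter_subset_inter_right _ (above_mono k)) _ _).trans_lt hp
  obtain ⟨m₀, hm₀⟩ := hK.elim_directed_cover _
    (fun m => isOpen_DU_lt hm hl (V_open n a m) (V_ne n a m) κ) (fun p hp => by
      obtain ⟨⟨⟨p1, p2⟩, p3⟩, p4⟩ := hp
      obtain ⟨w, hw, p3⟩ := mem_iUnion₂.1 p3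
      have u1 : p.1 ∈ UH := (sc_pos _).trans_le p2
      have u2 : p.2 ∈ UH := ((hI w hw).2 p3).2
      obtain ⟨L, P, u, hU, hL⟩ := exists_geo h u1 u2 (κ := κ) (by
        rw [← dbl_eq h.met (subset_closure u1) (subset_closure u2)]
        exact p4.trans_lt (half_lt_self hκ))
      obtain ⟨m, hab⟩ := exists_above u.cont hU
      refine mem_iUnion.2 ⟨m, (u.DU_le hm (U := fr n a ∩ above m) fun s hs' =>
        ⟨mem_fr.2 ⟨?_, hU hs'⟩, hab hs'⟩).trans_lt ((ENNReal.ofReal_lt_ofReal_iff hκ).2 hL)⟩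
      have k1 : dbl h.met (p.1, P s) ≤ s := u.le_left hm hs'
      have k2 := mt (far p.1 p1 (P s)) (by linarith [hs'.2])
      rw [not_or, not_lt, not_lt] at k2
      exact ⟨by linarith [k2.2], by linarith [k2.1]⟩) hmono.directed_le
  filter_upwards [eventually_ge_atTop m₀] with m hmm Y hYI w hw hwj
  have hwU : w ∈ UH := (sc_pos _).trans_le hwj
  obtain ⟨z, hz, hzw⟩ := mem_iUnion₂.1 (hcov ⟨hw.1, subset_closure hwU⟩)
  have hzI : sq z ∈ t.image sq := Finset.mem_image_of_mem _ hz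
  obtain ⟨x, hxY, hxo⟩ := hYI _ hzI
  have hxc : x ∈ (sq z).c := ⟨hxo.1.le, hxo.2.le⟩
  have k1 : DU (Function.curry (dbl h.met)) (fr n a ∩ above m) w x < ENNReal.ofReal κ := by
    refine hmono hmm (hm₀ (a := (w, x)) ⟨⟨⟨hw.1, hwj⟩, mem_iUnion₂.2 ⟨_, hzI, hxc⟩⟩, ?_⟩)
    have e1 : dbl h.met (z, w) < κ / 4 := hzw
    have e2 : dbl h.met (z, x) < κ / 4 := (hsq z (ht z hz) hxc).2
    have e3 : dbl h.met (w, x) ≤ dbl h.met (w, z) + dbl h.met (z, x) := hm.tri w z x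
    have e4 := dbl_symm h.met w z
    show dbl h.met (w, x) ≤ κ / 2
    linarith
  obtain ⟨hwV, hxV⟩ := mem_of_DU_lt hm k1
  refine ⟨x, ⟨hxY, hxV⟩, fun u hu hb => ?_⟩
  rw [cd_dbl h hwV hxV, cd_dbl h hwV hu.1]
  calc _ ≤ ENNReal.ofReal lam * ENNReal.ofReal κ := by gcongr
    _ ≤ ENNReal.ofReal (ρ / 2) := by
        rw [← ENNReal.ofReal_mul' hκ.le]
        exact ENNReal.ofReal_le_ofReal hκ2
    _ ≤ _ := by
        rw [ENNReal.ofReal_div_of_pos two_pos, ENNReal.ofReal_ofNat]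
        exact ENNReal.div_le_div_right ((ENNReal.ofReal_le_ofReal
          (far w hw.1 u (mem_bad.1 hb))).trans (le_DU hm _ w u)) 2

end Pool.Agent.Lib.MP_0d9445_pr.Bd
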