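import Pool.Agent.Lib.MP_0d9445_pr.Bd.Trans
import Pool.Agent.Lib.MP_0d9445_pr.Bd.SepA

/-! Blocking is likely at large height. -/

open MeasureTheory ProbabilityTheory Set Filter Topology Real LQ.Met
open scoped NNReal ENNReal ComplexConjugate

noncomputable section

namespace Pool.Agent.Lib.MP_0d9445_pr.Bd

open CR PPP Walk

namespace Soft

/-- the part of the frame above height `sc m` -/
abbrev fa (m n : ℕ) (a : ℤ) : Set ℂ := fr n a ∩ above m

theorem isOpen_fa (m n : ℕ) (a : ℤ) : IsOpen (fa m n a) := (isOpen_fr n a).inter (isOpen_above m)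

theorem measurableSet_fa (m n : ℕ) (a : ℤ) : MeasurableSet (fa m n a) :=
  (isOpen_fa m n a).measurableSet

/-- probability that the box is not blocked, for the intensity `τ μ` -/
def nb (lam τ : ℝ) (j m n : ℕ) (a : ℤ) (c : Cf) : ℝ≥0∞ :=
  ppp (EN.cut (fa m n a) τ.toNNReal c.2) {x | ¬ Eb lam j m c.1 (pts x) n a}

variable {lam τ : ℝ} {j m n : ℕ} {a : ℤ}

theorem measurableSet_E (lam : ℝ) (j m n : ℕ) (a : ℤ) :
    MeasurableSet[(GG (fa m n a)).prod inferInstance]
      {q : Cf × Tup | Eb lam j m q.1.1 (pts q.2) n a} := by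
  have h := (measurableSet_Eb lam j m n a).1
  let _ : MeasurableSpace Cf := GG (fa m n a)
  have hf : Measurable fun q : Cf × Tup => ((q.1, q.2, q.2) : Cf × Tup × Tup) :=
    measurable_fst.prodMk (measurable_snd.prodMk measurable_snd)
  exact hf h

theorem measurableSet_E' (lam : ℝ) (j m n : ℕ) (a : ℤ) (c : Cf) :
    MeasurableSet {x : Tup | Eb lam j m c.1 (pts x) n a} := by
  have h := measurableSet_E lam j m n a
  let _ : MeasurableSpace Cf := GG (fa m n a)
  exact measurable_prodMk_left h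

theorem cut_restrict_self {V : Set ℂ} (hV : MeasurableSet V) (t : ℝ≥0) (μ : Measure ℂ) :
    EN.cut V t (μ.restrict V) = EN.cut V t μ := by
  unfold EN.cut
  rw [Measure.restrict_apply_self, Measure.restrict_restrict hV, inter_self]

theorem measurable_nb_GG (lam τ : ℝ) (j m n : ℕ) (a : ℤ) :
    Measurable[GG (fa m n a)] (nb lam τ j m n a) := by
  have h := measurableSet_E lam j m n a
  have h1 := EN.measurable_restrict_GG (fa m n a)
  rw [(isOpen_fa m n a).interior_eq] at h1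
  let _ : MeasurableSpace Cf := GG (fa m n a)
  have h2 : Measurable fun c : Cf => EN.cut (fa m n a) τ.toNNReal c.2 := by
    simpa only [Function.comp_def, cut_restrict_self (measurableSet_fa m n a)] using
      (EN.measurable_cut (measurableSet_fa m n a) τ.toNNReal).comp h1
  exact Kernel.measurable_kernel_prodMk_left (κ := pppK _ h2 fun _ => inferInstance) h.compl

theorem measurable_nb (lam τ : ℝ) (j m n : ℕ) (a : ℤ) : Measurable (nb lam τ j m n a) :=
  (measurable_nb_GG lam τ j m n a).mono (EN.GG_le _) le_rfl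

theorem cut_le_cut {V : Set ℂ} {s t r : ℝ} (hs : 0 ≤ s) (hst : s * r ≤ t) {μ₁ μ₂ : Measure ℂ}
    (h₂ : μ₂ V < ∞) (hle : μ₁.restrict V ≤ ENNReal.ofReal r • μ₂.restrict V) :
    EN.cut V s.toNNReal μ₁ ≤ EN.cut V t.toNNReal μ₂ := by
  rw [EN.cut_of_lt _ h₂]
  unfold EN.cut
  split_ifs
  · intro A
    have := hle A
    simp only [Measure.smul_apply, smul_eq_mul, ENNReal.smul_def] at this ⊢
    refine (mul_le_mul_right this _).trans ?_
    rw [← mul_assoc]
    refine mul_le_mul_left ?_ _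
    show ENNReal.ofReal s * _ ≤ ENNReal.ofReal t
    rw [← ENNReal.ofReal_mul hs]
    exact ENNReal.ofReal_le_ofReal hst
  · exact Measure.zero_le _

theorem ppp_le {lam' : ℝ} {μ₁ μ₂ : Measure ℂ} [IsFiniteMeasure μ₁] [IsFiniteMeasure μ₂]
    (h : μ₂ ≤ μ₁) {c₁ c₂ : Cf}
    (k : ∀ s₁ s₂ : Set ℂ, s₂ ⊆ s₁ → Eb lam' j m c₂.1 s₂ n a → Eb lam j m c₁.1 s₁ n a) :
    ppp μ₁ {x | ¬ Eb lam j m c₁.1 (pts x) n a} ≤ ppp μ₂ {x | ¬ Eb lam' j m c₂.1 (pts x) n a} :=
  EN.ppp_not_anti (Q₁ := fun s => Eb lam j m c₁.1 s n a) (Q₂ := fun s => Eb lam' j m c₂.1 s n a) h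
    (measurableSet_E' _ _ _ _ _ _) (measurableSet_E' _ _ _ _ _ _) k

/-- more points and a comparable metric -/
theorem nb_le {ξ K τ' r : ℝ} {c₁ c₂ : Cf} (h₁ : GoodH c₁.1) (h₂ : GoodH c₂.1) (hl : 0 ≤ lam)
    (hc : MClose ξ K (fa m n a) c₁.1 c₂.1) (hf : c₁.2 (fa m n a) < ∞) (hτ : 0 ≤ τ')
    (hr : τ' * r ≤ τ)
    (hle : c₂.2.restrict (fa m n a) ≤ ENNReal.ofReal r • c₁.2.restrict (fa m n a)) :
    nb lam τ j m n a c₁ ≤ nb (lam * exp (2 * ξ * K)) τ' j m n a c₂ :=
  ppp_le (cut_le_cut hτ hr hf hle) fun _ _ h k => k.mono h₁ h₂ hl hc (inter_subset_left.trans h)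

theorem restrict_le {V A : Set ℂ} (hV : MeasurableSet V) (h : V ⊆ A) {μ₁ μ₂ : Measure ℂ}
    {r : ℝ≥0∞} (hle : μ₁.restrict A ≤ r • μ₂.restrict A) : μ₁.restrict V ≤ r • μ₂.restrict V := by
  have := Measure.restrict_mono (subset_refl V) hle
  rwa [Measure.restrict_smul, Measure.restrict_restrict hV, Measure.restrict_restrict hV,
    inter_eq_left.2 h] at this

theorem fam_nb {ξ γ : ℝ} (hl : 0 ≤ lam) (hτ : 0 ≤ τ) {A : Set ℂ} (hA : fa m n a ⊆ A) :
    Fam ξ γ A fun L => nb (lam * exp (2 * ξ * L)) (τ * exp (-(γ * L))) j m n a where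
  meas L := (measurable_nb_GG _ _ _ _ _ _).mono (EN.GG_mono hA) le_rfl
  le_one L c := prob_le_one
  mono L K c₁ c₂ _ _ h₁ h₂ hf hc := by
    have hV := measurableSet_fa m n a
    have e : lam * exp (2 * ξ * (L + K)) = lam * exp (2 * ξ * L) * exp (2 * ξ * K) := by
      rw [mul_assoc lam, ← exp_add, mul_add]
    rw [e]
    refine nb_le (r := exp (γ * K)) h₁ h₂ (by positivity) (hc.1.mono hA) ?_ (by positivity)
      (le_of_eq ?_) (restrict_le hV hA (EN.le_smul_of_smul_le hc.2.1))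
    · have := restrict_le hV hA hc.2.2 univ
      simp only [Measure.smul_apply, Measure.restrict_apply_univ, smul_eq_mul] at this
      exact this.trans_lt
        (ENNReal.mul_lt_top ENNReal.ofReal_lt_top ((measure_mono hA).trans_lt hf))
    · rw [mul_assoc, ← exp_add]
      congr 2
      ring

/-! ### the model -/

variable {M : Model}

theorem measurable_cfb' (M : Model) (m n : ℕ) (g : Fn) : Measurable (cfb M m n g) :=
  (measurable_cfb M m n).comp measurable_prodMk_left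

theorem Phatb_le (F : M.All) (L : ℝ) {W : Sq} (hW : fr n a ⊆ W.o) (g : Fn) :
    Phatb M L W m n g {x | ¬ EbX M.ξ L j m x n a} ≤
      ∫⁻ c, nb (exp (2 * M.ξ * L)) (exp (-(M.γ * L))) j m n a c ∂Pkb M m n g := by
  have hm : MeasurableSet {x : Xi | ¬ EbX M.ξ L j m x n a} :=
    (EN.GGhat_le _ _ (measurableSet_Eb _ j m n a)).compl
  have e0 : Phatb M L W m n g = Pkb M m n g ⊗ₘ pt2K M.γ L W := by
    rw [Phatb, Kernel.compProd_apply_eq_compProd_sectR]
    rfl
  have hfin : ∀ᵐ c ∂Pkb M m n g, c.2 W.o < ∞ :=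
    (ae_map_iff (measurable_cfb' M m n g).aemeasurable (measurableSet_lt
      ((Measure.measurable_coe (EN.measurableSet_o W)).comp measurable_snd) measurable_const)).2
      ((cfb_good F m n g).mono fun ω hω => EN.lt_top_of_locFin hω.2.1 W)
  rw [e0, Measure.compProd_apply hm]
  refine lintegral_mono_ae (hfin.mono fun c hc => ?_)
  have h1 := measurableSet_E' (exp (2 * M.ξ * L)) j m n a c
  have h2 : MeasurableSet {z : Tup × Tup | ¬ Eb (exp (2 * M.ξ * L)) j m c.1 (pts z.1) n a} :=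
    measurable_fst h1.compl
  have e : pt2K M.γ L W c {z | ¬ Eb (exp (2 * M.ξ * L)) j m c.1 (pts z.1) n a} =
      ppp (inten (exp (-(M.γ * L))) W c) {x | ¬ Eb (exp (2 * M.ξ * L)) j m c.1 (pts x) n a} := by
    rw [EN.pt2K_apply, ← lintegral_indicator_one h2,
      ← lintegral_indicator_one (s := {x | ¬ Eb _ j m c.1 (pts x) n a}) h1.compl]
    exact EN.lintegral_pp2_fst _ _ (measurable_one.indicator h1.compl)
  refine e.trans_le (ppp_le ?_ fun s₁ s₂ h k => k.pts (inter_subset_left.trans h))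
  have hV : fa m n a ⊆ W.o := inter_subset_left.trans hW
  rw [EN.inten_eq, EN.cut_of_lt _ hc, EN.cut_of_lt _ ((measure_mono hV).trans_lt hc)]
  intro A
  exact mul_le_mul_right (Measure.restrict_mono hV le_rfl A) _

theorem mem_fr (n : ℕ) (a a₀ : ℤ) (z : ℂ) :
    (sc n : ℝ) * z + (sc n * (a - a₀) : ℝ) ∈ fr n a ↔ z ∈ fr 0 a₀ := by
  have hs := EN.sc_pos n
  have h0 : sc 0 = 1 := pow_zero _
  have e1 : ((sc n : ℝ) * z + (sc n * (a - a₀) : ℝ) : ℂ).re - sc n * (a + 1 / 2) =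
      sc n * (z.re - (a₀ + 1 / 2)) := by
    rw [Complex.add_re, Complex.re_ofReal_mul, Complex.ofReal_re]
    ring
  have e2 : ((sc n : ℝ) * z + (sc n * (a - a₀) : ℝ) : ℂ).im = sc n * z.im := by
    rw [Complex.add_im, Complex.im_ofReal_mul, Complex.ofReal_im, add_zero]
  simp only [fr, oR, cR, UH, mem_inter_iff, Set.mem_sdiff, mem_ofPred_eq, e1, e2, h0, one_mul, mul_one,
    abs_mul, abs_of_pos hs, mul_comm _ (sc n), mul_lt_mul_iff_right₀ hs, mul_le_mul_iff_right₀ hs,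
    mul_pos_iff_of_pos_left hs]

theorem mem_fa (m n : ℕ) (a a₀ : ℤ) (z : ℂ) :
    (sc n : ℝ) * z + (sc n * (a - a₀) : ℝ) ∈ fa (m + n) n a ↔ z ∈ fa m 0 a₀ := by
  refine and_congr (mem_fr n a a₀ z) ?_
  show sc (m + n) < _ ↔ sc m < _
  rw [Complex.add_im, Complex.im_ofReal_mul, Complex.ofReal_im, add_zero, sc, pow_add, mul_comm]
  exact mul_lt_mul_iff_right₀ (EN.sc_pos n)

theorem nb_pull (a₀ : ℤ) (c : Cf) :
    nb lam τ j m 0 a₀ (pull (sc n : ℝ) (sc n * (a - a₀) : ℝ) c) = nb lam τ j (m + n) n a c := by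
  have h0 : ((sc n : ℝ) : ℂ) ≠ 0 := Complex.ofReal_ne_zero.2 (EN.sc_pos n).ne'
  have hu := EN.measurable_unaff (sc n : ℝ) (sc n * (a - a₀) : ℝ)
  have hp : (fun z : ℂ => (z - (sc n * (a - a₀) : ℝ)) / (sc n : ℝ)) ⁻¹' fa m 0 a₀ =
      fa (m + n) n a := Set.ext fun z => by
    rw [mem_preimage, ← mem_fa m n a a₀, EN.mul_div_add h0]
  have e : EN.cut (fa m 0 a₀) τ.toNNReal (pull (sc n : ℝ) (sc n * (a - a₀) : ℝ) c).2 =
      (EN.cut (fa (m + n) n a) τ.toNNReal c.2).map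
        fun z : ℂ => (z - (sc n * (a - a₀) : ℝ)) / (sc n : ℝ) := by
    show EN.cut _ _ (c.2.map _) = _
    unfold EN.cut
    rw [Measure.map_apply hu (measurableSet_fa _ _ _), Measure.restrict_map hu
      (measurableSet_fa _ _ _), hp]
    split_ifs
    · rw [Measure.map_smul]
    · rw [Measure.map_zero]
  rw [nb, nb, e, ← ppp_map _ hu, Measure.map_apply (measurable_cmap hu)
    (s := {x | ¬ Eb lam j m _ (pts x) 0 a₀}) (measurableSet_E' _ _ _ _ _ _).compl]
  congr 1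
  ext x
  simp only [mem_preimage, mem_ofPred_eq, pts_cmap, Eb_pull]

theorem fr_subset_ball (n : ℕ) (a : ℤ) : fr n a ⊆ Metric.ball (yb n a) (200 * sc n) := by
  intro z hz
  have h := Complex.norm_le_abs_re_add_abs_im (z - yb n a)
  rw [Complex.sub_re, Complex.sub_im, yb, Complex.ofReal_re, Complex.ofReal_im, sub_zero] at h
  rw [mem_ball_iff_norm, yb]
  linarith [hz.1.1.1, hz.1.1.2, EN.sc_pos n]

theorem abs_sub_le_of_ob {g : Fn} {L : ℝ≥0} (hL : ob n a g ≤ L) {z : ℂ} (hz : z ∈ fr n a) :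
    |g z - g (yb n a)| ≤ 200 * L := by
  have hs := EN.sc_pos n
  have h := fr_subset_ball n a hz
  have h1 := edist_le_lip g h (Metric.mem_ball_self (by positivity))
  have h2 : edist z (yb n a) ≤ 200 * ENNReal.ofReal (sc n) := by
    rw [edist_dist, ← ENNReal.ofReal_ofNat, ← ENNReal.ofReal_mul (by norm_num)]
    exact ENNReal.ofReal_le_ofReal (le_of_lt h)
  have h3 : edist (g z) (g (yb n a)) ≤ ((200 * L : ℝ≥0) : ℝ≥0∞) := by
    refine h1.trans ((mul_le_mul_right h2 _).trans ?_)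
    rw [mul_comm, mul_assoc, ENNReal.coe_mul]
    exact mul_le_mul_right hL _
  rw [edist_le_coe, ← NNReal.coe_le_coe] at h3
  simpa [Real.dist_eq] using h3

theorem lt_top_fa {μ : Measure ℂ} (h : IsLocallyFiniteMeasure μ) (m n : ℕ) (a : ℤ) :
    μ (fa m n a) < ∞ :=
  (measure_mono (inter_subset_left.trans ((fr_subset_ball n a).trans
    Metric.ball_subset_closedBall))).trans_lt (isCompact_closedBall _ _).measure_lt_top

/-- comparison of two coarse fields -/
theorem nb_cfb (F : M.All) (hl : 0 ≤ lam) (hτ : 0 ≤ τ) {g₀ g₁ : Fn} {t K : ℝ}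
    (hg : ∀ z ∈ fr n a, |g₀ z - g₁ z - t| ≤ K) (ht : K ≤ t) (k : ℕ) :
    ∫⁻ c, nb lam τ j m n a c ∂Pkb M m k g₀ ≤
      ∫⁻ c, nb (lam * exp (2 * M.ξ * K)) τ j m n a c ∂Pkb M m k g₁ := by
  rw [Pkb_apply, Pkb_apply, lintegral_map (measurable_nb _ _ _ _ _ _) (measurable_cfb' M m k _),
    lintegral_map (measurable_nb _ _ _ _ _ _) (measurable_cfb' M m k _)]
  refine lintegral_mono_ae ?_
  filter_upwards [cfb_good F m k g₀, cfb_good F m k g₁, cfb_weyl F m k g₁ g₀] with ω k0 k1 kw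
  have w1 := isWeylOn_zero k1.1.1 univ
  have w0 := kw.1.isWeylOn k0.1.2
  have hξ := M.ξ_pos.le
  have hγ := M.γ_pos.le
  refine nb_le (r := exp 0) (IsGood.goodH k0.1) (IsGood.goodH k1.1) hl
    ⟨exp (M.ξ * t), exp_pos _, fun w _ hw p => ⟨?_, ?_⟩⟩ (lt_top_fa k0.2.1 _ _ _) hτ
    (by rw [exp_zero, mul_one]) ?_
  · have := EN.T_le_of_weylOn k1.1 k0.1 w1 w0 (w := w) (subset_univ _) (subset_univ _)
      (t := -(M.ξ * t) + M.ξ * K) (fun z hz => by
        nlinarith [mul_le_mul_of_nonneg_left (abs_le.1 (hg z (hw hz).1)).1 hξ]) p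
    have e := mul_le_mul_of_nonneg_left this (exp_pos (M.ξ * t + -(M.ξ * K))).le
    rwa [← mul_assoc, ← exp_add, show M.ξ * t + -(M.ξ * K) + (-(M.ξ * t) + M.ξ * K) = 0 by ring,
      exp_zero, one_mul, exp_add] at e
  · rw [← exp_add]
    exact EN.T_le_of_weylOn k0.1 k1.1 w0 w1 (subset_univ _) (subset_univ _) (fun z hz => by
      nlinarith [mul_le_mul_of_nonneg_left (abs_le.1 (hg z (hw hz).1)).2 hξ]) p
  · have := EN.withDensity_restrict_le (cfb M m k g₁ ω).2 (measurableSet_fa m n a)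
      (f₁ := fun _ => 0) (f₂ := fun z => M.γ * (g₀ z - g₁ z)) (t := 0) fun z hz => by
        nlinarith [mul_le_mul_of_nonneg_left (abs_le.1 (hg z hz.1)).1 hγ,
          mul_le_mul_of_nonneg_left ht hγ]
    rw [← kw.2] at this
    simpa using this

theorem exists_good (M : Model) (a : ℤ) :
    ∃ L : ℕ, Gb M {g | ob 0 a g ≤ L ∧ |g (yb 0 a)| ≤ L} ≠ 0 := by
  by_contra h
  push Not at h
  have h1 : ∀ᵐ g ∂Gb M, ∀ L : ℕ, ¬ (ob 0 a g ≤ L ∧ |g (yb 0 a)| ≤ L) :=
    ae_all_iff.2 fun L => measure_eq_zero_iff_ae_notMem.1 (h L)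
  have : IsProbabilityMeasure M.Ginf := Measure.isProbabilityMeasure_map M.meas_ginf.aemeasurable
  have : IsProbabilityMeasure (Gb M) :=
    Measure.isProbabilityMeasure_map measurable_evF.aemeasurable
  obtain ⟨g, k1, k2⟩ := (h1.and (Gb_ob M 0 a)).exists
  obtain ⟨L₁, hL₁⟩ := ENNReal.exists_nat_gt k2.ne
  obtain ⟨L₂, hL₂⟩ := exists_nat_ge |g (yb 0 a)|
  exact k1 (max L₁ L₂) ⟨hL₁.le.trans (Nat.cast_le.2 (le_max_left _ _)),
    hL₂.trans (Nat.cast_le.2 (le_max_right _ _))⟩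

/-! ### the surface -/

theorem measurable_scale (ξ γ t : ℝ) : Measurable (scale ξ γ t) := by
  refine Measurable.prodMk ((Continuous.measurable (f := fun d : Met => exp (ξ * t) • d)
    (by fun_prop)).comp measurable_fst) (Measure.measurable_of_measurable_coe _ fun s hs => ?_)
  simp only [Measure.smul_apply, smul_eq_mul]
  exact ((Measure.measurable_coe hs).comp measurable_snd).const_mul _

theorem eventually_above {K : Set ℂ} (hK : IsCompact K) (hU : K ⊆ UH) :
    ∀ᶠ m in atTop, K ⊆ above m := by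
  rcases K.eq_empty_or_nonempty with rfl | hne
  · exact Eventually.of_forall fun _ => empty_subset _
  obtain ⟨z, hz, hmin⟩ := hK.exists_isMinOn hne Complex.continuous_im.continuousOn
  have : Tendsto sc atTop (𝓝 0) :=
    tendsto_pow_atTop_nhds_zero_of_lt_one (by norm_num) (by norm_num)
  filter_upwards [this.eventually (gt_mem_nhds (hU hz))] with m hm y hy
  exact lt_of_lt_of_le hm (hmin hy)

theorem mass_fa {μ : Measure ℂ} (h : MassH μ) (m n : ℕ) (a : ℤ) : μ (fa m n a) < ∞ := by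
  refine lt_of_le_of_lt (measure_mono fun z hz => ?_) (h.fin
    (Metric.closedBall (yb n a) (200 * sc n) ∩ {z | sc m ≤ z.im})
    ((isCompact_closedBall _ _).inter_right (isClosed_le continuous_const Complex.continuous_im))
    fun z hz => (EN.sc_pos m).trans_le hz.2)
  exact ⟨Metric.ball_subset_closedBall (fr_subset_ball n a hz.1),
    le_of_lt (show sc m < z.im from hz.2)⟩

theorem tendsto_fixed {ξ γ : ℝ} (hγ : 0 < γ) (hτ : 0 < τ) {c : Cf} (hd : SurfH c.1)
    (hm : MassH c.2) : Tendsto (fun t : ℝ => ⨆ j : ℕ,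
      limsup (fun m => nb lam τ j m n a (scale ξ γ t c)) atTop) atTop (𝓝 0) := by
  obtain ⟨I, hI, hE⟩ := exists_cover_Eb hd lam n a
  have hfr : fr n a ⊆ UH := inter_subset_right
  have hab : ∀ᶠ m in atTop, ∀ w ∈ I, w.c ⊆ above m :=
    (Finset.eventually_all I).2 fun w hw =>
      eventually_above (isCompact_csq _ _) ((hI w hw).2.trans hfr)
  have hle : ∀ t : ℝ, ⨆ j : ℕ, limsup (fun m => nb lam τ j m n a (scale ξ γ t c)) atTop ≤
      ∑ w ∈ I, ENNReal.ofReal (exp (-(τ * (exp (γ * t) * (c.2 w.o).toReal)))) := by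
    intro t
    refine iSup_le fun j => limsup_le_of_le (by isBoundedDefault) ?_
    filter_upwards [hE j, hab] with m h1 h2
    have hsub : {x : Tup | ¬ Eb lam j m (scale ξ γ t c).1 (pts x) n a} ⊆
        ⋃ w ∈ I, {x | pts x ∩ w.o = ∅} := by
      intro x hx
      by_contra h
      simp only [mem_iUnion, mem_ofPred_eq, not_exists] at h
      exact hx ((Eb_smul (exp_pos _)).2 (h1 _ fun w hw => nonempty_iff_ne_empty.2 (h w hw)))
    refine (measure_mono hsub).trans ((measure_biUnion_finset_le _ _).trans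
      (Finset.sum_le_sum fun w hw => le_of_eq ?_))
    have hw' : w.o ⊆ fa m n a :=
      (osq_subset_csq _ _).trans (subset_inter (hI w hw).2 (h2 w hw))
    have hfin : (scale ξ γ t c).2 (fa m n a) < ∞ :=
      ENNReal.mul_lt_top ENNReal.ofReal_lt_top (mass_fa hm m n a)
    rw [ppp_void _ (EN.measurableSet_o w), EN.cut_of_lt _ hfin, Measure.smul_apply,
      Measure.restrict_apply (EN.measurableSet_o w), inter_eq_left.2 hw', ENNReal.smul_def,
      smul_eq_mul, ENNReal.toReal_mul, ENNReal.coe_toReal, Real.coe_toNNReal _ hτ.le]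
    show ENNReal.ofReal (exp (-(τ * (ENNReal.ofReal (exp (γ * t)) * c.2 w.o).toReal))) = _
    rw [ENNReal.toReal_mul, ENNReal.toReal_ofReal (exp_pos _).le]
  refine tendsto_of_tendsto_of_tendsto_of_le_of_le tendsto_const_nhds ?_ (fun _ => zero_le) hle
  rw [← Finset.sum_const_zero (s := I)]
  refine tendsto_finsetSum _ fun w hw => ?_
  rw [← ENNReal.ofReal_zero]
  refine ENNReal.tendsto_ofReal (tendsto_exp_atBot.comp (tendsto_neg_atTop_atBot.comp ?_))
  refine Tendsto.const_mul_atTop hτ ((tendsto_exp_atTop.comp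
    (tendsto_id.const_mul_atTop hγ)).atTop_mul_const (ENNReal.toReal_pos ?_ ?_))
  · exact hm.pos _ (isOpen_osq _ _) ((osq_subset_csq _ _).trans ((hI w hw).2.trans hfr))
      ⟨w.1, by constructor <;> simpa using (hI w hw).1⟩
  · exact ((measure_mono (osq_subset_csq _ _)).trans_lt
      (hm.fin _ (isCompact_csq _ _) ((hI w hw).2.trans hfr))).ne

theorem exists_height {Ω : Type} [MeasurableSpace Ω] {P : Measure Ω} [IsProbabilityMeasure P]
    {s : Ω → Cf} (hs : Measurable s) (h : ∀ᵐ ω ∂P, SurfH (s ω).1 ∧ MassH (s ω).2) {ξ γ : ℝ}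
    (hγ : 0 < γ) (hτ : 0 < τ) {δ : ℝ≥0∞} (hδ : 0 < δ) : ∃ t : ℝ, ∀ j : ℕ, ∀ᶠ m in atTop,
      ∫⁻ ω, nb lam τ j m n a (scale ξ γ t (s ω)) ∂P ≤ δ := by
  have hm : ∀ t j m, Measurable fun ω => nb lam τ j m n a (scale ξ γ t (s ω)) := fun t j m =>
    ((measurable_nb _ _ _ _ _ _).comp (measurable_scale ξ γ t)).comp hs
  have := tendsto_lintegral_filter_of_dominated_convergence (μ := P) (l := atTop)
    (F := fun (t : ℝ) ω => ⨆ j : ℕ, limsup (fun m => nb lam τ j m n a (scale ξ γ t (s ω))) atTop)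
    (f := fun _ => 0) (fun _ => 1)
    (Eventually.of_forall fun t => Measurable.iSup fun j => Measurable.limsup (hm t j))
    (Eventually.of_forall fun t => ae_of_all _ fun ω => iSup_le fun j =>
      limsup_le_of_le (by isBoundedDefault) (Eventually.of_forall fun m => prob_le_one))
    (by simp) (h.mono fun ω k => tendsto_fixed hγ hτ k.1 k.2)
  rw [lintegral_zero] at this
  obtain ⟨t, ht⟩ := (this.eventually (gt_mem_nhds hδ)).exists
  refine ⟨t, fun j => (eventually_lt_of_limsup_lt (lt_of_le_of_lt ?_ ht)).mono fun _ k => k.le⟩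
  exact (limsup_lintegral_le (fun _ => 1) (hm t j) (fun m => ae_of_all _ fun ω => prob_le_one)
    (by simp)).trans (lintegral_mono fun ω => le_iSup (fun j : ℕ =>
      limsup (fun m => nb lam τ j m n a (scale ξ γ t (s ω))) atTop) j)

theorem exists_window {Z : Set ℂ} (hZ : Z.Finite) :
    ∃ (a : ℤ) (W : Sq), Wok Z W ∧ fr 0 a ⊆ W.o := by
  obtain ⟨R, hR⟩ := hZ.isBounded.subset_closedBall 0
  obtain ⟨a, ha⟩ := exists_int_gt (R + 100)
  have h0 : sc 0 = 1 := pow_zero _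
  refine ⟨a, (⟨a + 1 / 2, 100⟩, 100), ⟨by norm_num, fun z hz => ?_,
    disjoint_left.2 fun z hz hz' => ?_⟩, fun z hz => ?_⟩
  · have := (abs_lt.1 hz.2).1
    show 0 < z.im
    linarith
  · have h1 := (abs_le.1 hz.1).1
    have h2 := (Complex.re_le_norm z).trans (mem_closedBall_zero_iff.1 (hR hz'))
    simp only at h1
    linarith
  · have h1 := hz.1.1.1
    have h2 := (abs_lt.1 hz.1.1.2).2
    have h3 : 0 < z.im := hz.2
    rw [h0] at h1 h2
    exact ⟨by simp only [one_mul] at h1 ⊢; linarith, abs_lt.2 ⟨by simp only; linarith,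
      by simp only; linarith⟩⟩

end Soft

open Soft

variable {M : Model} {Ω : Type} [MeasurableSpace Ω] {P P₀ : Measure Ω} {h φ : Ω → Field}
  {g f₁ : Ω → ℂ → ℝ} {Z : Set ℂ} {d : Ω → Met} {m : Ω → Measure ℂ}

/-- soft blocking for the box of level zero -/
theorem BSurf.soft_zero (F : M.All) (hS : BSurf M P P₀ h φ g f₁ Z d m) {lam τ : ℝ} (hl : 0 ≤ lam)
    (hτ : 0 < τ) (K : ℝ) {ε : ℝ≥0∞} (hε : 0 < ε) : ∃ (a : ℤ) (T : ℝ), ∀ j : ℕ,
      ∀ᶠ k in atTop, ∀ (u : Fn) (t : ℝ), (∀ z ∈ fr 0 a, |u z - t| ≤ K) → T ≤ t →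
        ∫⁻ c, nb lam τ j k 0 a c ∂Pkb M k 0 u ≤ ε := by
  obtain ⟨a, W, hW, hfr⟩ := exists_window hS.fin
  obtain ⟨L₁, hβ⟩ := exists_good M a
  set G : Set Fn := {g | ob 0 a g ≤ L₁ ∧ |g (yb 0 a)| ≤ L₁} with hG
  have hGm : MeasurableSet G := (measurableSet_le (measurable_ob 0 a) measurable_const).inter
    (measurableSet_le (EN.measurable_fn _).abs measurable_const)
  have : IsProbabilityMeasure M.Ginf := Measure.isProbabilityMeasure_map M.meas_ginf.aemeasurable
  have : IsProbabilityMeasure (Gb M) :=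
    Measure.isProbabilityMeasure_map measurable_evF.aemeasurable
  have := hS.prob
  obtain ⟨L, δ, -, hδ, hT⟩ := hS.transB F hW (ε * Gb M G) (ENNReal.mul_pos hε.ne' hβ)
  obtain ⟨t₀, ht₀⟩ := exists_height (lam := lam * exp (2 * M.ξ * (K + 201 * L₁)) *
    exp (2 * M.ξ * L)) (τ := τ * exp (-(M.γ * L))) (n := 0) (a := a) (ξ := M.ξ)
    (hS.surf.measd.prodMk hS.surf.measm) (hS.surfH.and (hS.massH F)) M.γ_pos (by positivity) hδ
  refine ⟨a, t₀ + (K + 201 * L₁), fun j => ?_⟩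
  filter_upwards [hT, ht₀ j] with k h1 h2 u t hu ht
  have h3 := h1 _ (fam_nb (lam := lam * exp (2 * M.ξ * (K + 201 * L₁))) (j := j) (by positivity)
    hτ.le (inter_subset_inter_left _ hfr)) t₀ h2
  simp only [mul_zero, neg_zero, exp_zero, mul_one] at h3
  rw [← ENNReal.mul_le_mul_iff_left hβ (measure_ne_top _ _), ← setLIntegral_const]
  refine le_trans ((setLIntegral_mono' hGm fun g' hg' => ?_).trans
    (setLIntegral_le_lintegral _ _)) h3
  refine nb_cfb F hl hτ.le (t := t - t₀) (fun z hz => ?_) (by linarith) 0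
  have k1 := abs_le.1 (hu z hz)
  have k2 := abs_le.1 (abs_sub_le_of_ob (L := L₁) hg'.1 hz)
  have k3 := abs_le.1 hg'.2
  rw [NNReal.coe_natCast] at k2
  rw [ContinuousMap.add_apply, ContinuousMap.const_apply, abs_le]
  constructor <;> linarith [k1.1, k1.2, k2.1, k2.2, k3.1, k3.2]

theorem BSurf.softB (F : M.All) (hS : BSurf M P P₀ h φ g f₁ Z d m) : SoftB M := by
  intro L _ W ε L' hε
  obtain ⟨a₀, T, hT⟩ := hS.soft_zero F (exp_pos (2 * M.ξ * L)).le (exp_pos (-(M.γ * L)))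
    (200 * L') hε
  refine ⟨T, fun N j => ?_⟩
  refine ((finite_Iic N).eventually_all (l := atTop) (p := fun n k => ∀ a u, fr n a ⊆ W.o →
    ob n a u ≤ L' → T ≤ cc M.Q n (yb n a) u →
      Phatb M L W k n u {x | ¬ EbX M.ξ L j k x n a} ≤ ε)).2 fun n _ => ?_
  filter_upwards [(tendsto_sub_atTop_nat n).eventually (hT j), eventually_ge_atTop n]
    with k h1 hk a u hW ho hc
  obtain ⟨k, rfl⟩ := Nat.exists_eq_add_of_le' hk
  rw [Nat.add_sub_cancel] at h1
  refine (Phatb_le F L hW u).trans ?_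
  simp only [← nb_pull a₀]
  rw [← lintegral_map (measurable_nb _ _ _ _ _ _) (EN.measurable_pull _ _), Pkb_cov F]
  refine h1 _ _ (fun z hz => ?_) hc
  rw [EN.res_sc, cc, sub_sub_sub_cancel_right]
  exact abs_sub_le_of_ob ho ((mem_fr n a a₀ z).2 hz)

end Pool.Agent.Lib.MP_0d9445_pr.Bd
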