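import Pool.Agent.Lib.MP_0d9445_pr.Bd.Basic
import Pool.Agent.Lib.MP_0d9445_pr.AS.Inst

/-! A surface on the half-plane is a surface of the assembly. -/

open MeasureTheory ProbabilityTheory Set Filter Topology Real LQ.Met
open scoped NNReal ENNReal ComplexConjugate

noncomputable section

namespace Pool.Agent.Lib.MP_0d9445_pr.Bd

open CR PPP Walk

variable {M : Model} {Ω : Type} [MeasurableSpace Ω] {P P₀ : Measure Ω} {h φ : Ω → Field}
  {g f₁ : Ω → ℂ → ℝ} {Z : Set ℂ} {d : Ω → Met} {m : Ω → Measure ℂ} {Y : ℝ≥0 → Ω → Set ℂ} {N : Set ℂ}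

theorem surfOf_open : IsOpen UH := isOpen_lt continuous_const Complex.continuous_im

theorem surfOf_T_nonpos {d : Met} (hd : ∀ c, d (c, c) = 0) {w : Sq} (hw : w.2 ≤ 0) (p : ℂ × ℂ) :
    T w d p = 0 := by
  have e : ∀ z, proj w z = ⟨w.1.re - w.2, w.1.im - w.2⟩ := fun z => by
    unfold proj
    rw [max_eq_left ((min_le_left _ _).trans (by linarith)),
      max_eq_left ((min_le_left _ _).trans (by linarith))]
  show min (d (proj w p.1, proj w p.2)) (sInf ((fun u => d (proj w p.1, u)) '' frontier w.o)) = 0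
  rw [Sq.o, EN.osq_eq_empty _ hw, frontier_empty, image_empty, Real.sInf_empty, e, e, hd, min_self]

/-- inside the half-plane the surface is a Weyl scaling with a length metric of the plane -/
theorem BSurf0.surfOf_dbl (hS : BSurf0 M P P₀ h φ g f₁ Z d m) : ∀ᵐ ω ∂P, ∃ d' : Met,
    IsGood (d', m ω) ∧ (∀ w : Sq, w.o ⊆ UH → T w (d ω) = T w d') ∧
    (∀ U, IsOpen U → U ⊆ UH → IsWeylOn (fun z => M.ξ * (g ω z + f₁ ω z))
      (Function.curry (M.D (h ω))) (Function.curry d') U) ∧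
    ∀ w : Sq, w.o ⊆ UH → (m ω).restrict w.o = ((M.μ (h ω)).withDensity fun z =>
      ENNReal.ofReal (exp (M.γ * (g ω z + f₁ ω z)))).restrict w.o := by
  filter_upwards [hS.surfH, hS.diag, hS.surf.weyl, hS.surf.area] with ω a1 a2 a3 a4
  obtain ⟨d', b1, b2, b3⟩ := a1.goodH
  refine ⟨d', ⟨b1, b2⟩, fun w hw => ?_, fun U hU hU' x hx y hy => ?_, fun w hw => ?_⟩
  · rcases le_or_gt w.2 0 with h0 | h0
    · exact ContinuousMap.ext fun p => by rw [surfOf_T_nonpos a2 h0, EN.T_of_nonpos b1 h0]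
    · exact (T_congr h0 hw b3).symm
  · exact (DU_congr (fun a ha b hb => b3 a (subset_closure (hU' ha)) b
      (subset_closure (hU' hb))) x y).trans (a3 U hU hU' x hx y hy)
  · have hm := EN.measurableSet_o w
    rw [a4, Measure.map_id, restrict_withDensity hm, restrict_withDensity hm,
      Measure.restrict_restrict hm, inter_eq_left.2 hw]

theorem BSurf0.surfOf_ldom (hS : BSurf0 M P P₀ h φ g f₁ Z d m) {V : Set ℂ}
    (hl : Su.LocAC P h (fun ω z => g ω z + f₁ ω z) V) (hV : closure V ⊆ UH) :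
    M.LDom P (fun ω => (d ω, m ω)) V := by
  obtain ⟨ft, W, -, hW, hVW, he, hd⟩ := M.locAC_spec hS.pair.gff.meas hl
  refine hd.congr ?_
  filter_upwards [he, hS.surfOf_dbl] with ω ⟨e, _, _, g2, w2, m2⟩ ⟨d', g1, t1, w1, m1⟩ w hw
  have k1 : closure w.o ⊆ W ∩ UH := (closure_mono hw).trans (subset_inter hVW hV)
  have k2 : w.o ⊆ UH := fun z hz => (k1 (subset_closure hz)).2
  have w1' := w1 _ (hW.inter surfOf_open) inter_subset_right
  have e' : ∀ z ∈ w.o, ft ω z = g ω z + f₁ ω z := fun z hz => e (k1 (subset_closure hz)).1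
  refine Prod.ext ((t1 w k2).trans (ContinuousMap.ext fun p => le_antisymm ?_ ?_)) ?_
  · simpa only [exp_zero, one_mul, loc] using EN.T_le_of_weylOn g1 g2 w1'
      (w2.isWeylOn g2.2) k1 (subset_univ _) (t := 0) (fun z hz => by rw [e' z hz, add_zero]) p
  · simpa only [exp_zero, one_mul, loc] using EN.T_le_of_weylOn g2 g1
      (w2.isWeylOn g2.2) w1' (subset_univ _) k1 (t := 0) (fun z hz => by rw [e' z hz, add_zero]) p
  · change (m ω).restrict w.o = (M.μ (addFn (h ω) (ft ω))).restrict w.o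
    have hm := EN.measurableSet_o w
    rw [m1 w k2, m2, restrict_withDensity hm, restrict_withDensity hm]
    exact withDensity_congr_ae ((ae_restrict_mem hm).mono fun z hz => by simp only [e' z hz])

theorem BSurf0.surfOf_close (hS : BSurf0 M P P₀ h φ g f₁ Z d m) {W : Sq} (hW : W.c ⊆ UH) :
    ∀ᵐ ω ∂P, ∃ k : ℕ, Close M.ξ M.γ k W (d ω, m ω) (M.conf (h ω)) := by
  obtain ⟨ν, hν, ac⟩ := hS.law
  have g1 : ∀ᵐ ω ∂P, IsGood (M.conf (h ω)) := ae_of_ae_map (p := fun H => IsGood (M.conf H))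
    hS.pair.gff.meas.aemeasurable (ac.ae_le (M.ae_good hν.1.plus))
  have hW' := (osq_subset_csq W.1 W.2).trans hW
  filter_upwards [g1, hS.contOn, hS.surfOf_dbl] with ω a1 a2 ⟨d', b1, b2, b3, b4⟩
  obtain ⟨K, hK⟩ := (isCompact_csq W.1 W.2).exists_bound_of_continuousOn (a2.mono hW)
  obtain ⟨⟨κ, hκ, c1⟩, c2⟩ := EN.close_of_weylOn (t := 0) (f₂ := fun _ => 0) (m := M.μ (h ω))
    (U₂ := univ) (K := (⌈K⌉₊ : ℕ)) M.ξ_pos.le M.γ_pos.le b1 a1 (b3 _ surfOf_open subset_rfl)
    (by simpa only [mul_zero, Model.conf] using isWeylOn_zero a1.1 univ)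
    ((AS.inst_closure W).trans hW) (subset_univ _) (by simpa only [add_zero] using b4 W hW')
    (by
      simp only [mul_zero, exp_zero, ENNReal.ofReal_one, Model.conf]
      rw [show (fun _ : ℂ => (1 : ℝ≥0∞)) = 1 from rfl, withDensity_one])
    fun z hz => by
      rw [add_zero, sub_zero]
      exact (hK z (osq_subset_csq _ _ hz)).trans (Nat.le_ceil K)
  refine ⟨⌈K⌉₊, ⟨κ, hκ, fun w hw p => ?_⟩, c2⟩
  rw [show T w (d ω, m ω).1 = T w d' from b2 w (hw.trans hW')]
  exact c1 w hw p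

/-- local absolute continuity of the configuration off the set `N` -/
def ACH (M : Model) (P : Measure Ω) (s : Ω → Cf) (N : Set ℂ) : Prop :=
  ∀ z ∈ UH \ N, ∃ W : Sq, z ∈ W.o ∧ W.c ⊆ UH ∧ AS.AC M P s W

theorem BSurf0.ach (hS : BSurf0 M P P₀ h φ g f₁ Z d m)
    (hac : LocH P h (fun ω z => g ω z + f₁ ω z) N) : ACH M P (fun ω => (d ω, m ω)) N := by
  intro z hz
  obtain ⟨r, hr, h1, h2⟩ := hac z hz.1 hz.2
  exact ⟨(z, r), ⟨by simpa using hr, by simpa using hr⟩, h1,
    hS.surfOf_ldom h2 ((AS.inst_closure (z, r)).trans h1)⟩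

theorem BSurf0.surfOf (F : M.All) (R : AS.RefOK M) (hS : BSurf0 M P P₀ h φ g f₁ Z d m)
    (hY : ∀ l, IsPPP P d m l (Y l)) (hU : ∀ l ω, Y l ω ⊆ UH) (hN : IsClosed N)
    (hN0 : volume N = 0) (hac : ACH M P (fun ω => (d ω, m ω)) N) :
    AS.Surf M P (closure UH) UH N (fun ω => (d ω, m ω)) Y := by
  obtain ⟨ν, hν, ac⟩ := hS.law
  have hh := hS.pair.gff.meas
  have ac0 : P.map (fun ω => M.conf (h ω)) ≪ M.ref0 := by
    have := ac.map M.measurable_conf
    rwa [F.eu ν hν.1 hν.2, Measure.map_map M.measurable_conf hh,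
      Measure.map_map M.measurable_conf M.meas_hat] at this
  have hU' : ∀ l ω, Y l ω ⊆ closure UH := fun l ω => (hU l ω).trans subset_closure
  exact ⟨hS.prob, hS.surf.measd.prodMk hS.surf.measm, isClosed_closure, surfOf_open,
    subset_closure, hN, hN0, hS.surfH.mono fun ω a => a.nearGeo, fun l => by simp [hU'],
    fun l W hW => hS.cox F (hY l) (EN.measurableSet_o W)
      ((isBounded_csq _ _).subset (osq_subset_csq _ _)) ((AS.inst_closure W).trans hW),
    fun W hW => ⟨_, M.measurable_conf.fun_comp hh, ac0, hS.surfOf_close hW⟩, hac⟩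

end Pool.Agent.Lib.MP_0d9445_pr.Bd
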