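import Pool.Agent.Lib.MP_0d9445_pr.Bd.WIface
import Pool.Agent.Lib.MP_0d9445_pr.Bd.Conf

noncomputable section

open MeasureTheory ProbabilityTheory Set Filter Topology
open scoped NNReal ENNReal Classical

namespace Pool.Agent.Lib.MP_0d9445_pr.Bd

open BM Cell Walk

namespace PgConf

end PgConf

theorem Conf_of : Conf := by
  intro χ χi O E U μ u φ u' φ' hC hμ hU hUH _ _ _ hφ' he h
  refine WeakSol.conf (D := UH) (χi := χi) (isOpen_lt continuous_const Complex.continuous_im)
    hC.holo hC.meas (fun w hw => hC.inv w (subset_closure hw)) (hC.cont.mono ?_) hU hUH hμ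
    (fun w hw => (he w hw).1) (fun w hw => (he w hw).2) hφ' h
  rw [← hC.image']
  exact image_mono subset_closure

end Pool.Agent.Lib.MP_0d9445_pr.Bd
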