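import Pool.Agent.Lib.MP_0d9445_pr.Bd.Defs
import Pool.Agent.Lib.MP_0d9445_pr.Walk.Iface

/-! The stopped time-changed motion read through a chart. -/

noncomputable section

open MeasureTheory ProbabilityTheory Set Filter Topology
open scoped NNReal ENNReal

namespace Pool.Agent.Lib.MP_0d9445_pr.Bd

open BM Cell Walk

namespace PullA

variable {χ χi : ℂ → ℂ} {O E K U : Set ℂ} {μ : Measure ℂ} {W : Measure Path}
  {A : Path → StieltjesFunction ℝ≥0}

theorem isOpen_UH : IsOpen UH := isOpen_lt continuous_const Complex.continuous_im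

theorem inj (hc : Chart χ χi O E) : InjOn χ (closure UH) := fun a ha b hb h => by
  rw [← hc.inv a ha, h, hc.inv b hb]

theorem notMem_E (hc : Chart χ χi O E) {y : ℂ} (hy : y ∈ O) : y ∉ E := fun h => by
  have h1 := hc.bdry h
  rw [hc.isOpen.frontier_eq] at h1
  exact h1.2 hy

theorem sub_O (hc : Chart χ χi O E) : O ⊆ closure O \ E := fun _ hy =>
  ⟨subset_closure hy, notMem_E hc hy⟩

theorem image_sub (hc : Chart χ χi O E) (hU : U ⊆ UH) : χ '' U ⊆ O :=
  hc.image ▸ image_mono hU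

theorem isOpen_image (hc : Chart χ χi O E) (hU : IsOpen U) (hUH : U ⊆ UH) : IsOpen (χ '' U) := by
  have h1 : χ '' U = O ∩ χi ⁻¹' U := by
    refine Subset.antisymm ?_ fun y hy => ?_
    · rintro _ ⟨w, hw, rfl⟩
      exact ⟨image_sub hc hUH (mem_image_of_mem _ hw), by
        rw [mem_preimage, hc.inv w (subset_closure (hUH hw))]; exact hw⟩
    · obtain ⟨w, hw, rfl⟩ := hc.image.ge hy.1
      have h2 := hy.2
      rw [mem_preimage, hc.inv w (subset_closure hw)] at h2
      exact mem_image_of_mem _ h2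
  rw [h1]
  exact (hc.cont.mono (sub_O hc)).isOpen_inter_preimage hc.isOpen hU

theorem isCompact_image (hc : Chart χ χi O E) (hK : IsCompact K) (hKH : K ⊆ UH) :
    IsCompact (χ '' K) :=
  hK.image_of_continuousOn (hc.lip.continuousOn.mono (hKH.trans subset_closure))

theorem frost_map (hc : Chart χ χi O E) (h0 : μ UHᶜ = 0) (hK : IsCompact K) (hKH : K ⊆ UH)
    (hF : Frost μ K) : Frost (μ.map χ) (χ '' K) := by
  have hK' := (isCompact_image hc hK hKH).measurableSet
  have key : ∀ B B' : Set ℂ, MeasurableSet B → (∀ v ∈ K, χ v ∈ B → v ∈ B') →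
      μ.map χ (B ∩ χ '' K) ≤ μ (B' ∩ K) := fun B B' hB h => by
    rw [Measure.map_apply hc.meas (hB.inter hK')]
    refine measure_mono_ae ?_
    filter_upwards [show ∀ᵐ v ∂μ, v ∈ UH from h0] with v hv hv'
    obtain ⟨w, h1, h2⟩ := hv'.2
    obtain rfl := inj hc (subset_closure (hKH h1)) (subset_closure hv) h2
    exact ⟨h w h1 hv'.1, h1⟩
  obtain ⟨h1, C, α, r₀, h2, h3, h4⟩ := hF
  obtain ⟨R, hR⟩ := hK.isBounded.subset_closedBall 0
  obtain ⟨L, hL⟩ := hc.lipi R
  have hL0 : (0 : ℝ) < L + 1 := by positivity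
  refine ⟨?_, C * (L + 1) ^ α, α, r₀ / (L + 1), h2, by positivity, ?_⟩
  · simpa using (key univ univ MeasurableSet.univ fun _ _ _ => mem_univ _).trans_lt (by simpa using h1)
  · rintro _ ⟨w, hw, rfl⟩ r h5 h6
    rw [mul_assoc, ← Real.mul_rpow hL0.le h5.le]
    refine (key _ (Metric.ball w ((L + 1) * r)) measurableSet_ball fun v hv h7 => ?_).trans
      (h4 w hw _ (by positivity) (by rwa [le_div_iff₀' hL0] at h6))
    have h8 := hL.dist_le_mul _ (mem_image_of_mem χ ⟨subset_closure (hKH hv), hR hv⟩) _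
      (mem_image_of_mem χ ⟨subset_closure (hKH hw), hR hw⟩)
    rw [hc.inv v (subset_closure (hKH hv)), hc.inv w (subset_closure (hKH hw))] at h8
    rw [Metric.mem_ball] at h7 ⊢
    nlinarith [L.coe_nonneg]

theorem exists_ext (hK : IsClosed K) {κ : ℂ → ℂ} (hκ : ContinuousOn κ K) {g : ℂ → ℝ}
    (hg : Continuous g) : ∃ g' : ℂ → ℝ, Continuous g' ∧ ∀ y ∈ K, g' y = g (κ y) := by
  obtain ⟨g', h⟩ := ContinuousMap.exists_restrict_eq hK
    (⟨fun y : K => g (κ y), hg.comp hκ.domRestrict⟩ : C(K, ℝ))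
  exact ⟨g', g'.continuous, fun y hy => DFunLike.congr_fun h ⟨y, hy⟩⟩

theorem core (hB10 : B10) (hW : IsWiener W) (hc : Chart χ χi O E) (h0 : μ UHᶜ = 0)
    (hK : IsCompact K) (hKH : K ⊆ UH) (hF : Frost μ K) (hU : IsOpen U) (hUK : U ⊆ K) {y : ℂ}
    (hy : y ∈ U) (hA : IsClock W (μ.map χ) O (χ y) A) {κ : ℂ → ℂ} (hκ : Measurable κ)
    (hκ' : ∀ w ∈ O, κ w = χi w)
    (hConf : ∀ u φ u' φ' : ℂ → ℝ, Continuous u → Continuous φ → Continuous u' → Continuous φ' →
      (∀ w ∈ U, u' (χ w) = u w ∧ φ' (χ w) = φ w) → WeakSol U μ u φ →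
      WeakSol (χ '' U) (μ.map χ) u' φ') :
    IsProbabilityMeasure (Px W (χ y)) ∧
    PathPack (Px W (χ y)) U y (fun t ω => κ (lbmPath ω (A ω) (χ '' U) t))
      (fun ω => exitClock ω (A ω) (χ '' U)) ∧
    ∀ u φ, Continuous u → Continuous φ → WeakSol U μ u φ →
      MartPair (Px W (χ y)) (fun t ω => κ (lbmPath ω (A ω) (χ '' U) t))
        (fun ω => exitClock ω (A ω) (χ '' U)) u φ := by
  have hK' := isCompact_image hc hK hKH
  have hU' := isOpen_image hc hU (hUK.trans hKH)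
  have hO := image_sub hc hKH
  have hi : ∀ w ∈ K, κ (χ w) = w := fun w hw => by
    rw [hκ' _ (hO (mem_image_of_mem _ hw)), hc.inv w (subset_closure (hKH hw))]
  have hcont : ContinuousOn κ (χ '' K) :=
    (hc.cont.mono (hO.trans (sub_O hc))).congr fun w hw => hκ' w (hO hw)
  have hcl : closure U ⊆ K := closure_minimal hUK hK.isClosed
  have hcl' : closure (χ '' U) ⊆ χ '' closure U := closure_minimal (image_mono subset_closure)
    (isCompact_image hc (hK.of_isClosed_subset isClosed_closure hcl) (hcl.trans hKH)).isClosed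
  obtain ⟨h1, h2, h3⟩ := hB10 W (μ.map χ) O (χ '' K) (χ '' U) (χ y) A hW hA hK' hO
    (frost_map hc h0 hK hKH hF) hU' (image_mono hUK) (mem_image_of_mem _ hy)
  have hin : ∀ᵐ (ω : Path) ∂Px W (χ y), ∀ t, lbmPath ω (A ω) (χ '' U) t ∈ χ '' K := by
    filter_upwards [h2.path] with ω ⟨_, _, _, g1, g2⟩ t
    rcases lt_or_ge t (exitClock ω (A ω) (χ '' U)) with h | h
    · exact image_mono hUK (g1 t h)
    · exact image_mono hcl (hcl' (frontier_subset_closure (g2 t h)))
  refine ⟨h1, ⟨fun t => hκ.comp_aemeasurable (h2.measY t), h2.measσ, ?_⟩,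
    fun u φ hu hφ hw k τ f s t hf hτ hs hst => ?_⟩
  · filter_upwards [h2.path, hin] with ω ⟨g0, g1, g2, g3, g4⟩ g5
    refine ⟨hcont.comp_continuous g0 g5, by rw [g1, hi y (hUK hy)], g2, fun t ht => ?_,
      fun t ht => ?_⟩
    · obtain ⟨w, g6, g7⟩ := g3 t ht
      rw [← g7, hi w (hUK g6)]
      exact g6
    · have g6 := g4 t ht
      rw [hU'.frontier_eq] at g6
      obtain ⟨w, g7, g8⟩ := hcl' g6.1
      rw [← g8, hi w (hcl g7), hU.frontier_eq]
      exact ⟨g7, fun h => g6.2 (g8 ▸ mem_image_of_mem _ h)⟩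
  · obtain ⟨u', a1, a2⟩ := exists_ext hK'.isClosed hcont hu
    obtain ⟨φ', b1, b2⟩ := exists_ext hK'.isClosed hcont hφ
    choose f' c1 c2 using fun i => exists_ext hK'.isClosed hcont (hf i)
    have h4 := h3 u' φ' a1 b1 (hConf u φ u' φ' hu hφ a1 b1 (fun w hw => by
      rw [a2 _ (mem_image_of_mem _ (hUK hw)), b2 _ (mem_image_of_mem _ (hUK hw)), hi w (hUK hw)]
      exact ⟨rfl, rfl⟩) hw) k τ f' s t c1 hτ hs hst
    refine Eq.trans (integral_congr_ae ?_) h4
    filter_upwards [hin] with ω g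
    simp only [a2 _ (g _), b2 _ (g _), c2 _ _ (g _)]

theorem frost_restrict (hF : Frost μ K) (V : Set ℂ) : Frost (μ.restrict V) K := by
  obtain ⟨h1, C, α, r₀, h2, h3, h4⟩ := hF
  exact ⟨(Measure.restrict_le_self _).trans_lt h1, C, α, r₀, h2, h3, fun x hx r h5 h6 =>
    (Measure.restrict_le_self _).trans (h4 x hx r h5 h6)⟩

theorem restrict_compl (μ : Measure ℂ) : μ.restrict UH UHᶜ = 0 := by
  rw [Measure.restrict_apply isOpen_UH.measurableSet.compl, compl_inter_self, measure_empty]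

theorem weakSol_restrict (hU : U ⊆ UH) {u φ : ℂ → ℝ} (h : WeakSol U μ u φ) :
    WeakSol U (μ.restrict UH) u φ := fun v hv => by
  rw [h v hv, setIntegral_eq_integral_of_forall_compl_eq_zero fun w hw => ?_]
  rw [image_eq_zero_of_notMem_tsupport fun h' => hw (hU (hv.supp h')), zero_mul]

theorem lowMass_map (hc : Chart χ χi O E) {w : ℂ} (hw : w ∈ UH) (h : LowMass μ w) :
    LowMass ((μ.restrict UH).map χ) (χ w) := by
  obtain ⟨c, β, h1, h2⟩ := h
  obtain ⟨δ, hδ, h3⟩ := Metric.isOpen_iff.mp isOpen_UH w hw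
  refine ⟨c / 2 ^ β, β, by positivity, fun ε hε => ?_⟩
  obtain ⟨r, g1, g2, g3⟩ := h2 (min (ε / 2) δ) (by positivity)
  have g4 := g2.trans_le (min_le_left _ _)
  have g5 := (Metric.ball_subset_ball (g2.le.trans (min_le_right _ _))).trans h3
  refine ⟨2 * r, by positivity, by linarith, ?_⟩
  rw [Real.mul_rpow two_pos.le g1.le, ← mul_assoc, div_mul_cancel₀ _ (by positivity),
    Measure.map_apply hc.meas measurableSet_ball,
    Measure.restrict_apply (hc.meas measurableSet_ball)]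
  refine g3.trans (measure_mono fun v hv => ⟨?_, g5 hv⟩)
  have g6 := hc.lip.dist_le_mul v (subset_closure (g5 hv)) w (subset_closure hw)
  rw [Metric.mem_ball] at hv
  rw [mem_preimage, Metric.mem_ball]
  push_cast at g6
  linarith

end PullA

open PullA in
/-- the clock in the domain of a chart, from every starting point -/
theorem clock_chart {χ χi : ℂ → ℂ} {O E Z : Set ℂ} {μ : Measure ℂ} {W : Measure Path}
    {A : Path → StieltjesFunction ℝ≥0} (hW : IsWiener W) (hc : Chart χ χi O E) (hZ : Z.Finite)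
    (hA : IsPCAF W ((μ.restrict UH).map χ) A) (hL : ∀ᵐ y : ℂ, y ∈ UH → LowMass μ y)
    (hF : ∀ K, IsCompact K → K ⊆ UH \ Z → Frost μ K) (x : ℂ) :
    IsClock W ((μ.restrict UH).map χ) O x A := by
  have hU : IsOpen (UH \ Z) := isOpen_UH.sdiff hZ.isClosed
  have hN : volume (χ '' ({y | ¬ (y ∈ UH → LowMass μ y)} ∩ UH)) = 0 :=
    addHaar_image_eq_zero_of_differentiableOn_of_addHaar_eq_zero volume
      ((hc.holo.restrictScalars ℝ).mono inter_subset_right)
      (measure_mono_null inter_subset_left (ae_iff.mp hL))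
  have h0 := pos_ae hW hA (isOpen_image hc hU sdiff_subset) (fun K hK hKO => ?_) ?_
  · have h1 : ∀ᵐ y : ℂ, y ∈ O → ∀ᵐ ω ∂Px W y, ∀ t, t ≠ 0 → 0 < A ω t := by
      filter_upwards [h0, measure_eq_zero_iff_ae_notMem.1 ((hZ.image χ).measure_zero volume)]
        with y h hy hyO
      obtain ⟨w, hw, rfl⟩ := hc.image.ge hyO
      exact h (mem_image_of_mem _ ⟨hw, fun h' => hy (mem_image_of_mem _ h')⟩)
    obtain ⟨L, -, hLx, hLa⟩ := hA.additive
    exact ⟨hA, (hLx x).mono fun ω hω => ⟨(hLa ω hω).2.1, (hLa ω hω).1⟩,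
      (hA.strict hW hc.isOpen h1 x).mono fun ω hω s t hst h => hω s t hst (h s hst.le),
      (hc.exit W x hW).mono fun ω hω t => hω.imp fun _ => Or.inr⟩
  · have h2 : ∀ y ∈ K, χi y ∈ UH \ Z ∧ χ (χi y) = y := fun y hy => by
      obtain ⟨w, hw, rfl⟩ := hKO hy
      rw [hc.inv w (subset_closure hw.1)]
      exact ⟨hw, rfl⟩
    have h3 : IsCompact (χi '' K) := hK.image_of_continuousOn
      (hc.cont.mono ((hKO.trans (image_sub hc sdiff_subset)).trans (sub_O hc)))
    have h4 : χi '' K ⊆ UH \ Z := image_subset_iff.mpr fun y hy => (h2 y hy).1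
    have h5 := frost_map hc (restrict_compl μ) h3 (h4.trans sdiff_subset)
      (frost_restrict (hF _ h3 h4) UH)
    rwa [image_image, image_congr fun y hy => (h2 y hy).2, image_id'] at h5
  · filter_upwards [measure_eq_zero_iff_ae_notMem.1 hN] with y hy ⟨w, hw, hw'⟩
    subst hw'
    exact lowMass_map hc hw.1 (by_contra fun h => hy (mem_image_of_mem _ ⟨fun h' => h (h' hw.1), hw.1⟩))

end Pool.Agent.Lib.MP_0d9445_pr.Bd
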