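import Pool.Agent.Lib.MP_0d9445_pr.Bd.WIface
import Pool.Agent.Lib.MP_0d9445_pr.Bd.PullA

noncomputable section

open MeasureTheory ProbabilityTheory Set Filter Topology
open scoped NNReal ENNReal Classical

namespace Pool.Agent.Lib.MP_0d9445_pr.Bd

open BM Cell Walk

namespace PgDrvC

open PullA

variable {χ χi : ℂ → ℂ} {O E U : Set ℂ}

theorem kap_eq {y : ℂ} (hy : y ∈ closure O \ E) : kap χi O E y = χi y := if_pos hy

theorem measurable_kap (hc : Chart χ χi O E) : Measurable (kap χi O E) :=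
  hc.cont.measurable_piecewise (g := fun _ => -Complex.I) continuousOn_const
    (isClosed_closure.measurableSet.diff hc.fin.measurableSet)

theorem kap_chi (hc : Chart χ χi O E) {w : ℂ} (hw : w ∈ closure UH) : kap χi O E (χ w) = w := by
  rw [kap_eq (hc.image'.le (mem_image_of_mem _ hw)), hc.inv w hw]

theorem kap_mem (hc : Chart χ χi O E) (hU : U ⊆ UH) (y : ℂ) : kap χi O E y ∈ U ↔ y ∈ χ '' U := by
  by_cases hy : y ∈ closure O \ E
  · obtain ⟨w, hw, rfl⟩ := hc.image'.ge hy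
    rw [kap_chi hc hw]
    exact ((inj hc).mem_image_iff (hU.trans subset_closure) hw).symm
  · rw [kap, if_neg hy]
    refine iff_of_false (fun h => ?_) fun h =>
      hy (hc.image'.le (image_mono (hU.trans subset_closure) h))
    have h1 : (0 : ℝ) < (-Complex.I).im := hU h
    norm_num at h1

theorem lbm_kap (hc : Chart χ χi O E) (hU : U ⊆ UH) (b : ℝ≥0 → ℂ) (a : ℝ≥0 → ℝ) (t : ℝ) :
    lbmPath (fun s => kap χi O E (b s)) a U t = kap χi O E (lbmPath b a (χ '' U) t) := by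
  simp only [lbmPath, kap_mem hc hU]

theorem clock_kap (hc : Chart χ χi O E) (hU : U ⊆ UH) (b : ℝ≥0 → ℂ) (a : ℝ≥0 → ℝ) :
    exitClock (fun s => kap χi O E (b s)) a U = exitClock b a (χ '' U) := by
  simp only [exitClock, kap_mem hc hU]

end PgDrvC

open PgDrvC PullA in
theorem DrvC_of (hB10 : B10) (hPolar : Polar) (hConf : Conf) : DrvC := by
  intro W χ χi O E Z μ A z hW hc hZ h0 hF hA hz
  have hzO : χ z ∈ O := hc.image.le (mem_image_of_mem _ hz.1)
  have key := fun (K U : Set ℂ) (hK : IsCompact K) (hKH : K ⊆ UH \ Z) (hU : IsOpen U)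
      (hUK : U ⊆ K) (y : ℂ) (hy : y ∈ U) =>
    core hB10 hW hc h0 hK (hKH.trans sdiff_subset) (hF K hK hKH) hU hUK hy
      (hA _ (hc.image.le (mem_image_of_mem _ (hKH (hUK hy)).1))) (measurable_kap hc)
      (fun w hw => kap_eq (sub_O hc hw)) fun u φ u' φ' =>
        hConf χ χi O E U μ u φ u' φ' hc h0 hU ((hUK.trans hKH).trans sdiff_subset)
  have good : ∀ᵐ (ω : Path) ∂Px W (χ z), ∃ S : ℝ≥0, ω S ∉ O ∧
      ∀ s ≤ S, ω s ∈ closure O \ E ∧ kap χi O E (ω s) ∉ Z := by
    have h1 := (ae_ball_iff hc.fin.countable).mpr fun e he =>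
      hPolar W (χ z) e hW fun h => notMem_E hc hzO (h ▸ he)
    have h2 := (ae_ball_iff (hZ.subset (inter_subset_left (t := closure UH))).countable).mpr
      fun p hp => hPolar W (χ z) (χ p) hW fun h =>
        hz.2 (inj hc (subset_closure hz.1) hp.2 h ▸ hp.1)
    filter_upwards [h1, h2, hc.exit W (χ z) hW, hW.ae_Px_zero (χ z)] with ω g1 g2 ⟨t, g3⟩ g4
    have g5 : exitT O ω < ∞ := (exitT_le_of_notMem g3).trans_lt ENNReal.coe_lt_top
    refine ⟨_, notMem_exitT hc.isOpen g5, fun s hs => ?_⟩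
    have g6 : ω s ∈ closure O \ E := ⟨mem_closure_of_le_exitT (g4 ▸ subset_closure hzO)
      ((ENNReal.coe_le_coe.mpr hs).trans ENNReal.coe_toNNReal_le_self), fun h => g1 _ h s rfl⟩
    refine ⟨g6, fun h => ?_⟩
    obtain ⟨w, g7, g8⟩ := hc.image'.ge g6
    rw [← g8, kap_chi hc g7] at h
    exact g2 w ⟨h, g7⟩ s g8.symm
  refine ⟨hW.prob_Px _, ⟨fun K hK hKH U hU hUK y hy => ⟨_, _, _, key K U hK hKH hU hUK y hy⟩,
    fun U hU hb hUH hzU => ?_, ?_⟩, ?_⟩
  · have hU' : U ⊆ UH := (subset_closure.trans hUH).trans sdiff_subset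
    simp only [lbm_kap hc hU', clock_kap hc hU']
    exact (key _ U hb.isCompact_closure hUH hU subset_closure z hzU).2
  · filter_upwards [good] with ω ⟨S, g1, g2⟩
    refine ⟨S, by rwa [kap_mem hc Subset.rfl, hc.image], ?_, fun s hs => (g2 s hs).2⟩
    exact (hc.cont.congr fun y hy => kap_eq hy).comp ω.continuous.continuousOn
      fun s hs => (g2 s hs.2).1
  · filter_upwards [good] with ω ⟨S, g1, g2⟩ t
    rw [lbm_kap hc Subset.rfl, hc.image]
    obtain ⟨w, g3, g4⟩ := hc.image'.ge (show lbmPath ω (A ω) O t ∈ closure O \ E from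
      (g2 _ (csInf_le (OrderBot.bddBelow _) (Or.inr g1))).1)
    rw [← g4, kap_chi hc g3]
    exact ⟨g3, rfl⟩

end Pool.Agent.Lib.MP_0d9445_pr.Bd
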