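import Pool.Agent.Lib.MP_0d9445_pr.Bd.Defs
import Pool.Agent.Lib.MP_0d9445_pr.Bd.BeurWalk
import Pool.Agent.Lib.MP_0d9445_pr.Walk.PfCell
import Pool.Agent.Lib.MP_0d9445_pr.Walk.PfLocal

/-! Starting points from which the stopped walk does not move much; comparison of two stopping
rules. -/

noncomputable section

open MeasureTheory ProbabilityTheory Set Filter Topology
open scoped NNReal ENNReal Classical

namespace Pool.Agent.Lib.MP_0d9445_pr.Walk

open BM Cell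

/-- `G` is Lipschitz for the uniform distance of sequences with values in `S`. -/
def SupLip (S : Set ℂ) (Lc : ℝ) (G : (ℕ → ℂ) → ℝ) : Prop :=
  ∀ (w w' : ℕ → ℂ) (r : ℝ), (∀ i, w i ∈ S) → (∀ i, w' i ∈ S) → (∀ i, ‖w i - w' i‖ ≤ r) →
    |G w - G w'| ≤ Lc * r

/-- The walk from `x` stays within `R` of `x`, up to an error `η`. -/
def Sticky (S : Set ℂ) (St : ℂ → Set ℂ) (x : ℂ) (R η : ℝ) : Prop :=
  ∀ (L : ℕ) (G : (ℕ → ℂ) → ℝ) (c Lc : ℝ), (∀ w, |G w| ≤ c) → 0 ≤ Lc → SupLip S Lc G →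
    |walkExp St L x G - G fun _ => x| ≤ Lc * R + c * η

theorem SupLip.cons {S : Set ℂ} {Lc : ℝ} {G : (ℕ → ℂ) → ℝ} (h : SupLip S Lc G) {x : ℂ}
    (hx : x ∈ S) : SupLip S Lc fun w => G (consPath x w) := by
  intro w w' r hw hw' hr
  refine h _ _ r (fun i => ?_) (fun i => ?_) fun i => ?_
  · cases i with
    | zero => exact hx
    | succ i => exact hw i
  · cases i with
    | zero => exact hx
    | succ i => exact hw' i
  · cases i with
    | zero => simpa [consPath] using (norm_nonneg _).trans (hr 0)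
    | succ i => exact hr i

theorem SupLip.mono {S S' : Set ℂ} {Lc : ℝ} {G : (ℕ → ℂ) → ℝ} (h : SupLip S Lc G) (hS : S' ⊆ S) :
    SupLip S' Lc G := fun w w' r hw hw' hr => h w w' r (fun i => hS (hw i)) (fun i => hS (hw' i)) hr

theorem Sticky.mono {S : Set ℂ} {St : ℂ → Set ℂ} {x : ℂ} {R R' η η' : ℝ} (h : Sticky S St x R η)
    (hR : R ≤ R') (hη : η ≤ η') : Sticky S St x R' η' := fun L G c Lc hG hL hS => by
  have hc : 0 ≤ c := (abs_nonneg _).trans (hG fun _ => 0)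
  exact (h L G c Lc hG hL hS).trans
    (add_le_add (mul_le_mul_of_nonneg_left hR hL) (mul_le_mul_of_nonneg_left hη hc))

/-- The walk from a fixed point of the step rule is constant. -/
theorem walkExp_fixed {St : ℂ → Set ℂ} {x : ℂ} (h : St x = {x}) (L : ℕ) :
    ∀ G : (ℕ → ℂ) → ℝ, walkExp St L x G = G fun _ => x := by
  induction L with
  | zero => intro G; rfl
  | succ L ih =>
    intro G
    show ((St x).ncard : ℝ)⁻¹ * ∑ᶠ y ∈ St x, walkExp St L y (fun w => G (consPath x w)) = _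
    rw [h, ncard_singleton, finsum_mem_singleton, ih]
    have : consPath x (fun _ => x) = fun _ => x := funext fun i => by cases i <;> rfl
    simp [this]

theorem sticky_fixed {S : Set ℂ} {St : ℂ → Set ℂ} {x : ℂ} (h : St x = {x}) {R η : ℝ} (hR : 0 ≤ R)
    (hη : 0 ≤ η) : Sticky S St x R η := fun L G c Lc hG hL _ => by
  have hc : 0 ≤ c := (abs_nonneg _).trans (hG fun _ => 0)
  rw [walkExp_fixed h, sub_self, abs_zero]
  positivity

theorem avg_diff_le {T : Set ℂ} (hT : T.Finite) (hn : T.Nonempty) {a b e : ℂ → ℝ} {k c : ℝ}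
    (h : ∀ y ∈ T, |a y - b y| ≤ k + c * e y) :
    |(T.ncard : ℝ)⁻¹ * ∑ᶠ y ∈ T, a y - (T.ncard : ℝ)⁻¹ * ∑ᶠ y ∈ T, b y| ≤
      k + c * ((T.ncard : ℝ)⁻¹ * ∑ᶠ y ∈ T, e y) := by
  have hp : (0 : ℝ) < T.ncard := by exact_mod_cast (ncard_pos hT).2 hn
  rw [finsum_mem_eq_finite_toFinset_sum _ hT, finsum_mem_eq_finite_toFinset_sum _ hT,
    finsum_mem_eq_finite_toFinset_sum _ hT, ← mul_sub, ← Finset.sum_sub_distrib, abs_mul,
    abs_of_pos (inv_pos.2 hp)]
  have h1 : |∑ y ∈ hT.toFinset, (a y - b y)| ≤ T.ncard * k + c * ∑ y ∈ hT.toFinset, e y := by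
    refine (Finset.abs_sum_le_sum_abs _ _).trans
      ((Finset.sum_le_sum fun y hy => h y (hT.mem_toFinset.1 hy)).trans (le_of_eq ?_))
    rw [Finset.sum_add_distrib, Finset.sum_const, ← Finset.mul_sum, nsmul_eq_mul,
      ncard_eq_toFinset_card T hT]
  refine (mul_le_mul_of_nonneg_left h1 (inv_pos.2 hp).le).trans (le_of_eq ?_)
  field_simp

/-- Two step rules that agree on `I`, the first one stopping off `I`: the expectations are close
when the first walk stops at sticky points of the second one. -/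
theorem compare_sticky' (hW : WalkBasics) {S I Rs B : Set ℂ} {St St' : ℂ → Set ℂ}
    (hcl : Closed St Rs) (hS : Rs ⊆ S) (h1 : ∀ y ∈ Rs, y ∈ I → St y = St' y)
    (h2 : ∀ y ∈ Rs, y ∉ I → St y = {y}) {R η : ℝ} (hR : 0 ≤ R) (hη : 0 ≤ η)
    (hst : ∀ y ∈ Rs, y ∉ I → y ∉ B → Sticky S St' y R η) {c Lc : ℝ} (hL : 0 ≤ Lc) (L : ℕ) :
    ∀ x ∈ Rs, ∀ G : (ℕ → ℂ) → ℝ, (∀ w, |G w| ≤ c) → SupLip S Lc G →
      |walkExp St L x G - walkExp St' L x G| ≤
        Lc * R + c * η + 2 * c * walkExp St L x fun w => if w L ∈ B then 1 else 0 := by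
  have out : ∀ L : ℕ, ∀ x ∈ Rs, x ∉ I → ∀ G : (ℕ → ℂ) → ℝ, (∀ w, |G w| ≤ c) → SupLip S Lc G →
      |walkExp St L x G - walkExp St' L x G| ≤
        Lc * R + c * η + 2 * c * walkExp St L x fun w => if w L ∈ B then 1 else 0 := by
    intro L x hx hI G hG hlip
    have hc : 0 ≤ c := (abs_nonneg _).trans (hG fun _ => 0)
    rw [walkExp_fixed (h2 x hx hI), walkExp_fixed (h2 x hx hI)]
    by_cases hB : x ∈ B
    · rw [if_pos hB]
      have k1 := hW.abs_le St' L x G c hG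
      have k2 := hG fun _ => x
      have k3 := abs_sub (G fun _ => x) (walkExp St' L x G)
      have k4 : 0 ≤ Lc * R + c * η := by positivity
      linarith
    · rw [if_neg hB, abs_sub_comm, mul_zero, add_zero]
      exact hst x hx hI hB L G c Lc hG hL hlip
  induction L with
  | zero =>
    intro x hx G hG hlip
    have hc : 0 ≤ c := (abs_nonneg _).trans (hG fun _ => 0)
    show |(G fun _ => x) - G fun _ => x| ≤ _ + 2 * c * if x ∈ B then 1 else 0
    rw [sub_self, abs_zero]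
    split_ifs <;> positivity
  | succ L ih =>
    intro x hx G hG hlip
    by_cases hI : x ∈ I
    · obtain ⟨k1, k2, k3⟩ := hcl x hx
      show |((St x).ncard : ℝ)⁻¹ * ∑ᶠ y ∈ St x, walkExp St L y (fun w => G (consPath x w)) -
        ((St' x).ncard : ℝ)⁻¹ * ∑ᶠ y ∈ St' x, walkExp St' L y (fun w => G (consPath x w))| ≤
        _ + 2 * c * (((St x).ncard : ℝ)⁻¹ * ∑ᶠ y ∈ St x, walkExp St L y
          fun w => if w L ∈ B then 1 else 0)
      rw [← h1 x hx hI]
      exact avg_diff_le k1 k2 fun y hy => ih y (k3 hy) _ (fun w => hG _) (hlip.cons (hS hx))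
    · exact out _ x hx hI G hG hlip

theorem step_congr (C : Cells) {U U' : Set ℂ} {y : ℂ} (h : C.H y ⊆ U ↔ C.H y ⊆ U') :
    C.step U y = C.step U' y := by
  ext v
  simp only [Cells.step, mem_ofPred_eq, h]

theorem step_out (C : Cells) {U : Set ℂ} {y : ℂ} (h : ¬ C.H y ⊆ U) : C.step U y = {y} := by
  ext v
  simp only [Cells.step, mem_ofPred_eq, h, false_and, not_false_eq_true, true_and, false_or,
    mem_singleton_iff]

/-- The walk stopped on leaving `U` and a walk that agrees with it inside `U`. -/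
theorem compare_sticky (hW : WalkBasics) (C : Cells) {S U Rs B : Set ℂ} {St : ℂ → Set ℂ}
    (hU : ∀ y ∈ Rs, C.H y ⊆ U → St y = C.step U y)
    (hcl : Closed (C.step U) Rs) (hS : Rs ⊆ S) {R η : ℝ} (hR : 0 ≤ R) (hη : 0 ≤ η)
    (hst : ∀ y ∈ Rs, ¬ C.H y ⊆ U → y ∉ B → Sticky S St y R η) {c Lc : ℝ} (hL : 0 ≤ Lc)
    (L : ℕ) {x : ℂ} (hx : x ∈ Rs) {G : (ℕ → ℂ) → ℝ} (hG : ∀ w, |G w| ≤ c) (hlip : SupLip S Lc G) :
    |walkExp (C.step U) L x G - walkExp St L x G| ≤
      Lc * R + c * η + 2 * c * walkExp (C.step U) L x fun w => if w L ∈ B then 1 else 0 :=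
  compare_sticky' hW (I := {y | C.H y ⊆ U}) hcl hS (fun y hy hI => (hU y hy hI).symm)
    (fun _ _ hy => step_out C hy) hR hη hst hL L x hx G hG hlip

/-- A small exit probability from a small set makes the start sticky. -/
theorem sticky_of_exit (hW : WalkBasics) {S I Rs : Set ℂ} {St St' : ℂ → Set ℂ}
    (hcl : Closed St Rs) (hS : Rs ⊆ S) (h1 : ∀ y ∈ Rs, y ∈ I → St y = St' y) {x : ℂ} (hx : x ∈ Rs)
    {R p : ℝ} (hR : 0 ≤ R) (hI : ∀ y ∈ Rs, y ∈ I → ‖y - x‖ ≤ R)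
    (hp : ∀ L, walkExp St L x (fun w => if ∃ i ≤ L, w i ∉ I then 1 else 0) ≤ p) :
    Sticky S St' x R (4 * p) := by
  intro L G c Lc hG hL hlip
  have hc : 0 ≤ c := (abs_nonneg _).trans (hG fun _ => 0)
  obtain ⟨I', hI'⟩ : ∃ I', I' = Rs ∩ I := ⟨_, rfl⟩
  have k1 := hW.stop St St' Rs I' L x G c hcl hx
    (fun y hy => h1 y (hI' ▸ hy : y ∈ Rs ∩ I).1 (hI' ▸ hy : y ∈ Rs ∩ I).2) hG
  have k2 : walkExp St L x (fun w => if ∃ i < L, w i ∉ I' then 1 else 0) ≤ p := by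
    refine le_trans (hW.mono St Rs L x _ _ hcl hx fun w hw => ?_) (hp L)
    split_ifs with e1 e2
    · exact le_rfl
    · obtain ⟨i, hi, hn⟩ := e1
      exact absurd ⟨i, hi.le, fun hh => hn (hI' ▸ ⟨hW.traj_mem St Rs L x w hcl hx hw i, hh⟩)⟩ e2
    · exact zero_le_one
    · exact le_rfl
  have k3 : ∀ w, IsTraj St L x w →
      |G w - G fun _ => x| ≤ Lc * R + 2 * c * if ∃ i ≤ L, w i ∉ I then 1 else 0 := by
    intro w hw
    have hm := hW.traj_mem St Rs L x w hcl hx hw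
    split_ifs with e
    · have e1 := abs_sub (G w) (G fun _ => x)
      have e2 := hG w
      have e3 := hG fun _ => x
      have e4 : 0 ≤ Lc * R := by positivity
      linarith
    · rw [mul_zero, add_zero]
      refine hlip _ _ R (fun i => hS (hm i)) (fun _ => hS hx) fun i => hI _ (hm i) ?_
      by_contra hn
      rcases le_total i L with hi | hi
      · exact e ⟨i, hi, hn⟩
      · exact e ⟨L, le_rfl, hw.2.2 i hi ▸ hn⟩
  have k4 : ∀ a : ℝ, walkExp St L x
      (fun w => a + 2 * c * if ∃ i ≤ L, w i ∉ I then 1 else 0) ≤ a + 2 * c * p := fun a => by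
    rw [hW.add St Rs L x _ _ hcl hx, hW.const St Rs L x _ hcl hx, hW.smul St Rs L x _ _ hcl hx]
    exact add_le_add le_rfl (mul_le_mul_of_nonneg_left (hp L) (by positivity))
  have k5 : walkExp St L x G ≤ (G fun _ => x) + Lc * R + 2 * c * p :=
    le_trans (hW.mono St Rs L x _ _ hcl hx fun w hw => by
      linarith [(abs_le.1 (k3 w hw)).2]) (k4 _)
  have k6 : (-1) * walkExp St L x G ≤ -(G fun _ => x) + Lc * R + 2 * c * p := by
    rw [← hW.smul St Rs L x _ _ hcl hx]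
    exact le_trans (hW.mono St Rs L x _ _ hcl hx fun w hw => by
      linarith [(abs_le.1 (k3 w hw)).1]) (k4 _)
  have k7 := mul_le_mul_of_nonneg_left k2 (show 0 ≤ 2 * c by positivity)
  obtain ⟨k8, k9⟩ := abs_le.1 (k1.trans k7)
  rw [abs_le]
  constructor <;> linarith

/-- Lipschitz functionals of the polygonal path through the images of the positions. -/
theorem supLip_interp (hIp : Ip) {S : Set ℂ} {χ : ℂ → ℂ} {Lχ L : ℝ≥0} (hχ : LipschitzOnWith Lχ χ S)
    {T m : ℝ} (hm : 0 < m) {F : C(Icc (0 : ℝ) T, ℂ) → ℝ} (hF : LipschitzWith L F) :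
    SupLip S (L * Lχ) fun w => F (toC T (interp m fun i => χ (w i))) := by
  intro w w' r hw hw' hr
  have hr0 : 0 ≤ r := (norm_nonneg _).trans (hr 0)
  have hc : ∀ v : ℕ → ℂ, Continuous fun t : Icc (0 : ℝ) T => interp m v t := fun v =>
    (hIp m v hm).1.comp (f := fun t : Icc (0 : ℝ) T => (⟨t.1, t.2.1⟩ : Ici (0 : ℝ)))
      (continuous_subtype_val.subtype_mk _)
  have h1 : ∀ i, ‖χ (w i) - χ (w' i)‖ ≤ Lχ * r := fun i => by
    have := hχ.dist_le_mul _ (hw i) _ (hw' i)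
    rw [dist_eq_norm, dist_eq_norm] at this
    exact this.trans (mul_le_mul_of_nonneg_left (hr i) Lχ.2)
  rw [← Real.dist_eq, mul_assoc]
  refine (hF.dist_le_mul _ _).trans (mul_le_mul_of_nonneg_left ?_ L.2)
  unfold toC
  rw [dif_pos (hc _), dif_pos (hc _)]
  refine (ContinuousMap.dist_le (by positivity)).2 fun t => ?_
  have h0 : 0 ≤ m * t := mul_nonneg hm.le t.2.1
  have a1 : 0 ≤ m * t - ⌊m * (t : ℝ)⌋₊ := sub_nonneg.2 (Nat.floor_le h0)
  have a2 : 0 ≤ 1 - (m * t - ⌊m * (t : ℝ)⌋₊) := by linarith [Nat.lt_floor_add_one (m * t)]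
  simp only [ContinuousMap.coe_mk, dist_eq_norm, interp]
  set k := ⌊m * (t : ℝ)⌋₊
  set s : ℝ := m * t - k
  have e : χ (w k) + (s : ℂ) * (χ (w (k + 1)) - χ (w k)) -
      (χ (w' k) + (s : ℂ) * (χ (w' (k + 1)) - χ (w' k))) =
      ((1 - s : ℝ) : ℂ) * (χ (w k) - χ (w' k)) + (s : ℂ) * (χ (w (k + 1)) - χ (w' (k + 1))) := by
    push_cast
    ring
  rw [e]
  refine (norm_add_le _ _).trans ?_
  rw [norm_mul, norm_mul, Complex.norm_real, Complex.norm_real, Real.norm_of_nonneg a1,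
    Real.norm_of_nonneg a2]
  nlinarith [mul_le_mul_of_nonneg_left (h1 k) a2, mul_le_mul_of_nonneg_left (h1 (k + 1)) a1]

end Pool.Agent.Lib.MP_0d9445_pr.Walk

namespace Pool.Agent.Lib.MP_0d9445_pr.Bd

open Walk Cell

theorem closure_UH : closure UH = {w : ℂ | 0 ≤ w.im} := Complex.closure_setOfPred_lt_im 0

theorem isOpen_UH : IsOpen UH := isOpen_lt continuous_const Complex.continuous_im

/-- Beurling estimate at one point of the real line. -/
theorem EnvB.sticky_at (hW : WalkBasics) {Z : Set ℂ} {C : ℕ → Cells} (hE : EnvB Z C)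
    (hm : ∀ n, ∀ x ∈ (C n).V, x ∈ (C n).H x) {St : ℕ → ℂ → Set ℂ}
    (hSt : ∀ K, IsCompact K → K ⊆ closure UH → ∀ᶠ n in atTop, ∀ y ∈ (C n).V, y ∈ K →
      St n y = (C n).step UH y) {t : ℝ} (ht : (t : ℂ) ∉ Z) {R η : ℝ} (hR : 0 < R)
    (hη : 0 < η) : ∃ δ > 0, ∀ᶠ n in atTop, ∀ x ∈ (C n).V, x ∈ sqC t δ →
      Sticky (closure UH) (St n) x R η := by
  obtain ⟨Cst, r₀, hr₀, hxy⟩ := hE.xy t ht
  set ρ : ℝ := min r₀ (R / 4) with hρ
  have hρ0 : 0 < ρ := lt_min hr₀ (by positivity)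
  have hρ1 : ρ ≤ r₀ := min_le_left _ _
  have hρ2 : ρ ≤ R / 4 := min_le_right _ _
  obtain ⟨k, hk⟩ := exists_nat_gt (128 * Cst * (4 * Cst) / (η / 4) ^ 2)
  have hk0 : 0 < k := by
    have : (0 : ℝ) ≤ 128 * Cst * (4 * Cst) / (η / 4) ^ 2 :=
      div_nonneg (by nlinarith [sq_nonneg Cst]) (sq_nonneg _)
    exact_mod_cast this.trans_lt hk
  have hkp : (0 : ℝ) < k := by exact_mod_cast hk0
  have hp : √(128 * Cst * (4 * Cst) / ((Finset.range k).card : ℕ)) ≤ η / 4 := by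
    rw [Finset.card_range]
    refine Real.sqrt_le_iff.2 ⟨by positivity, ?_⟩
    rw [div_lt_iff₀ (by positivity)] at hk
    rw [div_le_iff₀ hkp]
    linarith
  set K : Set ℂ := sqC t ρ ∩ closure UH with hK
  have hKc : IsCompact K := (PfCell.isCompact_sqC t ρ).inter_right isClosed_closure
  have hδ : 0 < ρ / 2 / 4 ^ k := by positivity
  have ht0 : |t - t| ≤ r₀ := by simpa using hr₀.le
  have hsc : ∀ j : ℕ, 2 * (ρ / 2 / 4 ^ j) ≤ r₀ := fun j => by
    have : ρ / 2 / 4 ^ j ≤ ρ / 2 := div_le_self (by positivity) (one_le_pow₀ (by norm_num))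
    linarith
  refine ⟨ρ / 2 / 4 ^ k, hδ, ?_⟩
  filter_upwards [hE.nice K hKc inter_subset_right (min (ρ / 16) (ρ / 2 / 4 ^ k)) (by positivity),
    hxy t ρ hρ0 hρ1 ht0, (eventually_all_finset (Finset.range k)).2 fun j _ =>
      hxy t (2 * (ρ / 2 / 4 ^ j)) (by positivity) (hsc j) ht0, hSt K hKc inter_subset_right]
    with n h1 h2 h3 h4 x hx hxc
  set N : FC := (C n).toFC K with hN
  have hV : ∀ y, y ∈ N.V → y ∈ (C n).V := fun y hy => ((PfLocal.mem_toFC h1.1).1 hy).1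
  have hxH : x ∈ closure UH := subset_closure ((hE.sub n).1 hx)
  have hδρ : ρ / 2 / 4 ^ k ≤ ρ / 2 := div_le_self (by positivity) (one_le_pow₀ (by norm_num))
  have hxN : x ∈ N.V :=
    (PfLocal.mem_toFC h1.1).2 ⟨hx, x, hm n x hx, sqC_mono _ (by linarith) hxc, hxH⟩
  have hUK : UH ∩ sqO t ρ ⊆ K := fun w hw => ⟨sqO_subset _ _ hw.2, subset_closure hw.1⟩
  have hcl : Closed (N.step (UH ∩ sqO t ρ)) (N.V : Set ℂ) :=
    PfLocal.closed_step h1.2 (isOpen_UH.inter (PfCell.isOpen_sqO _ _)) hUK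
  have key : ∀ L, walkExp (N.step (UH ∩ sqO t ρ)) L x
      (fun w => if ∃ i ≤ L, w i ∉ {y | N.H y ⊆ sqO t ρ} then 1 else 0) ≤ η / 4 := fun L => by
    refine le_trans (beurling_walk hW (S := {w : ℂ | 0 ≤ w.im}) (O := UH ∩ sqO t ρ) (n := k)
      (J := Finset.range k) (X := Cst) (Y := 4 * Cst) h1.2
      (fun y _ => closure_UH ▸ (hE.sub n).2 y)
      (fun w hw => closure_UH ▸ subset_closure hw.1) hρ0 (closure_UH ▸ Subset.rfl) ?_
      (isPreconnected_sqC_half _ _) ?_ ⟨0, Finset.mem_range.2 hk0⟩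
      (fun j hj => Finset.mem_range.1 hj) (min_le_left _ _) (min_le_right _ _) ?_ ?_ hcl
      Subset.rfl L hxN hxc) hp
    · intro r hr _
      exact isPreconnected_frame_half hr.le (by simp)
    · intro r hr _
      obtain ⟨w, hw1, hw2⟩ := frame_meets_line (c := t) (r := r) (by simpa using (hδ.trans hr).le)
      exact ⟨w, hw1, fun hh => hw2 hh.1⟩
    · refine le_trans ?_ (h2 K).1
      exact add_le_add (N.G.en_mono (PfCell.pts_mono sdiff_subset) _)
        (N.G.en_mono (PfCell.pts_mono sdiff_subset) _)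
    · intro j hj
      have e1 : ρ / 2 / 4 ^ k ≤ ρ / 2 / 4 ^ j :=
        div_le_div_of_nonneg_left (by positivity) (by positivity)
          (pow_le_pow_right₀ (by norm_num) (Finset.mem_range.1 hj).le)
      refine le_trans (Finset.sum_le_sum_of_subset_of_nonneg (mt_mono (ann_subset _ _))
        fun _ _ _ => sq_nonneg _) ((PfCell.sum_mt_le h1.2 (R := 2 * (ρ / 2 / 4 ^ j)) ?_).trans
        ((h3 j hj K).2.trans (le_of_eq (by ring))))
      linarith [min_le_right (ρ / 16) (ρ / 2 / 4 ^ k)]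
  have := sticky_of_exit hW (S := closure UH) (I := {y | N.H y ⊆ sqO t ρ})
    (St' := St n) hcl (fun y hy => subset_closure ((hE.sub n).1 (hV y hy)))
    (fun y hy hI => ((PfLocal.step_eq h1.1 hUK hy).trans
      (step_congr _ ⟨fun hh => hh.trans inter_subset_left, fun hh => subset_inter hh hI⟩)).trans
      (h4 y (hV y hy) (hUK ⟨(hE.sub n).1 (hV y hy), hI (hm n y (hV y hy))⟩)).symm)
    hxN hR.le (fun y hy hI => ?_) key
  · exact this.mono le_rfl (by linarith)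
  · have e1 : sn t y < ρ := hI (hm n y (hV y hy))
    have e2 : sn t x ≤ ρ / 2 / 4 ^ k := hxc
    have e3 := dist_le_sn x y
    have e4 := sn_triangle x t y
    rw [sn_comm x t] at e4
    rw [← dist_eq_norm]
    linarith

/-- Beurling estimate, uniformly along a compact set of the real line that misses `Z`. -/
theorem EnvB.sticky (hW : WalkBasics) {Z : Set ℂ} {C : ℕ → Cells} (hE : EnvB Z C)
    (hm : ∀ n, ∀ x ∈ (C n).V, x ∈ (C n).H x) {St : ℕ → ℂ → Set ℂ}
    (hSt : ∀ K, IsCompact K → K ⊆ closure UH → ∀ᶠ n in atTop, ∀ y ∈ (C n).V, y ∈ K →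
      St n y = (C n).step UH y) {I : Set ℝ} (hI : IsCompact I)
    (hZ : ∀ t ∈ I, (t : ℂ) ∉ Z) {R η : ℝ} (hR : 0 < R) (hη : 0 < η) :
    ∃ δ > 0, ∀ᶠ n in atTop, ∀ x ∈ (C n).V, x.re ∈ I → x.im ≤ δ →
      Sticky (closure UH) (St n) x R η := by
  obtain ⟨δ, hδ, h⟩ := PfCell.unif (hI.image Complex.continuous_ofReal)
    (P := fun n _ y => y ∈ (C n).V → Sticky (closure UH) (St n) y R η) (by
      rintro _ ⟨t, ht, rfl⟩
      obtain ⟨δ, hδ, h⟩ := hE.sticky_at hW hm hSt (hZ t ht) hR hη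
      exact ⟨δ, hδ, h.mono fun n hn _ _ y hy hV => hn y hV hy⟩)
  refine ⟨δ, hδ, h.mono fun n hn x hx h1 h2 => hn x.re ⟨_, h1, rfl⟩ x ?_ hx⟩
  have h3 : 0 < x.im := (hE.sub n).1 hx
  refine sn_le_iff.2 ⟨by simpa using hδ.le, ?_⟩
  simpa [abs_of_pos h3] using h2

end Pool.Agent.Lib.MP_0d9445_pr.Bd
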