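import Pool.Agent.Lib.MP_0d9445_pr.Bd.WIface
import Pool.Agent.Lib.MP_0d9445_pr.Bd.Sticky
import Pool.Agent.Lib.MP_0d9445_pr.Walk.PfBnd

noncomputable section

open MeasureTheory ProbabilityTheory Set Filter Topology
open scoped NNReal ENNReal Classical

namespace Pool.Agent.Lib.MP_0d9445_pr.Bd

open BM Cell Walk

namespace PgHalfC

/-- an injective version of the inverse chart -/
def inj (χi : ℂ → ℂ) (O E : Set ℂ) (y : ℂ) : ℂ :=
  if y ∈ closure O \ E then χi y else ⟨y.re, -Real.exp y.im⟩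

variable {χ χi : ℂ → ℂ} {O E : Set ℂ}

theorem inj_chart (h : Chart χ χi O E) {w : ℂ} (hw : w ∈ closure UH) : inj χi O E (χ w) = w := by
  rw [inj, if_pos (h.image' ▸ mem_image_of_mem χ hw), h.inv w hw]

theorem inj_injective (h : Chart χ χi O E) : Function.Injective (inj χi O E) := by
  have k1 : ∀ y ∈ closure O \ E, 0 ≤ (inj χi O E y).im ∧ χ (inj χi O E y) = y := fun y hy => by
    obtain ⟨w, hw, rfl⟩ := h.image' ▸ hy
    rw [inj_chart h hw]
    exact ⟨(closure_UH ▸ hw : w ∈ {w : ℂ | 0 ≤ w.im}), rfl⟩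
  have k2 : ∀ y ∉ closure O \ E, (inj χi O E y).im < 0 := fun y hy => by
    rw [inj, if_neg hy]
    exact neg_neg_of_pos (Real.exp_pos _)
  intro y y' e
  by_cases hy : y ∈ closure O \ E <;> by_cases hy' : y' ∈ closure O \ E
  · rw [← (k1 y hy).2, e, (k1 y' hy').2]
  · exact absurd (e ▸ (k1 y hy).1) (not_le.2 (k2 y' hy'))
  · exact absurd (e ▸ (k1 y' hy').1) (not_le.2 (k2 y hy))
  · rw [inj, inj, if_neg hy, if_neg hy', Complex.ext_iff] at e
    exact Complex.ext e.1 (Real.exp_injective (neg_injective e.2))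

theorem bad_univ {O₁ : Set ℂ} {μ : Measure ℂ} {C : ℕ → Cells} {Γ : ℕ → Set ℂ} {a M M' : ℕ → ℝ}
    (hE : Env O₁ μ C Γ a M) (x : ℕ → ℂ) : BadNegl O₁ C (fun _ => univ) M' x := by
  intro K U hK hKO hU hUK ε hε
  filter_upwards [hE.nice K hK hKO 1 one_pos] with n hn u hu
  rw [hu.unique (v := 0) (PfBnd.esc_of_nice hK hn.2 hU (hUK.trans interior_subset))
    (fun _ _ => le_rfl) ⟨fun _ _ => rfl, fun y _ => by simp [Net.lap]⟩]
  exact hε.le

/-- the steps in the domain are the images of the steps in the half-plane -/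
theorem step_via (h : Chart χ χi O E) {C C' : Cells} (hV : C'.V = χ '' C.V) (hU : C.V ⊆ UH)
    (hs : ∀ x, C.H x ⊆ closure UH)
    (hH : ∀ x ∈ C.V, ∀ w ∈ closure UH, w ∈ C.H x ↔ χ w ∈ C'.H (χ x)) {y : ℂ} (hy : y ∈ C.V)
    (hst : C.H y ⊆ UH → C'.H (χ y) ⊆ O) : C'.step O (χ y) = χ '' C.step UH y := by
  have hinj : InjOn χ (closure UH) := fun v hv w hw e => by rw [← h.inv v hv, e, h.inv w hw]
  by_cases hy1 : C.H y ⊆ UH
  · have hy2 := hst hy1
    ext v'
    simp only [Cells.step, Cells.Adj, mem_ofPred_eq, mem_image, hy1, hy2, true_and,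
      not_true_eq_false, false_and, or_false]
    constructor
    · rintro ⟨-, h2, h3, w', h4, h5⟩
      obtain ⟨v, hv, rfl⟩ := hV ▸ h2
      obtain ⟨w, hw, rfl⟩ := h.image ▸ hy2 h4
      exact ⟨v, ⟨hy, hv, fun e => h3 (e ▸ rfl), w, (hH y hy w (subset_closure hw)).2 h4,
        (hH v hv w (subset_closure hw)).2 h5⟩, rfl⟩
    · rintro ⟨v, ⟨-, hv, h3, w, h4, h5⟩, rfl⟩
      exact ⟨hV ▸ mem_image_of_mem χ hy, hV ▸ mem_image_of_mem χ hv,
        fun e => h3 (hinj (subset_closure (hU hy)) (subset_closure (hU hv)) e), χ w,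
        (hH y hy w (hs y h4)).1 h4, (hH v hv w (hs y h4)).1 h5⟩
  · rw [step_out C hy1, image_singleton, step_out C' fun hh => hy1 fun w hw => ?_]
    obtain ⟨w', hw', e⟩ := h.image ▸ hh ((hH y hy w (hs y hw)).1 hw)
    exact hinj (subset_closure hw') (hs y hw) e ▸ hw'

end PgHalfC

open PgHalfC in
theorem HalfC_of (hMapW : MapW) (hP3x : P3x) (hDrvC : DrvC) (hHalfA : HalfA) : HalfC := by
  intro W χ χi O E Z μ C C' a M x' z' A hW hχ hZ hμ hA hE hB hRel hxV' hx' ⟨z, hz, hzz⟩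
  subst hzz
  obtain ⟨hP, hD, hae⟩ := hDrvC W χ χi O E Z μ A z hW hχ hZ hμ hE.frost hA hz
  have hxV : ∀ᶠ n in atTop, χi (x' n) ∈ (C n).V ∧ χ (χi (x' n)) = x' n := hxV'.mono fun n hn => by
    obtain ⟨v, hv, e⟩ := hRel.V n ▸ hn
    rw [← e, hχ.inv v (subset_closure ((hB.sub n).1 hv))]
    exact ⟨hv, rfl⟩
  have hx : Tendsto (fun n => χi (x' n)) atTop (𝓝 z) := by
    have h1 : closure O \ E ∈ 𝓝 (χ z) :=
      mem_of_superset (hχ.isOpen.mem_nhds (hχ.image ▸ mem_image_of_mem χ hz.1)) (by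
        rw [← hχ.image', ← hχ.image]
        exact image_mono subset_closure)
    have h2 := (hχ.cont.continuousAt h1).tendsto.comp hx'
    rwa [hχ.inv z (subset_closure hz.1)] at h2
  obtain ⟨ψ, hψ⟩ := (inj_injective hχ).hasLeftInverse
  have hEq : ∀ w ∈ closure UH, ψ w = χ w := fun w hw => by
    conv_lhs => rw [← inj_chart hχ hw, hψ]
  have hlip : LipschitzOnWith 2 ψ (closure UH) := fun v hv w hw => by
    rw [hEq v hv, hEq w hw]
    exact hχ.lip hv hw
  have key := hHalfA (Px W (χ z)) Z μ C _ a M _ z _ _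
    (fun n w => inj χi O E '' (C' n).step O (ψ w)) ψ 2 hZ hE (bad_univ hE _) hB
    (hxV.mono fun n h => h.1) hx hz hD hlip fun K hK hKU => by
      filter_upwards [hRel.stop K hK hKU] with n hn y hy hyK
      rw [hEq y (hKU hyK), step_via hχ (hRel.V n) (hB.sub n).1 (hB.sub n).2 (hRel.H n) hy
        (hn y hy hyK), image_image]
      refine (image_congr fun v hv => inj_chart hχ (subset_closure ((hB.sub n).1 ?_))).trans
        (image_id' _)
      rcases hv with hv | hv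
      · exact hv.2.2.1
      · exact hv.2 ▸ hy
  refine hP3x (Px W (χ z)) _ _ _ _ fun T hT F L c hF hFc => ?_
  obtain ⟨k1, k2⟩ := key T hT F L c hF hFc
  have e1 : (fun ω : Path => F (toC T fun t =>
      ψ (lbmPath (fun s => kap χi O E (ω s)) (A ω) UH t))) =ᵐ[Px W (χ z)]
      fun ω => F (toC T fun t => lbmPath ω (A ω) O t) := by
    filter_upwards [hae] with ω h
    rw [funext fun t => (hEq _ (h t).1).trans (h t).2]
  refine ⟨k1.congr e1, ?_⟩
  rw [← integral_congr_ae e1]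
  refine k2.congr' ?_
  filter_upwards [hxV] with n hn
  have := hMapW ((C' n).step O) (fun w => inj χi O E '' (C' n).step O (ψ w)) univ (inj χi O E)
    (⌈M n / (2 * a n) * T⌉₊ + 1) (χ (χi (x' n)))
    (fun w => F (toC T (interp (M n / (2 * a n)) fun i => ψ (w i))))
    (inj_injective hχ).injOn (mem_univ _) fun y _ => ⟨subset_univ _, by rw [hψ]⟩
  rw [inj_chart hχ (subset_closure ((hB.sub n).1 hn.1)), hn.2] at this
  rw [this]
  simp only [hψ _]

end Pool.Agent.Lib.MP_0d9445_pr.Bd
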