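import Pool.Agent.Lib.MP_0d9445_pr.Bd.WIface

noncomputable section

open MeasureTheory ProbabilityTheory Set Filter Topology
open scoped NNReal ENNReal Classical

namespace Pool.Agent.Lib.MP_0d9445_pr.Bd

open BM Cell Walk

namespace PgLbmInc

/-- The time at which `lbmPath` reads the path. -/
def tm (b : ℝ≥0 → ℂ) (A : ℝ≥0 → ℝ) (U : Set ℂ) (t : ℝ) : ℝ≥0 :=
  sInf {s : ℝ≥0 | t < A s ∨ b s ∉ U}

theorem tm_le {b : ℝ≥0 → ℂ} {A : ℝ≥0 → ℝ} {U : Set ℂ} {t : ℝ} {s : ℝ≥0}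
    (h : t < A s ∨ b s ∉ U) : tm b A U t ≤ s := csInf_le' h

theorem tm_mem {b : ℝ≥0 → ℂ} (A : ℝ≥0 → ℝ) {U : Set ℂ} (t : ℝ) {S : ℝ≥0} (h : b S ∉ U) :
    tm b A U t ∈ Icc 0 S := ⟨zero_le, tm_le (Or.inr h)⟩

theorem exists_index {b : ℝ≥0 → ℂ} {U : ℕ → Set ℂ} {O : Set ℂ} {S : ℝ≥0}
    (hb : ContinuousOn b (Icc 0 S)) (hS : b S ∉ O) (hU : ∀ k, IsOpen (U k)) (hm : Monotone U)
    (hO : ∀ s ≤ S, b s ∈ O → ∃ k, b s ∈ U k) {δ : ℝ≥0} (hδ : 0 < δ) :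
    ∃ k, ∀ s, s + δ ≤ sInf {s : ℝ≥0 | b s ∉ O} → b s ∈ U k := by
  have hτ : sInf {s : ℝ≥0 | b s ∉ O} ≤ S := csInf_le' hS
  have hsub : {s : ℝ≥0 | s + δ ≤ sInf {s : ℝ≥0 | b s ∉ O}} ⊆ Icc 0 S := fun s hs =>
    ⟨zero_le, (le_self_add.trans hs).trans hτ⟩
  have hK : IsCompact {s : ℝ≥0 | s + δ ≤ sInf {s : ℝ≥0 | b s ∉ O}} :=
    isCompact_Icc.of_isClosed_subset (isClosed_le (by fun_prop) continuous_const) hsub
  obtain ⟨k, hk⟩ := (hK.image_of_continuousOn (hb.mono hsub)).elim_directed_cover U hU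
    (by
      rintro _ ⟨s, hs, rfl⟩
      refine mem_iUnion.2 (hO s (hsub hs).2 ?_)
      by_contra h
      have h1 : sInf {s : ℝ≥0 | b s ∉ O} ≤ s := csInf_le' h
      exact absurd (le_trans hs h1) (not_le.2 (lt_add_of_pos_right s hδ)))
    hm.directed_le
  exact ⟨k, fun s hs => hk ⟨s, hs, rfl⟩⟩

end PgLbmInc

open PgLbmInc in
theorem LbmInc_of : LbmInc := by
  intro b A U O S hb hS hU hm hO
  have hSk : ∀ k, b S ∉ U k := fun k h => hS ((hU k).2 h)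
  refine ⟨fun k t => ⟨_, tm_mem A t (hSk k), rfl⟩, fun t => ⟨_, tm_mem A t hS, rfl⟩,
    Metric.tendstoUniformly_iff.2 fun ε hε => ?_⟩
  obtain ⟨δ, hδ, hu⟩ := Metric.uniformContinuousOn_iff_le.1
    (isCompact_Icc.uniformContinuousOn_of_continuous hb) (ε / 2) (half_pos hε)
  lift δ to ℝ≥0 using hδ.le
  obtain ⟨k₀, hk₀⟩ := exists_index hb hS (fun k => (hU k).1) hm hO (NNReal.coe_pos.1 hδ)
  filter_upwards [eventually_ge_atTop k₀] with k hk t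
  have h1 : tm b A (U k) t ≤ tm b A O t :=
    le_csInf ⟨S, Or.inr hS⟩ fun s hs => tm_le (hs.imp id fun h h' => h ((hU k).2 h'))
  have h2 : tm b A O t ≤ tm b A (U k) t + δ := by
    rw [← tsub_le_iff_right]
    refine le_csInf ⟨S, Or.inr (hSk k)⟩ fun s hs => tsub_le_iff_right.2 ?_
    rcases hs with hs | hs
    · exact (tm_le (Or.inl hs)).trans le_self_add
    · have h3 : tm b A O t ≤ sInf {s : ℝ≥0 | b s ∉ O} :=
        le_csInf ⟨S, hS⟩ fun s hs => tm_le (Or.inr hs)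
      exact h3.trans (not_le.1 fun h => hs (hm hk (hk₀ s h))).le
  refine (hu _ (tm_mem A t hS) _ (tm_mem A t (hSk k)) ?_).trans_lt (half_lt_self hε)
  have h4 : (tm b A (U k) t : ℝ) ≤ tm b A O t := h1
  have h5 : (tm b A O t : ℝ) ≤ tm b A (U k) t + δ := h2
  rw [NNReal.dist_eq, abs_le]
  constructor <;> linarith

end Pool.Agent.Lib.MP_0d9445_pr.Bd
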