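import Pool.Agent.Lib.MP_0d9445_pr.Bd.WIface
import Pool.Agent.Lib.MP_0d9445_pr.Walk.PfLocal

noncomputable section

open MeasureTheory ProbabilityTheory Set Filter Topology
open scoped NNReal ENNReal Classical

namespace Pool.Agent.Lib.MP_0d9445_pr.Bd

open BM Cell Walk

namespace PgLocalA

theorem lt_abs (hW1 : W1) (hT3 : T3) (hF5 : F5) (hP2 : P2) {Ω : Type} [MeasurableSpace Ω]
    (P : Measure Ω) [IsProbabilityMeasure P] {K U : Set ℂ} {μ : Measure ℂ} {a : ℝ} {N : ℕ → FC}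
    {ρ : ℕ → ℂ → ℝ} {FF : Set (ℂ × ℝ)} {m : ℕ → ℝ} {x : ℕ → ℂ} {z : ℂ} {Y : ℝ → Ω → ℂ}
    {σ : Ω → ℝ} (hG : Good K μ a N ρ FF) (hU : Adm K U) (hD : WalkData U N ρ m x z) (hz : z ∈ U)
    (hall : LBMAll K μ) (p2 : PathPack P U z Y σ)
    (p3 : ∀ u φ, Continuous u → Continuous φ → WeakSol U μ u φ → MartPair P Y σ u φ) :
    PathConvLip P Y (fun n => (N n).step U) x m := by
  have hcU : IsCompact (closure U) :=
    hG.cpt.of_isClosed_subset isClosed_closure (hU.sub.trans interior_subset)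
  obtain ⟨K', hK', h1, h2⟩ := exists_compact_between hcU isOpen_interior hU.sub
  have hw := hW1 K μ a N ρ FF U m x z K' hG hU hD hz hK' h1 h2
  have ht := hT3 K μ a N ρ FF U m x z K' hG hU hD hall hw
  have hf := hF5 P K μ a N ρ FF U m x z K' _ _ hG hU hD hK' (h1.trans interior_subset) hw ht p2 p3
  refine hP2 P K' _ _ x m _ hK' hw hD.m_top ht p2.measY ?_ hf
  filter_upwards [p2.path] with ω hω
  refine ⟨hω.1, fun t => (h1.trans interior_subset) ?_⟩
  rcases lt_or_ge t (σ ω) with h | h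
  · exact subset_closure (hω.2.2.2.1 t h)
  · exact frontier_subset_closure (hω.2.2.2.2 t h)

end PgLocalA

open PfLocal PgLocalA in
theorem LocalA_of (hGeo : Geo) (hWalkBasics : WalkBasics) (hCS : CS) (hNuLow : NuLow) (hW1 : W1) (hT3 : T3) (hF5 : F5) (hP2 : P2) : LocalA := by
  intro Ω _ P _ O U μ C Γ a M x z Y σ hO hE hB hx hz hUo hUb hUO hF hzU hall p2 p3
  obtain ⟨K, hK, hUK, hKO⟩ := exists_compact_between hUb.isCompact_closure hO hUO
  have hU : U ⊆ K := subset_closure.trans (hUK.trans interior_subset)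
  obtain ⟨lo, hi, hlo, hab⟩ := a_bdd hGeo hCS hNuLow hE hK hKO ⟨z, hUK (subset_closure hzU)⟩
  have key : ∀ ns : ℕ → ℕ, Tendsto ns atTop atTop → ∃ ms : ℕ → ℕ,
      PathConvLip P Y (fun n => (C (ns (ms n))).step U) (fun n => x (ns (ms n)))
        (fun n => M (ns (ms n)) / (2 * a (ns (ms n)))) := by
    intro ns hns
    obtain ⟨a₀, ha₀, ms, hms, hlim⟩ :=
      isCompact_Icc.tendsto_subseq' (x := fun n => a (ns n)) (hns.eventually hab).frequently
    have hψ : Tendsto (fun n => ns (ms n)) atTop atTop := hns.comp hms.tendsto_atTop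
    have h0 : 0 < a₀ := hlo.trans_le ha₀.1
    have hE' := env_sub hE hψ
    obtain ⟨FF, hG⟩ := good_of hGeo hE' hK hKO h0 hlim
    have hD := data_of hE' hK hKO hUo hUK (bad_sub hB hψ) (hψ.eventually hx) (hz.comp hψ) hzU h0
      hlim
    have hP := lt_abs hW1 hT3 hF5 hP2 P hG ⟨hUo, hUK, hF⟩ hD hzU (hall K hK hKO) p2 p3
    refine ⟨ms, fun T hT F L c h1 h2 => ⟨(hP T hT F L c h1 h2).1,
      (hP T hT F L c h1 h2).2.congr' ?_⟩⟩
    filter_upwards [hψ.eventually (start_mem hE hK hKO hUo hU hx hz hzU)] with n hn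
    exact hWalkBasics.congr _ _ _ _ _ _ hn.2.1 hn.1 hn.2.2
  refine ⟨⟨fun n => (((C n).toFC K).V : Set ℂ), ?_, fun ε hε => ?_⟩,
    m_top hE.a_pos (hab.mono fun n h => h.2) hE.M_top, fun T hT F L c h1 h2 => ⟨?_, ?_⟩⟩
  · filter_upwards [start_mem hE hK hKO hUo hU hx hz hzU, hE.nice K hK hKO 1 one_pos] with n hn h1
    refine ⟨hn.1, fun y hy => ((mem_toFC h1.1).1 hy).1, fun y hy => ?_⟩
    rw [← hn.2.2 y hy]
    exact hn.2.1 y hy
  · filter_upwards [hE.nice K hK hKO (ε / 2) (half_pos hε)] with n h1 y hy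
    refine ⟨fun w hw => (h1.2.dist_le hy hw (h1.2.mem y hy)).trans (half_le_self hε.le),
      fun y' hy' => ?_⟩
    rw [← step_eq h1.1 hU hy] at hy'
    unfold FC.step at hy'
    split_ifs at hy'
    · linarith [h1.2.nbr_le hy']
    · rw [mem_singleton_iff.1 hy', sub_self, norm_zero]
      exact hε.le
  · obtain ⟨ms, h⟩ := key id tendsto_id
    exact (h T hT F L c h1 h2).1
  · refine tendsto_of_subseq_tendsto fun ns hns => ?_
    obtain ⟨ms, h⟩ := key ns hns
    exact ⟨ms, (h T hT F L c h1 h2).2⟩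

end Pool.Agent.Lib.MP_0d9445_pr.Bd
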