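import Pool.Agent.Lib.MP_0d9445_pr.Bd.WIface
import Pool.Agent.Lib.MP_0d9445_pr.Walk.EqFixWalk

noncomputable section

open MeasureTheory ProbabilityTheory Set Filter Topology
open scoped NNReal ENNReal Classical

namespace Pool.Agent.Lib.MP_0d9445_pr.Bd

open BM Cell Walk

namespace PgMapW

lemma cons_map (ψ : ℂ → ℂ) (x : ℂ) (w : ℕ → ℂ) :
    consPath (ψ x) (fun i => ψ (w i)) = fun i => ψ (consPath x w i) := by
  funext i
  cases i <;> rfl

end PgMapW

theorem MapW_of : MapW := by
  intro St St' V ψ L x G hinj hx hSt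
  induction L generalizing x G with
  | zero => rfl
  | succ n ih =>
    obtain ⟨h1, h2⟩ := hSt x hx
    have hi : InjOn ψ (St x) := hinj.mono h1
    rw [walkExp, walkExp, h2, hi.ncard_image, finsum_mem_image hi]
    congr 1
    refine finsum_mem_congr rfl fun y hy => ?_
    rw [ih y _ (h1 hy)]
    simp only [PgMapW.cons_map]

end Pool.Agent.Lib.MP_0d9445_pr.Bd
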