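import Pool.Agent.Lib.MP_0d9445_pr.Bd.WIface
import Pool.Agent.Lib.MP_0d9445_pr.Walk.PfP3
import Pool.Agent.Lib.MP_0d9445_pr.Walk.EqFixWalk

noncomputable section

open MeasureTheory ProbabilityTheory Set Filter Topology
open scoped NNReal ENNReal Classical

namespace Pool.Agent.Lib.MP_0d9445_pr.Bd

open BM Cell Walk

namespace PgP3x

open Lim.WeakAux

lemma mono (St : ℂ → Set ℂ) (L : ℕ) (x : ℂ) (F G : (ℕ → ℂ) → ℝ) (h : ∀ w, F w ≤ G w) :
    walkExp St L x F ≤ walkExp St L x G := by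
  induction L generalizing x F G with
  | zero => exact h _
  | succ n ih =>
    rw [walkExp, walkExp]
    by_cases hf : (St x).Finite
    · refine mul_le_mul_of_nonneg_left ?_ (by positivity)
      rw [finsum_mem_eq_finite_toFinset_sum _ hf, finsum_mem_eq_finite_toFinset_sum _ hf]
      exact Finset.sum_le_sum fun y _ => ih y _ _ fun w => h _
    · rw [Set.Infinite.ncard hf]
      simp

lemma neg (St : ℂ → Set ℂ) (L : ℕ) (x : ℂ) (F : (ℕ → ℂ) → ℝ) :
    walkExp St L x (fun w => -F w) = -walkExp St L x F := by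
  induction L generalizing x F with
  | zero => rfl
  | succ n ih =>
    rw [walkExp, walkExp, ← mul_neg, ← finsum_neg_distrib]
    congr 1
    refine finsum_congr fun y => ?_
    rw [← finsum_neg_distrib]
    exact finsum_congr fun _ => ih y _

lemma lower {X Ω : Type} [PseudoMetricSpace X] [Nonempty X] [MeasurableSpace Ω] (P : Measure Ω)
    [IsProbabilityMeasure P] {En : ℕ → (X → ℝ) → ℝ}
    (hE : ∀ n F G, (∀ w, F w ≤ G w) → En n F ≤ En n G) {Y : Ω → X}
    (h : ∀ (F : X → ℝ) (L : ℝ≥0) (c : ℝ), LipschitzWith L F → (∀ y, |F y| ≤ c) →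
      AEStronglyMeasurable (fun ω => F (Y ω)) P ∧
        Tendsto (fun n => En n F) atTop (𝓝 (∫ ω, F (Y ω) ∂P)))
    {F : X → ℝ} (hF : Continuous F) {B : ℝ} (hB : ∀ w, |F w| ≤ B) :
    ∀ ε > 0, ∀ᶠ n in atTop, ∫ ω, F (Y ω) ∂P - ε < En n F := by
  have hle : ∀ (L : ℕ) w, ic univ id F L w ≤ F w := fun L w => by
    simpa using ic_le (S := univ) (φ := id) (Nat.cast_nonneg L) hB w (mem_univ w)
  have habs : ∀ (L : ℕ) w, |ic univ id F L w| ≤ B := fun L w =>
    abs_le.2 ⟨ic_lower univ_nonempty (Nat.cast_nonneg L) hB w,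
      (hle L w).trans (abs_le.1 (hB w)).2⟩
  have h1 := fun L : ℕ => h _ _ B (PfP3.ic_lip hB L) (habs L)
  intro ε hε
  have l1 := tendsto_integral_of_dominated_convergence (μ := P)
    (F := fun (L : ℕ) ω => ic univ id F L (Y ω)) (f := fun ω => F (Y ω)) (fun _ => B)
    (fun L => (h1 L).1) (integrable_const _)
    (fun L => Eventually.of_forall fun ω => habs L _)
    (Eventually.of_forall fun ω => ic_tendsto hF hB _)
  obtain ⟨L, hL⟩ := (Metric.tendsto_nhds.1 l1 (ε / 2) (by positivity)).exists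
  filter_upwards [Metric.tendsto_nhds.1 (h1 L).2 (ε / 2) (by positivity)] with n h2
  have h3 := hE n _ _ (hle L)
  rw [Real.dist_eq, abs_lt] at hL h2
  linarith [hL.1, h2.1]

end PgP3x

theorem P3x_of : P3x := by
  intro Ω _ P _ St x m Y hL T hT F
  let En : ℕ → (C(Icc (0 : ℝ) T, ℂ) → ℝ) → ℝ := fun n F =>
    walkExp (St n) (⌈m n * T⌉₊ + 1) (x n) fun w => F (toC T (interp (m n) w))
  have hE : ∀ n F G, (∀ w, F w ≤ G w) → En n F ≤ En n G := fun n F G h =>
    PgP3x.mono _ _ _ _ _ fun w => h _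
  rw [Metric.tendsto_nhds]
  intro ε hε
  filter_upwards [PgP3x.lower P hE (hL T hT) F.continuous (B := ‖F‖) F.norm_coe_le_norm ε hε,
    PgP3x.lower P hE (hL T hT) (F := fun w => -F w) F.continuous.neg (B := ‖F‖)
      (fun w => by simpa using F.norm_coe_le_norm w) ε hε] with n h1 h2
  have h3 : En n (fun w => -F w) = -En n F := PgP3x.neg _ _ _ _
  rw [h3, integral_neg] at h2
  show dist (En n F) _ < ε
  rw [Real.dist_eq, abs_lt]
  constructor <;> linarith

end Pool.Agent.Lib.MP_0d9445_pr.Bd
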