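import Pool.Agent.Lib.MP_0d9445_pr.Bd.WIface

noncomputable section

open MeasureTheory ProbabilityTheory Set Filter Topology
open scoped NNReal ENNReal Classical

namespace Pool.Agent.Lib.MP_0d9445_pr.Bd

open BM Cell Walk

namespace PgPush

theorem toC_apply {T : ℝ} {y : ℝ → ℂ} (h : Continuous fun t : Icc (0 : ℝ) T => y t)
    (t : Icc (0 : ℝ) T) : toC T y t = y t := by
  unfold toC
  rw [dif_pos h]
  rfl

/-- Composition of a path with a continuous map. -/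
def post (T : ℝ) (ψ : C(ℂ, ℂ)) (g : C(Icc (0 : ℝ) T, ℂ)) : C(Icc (0 : ℝ) T, ℂ) := ψ.comp g

theorem post_lip (T : ℝ) (ψ : C(ℂ, ℂ)) {Λ : ℝ≥0} (h : LipschitzWith Λ ψ) :
    LipschitzWith Λ (post T ψ) := by
  refine LipschitzWith.of_dist_le_mul fun g g' => ?_
  refine (ContinuousMap.dist_le (by positivity)).2 fun t => ?_
  exact (h.dist_le_mul (g t) (g' t)).trans
    (mul_le_mul_of_nonneg_left (ContinuousMap.dist_apply_le_dist t) Λ.2)

theorem interp_cont (hIp : Ip) {m : ℝ} (hm : 0 < m) (T : ℝ) (w : ℕ → ℂ) :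
    Continuous fun t : Icc (0 : ℝ) T => interp m w t :=
  (hIp m w hm).1.comp (continuous_inclusion (Icc_subset_Ici_self : Icc (0 : ℝ) T ⊆ Ici 0))

theorem close (hIp : Ip) {m : ℝ} (hm : 0 < m) (T : ℝ) (ψ : C(ℂ, ℂ)) {Λ : ℝ≥0}
    (h : LipschitzWith Λ ψ) (w : ℕ → ℂ) {ε : ℝ} (hε : 0 ≤ ε)
    (hw : ∀ k, ‖w (k + 1) - w k‖ ≤ ε) :
    dist (post T ψ (toC T (interp m w))) (toC T (interp m fun i => ψ (w i))) ≤ 2 * Λ * ε := by
  refine (ContinuousMap.dist_le (by positivity)).2 fun t => ?_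
  have e1 : post T ψ (toC T (interp m w)) t = ψ (interp m w t) := by
    show ψ (toC T (interp m w) t) = _
    rw [toC_apply (interp_cont hIp hm T w)]
  rw [e1, toC_apply (interp_cont hIp hm T _)]
  have h1 := (hIp m w hm).2.2 t t.2.1
  have h2 := (hIp m (fun i => ψ (w i)) hm).2.2 t t.2.1
  have h3 : dist (ψ (interp m w t)) (ψ (w ⌊m * t⌋₊)) ≤ Λ * ε := by
    refine (h.dist_le_mul _ _).trans (mul_le_mul_of_nonneg_left ?_ Λ.2)
    rw [dist_eq_norm]
    exact h1.trans (hw _)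
  have h4 : dist (interp m (fun i => ψ (w i)) t) (ψ (w ⌊m * t⌋₊)) ≤ Λ * ε := by
    rw [dist_eq_norm]
    refine h2.trans ?_
    rw [← dist_eq_norm]
    refine (h.dist_le_mul _ _).trans (mul_le_mul_of_nonneg_left ?_ Λ.2)
    rw [dist_eq_norm]
    exact hw _
  have h5 := dist_triangle_right (ψ (interp m w t)) (interp m (fun i => ψ (w i)) t)
    (ψ (w ⌊m * t⌋₊))
  linarith

theorem exp_close (hB : WalkBasics) {St : ℂ → Set ℂ} {R : Set ℂ} {L : ℕ} {x : ℂ}
    (hc : Closed St R) (hx : x ∈ R) (G G' : (ℕ → ℂ) → ℝ) (δ : ℝ)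
    (h : ∀ w, IsTraj St L x w → |G w - G' w| ≤ δ) :
    |walkExp St L x G - walkExp St L x G'| ≤ δ := by
  have h1 := hB.mono St R L x G (fun w => G' w + δ) hc hx fun w hw => by
    have := (abs_le.1 (h w hw)).2
    linarith
  have h2 := hB.mono St R L x G' (fun w => G w + δ) hc hx fun w hw => by
    have := (abs_le.1 (h w hw)).1
    linarith
  rw [hB.add St R L x _ (fun _ => δ) hc hx, hB.const St R L x δ hc hx] at h1 h2
  exact abs_le.2 ⟨by linarith, by linarith⟩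

end PgPush

open PgPush in
theorem Push_of (hWalkBasics : WalkBasics) (hIp : Ip) : Push := by
  intro Ω _ P _ St R x m Y ψ Λ hψ hR hjump hm hY hconv T hT F L c hF hFc
  let ψ' : C(ℂ, ℂ) := ⟨ψ, hψ.continuous⟩
  have hψ' : LipschitzWith Λ ψ' := hψ
  obtain ⟨hmeas, hlim⟩ := hconv T hT (fun g => F (post T ψ' g)) (L * Λ) c
    (hF.comp (post_lip T ψ' hψ')) fun g => hFc _
  have hae : (fun ω => F (post T ψ' (toC T fun t => Y t ω))) =ᵐ[P]
      fun ω => F (toC T fun t => ψ (Y t ω)) := by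
    filter_upwards [hY] with ω hω
    congr 1
    have h1 : Continuous fun t : Icc (0 : ℝ) T => Y t ω := hω.comp continuous_subtype_val
    have h2 : Continuous fun t : Icc (0 : ℝ) T => ψ (Y t ω) := hψ.continuous.comp h1
    ext t
    rw [toC_apply (y := fun t => ψ (Y t ω)) h2]
    show ψ (toC T (fun t => Y t ω) t) = _
    rw [toC_apply (y := fun t => Y t ω) h1]
  refine ⟨hmeas.congr hae, ?_⟩
  rw [← integral_congr_ae hae]
  refine hlim.congr_dist ?_
  rw [Metric.tendsto_nhds]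
  intro η hη
  have hK : (0 : ℝ) < L * (2 * Λ) + 1 := by positivity
  have hε : 0 < η / 2 / (L * (2 * Λ) + 1) := by positivity
  filter_upwards [hR, hjump _ hε, hm.eventually_gt_atTop 0] with n hn hj hmn
  rw [dist_zero_right, Real.norm_eq_abs, abs_of_nonneg dist_nonneg, Real.dist_eq]
  refine lt_of_le_of_lt (exp_close hWalkBasics hn.2 hn.1 _ _ (η / 2) fun w hw => ?_) (by linarith)
  have hw' : ∀ k, ‖w (k + 1) - w k‖ ≤ η / 2 / (L * (2 * Λ) + 1) := by
    intro k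
    rcases lt_or_ge k (⌈m n * T⌉₊ + 1) with hk | hk
    · rw [norm_sub_rev]
      exact hj _ (hWalkBasics.traj_mem _ _ _ _ w hn.2 hn.1 hw k) _ (hw.2.1 k hk)
    · rw [hw.2.2 k hk, hw.2.2 (k + 1) (by omega), sub_self, norm_zero]
      exact hε.le
  have h1 := close hIp hmn T ψ' hψ' w hε.le hw'
  rw [← Real.dist_eq]
  refine (hF.dist_le_mul _ _).trans ((mul_le_mul_of_nonneg_left h1 L.2).trans ?_)
  have e : (L : ℝ) * (2 * Λ * (η / 2 / (L * (2 * Λ) + 1))) =
      η / 2 * (L * (2 * Λ) / (L * (2 * Λ) + 1)) := by ring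
  have h2 : (L : ℝ) * (2 * Λ) / (L * (2 * Λ) + 1) ≤ 1 := by
    rw [div_le_one hK]
    linarith
  calc (L : ℝ) * (2 * Λ * (η / 2 / (L * (2 * Λ) + 1))) =
      η / 2 * (L * (2 * Λ) / (L * (2 * Λ) + 1)) := e
    _ ≤ η / 2 * 1 := mul_le_mul_of_nonneg_left h2 (by positivity)
    _ = η / 2 := mul_one _

end Pool.Agent.Lib.MP_0d9445_pr.Bd
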