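import Pool.Agent.Lib.MP_0d9445_pr.Walk.All
import Pool.Agent.Lib.MP_0d9445_pr.Bd.PgMapW
import Pool.Agent.Lib.MP_0d9445_pr.Bd.PgP3x
import Pool.Agent.Lib.MP_0d9445_pr.Bd.PgPush
import Pool.Agent.Lib.MP_0d9445_pr.Bd.PgLbmInc
import Pool.Agent.Lib.MP_0d9445_pr.Bd.PgConf
import Pool.Agent.Lib.MP_0d9445_pr.Bd.PgDrvC
import Pool.Agent.Lib.MP_0d9445_pr.Bd.PgHalfC
import Pool.Agent.Lib.MP_0d9445_pr.Bd.PgLocalA
import Pool.Agent.Lib.MP_0d9445_pr.Bd.PgHalfA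

namespace Pool.Agent.Lib.MP_0d9445_pr.Bd

open Walk

theorem localA_ok : LocalA :=
  LocalA_of geo_ok walkbasics_ok cs_ok nulow_ok w1_ok t3_ok f5_ok p2_ok

theorem halfA_ok : HalfA :=
  HalfA_of geo_ok walkbasics_ok ip_ok localA_ok (Push_of walkbasics_ok ip_ok) LbmInc_of

theorem halfC_ok : HalfC :=
  HalfC_of MapW_of P3x_of (DrvC_of b10_ok polar_ok Conf_of) halfA_ok

end Pool.Agent.Lib.MP_0d9445_pr.Bd
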