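import Pool.Agent.Lib.MP_0d9445_pr.Bd.Field
import Pool.Agent.Lib.MP_0d9445_pr.Bd.Cd
import Pool.Agent.Lib.MP_0d9445_pr.Bd.Mono
import Pool.Agent.Lib.MP_0d9445_pr.AS.Crude

/-! The Poisson average of the event that the dominating variable is large is a monotone family. -/

open MeasureTheory ProbabilityTheory Set Filter Topology Real LQ.Met
open scoped NNReal ENNReal ComplexConjugate

noncomputable section

namespace Pool.Agent.Lib.MP_0d9445_pr.Bd

open CR PPP Walk EN

/-- the parameters of the event: step, bound, depth, box, frame height, reading height -/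
structure XP (W : Sq) where
  e : ℕ
  C : ℝ≥0∞
  k : ℕ
  n : ℕ
  a : ℤ
  j : ℕ
  m : ℕ
  he : 7 ≤ e
  win : bball n a ∩ UH ⊆ W.o
  deep : n + 2 * k * e ≤ m

theorem xf_above_mono {m m' : ℕ} (h : m ≤ m') : above m ⊆ above m' := fun _ hz =>
  lt_of_le_of_lt (pow_le_pow_of_le_one (a := (2 : ℝ)⁻¹) (by norm_num) (by norm_num) h) hz

theorem xf_fr_subset (n : ℕ) (a : ℤ) : fr n a ⊆ UH := inter_subset_right

namespace XP

variable {W : Sq} (q : XP W)

/-- the set in which everything is read -/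
def A : Set ℂ := W.o ∩ above q.m

theorem isOpen_A : IsOpen q.A := (isOpen_osq _ _).inter (isOpen_above _)

theorem meas_A : MeasurableSet q.A := q.isOpen_A.measurableSet

theorem ball_sub : bball q.n q.a ∩ above (q.n + 2 * q.k * q.e) ⊆ q.A := fun _ hz =>
  ⟨q.win ⟨hz.1, above_subset _ hz.2⟩, xf_above_mono q.deep hz.2⟩

theorem fr_sub {n' : ℕ} {a' : ℤ} (h : fr n' a' ⊆ bball q.n q.a) : fr n' a' ∩ above q.m ⊆ q.A :=
  fun _ hz => ⟨q.win ⟨h hz.1, xf_fr_subset _ _ hz.1⟩, hz.2⟩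

/-- the dominating variable for a metric, blocking points `s` and counted points `t` -/
def val (lam : ℝ) (d : Met) (s t : Set ℂ) : ℝ≥0∞ :=
  XX q.e (mkPat W lam d s t) (Eb lam q.j q.m d s) q.k q.n q.a

/-- the event at distortion `L` -/
def ev (ξ L : ℝ) : Set Xi :=
  {x | q.C < XX q.e (pat ξ L W x) (EbX ξ L q.j q.m x) q.k q.n q.a}

theorem mem_ev {ξ L : ℝ} {x : Xi} : x ∈ q.ev ξ L ↔
    q.C < q.val (exp (2 * ξ * L)) x.1.1 (pts x.2.1) (pts x.2.1 ∪ pts x.2.2) := Iff.rfl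

theorem meas_ev {M : Model} (F : M.All) {L : ℝ} (hL : 0 ≤ L) :
    MeasurableSet[GGhat q.A] (q.ev M.ξ L) := by
  obtain ⟨p, h⟩ := F.base
  have := measurable_XX (M.casc h L hL W) q.he q.ball_sub (B := EbX M.ξ L q.j q.m)
    fun n' a' h' => GGhat_mono (q.fr_sub h') _ (measurableSet_Eb _ _ _ _ _)
  exact this measurableSet_Ioi

theorem meas_ev' {M : Model} (F : M.All) {L : ℝ} (hL : 0 ≤ L) : MeasurableSet (q.ev M.ξ L) :=
  GGhat_le _ _ (q.meas_ev F hL)

theorem val_mono {ξ L K : ℝ} {d₁ d₂ : Met} (h₁ : GoodH d₁) (h₂ : GoodH d₂)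
    (h : MClose ξ K q.A d₁ d₂) {s₁ t₁ s₂ t₂ : Set ℂ} (hs : s₂ ⊆ s₁) (ht : t₁ ∩ q.A ⊆ t₂) :
    q.val (exp (2 * ξ * L)) d₁ s₁ t₁ ≤ q.val (exp (2 * ξ * (L + K))) d₂ s₂ t₂ := by
  refine XX_mono q.he (p := mkPat W (exp (2 * ξ * L)) d₁ s₁ t₁)
    (q := mkPat W (exp (2 * ξ * (L + K))) d₂ s₂ t₂) (B := Eb (exp (2 * ξ * L)) q.j q.m d₁ s₁)
    (B' := Eb (exp (2 * ξ * (L + K))) q.j q.m d₂ s₂)
    ⟨fun n v hv hb => ⟨hb.1, fun j hj => ?_⟩, ht⟩ q.ball_sub fun n' a' _ h' hE => ?_
  · obtain ⟨κ, hκ, hT⟩ := h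
    have hw := ((osq_subset_ann n v hj).trans (ann_subset_reg n v)).trans hv
    have hb' := hb.2 j hj
    rw [blk_iff] at hb' ⊢
    refine (hb'.mono (inter_subset_left.trans hs)).of_le (exp_pos _).le
      (mul_pos hκ (exp_pos (-(ξ * K)))) ?_ (fun p => (hT (_, _) (half_pos (EN.sc_pos n)) hw p).2)
      fun p => (hT (_, _) (half_pos (EN.sc_pos n)) hw p).1
    rw [mul_left_comm, ← exp_add, mul_left_comm, ← exp_add]
    congr 2
    ring
  · refine Eb.mono h₁ h₂ (exp_pos _).le (h.mono (q.fr_sub h')) (inter_subset_left.trans hs) ?_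
    rwa [← exp_add, ← mul_add]

theorem val_smul {κ : ℝ} (hκ : 0 < κ) (lam : ℝ) (d : Met) (s t : Set ℂ) :
    q.val lam (κ • d) s t = q.val lam d s t := by
  have e1 : Eb lam q.j q.m (κ • d) s = Eb lam q.j q.m d s := by
    funext n a
    exact propext (Eb_smul hκ)
  have e2 : mkPat W lam (κ • d) s t = mkPat W lam d s t := by
    have : ∀ u r, blk lam u r (κ • d) s ↔ blk lam u r d s := fun u r => by
      unfold blk
      simp only [AS.crude_T_smul _ hκ.le]
      refine forall₂_congr fun w _ => exists_congr fun x => and_congr_right fun _ => ?_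
      rw [mul_left_comm, mul_div_assoc, mul_le_mul_iff_right₀ hκ]
    simp only [mkPat, Blk, this]
  rw [val, val, e1, e2]

theorem val_pts (lam : ℝ) (d : Met) (s : Set ℂ) {t t' : Set ℂ} (h : t ⊆ t') :
    q.val lam d s t ≤ q.val lam d s t' :=
  XX_mono q.he (p := mkPat W lam d s t) (q := mkPat W lam d s t') (B := Eb lam q.j q.m d s)
    (B' := Eb lam q.j q.m d s) ⟨fun _ _ _ hb => hb, inter_subset_left.trans h⟩ q.ball_sub
    fun _ _ _ _ hE => hE

/-- the true variable is dominated by the variable of the points in `A` -/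
theorem true_le (d : Met) (Y : Set ℂ) :
    XX q.e (AS.tpat W d Y) (Eb 1 q.j q.m d Y) q.k q.n q.a ≤ q.val 1 d (Y ∩ q.A) (Y ∩ q.A) := by
  refine XX_mono q.he (p := AS.tpat W d Y) (q := mkPat W 1 d (Y ∩ q.A) (Y ∩ q.A))
    (B := Eb 1 q.j q.m d Y) (B' := Eb 1 q.j q.m d (Y ∩ q.A))
    ⟨fun n v _ hb => ⟨hb.1, fun j hj => ?_⟩, fun z hz => ⟨hz.1.1, hz.2⟩⟩ q.ball_sub fun n' a' _ _ hE => hE.pts (inter_subset_left.trans inter_subset_left)
  have hb' := hb.2 j hj
  rw [blk_iff] at hb' ⊢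
  exact hb'.mono fun z hz => ⟨hz.1.1, hz.1.2.1⟩

/-- the two point processes in `A` at distortion `L` -/
def ker (γ L : ℝ) : Kernel (Measure ℂ) (Two ℂ) :=
  pk q.A q.meas_A (exp (-(γ * L))).toNNReal (exp (γ * L) - exp (-(γ * L))).toNNReal

instance (γ L : ℝ) : IsMarkovKernel (q.ker γ L) := by
  unfold ker
  infer_instance

/-- the Poisson average of the event -/
def th (ξ γ L : ℝ) (c : Cf) : ℝ≥0∞ :=
  q.ker γ (max L 0) c.2 {z | (c, z) ∈ q.ev ξ (max L 0)}

theorem th_eq {ξ γ L : ℝ} (hL : 0 ≤ L) (c : Cf) :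
    q.th ξ γ L c = q.ker γ L c.2 {z | (c, z) ∈ q.ev ξ L} := by
  rw [th, max_eq_left hL]

theorem cut_self (t : ℝ≥0) (μ : Measure ℂ) : cut q.A t (μ.restrict q.A) = cut q.A t μ := by
  unfold cut
  rw [Measure.restrict_apply_self, Measure.restrict_restrict q.meas_A, inter_self]

theorem ker_restrict (γ L : ℝ) (μ : Measure ℂ) : q.ker γ L (μ.restrict q.A) = q.ker γ L μ := by
  rw [ker, pk_apply, pk_apply, cut_self, cut_self]

theorem cut_le_cut {a b : ℝ≥0} {s : ℝ} (hab : (a : ℝ) * s ≤ b) {μ₁ μ₂ : Measure ℂ}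
    (h₁ : μ₁ q.A < ∞) (h₂ : μ₂ q.A < ∞)
    (hle : μ₁.restrict q.A ≤ ENNReal.ofReal s • μ₂.restrict q.A) :
    cut q.A a μ₁ ≤ cut q.A b μ₂ := by
  rw [cut_of_lt _ h₁, cut_of_lt _ h₂]
  intro S
  have := hle S
  simp only [Measure.smul_apply, smul_eq_mul, ENNReal.smul_def] at this ⊢
  refine (mul_le_mul_right this _).trans ?_
  rw [← mul_assoc, ← ENNReal.ofReal_coe_nnreal (p := a), ← ENNReal.ofReal_mul (NNReal.coe_nonneg a),
    ← ENNReal.ofReal_coe_nnreal (p := b)]
  exact mul_le_mul_left (ENNReal.ofReal_le_ofReal hab) _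

theorem fam {M : Model} (F : M.All) : Fam M.ξ M.γ q.A (q.th M.ξ M.γ) where
  meas L := by
    have h := q.meas_ev F (le_max_right L 0)
    have hr : Measurable[GG q.A] fun c : Cf => c.2.restrict q.A := by
      have := measurable_restrict_GG q.A
      rwa [q.isOpen_A.interior_eq] at this
    have e : q.th M.ξ M.γ L = fun c => ((q.ker M.γ (max L 0)).comap _ hr) c
        (Prod.mk c ⁻¹' q.ev M.ξ (max L 0)) := by
      funext c
      rw [Kernel.comap_apply, ker_restrict]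
      rfl
    rw [e]
    exact Kernel.measurable_kernel_prodMk_left h.1
  le_one L c := prob_le_one
  mono L K c₁ c₂ hL hK h₁ h₂ hf h := by
    have hγ := M.γ_pos
    have hLK : 0 ≤ L + K := add_nonneg hL hK
    have hf₁ : c₁.2 q.A < ∞ := by
      have := h.2.2 univ
      simp only [Measure.smul_apply, Measure.restrict_apply_univ, smul_eq_mul] at this
      exact this.trans_lt (ENNReal.mul_lt_top ENNReal.ofReal_lt_top hf)
    have m₁ : MeasurableSet {z | (c₁, z) ∈ q.ev M.ξ L} := measurable_prodMk_left (q.meas_ev' F hL)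
    have m₂ : MeasurableSet {z | (c₂, z) ∈ q.ev M.ξ (L + K)} :=
      measurable_prodMk_left (q.meas_ev' F hLK)
    have sub : ∀ {x : ℝ}, 0 ≤ x → 0 ≤ exp x - exp (-x) := fun hx =>
      sub_nonneg.2 (exp_le_exp.2 (by linarith))
    rw [th_eq _ hL, th_eq _ hLK, ← lintegral_indicator_one m₁, ← lintegral_indicator_one m₂, ker,
      ker, pk_apply, pk_apply]
    refine lintegral_pp2_mono
      (F₁ := fun s t => (Ioi q.C).indicator 1 (q.val (exp (2 * M.ξ * L)) c₁.1 s (s ∪ t)))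
      (F₂ := fun s t => (Ioi q.C).indicator 1 (q.val (exp (2 * M.ξ * (L + K))) c₂.1 s (s ∪ t)))
      ?_ ?_ (measurable_one.indicator m₁) (measurable_one.indicator m₂)
      fun s₁ t₁ s₂ t₂ k1 k2 => AS.crude_ind_le fun hx => AS.crude_one_le
        (lt_of_lt_of_le hx (q.val_mono h₁ h₂ h.1 k1 (inter_subset_left.trans k2)))
    · refine q.cut_le_cut (le_of_eq ?_) hf hf₁ (le_smul_of_smul_le h.2.1)
      rw [Real.coe_toNNReal _ (exp_pos _).le, Real.coe_toNNReal _ (exp_pos _).le, ← exp_add]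
      congr 1
      ring
    · rw [cut_add, cut_add, ← Real.toNNReal_add (exp_pos _).le (sub (by positivity)),
        ← Real.toNNReal_add (exp_pos _).le (sub (by positivity)), add_sub_cancel, add_sub_cancel]
      refine q.cut_le_cut (le_of_eq ?_) hf₁ hf h.2.2
      rw [Real.coe_toNNReal _ (exp_pos _).le, Real.coe_toNNReal _ (exp_pos _).le, ← exp_add,
        mul_add]

/-- the model side -/
theorem model {M : Model} (F : M.All) {L : ℝ} (hL : 0 ≤ L) (n : ℕ) (g : Fn) :
    ∫⁻ c, q.th M.ξ M.γ L c ∂Pkb M q.m n g = Phatb M L W q.m n g (q.ev M.ξ L) := by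
  have hm := q.meas_ev' F hL
  have e : Phatb M L W q.m n g = Pkb M q.m n g ⊗ₘ pt2K M.γ L W := by
    rw [Phatb, Kernel.compProd_apply_eq_compProd_sectR]
    rfl
  have hfin : ∀ᵐ c ∂Pkb M q.m n g, c.2 W.o < ∞ :=
    (ae_map_iff ((measurable_cfb M q.m n).comp measurable_prodMk_left).aemeasurable
      (measurableSet_lt ((Measure.measurable_coe (measurableSet_o W)).comp measurable_snd)
        measurable_const)).2 ((cfb_good F q.m n g).mono fun _ h => lt_top_of_locFin h.2.1 W)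
  rw [e, Measure.compProd_apply hm]
  refine lintegral_congr_ae (hfin.mono fun c hc => ?_)
  have m₁ : MeasurableSet {z | (c, z) ∈ q.ev M.ξ L} := measurable_prodMk_left hm
  have hA : c.2 q.A < ∞ := (measure_mono inter_subset_left).trans_lt hc
  have hd : Dep q.A ({z | (c, z) ∈ q.ev M.ξ L}.indicator (1 : Two ℂ → ℝ≥0∞)) := fun z w h1 h2 => by
    have := (q.meas_ev F hL).2 c z.1 z.2 w.1 w.2 (by rwa [q.isOpen_A.interior_eq])
      (by rwa [q.isOpen_A.interior_eq])
    by_cases hz : (c, z) ∈ q.ev M.ξ L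
    · rw [indicator_of_mem (by exact hz), indicator_of_mem (by exact this.1 hz)]
      rfl
    · rw [indicator_of_notMem (by exact hz), indicator_of_notMem (by exact fun h => hz (this.2 h))]
  have ec : ∀ t : ℝ≥0, (cut W.o t c.2).restrict q.A = cut q.A t c.2 := fun t => by
    rw [cut_of_lt _ hc, cut_of_lt _ hA, Measure.restrict_smul, Measure.restrict_restrict q.meas_A,
      inter_eq_left.2 (show q.A ⊆ W.o from inter_subset_left)]
  show _ = pt2K M.γ L W c {z | (c, z) ∈ q.ev M.ξ L}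
  rw [th_eq _ hL, ← lintegral_indicator_one m₁, ← lintegral_indicator_one m₁, pt2K_apply, inten_eq,
    inten_eq, lintegral_pp2_restrict (cut W.o _ _) _ q.meas_A (measurable_one.indicator m₁) hd,
    ec, ec, ker, pk_apply]

/-- the surface side -/
theorem surf {M : Model} (F : M.All) {Ω : Type} [MeasurableSpace Ω] {P : Measure Ω} {s : Ω → Cf}
    (hs : Measurable s) {l : ℝ≥0} (hl : 0 < l) {Y : Ω → Set ℂ}
    (hY : IsCox P s (winInt l q.A) fun ω => Y ω ∩ q.A) (hfin : ∀ᵐ ω ∂P, (s ω).2 q.A < ∞)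
    {B : Set Cf} (hB : MeasurableSet B) :
    P (s ⁻¹' B ∩ {ω | q.C <
        XX q.e (AS.tpat W (s ω).1 (Y ω)) (Eb 1 q.j q.m (s ω).1 (Y ω)) q.k q.n q.a}) ≤
      ∫⁻ ω in s ⁻¹' B, q.th M.ξ M.γ 0 (scale M.ξ M.γ (AS.ht M.γ l) (s ω)) ∂P := by
  have hm := q.meas_ev' F le_rfl
  have el : ENNReal.ofReal (exp (M.γ * AS.ht M.γ l)) = l := by
    rw [AS.ht, mul_div_cancel₀ _ M.γ_pos.ne', exp_log (by exact_mod_cast hl),
      ENNReal.ofReal_coe_nnreal]
  have hE1 : MeasurableSet {p : Cf × Tup | q.C < q.val 1 p.1.1 (pts p.2) (pts p.2)} := by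
    have := (measurable_fst.prodMk (measurable_snd.prodMk measurable_snd) :
      Measurable fun p : Cf × Tup => ((p.1, p.2, p.2) : Xi)) hm
    simpa only [preimage, mem_ev, mul_zero, exp_zero, union_self] using this
  let G : Cf → Set ℂ → ℝ≥0∞ := fun c R =>
    {r : Cf × Set ℂ | r.1 ∈ B ∧ q.C < q.val 1 r.1.1 r.2 r.2}.indicator 1 (c, R)
  have hG : Measurable fun p : Cf × Tup => G p.1 (pts p.2) :=
    measurable_one.indicator ((measurable_fst hB).inter hE1)
  rw [← lintegral_indicator (hs hB)]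
  calc _ ≤ P {ω | 1 ≤ G (s ω) (Y ω ∩ q.A)} :=
        measure_mono fun ω hω => AS.crude_one_le (A := {r : Cf × Set ℂ | r.1 ∈ B ∧
          q.C < q.val 1 r.1.1 r.2 r.2}) (x := (s ω, Y ω ∩ q.A))
          ⟨hω.1, lt_of_lt_of_le hω.2 (q.true_le _ _)⟩
    _ ≤ ∫⁻ ω, G (s ω) (Y ω ∩ q.A) ∂P := by
        simpa using mul_meas_ge_le_lintegral₀ (hY.aemeasurable hG) 1
    _ = _ := hY.lintegral_eq hG
    _ ≤ _ := by
        refine lintegral_mono_ae (hfin.mono fun ω hω => ?_)
        by_cases hb : s ω ∈ B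
        · have hx : Measurable fun x : Tup => G (s ω) (pts x) := hG.comp measurable_prodMk_left
          have hf : (scale M.ξ M.γ (AS.ht M.γ l) (s ω)).2 q.A < ∞ :=
            ENNReal.mul_lt_top ENNReal.ofReal_lt_top hω
          have e : winInt l q.A (s ω) = cut q.A (exp (-(M.γ * 0))).toNNReal
              (scale M.ξ M.γ (AS.ht M.γ l) (s ω)).2 := by
            rw [cut_of_lt _ hf, mul_zero, neg_zero, exp_zero, Real.toNNReal_one, one_smul, winInt,
              scale, el]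
          have hm2 : MeasurableSet
              {z | (scale M.ξ M.γ (AS.ht M.γ l) (s ω), z) ∈ q.ev M.ξ 0} := measurable_prodMk_left hm
          rw [indicator_of_mem (by exact hb), th_eq _ le_rfl, ker, pk_apply, e,
            ← lintegral_indicator_one hm2]
          refine (lintegral_pp2_fst _ _ hx).symm.trans_le (lintegral_mono fun y => ?_)
          refine AS.crude_ind_le fun hq => AS.crude_one_le ?_
          show q.C < q.val (exp (2 * M.ξ * 0)) (exp (M.ξ * AS.ht M.γ l) • (s ω).1) (pts y.1)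
            (pts y.1 ∪ pts y.2)
          rw [q.val_smul (exp_pos _), mul_zero, exp_zero]
          exact lt_of_lt_of_le hq.2 (q.val_pts _ _ _ subset_union_left)
        · rw [indicator_of_notMem (by exact hb)]
          refine le_of_eq ((lintegral_congr fun x => ?_).trans lintegral_zero)
          exact indicator_of_notMem (fun h => hb h.1) _

end XP

end Pool.Agent.Lib.MP_0d9445_pr.Bd
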