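import Pool.Agent.Lib.MP_0d9445_pr.Bd.Trans
import Pool.Agent.Lib.MP_0d9445_pr.Bd.SepA
import Pool.Agent.Lib.MP_0d9445_pr.Bd.Mono
import Pool.Agent.Lib.MP_0d9445_pr.Bd.XYFam
import Pool.Agent.Lib.MP_0d9445_pr.AS.Dom
import Pool.Agent.Lib.MP_0d9445_pr.AS.Small

/-! The energy bound up to the real line. -/

open MeasureTheory ProbabilityTheory Set Filter Topology Real LQ.Met
open scoped NNReal ENNReal ComplexConjugate

noncomputable section

namespace Pool.Agent.Lib.MP_0d9445_pr.Bd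

open CR PPP Walk

theorem xy_liminf {α : Type*} [MeasurableSpace α] (P : Measure α) {E : ℕ → Set α} {ε : ℝ≥0∞}
    (h : ∀ᶠ i in atTop, P (E i) ≤ ε) : P {ω | ∀ᶠ i in atTop, ω ∈ E i} ≤ ε := by
  have e : {ω | ∀ᶠ i in atTop, ω ∈ E i} = ⋃ N, ⋂ i ≥ N, E i := by
    ext ω
    simp only [eventually_atTop, mem_ofPred_eq, mem_iUnion, mem_iInter]
  have hm : Monotone fun N => ⋂ i ≥ N, E i := fun _ _ hN =>
    biInter_subset_biInter_left fun _ hi => hN.trans hi
  rw [e, hm.measure_iUnion]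
  refine iSup_le fun N => ?_
  obtain ⟨i, hi, hN⟩ := (h.and (eventually_ge_atTop N)).exists
  exact (measure_mono (biInter_subset_of_mem hN)).trans hi

theorem xy_closure (W : Sq) (m : ℕ) : closure (W.o ∩ above m) ⊆ UH := by
  have : closure (W.o ∩ above m) ⊆ {z : ℂ | sc m ≤ z.im} :=
    closure_minimal (fun z hz => (show sc m < z.im from hz.2).le)
      (isClosed_le continuous_const Complex.continuous_im)
  exact fun z hz => (EN.sc_pos m).trans_le (this hz)

/-- the separating frames are eventually implied by the blocking events -/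
theorem xy_sep {d : Met} (h : SurfH d) {Y : Set ℂ} (hY : Y ⊆ UH) {e : ℕ} (he : 7 ≤ e) (p : Pat)
    (k n : ℕ) (a : ℤ) : ∀ᶠ j in atTop, ∀ᶠ m in atTop,
      XX e p (SepB (AS.vorS (closure UH) d Y)) k n a ≤ XX e p (Eb 1 j m d Y) k n a := by
  have h1 : ∀ r : ℕ × ℤ, ∀ᶠ j in atTop, ∀ᶠ m in atTop,
      Eb 1 j m d Y r.1 r.2 → SepB (AS.vorS (closure UH) d Y) r.1 r.2 := fun r => by
    by_cases hs : SepB (AS.vorS (closure UH) d Y) r.1 r.2
    · exact Eventually.of_forall fun _ => Eventually.of_forall fun _ _ => hs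
    · obtain ⟨j, hj⟩ := not_forall.1 fun hE => hs (sepB_of_Eb h hY hE)
      filter_upwards [eventually_ge_atTop j] with j' hj'
      exact (not_frequently.1 hj).mono fun m hm hE => (hm (hE.anti hj')).elim
  have hf := finite_fr (n + 2 * k * e) n a
  filter_upwards [(eventually_all_finite hf).2 fun r _ => h1 r] with j hj
  filter_upwards [(eventually_all_finite hf).2 hj] with m hm
  exact XX_mono he (A := univ) ⟨fun _ _ _ hb => hb, inter_subset_left⟩ (subset_univ _)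
    fun n' a' h1 h2 => hm (n', a') ⟨h1, h2⟩

variable {M : Model} {Ω : Type} [MeasurableSpace Ω] {P P₀ : Measure Ω} {h φ : Ω → Field}
  {g f₁ : Ω → ℂ → ℝ} {Z : Set ℂ} {d : Ω → Met} {m : Ω → Measure ℂ} {Y : ℝ≥0 → Ω → Set ℂ}

/-- the probabilistic part -/
theorem BSurf0.xx (F : M.All) (hO : OutB M) (hS : BSurf0 M P P₀ h φ g f₁ Z d m)
    (hY : ∀ l, IsPPP P d m l (Y l)) (hU : ∀ l ω, Y l ω ⊆ UH) {W : Sq} (hW : Wok Z W) :
    AS.Likely P fun ω l => XXB W (d ω) fun i => Y (l i) ω := by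
  have hs : Measurable fun ω => ((d ω, m ω) : Cf) := hS.surf.measd.prodMk hS.surf.measm
  obtain ⟨G, hG, hcov, hT⟩ := hS.transA F hW
  refine (AS.Likely.of_exhaust (G := fun K => (fun ω => ((d ω, m ω) : Cf)) ⁻¹' G K) hcov
    (p := fun _ ω l => XXB W (d ω) fun i => Y (l i) ω) fun K => ?_).mono fun _ _ _ ⟨_, _, a⟩ => a
  obtain ⟨L, C', hL, hT⟩ := hT K
  obtain ⟨e, he, C, hC⟩ := hO L hL W hW.sub
  have key : ∀ r : ℕ × ℤ, bball r.1 r.2 ∩ UH ⊆ W.o → Tendsto (fun l => P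
      ((fun ω => ((d ω, m ω) : Cf)) ⁻¹' G K ∩ {ω | (C : ℝ≥0∞) < ⨆ k, XX e (AS.tpat W (d ω) (Y l ω))
        (SepB (AS.vorS (closure UH) (d ω) (Y l ω))) k r.1 r.2})) atTop (𝓝 0) := by
    rintro ⟨n, a⟩ hw
    refine ENNReal.tendsto_nhds_zero.2 fun ε hε => ?_
    obtain ⟨T, hT'⟩ := hC n a hw (ε / C') (ENNReal.div_pos hε.ne' ENNReal.coe_ne_top)
    filter_upwards [(AS.tendsto_ht (M := M)).eventually_ge_atTop T, eventually_gt_atTop 0]
      with l hlT hl
    have e1 : (fun ω => ((d ω, m ω) : Cf)) ⁻¹' G K ∩ {ω | (C : ℝ≥0∞) < ⨆ k, XX e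
        (AS.tpat W (d ω) (Y l ω)) (SepB (AS.vorS (closure UH) (d ω) (Y l ω))) k n a} =
        ⋃ k, (fun ω => ((d ω, m ω) : Cf)) ⁻¹' G K ∩ {ω | (C : ℝ≥0∞) < XX e
          (AS.tpat W (d ω) (Y l ω)) (SepB (AS.vorS (closure UH) (d ω) (Y l ω))) k n a} := by
      rw [← inter_iUnion]
      congr 1
      ext ω
      simp only [lt_iSup_iff, mem_ofPred_eq, mem_iUnion]
    have hm : Monotone fun k => (fun ω => ((d ω, m ω) : Cf)) ⁻¹' G K ∩ {ω | (C : ℝ≥0∞) < XX e
        (AS.tpat W (d ω) (Y l ω)) (SepB (AS.vorS (closure UH) (d ω) (Y l ω))) k n a} :=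
      fun _ _ hk => inter_subset_inter_right _ fun _ hω => lt_of_lt_of_le hω (XX_mono_k _ _ _ _ _ hk)
    rw [e1, hm.measure_iUnion]
    refine iSup_le fun k => ?_
    refine le_trans (measure_mono_ae ?_) (xy_liminf P (E := fun j => {ω | ∀ᶠ m' in atTop,
      ω ∈ (fun ω => ((d ω, m ω) : Cf)) ⁻¹' G K ∩ {ω | (C : ℝ≥0∞) < XX e
        (AS.tpat W (d ω) (Y l ω)) (Eb 1 j m' (d ω) (Y l ω)) k n a}})
      (Eventually.of_forall fun j => xy_liminf P ?_))
    · filter_upwards [hS.surfH] with ω hω hb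
      exact (xy_sep hω (hU l ω) he _ k n a).mono fun j hj => hj.mono fun m' hm' =>
        ⟨hb.1, lt_of_lt_of_le hb.2 hm'⟩
    · filter_upwards [hT, hT' k j, eventually_ge_atTop (n + 2 * k * e)] with m' h1 h2 h3
      let q : XP W := ⟨e, C, k, n, a, j, m', he, hw, h3⟩
      have hb : Bornology.IsBounded q.A :=
        (isBounded_csq _ _).subset (inter_subset_left.trans (osq_subset_csq _ _))
      have hfin : ∀ᵐ ω ∂P, m ω q.A < ∞ := (hS.massH F).mono fun ω hω =>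
        (measure_mono subset_closure).trans_lt (hω.fin _ hb.isCompact_closure (xy_closure W m'))
      refine (q.surf F hs hl (hS.cox F (hY l) q.meas_A hb (xy_closure W m')) hfin (hG K)).trans ?_
      refine (h1 _ (q.fam F) _).trans (le_trans (mul_le_mul_right ?_ _) ENNReal.mul_div_le)
      exact (lintegral_congr fun g' => q.model F hL 0 _).trans_le (h2 _ hlT)
  refine (AS.Likely.all fun r : ℕ × ℤ => AS.Likely.imp fun hw =>
    AS.Likely.of_tendsto_inter (key r hw)).mono fun ω l _ a hK => ⟨e, C, he, fun n b hw => ?_⟩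
  exact (a (n, b) hw hK).mono fun i hi => not_lt.1 hi

end Pool.Agent.Lib.MP_0d9445_pr.Bd
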