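import Pool.Agent.Lib.MP_0d9445_pr.Bd.D2b
import Pool.Agent.Lib.MP_0d9445_pr.Bd.Basic
import Pool.Agent.Lib.MP_0d9445_pr.AS.Dom

/-! The energy bound up to the real line, deterministic part. -/

open MeasureTheory ProbabilityTheory Set Filter Topology Real LQ.Met
open scoped NNReal ENNReal ComplexConjugate

noncomputable section

namespace Pool.Agent.Lib.MP_0d9445_pr.Bd

open CR PPP Walk

theorem XYd_sum_le (N : FC) (hV : (N.V : Set ℂ) ⊆ UH) {n : ℕ} {c r : ℝ} (hr : r ≤ sc n)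
    {F : ℂ → ℝ} (hF : ∀ x, 0 ≤ F x) {B : ℝ}
    (hB : ∀ a ∈ Finset.Icc (⌊c / sc n⌋ - 1) (⌊c / sc n⌋ + 1), ∑ x ∈ N.pts (bbox n a), F x ≤ B) :
    ∑ x ∈ N.pts (Cell.sqC c r), F x ≤ 3 * B := by
  have h0 := sc_pos n
  have hm : ∀ x ∈ N.pts (Cell.sqC c r),
      ⌊x.re / sc n⌋ ∈ Finset.Icc (⌊c / sc n⌋ - 1) (⌊c / sc n⌋ + 1) := fun x hx => by
    have h1 := (Cell.sn_le_iff.1 (N.mem_pts.1 hx).2).1
    have h2 := abs_le.1 (Geo_floor_nbh (R := 1) (x := c) (x' := x.re) h0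
      (by simpa using h1.trans hr))
    exact Finset.mem_Icc.2 ⟨by omega, by omega⟩
  rw [← Finset.sum_fiberwise_of_maps_to hm]
  refine (Finset.sum_le_card_nsmul _ _ B fun a ha => le_trans ?_ (hB a ha)).trans (le_of_eq ?_)
  · refine Finset.sum_le_sum_of_subset_of_nonneg (fun x hx => ?_) fun x _ _ => hF x
    obtain ⟨h1, h2⟩ := Finset.mem_filter.1 hx
    obtain ⟨h3, h4⟩ := N.mem_pts.1 h1
    obtain ⟨h5, h6⟩ := (Geo_floor_iff h0 a).2 h2
    have h7 := (Cell.sn_le_iff.1 h4).2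
    rw [Complex.ofReal_im, sub_zero] at h7
    exact N.mem_pts.2 ⟨h3, h5, h6, hV h3, by linarith [le_abs_self x.im]⟩
  · rw [Int.card_Icc, show ⌊c / sc n⌋ + 1 + 1 - (⌊c / sc n⌋ - 1) = 3 by ring, nsmul_eq_mul]
    rfl

theorem XYd_wok {Z : Set ℂ} (hZ : Z.Finite) {t : ℝ} (ht : (t : ℂ) ∉ Z) :
    ∃ t' ρ : ℚ, Wok Z (⟨t', ρ⟩, ρ) ∧ |t - t'| < ρ / 2 := by
  obtain ⟨δ, hδ, hb⟩ := Metric.isOpen_iff.1 hZ.isClosed.isOpen_compl _ ht
  obtain ⟨ρ, h1, h2⟩ := exists_rat_btwn (show 0 < δ / 4 by positivity)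
  obtain ⟨t', h3, h4⟩ := exists_rat_btwn (show t < t + ρ / 2 by linarith)
  refine ⟨t', ρ, ⟨h1, fun z hz => ?_, Set.disjoint_left.2 fun z hz => hb ?_⟩,
    abs_lt.2 ⟨by linarith, by linarith⟩⟩
  · have := (abs_lt.1 hz.2).1
    show 0 < z.im
    simp only at this
    linarith
  · have a := abs_le.1 hz.1
    have b := abs_le.1 hz.2
    have k := Complex.norm_le_abs_re_add_abs_im (z - t)
    simp only [Complex.sub_re, Complex.sub_im, Complex.ofReal_re, Complex.ofReal_im,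
      sub_zero] at a b k
    have a' : |z.re - t| ≤ 3 / 2 * ρ := abs_le.2 ⟨by linarith, by linarith⟩
    have b' : |z.im| ≤ 2 * ρ := abs_le.2 ⟨by linarith, by linarith⟩
    rw [mem_ball_iff_norm]
    linarith

theorem xyB_of {d : Met} (h : SurfH d) {Z : Set ℂ} (hZ : Z.Finite) {Y : ℕ → Set ℂ}
    (hU : ∀ i, Y i ⊆ UH) (hN : NiceB fun i => AS.vorS (closure UH) d (Y i))
    (hX : ∀ t ρ : ℚ, Wok Z (⟨t, ρ⟩, ρ) → XXB (⟨t, ρ⟩, ρ) d Y) :
    XYB Z fun i => AS.vorS (closure UH) d (Y i) := by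
  intro t ht
  obtain ⟨t', ρ, hW, htt⟩ := XYd_wok hZ ht
  obtain ⟨e, C, he, hC⟩ := hX t' ρ hW
  obtain ⟨C₁, hC₁⟩ := xy_bbox he
  have hρ : (0 : ℝ) < ρ := hW.pos
  have hWc : Sq.c (⟨t', ρ⟩, ρ) ⊆ closure UH := fun z hz => by
    have := (abs_le.1 hz.2).1
    simp only at this
    exact mem_closure_UH.2 (by linarith)
  refine ⟨36 * C₁ * C, min (ρ / 1000) 1, by positivity, fun c r hr hr0 hc => ?_⟩
  obtain ⟨l, l1, l2⟩ := D2.exists_level (d := 1) (c := 1) le_rfl 0 hr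
    (by simpa [sc] using hr0.trans (min_le_right _ _))
  rw [zero_add, mul_one, one_mul] at l1 l2
  rw [sc_add] at l1
  have h0 := sc_pos l
  have hr1 := hr0.trans (min_le_left _ _)
  have hc1 := abs_le.1 (hc.trans (min_le_left _ _))
  have ht1 := abs_lt.1 htt
  have hre : ∀ i ∈ Finset.Icc (⌊c / sc l⌋ - 2) (⌊c / sc l⌋ + 2),
      |sc l * (i + 1 / 2) - t'| ≤ 11 / 20 * ρ := fun i hi => by
    obtain ⟨k1, k2⟩ := (Geo_floor_iff (x := c) h0 _).2 rfl
    obtain ⟨k3, k4⟩ := Finset.mem_Icc.1 hi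
    have k5 : (⌊c / sc l⌋ : ℝ) - 2 ≤ i := by exact_mod_cast k3
    have k6 : (i : ℝ) ≤ ⌊c / sc l⌋ + 2 := by exact_mod_cast k4
    have k7 := mul_le_mul_of_nonneg_left k5 h0.le
    have k8 := mul_le_mul_of_nonneg_left k6 h0.le
    rw [abs_le]
    constructor <;> linarith
  have hb : ∀ i ∈ Finset.Icc (⌊c / sc l⌋ - 2) (⌊c / sc l⌋ + 2),
      bball l i ∩ UH ⊆ Sq.o (⟨t', ρ⟩, ρ) := fun i hi z hz => by
    have k1 := mem_ball_iff_norm.1 hz.1
    have k2 := abs_lt.1 ((Complex.abs_re_le_norm _).trans_lt k1)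
    have k3 := abs_lt.1 ((Complex.abs_im_le_norm _).trans_lt k1)
    have k4 := abs_le.1 (hre i hi)
    have k5 : 0 < z.im := hz.2
    simp only [yb, Complex.sub_re, Complex.sub_im, Complex.ofReal_re, Complex.ofReal_im,
      sub_zero] at k2 k3
    exact ⟨abs_lt.2 ⟨by simp only; linarith, by simp only; linarith⟩,
      abs_lt.2 ⟨by simp only; linarith, by simp only; linarith⟩⟩
  filter_upwards [(eventually_all_finset _).2 fun i hi => hC l i (hb i hi),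
    hN _ (isCompact_csq _ _) hWc _ (sc_pos (l + e))] with j h1 h2 K
  have hY : Y j ⊆ closure UH := (hU j).trans subset_closure
  have key : ∀ a ∈ Finset.Icc (⌊c / sc l⌋ - 1) (⌊c / sc l⌋ + 1),
      ((AS.vorS (closure UH) d (Y j)).toFC K).X (bbox l a) ≤ C₁ * sc l ^ 2 * (3 * C) ∧
      ((AS.vorS (closure UH) d (Y j)).toFC K).Y (bbox l a) ≤ C₁ * sc l ^ 2 * (3 * C) := by
    intro a ha
    obtain ⟨a1, a2⟩ := Finset.mem_Icc.1 ha
    have ha' : a ∈ Finset.Icc (⌊c / sc l⌋ - 2) (⌊c / sc l⌋ + 2) :=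
      Finset.mem_Icc.2 ⟨by omega, by omega⟩
    have h3 := hC₁ _ _ _ K _ l a (AS.dom_tpat h.nearGeo hY hWc) (fun _ _ k => k) (hU j)
      (fun x hx ⟨z, z1, z2⟩ => by
        have k1 := abs_lt.1 z2.1
        have k2 := abs_lt.1 z2.2
        have k3 := mem_closure_UH.1 z1.1
        have k4 := abs_le.1 (hre a ha')
        have hxV := (mem_toFC h2.1).2 ⟨hx, z, z1,
          abs_le.2 ⟨by simp only; linarith, by simp only; linarith⟩,
          abs_le.2 ⟨by simp only; linarith, by simp only; linarith⟩⟩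
        exact ⟨(h2.2.cpt x hxV).isBounded, h2.2.diam x hxV⟩) (hb a ha')
    have h4 := Finset.sum_le_card_nsmul (Finset.Icc (a - 1) (a + 1)) _ _ fun i hi =>
      h1 i (Finset.mem_Icc.2 ⟨by have := Finset.mem_Icc.1 hi; omega,
        by have := Finset.mem_Icc.1 hi; omega⟩)
    rw [Int.card_Icc, show a + 1 + 1 - (a - 1) = 3 by ring, nsmul_eq_mul] at h4
    have e1 : (C₁ : ℝ≥0∞) * ENNReal.ofReal (sc l ^ 2) * (((3 : ℤ).toNat : ℝ≥0∞) * C) =
        ENNReal.ofReal (C₁ * sc l ^ 2 * (3 * C)) := by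
      rw [ENNReal.ofReal_mul (by positivity), ENNReal.ofReal_mul (by positivity),
        ENNReal.ofReal_mul (by norm_num), ENNReal.ofReal_coe_nnreal, ENNReal.ofReal_coe_nnreal]
      simp
    exact ⟨(ENNReal.ofReal_le_ofReal_iff (by positivity)).1
        ((h3.1.trans (mul_le_mul_right h4 _)).trans_eq e1),
      (ENNReal.ofReal_le_ofReal_iff (by positivity)).1
        ((h3.2.trans (mul_le_mul_right h4 _)).trans_eq e1)⟩
  have hV := (toFC_V_subset (AS.vorS (closure UH) d (Y j)) K).trans (hU j)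
  have hfin : 3 * (C₁ * sc l ^ 2 * (3 * C)) ≤ 36 * C₁ * C * r ^ 2 := by
    have k1 : sc l ^ 2 ≤ (2 * r) ^ 2 := pow_le_pow_left₀ h0.le (by linarith) 2
    have k2 := mul_le_mul_of_nonneg_left k1 (by positivity : (0 : ℝ) ≤ 9 * C₁ * C)
    linarith
  constructor
  · simp only [D2.X_eq] at key ⊢
    exact (XYd_sum_le _ hV l2 (fun x => by positivity) fun a ha => (key a ha).1).trans hfin
  · exact (XYd_sum_le _ hV l2 (fun x => sq_nonneg _) fun a ha => (key a ha).2).trans hfin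

end Pool.Agent.Lib.MP_0d9445_pr.Bd
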