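import Pool.Agent.Lib.MP_0d9445_pr.AS.Main
import Pool.Agent.Lib.MP_0d9445_pr.Bd.WAll
import Pool.Agent.Lib.MP_0d9445_pr.Bd.Chart
import Pool.Agent.Lib.MP_0d9445_pr.Bd.Clock
import Pool.Agent.Lib.MP_0d9445_pr.Bd.Inst
import Pool.Agent.Lib.MP_0d9445_pr.Bd.Soft
import Pool.Agent.Lib.MP_0d9445_pr.Bd.XY
import Pool.Agent.Lib.MP_0d9445_pr.Bd.XYd
import Pool.Agent.Lib.MP_0d9445_pr.Bd.SurfOf
import Pool.Agent.Lib.MP_0d9445_pr.Bd.Wedge
import Pool.Agent.Lib.MP_0d9445_pr.Bd.Disk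

/-! The assembly for the wedge and the disk. -/

open MeasureTheory ProbabilityTheory Set Filter Topology Real LQ.Met
open scoped NNReal ENNReal

noncomputable section

namespace Pool.Agent.Lib.MP_0d9445_pr.Bd

open CR PPP Walk BM AS

/-- the walks on the Voronoi graphs in `closure O`, stopped on leaving `O`, converge to the time
change of Brownian motion from `z`, stopped on leaving `O` -/
def ConvB (O : Set ℂ) (d : Met) (μ : Measure ℂ) (Y : ℕ → Set ℂ) (τ : ℕ → ℝ) (z : ℂ) : Prop :=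
  ∀ x : ℕ → ℂ, (∀ᶠ n in atTop, x n ∈ Y n) → Tendsto x atTop (𝓝 z) →
    ∀ (W : Measure Path) (B : Path → StieltjesFunction ℝ≥0), IsWiener W → PCAF W μ B →
      PathConv (Px W z) (fun t b => lbmPath b (B b) O t)
        (fun n => (vorOn (closure O) d (Y n)).step O) x τ

/-- the point sets lie in `O` and become dense -/
def DenseIn (O : Set ℂ) (Y : ℕ → Set ℂ) : Prop :=
  (∀ n, Y n ⊆ O) ∧ ∀ z ∈ O, ∀ ε > 0, ∀ᶠ n in atTop, ∃ p ∈ Y n, p ∈ O ∧ dist p z < ε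

variable {M : Model} {Ω : Type} [MeasurableSpace Ω] {P P₀ : Measure Ω} {h φ : Ω → Field}
  {f g f₁ : Ω → ℂ → ℝ} {Z O E : Set ℂ} {d : Ω → Met} {m : Ω → Measure ℂ}
  {Y : ℝ≥0 → Ω → Set ℂ} {A κ : ℝ → ℝ} {χ χi : ℂ → ℂ}

/-- the environment up to the real line, along a subsequence -/
theorem BSurf0.env (F : M.All) (R : RefOK M) (hL : LocalLaw M A κ) (hsoft : SoftB M)
    (hS : BSurf0 M P P₀ h φ g f₁ Z d m) (hY : ∀ l, IsPPP P d m l (Y l)) (hU : ∀ l ω, Y l ω ⊆ UH)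
    (hac : ACH M P (fun ω => (d ω, m ω)) (Metric.sphere 0 1)) {l : ℕ → ℝ≥0}
    (hl : Tendsto l atTop atTop) : ∃ ψ : ℕ → ℕ, StrictMono ψ ∧ ∀ᵐ ω ∂P,
      MeasOK (m ω) UH ∧
      Env UH (m ω) (fun i => vorOn (closure UH) (d ω) (Y (l (ψ i)) ω)) (fun _ => univ)
        (fun i => A (ht M.γ (l (ψ i)))) (fun i => κ (ht M.γ (l (ψ i))) * l (ψ i)) ∧
      EnvB Z fun i => vorOn (closure UH) (d ω) (Y (l (ψ i)) ω) := by
  haveI := hS.prob
  have hs := hS.surfOf F R hY hU Metric.isClosed_sphere (Measure.addHaar_sphere _ _ _) hac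
  have hO := outB F hsoft
  have hx : Likely P fun ω l => ∀ t ρ : ℚ, Wok Z (⟨t, ρ⟩, ρ) →
      XXB (⟨t, ρ⟩, ρ) (d ω) fun i => Y (l i) ω :=
    Likely.all fun t => Likely.all fun ρ => Likely.imp fun hW => hS.xx F hO hY hU hW
  obtain ⟨ψ, hψ, hE⟩ := ((hs.env_likely micro_ok F R hL).and hx).subseq hl
  refine ⟨ψ, hψ, ?_⟩
  filter_upwards [hE, hs.measOK R, hS.surfH,
    ae_all_iff.2 fun i => ppp_finite (hY (l (ψ i))) hS.surf.measm] with ω ⟨h1, h2⟩ h3 h4 h5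
  have h6 := h1 fun i => (hU _ ω).trans subset_closure
  have h7 : NiceB fun i => vorS (closure UH) (d ω) (Y (l (ψ i)) ω) :=
    h4.nice finite_empty (fun i => hU _ ω) h5 fun K hK hKU =>
      h6.nice K hK (hKU.trans diff_subset)
  exact ⟨h3, h6, fun i => ⟨hU _ ω, fun _ _ hw => hw.1⟩, h7,
    xyB_of h4 hS.fin (fun i => hU _ ω) h7 h2⟩

theorem conv_of_chart (F : M.All) (R : RefOK M) (hL : LocalLaw M A κ) (hsoft : SoftB M)
    (c : Chart χ χi O E)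
    (hS : IsSurfVia M.γ M.ξ M.D M.μ χ O P h f d m) (hY : ∀ l, IsPPP P d m l (Y l))
    (hB : BSurf0 M P P₀ h φ g f₁ Z (fun ω => c.pull (d ω)) fun ω => (m ω).map (kap χi O E))
    (hac : ACH M P (fun ω => (c.pull (d ω), (m ω).map (kap χi O E))) (Metric.sphere 0 1))
    {l : ℕ → ℝ≥0}
    (hl : Tendsto l atTop atTop) : ∃ ψ : ℕ → ℕ, StrictMono ψ ∧ ∀ᵐ ω ∂P,
      DenseIn O (fun n => Y (l (ψ n)) ω) ∧ ∀ z ∈ O,
      ConvB O (d ω) (m ω) (fun n => Y (l (ψ n)) ω) (fun n => tau M.γ A κ (l (ψ n))) z := by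
  haveI := hB.prob
  have ha := c.area hS
  have h0 : ∀ᵐ ω ∂P, m ω Oᶜ = 0 := ha.mono fun _ a => a.2.2.2
  obtain ⟨ψ, hψ, hE⟩ := hB.env F R hL hsoft (fun l => c.ppp (hY l) h0)
    (fun _ _ => inter_subset_left) hac hl
  refine ⟨ψ, hψ, ?_⟩
  filter_upwards [hE, ha, hB.massH F, hS.metric, ae_all_iff.2 fun i =>
    ppp_subset (hY (l (ψ i))) c.isOpen.measurableSet h0] with ω ⟨h1, h2, h3⟩ h4 h5 h6 h7
  have hd : ∀ w ∈ UH, ∀ δ > 0, ∀ᶠ n in atTop, ∃ p ∈ UH ∩ χ ⁻¹' Y (l (ψ n)) ω, dist p w ≤ δ :=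
    fun w hw δ hδ => (dense_of_nice h3.nice isCompact_singleton (singleton_subset_iff.2
      (subset_closure (subset_closure hw))) hδ).mono fun _ a => a w rfl
  refine ⟨⟨h7, fun z hz ε hε => ?_⟩, fun z hz x hx hxz W B hW hA => ?_⟩
  · obtain ⟨w, hw, rfl⟩ := c.image.symm ▸ hz
    filter_upwards [hd w hw (ε / 4) (by positivity)] with n ⟨p, hp, e⟩
    refine ⟨χ p, hp.2, h7 n hp.2, ?_⟩
    have := c.lip.dist_le_mul p (subset_closure hp.1) w (subset_closure hw)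
    push_cast at this
    linarith
  have e : UH \ Z = UH := sdiff_eq_left.2 hB.bdry.symm
  haveI := h5.sigmaFinite_map c
  rw [← h4.2.2.1] at hA
  have hA' := isPCAF_of_revuz hW hA.meas hA.adapted hA.additive hA.revuz
  have hr := c.rel h6 h7 hd
  exact pathConv_congr (halfC_ok W χ χi O E Z _ _ _ _ _ x z B hW c hB.fin h4.2.1
    (fun y _ => clock_chart_ok hW c h4.2.1 hA' h1 y) (e.symm ▸ h2) h3 hr hx hxz (by rwa [e, c.image]))
    (tau_eq (hl.comp hψ.tendsto_atTop) _ _ _)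

theorem pull_diag (c : Chart χ χi O E) (hS : IsSurfVia M.γ M.ξ M.D M.μ χ O P h f d m) :
    ∀ᵐ ω ∂P, ∀ z, c.pull (d ω) (z, z) = 0 :=
  hS.metric.mono fun _ hω z => hω.self _ (c.mem (fold_mem z)).1

theorem main (F : M.All) (R : RefOK M) (hL : LocalLaw M A κ) [IsProbabilityMeasure P]
    (hc : IsWedge M.γ M.Q P h f ∧ O = UH ∧ IsSurfVia M.γ M.ξ M.D M.μ id O P h f d m ∨
      (∃ ℓ > 0, IsDisk M.γ M.Q ℓ P h f) ∧ O = Metric.ball 0 1 ∧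
        IsSurfVia M.γ M.ξ M.D M.μ cayley O P h f d m)
    (hY : ∀ l, IsPPP P d m l (Y l)) {l : ℕ → ℝ≥0} (hl : Tendsto l atTop atTop) :
    ∃ ψ : ℕ → ℕ, StrictMono ψ ∧ ∀ᵐ ω ∂P, DenseIn O (fun n => Y (l (ψ n)) ω) ∧ ∀ z ∈ O,
      ConvB O (d ω) (m ω) (fun n => Y (l (ψ n)) ω) (fun n => tau M.γ A κ (l (ψ n))) z := by
  rcases hc with ⟨hc, rfl, hS⟩ | ⟨⟨ℓ, hℓ, hc⟩, rfl, hS⟩
  · obtain ⟨φ, g, f₁, h1, h2⟩ := wedge_bsurf F hc (chart_id.surf hS) (pull_diag chart_id hS)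
    exact conv_of_chart F R hL (h1.softB F) chart_id hS hY h1.toBSurf0 (h1.ach h2) hl
  · obtain ⟨P₀, φ, g, f₁, h1, h2⟩ :=
      disk_bsurf F hℓ hc (chart_cayley.surf hS) (pull_diag chart_cayley hS)
    exact conv_of_chart F R hL (h1.softB F) chart_cayley hS hY h1.toBSurf0 (h1.ach h2) hl

end Pool.Agent.Lib.MP_0d9445_pr.Bd
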