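import Pool.Agent.Lib.MP_0d9445_pr.Bd.WIface
import Pool.Agent.Lib.MP_0d9445_pr.Bd.Sticky
import Pool.Agent.Lib.MP_0d9445_pr.Walk.PfGlob
import Pool.Agent.Lib.MP_0d9445_pr.Walk.PfPlane
import Pool.Agent.Lib.MP_0d9445_pr.Walk.PfP3

noncomputable section

open MeasureTheory ProbabilityTheory Set Filter Topology
open scoped NNReal ENNReal Classical

namespace Pool.Agent.Lib.MP_0d9445_pr.Bd

open BM Cell Walk PfGlob PfPlane

namespace PgHalfA

theorem exists_anti (e : ℕ → ℝ) (he : ∀ k, 0 < e k) :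
    ∃ s : ℕ → ℝ, Antitone s ∧ ∀ k, 0 < s k ∧ s k ≤ e k := by
  refine ⟨fun k => Nat.rec (e 0) (fun k r => min r (e (k + 1))) k,
    antitone_nat_of_succ_le fun k => min_le_left _ _, fun k => ?_⟩
  induction k with
  | zero => exact ⟨he 0, le_rfl⟩
  | succ k ih => exact ⟨lt_min ih.1 (he _), min_le_right _ _⟩

theorem frames_inter {V : Set ℂ} (h : Frames V) (s : ℝ) : Frames (V ∩ {w : ℂ | s < w.im}) := by
  obtain ⟨r₀, h0, h⟩ := h
  refine ⟨r₀, h0, fun c r h1 h2 h3 => subset_inter (h c r h1 h2 (h3.trans inter_subset_left)) ?_⟩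
  exact (sqO_subset c r).trans (sqC_subset_of_convex
    ((convex_Ioi s).linear_preimage Complex.imLm) (h3.trans inter_subset_right))

theorem toC_tendsto {ψ : ℂ → ℂ} {Λ : ℝ≥0} (hψ : LipschitzWith Λ ψ) (T : ℝ) {y : ℕ → ℝ → ℂ}
    {y' : ℝ → ℂ} (hc : ∀ k, Continuous (y k)) (h : TendstoUniformly y y' atTop) :
    Tendsto (fun k => toC T fun t => ψ (y k t)) atTop (𝓝 (toC T fun t => ψ (y' t))) := by
  have hc' : Continuous y' := h.continuous (Eventually.of_forall hc).frequently
  have e1 : ∀ v : ℝ → ℂ, Continuous v →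
      ⇑(toC T fun t => ψ (v t)) = fun t : Icc (0 : ℝ) T => ψ (v t) := fun v hv => by
    have h0 : Continuous fun t : Icc (0 : ℝ) T => (fun t => ψ (v t)) t :=
      hψ.continuous.comp (hv.comp continuous_subtype_val)
    unfold toC
    rw [dif_pos h0]
    rfl
  rw [ContinuousMap.tendsto_iff_tendstoUniformly, e1 y' hc']
  simp only [fun k => e1 (y k) (hc k)]
  exact (hψ.uniformContinuous.comp_tendstoUniformly h).comp _

theorem exp_congr (hW : WalkBasics) {St : ℂ → Set ℂ} {R : Set ℂ} {x : ℂ} {L : ℕ}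
    {G G' : (ℕ → ℂ) → ℝ} (hR : Closed St R) (hx : x ∈ R) (h : ∀ w, (∀ i, w i ∈ R) → G w = G' w) :
    walkExp St L x G = walkExp St L x G' :=
  le_antisymm (hW.mono St R L x _ _ hR hx fun w hw => (h w (hW.traj_mem St R L x w hR hx hw)).le)
    (hW.mono St R L x _ _ hR hx fun w hw => (h w (hW.traj_mem St R L x w hR hx hw)).ge)

/-- The last position is seen by the cut-off functional. -/
theorem last_le (hW : WalkBasics) (hIp : Ip) {St : ℂ → Set ℂ} {R B : Set ℂ} {x : ℂ} {m T : ℝ}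
    (φ : C(ℂ, ℝ)) (hφ : ∀ w, φ w ∈ Icc (0 : ℝ) 1) (hR : Closed St R) (hx : x ∈ R) (hm : 2 ≤ m)
    (hT : 0 < T) (hB : ∀ y ∈ B, φ y = 1) :
    walkExp St (⌈m * T⌉₊ + 1) x (fun w => if w (⌈m * T⌉₊ + 1) ∈ B then 1 else 0) ≤
      walkExp St (⌈m * (T + 1)⌉₊ + 1) x
        fun w => theta (T + 1) φ hφ (toC (T + 1) (interp m w)) := by
  have hm0 : 0 < m := by linarith
  have hL : ⌈m * T⌉₊ + 1 ≤ ⌈m * (T + 1)⌉₊ + 1 := Nat.succ_le_succ (Nat.ceil_mono (by nlinarith))
  rw [← hW.trunc St R (⌈m * T⌉₊ + 1) (⌈m * (T + 1)⌉₊ + 1) x _ hR hx hL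
    (fun w w' hww => by rw [hww _ le_rfl])]
  refine hW.mono _ R _ x _ _ hR hx fun w _ => ?_
  split_ifs with hex
  · obtain ⟨hcont, hk, -⟩ := hIp m w hm0
    have hcont' : Continuous fun t : Icc (0 : ℝ) (T + 1) => interp m w t :=
      hcont.comp (f := fun t : Icc (0 : ℝ) (T + 1) => (⟨t.1, t.2.1⟩ : Ici (0 : ℝ)))
        (continuous_subtype_val.subtype_mk _)
    have hti : ((⌈m * T⌉₊ + 1 : ℕ) : ℝ) / m ∈ Icc (0 : ℝ) (T + 1) := by
      refine ⟨by positivity, ?_⟩
      rw [div_le_iff₀ hm0]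
      have h3 : (⌈m * T⌉₊ : ℝ) < m * T + 1 := Nat.ceil_lt_add_one (by positivity)
      push_cast
      nlinarith
    have := theta_ge (T + 1) φ hφ (interp m w) hcont' _ hti
    rwa [hk, hB _ hex] at this
  · rw [theta_apply]
    exact norm_nonneg _

end PgHalfA

open PgHalfA in
theorem HalfA_of (hGeo : Geo) (hWalkBasics : WalkBasics) (hIp : Ip) (hLocalA : LocalA) (hPush : Push) (hLbmInc : LbmInc) : HalfA := by
  intro Ω _ P _ Z μ C Γ a M x z b A St ψ Λ hZ hE hBad hB hxV hx hz hD hψ hSt T hT F L c hF hFc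
  obtain ⟨d, hd, hdz⟩ := exists_gap hZ hz.2
  obtain ⟨ψ', hψ', hEq⟩ := hψ.extend_finite_dimension
  have hzi : 0 < z.im := hz.1
  have hc0 : 0 ≤ c := (abs_nonneg _).trans (hFc 0)
  have hbd : ∀ k, Bornology.IsBounded (Us z Z d k) := fun k =>
    (hGeo.sq_cpt z (k + 1)).isBounded.subset (sdiff_subset.trans (sqO_subset _ _))
  have hz0 : z ∈ Us z Z d 0 := by
    refine mem_Us.2 ⟨by rw [sn_self]; norm_num, fun p hp => lt_trans ?_ (hdz p hp)⟩
    norm_num
    linarith
  choose ρ hρ0 hρ using fun k => (hbd (k + 1)).isCompact_closure.exists_cthickening_subset_open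
    (isOpen_Us z hZ d (k + 1 + 1)) (closure_subset_succ z Z hd (k + 1))
  have hpos : ∀ k : ℕ, (0 : ℝ) < 1 / ((k : ℝ) + 1) := fun k => by positivity
  choose δ hδ0 hδ using fun k : ℕ => hB.sticky hWalkBasics hE.mem hSt
    (I := (fun t : ℝ => (t : ℂ)) ⁻¹' closure (Us z Z d (k + 1 + 1)))
    (Complex.isUniformEmbedding_ofReal.isClosedEmbedding.isCompact_preimage
      (hbd _).isCompact_closure)
    (fun t ht => closure_subset_compl z Z hd _ ht) (hpos k) (hpos k)
  have hε0 : ∀ k, 0 < min (ρ k / 2) (δ k / 2) := fun k =>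
    lt_min (half_pos (hρ0 k)) (half_pos (hδ0 k))
  obtain ⟨s, hsa, hs⟩ := exists_anti
    (fun k => min (min (ρ k / 2) (δ k / 2)) (min (1 / ((k : ℝ) + 1)) (z.im / 2)))
    fun k => lt_min (hε0 k) (lt_min (hpos k) (half_pos hzi))
  set U : ℕ → Set ℂ := fun k => Us z Z d (k + 1 + 1) ∩ {w : ℂ | s k < w.im} with hUdef
  have hUo : ∀ k, IsOpen (U k) := fun k =>
    (isOpen_Us z hZ d _).inter (isOpen_lt continuous_const Complex.continuous_im)
  have hUb : ∀ k, Bornology.IsBounded (U k) := fun k => (hbd _).subset inter_subset_left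
  have hUc : ∀ k, closure (U k) ⊆ UH \ Z := fun k w hw => by
    have h1 := closure_mono inter_subset_left hw
    have h2 : s k ≤ w.im := closure_minimal (t := {w : ℂ | s k ≤ w.im})
      (fun y hy => le_of_lt (show s k < y.im from hy.2)) (isClosed_le continuous_const Complex.continuous_im) hw
    exact ⟨(hs k).1.trans_le h2, closure_subset_compl z Z hd _ h1⟩
  have hUH : ∀ k, U k ⊆ UH := fun k => subset_closure.trans ((hUc k).trans sdiff_subset)
  have hUz : ∀ k, z ∈ U k := fun k => ⟨mono_Us z Z hd (Nat.zero_le _) hz0, by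
    have := (hs k).2.trans ((min_le_right _ _).trans (min_le_right _ _))
    show s k < z.im
    linarith⟩
  have hUm : Monotone U := fun i j hij => inter_subset_inter (mono_Us z Z hd (by omega))
    fun w hw => lt_of_le_of_lt (hsa hij) hw
  have hUx : ∀ w ∈ UH, w ∉ Z → ∃ k, w ∈ U k := fun w hw hwZ => by
    obtain ⟨k₁, h1⟩ := exists_mem_Us z hZ d hwZ
    obtain ⟨k₂, h2⟩ := exists_nat_one_div_lt (show 0 < w.im from hw)
    refine ⟨max k₁ k₂, mono_Us z Z hd (by omega) h1, ?_⟩
    exact ((hsa (le_max_right _ _)).trans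
      ((hs k₂).2.trans ((min_le_right _ _).trans (min_le_left _ _)))).trans_lt h2
  have hpack := fun k => hD.pack (U k) (hUo k) (hUb k) (hUc k) (hUz k)
  have hloc := fun k => hLocalA P (UH \ Z) (U k) μ C Γ a M x z _ _
    (isOpen_UH.sdiff hZ.isClosed) hE hBad hxV hx (hUo k) (hUb k) (hUc k)
    (frames_inter (hGeo.frames_holes z _ _ Z (div_pos hd (by positivity))) _) (hUz k) hD.all
    (hpack k).1 (hpack k).2
  choose R hR hRs using fun k => (hloc k).1
  have hm := (hloc 0).2.1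
  have hR' := fun k => (hR k).mono fun n h => And.intro h.1 h.2.2
  have hcont : ∀ k, ∀ᵐ ω ∂P, Continuous fun t => lbmPath (b ω) (A ω) (U k) t := fun k =>
    (hpack k).1.path.mono fun ω h => h.1
  have hpush := fun k => hPush P _ (R k) x _ _ ψ' _ hψ' (hR' k)
    (fun ε hε => (hRs k ε hε).mono fun n h y hy => (h y hy).2) hm (hcont k) (hloc k).2.2 T hT F L c
    hF hFc
  have hconv := fun k => P3_of hWalkBasics P _ (R k) x _ _ (hR' k) (hloc k).2.2
  choose φ hφ0 hφ1 hφ using fun k => exists_continuous_zero_one_of_isClosed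
    (s := closure (Us z Z d k)) (t := (Us z Z d (k + 1))ᶜ) isClosed_closure
    (isOpen_Us z hZ d _).isClosed_compl
    (disjoint_compl_right_iff_subset.2 (closure_subset_succ z Z hd k))
  have hT1 : 0 < T + 1 := by linarith
  have hae : ∀ᵐ ω ∂P, Tendsto (fun k => F (toC T fun t => ψ' (lbmPath (b ω) (A ω) (U k) t))) atTop
      (𝓝 (F (toC T fun t => ψ (lbmPath (b ω) (A ω) UH t)))) ∧ ∀ᶠ k in atTop,
      theta (T + 1) (φ k) (hφ k) (toC (T + 1) fun t => lbmPath (b ω) (A ω) (U k) t) = 0 := by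
    filter_upwards [hD.path, ae_all_iff.2 hcont, ae_all_iff.2 fun k => (hpack k).1.path]
      with ω ⟨S, h1, h2, h3⟩ h4 h5
    obtain ⟨g1, -, g3⟩ := hLbmInc (b ω) (A ω) U UH S h2 h1 (fun k => ⟨hUo k, hUH k⟩) hUm
      fun r hr hb => hUx _ hb (h3 r hr)
    have g4 : (fun t => ψ (lbmPath (b ω) (A ω) UH t)) = fun t => ψ' (lbmPath (b ω) (A ω) UH t) := by
      funext t
      refine hEq (isClosed_closure.mem_of_tendsto (g3.tendsto_at t)
        (Eventually.of_forall fun k => closure_mono (hUH k) ?_))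
      rcases lt_or_ge t (exitClock (b ω) (A ω) (U k)) with h | h
      · exact subset_closure ((h5 k).2.2.2.1 t h)
      · exact frontier_subset_closure ((h5 k).2.2.2.2 t h)
    rw [g4]
    refine ⟨(hF.continuous.tendsto _).comp (toC_tendsto hψ' T h4 g3), ?_⟩
    obtain ⟨k₀, hk₀⟩ := (isCompact_Icc.image_of_continuousOn h2).elim_directed_cover (Us z Z d)
      (isOpen_Us z hZ d) (by
        rintro _ ⟨r, hr, rfl⟩
        exact mem_iUnion.2 (exists_mem_Us z hZ d (h3 r hr.2))) (mono_Us z Z hd).directed_le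
    filter_upwards [eventually_ge_atTop k₀] with k hk
    exact theta_zero _ _ _ _ ((h4 k).comp continuous_subtype_val) fun t _ =>
      hφ0 k (subset_closure (mono_Us z Z hd hk (hk₀ (g1 k t))))
  refine ⟨aestronglyMeasurable_of_tendsto_ae atTop (fun k => (hpush k).1)
    (hae.mono fun ω h => h.1), ?_⟩
  refine squeeze _ _
    (fun k n => L * Λ * (1 / ((k : ℝ) + 1)) + c * (1 / ((k : ℝ) + 1)) + 2 * c *
      walkExp ((C n).step (U k)) (⌈M n / (2 * a n) * (T + 1)⌉₊ + 1) (x n)
        fun w => theta (T + 1) (φ k) (hφ k) (toC (T + 1) (interp (M n / (2 * a n)) w)))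
    _ (fun k => L * Λ * (1 / ((k : ℝ) + 1)) + c * (1 / ((k : ℝ) + 1)) + 2 * c *
      ∫ ω, theta (T + 1) (φ k) (hφ k) (toC (T + 1) fun t => lbmPath (b ω) (A ω) (U k) t) ∂P)
    _ 1 (fun k => (hpush k).2)
    (fun k => (((hconv k).1 (T + 1) hT1 (theta (T + 1) (φ k) (hφ k))).const_mul _).const_add _)
    ?_ ?_ fun k => ?_
  · exact tendsto_integral_of_dominated_convergence (fun _ => c) (fun k => (hpush k).1)
      (integrable_const _) (fun k => Eventually.of_forall fun ω => hFc _) (hae.mono fun ω h => h.1)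
  · have h1 := tendsto_integral_of_dominated_convergence (μ := P) (f := fun _ => (0 : ℝ))
      (F := fun k ω => theta (T + 1) (φ k) (hφ k)
        (toC (T + 1) fun t => lbmPath (b ω) (A ω) (U k) t)) (fun _ => (1 : ℝ))
      (fun k => (hconv k).2 (T + 1) hT1 (theta (T + 1) (φ k) (hφ k))) (integrable_const _)
      (fun k => Eventually.of_forall fun ω => theta_abs _ _ _ _) (by
        filter_upwards [hae] with ω h
        exact tendsto_const_nhds.congr' (h.2.mono fun k hk => hk.symm))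
    have h2 := tendsto_one_div_add_atTop_nhds_zero_nat (𝕜 := ℝ)
    simpa using ((h2.const_mul ((L : ℝ) * Λ)).add (h2.const_mul c)).add (h1.const_mul (2 * c))
  · filter_upwards [hR k, hRs k _ (hε0 k), hδ k, hm.eventually_ge_atTop 2,
      hSt _ (hUb k).isCompact_closure ((hUc k).trans (sdiff_subset.trans subset_closure))]
      with n h1 h2 h3 h4 h5
    have hRU : R k n ⊆ UH := h1.2.1.trans (hB.sub n).1
    rw [one_mul, exp_congr hWalkBasics h1.2.2 h1.1 (G' := fun w =>
      F (toC T (interp (M n / (2 * a n)) fun i => ψ (w i)))) fun w hw => by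
        rw [show (fun i => ψ' (w i)) = fun i => ψ (w i) from
          funext fun i => (hEq (subset_closure (hRU (hw i)))).symm]]
    refine (compare_sticky hWalkBasics (C n) (S := closure UH) (B := (Us z Z d (k + 1))ᶜ)
      (fun y hy hH => ?_) h1.2.2 (hRU.trans subset_closure) (hpos k).le (hpos k).le
      (fun y hy hH hyB => ?_) (by positivity) _ h1.1 (fun w => hFc _)
      (supLip_interp hIp hψ (by linarith) hF)).trans ?_
    · rw [h5 y (h1.2.1 hy) (subset_closure (hH (hE.mem n y (h1.2.1 hy))))]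
      exact step_congr _ (iff_of_true (hH.trans (hUH k)) hH)
    · have hy1 : y ∈ closure (Us z Z d (k + 1)) := subset_closure (not_not.1 hyB)
      obtain ⟨w, hw, hwU⟩ := not_subset.1 hH
      have e1 := (h2 y hy).1 w hw
      have e2 := min_le_left (ρ k / 2) (δ k / 2)
      have e3 := min_le_right (ρ k / 2) (δ k / 2)
      have e4 := (hs k).2.trans (min_le_left _ _)
      have e5 : w.im ≤ s k := not_lt.1 fun hh => hwU ⟨hρ k
        (Metric.mem_cthickening_of_dist_le w y _ _ hy1 (by linarith [hρ0 k])), hh⟩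
      have e6 : |(w - y).im| ≤ dist w y := by
        rw [dist_eq_norm]
        exact Complex.abs_im_le_norm _
      rw [Complex.sub_im, abs_le] at e6
      have e7 : 0 < y.im := hRU hy
      refine h3 y (h1.2.1 hy) (subset_closure (hρ k
        (Metric.mem_cthickening_of_dist_le _ y _ _ hy1 ?_))) (by linarith [e6.1])
      rw [Complex.dist_of_re_eq (by simp), Complex.ofReal_im, Real.dist_eq, zero_sub, abs_neg,
        abs_of_pos e7]
      linarith [e6.1]
    · exact add_le_add_right (mul_le_mul_of_nonneg_left (last_le hWalkBasics hIp (φ k) (hφ k)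
        h1.2.2 h1.1 h4 hT fun y hy => hφ1 k hy) (by positivity)) _

end Pool.Agent.Lib.MP_0d9445_pr.Bd
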