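import Pool.Agent.Lib.MP_0d9445_pr.Stmt

/-! Surfaces with boundary: the free field, the quantum wedge of weight two, the quantum disk. -/

open MeasureTheory ProbabilityTheory Set Filter Topology Real LQ.Met
open scoped NNReal ENNReal ComplexConjugate

noncomputable section

namespace Pool.Agent.Lib.MP_0d9445_pr

/-- the open upper half-plane -/
def UH : Set ℂ := {z | 0 < z.im}

/-- the Cayley map from the upper half-plane onto the unit disc -/
def cayley (z : ℂ) : ℂ := (z - Complex.I) / (z + Complex.I)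

/-- the covariance of circle averages for the Neumann kernel `G (x, y) + G (x, conj y)`, where
`G` is the kernel of `gffCov` -/
def freeCov (p q : ℝ × ℂ) : ℝ := gffCov p q + gffCov p (q.1, conj q.2)

variable {Ω : Type} [MeasurableSpace Ω]

/-- `φ` is the free-boundary GFF on the upper half-plane with average zero on the unit
semicircle, extended to the plane by reflection. -/
structure IsFreeGFF (φ : Ω → Field) (P : Measure Ω) : Prop where
  meas : Measurable φ
  gauss : IsGaussianProcess (fun p ω => φ ω p) P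
  mean : ∀ p, ∫ ω, φ ω p ∂P = 0
  cov : ∀ p q, ∫ ω, φ ω p * φ ω q ∂P = freeCov p q

/-- A whole-plane GFF `h` and a free-boundary GFF `φ` with `φ = h + g` in the upper half-plane,
`g` a random continuous function. -/
structure IsFreePair (P : Measure Ω) (h φ : Ω → Field) (g : Ω → ℂ → ℝ) : Prop where
  gff : IsGFF h P
  zero : ∀ᵐ ω ∂P, h ω 0 = 0
  free : IsFreeGFF φ P
  meas : ∀ z, Measurable fun ω => g ω z
  cont : ∀ ω, ContinuousOn (g ω) UH
  eq : ∀ᵐ ω ∂P, ∀ p : ℝ × ℂ, exp (-p.1) < p.2.im → φ ω p = h ω p + avg (g ω) p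

/-- `h + f` on the upper half-plane is the `γ`-quantum wedge (weight two) in the circle-average
embedding: the semicircle averages of the free GFF around `0` are replaced by the independent
radial process `√2 b s + γ s`, conditioned for `s < 0` to stay above `Q s`. -/
def IsWedge (γ Q : ℝ) (P : Measure Ω) (h : Ω → Field) (f : Ω → ℂ → ℝ) : Prop :=
  ∃ (φ : Ω → Field) (g : Ω → ℂ → ℝ), IsFreePair P h φ g ∧
    ∃ b c : ℝ≥0 → Ω → ℝ, (∀ t, Measurable (b t)) ∧ (∀ t, Measurable (c t)) ∧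
    IsBrownianReal b P ∧ IsBrownianReal c P ∧
    IndepFun (fun ω t => b t ω) (fun ω t => c t ω) P ∧
    IndepFun (fun ω => (fun t => b t ω, fun t => c t ω)) φ P ∧
    ∀ ω z, f ω z = g ω z +
      (√2 * radial (γ / √2) (Q / √2) (b · ω) (c · ω) (-log ‖z‖) - φ ω (-log ‖z‖, 0))

/-- `n` is locally finite and the vague limit of `ε ^ (γ ^ 2 / 4) exp (γ H_ε (x) / 2) dx` on the
real line along `ε = 2 ^ (-k)`. -/
def IsVagueB (γ : ℝ) (H : Field) (n : Measure ℝ) : Prop :=
  IsLocallyFiniteMeasure n ∧ ∀ ψ : ℝ → ℝ, Continuous ψ → HasCompactSupport ψ →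
    Tendsto (fun k : ℕ => ∫ x : ℝ, ψ x * exp (γ / 2 * H (k * log 2, x) - γ ^ 2 / 4 * (k * log 2)))
      atTop (𝓝 (∫ x, ψ x ∂n))

/-- `h + f` on the upper half-plane is the quantum disk of boundary length `ℓ` with three marked
boundary points at `0, 1, ∞`: the law of the free GFF `φ` is weighted by
`ν (φ + sphereFn) (ℝ) ^ (4 / γ ^ 2 - 2)`, where `ν` is the boundary length measure, and the field is
`φ + sphereFn` plus the constant that makes the boundary length `ℓ`. -/
def IsDisk (γ Q ℓ : ℝ) (P : Measure Ω) (h : Ω → Field) (f : Ω → ℂ → ℝ) : Prop :=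
  ∃ (P₀ : Measure Ω) (φ : Ω → Field) (g : Ω → ℂ → ℝ) (ν : Field → Measure ℝ) (c : ℝ≥0),
    let len : Field → ℝ≥0∞ := fun H =>
      ∫⁻ x : ℝ, ENNReal.ofReal (exp (γ / 2 * sphereFn γ Q x)) ∂ν H
    IsFreePair P₀ h φ g ∧ Measurable ν ∧
    (∀ᵐ ω ∂P₀, IsVagueB γ (φ ω) (ν (φ ω)) ∧ 0 < len (φ ω) ∧ len (φ ω) < ∞) ∧
    P = P₀.withDensity (fun ω => c * len (φ ω) ^ (4 / γ ^ 2 - 2)) ∧
    ∀ ω z, f ω z = g ω z + (sphereFn γ Q z - 2 / γ * log ((len (φ ω)).toReal / ℓ))

/-- `d` is a metric on `S` that induces the Euclidean topology. -/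
structure MetOn (S : Set ℂ) (d : Met) : Prop where
  self : ∀ x ∈ S, d (x, x) = 0
  symm : ∀ x ∈ S, ∀ y ∈ S, d (x, y) = d (y, x)
  tri : ∀ x ∈ S, ∀ y ∈ S, ∀ z ∈ S, d (x, z) ≤ d (x, y) + d (y, z)
  topo : ∀ x ∈ S, ∀ ε > 0, ∃ δ > 0, ∀ y ∈ S, d (x, y) < δ → dist x y < ε

/-- The set `closure O` with `d` and `m` is the LQG surface of the field `h + f` on the upper half-plane, embedded
in `O` by the conformal map `χ`: read through `χ`, the metric is the length metric given by Weyl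
scaling of `D h` in the upper half-plane, it extends to a metric on `closure O` inducing the
Euclidean topology, and `m` is the image of `exp (γ f) μ h`. -/
structure IsSurfVia (γ ξ : ℝ) (D : Field → Met) (μ : Field → Measure ℂ) (χ : ℂ → ℂ) (O : Set ℂ)
    (P : Measure Ω) (h : Ω → Field) (f : Ω → ℂ → ℝ) (d : Ω → Met) (m : Ω → Measure ℂ) : Prop where
  measd : Measurable d
  measm : Measurable m
  metric : ∀ᵐ ω ∂P, MetOn (closure O) (d ω)
  length : ∀ᵐ ω ∂P, ∀ x ∈ UH, ∀ y ∈ UH,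
    DU (fun a b => d ω (χ a, χ b)) UH x y = ENNReal.ofReal (d ω (χ x, χ y))
  weyl : ∀ᵐ ω ∂P, ∀ U : Set ℂ, IsOpen U → U ⊆ UH → ∀ x ∈ U, ∀ y ∈ U,
    DU (fun a b => d ω (χ a, χ b)) U x y =
      wmetOn (fun z => ξ * f ω z) (Function.curry (D (h ω))) U x y
  area : ∀ᵐ ω ∂P, m ω =
    (((μ (h ω)).restrict UH).withDensity fun z => ENNReal.ofReal (exp (γ * f ω z))).map χ

/-- The Voronoi cells in `S` of the point set `Y` for the metric `d`. -/
def vorOn (S : Set ℂ) (d : Met) (Y : Set ℂ) : Walk.Cells :=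
  ⟨Y, fun x => {w | w ∈ S ∧ ∀ y ∈ Y, d (w, x) ≤ d (w, y)}⟩

end Pool.Agent.Lib.MP_0d9445_pr
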