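import Mathlib

/-! Paths on the whole time axis. -/

open scoped NNReal

noncomputable section

namespace Pool.Agent.Lib.MP_0d9445_pr

open Classical in
/-- The restriction of `y` to `[0, ∞)` as a bounded continuous map (zero if it is not one). -/
def toB (y : ℝ → ℂ) : BoundedContinuousFunction ℝ≥0 ℂ :=
  if h : ∃ g : BoundedContinuousFunction ℝ≥0 ℂ, ∀ t, g t = y t then h.choose else 0

end Pool.Agent.Lib.MP_0d9445_pr
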