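import Pool.Agent.Lib.MP_0d9445_pr.Bd.Field
import Pool.Agent.Lib.MP_0d9445_pr.Bd.Basic
import Pool.Agent.Lib.MP_0d9445_pr.Bd.Cd
import Pool.Agent.Lib.MP_0d9445_pr.AS.Crude

/-! Transfer between the model and a surface on the half-plane. -/

open MeasureTheory ProbabilityTheory Set Filter Topology Real LQ.Met
open scoped NNReal ENNReal ComplexConjugate

noncomputable section

namespace Pool.Agent.Lib.MP_0d9445_pr.Bd

open CR PPP Walk

/-- A countable cover by arbitrary sets is replaced by a cover by events of `r`. -/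
theorem trans_hull {α Γ ι : Type*} [MeasurableSpace α] [MeasurableSpace Γ] [Countable ι]
    (Q : Measure α) [IsFiniteMeasure Q] {r : α → Γ} (hr : Measurable r) (A : ι → Set α)
    (hA : ∀ᵐ ω ∂Q, ∃ k, ω ∈ A k) :
    ∃ B : ι × ℕ → Set Γ, (∀ j, MeasurableSet (B j)) ∧ (∀ᵐ ω ∂Q, ∃ j, r ω ∈ B j) ∧
      ∀ (j : ι × ℕ) (f : Γ → ℝ≥0∞) (g : α → ℝ≥0∞), Measurable f → Measurable g →
        (∀ᵐ ω ∂Q, ω ∈ A j.1 → f (r ω) ≤ g ω) →
        ∫⁻ ω in r ⁻¹' B j, f (r ω) ∂Q ≤ j.2 * ∫⁻ ω, g ω ∂Q := by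
  obtain ⟨B, h1, h2, h3⟩ := AS.crude_hull Q hr A hA
  refine ⟨B, h1, h2, fun j f g hf hg h => ?_⟩
  obtain ⟨N, hN, mN, N0⟩ := exists_measurable_superset_of_null (ae_iff.1 h)
  have e : ∫⁻ ω, (g ω + N.indicator ⊤ ω) ∂Q = ∫⁻ ω, g ω ∂Q :=
    lintegral_congr_ae ((measure_eq_zero_iff_ae_notMem.1 N0).mono fun ω hω => by
      simp only [indicator_of_notMem hω, add_zero])
  rw [← lintegral_indicator (hr (h1 j)), ← e]
  refine h3 j f _ hf (hg.add (measurable_const.indicator mN)) fun ω hω => ?_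
  by_cases k : ω ∈ N
  · simp [indicator_of_mem k]
  · exact le_add_right (not_not.1 (fun k' => k (hN k')) hω)

/-- `c` is, in the half-plane, the Weyl scaling of `D` and `μ` by `f` -/
def TrW (ξ γ : ℝ) (D : ℂ → ℂ → ℝ) (μ : Measure ℂ) (f : ℂ → ℝ) (c : Cf) : Prop :=
  (∃ (d' : Met) (U : Set ℂ), IsGood (d', c.2) ∧
    (∀ x ∈ closure UH, ∀ y ∈ closure UH, d' (x, y) = c.1 (x, y)) ∧ UH ⊆ U ∧
    IsWeylOn (fun z => ξ * f z) D (Function.curry d') U) ∧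
  c.2.restrict UH = (μ.withDensity fun z => ENNReal.ofReal (exp (γ * f z))).restrict UH

section Det

variable {ξ γ K : ℝ} {D : ℂ → ℂ → ℝ} {μ : Measure ℂ} {f f₁ f₂ : ℂ → ℝ} {c c₁ c₂ : Cf}
  {A : Set ℂ}

theorem TrW.goodH (h : TrW ξ γ D μ f c) : GoodH c.1 :=
  let ⟨d', _, g, e, _⟩ := h.1
  ⟨d', g.1, g.2, e⟩

theorem TrW.T_le (hξ : 0 ≤ ξ) (h₁ : TrW ξ γ D μ f₁ c₁) (h₂ : TrW ξ γ D μ f₂ c₂)
    (hU : closure A ⊆ UH) (hf : ∀ z ∈ A, f₁ z ≤ f₂ z + K) {w : Sq} (hw : 0 < w.2)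
    (hA : w.o ⊆ A) (p : ℂ × ℂ) : T w c₁.1 p ≤ exp (ξ * K) * T w c₂.1 p := by
  obtain ⟨d₁, U₁, g₁, e₁, k₁, w₁⟩ := h₁.1
  obtain ⟨d₂, U₂, g₂, e₂, k₂, w₂⟩ := h₂.1
  have k := (closure_mono hA).trans hU
  rw [← T_congr hw (subset_closure.trans k) e₁, ← T_congr hw (subset_closure.trans k) e₂]
  exact EN.T_le_of_weylOn g₁ g₂ w₁ w₂ (k.trans k₁) (k.trans k₂)
    (fun z hz => by nlinarith [mul_le_mul_of_nonneg_left (hf z (hA hz)) hξ]) p

theorem TrW.mass_le (hγ : 0 ≤ γ) (h₁ : TrW ξ γ D μ f₁ c₁) (h₂ : TrW ξ γ D μ f₂ c₂)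
    (hA : MeasurableSet A) (hU : A ⊆ UH) (hf : ∀ z ∈ A, f₁ z ≤ f₂ z + K) :
    c₁.2.restrict A ≤ ENNReal.ofReal (exp (γ * K)) • c₂.2.restrict A := by
  have e₁ := congrArg (fun ν : Measure ℂ => ν.restrict A) h₁.2
  have e₂ := congrArg (fun ν : Measure ℂ => ν.restrict A) h₂.2
  simp only [Measure.restrict_restrict_of_subset hU] at e₁ e₂
  rw [e₁, e₂]
  exact EN.withDensity_restrict_le μ hA fun z hz => by
    nlinarith [mul_le_mul_of_nonneg_left (hf z hz) hγ]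

theorem TrW.close (hξ : 0 ≤ ξ) (hγ : 0 ≤ γ) (h₁ : TrW ξ γ D μ f₁ c₁) (h₂ : TrW ξ γ D μ f₂ c₂)
    (hA : MeasurableSet A) (hU : closure A ⊆ UH) (hf : ∀ z ∈ A, |f₁ z - f₂ z| ≤ K) :
    CloseOn ξ γ K A c₁ c₂ := by
  have k1 : ∀ z ∈ A, f₁ z ≤ f₂ z + K := fun z hz => by linarith [(abs_le.1 (hf z hz)).2]
  have k2 : ∀ z ∈ A, f₂ z ≤ f₁ z + K := fun z hz => by linarith [(abs_le.1 (hf z hz)).1]
  refine ⟨⟨1, one_pos, fun w hw hwA p => ⟨?_, ?_⟩⟩,
    EN.smul_le_of_le_smul (h₂.mass_le hγ h₁ hA (subset_closure.trans hU) k2),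
    h₁.mass_le hγ h₂ hA (subset_closure.trans hU) k1⟩
  · have e := mul_le_mul_of_nonneg_left (h₂.T_le hξ h₁ hU k2 hw hwA p) (exp_pos (-(ξ * K))).le
    rwa [← mul_assoc, ← exp_add, neg_add_cancel, exp_zero, one_mul, ← one_mul (exp _)] at e
  · rw [one_mul]
    exact h₁.T_le hξ h₂ hU k1 hw hwA p

theorem TrW.scale (h : TrW ξ γ D μ f c) (t : ℝ) :
    TrW ξ γ D μ (fun z => f z + t) (scale ξ γ t c) := by
  obtain ⟨⟨d', U, g, e, k, w⟩, hm⟩ := h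
  refine ⟨⟨exp (ξ * t) • d', U, ⟨g.1.const_mul (exp_pos _), g.2.const_mul (exp_pos _)⟩,
    fun x hx y hy => congrArg (exp (ξ * t) * ·) (e x hx y hy), k, fun x hx y hy => ?_⟩, ?_⟩
  · refine (DU_const_mul (D := Function.curry d') (exp_pos (ξ * t)) U x y).trans ?_
    rw [w x hx y hy, ← wmetOn_add_const]
    simp only [mul_add]
  · show (ENNReal.ofReal (exp (γ * t)) • c.2).restrict UH = _
    rw [Measure.restrict_smul, hm, ← Measure.restrict_smul,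
      ← withDensity_smul' _ _ ENNReal.ofReal_ne_top]
    congr 2
    funext z
    rw [Pi.smul_apply, smul_eq_mul, ← ENNReal.ofReal_mul (exp_pos _).le, ← exp_add, mul_add,
      add_comm]

end Det

variable {M : Model} {Ω : Type} [MeasurableSpace Ω] {P P₀ : Measure Ω} {h φ : Ω → Field}
  {g f₁ : Ω → ℂ → ℝ} {Z : Set ℂ} {d : Ω → Met} {m : Ω → Measure ℂ}

theorem BSurf0.trW (hS : BSurf0 M P P₀ h φ g f₁ Z d m) : ∀ᵐ ω ∂P,
    TrW M.ξ M.γ (Function.curry (M.D (h ω))) (M.μ (h ω)) (fun z => g ω z + f₁ ω z) (d ω, m ω) := by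
  filter_upwards [hS.surfH, hS.surf.weyl, hS.surf.area] with ω a b c
  obtain ⟨d', g1, g2, e⟩ := a.goodH
  refine ⟨⟨d', UH, ⟨g1, g2⟩, e, subset_rfl, fun x hx y hy => Eq.trans ?_
    (b UH isOpen_UH subset_rfl x hx y hy)⟩, ?_⟩
  · exact iInf_congr fun _ => iInf_congr fun p => iSup_congr fun q =>
      Finset.sum_congr rfl fun _ _ => congrArg ENNReal.ofReal
        (e _ (subset_closure (p.maps (q.2.2.2 _))) _ (subset_closure (p.maps (q.2.2.2 _))))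
  · show (m ω).restrict UH = _
    rw [c, Measure.map_id, ← restrict_withDensity isOpen_UH.measurableSet,
      Measure.restrict_restrict_of_subset subset_rfl]

/-- the coupled configuration -/
def trC (M : Model) (h : Ω → Field) (g' : Ω → Fn) (t : ℝ) (x : Ω × ℝ) : Cf :=
  M.conf (addFn (addFn (h x.1) (g' x.1 + cst x.2)) (cst t))

theorem trans_closure (W : Sq) (n : ℕ) : closure (W.o ∩ above n) ⊆ UH := by
  refine (closure_minimal (t := {z : ℂ | sc n ≤ z.im}) (fun z hz => le_of_lt (show sc n < z.im from hz.2))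
    (isClosed_le continuous_const Complex.continuous_im)).trans fun z hz => ?_
  exact (EN.sc_pos n).trans_le hz

theorem trans_fst [SFinite P₀] (κ : Kernel Ω ℝ) [IsMarkovKernel κ] {p : Ω → Prop}
    (a : ∀ᵐ ω ∂P₀, p ω) : ∀ᵐ x ∂P₀ ⊗ₘ κ, p x.1 :=
  ae_of_ae_map (μ := P₀ ⊗ₘ κ) measurable_fst.aemeasurable (by
    rwa [← Measure.fst, Measure.fst_compProd])

/-- The surface and the coupled configuration are comparable. -/
theorem BSurf0.couple (hS : BSurf0 M P P₀ h φ g f₁ Z d m) (W : Sq) :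
    ∃ κ : Kernel Ω ℝ, IsMarkovKernel κ ∧ ∀ (n : ℕ) (Θ : ℝ → Cf → ℝ≥0∞),
      Fam M.ξ M.γ (W.o ∩ above n) Θ → ∀ t : ℝ, ∃ c : Ω × ℝ → Cf, Measurable c ∧
        (∀ L, ∫⁻ x, Θ L (c x) ∂P₀ ⊗ₘ κ = ∫⁻ η, ∫⁻ c, Θ L c ∂Pkb M n 0 (η + cst t) ∂Gb M) ∧
        ∀ᵐ x ∂P₀ ⊗ₘ κ, TrW M.ξ M.γ (Function.curry (M.D (h x.1))) (M.μ (h x.1))
          (fun z => g x.1 z + f₁ x.1 z) (d x.1, m x.1) →
          ∀ K : ℝ, 0 ≤ K → (∀ z ∈ W.c, |f₁ x.1 z - x.2| ≤ K) →
          Θ 0 (scale M.ξ M.γ t (d x.1, m x.1)) ≤ Θ (0 + K) (c x) ∧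
          Θ 0 (c x) ≤ Θ (0 + K) (scale M.ξ M.γ t (d x.1, m x.1)) := by
  obtain ⟨κ, hκ, H⟩ := exists_couple_conf M hS.pair
  have := hS.pair.gff.prob
  refine ⟨κ, hκ, fun n Θ hΘ t => ?_⟩
  obtain ⟨g', mg, eg, pl, law⟩ := H n
  have hV : ∀ z ∈ W.o ∩ above n, sc n / 4 ≤ z.im := fun z hz => by
    have k : sc n < z.im := hz.2
    linarith [EN.sc_pos n]
  have hA : MeasurableSet (W.o ∩ above n) :=
    (EN.measurableSet_o W).inter (isOpen_above n).measurableSet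
  have p0 : IsGFFplus (fun x : Ω × ℝ => h x.1) (P₀ ⊗ₘ κ) :=
    IsGFFplus.of_map measurable_fst (by
      rw [← Measure.fst, Measure.fst_compProd]
      exact hS.pair.gff.plus)
  have mf : Measurable fun x : Ω × ℝ => g' x.1 + cst x.2 + cst t :=
    ((mg.comp measurable_fst).add (EN.measurable_cst.comp measurable_snd)).add_const _
  have p1 := pl.add (g := fun _ => cst t) measurable_const
  refine ⟨trC M h g' t, M.measurable_conf.comp p1.1, fun L => ?_, ?_⟩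
  · simpa only [add_comm (cst t), trC] using law _ hV (cst t) _ (hΘ.meas L)
  filter_upwards [M.ae_weyl p0 mf, M.ae_good p1, M.ae_vague p1] with x a2 a3 a4 a1 K hK hf
  rw [← Mu.addFn_addFn] at a2
  have b1 := a1.scale t
  have b2 : TrW M.ξ M.γ (Function.curry (M.D (h x.1))) (M.μ (h x.1))
      (fun z => (g' x.1 + cst x.2 + cst t) z) (trC M h g' t x) :=
    ⟨⟨_, univ, a3, fun _ _ _ _ => rfl, subset_univ _, a2.1.isWeylOn a3.2⟩,
      congrArg (fun ν : Measure ℂ => ν.restrict UH) a2.2⟩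
  have k : ∀ z ∈ W.o ∩ above n,
      |g x.1 z + f₁ x.1 z + t - (g' x.1 + cst x.2 + cst t) z| ≤ K := fun z hz => by
    have e : (g' x.1 + cst x.2 + cst t) z = g x.1 z + x.2 + t := by
      rw [← eg x.1 z (hV z hz)]
      rfl
    rw [e]
    convert hf z (osq_subset_csq _ _ hz.1) using 2
    ring
  have c1 := b1.close M.ξ_pos.le M.γ_pos.le b2 hA (trans_closure W n) k
  have c2 := b2.close M.ξ_pos.le M.γ_pos.le b1 hA (trans_closure W n)
    fun z hz => (abs_sub_comm _ _).trans_le (k z hz)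
  have f2 : (trC M h g' t x).2 (W.o ∩ above n) < ∞ :=
    (measure_mono inter_subset_left).trans_lt (EN.lt_top_of_locFin a4.1 W)
  have f1 : (scale M.ξ M.γ t (d x.1, m x.1)).2 (W.o ∩ above n) < ∞ := by
    have := c1.2.2 univ
    rw [Measure.smul_apply, Measure.restrict_apply_univ, Measure.restrict_apply_univ] at this
    exact this.trans_lt (ENNReal.mul_lt_top ENNReal.ofReal_lt_top f2)
  exact ⟨hΘ.mono 0 K _ _ le_rfl hK b1.goodH b2.goodH f2 c1,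
    hΘ.mono 0 K _ _ le_rfl hK b2.goodH b1.goodH f1 c2⟩

theorem BSurf0.bdd (hS : BSurf0 M P P₀ h φ g f₁ Z d m) {W : Sq} (hW : Wok Z W) :
    ∀ᵐ ω ∂P, ∃ C : ℝ, ∀ z ∈ W.c, |f₁ ω z| ≤ C :=
  hS.cont.mono fun _ a =>
    (isCompact_csq _ _).exists_bound_of_continuousOn (a.mono hW.off.subset_compl_right)

theorem BSurf0.transA (F : M.All) (hS : BSurf0 M P P₀ h φ g f₁ Z d m) {W : Sq} (hW : Wok Z W) :
    TransA M P (fun ω => (d ω, m ω)) W := by
  obtain ⟨κ, hκ, H⟩ := hS.couple W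
  have := hS.prob
  have := hS.pair.gff.prob
  have hs : Measurable fun ω => (d ω, m ω) := hS.surf.measd.prodMk hS.surf.measm
  obtain ⟨B, hB, hcov, hle⟩ := trans_hull P hs (fun k : ℕ => {ω | (∀ z ∈ W.c, |f₁ ω z| ≤ k) ∧
      P.rnDeriv P₀ ω ≤ k ∧ 2⁻¹ ≤ κ ω (Icc (-k : ℝ) k)}) (by
    filter_upwards [hS.bdd hW, hS.ac.ae_le (Measure.rnDeriv_lt_top P P₀)] with ω ⟨C, hC⟩ hρ
    have h1 : Tendsto (fun k : ℕ => κ ω (Icc (-k : ℝ) k)) atTop (𝓝 1) := by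
      have := tendsto_measure_iUnion_atTop (μ := κ ω) (s := fun k : ℕ => Icc (-k : ℝ) k)
        fun a b hab => Icc_subset_Icc (neg_le_neg (Nat.cast_le.2 hab)) (Nat.cast_le.2 hab)
      rwa [iUnion_eq_univ_iff.2 fun x => ⟨⌈|x|⌉₊, abs_le.1 (Nat.le_ceil _)⟩, measure_univ] at this
    obtain ⟨k, k1, k2, k3⟩ := ((tendsto_natCast_atTop_atTop.eventually_ge_atTop C).and
      ((ENNReal.tendsto_nat_nhds_top.eventually (lt_mem_nhds hρ)).and
        (h1.eventually (lt_mem_nhds (show (2⁻¹ : ℝ≥0∞) < 1 by simp))))).exists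
    exact ⟨k, fun z hz => (hC z hz).trans k1, k2.le, k3.le⟩)
  obtain ⟨e, he⟩ := exists_surjective_nat (ℕ × ℕ)
  refine ⟨fun j => B (e j), fun j => hB _, hcov.mono fun ω ⟨j, hj⟩ => ?_, fun j => ?_⟩
  · obtain ⟨n, rfl⟩ := he j
    exact ⟨n, hj⟩
  beta_reduce
  generalize e j = q
  obtain ⟨k, i⟩ := q
  refine ⟨0 + 2 * k, i * (k * 2), by positivity, Eventually.of_forall fun n Θ hΘ t => ?_⟩
  obtain ⟨c, hc, law, hcl⟩ := H n Θ hΘ t
  have mΘ : ∀ L, Measurable (Θ L) := fun L => (hΘ.meas L).mono (EN.GG_le _) le_rfl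
  have mF : Measurable fun x => Θ (0 + 2 * k) (c x) := (mΘ _).comp hc
  have mI : Measurable fun ω => ∫⁻ y, Θ (0 + 2 * k) (c (ω, y)) ∂κ ω := mF.lintegral_kernel_prod_right'
  have mR : MeasurableSet {ω | P.rnDeriv P₀ ω ≤ k} :=
    measurableSet_le (Measure.measurable_rnDeriv _ _) measurable_const
  refine (hle (k, i) (fun x => Θ 0 (scale M.ξ M.γ t x)) _ ((mΘ 0).comp (EN.measurable_scale _ _ _))
    ((mI.const_mul 2).indicator mR) ?_).trans ?_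
  · filter_upwards [hS.ac.ae_le (Measure.ae_ae_of_ae_compProd hcl), hS.trW]
      with ω a a0 ⟨k1, k2, k3⟩
    rw [indicator_of_mem (by exact k2)]
    have k4 : Θ 0 (scale M.ξ M.γ t (d ω, m ω)) * κ ω (Icc (-k : ℝ) k) ≤
        ∫⁻ y, Θ (0 + 2 * k) (c (ω, y)) ∂κ ω := by
      rw [← setLIntegral_const]
      refine le_trans (setLIntegral_mono_ae' measurableSet_Icc (a.mono fun y hy hm => ?_))
        (setLIntegral_le_lintegral _ _)
      refine (hy a0 _ (by positivity) fun z hz => ?_).1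
      have := abs_le.1 (k1 z hz)
      rw [abs_le]
      constructor <;> linarith [hm.1, hm.2]
    calc _ = 2 * (Θ 0 (scale M.ξ M.γ t (d ω, m ω)) * 2⁻¹) := by
          rw [mul_left_comm, ENNReal.mul_inv_cancel (by simp) (by simp), mul_one]
      _ ≤ _ := mul_le_mul_right ((mul_le_mul_right k3 _).trans k4) _
  · rw [← law, Measure.lintegral_compProd mF]
    push_cast
    rw [mul_assoc]
    refine mul_le_mul_right ?_ _
    rw [← lintegral_rnDeriv_mul hS.ac ((mI.const_mul 2).indicator mR).aemeasurable,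
      ← lintegral_const_mul _ mI]
    refine lintegral_mono fun ω => ?_
    by_cases k2 : P.rnDeriv P₀ ω ≤ k
    · rw [indicator_of_mem (by exact k2), mul_assoc]
      exact mul_le_mul_left k2 _
    · rw [indicator_of_notMem (by exact k2), mul_zero]
      exact zero_le

theorem BSurf.transB (F : M.All) (hS : BSurf M P P₀ h φ g f₁ Z d m) {W : Sq} (hW : Wok Z W) :
    TransB M P (fun ω => (d ω, m ω)) W := by
  obtain ⟨κ, hκ, H⟩ := hS.couple W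
  have := hS.prob
  have := hS.pair.gff.prob
  have hs : Measurable fun ω => (d ω, m ω) := hS.surf.measd.prodMk hS.surf.measm
  intro ε hε
  have hε2 : 0 < ε / 2 := ENNReal.half_pos hε.ne'
  obtain ⟨δ, hδ, hac⟩ := AS.crude_ac hS.ac' hε2
  have h1 : Tendsto (fun k : ℕ => (P₀ ⊗ₘ κ) {x | ∀ z ∈ W.c, |f₁ x.1 z - x.2| ≤ k}) atTop (𝓝 1) := by
    have := tendsto_measure_iUnion_atTop (μ := P₀ ⊗ₘ κ)
      (s := fun k : ℕ => {x : Ω × ℝ | ∀ z ∈ W.c, |f₁ x.1 z - x.2| ≤ k})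
      fun a b hab x hx z hz => (hx z hz).trans (Nat.cast_le.2 hab)
    rwa [measure_congr (ae_eq_univ.2 ?_), measure_univ] at this
    have a0 : ∀ᵐ x ∂P₀ ⊗ₘ κ, ∃ C : ℝ, ∀ z ∈ W.c, |f₁ x.1 z| ≤ C :=
      trans_fst (p := fun ω => ∃ C : ℝ, ∀ z ∈ W.c, |f₁ ω z| ≤ C) κ (hS.ac'.ae_le (hS.bdd hW))
    refine a0.mono fun x ⟨C, hC⟩ => mem_iUnion.2 ⟨⌈C + |x.2|⌉₊, fun z hz => ?_⟩
    exact ((abs_sub _ _).trans (add_le_add_left (hC z hz) _)).trans (Nat.le_ceil _)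
  obtain ⟨k, hk⟩ := (h1.eventually (lt_mem_nhds
    (ENNReal.sub_lt_self ENNReal.one_ne_top one_ne_zero hε2.ne'))).exists
  refine ⟨0 + k, δ, by positivity, hδ, Eventually.of_forall fun n Θ hΘ t hP => ?_⟩
  obtain ⟨c, hc, law, hcl⟩ := H n Θ hΘ t
  have mΘ : ∀ L, Measurable (Θ L) := fun L => (hΘ.meas L).mono (EN.GG_le _) le_rfl
  have mS : Measurable fun ω => Θ (0 + k) (scale M.ξ M.γ t (d ω, m ω)) :=
    (mΘ _).comp ((EN.measurable_scale _ _ _).comp hs)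
  have mE : MeasurableSet
      {x : Ω × ℝ | Θ 0 (c x) ≤ Θ (0 + k) (scale M.ξ M.γ t (d x.1, m x.1))} :=
    measurableSet_le ((mΘ 0).comp hc) (mS.comp measurable_fst)
  have k1 : (P₀ ⊗ₘ κ)
      {x : Ω × ℝ | Θ 0 (c x) ≤ Θ (0 + k) (scale M.ξ M.γ t (d x.1, m x.1))}ᶜ ≤ ε / 2 := by
    rw [prob_compl_eq_one_sub mE, tsub_le_iff_left, ← tsub_le_iff_right]
    exact hk.le.trans (measure_mono_ae ((hcl.and (trans_fst κ (hS.ac'.ae_le hS.trW))).mono
      fun x a b => (a.1 a.2 k (by positivity) b).2))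
  have k2 : ∫⁻ x, Θ (0 + k) (scale M.ξ M.γ t (d x.1, m x.1)) ∂P₀ ⊗ₘ κ ≤ ε / 2 := by
    rw [Measure.lintegral_compProd (mS.fun_comp measurable_fst)]
    simpa using hac _ mS (fun _ => hΘ.le_one _ _) hP
  rw [← law, ← ENNReal.add_halves ε]
  refine le_trans ?_ (add_le_add k1 k2)
  rw [← lintegral_indicator_one mE.compl,
    ← lintegral_add_left (measurable_one.indicator mE.compl)]
  refine lintegral_mono fun x => ?_
  by_cases a : Θ 0 (c x) ≤ Θ (0 + k) (scale M.ξ M.γ t (d x.1, m x.1))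
  · exact le_add_left a
  · exact le_add_right ((hΘ.le_one _ _).trans (AS.crude_one_le a))

end Pool.Agent.Lib.MP_0d9445_pr.Bd
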