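import Pool.Agent.Lib.MP_0d9445_pr.Bd.StmtU
import Pool.Agent.Lib.MP_0d9445_pr.Bd.WAll

/-! From locally uniform to uniform convergence for walks that stick near their last position. -/

noncomputable section

open MeasureTheory ProbabilityTheory Set Filter Topology
open scoped NNReal ENNReal Classical

namespace Pool.Agent.Lib.MP_0d9445_pr.Bd

open BM Cell Walk

/-- Convergence in law, uniformly on the whole time axis, for all long horizons. -/
def PathConvU {Ω : Type} [MeasurableSpace Ω] (P : Measure Ω) (Y : ℝ → Ω → ℂ)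
    (St : ℕ → ℂ → Set ℂ) (x : ℕ → ℂ) (m : ℕ → ℝ) : Prop :=
  ∀ N : ℕ → ℕ, Tendsto (fun n => (N n : ℝ) / m n) atTop atTop →
    ∀ F : BoundedContinuousFunction (BoundedContinuousFunction ℝ≥0 ℂ) ℝ,
      Tendsto (fun n => walkExp (St n) (N n) (x n) fun w => F (toB (interp (m n) w)))
        atTop (𝓝 (∫ ω, F (toB fun t => Y t ω) ∂P))

namespace Unif

theorem toB_eq {y : ℝ → ℂ} {g : BoundedContinuousFunction ℝ≥0 ℂ} (h : ∀ t, g t = y t) :
    toB y = g := by
  have h' : ∃ g : BoundedContinuousFunction ℝ≥0 ℂ, ∀ t, g t = y t := ⟨g, h⟩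
  rw [toB, dif_pos h']
  ext t
  rw [h'.choose_spec t, h t]

/-- a path on `[0, T]`, continued by its last value -/
def ext {T : ℝ} (hT : 0 ≤ T) (p : C(Icc (0 : ℝ) T, ℂ)) : BoundedContinuousFunction ℝ≥0 ℂ :=
  (BoundedContinuousFunction.mkOfCompact p).compContinuous
    ⟨fun t => projIcc 0 T hT t, continuous_projIcc.comp NNReal.continuous_coe⟩

theorem lip_ext {T : ℝ} (hT : 0 ≤ T) : LipschitzWith 1 (ext hT) := by
  refine LipschitzWith.of_dist_le_mul fun p q => ?_
  rw [NNReal.coe_one, one_mul]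
  exact (BoundedContinuousFunction.dist_le dist_nonneg).2 fun t =>
    ContinuousMap.dist_apply_le_dist (f := p) (g := q) (projIcc 0 T hT t)

theorem coe_toC {T : ℝ} {y : ℝ → ℂ} (hy : Continuous fun t : Icc (0 : ℝ) T => y t)
    (t : Icc (0 : ℝ) T) : toC T y t = y t := by
  unfold toC
  rw [dif_pos hy]
  rfl

theorem ext_toC {T : ℝ} (hT : 0 ≤ T) {y : ℝ → ℂ} (hy : Continuous fun t : Icc (0 : ℝ) T => y t)
    (hc : ∀ t, T ≤ t → y t = y T) : ext hT (toC T y) = toB y := by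
  refine (toB_eq fun t => ?_).symm
  show toC T y (projIcc 0 T hT t) = y t
  rw [coe_toC hy]
  rcases le_total (t : ℝ) T with h | h
  · rw [projIcc_of_mem hT (x := (t : ℝ)) ⟨t.2, h⟩]
  · rw [projIcc_of_right_le hT h, hc t h]

theorem cont_interp {m : ℝ} (hm : 0 < m) (T : ℝ) (w : ℕ → ℂ) :
    Continuous fun t : Icc (0 : ℝ) T => interp m w t :=
  (ip_ok m w hm).1.comp (f := fun t : Icc (0 : ℝ) T => (⟨t.1, t.2.1⟩ : Ici (0 : ℝ)))
    (continuous_subtype_val.subtype_mk _)

theorem interp_const {m : ℝ} {w : ℕ → ℂ} {i : ℕ} (hw : ∀ k, i ≤ k → w k = w i) {t : ℝ}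
    (ht : (i : ℝ) ≤ m * t) : interp m w t = w i := by
  have h : i ≤ ⌊m * t⌋₊ := Nat.le_floor ht
  rw [interp, hw _ h, hw _ (h.trans (Nat.le_succ _)), sub_self, mul_zero, add_zero]

theorem ext_interp {m T : ℝ} (hm : 0 < m) (hT : 0 ≤ T) {w : ℕ → ℂ} {i : ℕ}
    (hw : ∀ k, i ≤ k → w k = w i) (hi : (i : ℝ) ≤ m * T) :
    ext hT (toC T (interp m w)) = toB (interp m w) :=
  ext_toC hT (cont_interp hm T w) fun t ht => by
    rw [interp_const hw hi, interp_const hw (hi.trans (mul_le_mul_of_nonneg_left ht hm.le))]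

theorem exp_succ (St : ℂ → Set ℂ) (L : ℕ) (x : ℂ) (F : (ℕ → ℂ) → ℝ) :
    walkExp St (L + 1) x F =
      ((St x).ncard : ℝ)⁻¹ * ∑ᶠ y ∈ St x, walkExp St L y fun w => F (consPath x w) := rfl

theorem exp_junk {St : ℂ → Set ℂ} {x : ℂ} (h : ¬ ((St x).Finite ∧ (St x).Nonempty)) (L : ℕ)
    (F : (ℕ → ℂ) → ℝ) : walkExp St (L + 1) x F = 0 := by
  have : (St x).ncard = 0 := by
    by_cases hf : (St x).Finite
    · rw [not_nonempty_iff_eq_empty.1 fun hn => h ⟨hf, hn⟩, ncard_empty]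
    · exact Set.Infinite.ncard hf
  rw [exp_succ, this]
  simp

theorem exp_congr (St : ℂ → Set ℂ) (L : ℕ) : ∀ (x : ℂ) (F G : (ℕ → ℂ) → ℝ),
    (∀ w, (∀ k, L ≤ k → w k = w L) → F w = G w) → walkExp St L x F = walkExp St L x G := by
  induction L with
  | zero => exact fun x F G h => h _ fun _ _ => rfl
  | succ L ih =>
    intro x F G h
    rw [exp_succ, exp_succ]
    congr 1
    refine finsum_mem_congr rfl fun y _ => ih y _ _ fun w hw => h _ fun k hk => ?_
    obtain ⟨k, rfl⟩ := Nat.exists_eq_add_of_le' (Nat.le_add_left 1 L |>.trans hk)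
    exact hw k (by omega)

theorem exp_nonneg (St : ℂ → Set ℂ) (L : ℕ) (x : ℂ) {F : (ℕ → ℂ) → ℝ} (h : ∀ w, 0 ≤ F w) :
    0 ≤ walkExp St L x F := by
  have h1 := walkbasics_ok.abs_le St L x (fun _ => 0) 0 fun _ => by simp
  exact (abs_nonpos_iff.1 h1).ge.trans (PgP3x.mono St L x _ _ h)

/-- Stopping the walk at step `i` changes little when it is then in the sticky set `U`. -/
theorem cut {St : ℂ → Set ℂ} {V U : Set ℂ} (hV : ∀ y ∈ V, St y ⊆ V) {R η c Lc : ℝ} (hR : 0 ≤ R)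
    (hη : 0 ≤ η) (hL : 0 ≤ Lc) (hst : ∀ y ∈ V, y ∈ U → Sticky univ St y R η) (i : ℕ) :
    ∀ (L : ℕ), i ≤ L → ∀ x ∈ V, ∀ G : (ℕ → ℂ) → ℝ, (∀ w, |G w| ≤ c) → SupLip univ Lc G →
      |walkExp St L x G - walkExp St i x G| ≤
        Lc * R + c * η + 2 * c * walkExp St i x fun w => if w i ∈ U then 0 else 1 := by
  induction i with
  | zero =>
    intro L _ x hx G hG hl
    have hc : 0 ≤ c := (abs_nonneg _).trans (hG fun _ => 0)
    show |walkExp St L x G - G fun _ => x| ≤ _ + 2 * c * if x ∈ U then 0 else 1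
    split_ifs with h
    · simpa using hst x hx h L G c Lc hG hL hl
    · have h1 := walkbasics_ok.abs_le St L x G c hG
      have h2 := abs_sub (walkExp St L x G) (G fun _ => x)
      have h3 : 0 ≤ Lc * R + c * η := by positivity
      linarith [hG fun _ => x]
  | succ i ih =>
    intro L hi x hx G hG hl
    have hc : 0 ≤ c := (abs_nonneg _).trans (hG fun _ => 0)
    obtain ⟨L, rfl⟩ := Nat.exists_eq_add_of_le' (Nat.le_add_left 1 i |>.trans hi)
    by_cases h : (St x).Finite ∧ (St x).Nonempty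
    · exact avg_diff_le h.1 h.2 fun y hy =>
        ih L (by omega) y (hV x hx hy) _ (fun w => hG _) (hl.cons (mem_univ x))
    · rw [exp_junk h, exp_junk h, exp_junk h, sub_self, abs_zero]
      positivity

/-- The position at step `i` is seen by a functional of a longer walk. -/
theorem seen (St : ℂ → Set ℂ) (U : Set ℂ) (i : ℕ) : ∀ (j : ℕ), i ≤ j → ∀ (x : ℂ)
    (Ψ : (ℕ → ℂ) → ℝ), (∀ w, Ψ w ≤ if w i ∈ U then 1 else 0) →
      (walkExp St i x fun w => if w i ∈ U then 0 else 1) ≤ 1 - walkExp St j x Ψ := by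
  induction i with
  | zero =>
    intro j _ x Ψ h
    show (if x ∈ U then 0 else 1) ≤ _
    have h1 : walkExp St j x Ψ ≤ if x ∈ U then 1 else 0 := by
      have h2 : |walkExp St j x fun w => if w 0 ∈ U then 1 else 0| ≤ if x ∈ U then 1 else 0 := by
        cases j with
        | zero => exact (abs_of_nonneg (by show 0 ≤ ite _ _ _; split_ifs <;> norm_num)).le
        | succ j =>
          exact walkbasics_ok.abs_le St (j + 1) x (fun _ => if x ∈ U then 1 else 0) _ fun _ =>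
            (abs_of_nonneg (by split_ifs <;> norm_num)).le
      exact (PgP3x.mono St j x _ _ h).trans ((le_abs_self _).trans h2)
    split_ifs at h1 ⊢ <;> linarith
  | succ i ih =>
    intro j hj x Ψ h
    obtain ⟨j, rfl⟩ := Nat.exists_eq_add_of_le' (Nat.le_add_left 1 i |>.trans hj)
    by_cases hs : (St x).Finite ∧ (St x).Nonempty
    · have hp : (0 : ℝ) < (St x).ncard := by exact_mod_cast (ncard_pos hs.1).2 hs.2
      rw [exp_succ, exp_succ, finsum_mem_eq_finite_toFinset_sum _ hs.1,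
        finsum_mem_eq_finite_toFinset_sum _ hs.1, le_sub_iff_add_le, ← mul_add,
        ← Finset.sum_add_distrib, inv_mul_le_iff₀ hp, mul_one, ncard_eq_toFinset_card _ hs.1]
      refine (Finset.sum_le_card_nsmul _ _ 1 fun y _ => ?_).trans (by simp)
      exact le_sub_iff_add_le.1 (ih j (by omega) y _ fun w => h _)
    · rw [exp_junk hs, exp_junk hs]
      norm_num

/-- the paths that are outside `U` at some time after `T` -/
def out (T : ℝ) (U : Set ℂ) : Set C(Icc (0 : ℝ) (T + 1), ℂ) := {q | ∃ t, T ≤ t.1 ∧ q t ∉ U}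

/-- a Lipschitz cut-off that vanishes on `out` -/
def th (k : ℕ) (T : ℝ) (U : Set ℂ) (p : C(Icc (0 : ℝ) (T + 1), ℂ)) : ℝ :=
  min 1 (k * Metric.infDist p (out T U))

theorem th_lip (k : ℕ) (T : ℝ) (U : Set ℂ) : LipschitzWith k (th k T U) := by
  refine LipschitzWith.const_min (LipschitzWith.of_dist_le_mul fun p q => ?_) 1
  have := (Metric.lipschitz_infDist_pt (out T U)).dist_le_mul p q
  rw [Real.dist_eq, ← mul_sub, abs_mul, Nat.abs_cast, NNReal.coe_natCast]
  exact mul_le_mul_of_nonneg_left (by simpa [Real.dist_eq] using this) k.cast_nonneg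

theorem th_abs (k : ℕ) (T : ℝ) (U : Set ℂ) (p : C(Icc (0 : ℝ) (T + 1), ℂ)) : |th k T U p| ≤ 1 := by
  rw [th, abs_of_nonneg (le_min one_pos.le (mul_nonneg k.cast_nonneg Metric.infDist_nonneg))]
  exact min_le_left _ _

theorem th_interp {m T : ℝ} (hm : 1 ≤ m) (hT : 0 ≤ T) (k : ℕ) (U : Set ℂ) (w : ℕ → ℂ) :
    th k T U (toC (T + 1) (interp m w)) ≤ if w ⌈m * T⌉₊ ∈ U then 1 else 0 := by
  split_ifs with h
  · exact min_le_left _ _
  · have hm0 : 0 < m := by linarith
    have h1 : (⌈m * T⌉₊ : ℝ) < m * T + 1 := Nat.ceil_lt_add_one (by positivity)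
    have h2 : (⌈m * T⌉₊ : ℝ) / m ∈ Icc (0 : ℝ) (T + 1) :=
      ⟨by positivity, by rw [div_le_iff₀ hm0]; nlinarith⟩
    have h3 : toC (T + 1) (interp m w) ∈ out T U := ⟨⟨_, h2⟩, by
      show T ≤ _ / m
      rw [le_div_iff₀ hm0, mul_comm]
      exact Nat.le_ceil _, by rwa [coe_toC (cont_interp hm0 _ w), (ip_ok m w hm0).2.1]⟩
    rw [th, Metric.infDist_zero_of_mem h3, mul_zero]
    exact min_le_right _ _

theorem th_one {k : ℕ} {T δ : ℝ} (hT : 0 ≤ T) {U : Set ℂ} (hU : ∃ v, v ∉ U) {y : ℝ → ℂ}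
    (hy : Continuous y) {p : ℂ} (hc : ∀ t, T ≤ t → y t = p) (hb : Metric.ball p δ ⊆ U)
    (hk : 1 ≤ k * δ) : th k T U (toC (T + 1) y) = 1 := by
  obtain ⟨v, hv⟩ := hU
  refine min_eq_left (hk.trans (mul_le_mul_of_nonneg_left ?_ k.cast_nonneg))
  have hne : (out T U).Nonempty := ⟨ContinuousMap.const _ v, ⟨T, hT, by linarith⟩, le_rfl, hv⟩
  refine (Metric.le_infDist hne).2 ?_
  rintro q ⟨t, h1, h2⟩
  refine le_trans ?_ (ContinuousMap.dist_apply_le_dist t)
  rw [coe_toC (hy.comp continuous_subtype_val), hc t h1, dist_comm]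
  exact not_lt.1 fun h => h2 (hb h)

end Unif

open Unif in
theorem pathConvU_of {Ω : Type} [MeasurableSpace Ω] {P : Measure Ω} [IsProbabilityMeasure P]
    {Y : ℝ → Ω → ℂ} {St : ℕ → ℂ → Set ℂ} {x : ℕ → ℂ} {m : ℕ → ℝ} {V : ℕ → Set ℂ} {B : Set ℂ}
    (hC : PathConvLip P Y St x m) (hm : Tendsto m atTop atTop) (hx : ∀ᶠ n in atTop, x n ∈ V n)
    (hV : ∀ n, ∀ y ∈ V n, St n y ⊆ V n)
    (hY : ∀ᵐ ω ∂P, Continuous (fun t => Y t ω) ∧ ∃ σ, Y σ ω ∈ B ∧ ∀ t, σ ≤ t → Y t ω = Y σ ω)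
    (hS : ∀ R > 0, ∀ p ∈ B, ∃ δ > 0, ∀ᶠ n in atTop, ∀ y ∈ V n, dist y p < δ →
      Sticky univ (St n) y R R) : PathConvU P Y St x m := by
  intro N hN
  have hk1 : ∀ k : ℕ, (0 : ℝ) < k + 1 := fun k => by positivity
  have key : ∀ (F : BoundedContinuousFunction ℝ≥0 ℂ → ℝ) (L : ℝ≥0) (c : ℝ), LipschitzWith L F →
      (∀ y, |F y| ≤ c) → AEStronglyMeasurable (fun ω => F (toB fun t => Y t ω)) P ∧
      Tendsto (fun n => walkExp (St n) (N n) (x n) fun w => F (toB (interp (m n) w)))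
        atTop (𝓝 (∫ ω, F (toB fun t => Y t ω) ∂P)) := by
    intro F L c hF hc
    have hc0 : 0 ≤ c := (abs_nonneg _).trans (hc 0)
    have hFe : ∀ {T : ℝ} (hT : 0 ≤ T), LipschitzWith L fun p => F (ext hT p) := fun hT => by
      simpa [Function.comp_def] using hF.comp (lip_ext hT)
    have h1 := fun k : ℕ => hC (k + 1) (hk1 k) _ L c (hFe (hk1 k).le) fun _ => hc _
    have h2 : ∀ᵐ ω ∂P, Tendsto (fun k : ℕ => F (ext (hk1 k).le (toC (k + 1) fun t => Y t ω)))
        atTop (𝓝 (F (toB fun t => Y t ω))) := by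
      filter_upwards [hY] with ω ⟨a, σ, _, b⟩
      refine tendsto_const_nhds.congr' ?_
      filter_upwards [tendsto_natCast_atTop_atTop.eventually_ge_atTop σ] with k hk
      rw [ext_toC (hk1 k).le (a.comp continuous_subtype_val) fun t ht => by
        rw [b t (by linarith), b (k + 1) (by linarith)]]
    refine ⟨aestronglyMeasurable_of_tendsto_ae atTop (fun k => (h1 k).1) h2, ?_⟩
    have h3 := tendsto_integral_of_dominated_convergence (fun _ => c) (fun k => (h1 k).1)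
      (integrable_const _) (fun k => Eventually.of_forall fun ω => hc _) h2
    refine Metric.tendsto_nhds.2 fun ε hε => ?_
    obtain ⟨R, hR, hRε⟩ : ∃ R > 0, 2 * (L * R + c * R) ≤ ε / 2 :=
      ⟨ε / 4 / (L + c + 1), by positivity, by
        rw [← add_mul, ← mul_div_assoc, ← mul_div_assoc, div_le_iff₀ (by positivity)]
        nlinarith⟩
    set U : ℕ → Set ℂ := fun k =>
      {y | ∀ n, k ≤ n → y ∈ V n → Sticky univ (St n) y R R} ∩ Metric.ball 0 k with hU
    have h4 := fun k : ℕ => hC (k + 1) (hk1 k) _ k 1 (th_lip k k (U k)) (th_abs k k (U k))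
    have h5 : Tendsto (fun k : ℕ => ∫ ω, th k k (U k) (toC (k + 1) fun t => Y t ω) ∂P) atTop
        (𝓝 (∫ _, (1 : ℝ) ∂P)) := by
      refine tendsto_integral_of_dominated_convergence (fun _ => 1) (fun k => (h4 k).1)
        (integrable_const _) (fun k => Eventually.of_forall fun ω => th_abs _ _ _ _) ?_
      filter_upwards [hY] with ω ⟨a, σ, a1, b⟩
      obtain ⟨δ, hδ, hs⟩ := hS R hR _ a1
      obtain ⟨n₀, hs⟩ := eventually_atTop.1 hs
      refine tendsto_const_nhds.congr' ?_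
      filter_upwards [tendsto_natCast_atTop_atTop.eventually_ge_atTop σ, eventually_ge_atTop n₀,
        tendsto_natCast_atTop_atTop.eventually_ge_atTop (‖Y σ ω‖ + δ),
        tendsto_natCast_atTop_atTop.eventually_ge_atTop δ⁻¹] with k k1 k2 k3 k4
      refine (th_one (U := U k) k.cast_nonneg ⟨k, fun h => by simpa using h.2⟩ a
        (fun t ht => b t (k1.trans ht)) (δ := δ) (fun y hy => ⟨fun n hn hyV =>
          hs n (k2.trans hn) y hyV hy, ?_⟩) ?_).symm
      · rw [mem_ball_zero_iff]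
        have := norm_le_norm_add_norm_sub' y (Y σ ω)
        rw [Metric.mem_ball, dist_eq_norm] at hy
        linarith
      · rwa [inv_le_iff_one_le_mul₀ hδ] at k4
    have h6 := ((h3.sub_const (∫ ω, F (toB fun t => Y t ω) ∂P)).abs).add
      ((h5.const_sub 1).const_mul (4 * c))
    simp only [sub_self, abs_zero, integral_const, probReal_univ, smul_eq_mul, mul_one, mul_zero,
      add_zero] at h6
    obtain ⟨k, hk⟩ := (h6.eventually (gt_mem_nhds (half_pos hε))).exists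
    have h7 := ((((h1 k).2.sub_const (∫ ω, F (toB fun t => Y t ω) ∂P)).abs).add
      (((h4 k).2.const_sub 1).const_mul (4 * c))).eventually (gt_mem_nhds hk)
    filter_upwards [h7, hx, hm.eventually_ge_atTop 1, hN.eventually_ge_atTop (k + 1),
      eventually_ge_atTop k] with n e1 e2 e3 e4 e5
    have hm0 : 0 < m n := by linarith
    have i1 : (⌈m n * k⌉₊ : ℝ) ≤ m n * (k + 1) := by
      have : (⌈m n * k⌉₊ : ℝ) < m n * k + 1 := Nat.ceil_lt_add_one (by positivity)
      nlinarith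
    have i2 : m n * (k + 1) ≤ N n := by rwa [le_div_iff₀ hm0, mul_comm] at e4
    have i3 : ⌈m n * k⌉₊ ≤ N n := by exact_mod_cast i1.trans i2
    have i4 : ⌈m n * k⌉₊ ≤ ⌈m n * (k + 1)⌉₊ + 1 :=
      (Nat.ceil_mono (by nlinarith)).trans (Nat.le_succ _)
    have hT : 0 ≤ (N n : ℝ) / m n := by positivity
    have i5 : (N n : ℝ) ≤ m n * (N n / m n) := (mul_div_cancel₀ _ hm0.ne').ge
    have lip : ∀ {T : ℝ} (hT : 0 ≤ T),
        SupLip univ L fun w => F (ext hT (toC T (interp (m n) w))) := fun hT => by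
      simpa using supLip_interp ip_ok (S := univ) (LipschitzWith.id.lipschitzOnWith) hm0 (hFe hT)
    have hst : ∀ y ∈ V n, y ∈ U k → Sticky univ (St n) y R R := fun y hy h => h.1 n e5 hy
    have c1 := cut (hV n) hR.le hR.le L.coe_nonneg hst _ _ i3 _ e2 _ (fun _ => hc _) (lip hT)
    have c2 := cut (hV n) hR.le hR.le L.coe_nonneg hst _ _ i4 _ e2 _ (fun _ => hc _) (lip (hk1 k).le)
    have c3 := seen (St n) (U k) _ _ i4 (x n) _ (th_interp e3 k.cast_nonneg k (U k))
    rw [exp_congr _ _ _ _ _ fun w hw => congrArg F (ext_interp hm0 hT hw i5),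
      exp_congr _ _ _ _ _ fun w hw => congrArg F
        (ext_interp hm0 hT hw ((i1.trans i2).trans i5))] at c1
    rw [exp_congr _ ⌈m n * k⌉₊ _ _ _ fun w hw =>
      congrArg F (ext_interp hm0 (hk1 k).le hw i1)] at c2
    have c4 := mul_le_mul_of_nonneg_left c3 (show 0 ≤ 4 * c by positivity)
    rw [Real.dist_eq]
    refine lt_of_le_of_lt (abs_sub_le _ _ _ |>.trans (add_le_add_left
      (abs_sub_le _ _ _ |>.trans (add_le_add c1 ((abs_sub_comm _ _).le.trans c2))) _)) ?_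
    linarith
  intro F
  let En : ℕ → (BoundedContinuousFunction ℝ≥0 ℂ → ℝ) → ℝ := fun n F =>
    walkExp (St n) (N n) (x n) fun w => F (toB (interp (m n) w))
  have hE : ∀ n F G, (∀ w, F w ≤ G w) → En n F ≤ En n G := fun n F G h =>
    PgP3x.mono _ _ _ _ _ fun w => h _
  rw [Metric.tendsto_nhds]
  intro ε hε
  filter_upwards [PgP3x.lower P hE key F.continuous (B := ‖F‖) F.norm_coe_le_norm ε hε,
    PgP3x.lower P hE key (F := fun w => -F w) F.continuous.neg (B := ‖F‖)
      (fun w => by simpa using F.norm_coe_le_norm w) ε hε] with n h1 h2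
  have h3 : En n (fun w => -F w) = -En n F := PgP3x.neg _ _ _ _
  rw [h3, integral_neg] at h2
  show dist (En n F) _ < ε
  rw [Real.dist_eq, abs_lt]
  constructor <;> linarith

end Pool.Agent.Lib.MP_0d9445_pr.Bd
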